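import Pool.Agent.Lib.MP_446a91_nt.Gal.FProLA

/-! Pro-`l` extensions, embeddings, base points (MP_446a91_nt). -/

namespace Pool.Agent.Lib.MP_446a91_nt.Gal

variable {l : ℕ} [Fact l.Prime] {F E : Type} [Field F] [Field E] [Algebra F E]

theorem fprol_fix {K : Type} [Field K] [Algebra F K] [IsGalois F K] [FiniteDimensional F K]
    (φ : K →ₐ[F] E) (g : E ≃ₐ[F] E) (x : K) : (g ^ Module.finrank F K) (φ x) = φ x := by
  let _ : Algebra K E := φ.toRingHom.toAlgebra
  have : IsScalarTower F K E := IsScalarTower.of_algebraMap_eq fun c => (φ.commutes c).symm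
  have h1 : AlgEquiv.restrictNormalHom K (g ^ Module.finrank F K) = 1 := by
    rw [map_pow, ← IsGalois.card_aut_eq_finrank, pow_card_eq_one']
  have h2 := (g ^ Module.finrank F K).restrictNormal_commutes K x
  change algebraMap K E (AlgEquiv.restrictNormalHom K (g ^ Module.finrank F K) x) = _ at h2
  rw [h1] at h2
  exact h2.symm

omit [Fact l.Prime] in
theorem fprol_mono {g : E ≃ₐ[F] E} {x : E} {k k' : ℕ} (hk : k ≤ k') (h : (g ^ l ^ k) x = x) :
    (g ^ l ^ k') x = x := by
  obtain ⟨j, rfl⟩ := Nat.exists_eq_add_of_le hk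
  rw [pow_add, pow_mul]
  exact (MulAction.stabilizer (E ≃ₐ[F] E) x).pow_mem h _

theorem fprol_of_fix [IsGalois F E] (h : ∀ (g : E ≃ₐ[F] E) x, ∃ k, (g ^ l ^ k) x = x) :
    ProLExt l F E := by
  intro L _ _
  rw [← IsGalois.card_aut_eq_finrank]
  refine IsPGroup.iff_card.1 fun τ => ?_
  obtain ⟨g, rfl⟩ := AlgEquiv.restrictNormalHom_surjective E τ
  choose k hk using fun i => h g (Module.finBasis F L i)
  refine ⟨Finset.univ.sup k, AlgEquiv.toLinearMap_injective ((Module.finBasis F L).ext fun i =>
    Subtype.ext ?_)⟩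
  rw [← map_pow]
  exact (AlgEquiv.restrictNormalHom_apply L _ _).trans
    (fprol_mono (Finset.le_sup (Finset.mem_univ i)) (hk i))

/-- A compositum of finite Galois `l`-extensions is Galois and pro-`l` (a finite subextension lies
in a finite compositum; the group of `L₁ ⊔ L₂` embeds in the product of the two groups). -/
theorem sSup_proL (A : Set (IntermediateField F E))
    (h : ∀ L ∈ A, FiniteDimensional F L ∧ IsGalois F L ∧ ∃ n, Module.finrank F L = l ^ n) :
    IsGalois F (sSup A : IntermediateField F E) ∧ ProLExt l F (sSup A : IntermediateField F E) := by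
  have h1 : IsGalois F (sSup A : IntermediateField F E) := by
    have : ∀ L : A, IsGalois F L.1 := fun L => (h L.1 L.2).2.1
    rw [sSup_eq_iSup']
    exact {}
  refine ⟨h1, fprol_of_fix fun g x => ?_⟩
  let S : IntermediateField F (sSup A : IntermediateField F E) :=
    { carrier := {x | ∃ k, (g ^ l ^ k) x = x}
      mul_mem' := fun ⟨a, ha⟩ ⟨b, hb⟩ => ⟨max a b, by
        rw [map_mul, fprol_mono (le_max_left a b) ha, fprol_mono (le_max_right a b) hb]⟩
      add_mem' := fun ⟨a, ha⟩ ⟨b, hb⟩ => ⟨max a b, by
        rw [map_add, fprol_mono (le_max_left a b) ha, fprol_mono (le_max_right a b) hb]⟩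
      algebraMap_mem' := fun c => ⟨0, AlgEquiv.commutes _ c⟩
      inv_mem' := fun x ⟨a, ha⟩ => ⟨a, by rw [map_inv₀, ha]⟩ }
  have h2 : sSup A ≤ IntermediateField.lift S := sSup_le fun L hL y hy => by
    obtain ⟨_, _, n, hn⟩ := h L hL
    have h3 := fprol_fix (IntermediateField.inclusion (le_sSup hL)) g ⟨y, hy⟩
    rw [hn] at h3
    exact (IntermediateField.mem_lift (F := sSup A) (E := S) ⟨y, le_sSup hL hy⟩).2 ⟨n, h3⟩
  exact (IntermediateField.mem_lift x).1 (h2 x.2)

theorem isProL_iff [IsGalois F E] : IsProL l (E ≃ₐ[F] E) ↔ ProLExt l F E := by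
  constructor
  · intro h L _ _
    rw [← IsGalois.card_aut_eq_finrank]
    refine IsPGroup.iff_card.1 fun τ => ?_
    obtain ⟨g, rfl⟩ := AlgEquiv.restrictNormalHom_surjective E τ
    obtain ⟨k, hk⟩ := h (AlgEquiv.restrictNormalHom L).ker inferInstance
      (by rw [L.restrictNormalHom_ker]; exact L.fixingSubgroup_isOpen) g
    exact ⟨k, by rw [← map_pow]; exact hk⟩
  · intro h U _ hU g
    obtain ⟨L, _, _, hL⟩ := (krullTopology_mem_nhds_one_iff_of_normal F E U).1
      (hU.mem_nhds U.one_mem)
    have : IsGalois F L := {}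
    obtain ⟨n, hn⟩ := h L inferInstance inferInstance
    refine ⟨n, hL ((L.mem_fixingSubgroup_iff _).2 fun x hx => ?_)⟩
    rw [← hn]
    exact fprol_fix L.val g ⟨x, hx⟩

/-- A field with all `l`-th roots has no Galois extension of degree `l ^ (n + 1)`. -/
theorem fprol_closed {P N : Type} [Field P] [Field N] [Algebra P N] [FiniteDimensional P N]
    [IsGalois P N] {ζ : P} (hζ : IsPrimitiveRoot ζ l) (hP : ∀ x : P, ∃ r, r ^ l = x)
    (hG : IsPGroup l (N ≃ₐ[P] N)) : Module.finrank P N = 1 := by
  have hl : l.Prime := Fact.out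
  obtain ⟨n, hn⟩ := IsPGroup.iff_card.1 hG
  rcases n with _ | n
  · rw [← IsGalois.card_aut_eq_finrank, hn, pow_zero]
  exfalso
  obtain ⟨H, hH⟩ := Sylow.exists_subgroup_card_pow_prime (G := N ≃ₐ[P] N) l (n := n)
    (by rw [hn]; exact pow_dvd_pow l n.le_succ)
  have h1 : H.index = l := by
    have h2 := H.card_mul_index
    rw [hH, hn, pow_succ] at h2
    exact Nat.eq_of_mul_eq_mul_left (pow_pos hl.pos n) h2
  have : H.Normal := Subgroup.normal_of_index_eq_minFac_card
    (by rw [h1, hn, hl.pow_minFac n.succ_ne_zero])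
  have h2 : Module.finrank P (IntermediateField.fixedField H) = l := by
    have h3 := Module.finrank_mul_finrank P (IntermediateField.fixedField H) N
    rw [IntermediateField.finrank_fixedField_eq_card, hH, ← IsGalois.card_aut_eq_finrank P N, hn,
      pow_succ'] at h3
    exact Nat.eq_of_mul_eq_mul_right (pow_pos hl.pos n) h3
  have : IsCyclic (IntermediateField.fixedField H ≃ₐ[P] IntermediateField.fixedField H) :=
    isCyclic_of_prime_card (p := l) (by rw [IsGalois.card_aut_eq_finrank, h2])
  obtain ⟨α, ⟨a, ha⟩, h3⟩ := exists_root_adjoin_eq_top_of_isCyclic P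
    (IntermediateField.fixedField H) ⟨ζ, by rw [h2, mem_primitiveRoots hl.pos]; exact hζ⟩
  obtain ⟨r, rfl⟩ := hP a
  rw [h2, map_pow] at ha
  have h4 : α ∈ (⊥ : IntermediateField P (IntermediateField.fixedField H)) := by
    by_cases h0 : algebraMap P (IntermediateField.fixedField H) r = 0
    · rw [h0, zero_pow hl.ne_zero] at ha
      rw [pow_eq_zero_iff hl.ne_zero |>.1 ha.symm]
      exact zero_mem _
    · have : NeZero l := ⟨hl.ne_zero⟩
      obtain ⟨i, -, hi⟩ := (hζ.map_of_injective (algebraMap P
        (IntermediateField.fixedField H)).injective).eq_pow_of_pow_eq_one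
        (ξ := α / algebraMap P _ r) (by rw [div_pow, ← ha, div_self (pow_ne_zero _ h0)])
      rw [eq_div_iff h0, ← map_pow, ← map_mul] at hi
      exact ⟨_, hi⟩
  rw [IntermediateField.adjoin_simple_eq_bot_iff.2 h4,
    IntermediateField.bot_eq_top_iff_finrank_eq_one, h2] at h3
  exact hl.ne_one h3

/-- Paper A1 (Emb). For finite Galois `L` of `l`-power degree embed `L` in an algebraic closure of
`P`; the compositum is Galois over `P` with an `l`-group, which has no quotient `ℤ / l` by Kummer
theory (`exists_root_adjoin_eq_top_of_isCyclic`), so it is `P`; then all minimal polynomials split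
in `P` (`IntermediateField.exists_algHom_of_splits` or `nonempty_algHom_of_adjoin_splits`). -/
theorem exists_emb [IsGalois F E] (hE : ProLExt l F E) {P : Type} [Field P] [CharZero P]
    {ζ : P} (hζ : IsPrimitiveRoot ζ l) (hP : ∀ x : P, ∃ r, r ^ l = x) (j₀ : F →+* P) :
    ∃ j : E →+* P, ∀ c, j (algebraMap F E c) = j₀ c := by
  let _ : Algebra F P := j₀.toAlgebra
  have key : ∀ x : E, ((minpoly F x).map (algebraMap F P)).Splits := by
    intro x
    have h1 := IntermediateField.adjoin_rootSet_isSplittingField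
      (Normal.splits (F := F) inferInstance x)
    have h2 : (minpoly F x).Separable := Algebra.IsSeparable.isSeparable F x
    have := Polynomial.IsSplittingField.finiteDimensional
      (IntermediateField.adjoin F ((minpoly F x).rootSet E)) (minpoly F x)
    have := IsGalois.of_separable_splitting_field
      (E := IntermediateField.adjoin F ((minpoly F x).rootSet E)) h2
    obtain ⟨n, hn⟩ := hE (IntermediateField.adjoin F ((minpoly F x).rootSet E)) inferInstance
      inferInstance
    have h3 : ((minpoly F x).map (algebraMap F P)).Separable := h2.map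
    set q := (minpoly F x).map (algebraMap F P) with hq
    have := IsGalois.of_separable_splitting_field (E := q.SplittingField) h3
    have h4 : ((minpoly F x).map (algebraMap F q.SplittingField)).Splits := by
      have h5 := Polynomial.SplittingField.splits q
      rwa [hq, Polynomial.map_map, ← IsScalarTower.algebraMap_eq] at h5
    let φ := Polynomial.IsSplittingField.lift
      (IntermediateField.adjoin F ((minpoly F x).rootSet E)) (minpoly F x) h4
    refine (Polynomial.IsSplittingField.splits_iff q.SplittingField q).2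
      (Subalgebra.bot_eq_top_iff_finrank_eq_one.2 (fprol_closed hζ hP fun σ => ⟨n, ?_⟩)).symm
    refine AlgEquiv.coe_toAlgHom_injective (AlgHom.ext_of_adjoin_eq_top
      (Polynomial.SplittingField.adjoin_rootSet q) fun y hy => ?_)
    have h5 : q.rootSet q.SplittingField = (minpoly F x).rootSet q.SplittingField := by
      classical
      rw [Polynomial.rootSet_def, Polynomial.rootSet_def, hq, Polynomial.aroots_map]
    rw [h5, ← h1.splits'.image_rootSet φ] at hy
    obtain ⟨y, -, rfl⟩ := hy
    have h6 := fprol_fix φ (MulSemiringAction.toAlgAut _ F q.SplittingField σ) y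
    rw [hn, ← map_pow] at h6
    exact h6
  obtain ⟨j⟩ := IntermediateField.nonempty_algHom_of_splits (F := F) (E := E) (K := P)
    fun x => ⟨Algebra.IsIntegral.isIntegral x, key x⟩
  exact ⟨j, j.commutes⟩

/-- Two embeddings of a normal extension differ by an automorphism. -/
theorem exists_bp [Normal F E] {P : Type} [Field P] (j j' : E →+* P)
    (h : ∀ c, j' (algebraMap F E c) = j (algebraMap F E c)) :
    ∃ g : E ≃ₐ[F] E, ∀ x, j (g x) = j' x := by
  let _ : Algebra E P := j.toAlgebra
  let _ : Algebra F P := (j.comp (algebraMap F E)).toAlgebra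
  have : IsScalarTower F E P := IsScalarTower.of_algebraMap_eq fun _ => rfl
  let φ : E →ₐ[F] P := { j' with commutes' := h }
  exact ⟨φ.restrictNormal' E, fun x => φ.restrictNormal_commutes E x⟩

/-- Semilinear form. -/
theorem exists_bp' [Normal F E] {P : Type} [Field P] (j : E →+* P) (γ : P ≃+* P) (s : E ≃+* E)
    (hs : Nrm F s) (h : ∀ c, γ (j (algebraMap F E c)) = j (s (algebraMap F E c))) :
    ∃ g : E ≃+* E, (∀ x, j (g x) = γ (j x)) ∧ ∀ c, g (algebraMap F E c) = s (algebraMap F E c) := by
  obtain ⟨g, hg⟩ := exists_bp (F := F) j ((γ : P →+* P).comp (j.comp (s.symm : E →+* E)))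
    fun c => by
      obtain ⟨c', hc⟩ := (hs (s.symm (algebraMap F E c))).1 ⟨c, (s.apply_symm_apply _).symm⟩
      change γ (j (s.symm _)) = _
      rw [← hc, h, hc, s.apply_symm_apply]
  refine ⟨s.trans g.toRingEquiv, fun x => (hg (s x)).trans ?_, fun c => ?_⟩
  · change γ (j (s.symm (s x))) = _
    rw [s.symm_apply_apply]
  · obtain ⟨c', hc⟩ := (hs (algebraMap F E c)).2 ⟨c, rfl⟩
    change g (s _) = _
    rw [← hc, g.commutes]

/-- A family of such automorphisms is a homomorphism. -/
theorem exists_bp_hom {Γ P : Type} [Group Γ] [Field P] (j : E →+* P) (γ : Γ →* (P ≃+* P))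
    (h : ∀ a, ∃ g : E ≃+* E, ∀ x, j (g x) = γ a (j x)) :
    ∃ s : Γ →* (E ≃+* E), ∀ a x, j (s a x) = γ a (j x) := by
  choose s hs using h
  refine ⟨MonoidHom.mk' s fun a b => RingEquiv.ext fun x => j.injective ?_, hs⟩
  change _ = j (s a (s b x))
  rw [hs, hs, hs, map_mul]
  rfl

end Pool.Agent.Lib.MP_446a91_nt.Gal
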