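import Pool.Agent.Lib.MP_446a91_nt.Gal.FHahn
import Pool.Agent.Lib.MP_446a91_nt.Gal.FProL

/-! Ramification index one versus trivial monodromy (MP_446a91_nt). -/

namespace Pool.Agent.Lib.MP_446a91_nt.Gal

open Polynomial UniqueFactorizationMonoid

theorem fbridge_int {Γ : Type} [LinearOrderedAddCommGroupWithTop Γ] {R E : Type} [CommRing R]
    [CommRing E] [Algebra R E] (v : AddValuation E Γ) (h : ∀ r, 0 ≤ v (algebraMap R E r)) {x : E}
    (hx : IsIntegral R x) : 0 ≤ v x := by
  have h1 : IsIntegral (AddValuation.toValuation v).integer ((RingHom.id E) x) :=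
    hx.map_of_comp_eq ((algebraMap R E).codRestrict (AddValuation.toValuation v).integer
      (fun r => h r)) (RingHom.id E) (by ext r; rfl)
  exact (Valuation.integer.integers _).mem_of_integral h1

theorem fbridge_poly {Γ : Type} [LinearOrderedAddCommGroupWithTop Γ] {k : Type} [Field k]
    (v : AddValuation k[X] Γ) (h : ∀ c, 0 ≤ v (C c)) (hX : 0 ≤ v X) (p : k[X]) : 0 ≤ v p := by
  induction p using Polynomial.induction_on' with
  | add p q hp hq => exact v.map_le_add hp hq
  | monomial n a =>
    rw [← C_mul_X_pow_eq_monomial, v.map_mul, v.map_pow]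
    exact add_nonneg (h a) (nsmul_nonneg hX n)

/-- In a Dedekind domain a valuation with centre `P` is a multiple of the `P`-adic one. -/
theorem fbridge_ded {Γ : Type} [LinearOrderedAddCommGroupWithTop Γ] {B : Type} [CommRing B]
    [IsDedekindDomain B] (v : AddValuation B Γ) (h : ∀ b, 0 ≤ v b) (P : Ideal B) [P.IsPrime]
    (hP : ∀ b, b ∈ P ↔ 0 < v b) (h0 : P ≠ ⊥) :
    ∃ π : B, π ≠ 0 ∧ 0 < v π ∧ ∀ b, b ≠ 0 →
      v b = (normalizedFactors (Ideal.span {b})).count P • v π := by
  have hM : P.IsMaximal := Ideal.IsPrime.isMaximal inferInstance h0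
  obtain ⟨π, h1, h2⟩ := Ideal.exists_mem_pow_notMem_pow_succ P h0 hM.ne_top 1
  rw [pow_one] at h1
  have hπ : π ≠ 0 := by rintro rfl; exact h2 (zero_mem _)
  have hz : ∀ s, s ∉ P → v s = 0 := fun s hs =>
    le_antisymm (not_lt.1 fun h' => hs ((hP s).2 h')) (h s)
  have hex : ∀ Q : Ideal B, P ⊔ Q = ⊤ → ∃ s ∈ Q, s ∉ P := fun Q hQ => by
    by_contra hc
    push Not at hc
    exact hM.ne_top (by rw [← hQ]; exact (sup_eq_left.2 hc).symm)
  obtain ⟨J, hJ, eJ⟩ := Ideal.eq_prime_pow_mul_coprime (I := Ideal.span {π})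
    (by simpa using hπ) P
  have hc : (normalizedFactors (Ideal.span {π})).count P = 1 := by
    rcases hm : (normalizedFactors (Ideal.span {π})).count P with _ | _ | m
    · rw [hm, pow_zero, one_mul] at eJ
      exact absurd (by rw [← hJ, ← eJ]; exact (sup_eq_left.2 (by simpa using h1)).symm) hM.ne_top
    · rfl
    · rw [hm] at eJ
      refine absurd ?_ h2
      have : Ideal.span {π} ≤ P ^ (1 + 1) := by
        rw [eJ]
        exact Ideal.mul_le_left.trans (Ideal.pow_le_pow_right (by omega))
      simpa using this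
  rw [hc, pow_one] at eJ
  obtain ⟨t, ht, ht'⟩ := hex J hJ
  refine ⟨π, hπ, (hP π).1 h1, fun b hb => ?_⟩
  obtain ⟨Q, hQ, eQ⟩ := Ideal.eq_prime_pow_mul_coprime (I := Ideal.span {b}) (by simpa using hb) P
  generalize (normalizedFactors (Ideal.span {b})).count P = n at eQ
  obtain ⟨s, hs, hs'⟩ := hex Q hQ
  apply le_antisymm
  · have : π ^ n * s ∈ Ideal.span {b} := by
      rw [eQ]; exact Ideal.mul_mem_mul (Ideal.pow_mem_pow h1 n) hs
    obtain ⟨c, hc⟩ := Ideal.mem_span_singleton'.1 this
    have e := congrArg v hc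
    rw [v.map_mul, v.map_mul, v.map_pow, hz s hs', add_zero] at e
    rw [← e]
    exact le_add_of_nonneg_left (h c)
  · have : b * t ^ n ∈ Ideal.span {π ^ n} := by
      rw [← Ideal.span_singleton_pow, eJ, mul_pow]
      refine Ideal.mul_mem_mul ?_ (Ideal.pow_mem_pow ht n)
      have : Ideal.span {b} ≤ P ^ n := by rw [eQ]; exact Ideal.mul_le_left
      simpa using this
    obtain ⟨c, hc⟩ := Ideal.mem_span_singleton'.1 this
    have e := congrArg v hc
    rw [v.map_mul, v.map_mul, v.map_pow, v.map_pow, hz t ht', nsmul_zero, add_zero] at e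
    rw [← e]
    exact le_add_of_nonneg_left (h c)

variable {l : ℕ} [Fact l.Prime] {k k' : Type} [Field k] [Field k'] {z : ℕ → k'}

omit [Fact l.Prime] in
theorem fbridge_lin {E : Type} [Field E] [Algebra (RatFunc k) E] {φ : k →+* k'} {T : HS l k'}
    {j : E →+* HS l k'} (hj : Over φ T j) (a : k) :
    j (algebraMap (RatFunc k) E (algebraMap k[X] (RatFunc k) (X - C a))) =
      T - HahnSeries.C (φ a) := by
  rw [map_sub, map_sub, map_sub, RatFunc.algebraMap_X, RatFunc.algebraMap_C, hj.1, hj.2]

omit [Fact l.Prime] in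
theorem fbridge_nonneg {E : Type} [Field E] [Algebra (RatFunc k) E] {φ : k →+* k'} {T : HS l k'}
    {j : E →+* HS l k'} (hj : Over φ T j) (h0 : 0 ≤ T.orderTop) (p : k[X]) :
    0 ≤ (j (algebraMap (RatFunc k) E (algebraMap k[X] (RatFunc k) p))).orderTop := by
  refine fbridge_poly ((HahnSeries.addVal (Zl l) k').comap
    (j.comp ((algebraMap (RatFunc k) E).comp (algebraMap k[X] (RatFunc k))))) (fun c => ?_) ?_ p
  · change 0 ≤ (j (algebraMap (RatFunc k) E (algebraMap k[X] (RatFunc k) (C c)))).orderTop
    rw [RatFunc.algebraMap_C, hj.1]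
    exact HahnSeries.orderTop_single_le
  · change 0 ≤ (j (algebraMap (RatFunc k) E (algebraMap k[X] (RatFunc k) X))).orderTop
    rw [RatFunc.algebraMap_X, hj.2]
    exact h0

omit [Fact l.Prime] in
theorem fbridge_key [CharZero k] (L : IntermediateField (RatFunc k) (Om k))
    [FiniteDimensional (RatFunc k) L] {a : k} (φ : k →+* k') {T : HS l k'}
    (h0 : 0 < (T - HahnSeries.C (φ a)).order) (j : L →+* HS l k') (hj : Over φ T j) :
    ∃ P : Ideal (integralClosure k[X] L), P.IsPrime ∧ P.LiesOver (Ideal.span {X - C a}) ∧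
      ∃ π : L, 0 < (j π).order ∧
        (T - HahnSeries.C (φ a)).order = P.ramificationIdx k[X] • (j π).order ∧
        ∀ y, ∃ n : ℤ, (j y).order = n • (j π).order := by
  have hD : IsDedekindDomain (integralClosure k[X] L) :=
    IsIntegralClosure.isDedekindDomain k[X] (RatFunc k) L _
  have hF : IsFractionRing (integralClosure k[X] L) L :=
    integralClosure.isFractionRing_of_finite_extension (RatFunc k) L
  have h1 := HahnSeries.zero_lt_orderTop_of_order h0
  have hne : T - HahnSeries.C (φ a) ≠ 0 := by
    intro h; rw [h] at h0; simp at h0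
  have hT : 0 ≤ T.orderTop := by
    have := (HahnSeries.addVal (Zl l) k').map_le_add (g := 0) (x := T - HahnSeries.C (φ a))
      (y := HahnSeries.C (φ a)) h1.le HahnSeries.orderTop_single_le
    rwa [sub_add_cancel] at this
  let w : AddValuation L (WithTop (Zl l)) := (HahnSeries.addVal (Zl l) k').comap j
  let v : AddValuation (integralClosure k[X] L) (WithTop (Zl l)) :=
    w.comap (algebraMap (integralClosure k[X] L) L)
  have hv : ∀ b, v b = (j b).orderTop := fun b => rfl
  have hv0 : ∀ b, 0 ≤ v b := fun b =>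
    fbridge_int (R := k[X]) w (fun r => by
      rw [IsScalarTower.algebraMap_apply k[X] (RatFunc k) L]
      exact fbridge_nonneg hj hT r) b.2
  let P : Ideal (integralClosure k[X] L) :=
    { carrier := {b | 0 < v b}
      add_mem' := fun hx hy => v.map_lt_add hx hy
      zero_mem' := by simp
      smul_mem' := fun c x hx => by
        change 0 < v (c * x)
        rw [v.map_mul]
        exact lt_of_lt_of_le hx (le_add_of_nonneg_left (hv0 c)) }
  have hP : ∀ b, b ∈ P ↔ 0 < v b := fun b => Iff.rfl
  have hpr : P.IsPrime := by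
    refine ⟨fun h => ?_, fun {x y} h => ?_⟩
    · have : (1 : integralClosure k[X] L) ∈ P := h ▸ Submodule.mem_top
      rw [hP, v.map_one] at this
      exact lt_irrefl _ this
    · by_contra hc
      rw [not_or, hP, hP, not_lt, not_lt] at hc
      rw [hP, v.map_mul, le_antisymm hc.1 (hv0 x), le_antisymm hc.2 (hv0 y), add_zero] at h
      exact lt_irrefl _ h
  have hlin : j (algebraMap k[X] (integralClosure k[X] L) (X - C a)) =
      T - HahnSeries.C (φ a) := by
    rw [← fbridge_lin hj a, ← IsScalarTower.algebraMap_apply k[X] (RatFunc k) L]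
    rfl
  have hb0 : algebraMap k[X] (integralClosure k[X] L) (X - C a) ≠ 0 := by
    intro h
    rw [h] at hlin
    exact hne (by simpa using hlin.symm)
  have hmem : algebraMap k[X] (integralClosure k[X] L) (X - C a) ∈ P := by
    rw [hP, hv, hlin]; exact h1
  have hmax : (Ideal.span {X - C a} : Ideal k[X]).IsMaximal :=
    PrincipalIdealRing.isMaximal_of_irreducible (irreducible_X_sub_C a)
  have hlo : P.LiesOver (Ideal.span {X - C a}) :=
    ⟨hmax.eq_of_le (Ideal.comap_ne_top _ hpr.ne_top) (by
      rw [Ideal.span_singleton_le_iff_mem]; exact hmem)⟩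
  have hP0 : P ≠ ⊥ := fun h => hb0 (by simpa [h] using hmem)
  obtain ⟨π, hπ, hπ0, hall⟩ := fbridge_ded v hv0 P hP hP0
  have hj0 : ∀ b : integralClosure k[X] L, b ≠ 0 → j b ≠ 0 := fun b hb => by
    simpa using hb
  have hord : ∀ b : integralClosure k[X] L, b ≠ 0 →
      (j b).order = (normalizedFactors (Ideal.span {b})).count P • (j π).order := fun b hb => by
    have := hall b hb
    rw [hv, hv, ← HahnSeries.order_eq_orderTop_of_ne_zero (hj0 b hb),
      ← HahnSeries.order_eq_orderTop_of_ne_zero (hj0 π hπ)] at this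
    exact_mod_cast this
  refine ⟨P, hpr, hlo, π, (HahnSeries.zero_lt_orderTop_iff (hj0 π hπ)).1 hπ0, ?_, fun y => ?_⟩
  · have e : (Ideal.span {X - C a} : Ideal k[X]).map
        (algebraMap k[X] (integralClosure k[X] L)) =
        Ideal.span {algebraMap k[X] (integralClosure k[X] L) (X - C a)} := by
      rw [Ideal.map_span, Set.image_singleton]
    rw [Ideal.IsDedekindDomain.ramificationIdx_eq_normalizedFactors_count
      (Ideal.span {X - C a}) P (by rw [e]; simpa using hb0), e, ← hord _ hb0, hlin]
  · obtain ⟨b, c, hc, rfl⟩ := IsFractionRing.div_surjective (A := integralClosure k[X] L) y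
    have hc0 : c ≠ 0 := nonZeroDivisors.ne_zero hc
    by_cases hb : b = 0
    · exact ⟨0, by simp [hb]⟩
    have e : j (algebraMap _ L b / algebraMap _ L c) * j c = j b := by
      rw [← map_mul]
      congr 1
      exact div_mul_cancel₀ _ (by simpa using hc0)
    have hy : j (algebraMap _ L b / algebraMap _ L c) ≠ 0 :=
      left_ne_zero_of_mul (e ▸ hj0 b hb)
    have e2 := congrArg HahnSeries.order e
    rw [HahnSeries.order_mul hy (hj0 c hc0), hord b hb, hord c hc0] at e2
    refine ⟨((normalizedFactors (Ideal.span {b})).count P : ℤ) -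
      ((normalizedFactors (Ideal.span {c})).count P : ℤ), ?_⟩
    rw [sub_smul, natCast_zsmul, natCast_zsmul, ← e2, add_sub_cancel_right]

/-- Let `B` be the integral closure of `k[X]` in `L` (Dedekind). `0 ≤ T.order` gives order `≥ 0` on
`j B` (integral equation), `P = {b | b = 0 or 0 < order (j b)}` is a prime over `(X - a)`, `B_P` is
a discrete valuation ring whose units have order `0`; ramification index one says that `X - a`
generates its maximal ideal, so every `y ≠ 0` is a unit times a power of `X - a`. -/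
theorem order_of_unram [CharZero k] (L : IntermediateField (RatFunc k) (Om k))
    [FiniteDimensional (RatFunc k) L] {a : k} (h : UnramAt L a) (φ : k →+* k') {T : HS l k'}
    (h0 : 0 < (T - HahnSeries.C (φ a)).order) (j : L →+* HS l k') (hj : Over φ T j) (y : L) :
    ∃ n : ℤ, (j y).order = n • (T - HahnSeries.C (φ a)).order := by
  obtain ⟨P, h1, h2, π, -, h3, h4⟩ := fbridge_key L φ h0 j hj
  rw [h P h1 h2, one_smul] at h3
  rw [h3]
  exact h4 y

/-- If the constant term of `T` is not in `φ k` then all linear factors, so all of `k(t)ˣ`, so all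
algebraic elements have order zero. -/
theorem order_of_trans [IsAlgClosed k] {E : Type} [Field E] [Algebra (RatFunc k) E]
    [Algebra.IsAlgebraic (RatFunc k) E] (φ : k →+* k') {T : HS l k'} (h0 : 0 ≤ T.order)
    (h1 : ∀ a, T.coeff 0 ≠ φ a) (j : E →+* HS l k') (hj : Over φ T j) (y : E) :
    (j y).order = 0 := by
  have hT := HahnSeries.zero_le_orderTop_iff.2 h0
  let w : AddValuation E (WithTop (Zl l)) := (HahnSeries.addVal (Zl l) k').comap j
  let v : AddValuation k[X] (WithTop (Zl l)) :=
    w.comap ((algebraMap (RatFunc k) E).comp (algebraMap k[X] (RatFunc k)))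
  have hv : ∀ p, v p = (j (algebraMap (RatFunc k) E (algebraMap k[X] (RatFunc k) p))).orderTop :=
    fun p => rfl
  have hlin : ∀ a, v (X - C a) = 0 := fun a => by
    refine le_antisymm ?_ (fbridge_nonneg hj hT _)
    rw [hv, fbridge_lin hj]
    refine HahnSeries.orderTop_le_of_coeff_ne_zero (g := 0) ?_
    simpa [sub_eq_zero] using h1 a
  have hC : ∀ c, c ≠ 0 → v (C c) = 0 := fun c hc => by
    rw [hv, RatFunc.algebraMap_C, hj.1]
    exact HahnSeries.orderTop_single (by simpa using hc)
  have hprod : ∀ s : Multiset k, v (s.map fun a => X - C a).prod = 0 := fun s => by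
    induction s using Multiset.induction_on with
    | empty => simp
    | cons a s ih => rw [Multiset.map_cons, Multiset.prod_cons, v.map_mul, hlin, ih, add_zero]
  have hp : ∀ p, p ≠ 0 → v p = 0 := fun p hp => by
    rw [(IsAlgClosed.splits p).eq_prod_roots, v.map_mul, hprod, hC _ (by simpa using hp), add_zero]
  have hr : ∀ r, 0 ≤ w (algebraMap (RatFunc k) E r) := fun r => by
    have e : r * algebraMap k[X] (RatFunc k) r.denom = algebraMap k[X] (RatFunc k) r.num := by
      rw [← eq_div_iff (RatFunc.algebraMap_ne_zero r.denom_ne_zero), r.num_div_denom]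
    have e2 : w (algebraMap (RatFunc k) E r) + v r.denom = v r.num := by
      change _ + w (algebraMap (RatFunc k) E (algebraMap k[X] (RatFunc k) r.denom)) =
        w (algebraMap (RatFunc k) E (algebraMap k[X] (RatFunc k) r.num))
      rw [← w.map_mul, ← map_mul, e]
    rw [hp _ r.denom_ne_zero, add_zero] at e2
    rw [e2]
    exact fbridge_nonneg hj hT _
  have hall : ∀ x : E, 0 ≤ (j x).order := fun x =>
    HahnSeries.zero_le_orderTop_iff.1
      (fbridge_int w hr (Algebra.IsAlgebraic.isAlgebraic x).isIntegral)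
  by_cases hy : y = 0
  · simp [hy]
  have e : j y * j y⁻¹ = 1 := by rw [← map_mul, mul_inv_cancel₀ hy, map_one]
  have e2 := congrArg HahnSeries.order e
  rw [HahnSeries.order_mul (left_ne_zero_of_mul_eq_one e) (right_ne_zero_of_mul_eq_one e),
    HahnSeries.order_one] at e2
  exact le_antisymm (e2 ▸ le_add_of_nonneg_right (hall _)) (hall y)

/-- With `P` as above, `X - a = u ϖ ^ e` in `B_P` and `1 = e * order ϖ` with integer orders; all
primes over `(X - a)` have the same ramification index in a Galois extension. -/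
theorem unram_of_order [CharZero k] (L : IntermediateField (RatFunc k) (Om k))
    [FiniteDimensional (RatFunc k) L] [IsGalois (RatFunc k) L] (a : k) (j : L →+* HS l k)
    (hj : Over (RingHom.id k) (HahnSeries.C a + ww l k) j)
    (h : ∀ y, ∃ n : ℤ, (j y).order = iZ l n) : UnramAt L a := by
  have e : (HahnSeries.C a + ww l k - HahnSeries.C ((RingHom.id k) a)).order = iZ l 1 := by
    rw [RingHom.id_apply, add_sub_cancel_left, order_ww]
  obtain ⟨P, h1, h2, π, -, h3, -⟩ := fbridge_key L (a := a) (RingHom.id k)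
    (by rw [e]; exact Subtype.coe_lt_coe.1 (by simp [iZ])) j hj
  obtain ⟨m, hm⟩ := h π
  rw [e, hm] at h3
  have h4 : (1 : ℤ) = (P.ramificationIdx k[X] : ℤ) * m := by
    have := congrArg (fun r : Zl l => (r : ℚ)) h3
    simp only [iZ, AddSubgroup.coe_nsmul, nsmul_eq_mul] at this
    exact_mod_cast this
  have h5 : P.ramificationIdx k[X] = 1 := by
    have := Int.isUnit_iff_natAbs_eq.1 (IsUnit.of_mul_eq_one m h4.symm)
    simpa using this
  intro Q hQ hQ'
  have hF : IsFractionRing (integralClosure k[X] L) L :=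
    integralClosure.isFractionRing_of_finite_extension (RatFunc k) L
  let := IsIntegralClosure.MulSemiringAction k[X] (RatFunc k) L (integralClosure k[X] L)
  have := IsGaloisGroup.of_isFractionRing Gal(L/RatFunc k) k[X] (integralClosure k[X] L)
    (RatFunc k) L
  rw [← h5]
  exact Ideal.ramificationIdx_eq_of_isGaloisGroup (Ideal.span {X - C a}) Q P Gal(L/RatFunc k)

/-- The set of `x` fixed by `tau ∘ j` is an intermediate field. For `L` in the family, `tau ∘ j`
and `j` agree on `k(t)`, so `j L` is `tau`-stable (`exists_bp`); orders on `j L` are integers by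
the first two lemmas (`order_int` for `T - C (φ a)`); conclude with `tau_fix`. -/
theorem fix_of_over [IsAlgClosed k] [CharZero k] {S : Set k} (φ : k →+* k') (hz : IsRoots l z)
    {T : HS l k'} (hT : tau hz T = T) (h0 : 0 ≤ T.order) (hS : ∀ a ∈ S, T.coeff 0 ≠ φ a)
    (j : maxExt l k S →+* HS l k') (hj : Over φ T j) (x : maxExt l k S) :
    tau hz (j x) = j x := by
  have hbase : ∀ c, tau hz (j (algebraMap (RatFunc k) (maxExt l k S) c)) =
      j (algebraMap (RatFunc k) (maxExt l k S) c) := fun c =>
    RingHom.congr_fun (ratFunc_ext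
      (j := (tau hz).toRingHom.comp (j.comp (algebraMap (RatFunc k) (maxExt l k S))))
      (j' := j.comp (algebraMap (RatFunc k) (maxExt l k S)))
      (fun c => by
        change tau hz (j _) = j _
        rw [hj.1, tau_C])
      (by
        change tau hz (j _) = j _
        rw [hj.2, hT])) c
  let A : IntermediateField (RatFunc k) (maxExt l k S) :=
    (RingHom.eqLocusField ((tau hz).toRingHom.comp j) j).toIntermediateField hbase
  have key : maxExt l k S ≤ IntermediateField.lift A := by
    refine sSup_le fun L hL => ?_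
    have hle : L ≤ maxExt l k S := le_sSup hL
    obtain ⟨hfd, hgal, -, hun⟩ := hL
    intro y hy
    refine (IntermediateField.mem_lift (⟨y, hle hy⟩ : maxExt l k S)).2 ?_
    let jL : L →+* HS l k' := j.comp (IntermediateField.inclusion hle).toRingHom
    have hjL : Over φ T jL := ⟨hj.1, hj.2⟩
    obtain ⟨g, hg⟩ := exists_bp (F := RatFunc k) jL ((tau hz).toRingHom.comp jL) hbase
    have hint : ∀ u : L, ∃ n : ℤ, (jL u).order = iZ l n := by
      by_cases hc : ∃ a, T.coeff 0 = φ a
      · obtain ⟨a, ha⟩ := hc
        have hne : T - HahnSeries.C (φ a) ≠ 0 := by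
          rw [← fbridge_lin hj a]
          exact (_root_.map_ne_zero j).2 ((_root_.map_ne_zero _).2
            (RatFunc.algebraMap_ne_zero (X_sub_C_ne_zero a)))
        have hge : 0 ≤ (T - HahnSeries.C (φ a)).order := by
          rw [← fbridge_lin hj a]
          exact HahnSeries.zero_le_orderTop_iff.1
            (fbridge_nonneg hj (HahnSeries.zero_le_orderTop_iff.2 h0) _)
        have hpos : 0 < (T - HahnSeries.C (φ a)).order := by
          refine lt_of_le_of_ne hge fun h => hne ?_
          rw [← HahnSeries.coeff_order_eq_zero, ← h]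
          simp [ha]
        obtain ⟨m, hm⟩ := order_int hz (F := T - HahnSeries.C (φ a)) (by rw [map_sub, hT, tau_C])
        intro u
        obtain ⟨n, hn⟩ := order_of_unram L (hun a fun h => hS a h ha) φ hpos jL hjL u
        refine ⟨n * m, ?_⟩
        rw [hn, hm]
        exact Subtype.ext (by simp [iZ])
      · intro u
        refine ⟨0, ?_⟩
        rw [order_of_trans φ h0 (fun a h => hc ⟨a, h⟩) jL hjL u]
        exact Subtype.ext (by simp [iZ])
    change tau hz (jL ⟨y, hy⟩) = jL ⟨y, hy⟩
    refine tau_fix hz ?_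
    have e : tau hz (jL ⟨y, hy⟩) - jL ⟨y, hy⟩ = jL (g ⟨y, hy⟩ - ⟨y, hy⟩) := by
      rw [map_sub, hg]; rfl
    rw [e]
    exact hint _
  exact (IntermediateField.mem_lift x).1 (key x.2)

end Pool.Agent.Lib.MP_446a91_nt.Gal
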