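import Pool.Agent.Lib.MP_446a91_nt.Gal.IDefs

/-! Field side: Hahn series, monodromy, Kummer characters (MP_446a91_nt). -/

namespace Pool.Agent.Lib.MP_446a91_nt.Gal

noncomputable section

/-- The group `ℤ[1 / l]`. -/
def Zl (l : ℕ) : AddSubgroup ℚ where
  carrier := {q | ∃ (n : ℕ) (a : ℤ), q * (l : ℚ) ^ n = a}
  zero_mem' := ⟨0, 0, by simp⟩
  add_mem' := by
    rintro p q ⟨m, a, ha⟩ ⟨n, b, hb⟩
    refine ⟨m + n, a * l ^ n + b * l ^ m, ?_⟩
    push_cast
    rw [← ha, ← hb]; ring
  neg_mem' := by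
    rintro p ⟨m, a, ha⟩
    exact ⟨m, -a, by push_cast; rw [← ha]; ring⟩

/-- Integers as exponents. -/
def iZ (l : ℕ) (a : ℤ) : Zl l := ⟨a, 0, a, by simp⟩

/-- Hahn series with exponents in `ℤ[1 / l]`. -/
abbrev HS (l : ℕ) (k : Type) [Field k] : Type := HahnSeries (Zl l) k

/-- The variable. -/
def ww (l : ℕ) (k : Type) [Field k] : HS l k := HahnSeries.single (iZ l 1) 1

variable {l : ℕ} {k : Type} [Field k]

/-- The character `a / l ^ n ↦ z n ^ a`. -/
def eZ (z : ℕ → k) (r : Zl l) : k := z r.2.choose ^ r.2.choose_spec.choose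

theorem IsRoots.pow {z : ℕ → k} (hz : IsRoots l z) (n m : ℕ) : z (n + m) ^ l ^ m = z n := by
  induction m with
  | zero => simp
  | succ m ih => rw [pow_succ', pow_mul, ← add_assoc, hz.step, ih]

theorem eZ_eq {z : ℕ → k} (hz : IsRoots l z) {r : Zl l} {n : ℕ} {a : ℤ}
    (h : (r : ℚ) * (l : ℚ) ^ n = a) : eZ z r = z n ^ a := by
  have key : ∀ (m n : ℕ) (a b : ℤ), (r : ℚ) * (l : ℚ) ^ m = a → (r : ℚ) * (l : ℚ) ^ n = b →
      z m ^ a = z n ^ b := by
    intro m n a b ha hb
    have e : (l : ℤ) ^ n * a = (l : ℤ) ^ m * b := by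
      have : ((l : ℚ)) ^ n * a = (l : ℚ) ^ m * b := by rw [← ha, ← hb]; ring
      exact_mod_cast this
    rw [← hz.pow m n, ← hz.pow n m, add_comm n m, ← zpow_natCast, ← zpow_natCast, ← zpow_mul,
      ← zpow_mul]
    push_cast
    rw [e]
  exact key _ _ _ _ r.2.choose_spec.choose_spec h

theorem IsRoots.ne_zero [Fact l.Prime] {z : ℕ → k} (hz : IsRoots l z) (n : ℕ) : z n ≠ 0 :=
  (hz.prim n).ne_zero (pow_ne_zero _ (Fact.out : l.Prime).ne_zero)

theorem eZ_add [Fact l.Prime] {z : ℕ → k} (hz : IsRoots l z) (r s : Zl l) :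
    eZ z (r + s) = eZ z r * eZ z s := by
  obtain ⟨m, a, ha⟩ := r.2
  obtain ⟨n, b, hb⟩ := s.2
  have h1 : (r : ℚ) * (l : ℚ) ^ (m + n) = (a * l ^ n : ℤ) := by push_cast; rw [← ha]; ring
  have h2 : (s : ℚ) * (l : ℚ) ^ (m + n) = (b * l ^ m : ℤ) := by push_cast; rw [← hb]; ring
  rw [eZ_eq hz h1, eZ_eq hz h2, ← zpow_add₀ (hz.ne_zero _)]
  refine eZ_eq hz ?_
  rw [AddSubgroup.coe_add, add_mul, h1, h2]; push_cast; ring

theorem eZ_zero {z : ℕ → k} (hz : IsRoots l z) : eZ z (0 : Zl l) = 1 := by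
  rw [eZ_eq hz (n := 0) (a := 0) (by simp), zpow_zero]

/-- Multiplication of the coefficients by a character of the exponents. -/
def twH (e : Zl l → k) (h0 : e 0 = 1) (he : ∀ r s, e (r + s) = e r * e s) : HS l k →+* HS l k where
  toFun F := ⟨fun r => e r * F.coeff r, F.isPWO_support.mono fun r hr => right_ne_zero_of_mul hr⟩
  map_one' := by
    ext r
    by_cases h : r = 0 <;> simp [HahnSeries.coeff_one, h, h0]
  map_zero' := by ext r; simp
  map_add' F G := by ext r; simp [mul_add]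
  map_mul' F G := by
    ext r
    have h1 : ∀ (H : HS l k) (p), (⟨fun r => e r * H.coeff r, p⟩ : HS l k).support = H.support := by
      intro H p
      ext r
      have : e r ≠ 0 := left_ne_zero_of_mul (b := e (-r)) (by rw [← he]; simp [h0])
      simp [this]
    simp only [HahnSeries.coeff_mul, h1, Finset.mul_sum]
    refine Finset.sum_congr rfl fun ij hij => ?_
    rw [← (Finset.mem_antidiagonal.1 hij).2.2, he]; ring

/-- The monodromy automorphism. -/
def tau [Fact l.Prime] {z : ℕ → k} (hz : IsRoots l z) : HS l k ≃+* HS l k :=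
  RingEquiv.ofRingHom (twH (eZ z) (eZ_zero hz) (eZ_add hz))
    (twH (fun r => eZ z (-r)) (by simp [eZ_zero hz]) fun r s => by rw [neg_add, eZ_add hz])
    (by ext F r; simp [twH, ← mul_assoc, ← eZ_add hz, eZ_zero hz])
    (by ext F r; simp [twH, ← mul_assoc, ← eZ_add hz, eZ_zero hz])

theorem tau_coeff [Fact l.Prime] {z : ℕ → k} (hz : IsRoots l z) (F : HS l k) (r : Zl l) :
    (tau hz F).coeff r = eZ z r * F.coeff r := rfl

/-- A ring map applied to the coefficients. -/
def cmap (l : ℕ) {k' : Type} [Field k'] (g : k →+* k') : HS l k →+* HS l k' where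
  toFun F := F.map g
  map_one' := HahnSeries.map_one g.toMonoidWithZeroHom
  map_zero' := by ext r; simp
  map_add' _ _ := by ext r; simp
  map_mul' _ _ := HahnSeries.map_mul g.toNonUnitalRingHom

/-- The action of the automorphisms of `k` on the coefficients. -/
def cact (l : ℕ) (k : Type) [Field k] : (k ≃+* k) →* (HS l k ≃+* HS l k) where
  toFun g := RingEquiv.ofRingHom (cmap l (g : k →+* k)) (cmap l (g.symm : k →+* k))
    (by ext F r; simp [cmap]) (by ext F r; simp [cmap])
  map_one' := by ext F r; rfl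
  map_mul' g h := by ext F r; rfl

theorem cact_coeff (g : k ≃+* k) (F : HS l k) (r : Zl l) :
    (cact l k g F).coeff r = g (F.coeff r) := rfl

section Kummer
variable [Fact l.Prime] {E : Type} [Field E]

/-- `g` multiplies every `l ^ n`-th root of `F` by `z n ^ a`. -/
def IsKum (z : ℕ → E) (g : E ≃+* E) (F : E) (a : ℤ_[l]) : Prop :=
  ∀ n r, r ^ l ^ n = F → g r = z n ^ (PadicInt.toZModPow n a).val * r

/-- `F` is nonzero and has all `l`-power roots. -/
def AllRoots (l : ℕ) (F : E) : Prop := F ≠ 0 ∧ ∀ n, ∃ r : E, r ^ l ^ n = F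

open Classical in
/-- The Kummer character of `F`. -/
def kum (l : ℕ) [Fact l.Prime] (z : ℕ → E) (F : E) (g : E ≃+* E) : ℤ_[l] :=
  if h : ∃ a : ℤ_[l], IsKum z g F a then h.choose else 0

end Kummer

/-- Every finite Galois subextension has `l`-power degree. -/
def ProLExt (l : ℕ) (F E : Type) [Field F] [Field E] [Algebra F E] : Prop :=
  ∀ L : IntermediateField F E, FiniteDimensional F L → IsGalois F L →
    ∃ n, Module.finrank F L = l ^ n

/-- `s` maps the base field onto itself. -/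
def Nrm (F : Type) {E : Type} [Field F] [Field E] [Algebra F E] (s : E ≃+* E) : Prop :=
  ∀ x, s x ∈ (algebraMap F E).range ↔ x ∈ (algebraMap F E).range

/-- `j : E → P` extends the map `k(t) → P` with `c ↦ C (φ c)` and `t ↦ T`. -/
def Over {k' E : Type} [Field k'] [Field E] [Algebra (RatFunc k) E] (φ : k →+* k') (T : HS l k')
    (j : E →+* HS l k') : Prop :=
  (∀ c, j (algebraMap (RatFunc k) E (RatFunc.C c)) = HahnSeries.C (φ c)) ∧
    j (algebraMap (RatFunc k) E RatFunc.X) = T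

end

end Pool.Agent.Lib.MP_446a91_nt.Gal
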