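import Pool.Agent.Lib.MP_446a91_nt.Gal.FXDefs

/-! The six divisors (MP_446a91_nt, paper A9). -/

namespace Pool.Agent.Lib.MP_446a91_nt.Gal

variable {l : ℕ} [Fact l.Prime] {z : ℕ → Qb}

theorem fdiv_s0 : sK ≠ 0 := by
  unfold sK
  rw [map_ne_zero]
  exact RatFunc.X_ne_zero

theorem fdiv_s1 : 1 - sK ≠ 0 := by
  have h : (1 : Kb) - sK = algebraMap (RatFunc Qb) Kb
      (algebraMap (Polynomial Qb) (RatFunc Qb) (1 - Polynomial.X)) := by
    simp [sK]
  rw [h, map_ne_zero]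
  refine RatFunc.algebraMap_ne_zero fun e => ?_
  simpa using congrArg (Polynomial.eval 0) e

/-- The series `c + d w`. -/
noncomputable def fdivLin (l : ℕ) (c d : Kb) : HS l Kb :=
  HahnSeries.C c + HahnSeries.C d * ww l Kb

theorem fdiv_ord {c d v : Kb} {a : ℤ} (hv : v ≠ 0)
    (h : (a = 0 ∧ (c = v ∨ c = -v)) ∨ (a = 1 ∧ c = 0 ∧ d = v)) :
    (fdivLin l c d).order = iZ l a ∧
      ((fdivLin l c d).leadingCoeff = v ∨ (fdivLin l c d).leadingCoeff = -v) := by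
  rcases h with ⟨rfl, h⟩ | ⟨rfl, rfl, rfl⟩
  · have hc : c ≠ 0 := by
      rcases h with rfl | rfl
      · exact hv
      · exact neg_ne_zero.2 hv
    obtain ⟨h1, h2⟩ := order_C_add (l := l) hc d
    exact ⟨h1, by rw [fdivLin, h2]; exact h⟩
  · have e : fdivLin l 0 d = HahnSeries.single (iZ l 1) d := by
      rw [fdivLin, map_zero, zero_add, ww, HahnSeries.C_apply, HahnSeries.single_mul_single,
        zero_add, mul_one]
    rw [e]
    exact ⟨HahnSeries.order_single hv, Or.inl (HahnSeries.leadingCoeff_of_single)⟩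

theorem fdiv_gen (hz : IsRoots l z) (d : Fin 6) (c₁ d₁ c₂ d₂ : Kb)
    (h1 : ∀ h : Kb ≃+* Kb, h sK = sK → h c₁ = c₁ ∧ h d₁ = d₁ ∧ h c₂ = c₂ ∧ h d₂ = d₂)
    (h2 : ∀ A : Subfield (HS l Kb), fdivLin l c₁ d₁ ∈ A → fdivLin l c₂ d₂ ∈ A →
      HahnSeries.C sK ∈ A ∧ ww l Kb ∈ A)
    (h3 : ∀ a, (tabA d a = 0 ∧ (![c₁, 1 - c₁, c₂, 1 - c₂, c₁ - c₂] a =
        sK ^ tabB d 0 a * (1 - sK) ^ tabB d 1 a ∨ ![c₁, 1 - c₁, c₂, 1 - c₂, c₁ - c₂] a =
        -(sK ^ tabB d 0 a * (1 - sK) ^ tabB d 1 a))) ∨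
      (tabA d a = 1 ∧ ![c₁, 1 - c₁, c₂, 1 - c₂, c₁ - c₂] a = 0 ∧
        ![d₁, -d₁, d₂, -d₂, d₁ - d₂] a = sK ^ tabB d 0 a * (1 - sK) ^ tabB d 1 a)) :
    ∃ j : FX →+* HS l Kb,
    (∀ c, j (cX c) = HahnSeries.C (cK c)) ∧
    (∀ y, tau (isRoots_zK hz) (j y) = j y) ∧
    (∀ h : Kb ≃+* Kb, h sK = sK → cact l Kb h (j sX) = j sX ∧ cact l Kb h (j tX) = j tX) ∧
    (∀ a, (j (fX a)).order = iZ l (tabA d a)) ∧
    ∀ a, (j (fX a)).leadingCoeff = sK ^ tabB d 0 a * (1 - sK) ^ tabB d 1 a ∨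
      (j (fX a)).leadingCoeff = -(sK ^ tabB d 0 a * (1 - sK) ^ tabB d 1 a) := by
  obtain ⟨j, j1, j2, j3⟩ := exists_two (l := l) (algebraMap (RatFunc Qb) Kb)
    (S := fdivLin l c₁ d₁) (T := fdivLin l c₂ d₂) fun A _ hS hT => h2 A hS hT
  have j1' : ∀ c, j (cX c) = HahnSeries.C (cK c) := j1
  have j2' : j sX = fdivLin l c₁ d₁ := j2
  have j3' : j tX = fdivLin l c₂ d₂ := j3
  have ht : ∀ c d, tau (isRoots_zK hz) (fdivLin l c d) = fdivLin l c d := fun c d => by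
    rw [fdivLin, map_add, map_mul, tau_C, tau_C, tau_ww]
  have hc : ∀ (h : Kb ≃+* Kb) c d, h c = c → h d = d →
      cact l Kb h (fdivLin l c d) = fdivLin l c d := fun h c d e1 e2 => by
    rw [fdivLin, map_add, map_mul, cact_C, cact_C, cact_ww, e1, e2]
  have hf : ∀ a, j (fX a) = fdivLin l (![c₁, 1 - c₁, c₂, 1 - c₂, c₁ - c₂] a)
      (![d₁, -d₁, d₂, -d₂, d₁ - d₂] a) := fun a => by
    fin_cases a <;>
      simp [fX, j2', j3', fdivLin, -HahnSeries.C_apply] <;> ring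
  have ho := fun a => fdiv_ord (l := l)
    (mul_ne_zero (zpow_ne_zero _ fdiv_s0) (zpow_ne_zero _ fdiv_s1)) (h3 a)
  refine ⟨j, j1', fun y => ?_, fun h e => ?_, fun a => ?_, fun a => ?_⟩
  · have e : (tau (isRoots_zK hz)).toRingHom.comp j = j :=
      fx_ext (fun c => by simp [j1', tau_C, -HahnSeries.C_apply]) (by simp [j2', ht]) (by simp [j3', ht])
    exact DFunLike.congr_fun e y
  · obtain ⟨e1, e2, e3, e4⟩ := h1 h e
    rw [j2', j3']
    exact ⟨hc h _ _ e1 e2, hc h _ _ e3 e4⟩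
  · rw [hf]
    exact (ho a).1
  · rw [hf]
    exact (ho a).2

/-- With `u = C sK`, `w = ww`: `(s, t) ↦ (u, w), (u, u - w), (1 - w, u), (w, u w), (1 - u w, 1 - w),
(u, 1 - w)`; `exists_two`, `order_C_add`. -/
theorem exists_div (hz : IsRoots l z) (d : Fin 6) : ∃ j : FX →+* HS l Kb,
    (∀ c, j (cX c) = HahnSeries.C (cK c)) ∧
    (∀ y, tau (isRoots_zK hz) (j y) = j y) ∧
    (∀ h : Kb ≃+* Kb, h sK = sK → cact l Kb h (j sX) = j sX ∧ cact l Kb h (j tX) = j tX) ∧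
    (∀ a, (j (fX a)).order = iZ l (tabA d a)) ∧
    ∀ a, (j (fX a)).leadingCoeff = sK ^ tabB d 0 a * (1 - sK) ^ tabB d 1 a ∨
      (j (fX a)).leadingCoeff = -(sK ^ tabB d 0 a * (1 - sK) ^ tabB d 1 a) := by
  have hw : ww l Kb ≠ 0 := ww_ne_zero
  obtain rfl | rfl | rfl | rfl | rfl | rfl : d = 0 ∨ d = 1 ∨ d = 2 ∨ d = 3 ∨ d = 4 ∨ d = 5 := by
    fin_cases d <;> simp
  · refine fdiv_gen hz 0 sK 0 0 1 (fun h e => by simp [e]) (fun A hS hT => ?_) fun a => ?_
    · exact ⟨by simpa [fdivLin] using hS, by simpa [fdivLin] using hT⟩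
    · fin_cases a <;> simp [tabA, tabB]
  · refine fdiv_gen hz 1 sK 0 sK (-1) (fun h e => by simp [e]) (fun A hS hT => ?_) fun a => ?_
    · exact ⟨by simpa [fdivLin] using hS, by simpa [fdivLin] using A.sub_mem hS hT⟩
    · fin_cases a <;> simp [tabA, tabB]
  · refine fdiv_gen hz 2 1 (-1) sK 0 (fun h e => by simp [e]) (fun A hS hT => ?_) fun a => ?_
    · exact ⟨by simpa [fdivLin] using hT, by simpa [fdivLin] using A.sub_mem A.one_mem hS⟩
    · fin_cases a <;> simp [tabA, tabB]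
  · refine fdiv_gen hz 3 0 1 0 sK (fun h e => by simp [e]) (fun A hS hT => ?_) fun a => ?_
    · exact ⟨by simpa [fdivLin, hw, -HahnSeries.C_apply] using
        A.div_mem hT hS, by simpa [fdivLin] using hS⟩
    · fin_cases a <;> simp [tabA, tabB]
  · refine fdiv_gen hz 4 1 (-sK) 1 (-1) (fun h e => by simp [e]) (fun A hS hT => ?_) fun a => ?_
    · exact ⟨by simpa [fdivLin, hw, -HahnSeries.C_apply] using
        A.div_mem (A.sub_mem A.one_mem hS) (A.sub_mem A.one_mem hT),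
        by simpa [fdivLin] using A.sub_mem A.one_mem hT⟩
    · fin_cases a <;> simp [tabA, tabB, neg_add_eq_sub]
  · refine fdiv_gen hz 5 sK 0 1 (-1) (fun h e => by simp [e]) (fun A hS hT => ?_) fun a => ?_
    · exact ⟨by simpa [fdivLin] using hS, by simpa [fdivLin] using A.sub_mem A.one_mem hT⟩
    · fin_cases a <;> simp [tabA, tabB]

/-- The Kummer character of the leading coefficients. -/
theorem fdiv_kum (hz : IsRoots l z) (x : PiL l) (h : Kb ≃+* Kb)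
    (hh : ∀ y : MX l, algebraMap (MX l) Kb (x y) = h (algebraMap (MX l) Kb y)) (p : Fin 2 → ℤ)
    {v : Kb} (hv : v = sK ^ p 0 * (1 - sK) ^ p 1 ∨ v = -(sK ^ p 0 * (1 - sK) ^ p 1)) :
    IsKum (zK z) h v (∑ e, (p e : ℤ_[l]) * kkM l z e x) := by
  have hc : ∀ c, h (cK c) = cK c := fun c => by
    have := hh (algebraMap (RatFunc Qb) (MX l) (RatFunc.C c))
    rw [AlgEquiv.commutes] at this
    exact this.symm
  have h1 : ∀ e, IsKum (zK z) h (algebraMap (MX l) Kb (fM l e)) (kkM l z e x) := fun e =>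
    (isKum_kkM hz e x).map (isRoots_zM hz) (algebraMap (MX l) Kb) hh
      (fun n => x.commutes _) (allRoots_fM e)
  have h2 := IsKum.prod (isRoots_zK hz) (fun n => hc (z n))
    (fun e => (allRoots_fM (l := l) e).map (algebraMap (MX l) Kb)) h1 p
  have e0 : algebraMap (MX l) Kb (fM l 0) = sK := rfl
  have e1 : algebraMap (MX l) Kb (fM l 1) = 1 - sK := by
    rw [← e0, fM, fM, ← map_one (algebraMap (MX l) Kb), ← map_sub,
      ← map_one (algebraMap (RatFunc Qb) (MX l)), ← map_sub]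
    rfl
  rw [Fin.prod_univ_two, e0, e1] at h2
  rcases hv with rfl | rfl
  · exact h2
  · have h3 := IsKum.mul (isRoots_zK hz) (allRoots_const (l := l) cK (neg_ne_zero.2 one_ne_zero))
      (isKum_const cK hz hc (-1)) h2
    rwa [map_neg, map_one, neg_one_mul, zero_add] at h3

variable {E : Type} [Field E] [Algebra FX E]

/-- `exists_emb`, `exists_bp`, `exists_bp'`, `cact_tau`, `kum_tau`, `kum_cact`. The elements `b e`
come from automorphisms of `Kb` over `ℚ̄(s)` that extend `x e` (`AlgEquiv.liftNormal`); the lift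
of `σ` from `exists_lift_Om`. -/
theorem exists_mon_div (hz : IsRoots l z) [IsGalois FX E] (hE : ProLExt l FX E)
    (hr : ∀ j, AllRoots l (algebraMap FX E (fX j))) (x : Fin 2 → PiL l)
    (hx : ∀ e c, kkM l z e (x c) = if e = c then 1 else 0)
    (hl : ∀ σ : GQ, ∃ s : E ≃+* E, LiftX σ s) (d : Fin 6) :
    ∃ (a : E ≃ₐ[FX] E) (b : Fin 2 → E ≃ₐ[FX] E), (∀ j, kE l z E j a = tabA d j) ∧
      (∀ e, Commute a (b e)) ∧ (∀ e j, kE l z E j (b e) = tabB d e j) ∧
      ∀ σ ∈ HH z, ∃ s : E ≃+* E, LiftX σ s ∧ s * a.toRingEquiv = a.toRingEquiv * s := by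
  obtain ⟨j₀, j1, j2, j3, j4, j5⟩ := exists_div hz d
  have hK := isRoots_zK hz
  have : CharZero (HS l Kb) := hs_charZero
  have hζ := (hK.map (HahnSeries.C : Kb →+* HS l Kb)).prim 1
  rw [pow_one] at hζ
  obtain ⟨j, hj⟩ := exists_emb hE hζ hs_root j₀
  have hz' : (fun n => j (zE z E n)) = fun n => HahnSeries.C (zK z n) :=
    funext fun n => by rw [zE, hj, j1, zK]
  have h0 : ∀ c, j₀ (fX c) ≠ 0 := fun c => by
    rw [← hj]
    exact (map_ne_zero j).2 (hr c).1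
  obtain ⟨a, ha⟩ := exists_bp (F := FX) j ((tau hK).toRingHom.comp j) fun c => by
    simp [hj, j2]
  replace ha : ∀ y, j (a y) = tau hK (j y) := ha
  have hcomm : ∀ (h : Kb ≃+* Kb) (g : E ≃+* E), (∀ n, h (zK z n) = zK z n) →
      (∀ y, j (g y) = cact l Kb h (j y)) → ∀ y, g (a y) = a (g y) := fun h g e1 e2 y => by
    have e3 := cact_tau hK h (b := 1) (by simpa using e1)
    rw [pow_one] at e3
    apply j.injective
    rw [e2, ha, ha, e2]
    exact DFunLike.congr_fun e3 (j y)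
  have hb : ∀ e : Fin 2, ∃ b : E ≃ₐ[FX] E, Commute a b ∧ ∀ c, kE l z E c b = tabB d e c := by
    intro e
    set h : Kb ≃ₐ[RatFunc Qb] Kb := (x e).liftNormal Kb with hh
    have e1 : ∀ c, h.toRingEquiv (cK c) = cK c := fun c => h.commutes _
    have e2 : h.toRingEquiv sK = sK := h.commutes _
    have e3 : (cact l Kb h.toRingEquiv).toRingHom.comp j₀ = j₀ :=
      fx_ext (fun c => by
        change cact l Kb h.toRingEquiv (j₀ (cX c)) = _
        rw [j1, cact_C, e1]) (j3 _ e2).1 (j3 _ e2).2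
    have e4 : ∀ c, cact l Kb h.toRingEquiv (j₀ c) = j₀ c := fun c => DFunLike.congr_fun e3 c
    obtain ⟨b, hb⟩ := exists_bp (F := FX) j ((cact l Kb h.toRingEquiv).toRingHom.comp j) fun c => by
      change cact l Kb h.toRingEquiv (j _) = _
      rw [hj, e4]
    replace hb : ∀ y, j (b.toRingEquiv y) = cact l Kb h.toRingEquiv (j y) := hb
    refine ⟨b, AlgEquiv.ext fun y => (hcomm _ _ (fun n => e1 _) hb y).symm, fun c => ?_⟩
    have k1 := fdiv_kum hz (x e) h.toRingEquiv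
      (fun y => ((x e).liftNormal_commutes Kb y).symm) (fun i => tabB d i c) (j5 c)
    simp only [hx, mul_ite, mul_one, mul_zero, Finset.sum_ite_eq', Finset.mem_univ,
      if_true] at k1
    refine IsKum.kum_eq (isRoots_zE hz) (hr c) (IsKum.of_map j hb ?_)
    rw [hz', hj]
    exact kum_cact hK _ (h0 c) (e4 _) k1
  choose b hb1 hb2 using hb
  refine ⟨a, b, fun c => ?_, hb1, hb2, fun σ hσ => ?_⟩
  · refine IsKum.kum_eq (isRoots_zE hz) (hr c) (IsKum.of_map j (g' := tau hK) ha ?_)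
    rw [hz', hj]
    exact kum_tau hK (h0 c) (j2 _) (j4 c)
  · obtain ⟨s, hs⟩ := hl σ
    obtain ⟨h, e1, e2, -⟩ := exists_lift_Om (l := l) (S := Set.univ) σ.toRingEquiv (by simp)
    replace e1 : ∀ c, h (cK c) = cK (σ c) := e1
    replace e2 : h sK = sK := e2
    have e3 : (cact l Kb h).toRingHom.comp j₀ =
        j.comp (s.toRingHom.comp (algebraMap FX E)) := by
      refine fx_ext (fun c => ?_) ?_ ?_
      · change cact l Kb h (j₀ (cX c)) = j (s (algebraMap FX E (cX c)))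
        rw [hs.1, hj, j1, j1, cact_C, e1]
      · change cact l Kb h (j₀ sX) = j (s (algebraMap FX E sX))
        rw [hs.2.1, hj, (j3 _ e2).1]
      · change cact l Kb h (j₀ tX) = j (s (algebraMap FX E tX))
        rw [hs.2.2, hj, (j3 _ e2).2]
    obtain ⟨g, g1, g2⟩ := exists_bp' j (cact l Kb h) s (liftX_nrm hs) fun c => by
      rw [hj]
      exact DFunLike.congr_fun e3 c
    refine ⟨g, ⟨fun c => by rw [g2, hs.1], by rw [g2, hs.2.1], by rw [g2, hs.2.2]⟩, ?_⟩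
    exact RingEquiv.ext fun y => hcomm h g (fun n => by rw [zK, e1, hσ n]) g1 y

end Pool.Agent.Lib.MP_446a91_nt.Gal
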