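import Pool.Agent.Lib.MP_446a91_nt.Gal.FDefs

/-! Kummer characters (MP_446a91_nt). -/

namespace Pool.Agent.Lib.MP_446a91_nt.Gal

variable {l : ℕ} [Fact l.Prime] {E : Type} [Field E] {z : ℕ → E}

theorem AllRoots.mul {F F' : E} (h : AllRoots l F) (h' : AllRoots l F') : AllRoots l (F * F') :=
  ⟨mul_ne_zero h.1 h'.1, fun n => by
    obtain ⟨r, hr⟩ := h.2 n
    obtain ⟨r', hr'⟩ := h'.2 n
    exact ⟨r * r', by rw [mul_pow, hr, hr']⟩⟩

theorem AllRoots.zpow {F : E} (h : AllRoots l F) (a : ℤ) : AllRoots l (F ^ a) :=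
  ⟨zpow_ne_zero a h.1, fun n => by
    obtain ⟨r, hr⟩ := h.2 n
    exact ⟨r ^ a, by rw [← hr, ← zpow_natCast, ← zpow_natCast, ← zpow_mul, ← zpow_mul, mul_comm]⟩⟩

theorem AllRoots.map {P : Type} [Field P] {F : E} (h : AllRoots l F) (j : E →+* P) :
    AllRoots l (j F) :=
  ⟨(map_ne_zero j).2 h.1, fun n => by
    obtain ⟨r, hr⟩ := h.2 n
    exact ⟨j r, by rw [← map_pow, hr]⟩⟩

theorem fkuma_ne (n : ℕ) : l ^ n ≠ 0 := pow_ne_zero _ (Fact.out : l.Prime).ne_zero

theorem fkuma_root_ne {F r : E} (hF : F ≠ 0) {n : ℕ} (hr : r ^ l ^ n = F) : r ≠ 0 := by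
  rintro rfl
  exact hF (by rw [← hr, zero_pow (fkuma_ne n)])

theorem fkuma_zpow (hz : IsRoots l z) (n : ℕ) (m : ℤ) :
    z n ^ (m : ZMod (l ^ n)).val = z n ^ m := by
  have : NeZero (l ^ n) := ⟨fkuma_ne n⟩
  rw [← zpow_natCast, ZMod.val_intCast]
  conv_rhs => rw [← Int.emod_add_mul_ediv m (l ^ n : ℕ)]
  rw [zpow_add₀ (hz.ne_zero n), zpow_mul, zpow_natCast, (hz.prim n).pow_eq_one, one_zpow, mul_one]

theorem fkuma_cast (n : ℕ) (x : ZMod (l ^ n)) : ((x.val : ℤ) : ZMod (l ^ n)) = x := by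
  have : NeZero (l ^ n) := ⟨fkuma_ne n⟩
  rw [Int.cast_natCast, ZMod.natCast_zmod_val]

theorem fkuma_add (hz : IsRoots l z) (n : ℕ) (x y : ZMod (l ^ n)) :
    z n ^ (x + y).val = z n ^ x.val * z n ^ y.val := by
  have := fkuma_zpow hz n ((x.val : ℤ) + (y.val : ℤ))
  rwa [Int.cast_add, fkuma_cast, fkuma_cast, zpow_add₀ (hz.ne_zero n), zpow_natCast,
    zpow_natCast] at this

theorem fkuma_mul (hz : IsRoots l z) (n : ℕ) (m : ℤ) (x : ZMod (l ^ n)) :
    z n ^ ((m : ZMod (l ^ n)) * x).val = (z n ^ x.val) ^ m := by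
  have := fkuma_zpow hz n (m * (x.val : ℤ))
  rwa [Int.cast_mul, fkuma_cast, mul_comm m, zpow_mul, zpow_natCast] at this

/-- It is enough to look at one root. -/
theorem fkuma_one (hz : IsRoots l z) {g : E ≃+* E} (h2 : ∀ n, g (z n) = z n) {n : ℕ} {r r' w : E}
    (hr : r ≠ 0) (h : g r = w * r) (h' : r' ^ l ^ n = r ^ l ^ n) : g r' = w * r' := by
  have : NeZero (l ^ n) := ⟨fkuma_ne n⟩
  obtain ⟨i, -, hi⟩ := (hz.prim n).eq_pow_of_pow_eq_one (ξ := r' / r)
    (by rw [div_pow, h', div_self (pow_ne_zero _ hr)])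
  have e : r' = z n ^ i * r := by rw [hi, div_mul_cancel₀ _ hr]
  rw [e, map_mul, map_pow, h2, h]
  ring

theorem IsKum.unique (hz : IsRoots l z) {g : E ≃+* E} {F : E} (hF : AllRoots l F) {a b : ℤ_[l]}
    (ha : IsKum z g F a) (hb : IsKum z g F b) : a = b := by
  refine PadicInt.ext_of_toZModPow.1 fun n => ?_
  have : NeZero (l ^ n) := ⟨fkuma_ne n⟩
  obtain ⟨r, hr⟩ := hF.2 n
  have e := mul_right_cancel₀ (fkuma_root_ne hF.1 hr) ((ha n r hr).symm.trans (hb n r hr))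
  exact ZMod.val_injective _ ((hz.prim n).pow_inj (ZMod.val_lt _) (ZMod.val_lt _) e)

/-- The exponents `a n : ZMod (l ^ n)` are compatible (`r ^ l` is a root of level `n`); they come
from an `l`-adic integer (`PadicInt.lift`, or `PadicInt.ofIntSeq`, or compactness). -/
theorem isKum_kum (hz : IsRoots l z) {g : E ≃+* E} {F : E} (hF : AllRoots l F) (h1 : g F = F)
    (h2 : ∀ n, g (z n) = z n) : IsKum z g F (kum l z F g) := by
  have key : ∀ n, ∃ i : ℕ, ∀ r, r ^ l ^ n = F → g r = z n ^ i * r := fun n => by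
    have : NeZero (l ^ n) := ⟨fkuma_ne n⟩
    obtain ⟨r, hr⟩ := hF.2 n
    have h0 := fkuma_root_ne hF.1 hr
    obtain ⟨i, -, hi⟩ := (hz.prim n).eq_pow_of_pow_eq_one (ξ := g r / r)
      (by rw [div_pow, ← map_pow, hr, h1, div_self hF.1])
    exact ⟨i, fun r' hr' => fkuma_one hz h2 h0 (by rw [hi, div_mul_cancel₀ _ h0])
      (hr'.trans hr.symm)⟩
  choose i hi using key
  have hd : ∀ n, (l : ℤ) ^ n ∣ (i (n + 1) : ℤ) - (i n : ℤ) := fun n => by
    obtain ⟨r, hr⟩ := hF.2 (n + 1)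
    have h0 := fkuma_root_ne hF.1 hr
    have e1 := hi n (r ^ l) (by rw [← pow_mul, ← pow_succ', hr])
    rw [map_pow, hi (n + 1) r hr, mul_pow, ← pow_mul, mul_comm (i (n + 1)), pow_mul, hz.step] at e1
    have e2 := mul_right_cancel₀ (pow_ne_zero l h0) e1
    have := ((hz.prim n).zpow_eq_one_iff_dvd ((i (n + 1) : ℤ) - (i n : ℤ))).1 (by
      rw [zpow_sub₀ (hz.ne_zero n), zpow_natCast, zpow_natCast, e2,
        div_self (pow_ne_zero _ (hz.ne_zero n))])
    exact_mod_cast this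
  have ex : ∃ a : ℤ_[l], IsKum z g F a :=
    ⟨PadicInt.ofIntSeq _ (PadicInt.isCauSeq_padicNorm_of_pow_dvd_sub (fun n => (i n : ℤ)) l hd),
      fun n r hr => by
        rw [PadicInt.toZModPow_ofIntSeq_of_pow_dvd_sub (fun n => (i n : ℤ)) l hd n, fkuma_zpow hz,
          zpow_natCast]
        exact hi n r hr⟩
  unfold kum
  rw [dif_pos ex]
  exact ex.choose_spec

theorem IsKum.kum_eq (hz : IsRoots l z) {g : E ≃+* E} {F : E} (hF : AllRoots l F) {a : ℤ_[l]}
    (ha : IsKum z g F a) : kum l z F g = a := by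
  have ex : ∃ a : ℤ_[l], IsKum z g F a := ⟨a, ha⟩
  unfold kum
  rw [dif_pos ex]
  exact IsKum.unique hz hF ex.choose_spec ha

theorem IsKum.of_fix (hz : IsRoots l z) {g : E ≃+* E} {F : E}
    (h : ∀ n r, r ^ l ^ n = F → g r = r) : IsKum z g F (0 : ℤ_[l]) := fun n r hr => by
  rw [map_zero, ZMod.val_zero, pow_zero, one_mul, h n r hr]

theorem IsKum.comp (hz : IsRoots l z) {g h : E ≃+* E} {F : E} (h2 : ∀ n, g (z n) = z n)
    {a b : ℤ_[l]} (ha : IsKum z g F a) (hb : IsKum z h F b) : IsKum z (g * h) F (a + b) :=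
  fun n r hr => by
    change g (h r) = _
    rw [hb n r hr, map_mul, map_pow, h2, ha n r hr, map_add, fkuma_add hz]
    ring

theorem IsKum.inv (hz : IsRoots l z) {g : E ≃+* E} {F : E} (h2 : ∀ n, g (z n) = z n)
    {a : ℤ_[l]} (ha : IsKum z g F a) : IsKum z g⁻¹ F (-a) := fun n r hr => by
  refine g.injective ?_
  change g (g.symm r) = _
  rw [g.apply_symm_apply, map_mul, map_pow, h2, ha n r hr, ← mul_assoc, ← fkuma_add hz, ← map_add,
    neg_add_cancel, map_zero, ZMod.val_zero, pow_zero, one_mul]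

theorem IsKum.mul (hz : IsRoots l z) {g : E ≃+* E} {F F' : E} (hF : AllRoots l F)
    {a b : ℤ_[l]} (ha : IsKum z g F a) (hb : IsKum z g F' b) : IsKum z g (F * F') (a + b) :=
  fun n r hr => by
    obtain ⟨r0, h0⟩ := hF.2 n
    have hne := fkuma_root_ne hF.1 h0
    have h1 := hb n (r / r0) (by rw [div_pow, hr, h0, mul_div_cancel_left₀ _ hF.1])
    have e : g r = g (r / r0) * g r0 := by rw [← map_mul, div_mul_cancel₀ _ hne]
    rw [e, h1, ha n r0 h0, map_add, fkuma_add hz]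
    field_simp

theorem IsKum.prod (hz : IsRoots l z) {g : E ≃+* E} (h2 : ∀ n, g (z n) = z n) {ι : Type}
    [Fintype ι] {F : ι → E} (hF : ∀ i, AllRoots l (F i)) {a : ι → ℤ_[l]}
    (ha : ∀ i, IsKum z g (F i) (a i)) (e : ι → ℤ) :
    IsKum z g (∏ i, F i ^ e i) (∑ i, (e i : ℤ_[l]) * a i) := by
  have h1 : ∀ i, IsKum z g (F i ^ e i) ((e i : ℤ_[l]) * a i) := fun i n r hr => by
    obtain ⟨r0, h0⟩ := (hF i).2 n
    refine fkuma_one hz h2 (n := n) (r := r0 ^ e i) (zpow_ne_zero _ (fkuma_root_ne (hF i).1 h0))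
      ?_ ?_
    · rw [map_zpow₀, ha i n r0 h0, mul_zpow, map_mul, map_intCast, fkuma_mul hz]
    · rw [hr, ← h0, ← zpow_natCast, ← zpow_natCast, ← zpow_mul, ← zpow_mul, mul_comm]
  classical
  induction (Finset.univ : Finset ι) using Finset.induction_on with
  | empty =>
    rw [Finset.prod_empty, Finset.sum_empty]
    refine IsKum.of_fix hz fun n r hr => ?_
    rw [fkuma_one hz h2 (n := n) (r := 1) (w := 1) one_ne_zero (by simp) (by rw [hr, one_pow]),
      one_mul]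
  | insert i s hi ih =>
    rw [Finset.prod_insert hi, Finset.sum_insert hi]
    exact IsKum.mul hz ((hF i).zpow _) (h1 i) ih

/-- Transport along an embedding that intertwines `g` and `g'`. -/
theorem IsKum.of_map {P : Type} [Field P] (j : E →+* P) {g : E ≃+* E} {g' : P ≃+* P}
    (hj : ∀ x, j (g x) = g' (j x)) {F : E} {a : ℤ_[l]}
    (ha : IsKum (fun n => j (z n)) g' (j F) a) : IsKum z g F a := fun n r hr =>
  j.injective (by rw [hj, ha n (j r) (by rw [← map_pow, hr]), map_mul, map_pow])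

theorem IsKum.map (hz : IsRoots l z) {P : Type} [Field P] (j : E →+* P) {g : E ≃+* E}
    {g' : P ≃+* P} (hj : ∀ x, j (g x) = g' (j x)) (h2 : ∀ n, g (z n) = z n) {F : E}
    (hF : AllRoots l F) {a : ℤ_[l]} (ha : IsKum z g F a) :
    IsKum (fun n => j (z n)) g' (j F) a := fun n r hr => by
  obtain ⟨r0, h0⟩ := hF.2 n
  have hz' : IsRoots l fun n => j (z n) :=
    ⟨fun n => (hz.prim n).map_of_injective j.injective, fun n => by rw [← map_pow, hz.step]⟩
  refine fkuma_one hz' (fun n => by rw [← hj, h2]) (n := n) (r := j r0)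
    ((map_ne_zero j).2 (fkuma_root_ne hF.1 h0)) ?_ (by rw [hr, ← map_pow, h0])
  rw [← hj, ha n r0 h0, map_mul, map_pow]

theorem fkuma_conj {g s : E ≃+* E} {F : E} (hs : s F = F) {a : ℤ_[l]} (ha : IsKum z g F a)
    {n : ℕ} {r : E} (hr : r ^ l ^ n = F) :
    (s * g * s⁻¹) r = s (z n) ^ (PadicInt.toZModPow n a).val * r := by
  change s (g (s.symm r)) = _
  rw [ha n (s.symm r) (s.injective (by rw [map_pow, s.apply_symm_apply, hr, hs])), map_mul,
    map_pow, s.apply_symm_apply]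

theorem IsKum.conj (hz : IsRoots l z) {g s : E ≃+* E} {F : E} (hs : s F = F) {b : ℕ}
    (hb : ∀ n, s (z n) = z n ^ b) {a : ℤ_[l]} (ha : IsKum z g F a) :
    IsKum z (s * g * s⁻¹) F ((b : ℤ_[l]) * a) := fun n r hr => by
  have := fkuma_mul hz n b (PadicInt.toZModPow n a)
  rw [Int.cast_natCast, zpow_natCast] at this
  rw [fkuma_conj hs ha hr, hb, map_mul, map_natCast, this, ← pow_mul, ← pow_mul, mul_comm b]

/-- If conjugation by `s` does not change a character with value one then `s` fixes the roots. -/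
theorem IsKum.fix_of_conj (hz : IsRoots l z) {g s : E ≃+* E} {F : E} (hF : AllRoots l F)
    (hs : s F = F) (ha : IsKum z g F (1 : ℤ_[l])) (hb : IsKum z (s * g * s⁻¹) F (1 : ℤ_[l]))
    (n : ℕ) : s (z n) = z n := by
  obtain ⟨r, hr⟩ := hF.2 n
  have e := mul_right_cancel₀ (fkuma_root_ne hF.1 hr)
    ((fkuma_conj hs ha hr).symm.trans (hb n r hr))
  have h1 := fkuma_zpow hz n 1
  rw [Int.cast_one, zpow_one] at h1
  rwa [← map_pow, map_one, h1] at e

end Pool.Agent.Lib.MP_446a91_nt.Gal
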