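import Pool.Agent.Lib.MP_446a91_nt.Gal.FDefs
import Pool.Agent.Lib.MP_446a91_nt.Gal.FKumA

/-! Kummer characters (MP_446a91_nt). -/

namespace Pool.Agent.Lib.MP_446a91_nt.Gal

variable {l : ℕ} [Fact l.Prime] {E : Type} [Field E] {z : ℕ → E}

section Gal
variable {K : Type} [Field K] [Algebra K E]

theorem fkum_lc [Algebra.IsAlgebraic K E] (r : E) :
    IsLocallyConstant fun g : E ≃ₐ[K] E => g r := by
  refine (IsLocallyConstant.iff_exists_open _).2 fun g => ?_
  refine ⟨(fun h => g⁻¹ * h) ⁻¹' (MulAction.stabilizer (E ≃ₐ[K] E) r : Set (E ≃ₐ[K] E)),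
    (stabilizer_isOpen_of_isIntegral r).preimage (continuous_const.mul continuous_id),
    by simp, fun h hh => ?_⟩
  have h1 : (g⁻¹ * h) r = r := hh
  conv_rhs => rw [← h1, ← AlgEquiv.mul_apply, mul_inv_cancel_left]

theorem fkum_add {ζ : E} (hζ : ζ ^ l = 1) (a b : ZMod l) :
    ζ ^ (a + b).val = ζ ^ a.val * ζ ^ b.val := by
  rw [ZMod.val_add, ← pow_eq_pow_mod _ hζ, pow_add]

theorem fkum_inj {n : ℕ} [NeZero n] {ζ r : E} (hζ : IsPrimitiveRoot ζ n) (hr : r ≠ 0)
    {a b : ZMod n} (h : ζ ^ a.val * r = ζ ^ b.val * r) : a = b :=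
  ZMod.val_injective n (hζ.pow_inj (ZMod.val_lt a) (ZMod.val_lt b) (mul_right_cancel₀ hr h))

theorem isChar_kum (hz : IsRoots l z) [Algebra.IsAlgebraic K E]
    (h1 : ∀ n, z n ∈ (algebraMap K E).range) {F : E} (h2 : F ∈ (algebraMap K E).range)
    (hF : AllRoots l F) : IsChar fun g : E ≃ₐ[K] E => kum l z F g.toRingEquiv := by
  have hk : ∀ g : E ≃ₐ[K] E, (∀ n, g.toRingEquiv (z n) = z n) ∧
      IsKum z g.toRingEquiv F (kum l z F g.toRingEquiv) := by
    intro g
    have h3 : ∀ x ∈ (algebraMap K E).range, g.toRingEquiv x = x := by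
      rintro _ ⟨x, rfl⟩
      exact g.commutes x
    exact ⟨fun n => h3 _ (h1 n), isKum_kum hz hF (h3 _ h2) fun n => h3 _ (h1 n)⟩
  refine ⟨continuous_iff_continuousAt.2 fun g => Metric.tendsto_nhds.2 fun ε hε => ?_,
    fun g h => IsKum.kum_eq hz hF ((hk g).2.comp hz (hk g).1 (hk h).2)⟩
  obtain ⟨n, hn⟩ := PadicInt.exists_pow_neg_lt l hε
  obtain ⟨r, hr⟩ := hF.2 n
  have hl : l ^ n ≠ 0 := pow_ne_zero _ (Fact.out : l.Prime).ne_zero
  have hr0 : r ≠ 0 := by
    rintro rfl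
    exact hF.1 (by rw [← hr, zero_pow hl])
  have : NeZero (l ^ n) := ⟨hl⟩
  filter_upwards [(fkum_lc (K := K) r).eventually_eq g] with h hh
  refine lt_of_le_of_lt ?_ hn
  rw [dist_eq_norm, PadicInt.norm_le_pow_iff_mem_span_pow, ← PadicInt.ker_toZModPow,
    RingHom.mem_ker, map_sub, sub_eq_zero]
  refine fkum_inj (hz.prim n) hr0 ?_
  rw [← (hk h).2 n r hr, ← (hk g).2 n r hr]
  exact hh

/-- Lagrange resolvent on the fixed field of the kernel (linear independence of characters). -/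
theorem exists_eigen [IsGalois K E] {ζ : K} (hζ : IsPrimitiveRoot ζ l)
    (χ : (E ≃ₐ[K] E) →* Multiplicative (ZMod l)) (hχ : IsOpen (χ.ker : Set (E ≃ₐ[K] E))) :
    ∃ r : E, r ≠ 0 ∧ (∃ c : K, r ^ l = algebraMap K E c) ∧
      ∀ g, g r = algebraMap K E ζ ^ (χ g).toAdd.val * r := by
  classical
  have hζ1 : algebraMap K E ζ ^ l = 1 := by rw [← map_pow, hζ.pow_eq_one, map_one]
  let ψ : χ.range →* E :=
    { toFun := fun a => algebraMap K E ζ ^ (a.1.toAdd).val
      map_one' := by simp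
      map_mul' := fun a b => fkum_add hζ1 _ _ }
  have hψ : ∀ (g : E ≃ₐ[K] E) a, g (ψ a) = ψ a := fun g a => by
    change g (algebraMap K E ζ ^ _) = algebraMap K E ζ ^ _
    rw [map_pow, g.commutes]
  obtain ⟨s, hs⟩ := χ.rangeRestrict_surjective.hasRightInverse
  have hs' : ∀ a, χ (s a) = a := fun a => congrArg Subtype.val (hs a)
  let L := IntermediateField.fixedField χ.ker
  have hL : L.fixingSubgroup = χ.ker :=
    InfiniteGalois.fixingSubgroup_fixedField ⟨χ.ker, χ.ker.isClosed_of_isOpen hχ⟩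
  have h1 : ∀ g h : E ≃ₐ[K] E, χ g = χ h ↔ ∀ x : L, g x = h x := by
    intro g h
    rw [← inv_mul_eq_one, ← map_inv, ← map_mul, ← MonoidHom.mem_ker, ← hL,
      IntermediateField.mem_fixingSubgroup_iff]
    refine ⟨fun H x => ?_, fun H x hx => ?_⟩
    · conv_lhs => rw [← H x x.2, ← AlgEquiv.mul_apply, mul_inv_cancel_left]
    · rw [AlgEquiv.mul_apply, ← H ⟨x, hx⟩, ← AlgEquiv.mul_apply, inv_mul_cancel, AlgEquiv.one_apply]
  let : Fintype χ.range := Fintype.ofFinite _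
  let f : χ.range → L →* E := fun a => ((s a).toAlgHom.comp L.val).toRingHom.toMonoidHom
  have hf : Function.Injective f := fun a b hab => by
    have h2 := (h1 (s a) (s b)).2 fun x => DFunLike.congr_fun hab x
    rw [hs', hs'] at h2
    exact Subtype.ext h2
  have h3 : ∃ x : L, ∑ a, ψ a⁻¹ * s a x ≠ 0 := by
    by_contra! H
    have h4 := Fintype.linearIndependent_iff.1 ((linearIndependent_monoidHom L E).comp f hf)
      (fun a => ψ a⁻¹) (funext fun x => by rw [Finset.sum_apply]; exact H x) 1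
    rw [inv_one, map_one] at h4
    exact one_ne_zero h4
  obtain ⟨x, hx⟩ := h3
  have h5 : ∀ g : E ≃ₐ[K] E, g (∑ a, ψ a⁻¹ * s a x) =
      ψ (χ.rangeRestrict g) * ∑ a, ψ a⁻¹ * s a x := by
    intro g
    rw [map_sum, Finset.mul_sum, ← Equiv.sum_comp (Equiv.mulLeft (χ.rangeRestrict g))
      fun a => ψ (χ.rangeRestrict g) * (ψ a⁻¹ * s a x)]
    refine Finset.sum_congr rfl fun a _ => ?_
    rw [map_mul, hψ, Equiv.coe_mulLeft, ← mul_assoc, ← map_mul, mul_inv_rev, mul_comm a⁻¹,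
      mul_inv_cancel_left, ← AlgEquiv.mul_apply,
      (h1 (g * s a) (s (χ.rangeRestrict g * a))).1 (by rw [map_mul, hs', hs']; rfl) x]
  refine ⟨_, hx, ?_, h5⟩
  obtain ⟨c, hc⟩ := (InfiniteGalois.mem_range_algebraMap_iff_fixed (k := K)
    ((∑ a, ψ a⁻¹ * s a x) ^ l)).2 fun g => by
      rw [map_pow, h5, mul_pow]
      change (algebraMap K E ζ ^ _) ^ l * _ = _
      rw [← pow_mul, mul_comm _ l, pow_mul, hζ1, one_pow, one_mul]
  exact ⟨c, hc.symm⟩

/-- The character of an `l`-th root. -/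
theorem exists_char_of_root [Algebra.IsAlgebraic K E] {ζ : K} (hζ : IsPrimitiveRoot ζ l) {r : E}
    (hr : r ≠ 0) {c : K} (hc : r ^ l = algebraMap K E c) :
    ∃ χ : (E ≃ₐ[K] E) →* Multiplicative (ZMod l), IsOpen (χ.ker : Set (E ≃ₐ[K] E)) ∧
      ∀ g, g r = algebraMap K E ζ ^ (χ g).toAdd.val * r := by
  have hζ' : IsPrimitiveRoot (algebraMap K E ζ) l := hζ.map_of_injective (algebraMap K E).injective
  have h1 : ∀ g : E ≃ₐ[K] E, ∃ a : ZMod l, g r = algebraMap K E ζ ^ a.val * r := by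
    intro g
    obtain ⟨i, hi, h⟩ := hζ'.eq_pow_of_pow_eq_one (ξ := g r / r) (by
      rw [div_pow, ← map_pow, hc, g.commutes, ← hc, div_self (pow_ne_zero _ hr)])
    exact ⟨i, by rw [ZMod.val_cast_of_lt hi, h, div_mul_cancel₀ _ hr]⟩
  choose a ha using h1
  let χ : (E ≃ₐ[K] E) →* Multiplicative (ZMod l) :=
    MonoidHom.mk' (fun g => Multiplicative.ofAdd (a g)) fun g h => by
      refine congrArg Multiplicative.ofAdd (fkum_inj hζ' hr (b := a g + a h) ?_)
      rw [← ha, AlgEquiv.mul_apply, ha h, map_mul, map_pow, g.commutes, ha g,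
        fkum_add hζ'.pow_eq_one]
      ring
  refine ⟨χ, ?_, ha⟩
  have h2 : (χ.ker : Set (E ≃ₐ[K] E)) = (fun g : E ≃ₐ[K] E => g r) ⁻¹' {r} := by
    ext g
    change a g = 0 ↔ g r = r
    refine ⟨fun h => by rw [ha, h, ZMod.val_zero, pow_zero, one_mul], fun h => ?_⟩
    exact fkum_inj hζ' hr (by rw [← ha, h, ZMod.val_zero, pow_zero, one_mul])
  rw [h2]
  exact fkum_lc r _

end Gal

/-- Roots of unity in an algebraically closed field of characteristic zero. -/
theorem exists_isRoots (l : ℕ) [Fact l.Prime] (k : Type) [Field k] [IsAlgClosed k] [CharZero k] :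
    ∃ z : ℕ → k, IsRoots l z := by
  have hl : l.Prime := Fact.out
  have h : ∀ n (x : k), IsPrimitiveRoot x (l ^ n) →
      ∃ y, IsPrimitiveRoot y (l ^ (n + 1)) ∧ y ^ l = x := by
    rintro (_ | n) x hx
    · obtain ⟨y, hy⟩ := HasEnoughRootsOfUnity.exists_primitiveRoot k l
      rw [pow_zero, IsPrimitiveRoot.one_right_iff] at hx
      exact ⟨y, by rwa [zero_add, pow_one], by rw [hx, hy.pow_eq_one]⟩
    · obtain ⟨y, hy⟩ := IsAlgClosed.exists_pow_nat_eq x hl.pos
      refine ⟨y, IsPrimitiveRoot.iff_orderOf.2 (orderOf_eq_prime_pow (fun H => ?_) ?_), hy⟩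
      · rw [pow_succ', pow_mul, hy] at H
        exact absurd (Nat.le_of_dvd (pow_pos hl.pos n) (hx.dvd_of_pow_eq_one _ H))
          (not_le.2 (Nat.pow_lt_pow_right hl.one_lt n.lt_succ_self))
      · rw [pow_succ', pow_mul, hy, hx.pow_eq_one]
  choose f hf using h
  let w : ∀ n, {x : k // IsPrimitiveRoot x (l ^ n)} := fun n =>
    Nat.rec (motive := fun n => {x : k // IsPrimitiveRoot x (l ^ n)})
      ⟨1, by rw [pow_zero]; exact IsPrimitiveRoot.one⟩
      (fun n x => ⟨f n x.1 x.2, (hf n x.1 x.2).1⟩) n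
  exact ⟨fun n => (w n).1, fun n => (w n).2, fun n => (hf n (w n).1 (w n).2).2⟩

theorem fkum_gal : IsGalois ℚ Qb :=
  @IsAlgClosure.isGalois ℚ Qb _ _ (AlgebraicClosure.instAlgebra ℚ) inferInstance inferInstance

/-- An automorphism fixing `a` with integer cyclotomic character `b ≥ 2`. For each `n` there is
`γ n` with `z n ↦ z n ^ (1 + l)` (irreducible cyclotomic polynomial), compactness of `GQ` gives one
`γ`; a power `γ ^ N`, `N ≥ 1`, fixes `a` (finite orbit). -/
theorem exists_gam {z : ℕ → Qb} (hz : IsRoots l z) (a : Qb) :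
    ∃ (γ : GQ) (b : ℕ), 2 ≤ b ∧ γ a = a ∧ ∀ n, γ (z n) = z n ^ b := by
  have hl : l.Prime := Fact.out
  have := fkum_gal
  let C : ℕ → Set GQ := fun n => (fun g : GQ => g (z n)) ⁻¹' {z n ^ (1 + l)}
  have hc : ∀ n, IsClosed (C n) := fun n => ((fkum_lc (z n)).isClopen_fiber _).isClosed
  obtain ⟨γ, hγ⟩ := IsCompact.nonempty_iInter_of_sequence_nonempty_isCompact_isClosed C
    (fun n g hg => by
      have h1 : g (z (n + 1)) = z (n + 1) ^ (1 + l) := hg
      change g (z n) = z n ^ (1 + l)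
      rw [← hz.step n, map_pow, h1, ← pow_mul, ← pow_mul, mul_comm])
    (fun n => by
      have h1 := (hz.prim n).pow_of_coprime (1 + l) (Nat.Coprime.pow_right n (by simp))
      refine minpoly.exists_algEquiv_of_root' (Algebra.IsAlgebraic.isAlgebraic (z n)) ?_
      rw [← Polynomial.cyclotomic_eq_minpoly_rat (hz.prim n) (pow_pos hl.pos n),
        Polynomial.cyclotomic_eq_minpoly_rat h1 (pow_pos hl.pos n), minpoly.aeval])
    (hc 0).isCompact hc
  have h2 : ∀ n, γ (z n) = z n ^ (1 + l) := fun n => Set.mem_iInter.1 hγ n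
  have := (MulAction.stabilizer GQ a).quotient_finite_of_isOpen (stabilizer_isOpen_of_isIntegral a)
  obtain ⟨N, hN, -, h3⟩ := (MulAction.stabilizer GQ a).exists_pow_mem_of_index_ne_zero
    Subgroup.index_ne_zero_of_finite γ
  refine ⟨γ ^ N, (1 + l) ^ N, Nat.one_lt_pow hN.ne' (by have := hl.pos; omega), h3, fun n => ?_⟩
  clear hN h3
  induction N with
  | zero => simp
  | succ N ih => rw [pow_succ, AlgEquiv.mul_apply, h2, map_pow, ih, ← pow_mul, ← pow_succ]

end Pool.Agent.Lib.MP_446a91_nt.Gal
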