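import Pool.Agent.Lib.MP_446a91_nt.Gal.FEPA
import Pool.Agent.Lib.MP_446a91_nt.Gal.FKum
import Pool.Agent.Lib.MP_446a91_nt.Gal.FProL

/-! Central embedding problems over function fields (MP_446a91_nt). -/

namespace Pool.Agent.Lib.MP_446a91_nt.Gal

variable {l : ℕ} [Fact l.Prime]

section
variable {A G H : Type} [Group A] [Group G] [Group H] (N : Subgroup A) [N.Normal]

/-- Conjugation on a normal subgroup. -/
def fepC (a : A) : N →* N where
  toFun n := ⟨a * n * a⁻¹, Subgroup.Normal.conj_mem inferInstance _ n.2 a⟩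
  map_one' := Subtype.ext (by simp)
  map_mul' _ _ := Subtype.ext (by simp [mul_assoc])

theorem fepC_mul (a b : A) (n : N) : fepC N (a * b) n = fepC N a (fepC N b n) :=
  Subtype.ext (by simp [fepC, mul_assoc])

theorem fepC_one (n : N) : fepC N 1 n = n := Subtype.ext (by simp [fepC])

theorem fep_dec (hN : N.index = l) {γ : A} (hγ : γ ∉ N) (a : A) :
    ∃ (i : ℤ) (n : N), a = γ ^ i * n := by
  have h1 : (γ : A ⧸ N) ≠ 1 := fun h => hγ ((QuotientGroup.eq_one_iff γ).1 h)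
  obtain ⟨i, hi⟩ : (a : A ⧸ N) ∈ Subgroup.zpowers (γ : A ⧸ N) := mem_zpowers_of_prime_card hN h1
  have h2 : ((γ ^ i : A) : A ⧸ N) = a := by rw [QuotientGroup.mk_zpow]; exact hi
  exact ⟨i, ⟨_, QuotientGroup.eq.1 h2⟩, by simp⟩

theorem fep_conj {γ : A} (φ : N →* G) (g : G) (h1 : ∀ n : N, φ (fepC N γ n) = g * φ n * g⁻¹)
    (i : ℤ) (n : N) : φ (fepC N (γ ^ i) n) = g ^ i * φ n * (g ^ i)⁻¹ := by
  let T : Subgroup (A × G) :=
    { carrier := {p | ∀ n, φ (fepC N p.1 n) = p.2 * φ n * p.2⁻¹}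
      one_mem' := fun n => by simp [fepC_one]
      mul_mem' := fun {p q} hp hq n => by
        rw [Prod.fst_mul, Prod.snd_mul, fepC_mul, hp, hq]
        group
      inv_mem' := fun {p} hp n => by
        have := hp (fepC N p.1⁻¹ n)
        rw [← fepC_mul, mul_inv_cancel, fepC_one] at this
        rw [Prod.fst_inv, Prod.snd_inv, this]
        group }
  exact T.zpow_mem (show (γ, g) ∈ T from h1) i n

end

/-- Extension of a homomorphism from a normal subgroup with cyclic quotient of order `l`. -/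
theorem exists_extend {A G : Type} [Group A] [Group G] (N : Subgroup A) [N.Normal]
    (hN : N.index = l) {γ : A} (hγ : γ ∉ N) (hl : γ ^ l ∈ N) (φ : N →* G) (g : G)
    (h1 : ∀ n : N, φ ⟨γ * n * γ⁻¹, Subgroup.Normal.conj_mem inferInstance _ n.2 γ⟩ = g * φ n * g⁻¹)
    (h2 : φ ⟨γ ^ l, hl⟩ = g ^ l) : ∃ ψ : A →* G, ψ γ = g ∧ ∀ n : N, ψ n = φ n := by
  have h3 : ∀ (i : ℤ) (h : γ ^ i ∈ N), φ ⟨γ ^ i, h⟩ = g ^ i := by
    intro i h
    have h4 : orderOf (γ : A ⧸ N) = l := orderOf_eq_prime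
      (by rw [← QuotientGroup.mk_pow]; exact (QuotientGroup.eq_one_iff _).2 hl)
      fun h => hγ ((QuotientGroup.eq_one_iff γ).1 h)
    have h5 : (γ : A ⧸ N) ^ i = 1 := by
      rw [← QuotientGroup.mk_zpow]
      exact (QuotientGroup.eq_one_iff _).2 h
    rw [← orderOf_dvd_iff_zpow_eq_one, h4] at h5
    obtain ⟨j, rfl⟩ := h5
    have h6 : (⟨γ ^ ((l : ℤ) * j), h⟩ : N) = ⟨γ ^ l, hl⟩ ^ j := Subtype.ext (by simp [zpow_mul])
    rw [h6, map_zpow, h2, zpow_mul, zpow_natCast]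
  have key : ∀ (i j : ℤ) (n m : N), γ ^ i * n = γ ^ j * m → g ^ i * φ n = g ^ j * φ m := by
    intro i j n m h
    have h4 : γ ^ (-j + i) = (m * n⁻¹ : N) := by
      rw [zpow_add, zpow_neg, Subgroup.coe_mul, Subgroup.coe_inv, eq_mul_inv_iff_mul_eq, mul_assoc,
        h, inv_mul_cancel_left]
    have h5 := h3 (-j + i) (h4 ▸ (m * n⁻¹).2)
    rw [show (⟨γ ^ (-j + i), h4 ▸ (m * n⁻¹).2⟩ : N) = m * n⁻¹ from Subtype.ext h4, map_mul, map_inv,
      mul_inv_eq_iff_eq_mul] at h5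
    rw [h5]
    group
  choose i n hin using fep_dec N hN hγ
  refine ⟨MonoidHom.mk' (fun a => g ^ i a * φ (n a)) fun a b => ?_, ?_, fun m => ?_⟩
  · have h4 : γ ^ i (a * b) * n (a * b) =
        γ ^ (i a + i b) * (fepC N (γ ^ (-i b)) (n a) * n b : N) := by
      rw [← hin (a * b)]
      conv_lhs => rw [hin a, hin b]
      simp only [fepC, Subgroup.coe_mul, MonoidHom.coe_mk, OneHom.coe_mk]
      group
    rw [key _ _ _ _ h4, map_mul, fep_conj N φ g h1]
    group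
  · exact (key _ 1 _ 1 (by rw [← hin γ]; simp)).trans (by simp)
  · exact (key _ 0 _ m (by rw [← hin m]; simp)).trans (by simp)

section
variable {A G H : Type} [Group A] [Group G] [Group H]

/-- The group theoretic part of the induction step. -/
theorem fep_step [TopologicalSpace A] [IsTopologicalGroup A] (q : G →* H)
    (hq : Function.Surjective q) (ι : Multiplicative (ZMod l) →* G) (hi : Function.Injective ι)
    (hc : ∀ d x, x * ι d = ι d * x) (hk : ∀ x, q x = 1 ↔ ∃ d, ι d = x) (N : Subgroup A) [N.Normal]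
    (hN : N.index = l) (ho : IsOpen (N : Set A)) {γ : A} (hγ : γ ∉ N) (hl : γ ^ l ∈ N)
    (ε₀ : N →* Multiplicative (ZMod l)) (h01 : IsOpen (ε₀.ker : Set N)) (h02 : ε₀ ⟨γ ^ l, hl⟩ ≠ 1)
    (h03 : ∀ n, ε₀ (fepC N γ n) = ε₀ n)
    (hcob : ∀ δ : N →* Multiplicative (ZMod l), IsOpen (δ.ker : Set N) → δ ⟨γ ^ l, hl⟩ = 1 →
      (∀ n, ∏ i ∈ Finset.range l, δ (fepC N (γ ^ i) n) = 1) →
      ∃ ε : N →* Multiplicative (ZMod l), IsOpen (ε.ker : Set N) ∧
        ∀ n, δ n = ε (fepC N γ n) / ε n)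
    (φ : A →* H) (ψ : N →* G) (hψ : IsOpen (ψ.ker : Set N)) (h : ∀ n, q (ψ n) = φ n) :
    ∃ χ : A →* G, IsOpen (χ.ker : Set A) ∧ ∀ a, q (χ a) = φ a := by
  have hd : ∀ x y, q x = q y → ∃ d, x = ι d * y := fun x y e => by
    obtain ⟨d, hd⟩ := (hk (x * y⁻¹)).1 (by rw [map_mul, map_inv, e, mul_inv_cancel])
    exact ⟨d, by rw [hd, inv_mul_cancel_right]⟩
  have hq1 : ∀ d, q (ι d) = 1 := fun d => (hk _).2 ⟨d, rfl⟩
  have hc' : ∀ d x y, x * (ι d * y) = ι d * (x * y) := fun d x y => by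
    rw [← mul_assoc, hc, mul_assoc]
  obtain ⟨g, hg⟩ := hq (φ γ)
  choose δ₀ hδ₀ using fun n : N => hd (ψ (fepC N γ n)) (g * ψ n * g⁻¹) (by simp [h, hg, fepC])
  let δ : N →* Multiplicative (ZMod l) := MonoidHom.mk' δ₀ fun n m => hi (by
    have h1 := hδ₀ (n * m)
    rw [map_mul, map_mul, hδ₀ n, hδ₀ m, map_mul, mul_assoc, hc' (δ₀ m)] at h1
    refine mul_right_cancel (h1.symm.trans ?_)
    rw [map_mul]
    group)
  have hδ : ∀ n, ψ (fepC N γ n) = ι (δ n) * (g * ψ n * g⁻¹) := hδ₀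
  obtain ⟨d, hdl⟩ := hd (ψ ⟨γ ^ l, hl⟩) (g ^ l) (by simp [h, hg])
  have hcont : Continuous (fepC N γ) :=
    Continuous.subtype_mk ((continuous_const.mul continuous_subtype_val).mul continuous_const) _
  obtain ⟨ε, hε, hεδ⟩ := hcob δ
    (Subgroup.isOpen_mono (H₁ := ψ.ker.comap (fepC N γ) ⊓ ψ.ker) (fun n hn => hi (by
      have h1 := hδ n
      rw [show ψ (fepC N γ n) = 1 from hn.1, show ψ n = 1 from hn.2] at h1
      simpa using h1.symm)) ((hψ.preimage hcont).inter hψ))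
    (hi (by
      have h1 := hδ ⟨γ ^ l, hl⟩
      rw [show fepC N γ ⟨γ ^ l, hl⟩ = ⟨γ ^ l, hl⟩ from Subtype.ext (by simp [fepC]; group), hdl,
        hc' d g, show ι d * (g * g ^ l) * g⁻¹ = ι d * g ^ l by group] at h1
      simpa using h1.symm))
    (fun n => hi (by
      have h1 : ∀ m : ℕ, ψ (fepC N (γ ^ m) n) =
          ι (∏ i ∈ Finset.range m, δ (fepC N (γ ^ i) n)) * (g ^ m * ψ n * (g ^ m)⁻¹) := by
        intro m
        induction m with
        | zero => simp [fepC_one]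
        | succ m ih =>
          rw [pow_succ', fepC_mul, hδ, ih, hc' _ g, Finset.prod_range_succ_comm, map_mul]
          group
      have h2 := h1 l
      rw [show fepC N (γ ^ l) n = ⟨γ ^ l, hl⟩ * n * ⟨γ ^ l, hl⟩⁻¹ from rfl, map_mul, map_mul,
        map_inv, hdl, mul_inv_rev, ← map_inv, hc, hc'] at h2
      rw [map_one]
      refine mul_right_cancel (h2.symm.trans ?_)
      rw [map_inv]
      group))
  obtain ⟨j, hj⟩ : ε ⟨γ ^ l, hl⟩ / d ∈ Subgroup.zpowers (ε₀ ⟨γ ^ l, hl⟩) :=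
    mem_zpowers_of_prime_card (p := l) (by simp) h02
  let ψ' : N →* G := MonoidHom.mk' (fun n => ι (ε₀ n ^ j / ε n) * ψ n) fun n m => by
    rw [mul_assoc, hc' _ (ψ n), ← mul_assoc, ← map_mul ι, map_mul, map_mul, map_mul, mul_zpow,
      mul_div_mul_comm]
  have hψ' : ∀ n, ψ' n = ι (ε₀ n ^ j / ε n) * ψ n := fun _ => rfl
  obtain ⟨χ, h1, h2⟩ := exists_extend N hN hγ hl ψ' g (fun n => by
    show ψ' (fepC N γ n) = _
    rw [hψ', hψ', hδ, h03, hεδ, ← mul_assoc, ← map_mul, div_mul_div_cancel, hc' _ g,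
      mul_assoc _ (g * ψ n)])
    (by rw [hψ', hdl, ← mul_assoc, ← map_mul, show ε₀ ⟨γ ^ l, hl⟩ ^ j = _ from hj]; simp)
  refine ⟨χ, Subgroup.isOpen_mono (H₁ := (ε₀.ker ⊓ ε.ker ⊓ ψ.ker).map N.subtype) ?_
    (ho.isOpenMap_subtype_val _ ((h01.inter hε).inter hψ)), fun a => ?_⟩
  · rintro _ ⟨n, ⟨⟨e1, e2⟩, e3⟩, rfl⟩
    show χ n = 1
    rw [h2, hψ', show ε₀ n = 1 from e1, show ε n = 1 from e2, show ψ n = 1 from e3]
    simp
  · obtain ⟨i, n, rfl⟩ := fep_dec N hN hγ a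
    simp [h1, h2, hψ', hq1, h, hg]

theorem fep_index [Finite H] [Nontrivial H] (hH : IsPGroup l H) :
    ∃ M : Subgroup H, M.Normal ∧ M.index = l := by
  obtain ⟨n, hn0, hn⟩ := hH.nontrivial_iff_card.1 inferInstance
  obtain ⟨n, rfl⟩ : ∃ m, n = m + 1 := ⟨n - 1, by omega⟩
  obtain ⟨M, hM⟩ := Sylow.exists_subgroup_card_pow_prime (G := H) l (n := n)
    (by rw [hn]; exact pow_dvd_pow _ n.le_succ)
  have h1 := M.card_mul_index
  rw [hM, hn, pow_succ] at h1
  have h2 : M.index = l := mul_left_cancel₀ (pow_ne_zero _ (Fact.out : l.Prime).ne_zero) h1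
  refine ⟨M, Subgroup.normal_of_index_eq_minFac_card ?_, h2⟩
  rw [h2, hn, (Fact.out : l.Prime).pow_minFac n.succ_ne_zero]

end

theorem fep_open {F Ω : Type} [Field F] [Field Ω] [Algebra F Ω] [Algebra.IsAlgebraic F Ω]
    (U : Subgroup (Ω ≃ₐ[F] Ω)) : IsOpen (U : Set (Ω ≃ₐ[F] Ω)) ↔
      ∃ s : Finset Ω, ∀ g : Ω ≃ₐ[F] Ω, (∀ x ∈ s, g x = x) → g ∈ U := by
  classical
  constructor
  · intro h
    obtain ⟨E, hE, hU⟩ := (krullTopology_mem_nhds_one_iff F Ω _).1 (h.mem_nhds U.one_mem)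
    let b := Module.finBasis F E
    refine ⟨Finset.univ.image fun i => (b i : Ω), fun g hg => hU ?_⟩
    rw [SetLike.mem_coe, IntermediateField.mem_fixingSubgroup_iff]
    intro x hx
    have h1 : g.toLinearMap ∘ₗ E.val.toLinearMap = E.val.toLinearMap :=
      b.ext fun i => hg _ (Finset.mem_image_of_mem _ (Finset.mem_univ i))
    exact LinearMap.congr_fun h1 ⟨x, hx⟩
  · rintro ⟨s, hs⟩
    refine Subgroup.isOpen_of_mem_nhds U (g := 1) (Filter.mem_of_superset
      ((Filter.biInter_finset_mem s).2 fun x _ =>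
        (stabilizer_isOpen_of_isIntegral (K := F) x).mem_nhds (Subgroup.one_mem _)) fun g hg => ?_)
    exact hs g fun x hx => Set.mem_iInter₂.1 hg x hx

/-- Paper A4. Strong induction on the size of the image, generalising `F` (the step replaces `F` by
the fixed field of `N`, `IntermediateField.fixingSubgroupEquiv`). -/
theorem ep_lift {k : Type} [Field k] [IsAlgClosed k] [CharZero k] {G H : Type} [Group G] [Group H]
    [Finite G] (hG : IsPGroup l G) (q : G →* H) (hq : Function.Surjective q) {c : G}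
    (hc : c ∈ Subgroup.center G) (hl : c ^ l = 1) (hk : q.ker = Subgroup.zpowers c)
    (F Ω : Type) [Field F] [Algebra (RatFunc k) F] [FiniteDimensional (RatFunc k) F] [Field Ω]
    [Algebra F Ω] [IsAlgClosure F Ω] (φ : (Ω ≃ₐ[F] Ω) →* H)
    (hφ : IsOpen (φ.ker : Set (Ω ≃ₐ[F] Ω))) :
    ∃ ψ : (Ω ≃ₐ[F] Ω) →* G, IsOpen (ψ.ker : Set (Ω ≃ₐ[F] Ω)) ∧ ∀ a, q (ψ a) = φ a := by
  by_cases hc1 : c = 1
  · have hi : Function.Injective q := by
      rw [← MonoidHom.ker_eq_bot_iff, hk, hc1, Subgroup.zpowers_one_eq_bot]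
    let e := MulEquiv.ofBijective q ⟨hi, hq⟩
    refine ⟨e.symm.toMonoidHom.comp φ, Subgroup.isOpen_mono (fun a ha => ?_) hφ,
      fun a => e.apply_symm_apply _⟩
    show e.symm (φ a) = 1
    rw [show φ a = 1 from ha, map_one]
  let e : Multiplicative (ZMod l) ≃* Subgroup.zpowers c :=
    mulEquivOfPrimeCardEq (p := l) (by simp) (by rw [Nat.card_zpowers, orderOf_eq_prime hl hc1])
  let ι : Multiplicative (ZMod l) →* G := (Subgroup.zpowers c).subtype.comp e.toMonoidHom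
  have hi : Function.Injective ι := Subtype.val_injective.comp e.injective
  have hcι : ∀ d x, x * ι d = ι d * x := fun d =>
    Subgroup.mem_center_iff.1 ((Subgroup.zpowers_le_of_mem hc) (e d).2)
  have hkι : ∀ x, q x = 1 ↔ ∃ d, ι d = x := fun x => by
    rw [← MonoidHom.mem_ker, hk]
    exact ⟨fun h => ⟨e.symm ⟨x, h⟩, congrArg Subtype.val (e.apply_symm_apply _)⟩,
      fun ⟨d, h⟩ => h ▸ (e d).2⟩
  have : Finite H := Finite.of_surjective q hq
  generalize hn : Nat.card φ.range = n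
  induction n using Nat.strong_induction_on generalizing F with
  | _ n ih =>
  by_cases h0 : φ.range = ⊥
  · refine ⟨1, by simp, fun a => ?_⟩
    have h1 : φ a ∈ φ.range := ⟨a, rfl⟩
    rw [h0, Subgroup.mem_bot] at h1
    simp [h1]
  have : Nontrivial φ.range := (Subgroup.nontrivial_iff_ne_bot _).2 h0
  obtain ⟨M, hM, hMl⟩ := fep_index ((hG.of_surjective q hq).to_subgroup φ.range)
  have : CharZero F := charZero_of_injective_algebraMap (algebraMap (RatFunc k) F).injective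
  have hl1 := (Fact.out : l.Prime).one_lt
  obtain ⟨N, hNM⟩ : ∃ N, N = M.comap φ.rangeRestrict := ⟨_, rfl⟩
  have : N.Normal := hNM ▸ hM.comap _
  have hN : N.index = l := by
    rw [hNM, Subgroup.index_comap_of_surjective _ φ.rangeRestrict_surjective, hMl]
  have ho : IsOpen (N : Set (Ω ≃ₐ[F] Ω)) := Subgroup.isOpen_mono (fun a ha => by
    rw [hNM, Subgroup.mem_comap, show φ.rangeRestrict a = 1 from Subtype.ext ha]
    exact M.one_mem) hφ
  obtain ⟨γ, hγ⟩ : ∃ γ, γ ∉ N := by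
    by_contra h
    have h1 : N = ⊤ := eq_top_iff.2 fun a _ => not_not.1 fun h' => h ⟨a, h'⟩
    rw [h1, Subgroup.index_top] at hN
    omega
  have hγl : γ ^ l ∈ N := hN ▸ N.pow_index_mem γ
  let F' := IntermediateField.fixedField N
  have hF : F'.fixingSubgroup = N :=
    InfiniteGalois.fixingSubgroup_fixedField ⟨N, N.isClosed_of_isOpen ho⟩
  have : FiniteDimensional F F' := (InfiniteGalois.isOpen_iff_finite F').1 (hF ▸ ho)
  let _ : Algebra (RatFunc k) F' := ((algebraMap F F').comp (algebraMap (RatFunc k) F)).toAlgebra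
  have : IsScalarTower (RatFunc k) F F' := IsScalarTower.of_algebraMap_eq' rfl
  have : FiniteDimensional (RatFunc k) F' := Module.Finite.trans F F'
  have : IsAlgClosure F' Ω := ⟨IsAlgClosure.isAlgClosed F, inferInstance⟩
  let r : N ≃* (Ω ≃ₐ[F'] Ω) := (MulEquiv.subgroupCongr hF.symm).trans F'.fixingSubgroupEquiv
  let φ' : (Ω ≃ₐ[F'] Ω) →* H := φ.comp (N.subtype.comp r.symm.toMonoidHom)
  have hlt : Nat.card φ'.range < n := by
    have h1 : φ'.range ≤ M.map φ.range.subtype := by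
      rintro _ ⟨a, rfl⟩
      exact ⟨φ.rangeRestrict (r.symm a), Subgroup.mem_comap.1 (hNM ▸ (r.symm a).2), rfl⟩
    have h2 := Subgroup.card_le_of_le h1
    rw [Subgroup.card_map_of_injective φ.range.subtype_injective] at h2
    have h3 := M.card_mul_index
    have h4 : 0 < Nat.card M := Nat.card_pos
    rw [hMl, hn] at h3
    nlinarith
  obtain ⟨ψ, h1, h2⟩ := ih _ hlt F' φ' (by
    obtain ⟨s, hs⟩ := (fep_open _).1 hφ
    exact (fep_open _).2 ⟨s, fun g hg => hs (r.symm g) hg⟩) rfl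
  obtain ⟨ε₀, h01, h02, h03⟩ := ep_inv (k := k) N hN ho hγ hγl
  refine fep_step q hq ι hi hcι hkι N hN ho hγ hγl ε₀ h01 h02 h03 (ep_cob (k := k) N hN ho hγ hγl)
    φ (ψ.comp r.toMonoidHom) ?_ fun m => (h2 _).trans (congrArg φ (congrArg Subtype.val
      (r.symm_apply_apply m)))
  obtain ⟨s, hs⟩ := (fep_open _).1 h1
  have h3 : IsOpen ((⨅ x ∈ s, MulAction.stabilizer (Ω ≃ₐ[F] Ω) x : Subgroup _) :
      Set (Ω ≃ₐ[F] Ω)) := (fep_open _).2 ⟨s, fun g hg => by simpa using hg⟩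
  refine Subgroup.isOpen_mono
    (H₁ := Subgroup.comap N.subtype (⨅ x ∈ s, MulAction.stabilizer (Ω ≃ₐ[F] Ω) x))
    (fun m hm => hs (r m) fun x hx => ?_) (h3.preimage continuous_subtype_val)
  exact Subgroup.mem_iInf.1 (Subgroup.mem_iInf.1 (Subgroup.mem_comap.1 hm) x) hx

end Pool.Agent.Lib.MP_446a91_nt.Gal
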