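import Pool.Agent.Lib.MP_446a91_nt.Gal.FTsen
import Pool.Agent.Lib.MP_446a91_nt.Gal.FKum
import Pool.Agent.Lib.MP_446a91_nt.Gal.FProL

/-! Central embedding problems over function fields (MP_446a91_nt). -/

namespace Pool.Agent.Lib.MP_446a91_nt.Gal

variable {l : ℕ} [Fact l.Prime]

section
variable {F Ω : Type} [Field F] [Field Ω] [Algebra F Ω]

/-- The embedding of `ℤ / l` given by a root of unity. -/
def fepaE {ζ : F} (hζ : IsPrimitiveRoot ζ l) (Ω : Type) [Field Ω] [Algebra F Ω] :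
    Multiplicative (ZMod l) →* Ω where
  toFun a := algebraMap F Ω ζ ^ a.toAdd.val
  map_one' := by simp
  map_mul' a b := by
    rw [toAdd_mul, ZMod.val_add, ← pow_add, ← pow_eq_pow_mod]
    rw [← map_pow, hζ.pow_eq_one, map_one]

theorem fepa_inj {ζ : F} (hζ : IsPrimitiveRoot ζ l) {r : Ω} (hr : r ≠ 0)
    {a b : Multiplicative (ZMod l)} (h : fepaE hζ Ω a * r = fepaE hζ Ω b * r) : a = b :=
  Multiplicative.toAdd.injective (ZMod.val_injective l
    ((hζ.map_of_injective (algebraMap F Ω).injective).pow_inj (ZMod.val_lt _) (ZMod.val_lt _)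
      (mul_right_cancel₀ hr h)))

theorem fepa_fixE {ζ : F} (hζ : IsPrimitiveRoot ζ l) (g : Ω ≃ₐ[F] Ω)
    (a : Multiplicative (ZMod l)) : g (fepaE hζ Ω a) = fepaE hζ Ω a := by
  simp [fepaE]

theorem fepa_powE {ζ : F} (hζ : IsPrimitiveRoot ζ l) (a : Multiplicative (ZMod l)) :
    fepaE hζ Ω a ^ l = 1 := by
  change (algebraMap F Ω ζ ^ a.toAdd.val) ^ l = 1
  rw [pow_right_comm, ← map_pow, hζ.pow_eq_one, map_one, one_pow]

theorem fepa_mu {ξ : F} (hξ : IsPrimitiveRoot ξ (l ^ 2)) {μ : Ω} (h : (μ ^ l) ^ l = 1)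
    (g : Ω ≃ₐ[F] Ω) : g μ = μ := by
  obtain ⟨i, -, rfl⟩ := (hξ.map_of_injective (algebraMap F Ω).injective).eq_pow_of_pow_eq_one
    (ξ := μ) (by rw [sq, pow_mul, h])
  simp

variable [IsGalois F Ω] (N : Subgroup (Ω ≃ₐ[F] Ω)) (ho : IsOpen (N : Set (Ω ≃ₐ[F] Ω)))
include ho

theorem fepa_fix : (IntermediateField.fixedField N).fixingSubgroup = N :=
  InfiniteGalois.fixingSubgroup_fixedField ⟨N, N.isClosed_of_isOpen ho⟩

theorem fepa_j : ∃ j : N ≃* (Ω ≃ₐ[IntermediateField.fixedField N] Ω), ∀ n x, j n x = n.1 x :=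
  ⟨(MulEquiv.subgroupCongr (fepa_fix N ho).symm).trans
    (IntermediateField.fixedField N).fixingSubgroupEquiv, fun _ _ => rfl⟩

theorem fepa_char {ζ : F} (hζ : IsPrimitiveRoot ζ l) {r : Ω} (hr : r ≠ 0)
    (h : ∀ n ∈ N, n (r ^ l) = r ^ l) : ∃ ε : N →* Multiplicative (ZMod l),
      IsOpen (ε.ker : Set N) ∧ ∀ n : N, n.1 r = fepaE hζ Ω (ε n) * r := by
  obtain ⟨j, hj⟩ := fepa_j N ho
  obtain ⟨χ, -, h1⟩ := exists_char_of_root (K := IntermediateField.fixedField N)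
    (hζ.map_of_injective (algebraMap F _).injective) hr
    (c := ⟨r ^ l, (IntermediateField.mem_fixedField_iff N _).2 h⟩) rfl
  have h2 : ∀ n : N, n.1 r = fepaE hζ Ω (χ.comp j.toMonoidHom n) * r := fun n =>
    (hj n r).symm.trans (h1 (j n))
  refine ⟨_, ?_, h2⟩
  have h3 : ((χ.comp j.toMonoidHom).ker : Set N) =
      Subtype.val ⁻¹' (MulAction.stabilizer (Ω ≃ₐ[F] Ω) r : Set (Ω ≃ₐ[F] Ω)) := by
    ext n
    refine ⟨fun hn => ?_, fun hn => fepa_inj hζ hr ?_⟩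
    · have h4 := h2 n
      rwa [MonoidHom.mem_ker.1 hn, map_one, one_mul] at h4
    · rw [← h2, map_one, one_mul]
      exact hn
  rw [h3]
  exact (stabilizer_isOpen_of_isIntegral r).preimage continuous_subtype_val

theorem fepa_eigen {ζ : F} (hζ : IsPrimitiveRoot ζ l) (δ : N →* Multiplicative (ZMod l))
    (hδ : IsOpen (δ.ker : Set N)) : ∃ r : Ω, r ≠ 0 ∧ ∀ n : N, n.1 r = fepaE hζ Ω (δ n) * r := by
  obtain ⟨j, hj⟩ := fepa_j N ho
  have h1 : ∀ g x, (j.symm g).1 x = g x := fun g x => by rw [← hj, j.apply_symm_apply]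
  have h2 : Continuous j.symm := continuous_induced_rng.2 ((continuous_gal _).2 fun x => by
    simp only [Function.comp_apply, h1]
    exact (continuous_gal id).1 continuous_id x)
  obtain ⟨r, hr, -, h3⟩ := exists_eigen (K := IntermediateField.fixedField N)
    (hζ.map_of_injective (algebraMap F _).injective) (δ.comp j.symm.toMonoidHom) (hδ.preimage h2)
  refine ⟨r, hr, fun n => (hj n r).symm.trans ((h3 (j n)).trans ?_)⟩
  rw [MonoidHom.comp_apply, MulEquiv.coe_toMonoidHom, j.symm_apply_apply]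
  rfl

/-- The cyclic extension cut out by `N`. -/
theorem fepa_cyc [N.Normal] (hN : N.index = l) {σ : Ω ≃ₐ[F] Ω} (hσ : σ ∉ N) :
    FiniteDimensional F (IntermediateField.fixedField N) ∧
    (∀ x : IntermediateField.fixedField N,
      algebraMap F Ω (Algebra.norm F x) = ∏ i ∈ Finset.range l, (σ ^ i) x.1) ∧
    (∀ x : IntermediateField.fixedField N, σ x.1 = x.1 → ∃ c, algebraMap F Ω c = x.1) ∧
    ∀ x : IntermediateField.fixedField N, Algebra.norm F x = 1 →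
      ∃ y : IntermediateField.fixedField N, y ≠ 0 ∧ y.1 / σ y.1 = x.1 := by
  classical
  have h0 := fepa_fix N ho
  obtain ⟨h1, h2⟩ := (InfiniteGalois.isOpen_and_normal_iff_finite_and_isGalois
    (IntermediateField.fixedField N)).1 (by rw [h0]; exact ⟨ho, inferInstance⟩)
  have hk := (IntermediateField.fixedField N).restrictNormalHom_ker.trans h0
  have hc : Nat.card (IntermediateField.fixedField N ≃ₐ[F] IntermediateField.fixedField N) = l := by
    have h3 := Subgroup.index_ker (AlgEquiv.restrictNormalHom (F := F) (K₁ := Ω)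
      (IntermediateField.fixedField N))
    rw [hk, hN, MonoidHom.range_eq_top.2 (AlgEquiv.restrictNormalHom_surjective Ω),
      Subgroup.card_top] at h3
    exact h3.symm
  set g := AlgEquiv.restrictNormalHom (F := F) (IntermediateField.fixedField N) σ with hg
  have hg1 : g ≠ 1 := fun e => hσ (hk.le e)
  have hz : ∀ τ, τ ∈ Subgroup.zpowers g := fun τ => mem_zpowers_of_prime_card hc hg1
  have ho' : orderOf g = l := (orderOf_eq_card_of_forall_mem_zpowers hz).trans hc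
  have hp : ∀ (i : ℕ) (x : IntermediateField.fixedField N), ((g ^ i) x).1 = (σ ^ i) x.1 :=
    fun i x => by rw [hg, ← map_pow, AlgEquiv.restrictNormalHom_apply]
  have hp1 : ∀ x : IntermediateField.fixedField N, (g x).1 = σ x.1 := fun x => by
    simpa using hp 1 x
  have := isCyclic_of_prime_card hc
  refine ⟨h1, fun x => ?_, fun x hx => ?_, fun x hx => ?_⟩
  · rw [IsScalarTower.algebraMap_apply F (IntermediateField.fixedField N) Ω,
      Algebra.norm_eq_prod_automorphisms, ← IsCyclic.image_range_orderOf hz,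
      Finset.prod_image (fun i hi j hj e => pow_injOn_Iio_orderOf (by simpa using hi)
        (by simpa using hj) e), ho', map_prod]
    exact Finset.prod_congr rfl fun i _ => hp i x
  · obtain ⟨c, hc⟩ := (IsGalois.mem_range_algebraMap_iff_fixed (F := F) x).2 fun τ =>
      (Subgroup.zpowers_le (H := MulAction.stabilizer _ x)).2
        (Subtype.ext ((hp1 x).trans hx)) (hz τ)
    exact ⟨c, congrArg Subtype.val hc⟩
  · obtain ⟨y, hy⟩ := groupCohomology.exists_div_of_norm_eq_one hz hx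
    refine ⟨y, y.ne_zero, ?_⟩
    rw [← hy, ← hp1]
    rfl

end

section
variable {k F Ω : Type} [Field k] [IsAlgClosed k] [CharZero k] [Field F] [Algebra (RatFunc k) F]
  [FiniteDimensional (RatFunc k) F] [Field Ω] [Algebra F Ω] [IsAlgClosure F Ω]

omit [FiniteDimensional (RatFunc k) F] in
theorem fepa_setup (l : ℕ) [Fact l.Prime] (k F Ω : Type) [Field k] [IsAlgClosed k] [CharZero k]
    [Field F] [Algebra (RatFunc k) F] [Field Ω] [Algebra F Ω] [IsAlgClosure F Ω] :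
    IsGalois F Ω ∧ ∃ ζ ξ : F, IsPrimitiveRoot ζ l ∧ IsPrimitiveRoot ξ (l ^ 2) := by
  obtain ⟨z, hz⟩ := exists_isRoots l k
  have hφ := ((algebraMap (RatFunc k) F).comp (algebraMap k (RatFunc k))).injective
  have : CharZero F := charZero_of_injective_ringHom hφ
  exact ⟨inferInstance, _, _, pow_one l ▸ (hz.prim 1).map_of_injective hφ,
    (hz.prim 2).map_of_injective hφ⟩

include k in
/-- Paper A4 (b): `θ ^ l ∈ F`, `γ θ = ζ θ`, the character of an `l`-th root of `θ`. -/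
theorem ep_inv (N : Subgroup (Ω ≃ₐ[F] Ω)) [N.Normal] (hN : N.index = l)
    (ho : IsOpen (N : Set (Ω ≃ₐ[F] Ω))) {γ : Ω ≃ₐ[F] Ω} (hγ : γ ∉ N) (hl : γ ^ l ∈ N) :
    ∃ ε : N →* Multiplicative (ZMod l), IsOpen (ε.ker : Set N) ∧ ε ⟨γ ^ l, hl⟩ ≠ 1 ∧
      ∀ n : N, ε ⟨γ * n * γ⁻¹, Subgroup.Normal.conj_mem inferInstance _ n.2 γ⟩ = ε n := by
  obtain ⟨_, ζ, ξ, hζ, hξ⟩ := fepa_setup l k F Ω
  have := IsAlgClosure.isAlgClosed (K := Ω) F
  have hl0 := (Fact.out : l.Prime).pos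
  let e := mulEquivOfPrimeCardEq (G := (Ω ≃ₐ[F] Ω) ⧸ N) (G' := Multiplicative (ZMod l)) hN
    (by simp)
  have hk : (e.toMonoidHom.comp (QuotientGroup.mk' N)).ker = N := by
    ext g
    simp
  obtain ⟨θ, hθ, -, h1⟩ := exists_eigen hζ (e.toMonoidHom.comp (QuotientGroup.mk' N))
    (by rw [hk]; exact ho)
  generalize e.toMonoidHom.comp (QuotientGroup.mk' N) = χ at hk h1
  change ∀ g, g θ = fepaE hζ Ω (χ g) * θ at h1
  obtain ⟨ρ, rfl⟩ := IsAlgClosed.exists_pow_nat_eq θ hl0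
  have hρ : ρ ≠ 0 := fun h => hθ (by rw [h, zero_pow hl0.ne'])
  obtain ⟨ε, h2, h3⟩ := fepa_char N ho hζ hρ fun n hn => by
    rw [h1, MonoidHom.mem_ker.1 (hk.ge hn), map_one, one_mul]
  obtain ⟨μ, h4⟩ : ∃ μ, γ ρ = μ * ρ := ⟨γ ρ / ρ, (div_mul_cancel₀ _ hρ).symm⟩
  have h5 : μ ^ l = fepaE hζ Ω (χ γ) :=
    mul_right_cancel₀ hθ (by rw [← h1, ← mul_pow, ← h4, map_pow])
  have h6 := fepa_mu hξ (μ := μ) (by rw [h5, fepa_powE])
  have h7 : ∀ i : ℕ, (γ ^ i) ρ = μ ^ i * ρ := fun i => by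
    induction i with
    | zero => simp
    | succ i ih => rw [pow_succ', AlgEquiv.mul_apply, ih, map_mul, map_pow, h6, h4]; ring
  refine ⟨ε, h2, fun h => hγ (hk.le (fepa_inj hζ hρ ?_)), fun n => fepa_inj hζ hρ ?_⟩
  · rw [← h5, ← h7, ← h, ← h3]
  · have h8 : ρ = μ * γ⁻¹ ρ := by
      rw [← h6 γ⁻¹, ← map_mul, ← h4, ← AlgEquiv.mul_apply, inv_mul_cancel, AlgEquiv.one_apply]
    have h9 : μ ≠ 0 := left_ne_zero_of_mul (h8 ▸ hρ)
    refine (h3 _).symm.trans (mul_left_cancel₀ h9 ?_)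
    change μ * γ (n.1 (γ⁻¹ ρ)) = _
    rw [← h6 γ, ← h6 n.1, ← map_mul, ← map_mul, ← h8, h3, map_mul, fepa_fixE, h4, h6, h6]
    ring

include k in
/-- Paper A4 (a): a character of `N` with trivial norm under `γ` and trivial value at `γ ^ l` is
a coboundary (Kummer theory over the fixed field `F'` of `N`, Hilbert 90, `norm_surj`). -/
theorem ep_cob (N : Subgroup (Ω ≃ₐ[F] Ω)) [N.Normal] (hN : N.index = l)
    (ho : IsOpen (N : Set (Ω ≃ₐ[F] Ω))) {γ : Ω ≃ₐ[F] Ω} (hγ : γ ∉ N) (hl : γ ^ l ∈ N)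
    (δ : N →* Multiplicative (ZMod l)) (hδ : IsOpen (δ.ker : Set N)) (h1 : δ ⟨γ ^ l, hl⟩ = 1)
    (h2 : ∀ n : N, ∏ i ∈ Finset.range l,
      δ ⟨γ ^ i * n * (γ ^ i)⁻¹, Subgroup.Normal.conj_mem inferInstance _ n.2 _⟩ = 1) :
    ∃ ε : N →* Multiplicative (ZMod l), IsOpen (ε.ker : Set N) ∧ ∀ n : N,
      δ n = ε ⟨γ * n * γ⁻¹, Subgroup.Normal.conj_mem inferInstance _ n.2 γ⟩ / ε n := by
  obtain ⟨_, ζ, ξ, hζ, hξ⟩ := fepa_setup l k F Ω
  have := IsAlgClosure.isAlgClosed (K := Ω) F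
  have hl0 := (Fact.out : l.Prime).pos
  obtain ⟨_, c1, c2, c3⟩ := fepa_cyc N ho hN (σ := γ⁻¹) fun h => hγ (inv_mem_iff.1 h)
  have mem : ∀ {x : Ω}, x ∈ IntermediateField.fixedField N ↔ ∀ n ∈ N, n x = x :=
    IntermediateField.mem_fixedField_iff N _
  obtain ⟨r, hr, h3⟩ := fepa_eigen N ho hζ δ hδ
  have h4 : ∀ (n : N) (i : ℕ), n.1 ((γ⁻¹ ^ i) r) = fepaE hζ Ω
      (δ ⟨γ ^ i * n * (γ ^ i)⁻¹, Subgroup.Normal.conj_mem inferInstance _ n.2 _⟩) *
        (γ⁻¹ ^ i) r := fun n i => by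
    rw [← fepa_fixE hζ (γ⁻¹ ^ i), ← map_mul, ← h3, ← AlgEquiv.mul_apply, ← AlgEquiv.mul_apply]
    congr 1
    group
  have h5 : ∏ i ∈ Finset.range l, (γ⁻¹ ^ i) r ∈ IntermediateField.fixedField N :=
    mem.2 fun n hn => by
      rw [map_prod, Finset.prod_congr rfl fun i _ => h4 ⟨n, hn⟩ i, Finset.prod_mul_distrib,
        ← map_prod, h2, map_one, one_mul]
  have h6 : (γ⁻¹ ^ l) r = r := by
    have h7 := h3 (⟨γ ^ l, hl⟩ : N)⁻¹
    rw [map_inv, h1, inv_one, map_one, one_mul] at h7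
    rwa [inv_pow]
  obtain ⟨c, hc⟩ := c2 ⟨_, h5⟩ (mul_right_cancel₀ hr (by
    have h7 := Finset.prod_range_succ' (fun i => (γ⁻¹ ^ i) r) l
    rw [Finset.prod_range_succ, h6] at h7
    simp only [pow_succ', AlgEquiv.mul_apply, pow_zero, AlgEquiv.one_apply] at h7
    rw [map_prod]
    exact h7.symm))
  change _ = ∏ i ∈ Finset.range l, (γ⁻¹ ^ i) r at hc
  have hc0 : c ≠ 0 := fun e => by
    rw [e, map_zero] at hc
    exact Finset.prod_ne_zero_iff.2 (fun i _ => (map_ne_zero (γ⁻¹ ^ i)).2 hr) hc.symm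
  obtain ⟨w, hw⟩ := norm_surj (k := k) (F' := IntermediateField.fixedField N) c
  have hw0 : w ≠ 0 := fun e => hc0 (by rw [← hw, e, Algebra.norm_zero])
  have hw1 : w.1 ≠ 0 := fun e => hw0 (Subtype.ext e)
  have h8 : r ^ l ∈ IntermediateField.fixedField N := mem.2 fun n hn => by
    rw [map_pow, h3 ⟨n, hn⟩, mul_pow, fepa_powE, one_mul]
  have h9 : Algebra.norm F (⟨_, h8⟩ : IntermediateField.fixedField N) = c ^ l :=
    (algebraMap F Ω).injective (by
      rw [c1, map_pow, hc, ← Finset.prod_pow]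
      exact Finset.prod_congr rfl fun i _ => map_pow _ _ _)
  obtain ⟨y, hy, h10⟩ := c3 (⟨_, h8⟩ * (w ^ l)⁻¹) (by
    rw [map_mul, Algebra.norm_inv, map_pow, hw, h9, mul_inv_cancel₀ (pow_ne_zero _ hc0)])
  change y.1 / γ⁻¹ y.1 = r ^ l * (w.1 ^ l)⁻¹ at h10
  have hy1 : y.1 ≠ 0 := fun e => hy (Subtype.ext e)
  obtain ⟨s, hs⟩ := IsAlgClosed.exists_pow_nat_eq y.1⁻¹ hl0
  have hs0 : s ≠ 0 := fun h => inv_ne_zero hy1 (by rw [← hs, h, zero_pow hl0.ne'])
  have hs1 : γ⁻¹ s ≠ 0 := (map_ne_zero _).2 hs0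
  obtain ⟨ε, e1, e2⟩ := fepa_char N ho hζ hs0 fun n hn => by
    rw [hs, map_inv₀, mem.1 y.2 n hn]
  obtain ⟨μ, hμ⟩ : ∃ μ, r * s = μ * w.1 * γ⁻¹ s :=
    ⟨r * s / (w.1 * γ⁻¹ s), by field_simp⟩
  have h11 : μ ^ l = 1 := by
    have h12 := congrArg (· ^ l) hμ
    simp only [mul_pow] at h12
    rw [← map_pow, hs, map_inv₀] at h12
    have h13 : γ⁻¹ y.1 ≠ 0 := (map_ne_zero _).2 hy1
    have h14 := pow_ne_zero l hw1
    field_simp at h10 h12
    refine mul_right_cancel₀ (mul_ne_zero h14 hy1) ?_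
    linear_combination -h10 - h12
  have h15 := fepa_mu hξ (μ := μ) (by rw [h11, one_pow])
  refine ⟨ε, e1, fun n => eq_div_iff_mul_eq'.2 (fepa_inj hζ (mul_ne_zero hr hs0) ?_)⟩
  have h16 : n.1 (γ⁻¹ s) = fepaE hζ Ω
      (ε ⟨γ * n * γ⁻¹, Subgroup.Normal.conj_mem inferInstance _ n.2 γ⟩) * γ⁻¹ s := by
    rw [← fepa_fixE hζ γ⁻¹, ← map_mul, ← e2, ← AlgEquiv.mul_apply, ← AlgEquiv.mul_apply]
    congr 1
    group
  have h17 := congrArg n.1 hμ
  rw [map_mul, map_mul, map_mul, h3, e2, h15, mem.1 w.2 n n.2, h16] at h17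
  rw [map_mul]
  linear_combination h17 - fepaE hζ Ω
    (ε ⟨γ * n * γ⁻¹, Subgroup.Normal.conj_mem inferInstance _ n.2 γ⟩) * hμ

end

end Pool.Agent.Lib.MP_446a91_nt.Gal
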