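import Pool.Agent.Lib.MP_446a91_nt.Gal.FBridge
import Pool.Agent.Lib.MP_446a91_nt.Gal.FKum

/-! The field `maxExt` (MP_446a91_nt). -/

namespace Pool.Agent.Lib.MP_446a91_nt.Gal

open Polynomial

section fmaxa_gen

variable {F E : Type} [Field F] [Field E] [Algebra F E]

theorem fmaxa_pow_fix {g : E ≃ₐ[F] E} {y : E} (h : g y = y) (n : ℕ) : (g ^ n) y = y := by
  induction n with
  | zero => rfl
  | succ n ih => rw [pow_succ, AlgEquiv.mul_apply, h, ih]

theorem fmaxa_mono {l n m : ℕ} {g : E ≃ₐ[F] E} {y : E} (h : (g ^ l ^ n) y = y) (hm : n ≤ m) :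
    (g ^ l ^ m) y = y := by
  obtain ⟨d, rfl⟩ := Nat.exists_eq_add_of_le hm
  rw [pow_add, pow_mul]
  exact fmaxa_pow_fix h _

/-- The field generated by the conjugates of an element. -/
theorem fmaxa_orbit [IsGalois F E] (x : E) :
    ∃ L : IntermediateField F E, FiniteDimensional F L ∧ IsGalois F L ∧ x ∈ L ∧
      ∀ W : IntermediateField F E, (∀ g : E ≃ₐ[F] E, g x ∈ W) → L ≤ W := by
  have hint : ∀ y : E, IsIntegral F y := fun y => Algebra.IsIntegral.isIntegral y
  have hfin : (Set.range fun g : E ≃ₐ[F] E => g x).Finite := by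
    refine ((minpoly F x).rootSet_finite E).subset ?_
    rintro _ ⟨g, rfl⟩
    rw [Polynomial.mem_rootSet]
    refine ⟨minpoly.ne_zero (hint x), ?_⟩
    have := Polynomial.aeval_algHom_apply (g : E →ₐ[F] E) x (minpoly F x)
    rw [minpoly.aeval, map_zero] at this
    exact this
  have : Finite (Set.range fun g : E ≃ₐ[F] E => g x) := hfin
  refine ⟨IntermediateField.adjoin F (Set.range fun g : E ≃ₐ[F] E => g x),
    IntermediateField.finiteDimensional_adjoin fun y _ => hint y, ?_,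
    IntermediateField.subset_adjoin _ _ ⟨1, rfl⟩, fun W hW => ?_⟩
  · have : Normal F (IntermediateField.adjoin F (Set.range fun g : E ≃ₐ[F] E => g x)) := by
      rw [IntermediateField.normal_iff_forall_map_le']
      intro σ
      rw [IntermediateField.adjoin_map]
      refine IntermediateField.adjoin.mono _ _ _ ?_
      rintro _ ⟨_, ⟨g, rfl⟩, rfl⟩
      exact ⟨σ * g, rfl⟩
    exact {}
  · rw [IntermediateField.adjoin_le_iff]
    rintro _ ⟨g, rfl⟩
    exact hW g

/-- The elements whose orbits under all cyclic subgroups have `l`-power length. -/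
theorem fmaxa_field (l : ℕ) : ∃ W : IntermediateField F E,
    ∀ y, y ∈ W ↔ ∀ g : E ≃ₐ[F] E, ∃ n, (g ^ l ^ n) y = y := by
  refine ⟨{ carrier := {y | ∀ g : E ≃ₐ[F] E, ∃ n, (g ^ l ^ n) y = y}
            mul_mem' := ?_
            add_mem' := ?_
            algebraMap_mem' := fun c g => ⟨0, AlgEquiv.commutes _ c⟩
            inv_mem' := ?_ }, fun y => Iff.rfl⟩
  · intro a b ha hb g
    obtain ⟨n, hn⟩ := ha g
    obtain ⟨m, hm⟩ := hb g
    exact ⟨max n m, by
      rw [map_mul, fmaxa_mono hn (le_max_left _ _), fmaxa_mono hm (le_max_right _ _)]⟩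
  · intro a b ha hb g
    obtain ⟨n, hn⟩ := ha g
    obtain ⟨m, hm⟩ := hb g
    exact ⟨max n m, by
      rw [map_add, fmaxa_mono hn (le_max_left _ _), fmaxa_mono hm (le_max_right _ _)]⟩
  · intro a ha g
    obtain ⟨n, hn⟩ := ha g
    exact ⟨n, by rw [map_inv₀, hn]⟩

theorem fmaxa_fix_of_finrank {l n : ℕ} (L : IntermediateField F E) [FiniteDimensional F L]
    [IsGalois F L] (h : Module.finrank F L = l ^ n) (g : E ≃ₐ[F] E) {y : E} (hy : y ∈ L) :
    (g ^ l ^ n) y = y := by
  have h1 : (AlgEquiv.restrictNormalHom L g) ^ l ^ n = 1 := by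
    rw [← h, ← IsGalois.card_aut_eq_finrank]
    exact pow_card_eq_one'
  rw [← map_pow] at h1
  have h2 := AlgEquiv.restrictNormalHom_apply L (g ^ l ^ n) ⟨y, hy⟩
  rw [h1] at h2
  exact h2.symm

theorem fmaxa_finrank_of_fix {l : ℕ} [Fact l.Prime] [Normal F E] (L : IntermediateField F E)
    [FiniteDimensional F L] [IsGalois F L]
    (h : ∀ y ∈ L, ∀ g : E ≃ₐ[F] E, ∃ n, (g ^ l ^ n) y = y) :
    ∃ n, Module.finrank F L = l ^ n := by
  have hp : IsPGroup l (L ≃ₐ[F] L) := by
    intro σ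
    obtain ⟨g, rfl⟩ := AlgEquiv.restrictNormalHom_surjective (F := F) (K₁ := L) E σ
    let b := Module.finBasis F L
    choose n hn using fun i => h (b i) (b i).2 g
    refine ⟨Finset.univ.sup n, ?_⟩
    rw [← map_pow]
    apply AlgEquiv.toLinearMap_injective
    refine b.ext fun i => Subtype.ext ?_
    exact (AlgEquiv.restrictNormalHom_apply L _ (b i)).trans
      (fmaxa_mono (hn i) (Finset.le_sup (Finset.mem_univ i)))
  rw [← IsGalois.card_aut_eq_finrank]
  exact hp.exists_card_eq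

end fmaxa_gen

variable {l : ℕ} [Fact l.Prime] {k k' : Type} [Field k] [Field k'] [IsAlgClosed k] [CharZero k]
  {z : ℕ → k} {S : Set k}

omit [IsAlgClosed k] [CharZero k] in
theorem maxExt_gal (l : ℕ) [Fact l.Prime] (S : Set k) :
    IsGalois (RatFunc k) (maxExt l k S) ∧ ProLExt l (RatFunc k) (maxExt l k S) :=
  sSup_proL _ fun _ h => ⟨h.1, h.2.1, h.2.2.1⟩

omit [IsAlgClosed k] [CharZero k] in
theorem maxExt_le_univ (S : Set k) : maxExt l k S ≤ maxExt l k Set.univ :=
  sSup_le_sSup fun _ h => ⟨h.1, h.2.1, h.2.2.1, fun a ha => absurd (Set.mem_univ a) ha⟩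

omit [IsAlgClosed k] [CharZero k] in
theorem exists_over [IsAlgClosed k'] [CharZero k'] (S : Set k) (φ : k →+* k') {T : HS l k'}
    (hT : ∀ c : k', T ≠ HahnSeries.C c) : ∃ j : maxExt l k S →+* HS l k', Over φ T j := by
  obtain ⟨j₀, hj₀⟩ := exists_over_base φ hT
  obtain ⟨hG, hP⟩ := maxExt_gal l S
  obtain ⟨z', hz'⟩ := exists_isRoots l k'
  have : CharZero (HS l k') := hs_charZero
  have hζ := (hz'.map (HahnSeries.C : k' →+* HS l k')).prim 1
  rw [pow_one] at hζ
  obtain ⟨j, hj⟩ := exists_emb hP hζ hs_root j₀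
  exact ⟨j, fun c => (hj _).trans (hj₀.1 c), (hj _).trans hj₀.2⟩

omit [Fact l.Prime] [IsAlgClosed k] [CharZero k] in
theorem fmaxa_over_comp {E E' : Type} [Field E] [Field E'] [Algebra (RatFunc k) E]
    [Algebra (RatFunc k) E'] {φ : k →+* k'} {T : HS l k'} {j : E' →+* HS l k'} (hj : Over φ T j)
    (f : E →ₐ[RatFunc k] E') : ∃ j' : E →+* HS l k', Over φ T j' ∧ ∀ y, j' y = j (f y) :=
  ⟨j.comp (f : E →+* E'), ⟨fun c => (congrArg j (f.commutes _)).trans (hj.1 c),
    (congrArg j (f.commutes _)).trans hj.2⟩, fun _ => rfl⟩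

omit [Fact l.Prime] [IsAlgClosed k] [CharZero k] in
theorem fmaxa_iZ_zero : iZ l 0 = 0 := Subtype.ext (by simp [iZ])

omit [Fact l.Prime] [IsAlgClosed k] [CharZero k] in
theorem fmaxa_iZ_one_ne : iZ l 1 ≠ 0 := fun h => by
  have := congrArg Subtype.val h
  simp [iZ] at this

omit [Fact l.Prime] [IsAlgClosed k] [CharZero k] in
theorem fmaxa_coeff_zero (a : k) : (HahnSeries.C a + ww l k).coeff 0 = a := by
  rw [HahnSeries.coeff_add, HahnSeries.C_apply, HahnSeries.coeff_single_same, ww,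
    HahnSeries.coeff_single_of_ne fmaxa_iZ_one_ne.symm, add_zero]

omit [Fact l.Prime] [IsAlgClosed k] [CharZero k] in
theorem fmaxa_ne_C (a c : k) : HahnSeries.C a + ww l k ≠ HahnSeries.C c := by
  intro h
  have := congrArg (fun F : HS l k => F.coeff (iZ l 1)) h
  simp only [HahnSeries.coeff_add, HahnSeries.C_apply, ww, HahnSeries.coeff_single_same,
    HahnSeries.coeff_single_of_ne (fmaxa_iZ_one_ne (l := l)), zero_add] at this
  exact one_ne_zero this

omit [IsAlgClosed k] [CharZero k] in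
theorem fmaxa_order_nonneg (a : k) : 0 ≤ (HahnSeries.C a + ww l k).order := by
  by_cases ha : a = 0
  · rw [ha, map_zero, zero_add, order_ww]
    exact Subtype.coe_le_coe.1 (by simp [iZ])
  · have := (order_C_add (l := l) ha 1).1
    rw [map_one, one_mul, fmaxa_iZ_zero] at this
    exact this.ge

omit [IsAlgClosed k] [CharZero k] in
theorem fmaxa_tau_T (hz : IsRoots l z) (a : k) :
    tau hz (HahnSeries.C a + ww l k) = HahnSeries.C a + ww l k := by
  rw [map_add, tau_C, tau_ww]

omit [IsAlgClosed k] [CharZero k] in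
/-- The elements whose image is fixed by the monodromy form an intermediate field. -/
theorem fmaxa_fixed (hz : IsRoots l z) {E : Type} [Field E] [Algebra (RatFunc k) E] {a : k}
    {j : E →+* HS l k} (hj : Over (RingHom.id k) (HahnSeries.C a + ww l k) j) :
    ∃ W : IntermediateField (RatFunc k) E, ∀ y, y ∈ W ↔ tau hz (j y) = j y := by
  have key : ((tau hz : HS l k →+* HS l k).comp j).comp (algebraMap (RatFunc k) E) =
      j.comp (algebraMap (RatFunc k) E) := by
    refine ratFunc_ext (fun c => ?_) ?_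
    · change tau hz (j _) = j _
      rw [hj.1 c, tau_C]
    · change tau hz (j _) = j _
      rw [hj.2, fmaxa_tau_T]
  refine ⟨{ carrier := {y | tau hz (j y) = j y}
            mul_mem' := ?_
            add_mem' := ?_
            algebraMap_mem' := fun c => RingHom.congr_fun key c
            inv_mem' := ?_ }, fun y => Iff.rfl⟩
  · intro a b ha hb
    change tau hz (j (a * b)) = j (a * b)
    rw [map_mul, map_mul, show tau hz (j a) = j a from ha, show tau hz (j b) = j b from hb]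
  · intro a b ha hb
    change tau hz (j (a + b)) = j (a + b)
    rw [map_add, map_add, show tau hz (j a) = j a from ha, show tau hz (j b) = j b from hb]
  · intro a ha
    change tau hz (j a⁻¹) = j a⁻¹
    rw [map_inv₀, map_inv₀, show tau hz (j a) = j a from ha]

/-- The normal closure `L` of `x` lies in `maxExt univ`, is a finite Galois `l`-extension generated
by the conjugates `g x`, and `j (g x) = (j ∘ g) x` is fixed; `order_int`, `unram_of_order`. -/
theorem mem_maxExt (hz : IsRoots l z) (x : maxExt l k Set.univ)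
    (h : ∀ a, a ∉ S → ∀ j : maxExt l k Set.univ →+* HS l k,
      Over (RingHom.id k) (HahnSeries.C a + ww l k) j → tau hz (j x) = j x) :
    (x : Om k) ∈ maxExt l k S := by
  obtain ⟨hG, hP⟩ := maxExt_gal l (Set.univ : Set k)
  obtain ⟨L, hfd, hgal, hx, hmin⟩ := fmaxa_orbit (F := RatFunc k) x
  obtain ⟨n, hn⟩ := hP L hfd hgal
  let e := IntermediateField.liftAlgEquiv L
  have h1 : FiniteDimensional (RatFunc k) (IntermediateField.lift L) :=
    e.toLinearEquiv.finiteDimensional
  have h2 : IsGalois (RatFunc k) (IntermediateField.lift L) := IsGalois.of_algEquiv e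
  have h3 : Module.finrank (RatFunc k) (IntermediateField.lift L) = l ^ n :=
    e.toLinearEquiv.finrank_eq.symm.trans hn
  have hle : IntermediateField.lift L ≤ maxExt l k S := by
    refine le_sSup ⟨h1, h2, ⟨n, h3⟩, fun a ha => ?_⟩
    obtain ⟨J, hJ⟩ := exists_over (l := l) (Set.univ : Set k) (RingHom.id k) (fmaxa_ne_C a)
    obtain ⟨W, hW⟩ := fmaxa_fixed hz hJ
    have hLW : L ≤ W := by
      refine hmin W fun g => (hW _).2 ?_
      obtain ⟨j, hj, e⟩ := fmaxa_over_comp hJ g.toAlgHom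
      have := h a ha j hj
      rwa [e] at this
    obtain ⟨j, hj, e⟩ :=
      fmaxa_over_comp hJ (IntermediateField.inclusion (IntermediateField.lift_le L))
    refine unram_of_order _ a j hj fun y => ?_
    rw [e]
    refine order_int hz ((hW _).1 (hLW ?_))
    exact (IntermediateField.mem_lift _).1 y.2
  exact hle ((IntermediateField.mem_lift x).2 hx)

omit [IsAlgClosed k] in
theorem fmaxa_mem_univ (x : Om k) : x ∈ maxExt l k Set.univ ↔
    ∀ g : Om k ≃ₐ[RatFunc k] Om k, ∃ n, (g ^ l ^ n) x = x := by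
  obtain ⟨W, hW⟩ := fmaxa_field (F := RatFunc k) (E := Om k) l
  constructor
  · intro hx
    have : maxExt l k Set.univ ≤ W := by
      refine sSup_le ?_
      rintro L ⟨h1, h2, ⟨n, hn⟩, -⟩ y hy
      exact (hW y).2 fun g => ⟨n, fmaxa_fix_of_finrank L hn g hy⟩
    exact (hW x).1 (this hx)
  · intro hx
    obtain ⟨L, hfd, hgal, hxL, hmin⟩ := fmaxa_orbit (F := RatFunc k) x
    have hLW : L ≤ W := by
      refine hmin W fun σ => (hW _).2 fun g => ?_
      obtain ⟨n, hn⟩ := hx (σ⁻¹ * g * σ⁻¹⁻¹)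
      refine ⟨n, ?_⟩
      rw [conj_pow, inv_inv, AlgEquiv.mul_apply, AlgEquiv.mul_apply] at hn
      have := congrArg σ hn
      rwa [← AlgEquiv.mul_apply, mul_inv_cancel, AlgEquiv.one_apply] at this
    have hle : L ≤ maxExt l k Set.univ :=
      le_sSup ⟨hfd, hgal, fmaxa_finrank_of_fix L fun y hy => (hW y).1 (hLW hy),
        fun a ha => absurd (Set.mem_univ a) ha⟩
    exact hle hxL

/-- A primitive `l`-th root of unity in any field over `k(t)`. -/
theorem fmaxa_prim (l : ℕ) [Fact l.Prime] (k : Type) [Field k] [IsAlgClosed k] [CharZero k] :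
    ∃ ζ : RatFunc k, IsPrimitiveRoot ζ l := by
  obtain ⟨z, hz⟩ := exists_isRoots l k
  have := (hz.map (RatFunc.C : k →+* RatFunc k)).prim 1
  rw [pow_one] at this
  exact ⟨_, this⟩

/-- The splitting field of `(minpoly b)(X ^ l)` is Galois, and over the normal closure of `b` it is
generated by `l`-th roots, each step has degree `1` or `l`. -/
theorem root_mem_univ {b r : Om k} (hb : b ∈ maxExt l k Set.univ) (hr : r ^ l = b) :
    r ∈ maxExt l k Set.univ := by
  rw [fmaxa_mem_univ] at hb ⊢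
  intro g
  obtain ⟨n, hn⟩ := hb g
  by_cases h0 : r = 0
  · exact ⟨0, by rw [h0, map_zero]⟩
  have : NeZero l := ⟨(Fact.out : l.Prime).ne_zero⟩
  obtain ⟨ζ, hζ⟩ := fmaxa_prim l k
  have hζ' := hζ.map_of_injective (algebraMap (RatFunc k) (Om k)).injective
  refine ⟨n + 1, ?_⟩
  rw [pow_succ, pow_mul]
  generalize g ^ l ^ n = σ at hn
  have h1 : (σ r / r) ^ l = 1 := by
    rw [div_pow, ← map_pow, hr, hn, ← hr, div_self (pow_ne_zero _ h0)]
  obtain ⟨i, -, hi⟩ := hζ'.eq_pow_of_pow_eq_one h1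
  have h2 : σ r = algebraMap (RatFunc k) (Om k) (ζ ^ i) * r := by
    rw [map_pow, hi, div_mul_cancel₀ _ h0]
  have h3 : ∀ m : ℕ, (σ ^ m) r = algebraMap (RatFunc k) (Om k) (ζ ^ i) ^ m * r := by
    intro m
    induction m with
    | zero => rw [pow_zero, pow_zero, one_mul, AlgEquiv.one_apply]
    | succ m ih =>
      rw [pow_succ, AlgEquiv.mul_apply, h2, map_mul, AlgEquiv.commutes, ih, pow_succ']
      ring
  rw [h3, map_pow, hi, h1, one_mul]

theorem no_char_univ (χ : (Om k ≃ₐ[maxExt l k Set.univ] Om k) →* Multiplicative (ZMod l))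
    (hχ : IsOpen (χ.ker : Set (Om k ≃ₐ[maxExt l k Set.univ] Om k))) : χ = 1 := by
  have : NeZero l := ⟨(Fact.out : l.Prime).ne_zero⟩
  obtain ⟨ζ, hζ⟩ := fmaxa_prim l k
  have hζ' := hζ.map_of_injective (algebraMap (RatFunc k) (maxExt l k Set.univ)).injective
  obtain ⟨r, h0, ⟨c, hc⟩, hr⟩ := exists_eigen hζ' χ hχ
  have hm : r ∈ maxExt l k Set.univ := root_mem_univ c.2 hc
  ext g
  have h1 : g r = r := g.commutes ⟨r, hm⟩
  have h2 := hr g
  rw [h1] at h2
  have h3 := (mul_eq_right₀ h0).1 h2.symm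
  have hζ'' := hζ'.map_of_injective (algebraMap (maxExt l k Set.univ) (Om k)).injective
  have h4 := (hζ''.pow_eq_one_iff_dvd _).1 h3
  have h5 : (χ g).toAdd.val = 0 := Nat.eq_zero_of_dvd_of_lt h4 (ZMod.val_lt _)
  rw [ZMod.val_eq_zero] at h5
  exact h5

theorem fmaxa_root_pow {b : Om k} (hb : b ∈ maxExt l k Set.univ) (n : ℕ) :
    ∀ r : Om k, r ^ l ^ n = b → r ∈ maxExt l k Set.univ := by
  induction n with
  | zero => intro r hr; rw [pow_zero, pow_one] at hr; rwa [hr]
  | succ n ih =>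
    intro r hr
    rw [pow_succ', pow_mul] at hr
    exact root_mem_univ (ih _ hr) rfl

omit [IsAlgClosed k] [CharZero k] in
theorem fmaxa_tau_of_pow (hz : IsRoots l z) {r F : HS l k} {n : ℕ} (e : r ^ l ^ n = F)
    (h1 : tau hz F = F) (h2 : F.order = 0) : tau hz r = r := by
  have hpos : 0 < l ^ n := pow_pos (Fact.out : l.Prime).pos n
  rw [← e] at h1 h2
  rw [HahnSeries.order_pow, smul_eq_zero_iff_right hpos.ne'] at h2
  rw [tau_root hz h1, h2, eZ_zero hz, map_one, one_mul]

theorem fmaxa_coe_pow {F E : Type} [Field F] [Field E] [Algebra F E] {L : IntermediateField F E}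
    {x y : L} {n : ℕ} (h : (x : E) ^ n = y) : x ^ n = y :=
  Subtype.ext (by rw [IntermediateField.coe_pow]; exact h)

theorem fmaxa_coe_pow' {F E : Type} [Field F] [Field E] [Algebra F E]
    {L L' : IntermediateField F E} (hL : L' ≤ L) {x : L} {y : L'} {n : ℕ} (h : (x : E) ^ n = y) :
    x ^ n = IntermediateField.inclusion hL y :=
  fmaxa_coe_pow h

theorem fmaxa_fix_S (hz : IsRoots l z) {a : k} (ha : a ∉ S) (j : maxExt l k S →+* HS l k)
    (hj : Over (RingHom.id k) (HahnSeries.C a + ww l k) j) (x : maxExt l k S) :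
    tau hz (j x) = j x := by
  refine fix_of_over (RingHom.id k) hz (fmaxa_tau_T hz a) (fmaxa_order_nonneg a) ?_ j hj x
  intro a' ha' hh
  rw [fmaxa_coeff_zero, RingHom.id_apply] at hh
  exact ha (hh ▸ ha')

/-- `root_mem_univ`, `mem_maxExt`, `fix_of_over`, `tau_root`. -/
theorem exists_root (hz : IsRoots l z) (F : maxExt l k S) (hF : F ≠ 0)
    (h : ∀ a, a ∉ S → ∀ j : maxExt l k S →+* HS l k,
      Over (RingHom.id k) (HahnSeries.C a + ww l k) j → (j F).order = 0) : AllRoots l F := by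
  refine ⟨hF, fun n => ?_⟩
  have hpos : 0 < l ^ n := pow_pos (Fact.out : l.Prime).pos n
  obtain ⟨r, hr⟩ := IsAlgClosed.exists_pow_nat_eq (F : Om k) hpos
  have hm : r ∈ maxExt l k Set.univ := fmaxa_root_pow (maxExt_le_univ S F.2) n r hr
  have hS : r ∈ maxExt l k S := by
    refine mem_maxExt hz ⟨r, hm⟩ fun a ha J hJ => ?_
    obtain ⟨j, hj, e'⟩ :=
      fmaxa_over_comp hJ (IntermediateField.inclusion (maxExt_le_univ (l := l) S))
    refine fmaxa_tau_of_pow hz (n := n) ?_ (fmaxa_fix_S hz ha j hj F) (h a ha j hj)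
    rw [← map_pow, e']
    exact congrArg J (fmaxa_coe_pow' _ hr)
  exact ⟨⟨r, hS⟩, fmaxa_coe_pow hr⟩

theorem allRoots_lin {a : k} (ha : a ∈ S) :
    AllRoots l (algebraMap (RatFunc k) (maxExt l k S) (RatFunc.X - RatFunc.C a)) := by
  obtain ⟨z, hz⟩ := exists_isRoots l k
  refine exists_root hz _ ?_ fun a' ha' j hj => ?_
  · rw [_root_.map_ne_zero, ← RatFunc.algebraMap_X, ← RatFunc.algebraMap_C, ← map_sub]
    exact RatFunc.algebraMap_ne_zero (X_sub_C_ne_zero a)
  · have hne : a' - a ≠ 0 := sub_ne_zero.2 fun e => ha' (e ▸ ha)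
    have := (order_C_add (l := l) hne 1).1
    rw [map_one, one_mul, fmaxa_iZ_zero, map_sub] at this
    rw [map_sub, map_sub, hj.1, hj.2, RingHom.id_apply, add_sub_right_comm]
    exact this

theorem allRoots_const {E : Type} [Field E] (j : k →+* E) {c : k} (hc : c ≠ 0) :
    AllRoots l (j c) := by
  refine ⟨(map_ne_zero j).2 hc, fun n => ?_⟩
  obtain ⟨r, hr⟩ := IsAlgClosed.exists_pow_nat_eq c (pow_pos (Fact.out : l.Prime).pos n)
  exact ⟨j r, by rw [← map_pow, hr]⟩

theorem isKum_const {E : Type} [Field E] (j : k →+* E) (hz : IsRoots l z) {g : E ≃+* E}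
    (hg : ∀ c, g (j c) = j c) (c : k) : IsKum (fun n => j (z n)) g (j c) (0 : ℤ_[l]) := by
  intro n r hr
  rw [map_zero, ZMod.val_zero, pow_zero, one_mul]
  have hpos : 0 < l ^ n := pow_pos (Fact.out : l.Prime).pos n
  have : NeZero (l ^ n) := ⟨hpos.ne'⟩
  obtain ⟨r₀, hr₀⟩ := IsAlgClosed.exists_pow_nat_eq c hpos
  by_cases h0 : r₀ = 0
  · rw [← hr₀, h0, zero_pow hpos.ne', map_zero, pow_eq_zero_iff hpos.ne'] at hr
    rw [hr, map_zero]
  have h1 : j r₀ ≠ 0 := (map_ne_zero j).2 h0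
  have h2 : (r / j r₀) ^ l ^ n = 1 := by
    rw [div_pow, hr, ← hr₀, map_pow, div_self (pow_ne_zero _ h1)]
  obtain ⟨i, -, hi⟩ := ((hz.prim n).map_of_injective j.injective).eq_pow_of_pow_eq_one h2
  have h3 : r = j (z n ^ i * r₀) := by rw [map_mul, map_pow, hi, div_mul_cancel₀ _ h1]
  rw [h3, hg]

end Pool.Agent.Lib.MP_446a91_nt.Gal
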