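import Pool.Agent.Lib.MP_446a91_nt.Gal.FBridge
import Pool.Agent.Lib.MP_446a91_nt.Gal.FKum
import Pool.Agent.Lib.MP_446a91_nt.Gal.FMaxA

/-! The field `maxExt` (MP_446a91_nt). -/

namespace Pool.Agent.Lib.MP_446a91_nt.Gal

open Polynomial

section Aux
open IntermediateField

theorem fmax_lift {F E P : Type} [Field F] [Field E] [Algebra F E] [Algebra.IsAlgebraic F E]
    [Field P] [IsAlgClosed P] (j₀ : F →+* P) : ∃ j : E →+* P, ∀ c, j (algebraMap F E c) = j₀ c := by
  let := j₀.toAlgebra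
  exact ⟨(IsAlgClosed.lift : E →ₐ[F] P), (IsAlgClosed.lift : E →ₐ[F] P).commutes⟩

theorem fmax_base {l : ℕ} [Fact l.Prime] {F E F' P : Type} [Field F] [Field E] [Algebra F E]
    [FiniteDimensional F E] [IsGalois F E] [Field F'] [CharZero F'] [Field P] [Algebra F' P]
    [Normal F' P] {n : ℕ} (hn : Module.finrank F E = l ^ n) (ψ : F →+* F') (e : E →+* P)
    (he : ∀ c, e (algebraMap F E c) = algebraMap F' P (ψ c)) :
    ∃ L : IntermediateField F' P, (FiniteDimensional F' L ∧ IsGalois F' L ∧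
      ∃ m, Module.finrank F' L = l ^ m) ∧ ∀ y, e y ∈ L := by
  obtain ⟨α, hα⟩ := Field.exists_primitive_element F E
  have hsub : ∀ y, e y ∈ F'⟮e α⟯ := fun y => by
    let B : IntermediateField F E := (F'⟮e α⟯.toSubfield.comap e).toIntermediateField fun c => by
      change e (algebraMap F E c) ∈ F'⟮e α⟯
      rw [he]
      exact IntermediateField.algebraMap_mem _ _
    have h1 : F⟮α⟯ ≤ B := adjoin_simple_le_iff.2 (mem_adjoin_simple_self F' (e α))
    exact h1 (hα ▸ mem_top)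
  have : FiniteDimensional F' F'⟮e α⟯ :=
    adjoin.finiteDimensional (Algebra.IsIntegral.isIntegral (e α))
  have : Normal F' F'⟮e α⟯ := normal_iff_forall_map_le.2 fun σ => by
    obtain ⟨g, hg⟩ := exists_bp (F := F) e ((σ : P →+* P).comp e) fun c => by
      rw [RingHom.comp_apply, he]
      exact σ.commutes _
    rw [adjoin_map, Set.image_singleton, adjoin_simple_le_iff]
    exact (hg α : e (g α) = σ (e α)) ▸ hsub _
  have : IsGalois F' F'⟮e α⟯ := {}
  refine ⟨F'⟮e α⟯, ⟨inferInstance, inferInstance, ?_⟩, hsub⟩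
  rw [← IsGalois.card_aut_eq_finrank]
  refine IsPGroup.iff_card.1 fun g => ⟨n, ?_⟩
  let j : E →+* F'⟮e α⟯ := e.codRestrict F'⟮e α⟯ hsub
  have hj : ∀ c, j (algebraMap F E c) = algebraMap F' _ (ψ c) := fun c => Subtype.ext (he c)
  obtain ⟨g₀, hg⟩ := exists_bp (F := F) j ((g : F'⟮e α⟯ →+* F'⟮e α⟯).comp j) fun c => by
    rw [RingHom.comp_apply, hj]
    exact g.commutes _
  have h1 : ∀ (m : ℕ) x, j ((g₀ ^ m) x) = (g ^ m) (j x) := fun m => by
    induction m with
    | zero => intro x; rfl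
    | succ m ih =>
      intro x
      rw [pow_succ, pow_succ, AlgEquiv.mul_apply, AlgEquiv.mul_apply, ih, hg]
      rfl
  have h2 : g₀ ^ l ^ n = 1 := by
    rw [← hn, ← IsGalois.card_aut_eq_finrank]
    exact pow_card_eq_one'
  have h3 := h1 (l ^ n) α
  rw [h2] at h3
  refine AlgEquiv.coe_toAlgHom_injective (adjoin_algHom_ext F' fun x hx => ?_)
  obtain rfl : x = e α := hx
  exact h3.symm

theorem fmax_C {l : ℕ} {k : Type} [Field k] (c : k) :
    0 ≤ (HahnSeries.C c : HS l k).orderTop :=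
  HahnSeries.orderTop_single_le

theorem fmax_ww {l : ℕ} {k : Type} [Field k] : 0 < (ww l k).orderTop := by
  rw [ww, HahnSeries.orderTop_single one_ne_zero]
  exact WithTop.coe_pos.2 (show (0 : ℚ) < ((1 : ℤ) : ℚ) by norm_num)

theorem fmax_nn {l : ℕ} {k : Type} [Field k] (U : k[X] →+* HS l k) {a : k}
    (h1 : ∀ c, U (C c) = HahnSeries.C c) (h2 : U X = HahnSeries.C a + ww l k) (r : k[X]) :
    0 ≤ (U r).orderTop := by
  induction r using Polynomial.induction_on with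
  | C c => rw [h1]; exact fmax_C c
  | add p q hp hq => rw [map_add]; exact (HahnSeries.addVal _ _).map_le_add hp hq
  | monomial n c h =>
    rw [pow_succ, ← mul_assoc, map_mul, HahnSeries.orderTop_mul, h2]
    exact add_nonneg h ((HahnSeries.addVal _ _).map_le_add (fmax_C a) fmax_ww.le)

theorem fmax_pos {l : ℕ} {k : Type} [Field k] (U : k[X] →+* HS l k) {a : k}
    (h1 : ∀ c, U (C c) = HahnSeries.C c) (h2 : U X = HahnSeries.C a + ww l k) {r : k[X]}
    (hr : r.eval a = 0) : 0 < (U r).orderTop := by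
  obtain ⟨s, rfl⟩ := dvd_iff_isRoot.2 hr
  rw [map_mul, map_sub, h1, h2, add_sub_cancel_left, HahnSeries.orderTop_mul]
  exact add_pos_of_pos_of_nonneg fmax_ww (fmax_nn U h1 h2 s)

theorem fmax_div {l : ℕ} {k : Type} [Field k] (U : k[X] →+* HS l k) {a : k}
    (h1 : ∀ c, U (C c) = HahnSeries.C c) (h2 : U X = HahnSeries.C a + ww l k) (p : k[X])
    {q : k[X]} (hq : q.eval a ≠ 0) :
    0 ≤ (U p / U q).order ∧ (U p / U q).coeff 0 = p.eval a / q.eval a := by
  have h3 : (U q).orderTop = 0 := by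
    have h4 : (HahnSeries.C (q.eval a) : HS l k).orderTop = 0 := HahnSeries.orderTop_single hq
    have h5 := fmax_pos U h1 h2 (r := q - C (q.eval a)) (by simp)
    have h6 : U q = HahnSeries.C (q.eval a) + U (q - C (q.eval a)) := by
      rw [map_sub, h1, add_sub_cancel]
    rw [h6, ← h4]
    exact (HahnSeries.addVal _ _).map_add_eq_of_lt_left (h4.trans_lt h5)
  have h4 : U q ≠ 0 := fun h => by
    rw [h, HahnSeries.orderTop_zero] at h3
    exact WithTop.top_ne_zero h3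
  have h5 := fmax_pos U h1 h2 (r := p - C (p.eval a / q.eval a) * q) (by simp [hq])
  have h6 : U (p - C (p.eval a / q.eval a) * q) =
      U q * (U p / U q - HahnSeries.C (p.eval a / q.eval a)) := by
    rw [map_sub, map_mul, h1, mul_sub, mul_div_cancel₀ _ h4, mul_comm]
  rw [h6, HahnSeries.orderTop_mul, h3, zero_add] at h5
  constructor
  · rw [← HahnSeries.zero_le_orderTop_iff,
      ← sub_add_cancel (U p / U q) (HahnSeries.C (p.eval a / q.eval a))]
    exact (HahnSeries.addVal _ _).map_le_add h5.le (fmax_C _)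
  · have h7 := HahnSeries.coeff_eq_zero_of_lt_orderTop (i := 0) h5
    rwa [HahnSeries.coeff_sub, HahnSeries.C_apply, HahnSeries.coeff_single_same, sub_eq_zero] at h7

theorem fmax_nrm {F E : Type} [Field F] [Field E] [Algebra F E] (ψ : F ≃+* F) (s : E ≃+* E)
    (h : ∀ c, s (algebraMap F E c) = algebraMap F E (ψ c)) : Nrm F s := by
  intro x
  constructor
  · rintro ⟨c, hc⟩
    exact ⟨ψ.symm c, s.injective (by rw [h, ψ.apply_symm_apply, hc])⟩
  · rintro ⟨c, rfl⟩
    exact ⟨ψ c, (h c).symm⟩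

end Aux

variable {l : ℕ} [Fact l.Prime] {k k' : Type} [Field k] [Field k'] [IsAlgClosed k] [CharZero k]
  {z : ℕ → k} {S : Set k}

/-- Base change of pro-`l` extensions: for `L` finite Galois of `l`-power degree the field
generated by `e L` over `k'(t)` is Galois and its group embeds in that of `L`. -/
theorem map_univ (ψ : RatFunc k →+* RatFunc k') (e : Om k →+* Om k')
    (he : ∀ c, e (algebraMap _ _ c) = algebraMap _ _ (ψ c)) {x : Om k}
    (hx : x ∈ maxExt l k Set.univ) : e x ∈ maxExt l k' Set.univ := by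
  have : CharZero (RatFunc k') := (RingHom.charZero_iff ψ.injective).1 inferInstance
  let B : IntermediateField (RatFunc k) (Om k) :=
    ((maxExt l k' Set.univ).toSubfield.comap e).toIntermediateField fun c => by
      change e (algebraMap _ _ c) ∈ maxExt l k' Set.univ
      rw [he]
      exact IntermediateField.algebraMap_mem _ _
  have h : maxExt l k Set.univ ≤ B := by
    refine sSup_le ?_
    rintro L ⟨h1, h2, ⟨n, hn⟩, -⟩ y hy
    obtain ⟨L', ⟨h3, h4, h5⟩, h6⟩ := fmax_base hn ψ (e.comp L.val.toRingHom) he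
    have h7 : L' ≤ maxExt l k' Set.univ :=
      le_sSup ⟨h3, h4, h5, fun a ha => absurd (Set.mem_univ a) ha⟩
    exact h7 (h6 ⟨y, hy⟩)
  exact h hx

/-- `map_univ`, `mem_maxExt`, `fix_of_over` with `T = p (a' + w) / q (a' + w)`. -/
theorem map_maxExt [IsAlgClosed k'] [CharZero k'] {S' : Set k'} (φ : k →+* k')
    (ψ : RatFunc k →+* RatFunc k') (h1 : ∀ c, ψ (RatFunc.C c) = RatFunc.C (φ c)) (p q : k'[X])
    (h2 : ψ RatFunc.X = algebraMap _ _ p / algebraMap _ _ q)
    (h3 : ∀ a', a' ∉ S' → q.eval a' ≠ 0 ∧ ∀ a ∈ S, p.eval a' ≠ φ a * q.eval a')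
    (e : Om k →+* Om k') (he : ∀ c, e (algebraMap _ _ c) = algebraMap _ _ (ψ c)) {x : Om k}
    (hx : x ∈ maxExt l k S) : e x ∈ maxExt l k' S' := by
  obtain ⟨z', hz⟩ := exists_isRoots l k'
  let e' : maxExt l k S →+* maxExt l k' Set.univ :=
    (e.comp (maxExt l k S).val.toRingHom).codRestrict (maxExt l k' Set.univ)
      fun y => map_univ ψ e he (maxExt_le_univ S y.2)
  have he' : ∀ c, e' (algebraMap (RatFunc k) _ c) = algebraMap (RatFunc k') _ (ψ c) :=
    fun c => Subtype.ext (he c)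
  refine mem_maxExt hz (e' ⟨x, hx⟩) fun a' ha' j hj => ?_
  let j₀ : RatFunc k' →+* HS l k' := j.comp (algebraMap _ _)
  have hτ : (tau hz : HS l k' →+* HS l k').comp j₀ = j₀ := by
    refine ratFunc_ext (fun c => ?_) ?_
    · exact ((congrArg (tau hz) (hj.1 c)).trans (tau_C hz _)).trans (hj.1 c).symm
    · refine ((congrArg (tau hz) hj.2).trans ?_).trans hj.2.symm
      rw [map_add, tau_C, tau_ww]
  obtain ⟨h4, h5⟩ := fmax_div (j₀.comp (algebraMap k'[X] _)) (a := a') hj.1 hj.2 p (h3 a' ha').1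
  have h6 : j₀ (ψ RatFunc.X) =
      (j₀.comp (algebraMap k'[X] _)) p / (j₀.comp (algebraMap k'[X] _)) q := by
    rw [h2, map_div₀]
    rfl
  rw [← h6] at h4 h5
  refine fix_of_over φ hz (T := j₀ (ψ RatFunc.X)) (RingHom.congr_fun hτ _) h4 (fun a ha h => ?_)
    (j.comp e') ⟨fun c => ?_, ?_⟩ ⟨x, hx⟩
  · rw [h5, div_eq_iff (h3 a' ha').1] at h
    exact (h3 a' ha').2 a ha h
  · rw [RingHom.comp_apply, he', h1]
    exact hj.1 _
  · rw [RingHom.comp_apply, he']
    rfl

theorem exists_map_maxExt [IsAlgClosed k'] [CharZero k'] {S' : Set k'} (φ : k →+* k')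
    (ψ : RatFunc k →+* RatFunc k') (h1 : ∀ c, ψ (RatFunc.C c) = RatFunc.C (φ c)) (p q : k'[X])
    (h2 : ψ RatFunc.X = algebraMap _ _ p / algebraMap _ _ q)
    (h3 : ∀ a', a' ∉ S' → q.eval a' ≠ 0 ∧ ∀ a ∈ S, p.eval a' ≠ φ a * q.eval a') :
    ∃ e : maxExt l k S →+* maxExt l k' S',
      ∀ c, e (algebraMap (RatFunc k) _ c) = algebraMap (RatFunc k') _ (ψ c) := by
  obtain ⟨e, he⟩ := fmax_lift (E := Om k) ((algebraMap (RatFunc k') (Om k')).comp ψ)
  exact ⟨(e.comp (maxExt l k S).val.toRingHom).codRestrict (maxExt l k' S')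
    fun y => map_maxExt φ ψ h1 p q h2 h3 e he y.2, fun c => Subtype.ext (he c)⟩

omit [IsAlgClosed k] [CharZero k] in
theorem exists_ratFunc_equiv (σ : k ≃+* k) : ∃ ψ : RatFunc k ≃+* RatFunc k,
    (∀ c, ψ (RatFunc.C c) = RatFunc.C (σ c)) ∧ ψ RatFunc.X = RatFunc.X := by
  refine ⟨IsFractionRing.ringEquivOfRingEquiv (Polynomial.mapEquiv σ), fun c => ?_, ?_⟩
  · rw [← RatFunc.algebraMap_C, IsFractionRing.ringEquivOfRingEquiv_algebraMap, mapEquiv_apply,
      map_C, RatFunc.algebraMap_C]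
    rfl
  · rw [← RatFunc.algebraMap_X, IsFractionRing.ringEquivOfRingEquiv_algebraMap, mapEquiv_apply,
      map_X]

theorem fmax_mem (σ : k ≃+* k) (hσ : ∀ a, σ a ∈ S ↔ a ∈ S) (ψ : RatFunc k ≃+* RatFunc k)
    (h1 : ∀ c, ψ (RatFunc.C c) = RatFunc.C (σ c)) (h2 : ψ RatFunc.X = RatFunc.X)
    (h : Om k ≃+* Om k) (hh : ∀ c, h (algebraMap _ _ c) = algebraMap _ _ (ψ c)) {x : Om k}
    (hx : x ∈ maxExt l k S) : h x ∈ maxExt l k S := by
  refine map_maxExt (σ : k →+* k) (ψ : RatFunc k →+* RatFunc k) h1 X 1 ?_ (fun a' ha' => ?_)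
    (h : Om k →+* Om k) hh hx
  · rw [map_one, div_one, RatFunc.algebraMap_X]
    exact h2
  · rw [eval_one, eval_X]
    refine ⟨one_ne_zero, fun a ha h3 => ha' ?_⟩
    rw [h3, mul_one]
    exact (hσ a).2 ha

/-- `IsAlgClosure.equivOfEquiv`. -/
theorem exists_lift_Om (σ : k ≃+* k) (hσ : ∀ a, σ a ∈ S ↔ a ∈ S) : ∃ h : Om k ≃+* Om k,
    (∀ c, h (algebraMap _ _ (RatFunc.C c)) = algebraMap _ _ (RatFunc.C (σ c))) ∧
    h (algebraMap _ _ (RatFunc.X : RatFunc k)) = algebraMap _ _ (RatFunc.X : RatFunc k) ∧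
    Nrm (RatFunc k) h ∧ ∀ x, h x ∈ maxExt l k S ↔ x ∈ maxExt l k S := by
  obtain ⟨ψ, h1, h2⟩ := exists_ratFunc_equiv σ
  have hh := IsAlgClosure.equivOfEquiv_algebraMap (Om k) (Om k) ψ
  refine ⟨IsAlgClosure.equivOfEquiv (Om k) (Om k) ψ, fun c => by rw [hh, h1], by rw [hh, h2],
    fmax_nrm ψ _ hh, fun x => ⟨fun hx => ?_, fmax_mem σ hσ ψ h1 h2 _ hh⟩⟩
  have h3 := fmax_mem σ.symm (fun a => by rw [← hσ, σ.apply_symm_apply]) ψ.symm
    (fun c => by rw [ψ.symm_apply_eq, h1, σ.apply_symm_apply]) (ψ.symm_apply_eq.2 h2.symm) _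
    (IsAlgClosure.equivOfEquiv_symm_algebraMap (Om k) (Om k) ψ) hx
  rwa [RingEquiv.symm_apply_apply] at h3

theorem exists_lift_max (σ : k ≃+* k) (hσ : ∀ a, σ a ∈ S ↔ a ∈ S) :
    ∃ s : maxExt l k S ≃+* maxExt l k S,
    (∀ c, s (algebraMap (RatFunc k) _ (RatFunc.C c)) = algebraMap (RatFunc k) _ (RatFunc.C (σ c))) ∧
    s (algebraMap (RatFunc k) _ RatFunc.X) = algebraMap (RatFunc k) _ RatFunc.X := by
  obtain ⟨h, h1, h2, -, h3⟩ := exists_lift_Om (l := l) σ hσ
  exact ⟨h.restrict _ _ fun x => (h3 x).symm, fun c => Subtype.ext (h1 c), Subtype.ext h2⟩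

omit [IsAlgClosed k] [CharZero k] in
/-- An automorphism that is `σ` on the constants and fixes `t` normalises `k(t)`. -/
theorem nrm_of_lift {E : Type} [Field E] [Algebra (RatFunc k) E] (σ : k ≃+* k) (s : E ≃+* E)
    (h1 : ∀ c, s (algebraMap (RatFunc k) E (RatFunc.C c)) = algebraMap _ _ (RatFunc.C (σ c)))
    (h2 : s (algebraMap (RatFunc k) E RatFunc.X) = algebraMap (RatFunc k) E RatFunc.X) :
    Nrm (RatFunc k) s := by
  obtain ⟨ψ, h3, h4⟩ := exists_ratFunc_equiv σ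
  refine fmax_nrm ψ s (RingHom.congr_fun (ratFunc_ext
    (j := (s : E →+* E).comp (algebraMap _ _))
    (j' := (algebraMap _ E).comp (ψ : RatFunc k →+* RatFunc k)) (fun c => ?_) ?_))
  · exact (h1 c).trans (congrArg _ (h3 c).symm)
  · exact h2.trans (congrArg _ h4.symm)

end Pool.Agent.Lib.MP_446a91_nt.Gal
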