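import Pool.Agent.Lib.MP_446a91_nt.Gal.FEP
import Pool.Agent.Lib.MP_446a91_nt.Gal.FMax

/-! Freeness of the pro-`l` fundamental group (MP_446a91_nt). -/

namespace Pool.Agent.Lib.MP_446a91_nt.Gal

variable {l : ℕ} [Fact l.Prime] {k : Type} [Field k] [IsAlgClosed k] [CharZero k] {z : ℕ → k}

/-- The Galois group of `maxExt`. -/
abbrev Pi1 (l : ℕ) (k : Type) [Field k] (S : Set k) : Type :=
  maxExt l k S ≃ₐ[RatFunc k] maxExt l k S

/-- The Kummer character of `t - a`. -/
noncomputable def kl (l : ℕ) [Fact l.Prime] (z : ℕ → k) (S : Set k) (a : k) (g : Pi1 l k S) :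
    ℤ_[l] :=
  kum l (fun n => algebraMap (RatFunc k) (maxExt l k S) (RatFunc.C (z n)))
    (algebraMap (RatFunc k) (maxExt l k S) (RatFunc.X - RatFunc.C a)) g.toRingEquiv

omit [IsAlgClosed k] [CharZero k] in
theorem ffreea_roots (hz : IsRoots l z) (S : Set k) :
    IsRoots l fun n => algebraMap (RatFunc k) (maxExt l k S) (RatFunc.C (z n)) :=
  hz.map ((algebraMap (RatFunc k) (maxExt l k S)).comp RatFunc.C)

theorem isChar_kl (hz : IsRoots l z) {S : Set k} {a : k} (ha : a ∈ S) : IsChar (kl l z S a) :=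
  haveI := (maxExt_gal l S).1
  isChar_kum (ffreea_roots hz S) (fun _ => ⟨_, rfl⟩) ⟨_, rfl⟩ (allRoots_lin ha)

/-- A monodromy element at `a`. -/
def IsMon (hz : IsRoots l z) (S : Set k) (a : k) (g : Pi1 l k S) : Prop :=
  ∃ j : maxExt l k S →+* HS l k, Over (RingHom.id k) (HahnSeries.C a + ww l k) j ∧
    ∀ x, j (g x) = tau hz (j x)

theorem ffreea_iZ (l : ℕ) : (0 : Zl l) < iZ l 1 := by
  change ((0 : Zl l) : ℚ) < ((1 : ℤ) : ℚ)
  simp

omit [Fact l.Prime] [IsAlgClosed k] [CharZero k] in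
theorem ffreea_ne (a c : k) : HahnSeries.C a + ww l k ≠ HahnSeries.C c := fun h => by
  have := congrArg (fun F : HS l k => F.coeff (iZ l 1)) h
  simp [ww, HahnSeries.C_apply, (ffreea_iZ l).ne'] at this

omit [Fact l.Prime] [IsAlgClosed k] [CharZero k] in
theorem ffreea_c0 (a : k) : (HahnSeries.C a + ww l k).coeff 0 = a := by
  simp [ww, HahnSeries.C_apply, (ffreea_iZ l).ne]

omit [IsAlgClosed k] [CharZero k] in
theorem ffreea_tauT (hz : IsRoots l z) (a : k) :
    tau hz (HahnSeries.C a + ww l k) = HahnSeries.C a + ww l k := by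
  rw [map_add, tau_C, tau_ww]

section
omit [IsAlgClosed k] [CharZero k]
variable {E : Type} [Field E] [Algebra (RatFunc k) E] {a : k} {j j' : E →+* HS l k}

omit [Fact l.Prime] in
theorem ffreea_base {T : HS l k} (h : Over (RingHom.id k) T j) (h' : Over (RingHom.id k) T j')
    (c : RatFunc k) : j' (algebraMap (RatFunc k) E c) = j (algebraMap (RatFunc k) E c) :=
  DFunLike.congr_fun (ratFunc_ext (j := j'.comp (algebraMap (RatFunc k) E))
    (j' := j.comp (algebraMap (RatFunc k) E)) (fun c => (h'.1 c).trans (h.1 c).symm)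
    (h'.2.trans h.2.symm)) c

theorem ffreea_tau_over (hz : IsRoots l z) (h : Over (RingHom.id k) (HahnSeries.C a + ww l k) j) :
    Over (RingHom.id k) (HahnSeries.C a + ww l k) ((tau hz : HS l k →+* HS l k).comp j) :=
  ⟨fun c => (congrArg (tau hz) (h.1 c)).trans (tau_C hz _),
    (congrArg (tau hz) h.2).trans (ffreea_tauT hz a)⟩

omit [Fact l.Prime] in
theorem ffreea_lin (h : Over (RingHom.id k) (HahnSeries.C a + ww l k) j) (a' : k) :
    j (algebraMap (RatFunc k) E (RatFunc.X - RatFunc.C a')) =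
      HahnSeries.C (a - a') + HahnSeries.C 1 * ww l k := by
  rw [map_sub, map_sub, h.1, h.2, map_sub, map_one, RingHom.id_apply]
  ring

omit [Fact l.Prime] in
theorem ffreea_ww : (ww l k).orderTop = (iZ l 1 : Zl l) := HahnSeries.orderTop_single one_ne_zero

omit [Fact l.Prime] in
theorem ffreea_add {F G : HS l k} (hF : 0 ≤ F.orderTop) (hG : 0 ≤ G.orderTop) :
    0 ≤ (F + G).orderTop := (le_min hF hG).trans HahnSeries.min_orderTop_le_orderTop_add

omit [Fact l.Prime] in
theorem ffreea_mul {F G : HS l k} (hF : 0 ≤ F.orderTop) (hG : 0 ≤ G.orderTop) :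
    0 ≤ (F * G).orderTop := by
  rw [HahnSeries.orderTop_mul]
  exact add_nonneg hF hG

omit [Fact l.Prime] in
theorem ffreea_T (a : k) : 0 ≤ (HahnSeries.C a + ww l k).orderTop :=
  ffreea_add HahnSeries.orderTop_single_le
    (by rw [ffreea_ww]; exact WithTop.coe_le_coe.2 (ffreea_iZ l).le)

omit [Fact l.Prime] in
theorem ffreea_poly (h : Over (RingHom.id k) (HahnSeries.C a + ww l k) j) (P : Polynomial k) :
    0 ≤ (j (algebraMap (RatFunc k) E (algebraMap (Polynomial k) (RatFunc k) P))).orderTop := by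
  induction P using Polynomial.induction_on with
  | C c =>
    rw [RatFunc.algebraMap_C, h.1]
    exact HahnSeries.orderTop_single_le
  | add P Q hP hQ =>
    rw [map_add, map_add, map_add]
    exact ffreea_add hP hQ
  | monomial n c hP =>
    rw [pow_succ, ← mul_assoc, map_mul, map_mul, map_mul, RatFunc.algebraMap_X, h.2]
    exact ffreea_mul hP (ffreea_T a)

omit [Fact l.Prime] in
theorem ffreea_linP (h : Over (RingHom.id k) (HahnSeries.C a + ww l k) j) :
    j (algebraMap (RatFunc k) E (algebraMap (Polynomial k) (RatFunc k)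
      (Polynomial.X - Polynomial.C a))) = ww l k := by
  rw [map_sub, RatFunc.algebraMap_C, RatFunc.algebraMap_X, ffreea_lin h, sub_self, map_zero,
    map_one, zero_add, one_mul]

omit [Fact l.Prime] in
theorem ffreea_unit (h : Over (RingHom.id k) (HahnSeries.C a + ww l k) j) {P : Polynomial k}
    (hP : P.eval a ≠ 0) :
    (j (algebraMap (RatFunc k) E (algebraMap (Polynomial k) (RatFunc k) P))).orderTop = 0 := by
  obtain ⟨Q, hQ⟩ := Polynomial.X_sub_C_dvd_sub_C_eval (a := a) (p := P)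
  have h0 : (HahnSeries.C (P.eval a) : HS l k).orderTop = 0 := HahnSeries.orderTop_single hP
  rw [eq_add_of_sub_eq' hQ, map_add, map_add, map_add, map_mul, map_mul, map_mul, ffreea_linP h,
    RatFunc.algebraMap_C, h.1, RingHom.id_apply, HahnSeries.orderTop_add_eq_left, h0]
  rw [h0, HahnSeries.orderTop_mul, ffreea_ww]
  exact lt_of_lt_of_le (WithTop.coe_lt_coe.2 (ffreea_iZ l)) (le_add_of_nonneg_right (ffreea_poly h Q))

omit [Fact l.Prime] in
theorem ffreea_le {y : E} (hy : y ≠ 0) (ha : IsAlgebraic (RatFunc k) y) :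
    ∃ p : Polynomial k, p ≠ 0 ∧ ∀ a, p.eval a ≠ 0 → ∀ j : E →+* HS l k,
      Over (RingHom.id k) (HahnSeries.C a + ww l k) j → (j y).orderTop ≤ 0 := by
  let : Algebra (Polynomial k) E :=
    ((algebraMap (RatFunc k) E).comp (algebraMap (Polynomial k) (RatFunc k))).toAlgebra
  have : IsScalarTower (Polynomial k) (RatFunc k) E := IsScalarTower.of_algebraMap_eq fun _ => rfl
  have h1 : IsAlgebraic (Polynomial k) y :=
    (IsFractionRing.isAlgebraic_iff (Polynomial k) (RatFunc k) E).2 ha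
  obtain ⟨t, ht, p, hp, e⟩ := h1.exists_nonzero_eq_adjoin_mul (mem_nonZeroDivisors_of_ne_zero hy)
  refine ⟨p, hp, fun a h j hj => not_lt.1 fun h0 => ?_⟩
  have h2 : 0 ≤ (j t).orderTop := by
    clear e
    induction ht using Algebra.adjoin_induction with
    | mem x hx =>
      rw [Set.mem_singleton_iff.1 hx]
      exact h0.le
    | algebraMap r => exact ffreea_poly hj r
    | add x y _ _ hx hy =>
      rw [map_add]
      exact ffreea_add hx hy
    | mul x y _ _ hx hy =>
      rw [map_mul]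
      exact ffreea_mul hx hy
  have h3 : (j (y * t)).orderTop = 0 := e ▸ ffreea_unit hj h
  rw [map_mul, HahnSeries.orderTop_mul] at h3
  exact (lt_of_lt_of_le h0 (le_add_of_nonneg_right h2)).ne' h3

omit [Fact l.Prime] in
theorem ffreea_fin {y : E} (hy : y ≠ 0) (ha : IsAlgebraic (RatFunc k) y) :
    {a | ∃ j : E →+* HS l k, Over (RingHom.id k) (HahnSeries.C a + ww l k) j ∧
      (j y).order ≠ 0}.Finite := by
  obtain ⟨p, hp, h1⟩ := ffreea_le (l := l) hy ha
  obtain ⟨q, hq, h2⟩ := ffreea_le (l := l) (inv_ne_zero hy) ha.inv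
  refine (Polynomial.finite_setOfPred_isRoot (mul_ne_zero hp hq)).subset ?_
  rintro a ⟨j, hj, h⟩
  by_contra h0
  have h3 : p.eval a * q.eval a ≠ 0 := by simpa using h0
  have h4 := h1 a (left_ne_zero_of_mul h3) j hj
  have h5 := h2 a (right_ne_zero_of_mul h3) j hj
  have h6 : j y ≠ 0 := (map_ne_zero j).2 hy
  have h7 : j y⁻¹ ≠ 0 := (map_ne_zero j).2 (inv_ne_zero hy)
  have h8 := HahnSeries.order_mul h6 h7
  rw [← map_mul, mul_inv_cancel₀ hy, map_one, HahnSeries.order_one] at h8
  rw [← HahnSeries.order_eq_orderTop_of_ne_zero h6] at h4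
  rw [← HahnSeries.order_eq_orderTop_of_ne_zero h7] at h5
  have h9 : (j y).order ≤ 0 := WithTop.coe_le_coe.1 h4
  have h10 : (j y⁻¹).order ≤ 0 := WithTop.coe_le_coe.1 h5
  exact h (le_antisymm h9 (by rw [h8]; exact add_le_of_nonpos_right h10))

end

theorem exists_mon (hz : IsRoots l z) (S : Set k) (a : k) : ∃ g, IsMon hz S a g := by
  have := (maxExt_gal l S).1
  obtain ⟨j, hj⟩ := exists_over (l := l) S (RingHom.id k) (ffreea_ne a)
  obtain ⟨g, hg⟩ := exists_bp (F := RatFunc k) j _ (ffreea_base hj (ffreea_tau_over hz hj))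
  exact ⟨g, j, hj, hg⟩

theorem IsMon.conj (hz : IsRoots l z) {S : Set k} {a : k} {g g' : Pi1 l k S} (h : IsMon hz S a g)
    (h' : IsMon hz S a g') : IsConj g g' := by
  have := (maxExt_gal l S).1
  obtain ⟨j, hj, e⟩ := h
  obtain ⟨j', hj', e'⟩ := h'
  obtain ⟨u, hu⟩ := exists_bp (F := RatFunc k) j j' (ffreea_base hj hj')
  have : g * u = u * g' := AlgEquiv.ext fun x => j.injective (by
    rw [AlgEquiv.mul_apply, AlgEquiv.mul_apply, e, hu, hu, e'])
  exact isConj_iff.2 ⟨u⁻¹, by rw [inv_inv, mul_assoc, this, inv_mul_cancel_left]⟩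

open Classical in
theorem IsMon.kl (hz : IsRoots l z) {S : Set k} {a : k} {g : Pi1 l k S} (h : IsMon hz S a g)
    {a' : k} (ha : a' ∈ S) : kl l z S a' g = if a' = a then 1 else 0 := by
  obtain ⟨j, hj, e⟩ := h
  have hF := allRoots_lin (l := l) ha
  have key : ∀ n : ℤ, (HahnSeries.C (a - a') + HahnSeries.C 1 * ww l k).order = iZ l n →
      Gal.kl l z S a' g = n := fun n hn => by
    refine IsKum.kum_eq (ffreea_roots hz S) hF (IsKum.of_map j (g' := tau hz) e ?_)
    have h0 := (map_ne_zero j).2 hF.1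
    simp only [hj.1, RingHom.id_apply]
    rw [ffreea_lin hj] at h0 ⊢
    exact kum_tau hz h0 (by rw [map_add, map_mul, tau_C, tau_C, tau_ww]) hn
  split_ifs with h1
  · rw [key 1 (by rw [h1, sub_self, map_zero, map_one, zero_add, one_mul, order_ww]), Int.cast_one]
  · rw [key 0 (order_C_add (sub_ne_zero.2 (Ne.symm h1)) 1).1, Int.cast_zero]

theorem ffreea_val {E : Type} [Field E] {ζ : E} (h : ζ ^ l = 1) (x y : ZMod l) :
    ζ ^ (x + y).val = ζ ^ x.val * ζ ^ y.val := by
  rw [ZMod.val_add, ← pow_eq_pow_mod _ h, pow_add]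

theorem ffreea_one {E : Type} [Field E] {ζ : E} (h : ζ ^ l = 1) (x : ℤ_[l]) :
    ζ ^ (PadicInt.toZModPow 1 x).val = ζ ^ (PadicInt.toZMod x).val := by
  have h1 : x - ((PadicInt.toZModPow 1 x).val : ℕ) ∈ RingHom.ker (PadicInt.toZModPow 1) := by
    rw [RingHom.mem_ker, map_sub, map_natCast, ZMod.natCast_zmod_val, sub_self]
  rw [PadicInt.ker_toZModPow, pow_one, ← PadicInt.maximalIdeal_eq_span_p, ← PadicInt.ker_toZMod,
    RingHom.mem_ker, map_sub, map_natCast, sub_eq_zero] at h1
  rw [h1, ZMod.val_natCast, ← pow_eq_pow_mod _ h]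

theorem ffreea_dvd (hz : IsRoots l z) {S : Set k} {a : k} (ha : a ∉ S) {P : Polynomial k}
    (hP : P ≠ 0) {r : maxExt l k S} (hr : r ^ l =
      algebraMap (RatFunc k) (maxExt l k S) (algebraMap (Polynomial k) (RatFunc k) P)) :
    l ∣ P.rootMultiplicity a := by
  obtain ⟨j, hj⟩ := exists_over (l := l) S (RingHom.id k) (ffreea_ne a)
  obtain ⟨n, hn⟩ := order_int hz (fix_of_over (RingHom.id k) hz (ffreea_tauT hz a)
    (HahnSeries.zero_le_orderTop_iff.1 (ffreea_T a))
    (fun b hb h => ha (by rw [ffreea_c0] at h; exact h ▸ hb)) j hj r)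
  obtain ⟨Q, h1, h2⟩ := P.exists_eq_pow_rootMultiplicity_mul_and_not_dvd hP a
  have h3 := ffreea_unit hj (P := Q) fun h => h2 (Polynomial.dvd_iff_isRoot.2 h)
  generalize P.rootMultiplicity a = m at h1
  have h4 := congrArg (fun x => (j x).order) hr
  have h5 := HahnSeries.orderTop_ne_top.1 (h3.trans_ne WithTop.zero_ne_top)
  rw [← HahnSeries.order_eq_orderTop_of_ne_zero h5, WithTop.coe_eq_zero] at h3
  simp only [h1, map_mul, map_pow, ffreea_linP hj] at h4
  rw [HahnSeries.order_mul (pow_ne_zero _ ww_ne_zero) h5, HahnSeries.order_pow,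
    HahnSeries.order_pow, hn, order_ww, h3, add_zero] at h4
  have h6 : (l : ℚ) * n = m := by simpa [iZ] using congrArg (fun x : Zl l => (x : ℚ)) h4
  exact Int.natCast_dvd_natCast.1 ⟨n, by exact_mod_cast h6.symm⟩

theorem ffreea_ind (hz : IsRoots l z) {ι : Type} [Fintype ι] (pt : ι → k) (N : ℕ) :
    ∀ P : Polynomial k, P.natDegree = N → P ≠ 0 → ∀ r : maxExt l k (Set.range pt), r ^ l =
      algebraMap (RatFunc k) _ (algebraMap (Polynomial k) (RatFunc k) P) →
      ∃ n : ι → ZMod l, ∀ g : Pi1 l k (Set.range pt), g r =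
        algebraMap (RatFunc k) (maxExt l k (Set.range pt)) (RatFunc.C (z 1)) ^
          (∑ c, n c * PadicInt.toZMod (kl l z _ (pt c) g)).val * r := by
  classical
  have hz' := ffreea_roots hz (Set.range pt)
  have hζ : algebraMap (RatFunc k) (maxExt l k (Set.range pt)) (RatFunc.C (z 1)) ^ l = 1 := by
    simpa using (hz'.prim 1).pow_eq_one
  induction N using Nat.strong_induction_on with
  | _ N ih =>
  intro P hN hP r hr
  by_cases h0 : P.degree = 0
  · refine ⟨0, fun g => ?_⟩
    rw [Polynomial.eq_C_of_degree_eq_zero h0, RatFunc.algebraMap_C] at hr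
    have := isKum_const ((algebraMap (RatFunc k) (maxExt l k (Set.range pt))).comp RatFunc.C) hz
      (g := g.toRingEquiv) (fun c => g.commutes _) (P.coeff 0) 1 r (by rw [pow_one]; exact hr)
    simpa using this
  obtain ⟨a, ha⟩ := IsAlgClosed.exists_root P h0
  have hX : algebraMap (Polynomial k) (RatFunc k) (Polynomial.X - Polynomial.C a) =
      RatFunc.X - RatFunc.C a := by rw [map_sub, RatFunc.algebraMap_C, RatFunc.algebraMap_X]
  by_cases hS : a ∈ Set.range pt
  · obtain ⟨Q, hQ⟩ := Polynomial.dvd_iff_isRoot.2 ha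
    have hQ0 : Q ≠ 0 := right_ne_zero_of_mul (hQ ▸ hP)
    have hF := allRoots_lin (l := l) hS
    obtain ⟨s, hs⟩ := hF.2 1
    have hs0 : s ≠ 0 := fun h => hF.1 (by
      rw [← hs, h, zero_pow (pow_ne_zero _ (Fact.out : l.Prime).ne_zero)])
    obtain ⟨n, hn⟩ := ih Q.natDegree (by
      rw [← hN, hQ, Polynomial.natDegree_mul (Polynomial.X_sub_C_ne_zero a) hQ0,
        Polynomial.natDegree_X_sub_C]; omega) Q rfl hQ0 (r / s) (by
      rw [pow_one] at hs
      rw [div_pow, hr, hs, hQ, map_mul, map_mul, hX, mul_div_cancel_left₀ _ hF.1])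
    obtain ⟨c0, rfl⟩ := hS
    refine ⟨n + Pi.single c0 1, fun g => ?_⟩
    have h1 : g s = _ := isKum_kum hz' (g := g.toRingEquiv) hF (g.commutes _)
      (fun _ => g.commutes _) 1 s hs
    rw [ffreea_one hζ] at h1
    have h2 := hn g
    rw [map_div₀, div_eq_iff ((map_ne_zero g).2 hs0), h1] at h2
    simp only [Pi.add_apply, add_mul, Finset.sum_add_distrib, Pi.single_apply, ite_mul, one_mul,
      zero_mul, Finset.sum_ite_eq', Finset.mem_univ, if_true]
    rw [h2, ffreea_val hζ, kl]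
    field_simp
  · obtain ⟨Q, hQ⟩ : (Polynomial.X - Polynomial.C a) ^ l ∣ P :=
      (Polynomial.le_rootMultiplicity_iff hP).1 (Nat.le_of_dvd
        ((Polynomial.rootMultiplicity_pos hP).2 ha) (ffreea_dvd hz hS hP hr))
    have hQ0 : Q ≠ 0 := right_ne_zero_of_mul (hQ ▸ hP)
    have hl := (Fact.out : l.Prime).pos
    have hs0 : algebraMap (RatFunc k) (maxExt l k (Set.range pt))
        (algebraMap (Polynomial k) (RatFunc k) (Polynomial.X - Polynomial.C a)) ≠ 0 :=
      (map_ne_zero _).2 (RatFunc.algebraMap_ne_zero (Polynomial.X_sub_C_ne_zero a))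
    obtain ⟨n, hn⟩ := ih Q.natDegree (by
      rw [← hN, hQ, Polynomial.natDegree_mul (pow_ne_zero _ (Polynomial.X_sub_C_ne_zero a)) hQ0,
        Polynomial.natDegree_pow, Polynomial.natDegree_X_sub_C]; omega) Q rfl hQ0
      (r / algebraMap (RatFunc k) _
        (algebraMap (Polynomial k) (RatFunc k) (Polynomial.X - Polynomial.C a))) (by
      rw [div_pow, hr, hQ, map_mul, map_mul, map_pow, map_pow,
        mul_div_cancel_left₀ _ (pow_ne_zero _ hs0)])
    refine ⟨n, fun g => ?_⟩
    have h2 := hn g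
    rwa [map_div₀, g.commutes, ← mul_div_assoc, div_left_inj' hs0] at h2

/-- `exists_eigen`: `r ^ l = c ∏ (t - a) ^ n a`; for `a ∉ S` `fix_of_over` and `tau_root` give
`l ∣ n a`; so `r` is a product of powers of `l`-th roots of the `t - a`, `a ∈ S`, and an element of
`k(t)`. -/
theorem char_eq (hz : IsRoots l z) {ι : Type} [Fintype ι] (pt : ι → k)
    (χ : Pi1 l k (Set.range pt) →* Multiplicative (ZMod l))
    (hχ : IsOpen (χ.ker : Set (Pi1 l k (Set.range pt)))) : ∃ n : ι → ZMod l,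
      ∀ g, (χ g).toAdd = ∑ c, n c * PadicInt.toZMod (kl l z _ (pt c) g) := by
  have := (maxExt_gal l (Set.range pt)).1
  have hζ : IsPrimitiveRoot (RatFunc.C (z 1)) l := by
    simpa using (hz.prim 1).map_of_injective (RatFunc.C (K := k)).injective
  obtain ⟨r, hr, ⟨c, hc⟩, hg⟩ := exists_eigen hζ χ hχ
  have hc0 : c ≠ 0 := fun h => pow_ne_zero l hr (by rw [hc, h, map_zero])
  have hd : algebraMap (RatFunc k) (maxExt l k (Set.range pt))
      (algebraMap (Polynomial k) (RatFunc k) c.denom) ≠ 0 :=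
    (map_ne_zero _).2 (RatFunc.algebraMap_ne_zero c.denom_ne_zero)
  obtain ⟨n, hn⟩ := ffreea_ind hz pt _ (c.num * c.denom ^ (l - 1)) rfl
    (mul_ne_zero (RatFunc.num_ne_zero hc0) (pow_ne_zero _ c.denom_ne_zero))
    (r * algebraMap (RatFunc k) _ (algebraMap (Polynomial k) (RatFunc k) c.denom)) (by
      have h1 := (div_eq_iff (RatFunc.algebraMap_ne_zero c.denom_ne_zero)).1 c.num_div_denom
      rw [mul_pow, hc, map_mul, h1, map_mul, map_mul, map_pow, map_pow, mul_assoc, ← pow_succ',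
        Nat.sub_add_cancel (Fact.out : l.Prime).pos])
  refine ⟨n, fun g => ?_⟩
  have h2 := hn g
  rw [map_mul, g.commutes, hg, ← mul_assoc, mul_left_inj' hd, mul_left_inj' hr] at h2
  exact ZMod.val_injective l ((hζ.map_of_injective (algebraMap (RatFunc k) _).injective).pow_inj
    (ZMod.val_lt _) (ZMod.val_lt _) h2)

omit [IsAlgClosed k] [CharZero k] in
theorem ffreea_mon (hz : IsRoots l z) (S : Set k) (θ : maxExt l k S) :
    {a | ∃ g, IsMon hz S a g ∧ g θ ≠ θ}.Finite := by
  have := (maxExt_gal l S).1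
  have hi : IsIntegral (RatFunc k) θ := Algebra.IsIntegral.isIntegral θ
  refine (Set.Finite.biUnion (((minpoly (RatFunc k) θ).rootSet_finite (maxExt l k S)).subset
    (Set.sdiff_subset (t := {θ}))) fun y hy => ffreea_fin (l := l) (sub_ne_zero.2 hy.2)
      (Algebra.IsAlgebraic.isAlgebraic (R := RatFunc k) (y - θ))).subset ?_
  rintro a ⟨g, ⟨j, hj, e⟩, hg⟩
  refine Set.mem_biUnion (x := g θ) ⟨Polynomial.mem_rootSet.2 ⟨minpoly.ne_zero hi, ?_⟩, hg⟩
    ⟨j, hj, fun h => hg (j.injective ?_)⟩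
  · rw [Polynomial.aeval_algHom_apply, minpoly.aeval, map_zero]
  · rw [map_sub, e] at h
    rw [e]
    exact tau_fix hz ⟨0, h.trans (Subtype.ext (by simp [iZ]))⟩

/-- An element is moved by monodromy at finitely many points only (clear denominators; if
`tau θ ≠ θ` the two roots have the same constant term, so the discriminant vanishes at `a`; or use
`Polynomial.Separable`: `u P + v P' = 1` over `k(t)` has poles at finitely many points). -/
theorem finite_mon (hz : IsRoots l z) (S : Set k) (U : Subgroup (Pi1 l k S)) (hU : U.Normal)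
    (ho : IsOpen (U : Set (Pi1 l k S))) : {a | ∃ g, IsMon hz S a g ∧ g ∉ U}.Finite := by
  obtain ⟨L, hL, h⟩ := (krullTopology_mem_nhds_one_iff _ _ _).1 (ho.mem_nhds U.one_mem)
  obtain ⟨n, s, hs⟩ := Module.Finite.exists_fin (R := RatFunc k) (M := L)
  refine (Set.finite_iUnion fun i => ffreea_mon hz S (s i)).subset ?_
  rintro a ⟨g, hg, h1⟩
  by_contra h2
  refine h1 (h ((IntermediateField.mem_fixingSubgroup_iff _ _).2 fun x hx => ?_))
  have h3 : (⟨x, hx⟩ : L) ∈ Submodule.span (RatFunc k) (Set.range s) := hs ▸ Submodule.mem_top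
  refine Submodule.span_induction (p := fun (y : L) _ => g y = y) ?_ (map_zero g) ?_ ?_ h3
  · rintro _ ⟨i, rfl⟩
    by_contra h4
    exact h2 (Set.mem_iUnion.2 ⟨i, g, hg, h4⟩)
  · intro y y' _ _ hy hy'
    rw [IntermediateField.coe_add, map_add, hy, hy']
  · intro c y _ hy
    rw [IntermediateField.coe_smul, Algebra.smul_def, map_mul, g.commutes, hy]

end Pool.Agent.Lib.MP_446a91_nt.Gal
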