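import Pool.Agent.Lib.MP_446a91_nt.Gal.FEP
import Pool.Agent.Lib.MP_446a91_nt.Gal.FMax
import Pool.Agent.Lib.MP_446a91_nt.Gal.FFreeA

/-! Freeness of the pro-`l` fundamental group (MP_446a91_nt). -/

namespace Pool.Agent.Lib.MP_446a91_nt.Gal

variable {l : ℕ} [Fact l.Prime] {k : Type} [Field k] [IsAlgClosed k] [CharZero k] {z : ℕ → k}

/-- The restriction map. -/
theorem ffree_res {K E E' : Type} [Field K] [Field E] [Field E'] [Algebra K E] [Algebra K E']
    [Normal K E] [Normal K E'] (i : E →ₐ[K] E') : ∃ ρ : (E' ≃ₐ[K] E') →* (E ≃ₐ[K] E),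
      Continuous ρ ∧ Function.Surjective ρ ∧ ∀ g x, i (ρ g x) = g (i x) := by
  let : Algebra E E' := i.toRingHom.toAlgebra
  have : IsScalarTower K E E' := .of_algebraMap_eq fun x => (i.commutes x).symm
  have h : ∀ (g : E' ≃ₐ[K] E') x, i (AlgEquiv.restrictNormalHom E g x) = g (i x) :=
    fun g x => g.restrictNormal_commutes E x
  refine ⟨AlgEquiv.restrictNormalHom E, (continuous_gal _).2 fun x =>
    IsLocallyConstant.desc _ i ?_ i.injective, AlgEquiv.restrictNormalHom_surjective E', h⟩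
  simpa only [Function.comp_def, h] using (continuous_gal _).1 continuous_id' (i x)

theorem ffree_res' {K Ω : Type} [Field K] [Field Ω] [Algebra K Ω] {E E' : IntermediateField K Ω}
    [Normal K E] [Normal K E'] (h : E ≤ E') : ∃ ρ : (E' ≃ₐ[K] E') →* (E ≃ₐ[K] E),
      Continuous ρ ∧ Function.Surjective ρ ∧ (∀ g (x : E), (g ⟨x, h x.2⟩ : Ω) = ρ g x) ∧
      (∀ g, ρ g = 1 → ∀ x : E', (x : Ω) ∈ E → g x = x) ∧
      ∀ {P : Type} [Field P] (j : E' →+* P) (τ : P → P) g, (∀ x, j (g x) = τ (j x)) →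
        (∀ j' : E →+* P, (∀ c, j' (algebraMap K E c) = j (algebraMap K E' c)) →
          ∀ x, τ (j' x) = j' x) → ρ g = 1 := by
  obtain ⟨ρ, h1, h2, h3⟩ := ffree_res (IntermediateField.inclusion h)
  refine ⟨ρ, h1, h2, fun g x => (congrArg Subtype.val (h3 g x)).symm, fun g hg x hx => ?_,
    fun j τ g e e' => AlgEquiv.ext fun x => ?_⟩
  · have e := h3 g ⟨x, hx⟩
    rw [hg] at e
    exact e.symm
  · apply (j.comp (IntermediateField.inclusion h).toRingHom).injective
    exact ((congrArg j (h3 g x)).trans (e _)).trans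
      (e' (j.comp (IntermediateField.inclusion h).toRingHom) (fun _ => rfl) x)

theorem ffree_desc {A B G : Type} [Group A] [TopologicalSpace A] [CompactSpace A] [Group B]
    [TopologicalSpace B] [T2Space B] [Group G] (ρ : A →* B) (h1 : Continuous ρ)
    (h2 : Function.Surjective ρ) (ψ : A →* G) (hψ : IsOpen (ψ.ker : Set A)) (h : ρ.ker ≤ ψ.ker) :
    ∃ ψ' : B →* G, IsOpen (ψ'.ker : Set B) ∧ ∀ g, ψ' (ρ g) = ψ g := by
  have e : ∀ g, ρ.liftOfSurjective h2 ⟨ψ, h⟩ (ρ g) = ψ g := fun g =>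
    ρ.liftOfRightInverse_comp_apply _ _ ⟨ψ, h⟩ g
  refine ⟨_, (h1.isClosedMap.isQuotientMap h1 h2).isOpen_preimage.1 ?_, e⟩
  convert hψ using 1
  ext g
  simp only [Set.mem_preimage, SetLike.mem_coe, MonoidHom.mem_ker, e]

/-- An open kernel is the fixing subgroup of its fixed field. -/
theorem ffree_fix {K E G : Type} [Field K] [Field E] [Algebra K E] [IsGalois K E] [Group G]
    (ψ : (E ≃ₐ[K] E) →* G) (hψ : IsOpen (ψ.ker : Set (E ≃ₐ[K] E))) :
    (IntermediateField.fixedField ψ.ker).fixingSubgroup = ψ.ker :=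
  InfiniteGalois.fixingSubgroup_fixedField ⟨ψ.ker, ψ.ker.isClosed_of_isOpen hψ⟩

/-- Twist by central characters. -/
theorem ffree_twist {A G ι : Type} [Group A] [TopologicalSpace A] [IsTopologicalGroup A] [Group G]
    [DecidableEq ι] (T : Finset ι) (κ : ι → A → ℤ_[l]) (hκ : ∀ i, IsChar (κ i)) (ψ : A →* G)
    (hψ : IsOpen (ψ.ker : Set A)) {c : G} (hc : c ∈ Subgroup.center G) (hl : c ^ l = 1)
    (u : ι → G) (hu : ∀ i ∈ T, u i ∈ Subgroup.zpowers c) :
    ∃ ψ' : A →* G, IsOpen (ψ'.ker : Set A) ∧ (∀ g, ∃ n : ℕ, ψ' g = ψ g * c ^ n) ∧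
      ∀ g i, (∀ j ∈ T, κ j g = if j = i then 1 else 0) →
        ψ' g = ψ g * if i ∈ T then u i else 1 := by
  have : ∀ i, ∃ n : ZMod l, i ∈ T → c ^ n.val = u i := fun i => by
    by_cases hi : i ∈ T
    · obtain ⟨m, hm⟩ := Subgroup.mem_zpowers_iff.1 (hu i hi)
      exact ⟨m, fun _ => by rw [← zpow_natCast, ZMod.val_intCast, ← zpow_eq_zpow_emod' m hl, hm]⟩
    · exact ⟨0, fun h => absurd h hi⟩
  choose n hn using this
  let χ : A → ZMod l := fun g => ∑ i ∈ T, n i * PadicInt.toZMod (κ i g)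
  have ha : ∀ g h, χ (g * h) = χ g + χ h := fun g h => by
    simp only [χ, (hκ _).add, map_add, mul_add, Finset.sum_add_distrib]
  have hcm : ∀ (m : ℕ) g, g * c ^ m = c ^ m * g := fun m =>
    Subgroup.mem_center_iff.1 (pow_mem hc m)
  let ψ' : A →* G := MonoidHom.mk' (fun g => ψ g * c ^ (χ g).val) fun g h => by
    rw [ha, ZMod.val_add, ← pow_eq_pow_mod _ hl, pow_add, map_mul, mul_assoc, mul_assoc,
      ← mul_assoc (ψ h), hcm _ (ψ h), mul_assoc]
  refine ⟨ψ', Subgroup.isOpen_of_mem_nhds _ (g := 1) ?_, fun g => ⟨_, rfl⟩, fun g i h => ?_⟩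
  · have h1 : ∀ᶠ g in nhds (1 : A), ∀ i ∈ T, ‖κ i g‖ < 1 :=
      (Filter.eventually_all_finset T).2 fun i _ =>
        (hκ i).cont.norm.continuousAt.eventually_lt continuousAt_const (by
          have := (hκ i).add 1 1
          rw [mul_one, left_eq_add] at this
          simp [this])
    filter_upwards [h1, hψ.mem_nhds ψ.ker.one_mem] with g h h'
    have : χ g = 0 := Finset.sum_eq_zero fun i hi => by
      have : κ i g ∈ RingHom.ker (PadicInt.toZMod : ℤ_[l] →+* ZMod l) := by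
        rw [PadicInt.ker_toZMod]
        exact PadicInt.mem_nonunits.2 (h i hi)
      rw [RingHom.mem_ker.1 this, mul_zero]
    change ψ g * c ^ (χ g).val = 1
    rw [this, ZMod.val_zero, pow_zero, mul_one]
    exact h'
  · have : χ g = if i ∈ T then n i else 0 := by
      rw [← Finset.sum_ite_eq' T i n]
      exact Finset.sum_congr rfl fun j hj => by rw [h j hj]; split_ifs <;> simp
    change ψ g * c ^ (χ g).val = _
    rw [this]
    split_ifs with hi
    · rw [hn i hi]
    · simp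

omit [IsAlgClosed k] [CharZero k] in
theorem ffree_tau (hz : IsRoots l z) (a : k) :
    tau hz (HahnSeries.C a + ww l k) = HahnSeries.C a + ww l k := by
  rw [map_add, tau_C, tau_ww]

omit [IsAlgClosed k] [CharZero k] in
/-- Every embedding over `a + w` gives a monodromy element. -/
theorem ffree_mon (hz : IsRoots l z) (S : Set k) (a : k) (j : maxExt l k S →+* HS l k)
    (hj : Over (RingHom.id k) (HahnSeries.C a + ww l k) j) :
    ∃ g : Pi1 l k S, ∀ x, j (g x) = tau hz (j x) := by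
  have := (maxExt_gal l S).1
  refine exists_bp j ((tau hz).toRingHom.comp j) fun c => ?_
  exact RingHom.congr_fun (ratFunc_ext (j := ((tau hz).toRingHom.comp j).comp (algebraMap _ _))
    (j' := j.comp (algebraMap _ _)) (fun c => by simp [hj.1, tau_C, -HahnSeries.C_apply])
    (by simp [hj.2, ffree_tau, -HahnSeries.C_apply, -map_add])) c

/-- A homomorphism on the group of `maxExt univ` that kills all monodromy off `S` factors through
the group of `maxExt S` (`mem_maxExt` for the fixed field of the kernel). -/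
theorem factor_mon (hz : IsRoots l z) (S : Set k) {G : Type} [Group G]
    (ψ : Pi1 l k Set.univ →* G) (hψ : IsOpen (ψ.ker : Set (Pi1 l k Set.univ)))
    (h : ∀ a, a ∉ S → ∀ g, IsMon hz Set.univ a g → ψ g = 1) :
    ∃ ψ' : Pi1 l k S →* G, IsOpen (ψ'.ker : Set (Pi1 l k S)) ∧
      ∀ (g : Pi1 l k Set.univ) (g' : Pi1 l k S),
        (∀ x : maxExt l k S, (g ⟨x, maxExt_le_univ S x.2⟩ : Om k) = g' x) → ψ' g' = ψ g := by
  have := (maxExt_gal l S).1
  have := (maxExt_gal l (Set.univ : Set k)).1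
  obtain ⟨ρ, h1, h2, h3, h4, -⟩ := ffree_res' (maxExt_le_univ (l := l) S)
  obtain ⟨ψ', k1, k2⟩ := ffree_desc ρ h1 h2 ψ hψ fun g hg => by
    rw [← ffree_fix ψ hψ, IntermediateField.mem_fixingSubgroup_iff]
    refine fun x hx => h4 g hg x (mem_maxExt hz x fun a ha j hj => ?_)
    obtain ⟨m, hm⟩ := ffree_mon hz _ a j hj
    rw [← hm, (IntermediateField.mem_fixedField_iff _ x).1 hx m (h a ha m ⟨j, hj, hm⟩)]
  exact ⟨ψ', k1, fun g g' e => (congrArg ψ' (AlgEquiv.ext fun x =>
    Subtype.ext ((e x).symm.trans (h3 g x)))).trans (k2 g)⟩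

omit [IsAlgClosed k] in
/-- Factor through the maximal pro-`l` extension. -/
theorem ffree_univ {G : Type} [Group G] [Finite G] (hG : IsPGroup l G)
    (ρ : (Om k ≃ₐ[RatFunc k] Om k) →* Pi1 l k Set.univ) (h1 : Continuous ρ)
    (h2 : Function.Surjective ρ) (h3 : ∀ g x, (ρ g x : Om k) = g x)
    (ψ : (Om k ≃ₐ[RatFunc k] Om k) →* G) (hψ : IsOpen (ψ.ker : Set (Om k ≃ₐ[RatFunc k] Om k))) :
    ∃ ψ' : Pi1 l k Set.univ →* G, IsOpen (ψ'.ker : Set (Pi1 l k Set.univ)) ∧
      ∀ g, ψ' (ρ g) = ψ g := by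
  refine ffree_desc ρ h1 h2 ψ hψ fun g hg => ?_
  have e := ffree_fix ψ hψ
  have : IntermediateField.fixedField ψ.ker ≤ maxExt l k Set.univ := by
    refine le_sSup ⟨(InfiniteGalois.isOpen_iff_finite _).1 (by rw [e]; exact hψ),
      (InfiniteGalois.normal_iff_isGalois _).1 (by rw [e]; infer_instance), ?_,
      fun a ha => absurd (Set.mem_univ a) ha⟩
    rw [IntermediateField.finrank_eq_fixingSubgroup_index, e, Subgroup.index_ker]
    exact IsPGroup.iff_card.1 (hG.to_subgroup _)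
  rw [← e, IntermediateField.mem_fixingSubgroup_iff]
  intro x hx
  rw [← h3 g ⟨x, this hx⟩, MonoidHom.mem_ker.1 hg]
  rfl

/-- `ep_lift` on `Om k`, factor through `maxExt univ` (the fixed field of the kernel is a finite
Galois `l`-extension), twist by `c ^ (∑ n a * kl a)` over the finite set of `finite_mon`. -/
theorem pi1_lift (hz : IsRoots l z) (S : Set k) {G H : Type} [Group G] [Group H]
    [Finite G] (hG : IsPGroup l G) (q : G →* H) (hq : Function.Surjective q) {c : G}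
    (hc : c ∈ Subgroup.center G) (hl : c ^ l = 1) (hk : q.ker = Subgroup.zpowers c)
    (φ : Pi1 l k S →* H) (hφ : IsOpen (φ.ker : Set (Pi1 l k S))) :
    ∃ ψ : Pi1 l k S →* G, IsOpen (ψ.ker : Set (Pi1 l k S)) ∧ ∀ a, q (ψ a) = φ a := by
  classical
  have := (maxExt_gal l S).1
  have := (maxExt_gal l (Set.univ : Set k)).1
  obtain ⟨ρ, h1, h2, h3, -, h4⟩ := ffree_res' (maxExt_le_univ (l := l) S)
  obtain ⟨ρ₀, k1, k2, k3⟩ := ffree_res (maxExt l k Set.univ).val
  obtain ⟨ψ₀, a0, b0⟩ := ep_lift (k := k) hG q hq hc hl hk (RatFunc k) (Om k)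
    (φ.comp (ρ.comp ρ₀)) (hφ.preimage (h1.comp k1))
  obtain ⟨ψ₁, a1, b1⟩ := ffree_univ hG ρ₀ k1 k2 k3 ψ₀ a0
  have c1 : ∀ g, q (ψ₁ g) = φ (ρ g) := fun g => by
    obtain ⟨g, rfl⟩ := k2 g
    rw [b1, b0]
    rfl
  have hm : ∀ a, a ∉ S → ∀ g, IsMon hz Set.univ a g → ψ₁ g ∈ Subgroup.zpowers c := by
    rintro a ha g ⟨j, hj, e⟩
    have h0 : (0 : Zl l) < iZ l 1 := Subtype.coe_lt_coe.1 (by simp [iZ])
    have : ρ g = 1 := h4 j (tau hz) g e fun j' hj' => fix_of_over (RingHom.id k) hz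
      (ffree_tau hz a) (HahnSeries.zero_le_orderTop_iff.1 (le_trans (le_min
        HahnSeries.orderTop_single_le (HahnSeries.lt_orderTop_single h0).le)
        HahnSeries.min_orderTop_le_orderTop_add))
      (fun b hb => by
        simpa [ww, HahnSeries.coeff_single_of_ne h0.ne] using fun h : a = b => ha (h ▸ hb))
      j' ⟨fun c => (hj' _).trans (hj.1 c), (hj' _).trans hj.2⟩
    rw [← hk, MonoidHom.mem_ker, c1, this, map_one]
  choose m hm' using exists_mon hz (Set.univ : Set k)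
  have hT := finite_mon hz Set.univ ψ₁.ker inferInstance a1
  obtain ⟨ψ₂, a2, b2, c2⟩ := ffree_twist (hT.toFinset.filter (· ∉ S)) (kl l z Set.univ)
    (fun a => isChar_kl hz (Set.mem_univ a)) ψ₁ a1 hc hl (fun a => (ψ₁ (m a))⁻¹)
    fun a ha => inv_mem (hm a (Finset.mem_filter.1 ha).2 _ (hm' a))
  obtain ⟨ψ₃, a3, b3⟩ := factor_mon hz S ψ₂ a2 fun a ha g hg => by
    rw [c2 g a fun b _ => by convert hg.kl hz (Set.mem_univ b)]
    split_ifs with h
    · obtain ⟨t, ht⟩ := isConj_iff.1 (ψ₁.map_isConj (hg.conj hz (hm' a)))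
      rw [← ht, Subgroup.mem_center_iff.1 (Subgroup.zpowers_le.2 hc (hm a ha g hg)) t]
      simp
    · by_contra hne
      exact h (by simpa [ha] using ⟨g, hg, by simpa using hne⟩)
  refine ⟨ψ₃, a3, fun g => ?_⟩
  obtain ⟨g, rfl⟩ := h2 g
  obtain ⟨n, hn⟩ := b2 g
  have : q c = 1 := by rw [← MonoidHom.mem_ker, hk]; exact Subgroup.mem_zpowers c
  rw [b3 g _ (h3 g), hn, map_mul, map_pow, this, one_pow, mul_one, c1]

/-- Paper A5. -/
theorem pi1_free (hz : IsRoots l z) {ι : Type} [Fintype ι] [DecidableEq ι] (pt : ι → k)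
    (x : ι → Pi1 l k (Set.range pt))
    (hx : ∀ c d, kl l z _ (pt c) (x d) = if c = d then 1 else 0) : IsFreePro l x := by
  have := (maxExt_gal l (Set.range pt)).1
  have hp : IsProL l (Pi1 l k (Set.range pt)) := isProL_iff.2 (maxExt_gal l _).2
  refine ⟨hp, by_contra fun h => ?_, fun H _ _ hH g => ?_⟩
  · obtain ⟨χ, h1, h2, h3⟩ := exists_char_of_ne_top hp _ (Subgroup.isClosed_topologicalClosure _) h
    obtain ⟨n, hn⟩ := char_eq hz pt χ h1
    have h0 : ∀ d, n d = 0 := fun d => by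
      have := hn (x d)
      rw [MonoidHom.mem_ker.1 (h3 (Subgroup.le_topologicalClosure _
        (Subgroup.subset_closure ⟨d, rfl⟩)))] at this
      simpa [hx, apply_ite] using this.symm
    exact h2 (MonoidHom.ext fun g => Multiplicative.toAdd.injective (by simp [hn, h0]))
  · induction hn : Nat.card H using Nat.strong_induction_on generalizing H with
    | _ n ih =>
    rcases subsingleton_or_nontrivial H with h | h
    · exact ⟨1, by simp, fun i => Subsingleton.elim _ _⟩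
    have := hH.center_nontrivial
    obtain ⟨⟨c, hc⟩, ho⟩ := exists_prime_orderOf_dvd_card' l
      ((hH.to_subgroup (Subgroup.center H)).card_eq_or_dvd.resolve_left Finite.one_lt_card.ne')
    rw [← Subgroup.orderOf_coe] at ho
    have : (Subgroup.zpowers c).Normal := ⟨fun a ha b => by
      rwa [Subgroup.mem_center_iff.1 (Subgroup.zpowers_le.2 hc ha) b, mul_inv_cancel_right]⟩
    have hl : c ^ l = 1 := ho ▸ pow_orderOf_eq_one c
    obtain ⟨φ, h1, h2⟩ := ih _ (by
      rw [← hn, Subgroup.card_eq_card_quotient_mul_card_subgroup (Subgroup.zpowers c),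
        Nat.card_zpowers, ho]
      exact lt_mul_of_one_lt_right Nat.card_pos (Fact.out : l.Prime).one_lt)
      (H ⧸ Subgroup.zpowers c) _ inferInstance (hH.to_quotient _) (fun i => g i) rfl
    obtain ⟨ψ, k1, k2⟩ := pi1_lift hz _ hH (QuotientGroup.mk' _) (QuotientGroup.mk'_surjective _)
      hc hl (QuotientGroup.ker_mk' _) φ h1
    obtain ⟨ψ', a1, -, a2⟩ := ffree_twist Finset.univ (fun i => kl l z _ (pt i))
      (fun i => isChar_kl hz (Set.mem_range_self i)) ψ k1 hc hl (fun i => (ψ (x i))⁻¹ * g i)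
      fun i _ => QuotientGroup.eq.1 ((k2 _).trans (h2 i))
    exact ⟨ψ', a1, fun i => by simp [a2 (x i) i fun j _ => hx j i]⟩

end Pool.Agent.Lib.MP_446a91_nt.Gal
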