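import Pool.Agent.Lib.MP_446a91_nt.Gal.FGoodA

/-! Good reduction by weights (MP_446a91_nt, paper A8). -/

namespace Pool.Agent.Lib.MP_446a91_nt.Gal

variable {l : ℕ} [Fact l.Prime] {z : ℕ → Qb}

/-- An extension of a monodromy element off `0, 1` fixes the roots of `s` and `1 - s`. -/
theorem fgood_lin (hz : IsRoots l z) {a b : Qb} (hab : b ≠ a) {g : Pi1 l Qb Set.univ}
    (hg : IsMon hz _ a g) (h : GK) (hh : ∀ c : maxExt l Qb Set.univ, h c = g c) :
    IsKum (zK z) h.toRingEquiv (sK - cK b) (0 : ℤ_[l]) := by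
  have k1 := fgood_iskum hz (Set.mem_univ b) g
  rw [IsMon.kl hz hg (Set.mem_univ b), if_neg hab] at k1
  have k2 := IsKum.map (ffreea_roots hz Set.univ) (algebraMap (maxExt l Qb Set.univ) Kb)
    (g := g.toRingEquiv) (g' := h.toRingEquiv) (fun x => (hh x).symm) (fun n => g.commutes _)
    (allRoots_lin (Set.mem_univ b)) k1
  rw [← IsScalarTower.algebraMap_apply, map_sub] at k2
  exact k2

/-- A semilinear automorphism of `Kb` that raises `h` to the power `b` on `maxExt univ`. -/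
theorem fgood_gam (hz : IsRoots l z) {a : Qb} {g : Pi1 l Qb Set.univ} (hg : IsMon hz _ a g)
    (h : GK) (hh : ∀ c : maxExt l Qb Set.univ, h c = g c) : ∃ (γ : Kb ≃+* Kb) (b : ℕ) (h' : GK),
      2 ≤ b ∧ γ sK = sK ∧ (∀ n, γ (zK z n) = zK z n ^ b) ∧
      h'.toRingEquiv = γ * h.toRingEquiv * γ⁻¹ ∧
      ∀ c ∈ maxExt l Qb Set.univ, ((h ^ b)⁻¹ * h') c = c := by
  obtain ⟨j, hj, e⟩ := hg
  obtain ⟨σ, b, hb, σ1, σ2⟩ := exists_gam hz a
  obtain ⟨s, s1, s2, s3⟩ := exists_sec_one (l := l) (S := Set.univ) σ.toRingEquiv (by simp)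
    (by rw [map_add, cact_C, cact_ww]; exact congrArg (fun u => HahnSeries.C u + _) σ1) j hj
  have hc := fgood_conj hz σ.toRingEquiv σ2 j s g.toRingEquiv s1 e
  obtain ⟨γ, hγ⟩ := fgood_ext (maxExt l Qb Set.univ) s
  have γ1 : ∀ c, γ (algebraMap (RatFunc Qb) Kb (RatFunc.C c)) =
      algebraMap (RatFunc Qb) Kb (RatFunc.C (σ.toRingEquiv c)) := fun c =>
    (hγ (algebraMap (RatFunc Qb) _ (RatFunc.C c))).trans (congrArg Subtype.val (s2 c))
  have γ2 : γ sK = sK := (hγ (algebraMap (RatFunc Qb) _ RatFunc.X)).trans (congrArg Subtype.val s3)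
  obtain ⟨cj, -, hcj⟩ := exists_cj_one γ (nrm_of_lift σ.toRingEquiv γ γ1 γ2)
  have hp : ∀ (n : ℕ) (c : maxExt l Qb Set.univ), (h ^ n) c = (g ^ n) c := fun n => by
    induction n with
    | zero => exact fun c => rfl
    | succ n ih => exact fun c => by rw [pow_succ, pow_succ, AlgEquiv.mul_apply, hh, ih]; rfl
  refine ⟨γ, b, cj h, hb, γ2, fun n => ?_, hcj h, fun c hc' => ?_⟩
  · refine (γ1 _).trans ?_
    rw [show σ.toRingEquiv (z n) = z n ^ b from σ2 n, map_pow, map_pow]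
    rfl
  · obtain ⟨d, hd⟩ := s.surjective ⟨c, hc'⟩
    have e0 : c = (s d : Kb) := (congrArg Subtype.val hd).symm
    have e1 : cj h (γ d) = γ (h d) :=
      (DFunLike.congr_fun (hcj h) (γ d)).trans
        (congrArg γ (congrArg h (γ.symm_apply_apply d)))
    have e2 : s (g d) = (g ^ b) (s d) :=
      (DFunLike.congr_fun hc d).trans (fgood_pow g b (s d))
    rw [AlgEquiv.mul_apply]
    refine (h ^ b).symm_apply_eq.2 ?_
    rw [e0, hp, ← e2, ← hγ, ← hγ, e1, hh]

/-- `exists_gam` for `a`; `exists_sec_one` on `maxExt univ` gives `γ'` with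
`γ' g γ'⁻¹ = g ^ b` (`cact_tau`); extend `γ'` to `Kb` (`exists_lift_Om`, correct by an element of
`GK`), lift it to `NN` with `exists_sec_one` for `D.j`; `good_univ`, `good_level`, `gr_weight`. -/
theorem good_mon (hz : IsRoots l z) (D : NData l) {a : Qb} (ha : a ∉ ({0, 1} : Set Qb))
    {g : Pi1 l Qb Set.univ} (hg : IsMon hz _ a g) (h : GK)
    (hh : ∀ c : maxExt l Qb Set.univ, h c = g c) (φ : PhiN l) : Commute (D.sec h) (D.i φ) := by
  have := (maxExt_gal l (Set.range ptN)).1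
  have hK := isRoots_zK hz
  have hN := ffreea_roots hK (Set.range ptN)
  obtain ⟨xs, x1, x2, x3⟩ := exists_xs hz
  obtain ⟨ρ, r1, r2, -, -⟩ := exists_rho hz D
  obtain ⟨γ, b, h', hb, γ1, γ2, γ3, γ4⟩ := fgood_gam hz hg h hh
  obtain ⟨s, s1, s2, s3⟩ := exists_sec_one (l := l) γ (ptN_mem γ γ1) (cact_ww γ) D.j D.ov
  obtain ⟨Γ, Γ1, Γ2⟩ := exists_cj_one s (nrm_of_lift γ s s2 s3)
  have h0 : IsKum (zK z) h.toRingEquiv sK (0 : ℤ_[l]) := by
    simpa using fgood_lin hz (b := 0) (fun e => ha (by simp [← e])) hg h hh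
  have h1 : IsKum (zK z) h.toRingEquiv (1 - sK) (0 : ℤ_[l]) := by
    have := IsKum.mul hK (allRoots_const (l := l) cK (c := -1) (by simp))
      (isKum_const cK hz (fun c => h.commutes _) (-1))
      (fgood_lin hz (b := 1) (fun e => ha (by simp [← e])) hg h hh)
    simpa using this
  have e1 : ρ h' = ρ h ^ b := by
    have := (fgood_comm D r1 _).2 (good_univ hz D _ γ4)
    rwa [map_mul, map_inv, inv_mul_eq_one, map_pow, eq_comm] at this
  have e2 : ∀ y, D.sec h' (s y) = s (D.sec h y) := fun y => D.j.injective (by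
    rw [D.sec_spec, s1, s1, D.sec_spec, γ3, map_mul, map_mul, map_inv,
      ← RingAut.mul_apply, inv_mul_cancel_right, RingAut.mul_apply])
  have e3 : ∀ ψ y, Γ ψ (s y) = s (ψ y) := fun ψ y =>
    (DFunLike.congr_fun (Γ2 ψ) (s y)).trans (congrArg s (congrArg ψ (s.symm_apply_apply y)))
  have e4 : ∀ h ψ y, ρ h ψ (D.sec h y) = D.sec h (ψ y) := fun h ψ y => by
    rw [← D.i_spec, r1, AlgEquiv.mul_apply, AlgEquiv.mul_apply, D.i_spec]
    exact congrArg _ (congrArg _ ((D.sec h).symm_apply_apply y))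
  refine (fgood_comm D r1 h).1 (gr_weight x1 (fun c => isChar_kl hK (Set.mem_range_self c)) x3
    (ρ h) Γ (r2 h) Γ1 hb ?_ (fun c ψ => ?_) fun c => ?_) φ
  · rw [← e1, mul_inv_eq_iff_eq_mul]
    refine MulEquiv.ext fun ψ => AlgEquiv.ext fun y => ?_
    obtain ⟨y, rfl⟩ := s.surjective y
    obtain ⟨y, rfl⟩ := (D.sec h).surjective y
    rw [MulAut.mul_apply, MulAut.mul_apply, e3, e4, ← e2, ← e2, e4, e3]
  · have k1 := IsKum.conj hN (s := s) (b := b)
      (by rw [map_sub, map_sub, s2, s3, fgood_pt γ γ1])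
      (fun n => by rw [s2, γ2, map_pow, map_pow]) (fgood_iskum hK (Set.mem_range_self c) ψ)
    rw [← Γ2] at k1
    exact k1.kum_eq hN (allRoots_lin (Set.mem_range_self c))
  · obtain ⟨ψ, k1, k2⟩ := good_level hz D h h0 h1 c (x2 c)
    exact ⟨ψ, fun d => Or.inl (k1 d), fgood_inj D (by rw [r1, k2])⟩

/-- The `h` that commute with `Φ` form a closed subgroup whose fixed field lies in `MX`
(`mem_maxExt`); infinite Galois correspondence. -/
theorem good (hz : IsRoots l z) (D : NData l) (h : GK)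
    (hh : ∀ c ∈ maxExt l Qb {0, 1}, h c = c) (φ : PhiN l) : Commute (D.sec h) (D.i φ) := by
  have := (maxExt_gal l (Set.range ptN)).1
  have := (maxExt_gal l (Set.univ : Set Qb)).1
  obtain ⟨ρ, r1, -, r3, -⟩ := exists_rho hz D
  have hcl : IsClosed (ρ.ker : Set GK) := by
    have e : (ρ.ker : Set GK) = ⋂ φ, {h | ρ h φ = φ} := by
      ext h
      simp only [SetLike.mem_coe, MonoidHom.mem_ker, Set.mem_iInter, Set.mem_ofPred_eq]
      exact ⟨fun e φ => by rw [e]; rfl, fun e => MulEquiv.ext e⟩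
    rw [e]
    exact isClosed_iInter fun φ => isClosed_eq (r3 φ) continuous_const
  have hle : IntermediateField.fixedField ρ.ker ≤ maxExt l Qb {0, 1} := fun x hx => by
    have hx1 : x ∈ maxExt l Qb Set.univ := by
      rw [← InfiniteGalois.fixedField_fixingSubgroup (maxExt l Qb Set.univ)]
      exact fun w => hx ⟨w.1, (fgood_comm D r1 _).2
        (good_univ hz D w.1 fun c hc => w.2 ⟨c, hc⟩)⟩
    refine mem_maxExt hz ⟨x, hx1⟩ fun a ha j hj => ?_
    obtain ⟨g, hg⟩ := ffree_mon hz _ a j hj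
    have e : ∀ c : maxExt l Qb Set.univ, g.liftNormal Kb c = g c := g.liftNormal_commutes Kb
    rw [← hg]
    refine congrArg j (Subtype.ext ?_)
    rw [← e]
    exact hx ⟨_, (fgood_comm D r1 _).2 (good_mon hz D ha ⟨j, hj, hg⟩ _ e)⟩
  refine (fgood_comm D r1 _).1 ?_ φ
  have e := InfiniteGalois.fixingSubgroup_fixedField ⟨ρ.ker, hcl⟩
  have hm : h ∈ (IntermediateField.fixedField ρ.ker).fixingSubgroup :=
    fun x => hh x (hle x.2)
  exact e.le hm

end Pool.Agent.Lib.MP_446a91_nt.Gal
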