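import Pool.Agent.Lib.MP_446a91_nt.Gal.MgDefs

/-! `l`-adic integers as limits (MP_446a91_nt). -/

namespace Pool.Agent.Lib.MP_446a91_nt.Gal

variable {l : ℕ} [Fact l.Prime]

section Pad

theorem mgpad_dvd (n : ℕ) (x : ℤ_[l]) : PadicInt.toZModPow n x = 0 ↔ (l : ℤ_[l]) ^ n ∣ x := by
  rw [← RingHom.mem_ker, PadicInt.ker_toZModPow, Ideal.mem_span_singleton]

theorem mgpad_iff (n : ℕ) (x y : ℤ_[l]) :
    PadicInt.toZModPow n x = PadicInt.toZModPow n y ↔ dist x y ≤ (l : ℝ) ^ (-n : ℤ) := by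
  rw [dist_eq_norm, PadicInt.norm_le_pow_iff_mem_span_pow, ← PadicInt.ker_toZModPow,
    RingHom.mem_ker, map_sub, sub_eq_zero]

theorem exists_padic (a : (n : ℕ) → ZMod (l ^ n))
    (h : ∀ n, ZMod.castHom (pow_dvd_pow l n.le_succ) (ZMod (l ^ n)) (a (n + 1)) = a n) :
    ∃ c : ℤ_[l], ∀ n, PadicInt.toZModPow n c = a n := by
  have hi : ∀ i, (l : ℤ) ^ i ∣ ((a (i + 1)).val : ℤ) - ((a i).val : ℤ) := fun i => by
    rw [← Nat.cast_pow, ← ZMod.intCast_eq_intCast_iff_dvd_sub, Int.cast_natCast, Int.cast_natCast,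
      ZMod.natCast_zmod_val, ZMod.natCast_val]
    exact (h i).symm
  refine ⟨_, fun n => (PadicInt.toZModPow_ofIntSeq_of_pow_dvd_sub (fun i => ((a i).val : ℤ)) l hi
    n).trans ?_⟩
  rw [Int.cast_natCast, ZMod.natCast_zmod_val]

/-- Compatible sequences have no torsion. -/
theorem compat_eq_zero {a : (n : ℕ) → ZMod (l ^ n)}
    (h : ∀ n, ZMod.castHom (pow_dvd_pow l n.le_succ) (ZMod (l ^ n)) (a (n + 1)) = a n) {N : ℕ}
    (hN : N ≠ 0) (h0 : N • a = 0) : a = 0 := by
  obtain ⟨c, hc⟩ := exists_padic a h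
  have h1 : N • c = 0 := PadicInt.ext_of_toZModPow.1 fun n => by
    rw [map_nsmul, hc, map_zero]
    exact congrFun h0 n
  funext n
  rw [← hc, (smul_eq_zero_iff_right hN).1 h1, map_zero]
  rfl

theorem continuous_padic {X : Type} [TopologicalSpace X] {c : X → ℤ_[l]}
    (h : ∀ n, IsLocallyConstant fun x => PadicInt.toZModPow n (c x)) : Continuous c := by
  refine continuous_iff_continuousAt.2 fun x => Metric.tendsto_nhds.2 fun ε hε => ?_
  obtain ⟨k, hk⟩ := PadicInt.exists_pow_neg_lt l hε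
  exact ((h k).eventually_eq x).mono fun y hy => ((mgpad_iff k _ _).1 hy).trans_lt hk

theorem isLocallyConstant_toZModPow {X : Type} [TopologicalSpace X] {c : X → ℤ_[l]}
    (h : Continuous c) (n : ℕ) : IsLocallyConstant fun x => PadicInt.toZModPow n (c x) := by
  refine (IsLocallyConstant.iff_eventually_eq _).2 fun x => ?_
  have h0 : (0 : ℝ) < (l : ℝ) ^ (-n : ℤ) := zpow_pos (Nat.cast_pos.2 (Fact.out : l.Prime).pos) _
  exact (Metric.tendsto_nhds.1 (h.tendsto x) _ h0).mono fun y hy => (mgpad_iff n _ _).2 hy.le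

/-- A group without continuous `ℤ / l` quotient has no continuous `ℤ_l` character. -/
theorem char_eq_zero {Γ : Type} [Group Γ] [TopologicalSpace Γ] [IsTopologicalGroup Γ]
    (hW : ∀ χ : Γ →* Multiplicative (ZMod l), IsOpen (χ.ker : Set Γ) → χ = 1) {κ : Γ → ℤ_[l]}
    (hκ : IsChar κ) (g : Γ) : κ g = 0 := by
  have hl : (l : ℤ_[l]) ≠ 0 := Nat.cast_ne_zero.2 (Fact.out : l.Prime).ne_zero
  have key : ∀ k : ℕ, ∀ g, (l : ℤ_[l]) ^ k ∣ κ g := by
    intro k
    induction k with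
    | zero => exact fun g => by rw [pow_zero]; exact one_dvd _
    | succ k ih =>
      choose κ' hκ' using ih
      have h1 : ∀ g h, κ' (g * h) = κ' g + κ' h := fun g h =>
        mul_left_cancel₀ (pow_ne_zero k hl) (by rw [mul_add, ← hκ', ← hκ', ← hκ', hκ.add])
      let χ : Γ →* Multiplicative (ZMod l) := MonoidHom.mk'
        (fun g => Multiplicative.ofAdd (PadicInt.toZMod (κ' g))) fun g h => by
          rw [h1, map_add, ofAdd_add]
      have h2 : ∀ g, χ g = 1 ↔ (l : ℤ_[l]) ^ (k + 1) ∣ κ g := fun g => by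
        rw [hκ', pow_succ, mul_dvd_mul_iff_left (pow_ne_zero k hl), ← Ideal.mem_span_singleton,
          ← PadicInt.maximalIdeal_eq_span_p, ← PadicInt.ker_toZMod, RingHom.mem_ker]
        exact ofAdd_eq_one
      have h3 : (χ.ker : Set Γ) = {g | PadicInt.toZModPow (k + 1) (κ g) = 0} :=
        Set.ext fun g => (h2 g).trans (mgpad_dvd _ _).symm
      have h4 := hW χ (h3 ▸ (isLocallyConstant_toZModPow hκ.cont (k + 1)).isOpen_fiber 0)
      exact fun g => (h2 g).1 (by rw [h4, MonoidHom.one_apply])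
  exact PadicInt.ext_of_toZModPow.1 fun n => by rw [map_zero, mgpad_dvd]; exact key n g

end Pad

end Pool.Agent.Lib.MP_446a91_nt.Gal
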