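import Pool.Agent.Lib.MP_446a91_nt.Gal.MgDefs

/-! The closed lower central series (MP_446a91_nt). -/

namespace Pool.Agent.Lib.MP_446a91_nt.Gal

open scoped commutatorElement

variable {G G' ι : Type} [Group G] [TopologicalSpace G] [IsTopologicalGroup G] [Group G']
  [TopologicalSpace G'] [IsTopologicalGroup G']

theorem mem_lcs_one (g : G) : g ∈ lcs G 1 := Subgroup.mem_top g

theorem lcs_succ {d : ℕ} (hd : 1 ≤ d) :
    lcs G (d + 1) = ⁅(⊤ : Subgroup G), lcs G d⁆.topologicalClosure := by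
  obtain ⟨e, rfl⟩ := Nat.exists_eq_add_of_le' hd
  rfl

theorem lcs_closed (d : ℕ) : IsClosed (lcs G d : Set G) :=
  match d with
  | 0 => isClosed_univ
  | 1 => isClosed_univ
  | _ + 2 => Subgroup.isClosed_topologicalClosure _

instance lcs_normal (d : ℕ) : (lcs G d).Normal := by
  induction d with
  | zero => exact Subgroup.normal_top
  | succ d ih =>
    rcases Nat.eq_zero_or_pos d with rfl | hd
    · exact Subgroup.normal_top
    · rw [lcs_succ hd]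
      exact Subgroup.is_normal_topologicalClosure _

theorem lcs_anti {i j : ℕ} (h : i ≤ j) : lcs G j ≤ lcs G i := by
  refine antitone_nat_of_succ_le (fun d => ?_) h
  rcases Nat.eq_zero_or_pos d with rfl | hd
  · exact le_top
  · rw [lcs_succ hd]
    exact Subgroup.topologicalClosure_minimal _ (Subgroup.commutator_le_right _ _) (lcs_closed d)

theorem mglcs_one {d : ℕ} (g : G) {u : G} (hu : u ∈ lcs G d) :
    g * u * g⁻¹ * u⁻¹ ∈ lcs G (d + 1) := by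
  rcases Nat.eq_zero_or_pos d with rfl | hd
  · exact Subgroup.mem_top _
  · rw [lcs_succ hd]
    exact Subgroup.le_topologicalClosure _
      (Subgroup.commutator_mem_commutator (Subgroup.mem_top g) hu)

/-- Induction on `G(d + 1)`, the closed subgroup generated by the commutators. -/
theorem lcs_ind {d : ℕ} (hd : 1 ≤ d) {P : G → Prop} (hc : IsClosed {g | P g}) (h1 : P 1)
    (hm : ∀ a ∈ lcs G (d + 1), ∀ b ∈ lcs G (d + 1), P a → P b → P (a * b))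
    (hi : ∀ a ∈ lcs G (d + 1), P a → P a⁻¹)
    (h : ∀ g, ∀ u ∈ lcs G d, P (g * u * g⁻¹ * u⁻¹)) : ∀ g ∈ lcs G (d + 1), P g := by
  let K : Subgroup G :=
    { carrier := {g | g ∈ lcs G (d + 1) ∧ P g}
      one_mem' := ⟨one_mem _, h1⟩
      mul_mem' := fun ha hb => ⟨mul_mem ha.1 hb.1, hm _ ha.1 _ hb.1 ha.2 hb.2⟩
      inv_mem' := fun ha => ⟨inv_mem ha.1, hi _ ha.1 ha.2⟩ }
  have key : ⁅(⊤ : Subgroup G), lcs G d⁆.topologicalClosure ≤ K :=
    Subgroup.topologicalClosure_minimal _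
      (Subgroup.commutator_le.2 fun g _ u hu => ⟨mglcs_one g hu, h g u hu⟩)
      ((lcs_closed _).inter hc)
  exact fun g hg => (key (lcs_succ (G := G) hd ▸ hg)).2

/-- Induction on topological generators. -/
theorem DenseGen.ind {x : ι → G} (hx : DenseGen x) {P : G → Prop} (hc : IsClosed {g | P g})
    (h1 : P 1) (hm : ∀ a b, P a → P b → P (a * b)) (hi : ∀ a, P a → P a⁻¹) (h : ∀ i, P (x i)) :
    ∀ g, P g := by
  let K : Subgroup G :=
    { carrier := {g | P g}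
      one_mem' := h1
      mul_mem' := fun ha hb => hm _ _ ha hb
      inv_mem' := fun ha => hi _ ha }
  have key : (Subgroup.closure (Set.range x)).topologicalClosure ≤ K :=
    Subgroup.topologicalClosure_minimal _
      ((Subgroup.closure_le _).2 (Set.range_subset_iff.2 h)) hc
  exact fun g => key (hx.symm ▸ Subgroup.mem_top g)

/-- `[G(i), G(j)] ≤ G(i + j)`. -/
theorem comm_mem {i j : ℕ} {g h : G} (hg : g ∈ lcs G i) (hh : h ∈ lcs G j) :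
    g * h * g⁻¹ * h⁻¹ ∈ lcs G (i + j) := by
  induction i generalizing j g h with
  | zero =>
    rw [zero_add]
    exact mul_mem ((lcs_normal j).conj_mem h hh g) (inv_mem hh)
  | succ i ih =>
    rcases Nat.eq_zero_or_pos i with rfl | hi
    · rw [zero_add, add_comm]
      exact mglcs_one g hh
    have hN := lcs_normal (G := G) (i + 1 + j)
    refine lcs_ind (P := fun a => a * h * a⁻¹ * h⁻¹ ∈ lcs G (i + 1 + j)) hi
      ((lcs_closed _).preimage (f := fun a => a * h * a⁻¹ * h⁻¹) (by fun_prop)) (by simp)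
      (fun a _ b _ ha hb => ?_) (fun a _ ha => ?_) (fun x y hy => ?_) g hg
    · have e : a * b * h * (a * b)⁻¹ * h⁻¹ =
        a * (b * h * b⁻¹ * h⁻¹) * a⁻¹ * (a * h * a⁻¹ * h⁻¹) := by group
      exact e ▸ mul_mem (hN.conj_mem _ hb a) ha
    · have e : a⁻¹ * h * a⁻¹⁻¹ * h⁻¹ = a⁻¹ * (a * h * a⁻¹ * h⁻¹)⁻¹ * a⁻¹⁻¹ := by group
      exact e ▸ hN.conj_mem _ (inv_mem ha) a⁻¹
    · have h1 : ⁅y, ⁅x⁻¹, h⁻¹⁆⁻¹⁆ ∈ lcs G (i + (j + 1)) :=
        ih hy (inv_mem (mglcs_one x⁻¹ (inv_mem hh)))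
      have h2 : ⁅x⁻¹, ⁅y⁻¹, h⁆⁆ ∈ lcs G (i + j + 1) := mglcs_one x⁻¹ (ih (inv_mem hy) hh)
      rw [show i + (j + 1) = i + 1 + j by omega] at h1
      rw [show i + j + 1 = i + 1 + j by omega] at h2
      have e : x * y * x⁻¹ * y⁻¹ * h * (x * y * x⁻¹ * y⁻¹)⁻¹ * h⁻¹ =
          x * y * ⁅x⁻¹, ⁅y⁻¹, h⁆⁆ * (x * y)⁻¹ * (x * h * ⁅y, ⁅x⁻¹, h⁻¹⁆⁻¹⁆ * (x * h)⁻¹) := by
        simp only [commutatorElement_def]
        group
      exact e ▸ mul_mem (hN.conj_mem _ h2 _) (hN.conj_mem _ h1 _)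

theorem map_lcs {F : Type} [FunLike F G G'] [MonoidHomClass F G G'] (p : F) (hp : Continuous p)
    {d : ℕ} {g : G} (hg : g ∈ lcs G d) : p g ∈ lcs G' d := by
  induction d generalizing g with
  | zero => exact Subgroup.mem_top _
  | succ d ih =>
    rcases Nat.eq_zero_or_pos d with rfl | hd
    · exact Subgroup.mem_top _
    refine lcs_ind (P := fun a => p a ∈ lcs G' (d + 1)) hd ((lcs_closed _).preimage hp) (by simp)
      (fun a _ b _ ha hb => ?_) (fun a _ ha => ?_) (fun x y hy => ?_) g hg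
    · exact map_mul p a b ▸ mul_mem ha hb
    · exact map_inv p a ▸ inv_mem ha
    · simpa only [map_mul, map_inv] using mglcs_one (p x) (ih hy)

theorem mglcs_conj {i j n : ℕ} (hn : i + j = n) {u z : G} (hu : u ∈ lcs G i) (hz : z ∈ lcs G j)
    (y : G) : ((⁅u, y * z * y⁻¹⁆ : G) : G ⧸ lcs G (n + 1)) = (⁅u, z⁆ : G) := by
  subst hn
  have h1 : ⁅u, ⁅y, z⁆⁆ ∈ lcs G (i + (j + 1)) := comm_mem hu (mglcs_one y hz)
  have h2 : ⁅⁅y, z⁆, ⁅u, z⁆⁆ ∈ lcs G (i + j + 1) := mglcs_one _ (comm_mem hu hz)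
  have e : ⁅u, y * z * y⁻¹⁆ / ⁅u, z⁆ = ⁅u, ⁅y, z⁆⁆ * ⁅⁅y, z⁆, ⁅u, z⁆⁆ := by
    simp only [commutatorElement_def, div_eq_mul_inv]
    group
  exact QuotientGroup.eq_iff_div_mem.2 (e ▸ mul_mem h1 h2)

/-- The Jacobi identity modulo the next term (Hall-Witt). -/
theorem jacobi_mem {i j k : ℕ} (hi : 1 ≤ i) (hj : 1 ≤ j) (hk : 1 ≤ k) {a b c : G}
    (ha : a ∈ lcs G i) (hb : b ∈ lcs G j) (hc : c ∈ lcs G k) :
    ⁅a, ⁅b, c⁆⁆ * ⁅b, ⁅c, a⁆⁆ * ⁅c, ⁅a, b⁆⁆ ∈ lcs G (i + j + k + 1) := by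
  have h1 := mglcs_conj (n := i + j + k) rfl (comm_mem ha hb) hc b
  have h2 := mglcs_conj (n := i + j + k) (by omega) (comm_mem hb hc) ha c
  have h3 := mglcs_conj (n := i + j + k) (by omega) (comm_mem hc ha) hb a
  have h4 : ⁅⁅a, ⁅b, c⁆⁆, ⁅b, ⁅c, a⁆⁆⁆ ∈ lcs G (i + j + k + 1) :=
    mglcs_one _ (lcs_anti (by omega) (comm_mem hb (comm_mem hc ha)))
  have e : ⁅a * b * a⁻¹ * b⁻¹, b * c * b⁻¹⁆ * ⁅b * c * b⁻¹ * c⁻¹, c * a * c⁻¹⁆ *
      ⁅c * a * c⁻¹ * a⁻¹, a * b * a⁻¹⁆ = 1 := by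
    simp only [commutatorElement_def]
    group
  have h5 := congrArg (QuotientGroup.mk (s := lcs G (i + j + k + 1))) e
  rw [QuotientGroup.mk_mul, QuotientGroup.mk_mul, h1, h2, h3, ← QuotientGroup.mk_mul,
    ← QuotientGroup.mk_mul, QuotientGroup.mk_one, QuotientGroup.eq_one_iff] at h5
  have e' : ⁅a, ⁅b, c⁆⁆ * ⁅b, ⁅c, a⁆⁆ * ⁅c, ⁅a, b⁆⁆ = ⁅⁅a, ⁅b, c⁆⁆, ⁅b, ⁅c, a⁆⁆⁆ *
      (⁅⁅a, b⁆, c⁆ * ⁅⁅b, c⁆, a⁆ * ⁅⁅c, a⁆, b⁆)⁻¹ := by
    rw [mul_inv_rev, mul_inv_rev, commutatorElement_inv, commutatorElement_inv,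
      commutatorElement_inv, commutatorElement_def ⁅a, ⁅b, c⁆⁆]
    group
  exact e' ▸ mul_mem h4 (inv_mem h5)

end Pool.Agent.Lib.MP_446a91_nt.Gal
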