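import Pool.Agent.Lib.MP_446a91_nt.Gal.MgTrunc
import Pool.Agent.Lib.MP_446a91_nt.Gal.MgLcs
import Pool.Agent.Lib.MP_446a91_nt.Gal.MgPad

/-! Magnus coefficients of a free pro-`l` group (MP_446a91_nt). -/

namespace Pool.Agent.Lib.MP_446a91_nt.Gal

variable {l : ℕ} [Fact l.Prime] {G ι : Type} [Group G] [TopologicalSpace G]
  [IsTopologicalGroup G]

theorem mgcoef_cancel {R : Type} [CommRing R] {N : ℕ} {a a' b : List ι → R} (hb : b [] = 1)
    (h : ∀ w : List ι, w.length ≤ N →
      ∑ k ∈ Finset.range (w.length + 1), a (w.take k) * b (w.drop k) =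
        ∑ k ∈ Finset.range (w.length + 1), a' (w.take k) * b (w.drop k)) (w : List ι)
    (hw : w.length ≤ N) : a w = a' w := by
  induction hn : w.length using Nat.strong_induction_on generalizing w with
  | _ n ih =>
    have h1 := h w hw
    rw [Finset.sum_range_succ, Finset.sum_range_succ, List.take_length, List.drop_length, hb,
      mul_one, mul_one, Finset.sum_congr rfl fun k hk => by
        have := Finset.mem_range.1 hk
        rw [ih k (by omega) (w.take k) (by rw [List.length_take]; omega)
          (by rw [List.length_take]; omega)]] at h1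
    exact add_left_cancel h1

omit [TopologicalSpace G] [IsTopologicalGroup G] in
open Classical in
theorem mgcoef_one {R : Type} [CommRing R] {N : ℕ} {c : List ι → G → R} (h2 : ∀ g, c [] g = 1)
    (h3 : ∀ w : List ι, w.length ≤ N → ∀ g h, c w (g * h) =
      ∑ k ∈ Finset.range (w.length + 1), c (w.take k) g * c (w.drop k) h) (w : List ι)
    (hw : w.length ≤ N) : c w 1 = if w = [] then 1 else 0 := by
  refine mgcoef_cancel (a := fun w => c w 1) (a' := fun w => if w = [] then 1 else 0)
    (b := fun w => c w 1) (h2 1) (fun w hw => ?_) w hw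
  rw [← h3 w hw, mul_one, Finset.sum_eq_single 0]
  · simp
  · intro k hk h0
    have := Finset.mem_range.1 hk
    rw [if_neg, zero_mul]
    rw [← List.length_eq_zero_iff, List.length_take]
    omega
  · simp

/-- Truncated coefficients are determined by their values on the generators. -/
theorem trunc_unique {x : ι → G} (hx : DenseGen x) {R : Type} [CommRing R] {N : ℕ}
    {c c' : List ι → G → R} (h1 : ∀ w, IsLocallyConstant (c w))
    (h1' : ∀ w, IsLocallyConstant (c' w)) (h2 : ∀ g, c [] g = 1) (h2' : ∀ g, c' [] g = 1)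
    (h3 : ∀ w : List ι, w.length ≤ N → ∀ g h, c w (g * h) =
      ∑ k ∈ Finset.range (w.length + 1), c (w.take k) g * c (w.drop k) h)
    (h3' : ∀ w : List ι, w.length ≤ N → ∀ g h, c' w (g * h) =
      ∑ k ∈ Finset.range (w.length + 1), c' (w.take k) g * c' (w.drop k) h)
    (h4 : ∀ w i, w.length ≤ N → c w (x i) = c' w (x i)) :
    ∀ g w, w.length ≤ N → c w g = c' w g := by
  have h0 : ∀ w : List ι, w.length ≤ N → c w 1 = c' w 1 := fun w hw => by
    rw [mgcoef_one h2 h3 w hw, mgcoef_one h2' h3' w hw]
  refine hx.ind (P := fun g => ∀ w : List ι, w.length ≤ N → c w g = c' w g) ?_ h0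
    (fun a b ha hb w hw => ?_) (fun a ha => ?_) fun i w hw => h4 w i hw
  · simp only [Set.ofPred_forall]
    refine isClosed_iInter fun w => isClosed_iInter fun _ => ?_
    simpa only [Pi.sub_apply, sub_eq_zero] using ((h1 w).sub (h1' w)).isClosed_fiber 0
  · rw [h3 w hw, h3' w hw]
    refine Finset.sum_congr rfl fun k _ => ?_
    rw [ha _ (by rw [List.length_take]; omega), hb _ (by rw [List.length_drop]; omega)]
  · refine mgcoef_cancel (a := fun w => c w a⁻¹) (a' := fun w => c' w a⁻¹) (b := fun w => c w a)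
      (h2 a) fun w hw => ?_
    rw [← h3 w hw, inv_mul_cancel, h0 w hw, ← inv_mul_cancel a, h3' w hw]
    refine Finset.sum_congr rfl fun k _ => ?_
    rw [ha _ (by rw [List.length_drop]; omega)]

theorem exists_coef [Finite ι] {x : ι → G} (hx : IsFreePro l x) : Nonempty (Coef l x) := by
  choose C h1 h2 h3 h4 h5 using exists_trunc hx
  have key : ∀ {n n' N N' : ℕ} (φ : ZMod (l ^ n') →+* ZMod (l ^ n)), N ≤ N' →
      ∀ g (w : List ι), w.length ≤ N → φ (C n' N' w g) = C n N w g := fun {n n' N N'} φ hN => by
    refine trunc_unique hx.gen (c := fun w g => φ (C n' N' w g)) (fun w => (h1 n' N' w).comp φ)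
      (h1 n N) (fun g => by rw [h2, map_one]) (h2 n N)
      (fun w hw g h => by simp only [h3 n' N' w (hw.trans hN), map_sum, map_mul]) (h3 n N)
      fun w i hw => ?_
    by_cases g1 : w = []
    · rw [g1, h2, h2, map_one]
    by_cases g2 : w = [i]
    · subst g2
      rw [h4 n' N' (hw.trans hN), h4 n N hw, map_one]
    · rw [h5 n' N' w i (hw.trans hN) g1 g2, h5 n N w i hw g1 g2, map_zero]
  choose c hc using fun (w : List ι) (g : G) =>
    exists_padic (fun n => C n w.length w g) fun n => key _ le_rfl g w le_rfl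
  have hc' : ∀ n N (w : List ι) g, w.length ≤ N → PadicInt.toZModPow n (c w g) = C n N w g :=
    fun n N w g hw => (hc w g n).trans (key (RingHom.id _) hw g w le_rfl).symm
  refine ⟨⟨c, fun w => continuous_padic fun n => ?_, fun g => ?_, fun w g h => ?_, fun i => ?_,
    fun w i g1 g2 => ?_⟩⟩
  · simpa only [hc] using h1 n w.length w
  all_goals refine PadicInt.ext_of_toZModPow.1 fun n => ?_
  · rw [hc, h2, map_one]
  · rw [hc, h3 n _ w le_rfl, map_sum]
    refine Finset.sum_congr rfl fun k _ => ?_
    rw [map_mul, hc' n w.length _ _ (by rw [List.length_take]; omega),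
      hc' n w.length _ _ (by rw [List.length_drop]; omega)]
  · rw [hc, map_one]
    exact h4 n 1 le_rfl i
  · rw [hc, h5 n _ w i le_rfl g1 g2, map_zero]

end Pool.Agent.Lib.MP_446a91_nt.Gal
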