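import Pool.Agent.Lib.MP_446a91_nt.Gal.MgAlg

/-! Coefficients of Lie polynomials, centralisers of letters (MP_446a91_nt). -/

namespace Pool.Agent.Lib.MP_446a91_nt.Gal

open Module

section W
variable {K ι : Type} [CommRing K] {d : ℕ} {u : W K ι}

theorem mgcen_nil (r : ι) (q : W K ι) : cf [] (lt r * q) = 0 := by
  classical
  exact linW_zero (cf [] ∘ₗ LinearMap.mulLeft K (lt r)) q fun v _ => by simp [← wrd_cons, cf_wrd]

theorem mgcen_cons [DecidableEq ι] (r i : ι) (w : List ι) (q : W K ι) :
    cf (i :: w) (lt r * q) = if r = i then cf w q else 0 :=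
  linW_eq (cf (i :: w) ∘ₗ LinearMap.mulLeft K (lt r)) (if r = i then cf w else 0) q
    (fun v _ => by by_cases h : r = i <;> simp [← wrd_cons, cf_wrd, h]) |>.trans
    (by split_ifs <;> simp)

theorem mgcen_concat (i : ι) (w : List ι) (q : W K ι) : cf (w ++ [i]) (q * lt i) = cf w q := by
  classical
  exact linW_eq (cf (w ++ [i]) ∘ₗ LinearMap.mulRight K (lt i)) (cf w) q
    fun v _ => by simp [lt, wrd_mul, cf_wrd]

theorem mgcen_lin {Z : Type} [AddCommGroup Z] [Module K Z] (φ : W K ι →ₗ[K] Z)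
    (hu : u ∈ LS K (lt : ι → W K ι) d)
    (h : ∀ v, Br (lt : ι → W K ι) (fun _ => 1) d v → φ v = 0) : φ u = 0 :=
  (Submodule.span_le (p := LinearMap.ker φ)).2 h ((LS_eq_span _ d).le hu)

theorem cf_mul (w : List ι) (p q : W K ι) :
    cf w (p * q) = ∑ k ∈ Finset.range (w.length + 1), cf (w.take k) p * cf (w.drop k) q := by
  classical
  induction p using W_ind generalizing w with
  | one =>
    rw [Finset.sum_range_succ', Finset.sum_eq_zero fun k hk => ?_]
    · rw [one_mul]
      simp [← wrd_nil, cf_wrd]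
    · obtain _ | ⟨j, w⟩ := w
      · simp at hk
      · simp [← wrd_nil, cf_wrd]
  | mul i u ih =>
    obtain _ | ⟨j, w⟩ := w
    · simp [mul_assoc, mgcen_nil]
    · rw [mul_assoc, mgcen_cons, List.length_cons, Finset.sum_range_succ', ih]
      by_cases h : i = j <;> simp [mgcen_cons, mgcen_nil, h]
  | add u v h1 h2 => simp only [add_mul, map_add, h1, h2, Finset.sum_add_distrib]
  | smul r u ih => simp only [smul_mul_assoc, map_smul, ih, smul_eq_mul, Finset.mul_sum, mul_assoc]

/-- Lie polynomials of degree `d` are homogeneous. -/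
theorem cf_LS (hu : u ∈ LS K (lt : ι → W K ι) d) {w : List ι} (hw : w.length ≠ d) :
    cf w u = 0 := by
  classical
  refine mgcen_lin _ hu fun v hv => ?_
  clear hu
  induction hv generalizing w with
  | of s => rw [lt, cf_wrd, if_neg fun h => hw (by simp [← h])]
  | @lie m n a b _ _ h1 h2 =>
    have e : ∀ {m n : ℕ} {a b : W K ι}, (∀ {w : List ι}, w.length ≠ m → cf w a = 0) →
        (∀ {w : List ι}, w.length ≠ n → cf w b = 0) → w.length ≠ m + n → cf w (a * b) = 0 := by
      intro m n a b h1 h2 hw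
      rw [cf_mul]
      refine Finset.sum_eq_zero fun k hk => ?_
      rw [Finset.mem_range] at hk
      by_cases h : k = m
      · rw [h2 (by rw [List.length_drop]; omega), mul_zero]
      · rw [h1 (by rw [List.length_take]; omega), zero_mul]
    rw [cm, map_sub, e h1 h2 hw, e h2 h1 (by omega), sub_zero]

theorem cf_replicate (hd : 2 ≤ d) (hu : u ∈ LS K (lt : ι → W K ι) d) (i : ι) (n : ℕ) :
    cf (List.replicate n i) u = 0 := by
  refine mgcen_lin _ hu fun v hv => ?_
  cases hv with
  | of s => omega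
  | @lie _ _ a b _ _ =>
    rw [cm, map_sub, cf_mul, cf_mul, List.length_replicate, ← Finset.sum_flip, sub_eq_zero]
    refine Finset.sum_congr rfl fun k hk => ?_
    rw [Finset.mem_range] at hk
    rw [List.take_replicate, List.take_replicate, List.drop_replicate, List.drop_replicate,
      mul_comm, min_eq_left (n.sub_le k), min_eq_left (by omega), Nat.sub_sub_self (by omega)]

theorem eq_sum_of_one [Fintype ι] (hu : u ∈ LS K (lt : ι → W K ι) 1) :
    u = ∑ i, cf [i] u • lt i := by
  classical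
  refine sub_eq_zero.1 (cf_ext fun w => ?_)
  simp only [map_sub, map_sum, map_smul, lt, cf_wrd, smul_eq_mul]
  by_cases h : w.length = 1
  · obtain ⟨j, rfl⟩ := List.length_eq_one_iff.1 h
    simp
  · rw [cf_LS hu h, Finset.sum_eq_zero fun i _ => ?_, sub_zero]
    rw [if_neg fun e => h (by simp [← e]), mul_zero]

/-- An element that commutes with a letter is a polynomial in this letter. -/
theorem mgcen_pow {i : ι} (h : cm (lt i) u = 0) {w : List ι} (hw : cf w u ≠ 0) :
    ∃ n, w = List.replicate n i := by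
  classical
  have key : ∀ k j v, i ≠ j → cf (List.replicate k i ++ j :: v) u = 0 := by
    intro k j v hj
    induction k generalizing v with
    | zero => rw [← mgcen_concat i, ← sub_eq_zero.1 h]; simp [mgcen_cons, hj]
    | succ k ih =>
      rw [← mgcen_concat i, ← sub_eq_zero.1 h]
      simp [List.replicate_succ, mgcen_cons, ih]
  have dec : ∀ w : List ι, (∃ n, w = List.replicate n i) ∨
      ∃ k j v, i ≠ j ∧ w = List.replicate k i ++ j :: v := by
    intro w
    induction w with
    | nil => exact .inl ⟨0, rfl⟩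
    | cons a w ih =>
      by_cases e : i = a
      · subst e
        exact ih.imp (fun ⟨n, e⟩ => ⟨n + 1, congrArg _ e⟩)
          fun ⟨k, j, v, hj, e⟩ => ⟨k + 1, j, v, hj, congrArg _ e⟩
      · exact .inr ⟨0, a, w, e, rfl⟩
  exact (dec w).resolve_right fun ⟨k, j, v, hj, e⟩ => hw (e ▸ key k j v hj)

/-- The centraliser of a letter. -/
theorem cen_two (hd : 2 ≤ d) (hu : u ∈ LS K (lt : ι → W K ι) d) {i : ι} (h : cm (lt i) u = 0) :
    u = 0 := by
  refine cf_ext fun w => by_contra fun hw => ?_
  obtain ⟨n, rfl⟩ := mgcen_pow h hw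
  exact hw (cf_replicate hd hu i n)

theorem cen_one (hu : u ∈ LS K (lt : ι → W K ι) 1) {i : ι} (h : cm (lt i) u = 0) :
    u = cf [i] u • lt i := by
  classical
  refine sub_eq_zero.1 (cf_ext fun w => ?_)
  rw [map_sub, map_smul, lt, cf_wrd, sub_eq_zero]
  split_ifs with e
  · simp [e]
  · rw [smul_zero]
    by_contra hw
    obtain ⟨n, rfl⟩ := mgcen_pow h hw
    refine hw (cf_LS hu fun h1 => e ?_)
    rw [List.length_replicate.symm.trans h1]
    rfl

theorem cen_both (hu : u ∈ LS K (lt : ι → W K ι) d) {i j : ι} (hij : i ≠ j)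
    (h : cm (lt i) u = 0) (h' : cm (lt j) u = 0) : u = 0 := by
  refine cf_ext fun w => by_contra fun hw => ?_
  obtain ⟨n, rfl⟩ := mgcen_pow h hw
  obtain ⟨m, e⟩ := mgcen_pow h' hw
  obtain _ | n := n
  · exact hw (mgcen_lin _ hu fun v hv => cf_LS (Submodule.subset_span hv.mem)
      (Nat.ne_of_lt (hv.pos fun _ => le_rfl)))
  · exact hij (List.eq_of_mem_replicate (n := m) (by rw [← e]; simp))

/-- Lie polynomials of degree two in two letters. -/
theorem LK_two {p : W K (Fin 2)} (hp : p ∈ LK K 2) : p = cf [0, 1] p • cm (lt 0) (lt 1) := by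
  have h1 : ∀ n v, Br (lt : Fin 2 → W K (Fin 2)) (fun _ => 1) n v → n = 1 → ∃ i, v = lt i := by
    rintro n v (i | ⟨a, b⟩) e
    · exact ⟨i, rfl⟩
    · have := a.pos fun _ => le_rfl
      have := b.pos fun _ => le_rfl
      omega
  have h2 : ∀ n v, Br (lt : Fin 2 → W K (Fin 2)) (fun _ => 1) n v → n = 2 →
      v - cf [0, 1] v • cm (lt 0) (lt 1) = 0 := by
    rintro n v (i | ⟨a, b⟩) e
    · omega
    · have := a.pos fun _ => le_rfl
      have := b.pos fun _ => le_rfl
      obtain ⟨i, rfl⟩ := h1 _ _ a (by omega)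
      obtain ⟨j, rfl⟩ := h1 _ _ b (by omega)
      fin_cases i <;> fin_cases j <;> simp [cm, lt, wrd_mul, cf_wrd]
  exact sub_eq_zero.1 (mgcen_lin (LinearMap.id - (cf [0, 1]).smulRight (cm (lt 0) (lt 1))) hp
    fun v hv => h2 2 v hv rfl)

end W

end Pool.Agent.Lib.MP_446a91_nt.Gal
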