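import Pool.Agent.Lib.MP_446a91_nt.Gal.MgDefs

/-! Weak continuity; `l`-adic integers as limits (MP_446a91_nt). -/

namespace Pool.Agent.Lib.MP_446a91_nt.Gal

open Module

variable {l : ℕ} [Fact l.Prime]

section Sep
variable {A B : Type} [AddCommGroup A] [Module ℤ_[l] A] [AddCommGroup B] [Module ℤ_[l] B]

theorem sepF_self : SepF l ℤ_[l] := fun _ h => h LinearMap.id

theorem sepF_W (ι : Type) : SepF l (W ℤ_[l] ι) := fun _ h => cf_ext fun w => h (cf w)

theorem SepF.end (h : SepF l A) : SepF l (End ℤ_[l] A) :=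
  fun _ hD => LinearMap.ext fun a => h _ fun f => hD (f ∘ₗ LinearMap.applyₗ a)

theorem SepF.prod (h : SepF l A) (h' : SepF l B) : SepF l (A × B) :=
  fun _ hp => Prod.ext (h _ fun f => hp (f ∘ₗ LinearMap.fst _ _ _))
    (h' _ fun f => hp (f ∘ₗ LinearMap.snd _ _ _))

theorem SepF.of_injective (h : SepF l B) (θ : A →ₗ[ℤ_[l]] B) (hθ : Function.Injective θ) :
    SepF l A := fun _ ha => hθ ((h _ fun f => ha (f ∘ₗ θ)).trans θ.map_zero.symm)

theorem SepF.smul_eq_zero (h : SepF l A) {c : ℤ_[l]} (hc : c ≠ 0) {a : A} (h0 : c • a = 0) :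
    a = 0 :=
  h a fun f => (mul_eq_zero.1 (by rw [← smul_eq_mul, ← map_smul, h0, map_zero])).resolve_left hc

variable {X Y : Type} [TopologicalSpace X] [TopologicalSpace Y] {F F' : X → A}

theorem wcont_const (a : A) : WCont l fun _ : X => a := fun _ => continuous_const

theorem WCont.add (h : WCont l F) (h' : WCont l F') : WCont l fun x => F x + F' x := fun f => by
  simpa only [map_add] using! (h f).add (h' f)

theorem WCont.sub (h : WCont l F) (h' : WCont l F') : WCont l fun x => F x - F' x := fun f => by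
  simpa only [map_sub] using! (h f).sub (h' f)

theorem WCont.map (h : WCont l F) (θ : A →ₗ[ℤ_[l]] B) : WCont l fun x => θ (F x) :=
  fun f => h (f ∘ₗ θ)

theorem WCont.comp (h : WCont l F) {p : Y → X} (hp : Continuous p) : WCont l fun y => F (p y) :=
  fun f => (h f).comp hp

theorem WCont.prod (h : WCont l F) {E : X → B} (h' : WCont l E) : WCont l fun x => (F x, E x) := by
  simpa using (h.map (LinearMap.inl _ A B)).add (h'.map (LinearMap.inr _ A B))

theorem wcont_smul {c : X → ℤ_[l]} (hc : Continuous c) (a : A) : WCont l fun x => c x • a :=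
  fun f => by simpa only [map_smul] using! hc.smul continuous_const

theorem wcont_sum {J : Type} (s : Finset J) {E : J → X → A} (h : ∀ j ∈ s, WCont l (E j)) :
    WCont l fun x => ∑ j ∈ s, E j x := fun f => by
  simpa only [map_sum] using continuous_finsetSum s fun j hj => h j hj f

/-- The derivation depends linearly on its values at the letters. -/
noncomputable def mgtop_der (R ι : Type) [CommRing R] : (ι → W R ι) →ₗ[R] End R (W R ι) where
  toFun := der
  map_add' u v := der_ext (der_isDer _) (fun a b => by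
    simp only [LinearMap.add_apply, der_mul]
    noncomm_ring) fun i => by simp
  map_smul' r u := der_ext (der_isDer _) (fun a b => by simp [der_mul]) fun i => by simp

theorem wcont_der {ι : Type} [Finite ι] {E : ι → X → W ℤ_[l] ι} (h : ∀ i, WCont l (E i)) :
    WCont l fun x => (der fun i => E i x : End ℤ_[l] (W ℤ_[l] ι)) := by
  classical
  have := Fintype.ofFinite ι
  simpa only [LinearMap.coe_single, Finset.univ_sum_single] using! (wcont_sum Finset.univ
    fun i _ => (h i).map (LinearMap.single ℤ_[l] (fun _ => W ℤ_[l] ι) i)).map (mgtop_der _ ι)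

theorem SepF.isClosed_eq (hA : SepF l A) (h : WCont l F) (h' : WCont l F') :
    IsClosed {x | F x = F' x} := by
  have e : {x | F x = F' x} = ⋂ f : A →ₗ[ℤ_[l]] ℤ_[l], {x | f (F x) = f (F' x)} := by
    ext x
    simp only [Set.mem_iInter, Set.mem_ofPred_eq]
    exact ⟨fun e f => by rw [e], fun e => sub_eq_zero.1 (hA _ fun f => by rw [map_sub, e, sub_self])⟩
  exact e ▸ isClosed_iInter fun f => _root_.isClosed_eq (h f) (h' f)

/-- Projection along the compact factor `s → ℤ_l`. -/
theorem SepF.isClosed_span (hA : SepF l A) (h : WCont l F) {s : Set A} (hs : s.Finite) :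
    IsClosed {x | F x ∈ Submodule.span ℤ_[l] s} := by
  have := hs.fintype
  have h1 := isClosedMap_fst_of_compactSpace _ (hA.isClosed_eq
    (wcont_sum (X := X × (s → ℤ_[l])) Finset.univ fun (j : s) _ =>
      wcont_smul ((continuous_apply j).comp continuous_snd) (j : A)) (h.comp continuous_fst))
  have e : {x | F x ∈ Submodule.span ℤ_[l] s} =
      Prod.fst '' {p : X × (s → ℤ_[l]) | ∑ j, p.2 j • (j : A) = F p.1} := by
    ext x
    have := Submodule.mem_span_range_iff_exists_fun ℤ_[l] (v := ((↑) : s → A)) (x := F x)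
    simpa using this
  exact e ▸ h1

/-- The image of a compact group under a continuous additive map is a `ℤ_l`-submodule. -/
theorem SepF.exists_submodule (hA : SepF l A) {Γ : Type} [Group Γ] [TopologicalSpace Γ]
    [CompactSpace Γ] {C : Subgroup Γ} (hC : IsClosed (C : Set Γ)) {E : Γ → A} (h : WCont l E)
    (hm : ∀ a ∈ C, ∀ b ∈ C, E (a * b) = E a + E b) :
    ∃ N : Submodule ℤ_[l] A, (N : Set A) = E '' C := by
  have h1 : E 1 = 0 := by simpa using hm 1 C.one_mem 1 C.one_mem
  refine ⟨⟨⟨⟨E '' C, ?_⟩, 1, C.one_mem, h1⟩, ?_⟩, rfl⟩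
  · rintro _ _ ⟨a, ha, rfl⟩ ⟨b, hb, rfl⟩
    exact ⟨a * b, C.mul_mem ha hb, hm a ha b hb⟩
  · rintro r _ ⟨a, ha, rfl⟩
    have h2 := isClosedMap_fst_of_compactSpace _ ((hC.preimage continuous_snd).inter
      (hA.isClosed_eq (h.comp continuous_snd) (wcont_smul continuous_fst (E a))))
    have h3 : ∀ n : ℕ, E (a ^ n) = (n : ℤ_[l]) • E a := fun n => by
      induction n with
      | zero => simpa using h1
      | succ n ih => rw [pow_succ, hm _ (C.pow_mem ha n) a ha, ih, Nat.cast_succ, add_smul, one_smul]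
    obtain ⟨⟨_, b⟩, ⟨hb, e⟩, rfl⟩ := h2.closure_subset_iff.2
      (Set.range_subset_iff.2 fun n : ℕ => ⟨(n, a ^ n), ⟨C.pow_mem ha n, h3 n⟩, rfl⟩)
      (PadicInt.denseRange_natCast r)
    exact ⟨b, hb, e⟩

end Sep

end Pool.Agent.Lib.MP_446a91_nt.Gal
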