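import Pool.Agent.Lib.MP_446a91_nt.Gal.MgLcs
import Pool.Agent.Lib.MP_446a91_nt.Gal.MgCen
import Pool.Agent.Lib.MP_446a91_nt.Gal.MgTop

/-! The leading terms of the Magnus expansion (MP_446a91_nt). -/

namespace Pool.Agent.Lib.MP_446a91_nt.Gal

variable {l : ℕ} [Fact l.Prime] {G ι : Type} [Group G] [TopologicalSpace G]
  [IsTopologicalGroup G]

section
open Finset
variable {x : ι → G} (C : Coef l x) {d i j : ℕ} {g h : G} {w : List ι}

/-- The coefficients of degrees `1, …, d - 1` vanish. -/
def mgm0D (d : ℕ) (g : G) : Prop := ∀ w, w ≠ [] → w.length < d → C.c w g = 0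

section
omit [IsTopologicalGroup G]

theorem mgm0_one (g : G) : mgm0D C 1 g := fun _ h0 h1 =>
  absurd (List.eq_nil_of_length_eq_zero (by omega)) h0

theorem mgm0_mul (hg : mgm0D C i g) (hh : mgm0D C j h) (hi : 1 ≤ i) (hj : 1 ≤ j) (h0 : w ≠ [])
    (hw : w.length ≤ i + j) : C.c w (g * h) = C.c w g + C.c w h +
      if w.length = i + j then C.c (w.take i) g * C.c (w.drop i) h else 0 := by
  have hn := List.length_pos_iff.2 h0
  rw [C.mul, sum_congr rfl (g := fun k => (if k = w.length then C.c w g else 0) +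
    (if k = 0 then C.c w h else 0) + if k = i then
      (if w.length = i + j then C.c (w.take i) g * C.c (w.drop i) h else 0) else 0) fun k hk => ?_]
  · simp only [sum_add_distrib, sum_ite_eq', mem_range, Nat.lt_add_one, Nat.zero_lt_succ, if_true]
    congr 1
    split_ifs with h1 h2 h2 <;> first | rfl | omega
  have hk := mem_range.1 hk
  rcases Nat.eq_zero_or_pos k with rfl | k0
  · rw [if_neg hn.ne, if_pos rfl, if_neg (by omega), List.take_zero, List.drop_zero, C.nil]
    ring
  rcases (Nat.lt_succ_iff.1 hk).eq_or_lt with rfl | k1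
  · rw [if_pos rfl, if_neg hn.ne', List.take_length, List.drop_length, C.nil, ← ite_and,
      if_neg (by omega)]
    ring
  rw [if_neg k1.ne, if_neg k0.ne', zero_add, zero_add, ← ite_and]
  split_ifs with h1
  · rw [h1.1]
  rcases lt_or_ge k i with h2 | h2
  · rw [hg _ (List.length_pos_iff.1 (by rw [List.length_take]; omega))
      (by rw [List.length_take]; omega), zero_mul]
  · rw [hh _ (List.length_pos_iff.1 (by rw [List.length_drop]; omega))
      (by rw [List.length_drop]; omega), mul_zero]

theorem mgm0_add (hg : mgm0D C d g) (h : G) (h0 : w ≠ []) (hw : w.length ≤ d) :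
    C.c w (g * h) = C.c w g + C.c w h := by
  have hn := List.length_pos_iff.2 h0
  rw [mgm0_mul C hg (mgm0_one C h) (by omega) le_rfl h0 (by omega), if_neg (by omega), add_zero]

theorem mgm0_unit (d : ℕ) : mgm0D C d 1 := by
  induction d with
  | zero => exact fun _ _ h => absurd h (Nat.not_lt_zero _)
  | succ d ih =>
    intro w h0 hw
    have h1 := mgm0_add C ih 1 h0 (by omega)
    rwa [mul_one, left_eq_add] at h1

theorem mgm0_comm (hg : mgm0D C i g) (hh : mgm0D C j h) (hi : 1 ≤ i) (hj : 1 ≤ j) (h0 : w ≠ [])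
    (hw : w.length ≤ i + j) : C.c w (g * h * g⁻¹ * h⁻¹) =
      (if w.length = i + j then C.c (w.take i) g * C.c (w.drop i) h else 0) -
        if w.length = j + i then C.c (w.take j) h * C.c (w.drop j) g else 0 := by
  have key : ∀ {d} {w : List ι}, mgm0D C d (g * h * g⁻¹ * h⁻¹) → w ≠ [] → w.length ≤ d →
      w.length ≤ i + j → C.c w (g * h * g⁻¹ * h⁻¹) =
      (if w.length = i + j then C.c (w.take i) g * C.c (w.drop i) h else 0) -
        if w.length = j + i then C.c (w.take j) h * C.c (w.drop j) g else 0 := fun h1 h0 h2 hw => by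
    have h3 := mgm0_add C h1 (h * g) h0 h2
    rw [show g * h * g⁻¹ * h⁻¹ * (h * g) = g * h by group, mgm0_mul C hg hh hi hj h0 hw,
      mgm0_mul C hh hg hj hi h0 (by omega)] at h3
    linear_combination -h3
  have h1 : ∀ d ≤ i + j, mgm0D C d (g * h * g⁻¹ * h⁻¹) := fun d hd => by
    induction d with
    | zero => exact fun _ _ h => absurd h (Nat.not_lt_zero _)
    | succ d ih =>
      intro w h0 hw
      rw [key (ih (by omega)) h0 (by omega) (by omega), if_neg (by omega), if_neg (by omega),
        sub_zero]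
  exact key (h1 _ le_rfl) h0 hw hw

end

theorem mgm0_lcs (hd : 1 ≤ d) : ∀ g ∈ lcs G d, mgm0D C d g := by
  induction d, hd using Nat.le_induction with
  | base => exact fun g _ => mgm0_one C g
  | succ d hd ih =>
    refine lcs_ind hd ?_ (mgm0_unit C _) (fun a _ b _ ha hb w h0 hw => ?_)
      (fun a _ ha w h0 hw => ?_) fun g u hu w h0 hw => ?_
    · simp only [mgm0D, Set.ofPred_forall]
      exact isClosed_iInter fun w => isClosed_iInter fun _ => isClosed_iInter fun _ =>
        isClosed_eq (C.cont w) continuous_const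
    · rw [mgm0_add C ha b h0 hw.le, ha w h0 hw, hb w h0 hw, add_zero]
    · have h1 := mgm0_add C ha a⁻¹ h0 hw.le
      rwa [mul_inv_cancel, mgm0_unit C _ w h0 hw, ha w h0 hw, zero_add, eq_comm] at h1
    · rw [mgm0_comm C (mgm0_one C g) (ih u hu) le_rfl hd h0 (by omega), if_neg (by omega),
        if_neg (by omega), sub_zero]

variable [Finite ι]
omit [IsTopologicalGroup G]

/-- The homogeneous component of degree `d`. -/
noncomputable def mgm0L (d : ℕ) (g : G) : W ℤ_[l] ι :=
  ∑ v ∈ (List.finite_length_eq ι d).toFinset, C.c v g • wrd v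

theorem mgm0_cf (d : ℕ) (g : G) (w : List ι) :
    cf w (mgm0L C d g) = if w.length = d then C.c w g else 0 := by
  classical
  simp only [mgm0L, map_sum, map_smul, cf_wrd, smul_eq_mul, mul_ite, mul_one, mul_zero, sum_ite_eq',
    Set.Finite.mem_toFinset, Set.mem_ofPred_eq]

theorem mgm0_cf_mul (i j : ℕ) (g h : G) (w : List ι) : cf w (mgm0L C i g * mgm0L C j h) =
    if w.length = i + j then C.c (w.take i) g * C.c (w.drop i) h else 0 := by
  simp only [cf_mul, mgm0_cf, List.length_take, List.length_drop]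
  rw [sum_eq_single i (fun k hk hi => by
    rw [if_neg (by have := mem_range.1 hk; omega), zero_mul]) fun hi => by
    rw [if_neg (by have := mem_range.not.1 hi; omega), zero_mul], ite_zero_mul_ite_zero]
  exact if_congr (by omega) rfl rfl

end

/-- (M0): `L d g = ∑_{|w| = d} c w g • w`. -/
theorem Coef.exists_sys [Finite ι] {x : ι → G} (C : Coef l x) :
    ∃ S : LTSys l G (W ℤ_[l] ι), ∀ i, S.L 1 (x i) = lt i := by
  classical
  have ne : ∀ {d} {w : List ι}, 1 ≤ d → w.length = d → w ≠ [] := fun h1 h2 =>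
    List.length_pos_iff.1 (by omega)
  refine ⟨⟨mgm0L C, sepF_W ι, fun d => wcont_sum _ fun v _ => wcont_smul (C.cont v) _,
    fun {d g h} hd hg _ => sub_eq_zero.1 (cf_ext fun w => ?_), fun {d g} hd hg => cf_ext fun w => ?_,
    fun {i j g h} hi hj hg hh => sub_eq_zero.1 (cf_ext fun w => ?_)⟩,
    fun i => sub_eq_zero.1 (cf_ext fun w => ?_)⟩
  · simp only [map_sub, map_add, mgm0_cf]
    split_ifs with h1
    · rw [mgm0_add C (mgm0_lcs C hd g hg) h (ne hd h1) h1.le, sub_self]
    · simp
  · rw [mgm0_cf]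
    split_ifs with h1
    · exact mgm0_lcs C (by omega) g hg w (ne hd h1) (by omega)
    · rfl
  · rw [cm, map_sub, map_sub, mgm0_cf_mul, mgm0_cf_mul, mgm0_cf, sub_eq_zero]
    by_cases h1 : w.length = i + j
    · rw [if_pos h1, mgm0_comm C (mgm0_lcs C hi g hg) (mgm0_lcs C hj h hh) hi hj
        (ne (by omega) h1) h1.le]
    · rw [if_neg h1, if_neg h1, if_neg (by omega), sub_zero]
  · rw [map_sub, mgm0_cf, lt, cf_wrd, sub_eq_zero]
    by_cases h1 : [i] = w
    · rw [← h1, if_pos rfl, if_pos List.length_singleton, C.gen_self]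
    · rw [if_neg h1]
      split_ifs with h2
      · exact C.gen_ne w i (ne le_rfl h2) (Ne.symm h1)
      · rfl

end Pool.Agent.Lib.MP_446a91_nt.Gal
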