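import Pool.Agent.Lib.MP_446a91_nt.Gal.MgPow
import Pool.Agent.Lib.MP_446a91_nt.Gal.MgCoef
import Pool.Agent.Lib.MP_446a91_nt.Gal.MgM0

/-! The Magnus-Witt theorem for free pro-`l` groups (MP_446a91_nt). -/

namespace Pool.Agent.Lib.MP_446a91_nt.Gal

variable {l : ℕ} [Fact l.Prime] {G ι : Type} [Group G] [TopologicalSpace G]
  [IsTopologicalGroup G] [CompactSpace G] [T2Space G] [TotallyDisconnectedSpace G]

/-- An element that lies in `U N` for all open normal `U` lies in the closed subgroup `N`. -/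
theorem mem_of_open {N : Subgroup G} (hN : IsClosed (N : Set G)) {g : G}
    (h : ∀ U : Subgroup G, U.Normal → IsOpen (U : Set G) → ∃ u ∈ U, ∃ v ∈ N, g = u * v) :
    g ∈ N := by
  by_contra hg
  obtain ⟨U, hU⟩ := ProfiniteGrp.exist_openNormalSubgroup_sub_open_nhds_of_one
    (U := (fun u : G => u⁻¹ * g) ⁻¹' (N : Set G)ᶜ) (hN.isOpen_compl.preimage (by fun_prop))
    (by simpa using hg)
  obtain ⟨u, hu, v, hv, e⟩ := h U.toSubgroup U.isNormal' U.isOpen'
  exact hU hu (by simpa [e] using hv)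

omit [T2Space G] [TotallyDisconnectedSpace G] [Fact l.Prime] in
theorem mgwitt_quot (h : IsProL l G) {U : Subgroup G} [U.Normal] (hU : IsOpen (U : Set G)) :
    Finite (G ⧸ U) ∧ IsPGroup l (G ⧸ U) := by
  refine ⟨U.quotient_finite_of_isOpen hU, fun q => ?_⟩
  obtain ⟨g, rfl⟩ := QuotientGroup.mk_surjective q
  obtain ⟨k, hk⟩ := h U inferInstance hU g
  exact ⟨k, by rw [← QuotientGroup.mk_pow, QuotientGroup.eq_one_iff]; exact hk⟩

theorem IsProL.inter (h : IsProL l G) (g : G) (hg : ∀ d, g ∈ lcs G d) : g = 1 := by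
  refine Subgroup.mem_bot.1 (mem_of_open (by simp) fun U hn hU => ⟨g, ?_, 1, one_mem _, by simp⟩)
  obtain ⟨h1, h2⟩ := mgwitt_quot h hU
  obtain ⟨n, hn⟩ := Subgroup.nilpotent_iff_lowerCentralSeries.1 h2.isNilpotent
  have key : ∀ d, ∀ g ∈ lcs G (d + 1),
      g ∈ ((⊤ : Subgroup (G ⧸ U)).lowerCentralSeries d).comap (QuotientGroup.mk' U) := by
    intro d
    induction d with
    | zero => exact fun g _ => Subgroup.mem_top _
    | succ d ih =>
      refine lcs_ind (Nat.succ_pos d) (Subgroup.isClosed_of_isOpen (((⊤ : Subgroup (G ⧸ U)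
        ).lowerCentralSeries (d + 1)).comap (QuotientGroup.mk' U)) (Subgroup.isOpen_mono
        (fun u hu => ?_) hU)) (one_mem _) (fun a _ b _ => mul_mem) (fun a _ => inv_mem)
        fun g u hu => ?_
      · rw [Subgroup.mem_comap, QuotientGroup.mk'_apply, (QuotientGroup.eq_one_iff u).2 hu]
        exact one_mem _
      · rw [Subgroup.mem_comap, Subgroup.lowerCentralSeries_succ, Subgroup.commutator_comm]
        simp only [map_mul, map_inv]
        exact Subgroup.commutator_mem_commutator (Subgroup.mem_top _) (ih u hu)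
  have := key n g (hg _)
  rwa [hn, Subgroup.mem_comap, Subgroup.mem_bot, QuotientGroup.mk'_apply,
    QuotientGroup.eq_one_iff] at this

theorem IsProL.mem_of_pow (h : IsProL l G) {N : Subgroup G} (hN : IsClosed (N : Set G)) {g : G}
    (hg : ∀ k, ∃ u, ∃ v ∈ N, g = u ^ l ^ k * v) : g ∈ N := by
  refine mem_of_open hN fun U hn hU => ?_
  obtain ⟨h1, h2⟩ := mgwitt_quot h hU
  obtain ⟨k, hk⟩ := h2.exists_card_eq
  obtain ⟨u, v, hv, e⟩ := hg k
  refine ⟨_, ?_, v, hv, e⟩
  rw [← QuotientGroup.eq_one_iff, QuotientGroup.mk_pow, ← hk, pow_card_eq_one']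

theorem exists_mag [Finite ι] {x : ι → G} (hx : IsFreePro l x) : ∃ M : Mag l G ι, M.x = x := by
  obtain ⟨C⟩ := exists_coef hx
  obtain ⟨S, hS⟩ := C.exists_sys
  refine ⟨⟨S, x, hS, hx.gen, fun {d g} hd hg h0 => ?_, hx.pro.inter⟩, rfl⟩
  have key : ∀ k, ∃ u ∈ lcs G d, S.L d u = 0 ∧ ∃ v ∈ lcs G (d + 1), g = u ^ l ^ k * v := by
    intro k
    induction k with
    | zero => exact ⟨g, hg, h0, 1, one_mem _, by simp⟩
    | succ k ih =>
      obtain ⟨u, hu, h1, v, hv, e⟩ := ih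
      obtain ⟨u', hu', v', hv', e'⟩ := pow_of_L_eq_zero hx.gen S hS hd hu h1
      refine ⟨u', hu', ?_, (u' ^ l ^ (k + 1))⁻¹ * g, ?_, by simp⟩
      · rw [e', S.mul hd (pow_mem hu' l) (lcs_anti d.le_succ hv'), S.zero hd hv', add_zero,
          S.L_pow hd hu', ← Nat.cast_smul_eq_nsmul ℤ_[l]] at h1
        exact S.sep.smul_eq_zero (Nat.cast_ne_zero.2 (Fact.out : l.Prime).ne_zero) h1
      · rw [← QuotientGroup.eq, e, e']
        simp only [QuotientGroup.mk_mul, QuotientGroup.mk_pow, (QuotientGroup.eq_one_iff _).2 hv,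
          (QuotientGroup.eq_one_iff _).2 hv', mul_one, ← pow_mul, pow_succ']
  refine hx.pro.mem_of_pow (lcs_closed _) fun k => ?_
  obtain ⟨u, -, -, v, hv, e⟩ := key k
  exact ⟨u, v, hv, e⟩

end Pool.Agent.Lib.MP_446a91_nt.Gal
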