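import Pool.Agent.Lib.MP_446a91_nt.Gal.MgDer
import Pool.Agent.Lib.MP_446a91_nt.Gal.MgWitt
import Pool.Agent.Lib.MP_446a91_nt.Gal.MgPad

/-! Three rigidity statements for free pro-`l` groups (MP_446a91_nt). -/

namespace Pool.Agent.Lib.MP_446a91_nt.Gal

section raw
variable {l : ℕ} [Fact l.Prime] {G ι : Type} [Group G] [TopologicalSpace G] [IsTopologicalGroup G]
  [CompactSpace G] [T2Space G] [TotallyDisconnectedSpace G] [Fintype ι] [DecidableEq ι]
  {x : ι → G} {κ : ι → G → ℤ_[l]}

/-- G block, weight argument. -/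
theorem gr_weight (hx : IsFreePro l x) (hκ : ∀ c, IsChar (κ c))
    (hv : ∀ c d, κ c (x d) = if c = d then 1 else 0) (α γ : MulAut G) (hα : Continuous α)
    (hγ : Continuous γ) {b : ℕ} (hb : 2 ≤ b) (h1 : γ * α * γ⁻¹ = α ^ b)
    (h2 : ∀ c g, κ c (γ g) = b * κ c g)
    (h3 : ∀ c, ∃ φ, (∀ d, κ d φ = 0 ∨ d = c) ∧ α (x c) = φ⁻¹ * x c * φ) : α = 1 := by
  obtain ⟨M, rfl⟩ := exists_mag hx
  have hc : ∀ n : ℕ, Continuous (α ^ n : MulAut G) := fun n => by
    induction n with
    | zero => exact continuous_id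
    | succ n ih => rw [pow_succ']; exact hα.comp ih
  have hD : ∀ {d}, 1 ≤ d → Lev α d → ∀ n : ℕ, M.D (α ^ n : MulAut G) d = n • M.D α d :=
    fun hd h n => by
      induction n with
      | zero => rw [pow_zero, zero_smul, M.D_zero (lev_one _)]
      | succ n ih => rw [pow_succ', M.D_mul hα hd h (h.pow n), ih, succ_nsmul']
  have hs : ∀ g, M.L 1 (γ g) = (b : ℤ_[l]) • M.L 1 g := fun g => by
    simp only [M.L_one_char hκ hv, h2, Finset.smul_sum, smul_smul]
  have k : ∀ d, Lev α (d + 2) := fun d => by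
    induction d with
    | zero =>
      refine M.lev_succ α hα (lev_of_gens M.dense α hα fun i => ?_) fun i => ?_
      · obtain ⟨φ, -, e⟩ := h3 i
        simpa only [inv_inv, e] using comm_mem (mem_lcs_one φ⁻¹) (mem_lcs_one (M.x i))
      · obtain ⟨φ, h0, e⟩ := h3 i
        rw [M.D_lt, e, M.L_conj_div le_rfl le_rfl (mem_lcs_one φ) (mem_lcs_one _), M.L_x,
          M.L_one_char hκ hv, Finset.sum_eq_single i
            (fun j _ hj => by rw [(h0 j).resolve_right hj, zero_smul]) (by simp), cm,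
          mul_smul_comm, smul_mul_assoc, sub_self]
    | succ d ih =>
      refine M.lev_succ α hα ih fun i => ?_
      have e : γ (α (M.x i) * (M.x i)⁻¹) = (α ^ b : MulAut G) (γ (M.x i)) * (γ (M.x i))⁻¹ := by
        rw [← h1]
        simp
      have e1 := M.scale γ hγ hs (by omega) (ih (M.x i))
      rw [e, M.L_lev (α ^ b) (hc b) (by omega) (ih.pow b) le_rfl (mem_lcs_one _),
        hD (by omega) ih, hs, M.L_x, ← M.D_lt, map_smul, LinearMap.smul_apply,
        ← Nat.cast_smul_eq_nsmul ℤ_[l], smul_smul, ← sub_eq_zero, ← sub_smul] at e1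
      refine M.sep.smul_eq_zero (sub_ne_zero.2 ?_) e1
      rw [← sq]
      exact_mod_cast (Nat.pow_lt_pow_right hb (by omega)).ne
  exact MulEquiv.ext (M.faith.eq_of_lev fun d => (k d).mono (by omega))

/-- G block, a group without `ℤ / l` quotients acts trivially. -/
theorem gr_perfect (hx : IsFreePro l x) (hκ : ∀ c, IsChar (κ c))
    (hv : ∀ c d, κ c (x d) = if c = d then 1 else 0) {W : Type} [Group W] [TopologicalSpace W]
    [IsTopologicalGroup W]
    (hW : ∀ χ : W →* Multiplicative (ZMod l), IsOpen (χ.ker : Set W) → χ = 1)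
    (ρ : W →* MulAut G) (h1 : ∀ w, Continuous (ρ w)) (h2 : ∀ g, Continuous fun w => ρ w g)
    (h3 : ∀ c w g, κ c (ρ w g) = κ c g) : ρ = 1 := by
  obtain ⟨M, rfl⟩ := exists_mag hx
  have k : ∀ d w, Lev (ρ w) (d + 1) := fun d => by
    induction d with
    | zero => exact fun w => M.lev_one_of_char hκ hv fun c => h3 c w
    | succ d ih =>
      refine fun w => M.lev_succ (ρ w) (h1 w) (ih w) fun i => M.sep _ fun f =>
        char_eq_zero hW (κ := fun w => f (M.D (ρ w) (d + 1) (lt i))) ⟨?_, fun u v => ?_⟩ w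
      · simp only [M.D_lt]
        exact (M.cont _ f).comp ((h2 _).mul continuous_const)
      · rw [map_mul, M.D_mul (h1 u) (by omega) (ih u) (ih v), LinearMap.add_apply, map_add]
  exact MonoidHom.ext fun w => MulEquiv.ext (M.faith.eq_of_lev fun d => (k d w).mono d.le_succ)

/-- G block, trivial centraliser of two independent elements. -/
theorem gr_central (hx : IsFreePro l x) (hκ : ∀ c, IsChar (κ c))
    (hv : ∀ c d, κ c (x d) = if c = d then 1 else 0) {c d : ι} (hcd : c ≠ d) {g h k : G}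
    (hg : ∀ e, κ e g = if e = c then 1 else 0) (hh : ∀ e, κ e h = if e = d then 1 else 0)
    (h1 : Commute k g) (h2 : Commute k h) : k = 1 := by
  obtain ⟨M, rfl⟩ := exists_mag hx
  have e1 : M.L 1 g = lt c := by simp [M.L_one_char hκ hv, hg]
  have e2 : M.L 1 h = lt d := by simp [M.L_one_char hκ hv, hh]
  have k1 : ∀ n, k ∈ lcs G (n + 1) := fun n => by
    induction n with
    | zero => exact mem_lcs_one k
    | succ n ih =>
      have hn : 1 ≤ n + 1 := by omega
      exact M.faith.ker hn ih (cen_both (M.L_memLS hn ih) hcd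
        (e1 ▸ M.cm_eq_zero le_rfl hn (mem_lcs_one g) ih h1.symm)
        (e2 ▸ M.cm_eq_zero le_rfl hn (mem_lcs_one h) ih h2.symm))
  exact M.faith.inter k fun n => lcs_anti n.le_succ (k1 n)

end raw

end Pool.Agent.Lib.MP_446a91_nt.Gal
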