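import Pool.Agent.Lib.MP_446a91_nt.Gal.FNB
import Pool.Agent.Lib.MP_446a91_nt.Gal.MgRaw

/-! Good reduction by weights (MP_446a91_nt, paper A8). -/

namespace Pool.Agent.Lib.MP_446a91_nt.Gal

section general
variable {l : ℕ} [Fact l.Prime] {k : Type} [Field k] [IsAlgClosed k] [CharZero k] {z : ℕ → k}
  {S : Set k}

/-- The Kummer character of `t - b` on the lift of `σ` at the base point `a`. -/
theorem fgood_kum (hz : IsRoots l z) (σ : k ≃+* k) (hσ : ∀ n, σ (z n) = z n) {a b : k}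
    (hb : b ∈ S) (hab : σ (a - b) = a - b) (h0 : a ≠ b → IsKum z σ (a - b) (0 : ℤ_[l]))
    (j : maxExt l k S →+* HS l k) (hj : Over (RingHom.id k) (HahnSeries.C a + ww l k) j)
    (s : maxExt l k S ≃+* maxExt l k S) (hs : ∀ x, j (s x) = cact l k σ (j x)) :
    IsKum (fun n => algebraMap (RatFunc k) (maxExt l k S) (RatFunc.C (z n))) s
      (algebraMap (RatFunc k) (maxExt l k S) (RatFunc.X - RatFunc.C b)) (0 : ℤ_[l]) := by
  refine IsKum.of_map j (g' := cact l k σ) hs ?_
  have hne := (map_ne_zero j).2 (allRoots_lin (l := l) hb).1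
  simp only [hj.1, RingHom.id_apply]
  rw [ffreea_lin hj] at hne ⊢
  refine kum_cact hz σ hne (by rw [map_add, map_mul, cact_C, cact_C, cact_ww, hab, map_one]) ?_
  by_cases h : a = b
  · rw [h, sub_self, map_zero, map_one, zero_add, one_mul, lc_ww]
    refine IsKum.of_fix hz fun n r hr => ?_
    have : NeZero (l ^ n) := ⟨pow_ne_zero _ (Fact.out : l.Prime).ne_zero⟩
    obtain ⟨i, -, rfl⟩ := (hz.prim n).eq_pow_of_pow_eq_one hr
    rw [map_pow, hσ n]
  · rw [(order_C_add (sub_ne_zero.2 h) 1).2]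
    exact h0 h

theorem fgood_iskum (hz : IsRoots l z) {b : k} (hb : b ∈ S) (g : Pi1 l k S) :
    IsKum (fun n => algebraMap (RatFunc k) (maxExt l k S) (RatFunc.C (z n))) g.toRingEquiv
      (algebraMap (RatFunc k) (maxExt l k S) (RatFunc.X - RatFunc.C b)) (kl l z S b g) :=
  isKum_kum (ffreea_roots hz S) (allRoots_lin hb) (g.commutes _) fun _ => g.commutes _

omit [IsAlgClosed k] [CharZero k] in
/-- The lift of `σ` at a base point raises the monodromy to the power `b`. -/
theorem fgood_conj (hz : IsRoots l z) (σ : k ≃+* k) {b : ℕ} (hσ : ∀ n, σ (z n) = z n ^ b)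
    {E : Type} [Field E] (j : E →+* HS l k) (s g : E ≃+* E) (hs : ∀ x, j (s x) = cact l k σ (j x))
    (hg : ∀ x, j (g x) = tau hz (j x)) : s * g = g ^ b * s := by
  have h1 : ∀ (n : ℕ) x, j ((g ^ n) x) = (tau hz ^ n) (j x) := fun n => by
    induction n with
    | zero => exact fun x => rfl
    | succ n ih => exact fun x => by rw [pow_succ', pow_succ', RingAut.mul_apply, hg, ih]; rfl
  refine RingEquiv.ext fun x => j.injective ?_
  rw [RingAut.mul_apply, RingAut.mul_apply, hs, hg, h1, hs]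
  exact DFunLike.congr_fun (cact_tau hz σ hσ) (j x)

/-- Automorphisms of an intermediate field extend to the algebraic closure. -/
theorem fgood_ext {F Ω : Type} [Field F] [Field Ω] [Algebra F Ω] [IsAlgClosure F Ω]
    (L : IntermediateField F Ω) (s : L ≃+* L) : ∃ s' : Ω ≃+* Ω, ∀ x : L, s' x = s x := by
  have : IsAlgClosed Ω := IsAlgClosure.isAlgClosed F
  have : IsAlgClosure L Ω := ⟨inferInstance, inferInstance⟩
  exact ⟨IsAlgClosure.equivOfEquiv Ω Ω s, fun x => IsAlgClosure.equivOfEquiv_algebraMap Ω Ω s x⟩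

/-- Restriction of scalars. -/
theorem fgood_res {F Ω : Type} [Field F] [Field Ω] [Algebra F Ω] [Algebra.IsAlgebraic F Ω]
    (L : IntermediateField F Ω) : ∃ r : (Ω ≃ₐ[L] Ω) →* (Ω ≃ₐ[F] Ω), Continuous r ∧
      ∀ h : Ω ≃ₐ[F] Ω, (∀ c ∈ L, h c = c) → h ∈ r.range := by
  refine ⟨MonoidHom.mk' (fun w => w.restrictScalars F) fun _ _ => rfl,
    (continuous_gal _).2 fun x => (continuous_gal (F := L) id).1 continuous_id x, fun h hh => ?_⟩
  exact ⟨AlgEquiv.ofRingEquiv (f := h.toRingEquiv) fun c => hh c c.2, rfl⟩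

theorem fgood_pow {F E : Type} [Field F] [Field E] [Algebra F E] (g : E ≃ₐ[F] E) (n : ℕ) (x : E) :
    (g.toRingEquiv ^ n) x = (g ^ n) x := by
  induction n generalizing x with
  | zero => rfl
  | succ n ih => rw [pow_succ, pow_succ, RingAut.mul_apply, AlgEquiv.mul_apply, ih]; rfl

end general

variable {l : ℕ} [Fact l.Prime] {z : ℕ → Qb}

theorem fgood_pt (h : Kb ≃+* Kb) (hs : h sK = sK) (c : Fin 3) : h (ptN c) = ptN c := by
  fin_cases c
  · exact map_zero h
  · exact hs
  · exact map_one h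

theorem fgood_inj (D : NData l) : Function.Injective D.i := fun a b h =>
  AlgEquiv.ext fun x => by rw [← D.i_spec, ← D.i_spec, h]

theorem fgood_secC (D : NData l) (h : GK) (c : Kb) :
    D.sec h (algebraMap (RatFunc Kb) (NN l) (RatFunc.C c)) =
      algebraMap (RatFunc Kb) (NN l) (RatFunc.C (h c)) := by
  have := D.res_spec (D.sec h) c
  rwa [D.res_sec] at this

theorem fgood_secX (D : NData l) (h : GK) :
    D.sec h (algebraMap (RatFunc Kb) (NN l) RatFunc.X) =
      algebraMap (RatFunc Kb) (NN l) RatFunc.X := by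
  have := (D.sec h).commutes RatFunc.X
  rwa [algFX_apply, toKb_X] at this

theorem fgood_diff (hz : IsRoots l z) (h : GK)
    (h0 : IsKum (zK z) h.toRingEquiv sK (0 : ℤ_[l]))
    (h1 : IsKum (zK z) h.toRingEquiv (1 - sK) (0 : ℤ_[l])) (c d : Fin 3) (hcd : ptN c ≠ ptN d) :
    IsKum (zK z) h.toRingEquiv (ptN c - ptN d) (0 : ℤ_[l]) := by
  have hc : ∀ a : Qb, IsKum (zK z) h.toRingEquiv (cK a) (0 : ℤ_[l]) :=
    isKum_const cK hz fun c => h.commutes _
  have hn : ∀ v, IsKum (zK z) h.toRingEquiv v (0 : ℤ_[l]) →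
      IsKum (zK z) h.toRingEquiv (-v) (0 : ℤ_[l]) := fun v hv => by
    have := IsKum.mul (isRoots_zK hz) (allRoots_const (l := l) cK (c := -1) (by simp)) (hc (-1)) hv
    rwa [map_neg, map_one, neg_one_mul, add_zero] at this
  have h2 : IsKum (zK z) h.toRingEquiv 1 (0 : ℤ_[l]) := by simpa using hc 1
  fin_cases c <;> fin_cases d
  · exact absurd rfl hcd
  · simpa [ptN] using hn _ h0
  · simpa [ptN] using hn _ h2
  · simpa [ptN] using h0
  · exact absurd rfl hcd
  · simpa [ptN] using hn _ h1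
  · simpa [ptN] using h2
  · simpa [ptN] using h1
  · exact absurd rfl hcd

/-- The lift of `h` at the base point `t = ptN c` (`exists_sec_one` for the embedding of `IsMon`)
commutes with `x` and differs from `D.sec h` by `φ ∈ Φ`; the leading coefficients of `t - ptN d`
at `t = ptN c` and at `t = 0` are `1` or `± s, ± (1 - s), ± 1`. -/
theorem good_level (hz : IsRoots l z) (D : NData l) (h : GK)
    (h0 : IsKum (zK z) h.toRingEquiv sK (0 : ℤ_[l]))
    (h1 : IsKum (zK z) h.toRingEquiv (1 - sK) (0 : ℤ_[l])) (c : Fin 3) {x : PhiN l}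
    (hx : IsMon (isRoots_zK hz) _ (ptN c) x) : ∃ φ : PhiN l,
      (∀ d, kl l (zK z) _ (ptN d) φ = 0) ∧
      D.sec h * D.i x * (D.sec h)⁻¹ = D.i (φ⁻¹ * x * φ) := by
  obtain ⟨j, hj, e⟩ := hx
  have hK := isRoots_zK hz
  have hs : h.toRingEquiv sK = sK := h.commutes _
  have hzz : ∀ n, h.toRingEquiv (zK z n) = zK z n := fun n => h.commutes _
  have hp := fgood_pt h.toRingEquiv hs
  obtain ⟨s, s1, s2, s3⟩ := exists_sec_one (l := l) h.toRingEquiv (ptN_mem _ hs)
    (by rw [map_add, cact_C, cact_ww, hp]) j hj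
  obtain ⟨ψ, hψ⟩ := exists_gal_of_fix (k := Kb) ((D.sec h).toRingEquiv * s⁻¹)
    (fun c => by
      have e : s⁻¹ (algebraMap (RatFunc Kb) (NN l) (RatFunc.C c)) =
          algebraMap (RatFunc Kb) (NN l) (RatFunc.C (h.symm c)) :=
        s.symm_apply_eq.2 (by rw [s2]; exact congrArg _ (congrArg _ (h.apply_symm_apply c).symm))
      rw [RingAut.mul_apply, e]
      exact (fgood_secC D h _).trans (by rw [h.apply_symm_apply]))
    (by
      have e : s⁻¹ (algebraMap (RatFunc Kb) (NN l) RatFunc.X) =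
          algebraMap (RatFunc Kb) (NN l) RatFunc.X := s.symm_apply_eq.2 s3.symm
      rw [RingAut.mul_apply, e]
      exact fgood_secX D h)
  have hc := fgood_conj hK h.toRingEquiv (b := 1) (fun n => by rw [pow_one, hzz]) j s
    x.toRingEquiv s1 e
  rw [pow_one] at hc
  refine ⟨ψ⁻¹, fun d => ?_, ?_⟩
  · have k1 := fgood_kum hK h.toRingEquiv hzz (Set.mem_range_self d) (by rw [map_sub, hp, hp])
      (fgood_diff hz h h0 h1 c d) j hj s s1
    have k2 := fgood_kum hK h.toRingEquiv hzz (a := ptN 0) (Set.mem_range_self d)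
      (by rw [map_sub, hp, hp]) (fgood_diff hz h h0 h1 0 d) D.j
      (by rw [show ptN 0 = 0 from rfl, map_zero, zero_add]; exact D.ov) (D.sec h).toRingEquiv
      (D.sec_spec h)
    have hN := ffreea_roots hK (Set.range ptN)
    have k3 := IsKum.comp hN (fun n => (fgood_secC D h _).trans (congrArg _ (congrArg _ (hzz n))))
      k2 (k1.inv hN fun n => by rw [s2, hzz])
    rw [← hψ] at k3
    have k4 := k3.inv hN fun n => ψ.commutes _
    rw [neg_zero, add_zero, neg_zero] at k4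
    exact k4.kum_eq hN (allRoots_lin (Set.mem_range_self d))
  · rw [inv_inv, mul_inv_eq_iff_eq_mul]
    refine AlgEquiv.ext fun y => ?_
    have e1 : ∀ y, ψ (s y) = D.sec h y := fun y =>
      (DFunLike.congr_fun hψ (s y)).trans (congrArg (D.sec h) (s.symm_apply_apply y))
    rw [AlgEquiv.mul_apply, AlgEquiv.mul_apply, D.i_spec, D.i_spec, ← e1, ← e1,
      AlgEquiv.mul_apply, AlgEquiv.mul_apply]
    exact congrArg ψ ((DFunLike.congr_fun hc y).trans
      (congrArg x (ψ.symm_apply_apply (s y)).symm))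

theorem fgood_comm (D : NData l) {ρ : GK →* MulAut (PhiN l)}
    (hρ : ∀ h φ, D.i (ρ h φ) = D.sec h * D.i φ * (D.sec h)⁻¹) (h : GK) :
    ρ h = 1 ↔ ∀ φ, Commute (D.sec h) (D.i φ) := by
  refine ⟨fun e φ => ?_, fun e => MulEquiv.ext fun φ => fgood_inj D ?_⟩
  · have := hρ h φ
    rw [e, eq_mul_inv_iff_mul_eq] at this
    exact this.symm
  · rw [hρ, (e φ).eq, mul_inv_cancel_right]; rfl

/-- `gr_perfect` with `no_char_univ`. -/
theorem good_univ (hz : IsRoots l z) (D : NData l) (h : GK)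
    (hh : ∀ c ∈ maxExt l Qb Set.univ, h c = c) (φ : PhiN l) : Commute (D.sec h) (D.i φ) := by
  have := (maxExt_gal l (Set.range ptN)).1
  obtain ⟨xs, x1, -, x3⟩ := exists_xs hz
  obtain ⟨ρ, r1, r2, r3, r4⟩ := exists_rho hz D
  obtain ⟨r, hr, hr'⟩ := fgood_res (maxExt l Qb Set.univ)
  obtain ⟨w, rfl⟩ := hr' h hh
  have key := gr_perfect x1 (fun c => isChar_kl (isRoots_zK hz) (Set.mem_range_self c)) x3
    no_char_univ (ρ.comp r) (fun w => r2 _) (fun g => (r3 g).comp hr) fun c w g => r4 c _ g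
  exact (fgood_comm D r1 _).1 (DFunLike.congr_fun key w) φ

end Pool.Agent.Lib.MP_446a91_nt.Gal
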