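import Pool.Agent.Lib.MP_446a91_nt.Gal.FDefs

/-! Hahn series: roots, monodromy, coefficient action (MP_446a91_nt). -/

namespace Pool.Agent.Lib.MP_446a91_nt.Gal

variable {l : ℕ} [Fact l.Prime] {k : Type} [Field k] {z : ℕ → k}

theorem fhahna_bin [CharZero k] (q : ℚ) (n : ℕ) :
    PowerSeries.binomialSeries k q ^ n = PowerSeries.binomialSeries k ((n : ℚ) * q) := by
  induction n with
  | zero => rw [pow_zero, Nat.cast_zero, zero_mul, PowerSeries.binomialSeries_zero]
  | succ n ih => rw [pow_succ, ih, Nat.cast_succ, add_one_mul, PowerSeries.binomialSeries_add]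

omit [Fact l.Prime] in
theorem fhahna_iZ : iZ l 0 = 0 := Subtype.ext Int.cast_zero

omit [Fact l.Prime] in
theorem fhahna_order {F G : HS l k} (h : ∀ r, G.coeff r = 0 ↔ F.coeff r = 0) :
    G.order = F.order := by
  by_cases hF : F = 0
  · rw [HahnSeries.coeff_order_eq_zero.1 ((h _).2 (by rw [hF, HahnSeries.coeff_zero])), hF]
  have hG : G ≠ 0 := fun hG => hF (HahnSeries.coeff_order_eq_zero.1 ((h _).1 (by
    rw [hG, HahnSeries.coeff_zero])))
  exact le_antisymm
    (HahnSeries.order_le_of_coeff_ne_zero (mt (h _).1 (mt HahnSeries.coeff_order_eq_zero.1 hF)))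
    (HahnSeries.order_le_of_coeff_ne_zero (mt (h _).2 (mt HahnSeries.coeff_order_eq_zero.1 hG)))

omit [Fact l.Prime] in
theorem fhahna_lc (r : HS l k) (n : ℕ) : (r ^ n).leadingCoeff = r.leadingCoeff ^ n := by
  induction n with
  | zero => rw [pow_zero, pow_zero, HahnSeries.leadingCoeff_one]
  | succ n ih => rw [pow_succ, pow_succ, HahnSeries.leadingCoeff_mul, ih]

/-- Leading monomial times a one-unit; `HahnSeries.Binomial` (`pow_add` with exponent `1 / l`) or
`PowerSeries.binomialSeries` with `HahnSeries.SummableFamily.heval`. -/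
theorem hs_root [IsAlgClosed k] [CharZero k] (F : HS l k) : ∃ r : HS l k, r ^ l = F := by
  have hl : l ≠ 0 := (Fact.out : l.Prime).ne_zero
  have hl' : (l : ℚ) ≠ 0 := Nat.cast_ne_zero.2 hl
  by_cases hF : F = 0
  · exact ⟨0, by rw [hF, zero_pow hl]⟩
  have hc := HahnSeries.leadingCoeff_ne_zero.2 hF
  obtain ⟨n, a, ha⟩ := F.order.2
  obtain ⟨γ, hγ⟩ : ∃ γ : Zl l, l • γ = -F.order :=
    ⟨-⟨(F.order : ℚ) / l, n + 1, a, by rw [← ha, pow_succ]; field_simp⟩, Subtype.ext (by
      simp only [smul_neg, AddSubgroup.coe_neg, AddSubgroupClass.coe_nsmul, nsmul_eq_mul]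
      rw [mul_div_cancel₀ _ hl'])⟩
  obtain ⟨d, hd⟩ := IsAlgClosed.exists_pow_nat_eq F.leadingCoeff⁻¹ (Nat.pos_of_ne_zero hl)
  have hm : (HahnSeries.single γ d : HS l k) ^ l = HahnSeries.single (-F.order) F.leadingCoeff⁻¹ := by
    rw [HahnSeries.single_pow, hγ, hd]
  have h0 : (HahnSeries.single (-F.order) F.leadingCoeff⁻¹ : HS l k) ≠ 0 :=
    HahnSeries.single_ne_zero (inv_ne_zero hc)
  have hx : 0 < (HahnSeries.single (-F.order) F.leadingCoeff⁻¹ * F - 1 : HS l k).orderTop := by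
    rw [HahnSeries.orderTop_self_sub_one_pos_iff, HahnSeries.orderTop_mul,
      HahnSeries.leadingCoeff_mul, HahnSeries.orderTop_single (inv_ne_zero hc),
      HahnSeries.leadingCoeff_of_single, inv_mul_cancel₀ hc,
      ← HahnSeries.order_eq_orderTop_of_ne_zero hF, ← WithTop.coe_add, neg_add_cancel]
    exact ⟨rfl, rfl⟩
  refine ⟨PowerSeries.heval (HahnSeries.single (-F.order) F.leadingCoeff⁻¹ * F - 1)
    (PowerSeries.binomialSeries k (l : ℚ)⁻¹) / HahnSeries.single γ d, ?_⟩
  rw [div_pow, hm, ← map_pow, fhahna_bin, mul_inv_cancel₀ hl', ← Nat.cast_one (R := ℚ),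
    PowerSeries.binomialSeries_nat, pow_one, map_add, map_one, PowerSeries.heval_X _ hx,
    add_sub_cancel, mul_div_cancel_left₀ _ h0]

theorem hs_allRoots [IsAlgClosed k] [CharZero k] {F : HS l k} (hF : F ≠ 0) : AllRoots l F := by
  refine ⟨hF, fun n => ?_⟩
  induction n with
  | zero => exact ⟨F, by rw [pow_zero, pow_one]⟩
  | succ n ih =>
    obtain ⟨r, hr⟩ := ih
    obtain ⟨s, hs⟩ := hs_root r
    exact ⟨s, by rw [pow_succ', pow_mul, hs, hr]⟩

theorem hs_charZero [CharZero k] : CharZero (HS l k) :=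
  charZero_of_injective_ringHom (f := (HahnSeries.C : k →+* HS l k)) HahnSeries.C_injective

theorem IsRoots.map {E : Type} [Field E] (hz : IsRoots l z) (j : k →+* E) :
    IsRoots l fun n => j (z n) :=
  ⟨fun n => (hz.prim n).map_of_injective j.injective, fun n => by rw [← map_pow, hz.step]⟩

theorem eZ_eq_one (hz : IsRoots l z) (r : Zl l) : eZ z r = 1 ↔ ∃ a : ℤ, r = iZ l a := by
  have hl : (l : ℚ) ≠ 0 := Nat.cast_ne_zero.2 (Fact.out : l.Prime).ne_zero
  constructor
  · intro h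
    obtain ⟨n, a, ha⟩ := r.2
    rw [eZ_eq hz ha, (hz.prim n).zpow_eq_one_iff_dvd] at h
    obtain ⟨b, rfl⟩ := h
    refine ⟨b, Subtype.ext (mul_right_cancel₀ (pow_ne_zero n hl) (ha.trans ?_))⟩
    push_cast
    exact mul_comm _ _
  · rintro ⟨a, rfl⟩
    rw [eZ_eq hz (n := 0) (a := a) (by rw [pow_zero, mul_one]; rfl),
      (hz.prim 0).zpow_eq_one_iff_dvd, pow_zero]
    exact one_dvd a

theorem fhahna_single (hz : IsRoots l z) (r : Zl l) (c : k) :
    tau hz (HahnSeries.single r c) = HahnSeries.single r (eZ z r * c) := by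
  ext s
  rw [tau_coeff]
  by_cases h : s = r
  · rw [h, HahnSeries.coeff_single_same, HahnSeries.coeff_single_same]
  · rw [HahnSeries.coeff_single_of_ne h, HahnSeries.coeff_single_of_ne h, mul_zero]

theorem fhahna_const (hz : IsRoots l z) {r s : HS l k} {n : ℕ} (hr : r ≠ 0)
    (h : s ^ l ^ n = r ^ l ^ n) :
    s = HahnSeries.C (s.coeff r.order / r.leadingCoeff) * r := by
  have : NeZero (l ^ n) := ⟨pow_ne_zero _ (Fact.out : l.Prime).ne_zero⟩
  obtain ⟨i, -, hi⟩ := ((hz.map (HahnSeries.C : k →+* HS l k)).prim n).eq_pow_of_pow_eq_one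
    (ξ := s / r) (by rw [div_pow, h, div_self (pow_ne_zero _ hr)])
  rw [← map_pow, eq_div_iff hr] at hi
  rw [← hi, HahnSeries.C_apply, HahnSeries.coeff_single_zero_mul, ← HahnSeries.leadingCoeff_eq,
    mul_div_cancel_right₀ _ (HahnSeries.leadingCoeff_ne_zero.2 hr), HahnSeries.C_apply]

theorem tau_C (hz : IsRoots l z) (c : k) : tau hz (HahnSeries.C c) = HahnSeries.C c := by
  rw [HahnSeries.C_apply, fhahna_single, eZ_zero hz, one_mul]

theorem tau_ww (hz : IsRoots l z) : tau hz (ww l k) = ww l k := by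
  rw [ww, fhahna_single, (eZ_eq_one hz _).2 ⟨1, rfl⟩, one_mul]

theorem tau_order (hz : IsRoots l z) (F : HS l k) : (tau hz F).order = F.order :=
  fhahna_order fun r => by
    rw [tau_coeff, mul_eq_zero]
    exact or_iff_right (zpow_ne_zero _ (hz.ne_zero _))

theorem cact_C (g : k ≃+* k) (c : k) : cact l k g (HahnSeries.C c) = HahnSeries.C (g c) :=
  HahnSeries.map_C c (g : k →+* k)

theorem cact_ww (g : k ≃+* k) : cact l k g (ww l k) = ww l k := by
  ext s
  rw [cact_coeff, ww]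
  by_cases h : s = iZ l 1
  · rw [h, HahnSeries.coeff_single_same, map_one]
  · rw [HahnSeries.coeff_single_of_ne h, map_zero]

theorem cact_tau (hz : IsRoots l z) (g : k ≃+* k) {b : ℕ} (hg : ∀ n, g (z n) = z n ^ b) :
    cact l k g * tau hz = tau hz ^ b * cact l k g := by
  have h1 : ∀ (b : ℕ) (F : HS l k) (r : Zl l),
      ((tau hz ^ b) F).coeff r = eZ z r ^ b * F.coeff r := by
    intro b
    induction b with
    | zero => exact fun F r => by rw [pow_zero, pow_zero, one_mul]; rfl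
    | succ b ih =>
      intro F r
      rw [pow_succ, pow_succ, mul_assoc, ← tau_coeff hz, ← ih]
      rfl
  ext F r
  change g (eZ z r * F.coeff r) = ((tau hz ^ b) (cact l k g F)).coeff r
  obtain ⟨n, a, ha⟩ := r.2
  rw [h1, cact_coeff, map_mul, eZ_eq hz ha, map_zpow₀, hg, ← zpow_natCast, ← zpow_natCast,
    ← zpow_mul, ← zpow_mul, mul_comm (b : ℤ)]

/-- A fixed series has integer order. -/
theorem order_int (hz : IsRoots l z) {F : HS l k} (h : tau hz F = F) :
    ∃ a : ℤ, F.order = iZ l a := by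
  by_cases hF : F = 0
  · exact ⟨0, by rw [hF, HahnSeries.order_zero, fhahna_iZ]⟩
  have h1 := tau_coeff hz F F.order
  rw [h] at h1
  exact (eZ_eq_one hz _).1 (mul_right_cancel₀ (mt HahnSeries.coeff_order_eq_zero.1 hF)
    (h1.symm.trans (one_mul _).symm))

/-- `tau F - F` has coefficients `(e r - 1) c r`, so it is zero or its order is no integer. -/
theorem tau_fix (hz : IsRoots l z) {F : HS l k} (h : ∃ a : ℤ, (tau hz F - F).order = iZ l a) :
    tau hz F = F := by
  obtain ⟨a, ha⟩ := h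
  refine sub_eq_zero.1 (HahnSeries.coeff_order_eq_zero.1 ?_)
  rw [ha, HahnSeries.coeff_sub, tau_coeff, (eZ_eq_one hz _).2 ⟨a, rfl⟩, one_mul, sub_self]

/-- `tau r / r` is a root of unity, hence a constant; compare leading coefficients. -/
theorem tau_root (hz : IsRoots l z) {r : HS l k} {n : ℕ} (h : tau hz (r ^ l ^ n) = r ^ l ^ n) :
    tau hz r = HahnSeries.C (eZ z r.order) * r := by
  by_cases hr : r = 0
  · rw [hr, map_zero, mul_zero]
  have h1 := fhahna_const hz hr ((map_pow _ _ _).symm.trans h)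
  rwa [tau_coeff, ← HahnSeries.leadingCoeff_eq,
    mul_div_cancel_right₀ _ (HahnSeries.leadingCoeff_ne_zero.2 hr)] at h1

theorem kum_tau (hz : IsRoots l z) {F : HS l k} (hF : F ≠ 0) (h : tau hz F = F) {a : ℤ}
    (ha : F.order = iZ l a) : IsKum (fun n => HahnSeries.C (z n)) (tau hz) F (a : ℤ_[l]) := by
  intro n r hr
  have : NeZero (l ^ n) := ⟨pow_ne_zero _ (Fact.out : l.Prime).ne_zero⟩
  have _ := hF
  have h1 : (r.order : ℚ) * (l : ℚ) ^ n = a := by
    have h2 := congrArg Subtype.val ha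
    rw [← hr, HahnSeries.order_pow, AddSubgroupClass.coe_nsmul, nsmul_eq_mul, Nat.cast_pow,
      mul_comm] at h2
    exact h2
  rw [tau_root hz (hr.symm ▸ h), eZ_eq hz h1, ← map_pow, map_intCast, ← zpow_natCast,
    ZMod.val_intCast]
  conv_lhs => rw [← Int.emod_add_mul_ediv a (l ^ n : ℕ), zpow_add₀ (hz.ne_zero n), zpow_mul,
    zpow_natCast, (hz.prim n).pow_eq_one, one_zpow, mul_one]

theorem cact_root (hz : IsRoots l z) (g : k ≃+* k) {r : HS l k} {n : ℕ} (hr : r ≠ 0)
    (h : cact l k g (r ^ l ^ n) = r ^ l ^ n) :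
    cact l k g r = HahnSeries.C (g r.leadingCoeff / r.leadingCoeff) * r := by
  have h1 := fhahna_const hz hr ((map_pow _ _ _).symm.trans h)
  rwa [cact_coeff, ← HahnSeries.leadingCoeff_eq] at h1

theorem kum_cact (hz : IsRoots l z) (g : k ≃+* k) {F : HS l k} (hF : F ≠ 0)
    (h : cact l k g F = F) {a : ℤ_[l]} (ha : IsKum z g F.leadingCoeff a) :
    IsKum (fun n => HahnSeries.C (z n)) (cact l k g) F a := by
  intro n r hr
  have h0 : r ≠ 0 := fun h0 => hF (by
    rw [← hr, h0, zero_pow (pow_ne_zero _ (Fact.out : l.Prime).ne_zero)])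
  rw [cact_root hz g h0 (hr.symm ▸ h), ha n _ (by rw [← fhahna_lc, hr]),
    mul_div_cancel_right₀ _ (HahnSeries.leadingCoeff_ne_zero.2 h0), map_pow]

theorem ww_ne_zero : ww l k ≠ 0 := HahnSeries.single_ne_zero one_ne_zero

theorem order_ww : (ww l k).order = iZ l 1 := HahnSeries.order_single one_ne_zero

theorem lc_ww : (ww l k).leadingCoeff = 1 := HahnSeries.leadingCoeff_of_single

/-- Order and leading coefficient of `c + d w ^ 1` with `c ≠ 0`. -/
theorem order_C_add {c : k} (hc : c ≠ 0) (d : k) :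
    (HahnSeries.C c + HahnSeries.C d * ww l k).order = iZ l 0 ∧
      (HahnSeries.C c + HahnSeries.C d * ww l k).leadingCoeff = c := by
  have h0 : (HahnSeries.C c : HS l k).orderTop = (0 : Zl l) := HahnSeries.orderTop_single hc
  have h1 : (HahnSeries.C c : HS l k).orderTop < (HahnSeries.C d * ww l k).orderTop := by
    rw [h0, HahnSeries.C_apply, ww, HahnSeries.single_mul_single, zero_add]
    exact HahnSeries.lt_orderTop_single (Subtype.mk_lt_mk.2 (by norm_num))
  have h2 := (HahnSeries.leadingCoeff_add_eq_left h1).trans HahnSeries.leadingCoeff_of_single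
  refine ⟨WithTop.coe_injective ?_, h2⟩
  rw [HahnSeries.order_eq_orderTop_of_ne_zero (HahnSeries.leadingCoeff_ne_zero.1 (h2.symm ▸ hc)),
    HahnSeries.orderTop_add_eq_left h1, h0, fhahna_iZ]

end Pool.Agent.Lib.MP_446a91_nt.Gal
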