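import Pool.Agent.Lib.MP_446a91_nt.Gal.FDefs
import Pool.Agent.Lib.MP_446a91_nt.Gal.FHahnA

/-! Hahn series: roots, monodromy, coefficient action (MP_446a91_nt). -/

namespace Pool.Agent.Lib.MP_446a91_nt.Gal

variable {l : ℕ} [Fact l.Prime] {k : Type} [Field k] {z : ℕ → k}

section aux
open Polynomial
variable {K K' P : Type} [Field K] [Field K'] [Field P]

theorem fhahn_lift (ρ : K →+* P) {T : P} (h : ∀ q : K[X], q ≠ 0 → q.eval₂ ρ T ≠ 0) :
    ∃ j : RatFunc K →+* P, (∀ c, j (RatFunc.C c) = ρ c) ∧ j RatFunc.X = T :=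
  ⟨RatFunc.liftRingHom (eval₂RingHom ρ T) fun q hq =>
      mem_nonZeroDivisors_of_ne_zero (h q (nonZeroDivisors.ne_zero hq)),
    fun c => (RatFunc.liftRingHom_C _ _ c).trans (eval₂_C _ _),
    (RatFunc.liftRingHom_X _ _).trans (eval₂_X _ _)⟩

theorem fhahn_mem (j : RatFunc K →+* P) (A : Subfield P) (h1 : ∀ c, j (RatFunc.C c) ∈ A)
    (h2 : j RatFunc.X ∈ A) (x : RatFunc K) : j x ∈ A := by
  have h : ∀ p : K[X], j (algebraMap _ _ p) ∈ A := fun p => by
    induction p using Polynomial.induction_on with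
    | C c => exact h1 c
    | add p q hp hq => rw [map_add, map_add]; exact add_mem hp hq
    | monomial n c ih => rw [pow_succ, ← mul_assoc, map_mul, map_mul]; exact mul_mem ih h2
  induction x using RatFunc.induction_on with
  | f p q _ => rw [map_div₀]; exact div_mem (h p) (h q)

theorem fhahn_root [IsAlgClosed K] (ρ : K →+* P) {T : P} (hT : ∀ c, T ≠ ρ c) (q : K[X])
    (hq : q ≠ 0) : q.eval₂ ρ T ≠ 0 := fun h => by
  obtain ⟨c, hc⟩ := (IsAlgClosed.splits q).mem_range_of_isRoot hq (i := ρ) (x := T)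
    ((eval_map ρ T).trans h)
  exact hT c hc.symm

variable [Algebra K P]

/-- The elements that are algebraic over the ring generated by `s`. -/
def fhahnCl (K : Type) [Field K] [Algebra K P] (s : Set P) : Subfield P where
  __ := (Subalgebra.algebraicClosure (Algebra.adjoin K s) P).toSubring
  inv_mem' _ h := IsAlgebraic.inv h

theorem fhahn_eq (s : Set P) : (AlgebraicIndependent.matroid K P).closure s = fhahnCl K s :=
  AlgebraicIndependent.matroid_closure_eq

theorem fhahn_adj {s : Set P} {x : P} (h : x ∈ Algebra.adjoin K s) : x ∈ fhahnCl K s :=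
  isAlgebraic_algebraMap (⟨x, h⟩ : Algebra.adjoin K s)

theorem fhahn_alg {s : Set P} (ρ : K' →+* P) (h : ∀ c, ρ c ∈ fhahnCl K s) {T : P} {q : K'[X]}
    (hq : q ≠ 0) (h0 : q.eval₂ ρ T = 0) : T ∈ fhahnCl K s := by
  have h1 : T ∈ fhahnCl K (fhahnCl K s : Set P) :=
    ⟨q.map (ρ.codRestrict (Algebra.adjoin K (fhahnCl K s : Set P)) fun c =>
      Algebra.subset_adjoin (h c)), map_ne_zero hq, by rw [aeval_def, eval₂_map]; exact h0⟩
  rwa [← SetLike.mem_coe, ← fhahn_eq, ← fhahn_eq, Matroid.closure_closure, fhahn_eq] at h1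

theorem fhahn_alg' {s : Set P} (ρ : K' →+* P) (h : ∀ c, algebraMap K P c ∈ ρ.range)
    (hs : ∀ x ∈ s, x ∈ ρ.range) {T : P} (hT : T ∈ fhahnCl K s) :
    ∃ q : K'[X], q ≠ 0 ∧ q.eval₂ ρ T = 0 := by
  obtain ⟨p, h1, h2⟩ := hT
  have h3 : Algebra.adjoin K s ≤ ⟨ρ.range.toSubsemiring, h⟩ := Algebra.adjoin_le hs
  obtain ⟨q, hq⟩ := (mem_lifts _).1 ((lifts_iff_coeff_lifts (f := ρ)
    (p.map (algebraMap (Algebra.adjoin K s) P))).2 fun n => by
      rw [coeff_map]
      exact h3 (p.coeff n).2)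
  refine ⟨q, fun g => (Polynomial.map_ne_zero_iff (f := algebraMap (Algebra.adjoin K s) P)
    Subtype.val_injective).2 h1 ?_, ?_⟩
  · exact hq.symm.trans (by rw [g, Polynomial.map_zero])
  · rw [← eval_map, hq, eval_map]
    exact h2

theorem fhahn_two {S T u w : P} (hu : u ∉ fhahnCl K (∅ : Set P)) (hw : w ∉ fhahnCl K {u})
    (h : ∀ A : Subfield P, (∀ c, algebraMap K P c ∈ A) → S ∈ A → T ∈ A → u ∈ A ∧ w ∈ A) :
    ∃ j : RatFunc (RatFunc K) →+* P, (∀ c, j (RatFunc.C (RatFunc.C c)) = algebraMap K P c) ∧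
      j (RatFunc.C RatFunc.X) = S ∧ j RatFunc.X = T := by
  have h0 : ∀ (s : Set P) c, algebraMap K P c ∈ fhahnCl K s := fun s c =>
    fhahn_adj (Subalgebra.algebraMap_mem _ c)
  have h1 : ∀ a : P, a ∈ fhahnCl K {a} := fun a => fhahn_adj (Algebra.subset_adjoin rfl)
  have h2 : ∀ a : P, S ∈ fhahnCl K {a} → T ∉ fhahnCl K {a} := fun a g1 g2 => by
    obtain ⟨g3, g4⟩ := h _ (h0 _) g1 g2
    have g5 := (AlgebraicIndependent.matroid K P).closure_insert_congr (e := u) (f := a) (X := ∅)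
      (by rw [insert_empty_eq, fhahn_eq, fhahn_eq]; exact ⟨g3, hu⟩)
    rw [insert_empty_eq, insert_empty_eq, fhahn_eq, fhahn_eq, SetLike.coe_set_eq] at g5
    exact hw (g5 ▸ g4)
  obtain ⟨j₁, a1, a2⟩ := fhahn_lift (algebraMap K P) (T := S) fun q hq g =>
    h2 T (fhahn_alg _ (h0 _) hq g) (h1 T)
  obtain ⟨j, b1, b2⟩ := fhahn_lift j₁ (T := T) fun q hq g => h2 S (h1 S)
    (fhahn_alg j₁ (fhahn_mem j₁ _ (fun c => a1 c ▸ h0 _ c) (a2 ▸ h1 _)) hq g)
  exact ⟨j, fun c => (b1 _).trans (a1 c), (b1 _).trans a2, b2⟩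

end aux

/-- A nonconstant series is transcendental over the (algebraically closed) constants, so
`t ↦ T` extends to the rational functions (`RatFunc.liftRingHom`). -/
theorem exists_over_base [IsAlgClosed k] {k₀ : Type} [Field k₀] (φ : k₀ →+* k) {T : HS l k}
    (hT : ∀ c : k, T ≠ HahnSeries.C c) : ∃ j : RatFunc k₀ →+* HS l k, Over φ T j := by
  obtain ⟨j, h⟩ := fhahn_lift (HahnSeries.C.comp φ : k₀ →+* HS l k) (T := T) fun q hq => by
    rw [← Polynomial.eval₂_map]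
    exact fhahn_root _ hT _ (Polynomial.map_ne_zero hq)
  exact ⟨j, h⟩

/-- Two variables: `u` transcendental over `φ k₀`, and `C u`, `w` lie in the field generated by
the constants and `S, T`; then `S, T` are algebraically independent (transcendence degree two). -/
theorem exists_two {k₀ : Type} [Field k₀] [IsAlgClosed k] (φ : RatFunc k₀ →+* k) {S T : HS l k}
    (h : ∀ A : Subfield (HS l k), (∀ c : k₀, HahnSeries.C (φ (RatFunc.C c)) ∈ A) → S ∈ A → T ∈ A →
      HahnSeries.C (φ RatFunc.X) ∈ A ∧ ww l k ∈ A) :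
    ∃ j : RatFunc (RatFunc k₀) →+* HS l k,
      (∀ c : k₀, j (RatFunc.C (RatFunc.C c)) = HahnSeries.C (φ (RatFunc.C c))) ∧
      j (RatFunc.C RatFunc.X) = S ∧ j RatFunc.X = T := by
  let _ : Algebra k₀ (HS l k) := ((HahnSeries.C.comp φ).comp RatFunc.C).toAlgebra
  refine fhahn_two (fun g => ?_) (fun g => ?_) h
  · obtain ⟨q, h1, h2⟩ := fhahn_alg' (algebraMap k₀ (HS l k)) (fun c => ⟨c, rfl⟩)
      (fun x hx => hx.elim) g
    have h3 := Polynomial.hom_eval₂ q RatFunc.C (HahnSeries.C.comp φ : RatFunc k₀ →+* HS l k)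
      RatFunc.X
    refine RatFunc.transcendental_X ⟨q, h1, ?_⟩
    exact (map_eq_zero _).1 (h3.trans h2)
  · obtain ⟨q, h1, h2⟩ := fhahn_alg' HahnSeries.C (fun c => ⟨_, rfl⟩)
      (fun x hx => ⟨_, hx.symm⟩) g
    refine fhahn_root _ (fun c hc => ?_) q h1 h2
    have h3 := order_ww (l := l) (k := k)
    rw [hc, HahnSeries.order_C] at h3
    simpa [iZ] using congrArg Subtype.val h3

/-- Ring maps out of `k₀(t)` are determined by the constants and `t`. -/
theorem ratFunc_ext {k₀ P : Type} [Field k₀] [Field P] {j j' : RatFunc k₀ →+* P}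
    (h1 : ∀ c, j (RatFunc.C c) = j' (RatFunc.C c)) (h2 : j RatFunc.X = j' RatFunc.X) : j = j' :=
  RingHom.ext (fhahn_mem (RingHom.id _) (j.eqLocusField j') h1 h2)

end Pool.Agent.Lib.MP_446a91_nt.Gal
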