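import Pool.Agent.Lib.MP_446a91_nt.Gal.FXDefs
import Pool.Agent.Lib.MP_446a91_nt.Gal.FFree

/-! The fibre `ℙ¹ ∖ {0, s, 1, ∞}` over the algebraic closure of `ℚ̄(s)` (MP_446a91_nt, A8). -/

namespace Pool.Agent.Lib.MP_446a91_nt.Gal

noncomputable section

variable {l : ℕ} [Fact l.Prime] {z : ℕ → Qb}

/-- The three finite punctures. -/
def ptN : Fin 3 → Kb := ![0, sK, 1]

abbrev NN (l : ℕ) : Type := maxExt l Kb (Set.range ptN)

theorem toKb_trans (p : Polynomial (RatFunc Qb)) (hp : p ≠ 0) :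
    p.eval₂ ((RatFunc.C : Kb →+* RatFunc Kb).comp (algebraMap (RatFunc Qb) Kb)) RatFunc.X ≠ 0 := by
  rw [← Polynomial.eval₂_map]
  exact fhahn_root _ (fun c => fxdefs_X_ne c) _ (Polynomial.map_ne_zero hp)

/-- Extension of the constants. -/
def toKb : FX →+* RatFunc Kb := (exists_ratFunc_hom _ toKb_trans).choose

theorem toKb_C (c : RatFunc Qb) : toKb (RatFunc.C c) = RatFunc.C (algebraMap _ Kb c) :=
  (exists_ratFunc_hom _ toKb_trans).choose_spec.1 c

theorem toKb_X : toKb RatFunc.X = RatFunc.X := (exists_ratFunc_hom _ toKb_trans).choose_spec.2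

instance algFX (l : ℕ) : Algebra FX (NN l) :=
  ((algebraMap (RatFunc Kb) (NN l)).comp toKb).toAlgebra

theorem algFX_apply (l : ℕ) (y : FX) :
    algebraMap FX (NN l) y = algebraMap (RatFunc Kb) (NN l) (toKb y) := rfl

/-- The constants of `NN`. -/
def cN (l : ℕ) : Kb →+* NN l := (algebraMap (RatFunc Kb) (NN l)).comp RatFunc.C

abbrev GK : Type := Kb ≃ₐ[RatFunc Qb] Kb

abbrev PhiN (l : ℕ) : Type := Pi1 l Kb (Set.range ptN)

abbrev GN (l : ℕ) : Type := NN l ≃ₐ[FX] NN l

/-- The split extension `1 → Φ → GN → GK → 1`. -/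
structure NData (l : ℕ) [Fact l.Prime] where
  gal : IsGalois FX (NN l)
  j : NN l →+* HS l Kb
  ov : Over (RingHom.id Kb) (ww l Kb) j
  res : GN l →* GK
  res_cont : Continuous res
  res_spec : ∀ g c, g (cN l c) = cN l (res g c)
  i : PhiN l →* GN l
  i_cont : Continuous i
  i_spec : ∀ φ x, i φ x = φ x
  ker : ∀ g, res g = 1 ↔ g ∈ i.range
  sec : GK →* GN l
  sec_cont : Continuous sec
  sec_spec : ∀ h x, j (sec h x) = cact l Kb h.toRingEquiv (j x)
  res_sec : ∀ h, res (sec h) = h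

theorem fn_s_ne (c : Qb) : sK ≠ cK c := fun h =>
  fxdefs_X_ne c ((algebraMap (RatFunc Qb) Kb).injective h)

theorem ptN_injective : Function.Injective ptN := by
  have h0 : sK ≠ 0 := by simpa using fn_s_ne 0
  have h1 : sK ≠ 1 := by simpa using fn_s_ne 1
  intro a b h
  fin_cases a <;> fin_cases b <;> simp_all [ptN, eq_comm]

theorem ptN_mem (h : Kb ≃+* Kb) (hs : h sK = sK) (a : Kb) :
    h a ∈ Set.range ptN ↔ a ∈ Set.range ptN := by
  have e : ∀ i, h (ptN i) = ptN i := fun i => by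
    fin_cases i
    exacts [map_zero h, hs, map_one h]
  constructor
  · rintro ⟨i, hi⟩
    exact ⟨i, h.injective ((e i).trans hi)⟩
  · rintro ⟨i, rfl⟩
    exact ⟨i, (e i).symm⟩

theorem fn_C (l : ℕ) (c : RatFunc Qb) :
    algebraMap FX (NN l) (RatFunc.C c) = cN l (algebraMap (RatFunc Qb) Kb c) := by
  rw [algFX_apply, toKb_C]
  rfl

theorem fn_X (l : ℕ) :
    algebraMap FX (NN l) RatFunc.X = algebraMap (RatFunc Kb) (NN l) RatFunc.X := by
  rw [algFX_apply, toKb_X]

theorem isAlgebraic_NN : Algebra.IsAlgebraic FX (NN l) := by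
  let _ : Algebra FX (RatFunc Kb) := toKb.toAlgebra
  have : IsScalarTower FX (RatFunc Kb) (NN l) := IsScalarTower.of_algebraMap_eq fun _ => rfl
  have := (maxExt_gal l (Set.range ptN)).1
  have : Algebra.IsAlgebraic FX (RatFunc Kb) := ⟨fun y => by
    refine mem_algebraicClosure_iff.1 (fhahn_mem (RingHom.id _)
      (algebraicClosure FX (RatFunc Kb)).toSubfield (fun c => ?_) ?_ y)
    · obtain ⟨p, hp, hc⟩ := Algebra.IsAlgebraic.isAlgebraic (R := RatFunc Qb) c
      refine mem_algebraicClosure_iff.2 ⟨p.map (RatFunc.C : RatFunc Qb →+* FX),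
        Polynomial.map_ne_zero hp, ?_⟩
      have e : toKb.comp (RatFunc.C : RatFunc Qb →+* FX) =
          (RatFunc.C : Kb →+* RatFunc Kb).comp (algebraMap (RatFunc Qb) Kb) :=
        RingHom.ext toKb_C
      change (p.map (RatFunc.C : RatFunc Qb →+* FX)).eval₂ toKb (RatFunc.C c) = 0
      rw [Polynomial.eval₂_map, e, ← Polynomial.hom_eval₂, ← Polynomial.aeval_def, hc, map_zero]
    · exact toKb_X ▸ (algebraicClosure FX (RatFunc Kb)).algebraMap_mem RatFunc.X⟩
  exact Algebra.IsAlgebraic.trans FX (RatFunc Kb) (NN l)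

theorem fn_res (l : ℕ) [Fact l.Prime] : ∃ res : GN l →* GK, Continuous res ∧
    ∀ g c, g (cN l c) = cN l (res g c) := by
  have := isAlgebraic_NN (l := l)
  have h1 : ∀ g : GN l, ∃ p : GK, ∀ x, cN l (p x) = g (cN l x) := fun g =>
    exists_bp (cN l) ((g : NN l →+* NN l).comp (cN l)) fun c => by
      change g (cN l _) = _
      rw [← fn_C, g.commutes]
  choose p hp using h1
  refine ⟨MonoidHom.mk' p fun a b => AlgEquiv.ext fun x => (cN l).injective ?_,
    (continuous_gal _).2 fun x => IsLocallyConstant.desc _ (cN l) ?_ (cN l).injective,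
    fun g c => (hp g c).symm⟩
  · rw [AlgEquiv.mul_apply, hp, hp, hp, AlgEquiv.mul_apply]
  · have h2 := (continuous_gal fun g : GN l => g).1 continuous_id (cN l x)
    rwa [← funext fun g => hp g x] at h2

theorem fn_i (l : ℕ) [Fact l.Prime] : ∃ i : PhiN l →* GN l, Continuous i ∧
    ∀ φ x, i φ x = φ x := by
  have := isAlgebraic_NN (l := l)
  have := (maxExt_gal l (Set.range ptN)).1
  refine ⟨MonoidHom.mk' (fun φ => AlgEquiv.ofRingEquiv (f := φ.toRingEquiv)
    fun y => φ.commutes (toKb y)) fun _ _ => AlgEquiv.ext fun _ => rfl,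
    (continuous_gal _).2 fun x => ?_, fun _ _ => rfl⟩
  exact (continuous_gal fun φ : PhiN l => φ).1 continuous_id x

theorem fn_sec (l : ℕ) [Fact l.Prime] (j : NN l →+* HS l Kb)
    (hj : Over (RingHom.id Kb) (ww l Kb) j) : ∃ sec : GK →* GN l, Continuous sec ∧
    (∀ h x, j (sec h x) = cact l Kb h.toRingEquiv (j x)) ∧
    ∀ h c, sec h (cN l c) = cN l (h c) := by
  have := isAlgebraic_NN (l := l)
  obtain ⟨s, h1, h2, h3, h4⟩ := exists_sec (k₀ := RatFunc Qb) (k := Kb) (S := Set.range ptN)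
    (fun σ a => ptN_mem σ.toRingEquiv (σ.commutes RatFunc.X) a) (fun σ => cact_ww _) j hj
  have h5 : ∀ h y, s h (algebraMap FX (NN l) y) = algebraMap FX (NN l) y := fun h y =>
    RingHom.congr_fun (ratFunc_ext (j := (s h : NN l →+* NN l).comp (algebraMap FX (NN l)))
      (j' := algebraMap FX (NN l)) (fun c => by
        change s h (algebraMap FX (NN l) _) = _
        rw [fn_C]
        exact (h2 h _).trans (congrArg (cN l) (h.commutes c))) (by
        change s h (algebraMap FX (NN l) _) = _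
        rw [fn_X]
        exact h3 h)) y
  refine ⟨MonoidHom.mk' (fun h => AlgEquiv.ofRingEquiv (f := s h) (h5 h))
    fun a b => AlgEquiv.ext fun x => ?_, (continuous_gal _).2 h4, h1, h2⟩
  change s (a * b) x = s a (s b x)
  rw [map_mul]
  rfl

/-- `exists_over`, `exists_sec`, `isGalois_of_fixed` with `ratFunc_fixed`; `res` from `exists_bp`
for the embedding `cN` of the normal extension `Kb / ℚ̄(s)`; `continuous_gal`. -/
theorem exists_nData (l : ℕ) [Fact l.Prime] : Nonempty (NData l) := by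
  have := isAlgebraic_NN (l := l)
  have := (maxExt_gal l (Set.range ptN)).1
  obtain ⟨j, hj⟩ := exists_over (l := l) (Set.range ptN) (RingHom.id Kb) (T := ww l Kb)
    fun c => by simpa using ffreea_ne (l := l) (0 : Kb) c
  obtain ⟨res, r1, r2⟩ := fn_res l
  obtain ⟨i, i1, i2⟩ := fn_i l
  obtain ⟨sec, s1, s2, s3⟩ := fn_sec l j hj
  have hX : ∀ g : GN l, g (algebraMap (RatFunc Kb) (NN l) RatFunc.X) =
      algebraMap (RatFunc Kb) (NN l) RatFunc.X := fun g => by rw [← fn_X, g.commutes]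
  refine ⟨⟨isGalois_of_fixed fun x hx => ?_, j, hj, res, r1, r2, i, i1, i2, fun g => ⟨fun h => ?_,
    ?_⟩, sec, s1, s2, fun h => AlgEquiv.ext fun c => (cN l).injective ?_⟩⟩
  · obtain ⟨y, rfl⟩ := (InfiniteGalois.mem_range_algebraMap_iff_fixed (k := RatFunc Kb) x).2
      fun φ => (i2 φ x).symm.trans (hx _)
    obtain ⟨w, rfl⟩ := ratFunc_fixed toKb toKb_C toKb_X y fun σ ψ h1 h2 => by
      refine (algebraMap (RatFunc Kb) (NN l)).injective (Eq.trans ?_ (hx (sec σ)))
      refine RingHom.congr_fun (ratFunc_ext (j := (algebraMap (RatFunc Kb) (NN l)).comp ψ)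
        (j' := (sec σ : NN l →+* NN l).comp (algebraMap (RatFunc Kb) (NN l))) (fun c => ?_) ?_) y
      · exact (congrArg (algebraMap (RatFunc Kb) (NN l)) (h1 c)).trans (s3 σ c).symm
      · exact (congrArg (algebraMap (RatFunc Kb) (NN l)) h2).trans (hX (sec σ)).symm
    exact ⟨w, rfl⟩
  · obtain ⟨φ, hφ⟩ := exists_gal_of_fix (k := Kb) g.toRingEquiv
      (fun c => (r2 g c).trans (by rw [h]; rfl)) (hX g)
    exact ⟨φ, AlgEquiv.ext fun x => (i2 φ x).trans (DFunLike.congr_fun hφ x)⟩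
  · rintro ⟨φ, rfl⟩
    exact AlgEquiv.ext fun c => (cN l).injective
      ((r2 _ c).symm.trans ((i2 φ _).trans (φ.commutes (RatFunc.C c))))
  · exact (r2 _ c).symm.trans (s3 h c)

end

end Pool.Agent.Lib.MP_446a91_nt.Gal
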