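import Pool.Agent.Lib.MP_446a91_nt.Gal.FN

/-! Kummer characters on the fibre (MP_446a91_nt, A8). -/

namespace Pool.Agent.Lib.MP_446a91_nt.Gal

variable {l : ℕ} [Fact l.Prime] {z : ℕ → Qb}

theorem fnb_conj {A B C : Type} [Group A] [Group B] [Group C] (i : A →* B)
    (hi : Function.Injective i) (hn : i.range.Normal) (s : C →* B) :
    ∃ ρ : C →* MulAut A, ∀ h φ, i (ρ h φ) = s h * i φ * (s h)⁻¹ := by
  refine ⟨(MulAut.congr (MonoidHom.ofInjective hi).symm).toMonoidHom.comp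
    ((MulAut.conjNormal (H := i.range)).comp s), fun h φ => ?_⟩
  have e : ∀ y : i.range, i ((MonoidHom.ofInjective hi).symm y) = y := fun y =>
    MonoidHom.apply_ofInjective_symm hi y
  exact e (MulAut.conjNormal (s h) (MonoidHom.ofInjective hi φ))

omit [Fact l.Prime] in
theorem fnb_s : algebraMap FX (NN l) sX = cN l sK := by
  rw [algFX_apply, sX, toKb_C]
  rfl

omit [Fact l.Prime] in
theorem fnb_t : algebraMap FX (NN l) tX = algebraMap (RatFunc Kb) (NN l) RatFunc.X := by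
  rw [algFX_apply, tX, toKb_X]

omit [Fact l.Prime] in
theorem fnb_z : zE z (NN l) =
    fun n => algebraMap (RatFunc Kb) (NN l) (RatFunc.C (zK z n)) := by
  funext n
  rw [zE, algFX_apply, cX, RingHom.comp_apply, toKb_C]
  rfl

theorem fnb_s0 : sK ≠ 0 := fun h =>
  absurd (ptN_injective (a₁ := 1) (a₂ := 0) h) (by decide)

theorem fnb_s1 : 1 - sK ≠ 0 := fun h =>
  absurd (ptN_injective (a₁ := 2) (a₂ := 1) (sub_eq_zero.1 h)) (by decide)

/-- The constant factors. -/
noncomputable def fnbC : Fin 5 → Kb := ![sK, 1 - sK, 1, -1, -1]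

theorem fnb_C_ne (j : Fin 5) : fnbC j ≠ 0 := by
  fin_cases j
  exacts [fnb_s0, fnb_s1, one_ne_zero, neg_ne_zero.2 one_ne_zero, neg_ne_zero.2 one_ne_zero]

/-- The linear factors. -/
noncomputable def fnbL (l : ℕ) (c : Fin 3) : NN l :=
  algebraMap (RatFunc Kb) (NN l) (RatFunc.X - RatFunc.C (ptN c))

omit [Fact l.Prime] in
theorem fnb_L (c : Fin 3) : fnbL l c = algebraMap FX (NN l) tX - cN l (ptN c) := by
  rw [fnbL, map_sub, fnb_t]
  rfl

omit [Fact l.Prime] in
theorem fnb_f (j : Fin 5) : algebraMap FX (NN l) (fX j) =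
    cN l (fnbC j) * ∏ c, fnbL l c ^ tabA (fib c) j := by
  fin_cases j <;> simp [fX, fnbC, fnb_L, fnb_s, tabA, fib, ptN, Fin.prod_univ_three]

theorem fnb_roots (c : Fin 3) : AllRoots l (fnbL l c) := allRoots_lin ⟨c, rfl⟩

theorem fnb_all (j : Fin 5) : AllRoots l (algebraMap FX (NN l) (fX j)) := by
  rw [fnb_f, Fin.prod_univ_three]
  exact (allRoots_const _ (fnb_C_ne j)).mul
    ((((fnb_roots 0).zpow _).mul ((fnb_roots 1).zpow _)).mul ((fnb_roots 2).zpow _))

theorem fnb_kl (hz : IsRoots l z) (φ : PhiN l) (c : Fin 3) :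
    IsKum (fun n => algebraMap (RatFunc Kb) (NN l) (RatFunc.C (zK z n))) φ.toRingEquiv (fnbL l c)
      (kl l (zK z) _ (ptN c) φ) :=
  isKum_kum (ffreea_roots (isRoots_zK hz) _) (fnb_roots c) (φ.commutes _) fun _ => φ.commutes _

theorem fnb_i (D : NData l) (φ : PhiN l) : (D.i φ).toRingEquiv = φ.toRingEquiv :=
  RingEquiv.ext (D.i_spec φ)

/-- The functions `t, s - t, 1 - t` versus `t - 0, t - s, t - 1`, and `s, 1 - s` are constants. -/
theorem kE_i (hz : IsRoots l z) (D : NData l) (φ : PhiN l) (j : Fin 5) :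
    kE l z (NN l) j (D.i φ) = ∑ c, (tabA (fib c) j : ℤ_[l]) * kl l (zK z) _ (ptN c) φ := by
  refine IsKum.kum_eq (isRoots_zE hz) (fnb_all j) ?_
  have hz' := ffreea_roots (isRoots_zK hz) (Set.range ptN)
  have h1 := isKum_const (cN l) (isRoots_zK hz) (g := φ.toRingEquiv) (fun c => φ.commutes _)
    (fnbC j)
  have h2 := IsKum.prod hz' (g := φ.toRingEquiv) (fun _ => φ.commutes _) fnb_roots (fnb_kl hz φ)
    fun c => tabA (fib c) j
  have h3 := IsKum.mul hz' (allRoots_const (cN l) (fnb_C_ne j)) h1 h2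
  rw [zero_add, ← fnb_f, ← fnb_z, ← fnb_i D] at h3
  exact h3

theorem allRoots_NN (j : Fin 5) : AllRoots l (algebraMap FX (NN l) (fX j)) := fnb_all j

theorem fnb_sec (hz : IsRoots l z) (D : NData l) (h : GK) (q : Fin 5) {a : ℤ_[l]}
    (ha : IsKum (zK z) h.toRingEquiv (D.j (algebraMap FX (NN l) (fX q))).leadingCoeff a) :
    kE l z (NN l) q (D.sec h) = a := by
  refine IsKum.kum_eq (isRoots_zE hz) (fnb_all q)
    (IsKum.of_map D.j (g' := cact l Kb h.toRingEquiv) (D.sec_spec h) ?_)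
  have h1 : (fun n => D.j (zE z (NN l) n)) = fun n => HahnSeries.C (zK z n) := by
    funext n
    rw [fnb_z]
    exact D.ov.1 _
  rw [h1]
  refine kum_cact (isRoots_zK hz) _ ((map_ne_zero D.j).2 (fnb_all q).1) ?_ ha
  rw [← D.sec_spec, AlgEquiv.commutes]

/-- Leading coefficients `1, 1, s` at `t = 0` (`kum_cact`). -/
theorem kE_sec (hz : IsRoots l z) (D : NData l) (h : GK) : kE l z (NN l) 2 (D.sec h) = 0 ∧
    kE l z (NN l) 3 (D.sec h) = 0 ∧ kE l z (NN l) 4 (D.sec h) = kE l z (NN l) 0 (D.sec h) := by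
  have hs : D.j (algebraMap FX (NN l) sX) = HahnSeries.C sK := by
    rw [fnb_s]
    exact D.ov.1 _
  have ht : D.j (algebraMap FX (NN l) tX) = ww l Kb := by
    rw [fnb_t]
    exact D.ov.2
  have h1 : IsKum (zK z) h.toRingEquiv 1 (0 : ℤ_[l]) := by
    have h2 := isKum_const cK hz (g := h.toRingEquiv) (fun c => h.commutes _) 1
    rwa [map_one] at h2
  have h2 : IsKum (zK z) h.toRingEquiv sK (kum l (zK z) sK h.toRingEquiv) :=
    isKum_kum (isRoots_zK hz) (allRoots_const (RingHom.id Kb) fnb_s0) (h.commutes _)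
      fun _ => h.commutes _
  have e0 : D.j (algebraMap FX (NN l) (fX 0)) = HahnSeries.C sK + HahnSeries.C 0 * ww l Kb := by
    rw [map_zero, zero_mul, add_zero]
    exact hs
  have e3 : D.j (algebraMap FX (NN l) (fX 3)) = HahnSeries.C 1 + HahnSeries.C (-1) * ww l Kb := by
    rw [map_neg, map_one, neg_one_mul, ← sub_eq_add_neg, ← ht, ← D.j.map_one, ← map_sub,
      ← (algebraMap FX (NN l)).map_one, ← map_sub]
    rfl
  have e4 : D.j (algebraMap FX (NN l) (fX 4)) = HahnSeries.C sK + HahnSeries.C (-1) * ww l Kb := by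
    rw [map_neg, map_one, neg_one_mul, ← sub_eq_add_neg, ← ht, ← hs, ← map_sub, ← map_sub]
    rfl
  refine ⟨fnb_sec hz D h 2 ?_, fnb_sec hz D h 3 ?_,
    (fnb_sec hz D h 4 (a := kum l (zK z) sK h.toRingEquiv) ?_).trans (fnb_sec hz D h 0 ?_).symm⟩
  · have e2 : D.j (algebraMap FX (NN l) (fX 2)) = ww l Kb := ht
    rwa [e2, lc_ww]
  · rwa [e3, (order_C_add one_ne_zero _).2]
  · rwa [e4, (order_C_add fnb_s0 _).2]
  · rwa [e0, (order_C_add fnb_s0 _).2]

theorem exists_xs (hz : IsRoots l z) : ∃ xs : Fin 3 → PhiN l, IsFreePro l xs ∧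
    (∀ c, IsMon (isRoots_zK hz) _ (ptN c) (xs c)) ∧
    ∀ c d, kl l (zK z) _ (ptN c) (xs d) = if c = d then 1 else 0 := by
  choose xs hxs using fun c => exists_mon (isRoots_zK hz) (Set.range ptN) (ptN c)
  have h : ∀ c d, kl l (zK z) _ (ptN c) (xs d) = if c = d then 1 else 0 := fun c d => by
    rw [IsMon.kl (isRoots_zK hz) (hxs d) ⟨c, rfl⟩]
    simp only [ptN_injective.eq_iff]
  exact ⟨xs, pi1_free (isRoots_zK hz) ptN xs h, hxs, h⟩

/-- The action on the fibre group. -/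
theorem exists_rho (hz : IsRoots l z) (D : NData l) : ∃ ρ : GK →* MulAut (PhiN l),
    (∀ h φ, D.i (ρ h φ) = D.sec h * D.i φ * (D.sec h)⁻¹) ∧ (∀ h, Continuous (ρ h)) ∧
    (∀ φ, Continuous fun h => ρ h φ) ∧
    ∀ c h φ, kl l (zK z) _ (ptN c) (ρ h φ) = kl l (zK z) _ (ptN c) φ := by
  have := D.gal
  have := (maxExt_gal l (Set.range ptN)).1
  have hi : Function.Injective D.i := fun φ φ' e =>
    AlgEquiv.ext fun x => by rw [← D.i_spec, e, D.i_spec]
  have hk : D.i.range = D.res.ker := Subgroup.ext fun g => (D.ker g).symm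
  obtain ⟨ρ, hρ⟩ := fnb_conj D.i hi (hk ▸ D.res.normal_ker) D.sec
  have hc : ∀ {T : Type} [TopologicalSpace T] (f : T → PhiN l),
      (Continuous fun a => D.i (f a)) → Continuous f := fun f hf =>
    (continuous_gal f).2 fun x => by
      simpa only [D.i_spec] using (continuous_gal _).1 hf x
  refine ⟨ρ, hρ, fun h => hc _ ?_, fun φ => hc _ ?_, fun c h φ => ?_⟩
  · simp only [hρ]
    exact (continuous_const.mul D.i_cont).mul continuous_const
  · simp only [hρ]
    exact (D.sec_cont.mul continuous_const).mul D.sec_cont.inv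
  · have hz' := ffreea_roots (isRoots_zK hz) (Set.range ptN)
    have h1 : (D.sec h).toRingEquiv (fnbL l c) = fnbL l c := by
      have e : fnbL l c = algebraMap FX (NN l) (tX - ![0, sX, 1] c) := by
        rw [fnb_L, map_sub]
        fin_cases c <;> simp [ptN, fnb_s]
      rw [e]
      exact (D.sec h).commutes _
    have h2 := IsKum.conj hz' h1 (b := 1) (fun n => by
      rw [pow_one, ← congrFun fnb_z n]
      exact (D.sec h).commutes _) (fnb_kl hz φ c)
    have e : (D.sec h).toRingEquiv * φ.toRingEquiv * (D.sec h).toRingEquiv⁻¹ =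
        (ρ h φ).toRingEquiv := by
      rw [← fnb_i D, ← fnb_i D, hρ]
      rfl
    rw [Nat.cast_one, one_mul, e] at h2
    exact h2.kum_eq hz' (fnb_roots c)

end Pool.Agent.Lib.MP_446a91_nt.Gal
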