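import Pool.Agent.Lib.MP_446a91_nt.Gal.FNXA

/-! The field of the five point space (MP_446a91_nt, paper A8). -/

namespace Pool.Agent.Lib.MP_446a91_nt.Gal

variable {l : ℕ} [Fact l.Prime] {z : ℕ → Qb}

omit [Fact l.Prime] in
theorem fnx_restr [Normal (RatFunc Qb) (MX l)] : ∃ r : GK →* PiL l, Continuous r ∧
    Function.Surjective r ∧ r.ker = (maxExt l Qb {0, 1}).fixingSubgroup ∧
    ∀ h (x : MX l), (r h x : Kb) = h x :=
  ⟨AlgEquiv.restrictNormalHom (MX l), InfiniteGalois.restrictNormalHom_continuous _,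
    AlgEquiv.restrictNormalHom_surjective _, IntermediateField.restrictNormalHom_ker _,
    fun h x => AlgEquiv.restrictNormalHom_apply _ h x⟩

/-- `e q` with values in `NX` (`sec_fix_e`), `i = q ∘ D.i`, `sec` by `exists_desc` along the
restriction `GK → PiL`; Kummer characters are transported with `IsKum.of_map`, `IsKum.map`. -/
theorem exists_xf (hz : IsRoots l z) (D : NData l) : Nonempty (XF l z (NX D) (PhiN l)) := by
  have hg : IsGalois (RatFunc Qb) (MX l) := (maxExt_gal l _).1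
  obtain ⟨q, hqc, hqs, hqk, hq⟩ := exists_restr hz D
  obtain ⟨r, hrc, hrs, hrk, hr⟩ := fnx_restr (l := l)
  choose eN heN heN0 using fun a => exists_eN (l := l) a
  have hmem : ∀ a x, eN a x ∈ NX D := fun a x => by
    refine (IntermediateField.mem_fixedField_iff _ _).2 ?_
    rintro _ ⟨h, hh, rfl⟩
    exact sec_fix_e hz D a (eN a) (heN a) (heN0 a) h
      ((IntermediateField.mem_fixingSubgroup_iff _ _).1 hh) x
  let e : Fin 4 → MX l →+* NX D := fun a => (eN a).codRestrict (NX D) (hmem a)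
  have he : ∀ a c, e a (algebraMap (RatFunc Qb) (MX l) c) = algebraMap FX (NX D) (psi a c) :=
    fun a c => Subtype.ext (heN a c)
  have he0 : ∀ x : MX l, (e 0 x : NN l) = cN l x := heN0 0 rfl
  have hsec : ∀ h ∈ (maxExt l Qb {0, 1}).fixingSubgroup, q (D.sec h) = 1 := fun h hh => by
    rw [← MonoidHom.mem_ker, hqk]
    exact ⟨h, hh, rfl⟩
  have hi : ∀ φ, D.res (D.i φ) = 1 := fun φ => (D.ker _).2 ⟨φ, rfl⟩
  obtain ⟨sec, hsc, hs⟩ := exists_desc r hrc hrs (q.comp D.sec) (hqc.comp D.sec_cont)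
    fun h hh => hsec h (hrk ▸ hh)
  obtain ⟨xs, hx1, -, hx2⟩ := exists_xs hz
  have hk : ∀ j g, kE l z (NX D) j (q g) = kE l z (NN l) j g := fun j g =>
    IsKum.kum_eq (isRoots_zE hz) (allRoots_fX e he j)
      (IsKum.of_map (algebraMap (NX D) (NN l)) (g := (q g).toRingEquiv)
        (g' := g.toRingEquiv) (hq g)
        (isKum_kum (isRoots_zE hz) (allRoots_NN j) (g.commutes _) fun n => g.commutes _))
  refine ⟨⟨nx_gal hz D, e, he, xs, hx1, q.comp D.i, hqc.comp D.i_cont, ?_, sec, hsc, ?_, ?_, ?_,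
    ?_, exists_liftNX D⟩⟩
  · refine (injective_iff_map_eq_one _).2 fun φ hφ => ?_
    have h1 : D.i φ ∈ RN D := hqk ▸ hφ
    obtain ⟨h, -, h2⟩ := h1
    have h3 : h = 1 := by rw [← D.res_sec h, h2, hi]
    rw [h3, map_one] at h2
    refine AlgEquiv.ext fun x => ?_
    rw [← D.i_spec, ← h2]
    rfl
  · intro h x
    obtain ⟨h, rfl⟩ := hrs h
    refine Subtype.ext ?_
    rw [hs, MonoidHom.comp_apply, hq, he0, he0, D.res_spec, D.res_sec, hr]
  · intro g
    obtain ⟨g, rfl⟩ := hqs g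
    refine ⟨fun h => ?_, ?_⟩
    · have h1 : D.res g ∈ (maxExt l Qb {0, 1}).fixingSubgroup :=
        (IntermediateField.mem_fixingSubgroup_iff _ _).2 fun x hx => (cN l).injective (by
          have h2 := congrArg Subtype.val (h ⟨x, hx⟩)
          rw [hq, he0, D.res_spec] at h2
          exact h2)
      obtain ⟨φ, hφ⟩ := (D.ker (g * (D.sec (D.res g))⁻¹)).1
        (by rw [map_mul, map_inv, D.res_sec, mul_inv_cancel])
      exact ⟨φ, by rw [MonoidHom.comp_apply, hφ, map_mul, map_inv, hsec _ h1, inv_one, mul_one]⟩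
    · rintro ⟨φ, hφ⟩ x
      refine Subtype.ext ?_
      rw [← hφ, MonoidHom.comp_apply, hq, he0, D.res_spec, hi, AlgEquiv.one_apply]
  · intro c j
    rw [MonoidHom.comp_apply, hk, kE_i hz]
    simp [hx2]
  · intro h
    obtain ⟨h, rfl⟩ := hrs h
    rw [hs, MonoidHom.comp_apply, hk, hk, hk, hk]
    exact kE_sec hz D h

theorem exists_data (l : ℕ) [Fact l.Prime] :
    ∃ z : ℕ → Qb, IsRoots l z ∧ ∃ D : PiData l z, HasX D := by
  obtain ⟨z, hz⟩ := exists_isRoots l Qb
  obtain ⟨D, hD⟩ := exists_piData hz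
  obtain ⟨N⟩ := exists_nData l
  obtain ⟨X⟩ := exists_xf hz N
  haveI := (maxExt_gal l (Set.range ptN)).1
  exact ⟨z, hz, D, hasX_of_xf hz D hD X⟩

end Pool.Agent.Lib.MP_446a91_nt.Gal
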