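import Pool.Agent.Lib.MP_446a91_nt.Gal.FDiv

/-! From the field data to the group data (MP_446a91_nt). -/

namespace Pool.Agent.Lib.MP_446a91_nt.Gal

variable {l : ℕ} [Fact l.Prime] {z : ℕ → Qb}

section aux
variable {E : Type} [Field E] [Algebra FX E] {σ : GQ} {s : E ≃+* E}

theorem fxg_fX (h : LiftX σ s) (j : Fin 5) :
    s (algebraMap FX E (fX j)) = algebraMap FX E (fX j) := by
  fin_cases j <;> simp [fX, h.2.1, h.2.2]

theorem fxg_uX (h : LiftX σ s) (q : Fin 4) :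
    s (algebraMap FX E (uX q)) = algebraMap FX E (uX q) := by
  have hd : ∀ x y : FX, algebraMap FX E (x / y) = algebraMap FX E x / algebraMap FX E y :=
    fun x y => map_div₀ (algebraMap FX E) x y
  fin_cases q <;> simp [uX, hd, h.2.1, h.2.2]

theorem fxg_kE (hz : IsRoots l z) (hr : ∀ j, AllRoots l (algebraMap FX E (fX j))) (h : LiftX σ s)
    (hσ : σ ∈ HH z) {g g' : E ≃ₐ[FX] E} (hg : g'.toRingEquiv = s * g.toRingEquiv * s⁻¹)
    (j : Fin 5) : kE l z E j g' = kE l z E j g := by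
  have h1 := isKum_kum (isRoots_zE hz) (g := g.toRingEquiv) (hr j) (g.commutes _)
    fun n => g.commutes _
  have h2 := IsKum.conj (isRoots_zE hz) (fxg_fX h j) (b := 1)
    (fun n => by rw [pow_one, zE, h.1, hσ n]) h1
  rw [Nat.cast_one, one_mul, ← hg] at h2
  exact h2.kum_eq (isRoots_zE hz) (hr j)

theorem fxg_ind [IsGalois (RatFunc Qb) (MX l)] (h : LiftX σ s) {s₀ : MX l ≃+* MX l}
    (h₀ : IsLift σ s₀) (q : Fin 4) (e : MX l →+* E)
    (he : ∀ c, e (algebraMap (RatFunc Qb) (MX l) c) = algebraMap FX E (psi q c)) :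
    ∃ s₁ : MX l ≃+* MX l, IsLift σ s₁ ∧ ∀ x, e (s₁ x) = s (e x) := by
  have h1 : (s : E →+* E).comp (e.comp (algebraMap (RatFunc Qb) (MX l))) =
      e.comp ((s₀ : MX l →+* MX l).comp (algebraMap (RatFunc Qb) (MX l))) := by
    refine ratFunc_ext (fun c => ?_) ?_
    · change s (e _) = e (s₀ _)
      rw [he, psi_C, h.1, ← alg_const, h₀.1, alg_const, he, psi_C]
    · change s (e _) = e (s₀ _)
      rw [h₀.2, he, psi_X, fxg_uX h]
  obtain ⟨s₁, h2, h3⟩ := exists_bp' e s s₀ (lift_nrm h₀) fun c => RingHom.congr_fun h1 c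
  refine ⟨s₁, ⟨fun c => ?_, (h3 _).trans h₀.2⟩, h2⟩
  rw [← h₀.1, alg_const, h3]

end aux

/-- `p q` from `exists_proj`; the group is pro-`l` by `isProL_ext`; `a, b` from `exists_mon_div`;
`β` is conjugation by a lift `s` (`exists_cj_one`), `t d = s_d s⁻¹` (`liftX_diff`); `s` induces on
the image of `e q` a lift of `σ` (`exists_bp'` with `D.lift`), which differs from the lift of
`D.lift` by an element of `π` (`lift_diff`). -/
theorem hasX_of_xf (hz : IsRoots l z) (D : PiData l z) (hD : D.kk = kkM l z) {E Φ : Type} [Field E]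
    [Algebra FX E] [Group Φ] [TopologicalSpace Φ] [IsTopologicalGroup Φ] [CompactSpace Φ]
    [T2Space Φ] [TotallyDisconnectedSpace Φ] (X : XF l z E Φ) : HasX D := by
  have := X.gal
  have := D.gal
  have hr := allRoots_fX X.e X.e_spec
  choose p hpc hp hpk using fun q => exists_proj hz hr q (X.e q) (X.e_spec q)
  have h1 : ∀ h, p 0 (X.sec h) = h := fun h => AlgEquiv.ext fun x =>
    (X.e 0).injective ((hp 0 _ x).trans (X.e_sec h x))
  have h2 : ∀ g, p 0 g = 1 ↔ g ∈ X.i.range := fun g => by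
    rw [← X.ker]
    refine ⟨fun h x => ?_,
      fun h => AlgEquiv.ext fun x => (X.e 0).injective ((hp 0 g x).trans (h x))⟩
    rw [← hp, h, AlgEquiv.one_apply]
  have hE : ProLExt l FX E := isProL_iff.1 (isProL_ext X.i X.i_cont (p 0) (hpc 0)
    (fun h => ⟨_, h1 h⟩) (fun g => (h2 g).1) X.free3.pro D.free.pro)
  choose a b ha hab hb hs using exists_mon_div hz hE hr D.xy (hD ▸ D.kk_xy) X.lift
  have h3 : ∀ h j, kE l z E j (X.sec h) = ∑ e, (tabB 0 e j : ℤ_[l]) * D.kk e h := fun h j => by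
    have e0 := hpk 0 0 (X.sec h)
    have e1 := hpk 0 1 (X.sec h)
    obtain ⟨e2, e3, e4⟩ := X.κ_sec h
    rw [h1] at e0 e1
    simp [tabP, Fin.sum_univ_five] at e0 e1
    rw [hD]
    fin_cases j <;> simp [tabB, e0, e1, e2, e3, e4]
  refine ⟨E ≃ₐ[FX] E, Φ, inferInstance, inferInstance, inferInstance, inferInstance, inferInstance,
    inferInstance, inferInstance, inferInstance, inferInstance, inferInstance, inferInstance,
    inferInstance, ⟨X.xs, X.free3, X.i, X.i_cont, X.i_inj, X.sec, X.sec_cont, p, hpc, h1, h2,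
      kE l z E, fun j => isChar_kum (isRoots_zE hz) (fun n => ⟨_, rfl⟩) ⟨_, rfl⟩ (hr j), X.κ_xs, h3,
      hD ▸ hpk, a, ha, b, hab, hb⟩, fun σ hσ => ?_⟩
  obtain ⟨s, hs₁⟩ := X.lift σ
  obtain ⟨c, hc, hcs⟩ := exists_cj_one s (liftX_nrm hs₁)
  choose s' hs' hsa using fun d => hs d σ hσ
  choose t ht using fun d => liftX_diff hs₁ (hs' d)
  obtain ⟨s₀, h₀, h₀'⟩ := D.lift σ
  have hc' : ∀ g x, c g (s x) = s (g x) := fun g x =>
    (RingEquiv.congr_fun (hcs g) (s x)).trans (congrArg (fun y => s (g y)) (s.symm_apply_apply x))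
  refine ⟨⟨c.toMonoidHom, hc, fun j g => fxg_kE hz hr hs₁ hσ (hcs g) j, t, fun d => ?_,
    fun q => ?_⟩⟩
  · have e1 : ∀ x, t d (s x) = s' d x := fun x =>
      (RingEquiv.congr_fun (ht d) (s x)).trans (congrArg (s' d) (s.symm_apply_apply x))
    change c (a d) = (t d)⁻¹ * a d * t d
    rw [mul_assoc, eq_inv_mul_iff_mul_eq]
    refine AlgEquiv.ext fun x => ?_
    obtain ⟨x, rfl⟩ := s.surjective x
    rw [AlgEquiv.mul_apply, AlgEquiv.mul_apply, hc', e1, e1]
    exact RingEquiv.congr_fun (hsa d) x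
  · obtain ⟨s₁, h₁, h₁'⟩ := fxg_ind hs₁ h₀ q (X.e q) (X.e_spec q)
    obtain ⟨g, hg⟩ := lift_diff h₀ h₁
    have e1 : ∀ x, g (s₀ x) = s₁ x := fun x =>
      (RingEquiv.congr_fun hg (s₀ x)).trans (congrArg s₁ (s₀.symm_apply_apply x))
    refine ⟨g, fun h => ?_⟩
    change p q (c h) = g * D.act σ (p q h) * g⁻¹
    rw [eq_mul_inv_iff_mul_eq]
    refine AlgEquiv.ext fun x => (X.e q).injective ?_
    obtain ⟨x, rfl⟩ := s₀.surjective x
    rw [AlgEquiv.mul_apply, AlgEquiv.mul_apply, h₀' _ x, e1, e1, hp, h₁', h₁', hc', hp]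

end Pool.Agent.Lib.MP_446a91_nt.Gal
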