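import Pool.Agent.Lib.MP_446a91_nt.Gal.FProj
import Pool.Agent.Lib.MP_446a91_nt.Gal.FXG

/-! The field of the five point space (MP_446a91_nt, paper A8). -/

namespace Pool.Agent.Lib.MP_446a91_nt.Gal

noncomputable section

variable {l : ℕ} [Fact l.Prime] {z : ℕ → Qb}

/-- The image under the section of the group that fixes `MX`. -/
def RN (D : NData l) : Subgroup (GN l) := ((maxExt l Qb {0, 1}).fixingSubgroup).map D.sec

/-- Its fixed field. -/
def NX (D : NData l) : IntermediateField FX (NN l) := IntermediateField.fixedField (RN D)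

theorem fnxa_gal {F E : Type} [Field F] [Field E] [Algebra F E] [IsGalois F E]
    {H : Subgroup (E ≃ₐ[F] E)} (hn : H.Normal) (hc : IsClosed (H : Set (E ≃ₐ[F] E))) :
    (IntermediateField.fixedField H).fixingSubgroup = H ∧
      IsGalois F (IntermediateField.fixedField H) := by
  have h := InfiniteGalois.fixingSubgroup_fixedField (⟨H, hc⟩ : ClosedSubgroup (E ≃ₐ[F] E))
  exact ⟨h, (InfiniteGalois.normal_iff_isGalois _).1 (h.symm ▸ hn)⟩

theorem fnxa_restr {F E : Type} [Field F] [Field E] [Algebra F E] (L : IntermediateField F E)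
    (s : E ≃+* E) (h1 : ∀ x ∈ L, s x ∈ L) (h2 : ∀ x ∈ L, s⁻¹ x ∈ L) :
    ∃ s' : L ≃+* L, ∀ x, (s' x : E) = s x :=
  ⟨RingEquiv.ofRingHom ((s : E →+* E).restrict L L h1) ((s.symm : E →+* E).restrict L L h2)
    (RingHom.ext fun x => Subtype.ext (s.apply_symm_apply x))
    (RingHom.ext fun x => Subtype.ext (s.symm_apply_apply x)), fun _ => rfl⟩

theorem fnxa_mem (D : NData l) {h : Kb ≃+* Kb} (hn : Nrm (RatFunc Qb) h)
    (hm : ∀ x ∈ maxExt l Qb {0, 1}, h x ∈ maxExt l Qb {0, 1}) {s : NN l ≃+* NN l}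
    (hs : ∀ x, D.j (s x) = cact l Kb h (D.j x)) : ∀ x ∈ NX D, s x ∈ NX D := by
  intro x hx
  obtain ⟨c, -, hc⟩ := exists_cj_one h⁻¹ hn.inv
  refine (IntermediateField.mem_fixedField_iff _ _).2 ?_
  rintro _ ⟨g, hg, rfl⟩
  have e : h * (c g).toRingEquiv = g.toRingEquiv * h := by
    rw [hc, inv_inv, mul_assoc, mul_inv_cancel_left]
  have h1 : c g ∈ (maxExt l Qb {0, 1}).fixingSubgroup :=
    (IntermediateField.mem_fixingSubgroup_iff _ _).2 fun y hy => h.injective
      ((RingEquiv.congr_fun e y).trans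
        ((IntermediateField.mem_fixingSubgroup_iff _ _).1 hg _ (hm y hy)))
  have h2 := congrArg D.j ((IntermediateField.mem_fixedField_iff _ _).1 hx _ ⟨_, h1, rfl⟩)
  have h3 := RingEquiv.congr_fun
    ((map_mul _ _ _).symm.trans ((congrArg (cact l Kb) e).trans (map_mul _ _ _))) (D.j x)
  refine D.j.injective ?_
  rw [D.sec_spec] at h2
  rw [D.sec_spec, hs]
  exact h3.symm.trans (congrArg (cact l Kb h) h2)

/-- Normal: `GN = Φ · sec GK`, `good`, and the fixing subgroup of the normal `MX` is normal.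
Closed: image of a compact set. -/
theorem rn_normal (hz : IsRoots l z) (D : NData l) :
    (RN D).Normal ∧ IsClosed (RN D : Set (GN l)) := by
  have := D.gal
  have hn := (InfiniteGalois.normal_iff_isGalois (maxExt l Qb {0, 1})).2 (maxExt_gal l _).1
  refine ⟨⟨?_⟩, ((InfiniteGalois.fixingSubgroup_isClosed
    (maxExt l Qb {0, 1})).isCompact.image D.sec_cont).isClosed⟩
  rintro _ ⟨h, hh, rfl⟩ g
  obtain ⟨φ, hφ⟩ := (D.ker (g * (D.sec (D.res g))⁻¹)).1
    (by rw [map_mul, map_inv, D.res_sec, mul_inv_cancel])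
  have h1 := hn.conj_mem h hh (D.res g)
  refine ⟨_, h1, ?_⟩
  have h2 := (good hz D _ ((IntermediateField.mem_fixingSubgroup_iff _ _).1 h1) φ).eq
  rw [← mul_inv_eq_iff_eq_mul.2 h2.symm, hφ, map_mul, map_mul, map_inv]
  group

theorem nx_gal (hz : IsRoots l z) (D : NData l) : IsGalois FX (NX D) :=
  have := D.gal
  (fnxa_gal (rn_normal hz D).1 (rn_normal hz D).2).2

/-- The restriction map. -/
theorem exists_restr (hz : IsRoots l z) (D : NData l) : ∃ q : GN l →* (NX D ≃ₐ[FX] NX D),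
    Continuous q ∧ Function.Surjective q ∧ q.ker = RN D ∧
    ∀ g (x : NX D), (q g x : NN l) = g x := by
  have := D.gal
  have := nx_gal hz D
  exact ⟨AlgEquiv.restrictNormalHom (NX D), InfiniteGalois.restrictNormalHom_continuous _,
    AlgEquiv.restrictNormalHom_surjective _, (IntermediateField.restrictNormalHom_ker _).trans
      (fnxa_gal (rn_normal hz D).1 (rn_normal hz D).2).1, AlgEquiv.restrictNormalHom_apply _⟩

/-- `exists_lift_Om` gives `h₀` on `Kb` that preserves `MX`; its lift for `D.j` normalises `RN`. -/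
theorem exists_liftNX (D : NData l) (σ : GQ) : ∃ s : NX D ≃+* NX D, LiftX σ s := by
  obtain ⟨h, h1, h2, h3, h4⟩ := exists_lift_Om (l := l) (S := {0, 1}) σ.toRingEquiv
    (fun a => by simp)
  obtain ⟨s, s1, s2, s3⟩ := exists_sec_one h (ptN_mem h h2) (cact_ww h) D.j D.ov
  obtain ⟨s', hs⟩ := fnxa_restr (NX D) s (fnxa_mem D h3 (fun x => (h4 x).2) s1)
    (fnxa_mem D h3.inv (fun x hx => (h4 _).1 ((h.apply_symm_apply x).symm ▸ hx)) fun x => by
      rw [map_inv]
      exact (cact l Kb h).eq_symm_apply.2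
        ((s1 _).symm.trans (congrArg D.j (s.apply_symm_apply x))))
  have k : ∀ y y' : FX, s (algebraMap FX (NN l) y) = algebraMap FX (NN l) y' →
      s' (algebraMap FX (NX D) y) = algebraMap FX (NX D) y' := fun y y' e =>
    Subtype.ext ((hs _).trans e)
  have k' : ∀ c c' : RatFunc Qb, h (algebraMap _ _ c) = algebraMap _ _ c' →
      s (algebraMap FX (NN l) (RatFunc.C c)) = algebraMap FX (NN l) (RatFunc.C c') :=
    fun c c' e => by rw [algFX_apply, algFX_apply, toKb_C, toKb_C, s2, e]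
  refine ⟨s', fun c => k _ _ (k' _ _ (h1 c)), k _ _ (k' _ _ h2), k _ _ ?_⟩
  rw [algFX_apply, tX, toKb_X, s3]

end

end Pool.Agent.Lib.MP_446a91_nt.Gal
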