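import Pool.Agent.Lib.MP_446a91_nt.Gal.FPiB
import Pool.Agent.Lib.MP_446a91_nt.Gal.FFree

/-! The data for `π` (MP_446a91_nt, paper A7). -/

namespace Pool.Agent.Lib.MP_446a91_nt.Gal

variable {l : ℕ} [Fact l.Prime] {z : ℕ → Qb}

theorem fpi_free (hz : IsRoots l z) {S : Set Qb} (hS : S = Set.range ![0, 1])
    (x : Fin 2 → Pi1 l Qb S)
    (hx : ∀ c d, kl l z S (![0, 1] c) (x d) = if c = d then 1 else 0) : IsFreePro l x := by
  subst hS
  exact pi1_free hz _ x hx

/-- `Set.range ![0, 1] = {0, 1}` (generalise the set and `subst`), `1 - t = (-1) (t - 1)`. -/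
theorem freeM (hz : IsRoots l z) : FreeM l z := fun x hx => by
  refine fpi_free hz (by simp [Set.pair_comm]) x fun c d => (hx c d).symm ▸ ?_
  fin_cases c
  · simp [kl, kkM, fM]; rfl
  · have h1 := isKum_kkM hz 1 (x d)
    let j : Qb →+* MX l := (algebraMap (RatFunc Qb) (MX l)).comp RatFunc.C
    have h2 := isKum_const j hz (g := (x d).toRingEquiv) (fun c => (x d).commutes _) (-1)
    have h3 := IsKum.mul (isRoots_zM hz) (allRoots_const j (by simp)) h2 h1
    have e : j (-1) * fM l 1 = algebraMap (RatFunc Qb) (MX l) (RatFunc.X - RatFunc.C 1) := by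
      simp [fM]
    rw [e, zero_add] at h3
    exact h3.kum_eq (isRoots_zM hz) (allRoots_lin (by simp))

omit [Fact l.Prime] in
theorem fpi_ext {g g' : PiL l} (h : g.toRingEquiv = g'.toRingEquiv) : g = g' :=
  AlgEquiv.ext fun x => DFunLike.congr_fun h x

theorem fpi_ne (c : Qb) : ww l Qb ≠ HahnSeries.C c := fun h => by
  have := order_ww (l := l) (k := Qb)
  rw [h, HahnSeries.order_C] at this
  simpa [iZ] using congrArg Subtype.val this

theorem fpi_one : (1 - ww l Qb).order = iZ l 0 ∧ (1 - ww l Qb).leadingCoeff = 1 := by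
  simpa [sub_eq_add_neg] using order_C_add (l := l) (k := Qb) (c := 1) one_ne_zero (-1)

theorem fpi_inv : (ww l Qb)⁻¹.order = iZ l (-1) ∧ (ww l Qb)⁻¹.leadingCoeff = 1 := by
  have h0 := ww_ne_zero (l := l) (k := Qb)
  have h1 := HahnSeries.order_mul h0 (inv_ne_zero h0)
  have h2 := HahnSeries.leadingCoeff_mul (ww l Qb) (ww l Qb)⁻¹
  rw [mul_inv_cancel₀ h0] at h1 h2
  rw [HahnSeries.order_one, order_ww] at h1
  rw [HahnSeries.leadingCoeff_one, lc_ww, one_mul] at h2
  refine ⟨?_, h2.symm⟩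
  rw [eq_neg_of_add_eq_zero_right h1.symm]
  exact Subtype.ext (by simp [iZ])

theorem fpi_inv' : (1 - (ww l Qb)⁻¹).order = iZ l (-1) ∧ (1 - (ww l Qb)⁻¹).leadingCoeff = -1 := by
  have h0 := ww_ne_zero (l := l) (k := Qb)
  have h1 : 1 - ww l Qb ≠ 0 := fun h => fpi_ne (l := l) 1 (by rw [map_one]; linear_combination -h)
  have e : 1 - (ww l Qb)⁻¹ = -((ww l Qb)⁻¹ * (1 - ww l Qb)) := by field_simp; ring
  rw [e, HahnSeries.order_neg, HahnSeries.leadingCoeff_neg,
    HahnSeries.order_mul (inv_ne_zero h0) h1, HahnSeries.leadingCoeff_mul, fpi_inv.1, fpi_inv.2,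
    fpi_one.1, fpi_one.2, one_mul]
  exact ⟨Subtype.ext (by simp [iZ]), rfl⟩

theorem fpi_z {σ : GQ} {s : MX l ≃+* MX l} (h : IsLift σ s) (n : ℕ) :
    s (zM l z n) = algebraMap (RatFunc Qb) (MX l) (RatFunc.C (σ (z n))) := by
  rw [zM, ← alg_const, ← alg_const, h.1]

omit [Fact l.Prime] in
theorem fpi_f {σ : GQ} {s : MX l ≃+* MX l} (h : IsLift σ s) (e : Fin 2) : s (fM l e) = fM l e := by
  fin_cases e <;> simp [fM, h.2]

theorem fpi_diff (hz : IsRoots l z) {σ : GQ} (hσ : σ ∈ HH z) {s s' : MX l ≃+* MX l}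
    (h : IsLift σ s) (h' : IsLift σ s') {e : Fin 2} (k : IsKum (zM l z) s (fM l e) (0 : ℤ_[l]))
    (k' : IsKum (zM l z) s' (fM l e) (0 : ℤ_[l])) {g : PiL l} (hg : g.toRingEquiv = s' * s⁻¹) :
    kkM l z e g = 0 := by
  have := IsKum.comp (isRoots_zM hz) (fun n => by rw [fpi_z h', hσ n]; rfl) k'
    (k.inv (isRoots_zM hz) fun n => by rw [fpi_z h, hσ n]; rfl)
  rw [neg_zero, add_zero, ← hg] at this
  exact this.kum_eq (isRoots_zM hz) (allRoots_fM e)

/-- Base points `w`, `1 - w`, `w⁻¹`; `act` from `exists_cj` for `B₀.s`; `f σ = B₁.s σ * (B₀.s σ)⁻¹`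
(`lift_diff`), continuous by `continuous_gal`, `lc_comp`. -/
theorem exists_piData (hz : IsRoots l z) : ∃ D : PiData l z, D.kk = kkM l z := by
  have gal := (maxExt_gal l ({0, 1} : Set Qb)).1
  obtain ⟨B₀⟩ := exists_bpt hz (tau_ww hz) cact_ww fpi_ne
  obtain ⟨B₁⟩ := exists_bpt hz (T := 1 - ww l Qb) (by rw [map_sub, map_one, tau_ww])
    (fun g => by rw [map_sub, map_one, cact_ww]) fun c h =>
      fpi_ne (l := l) (1 - c) (by rw [map_sub, map_one]; linear_combination -h)
  obtain ⟨B₂⟩ := exists_bpt hz (T := (ww l Qb)⁻¹) (by rw [map_inv₀, tau_ww])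
    (fun g => by rw [map_inv₀, cact_ww]) fun c h =>
      fpi_ne (l := l) c⁻¹ (by rw [map_inv₀, ← h, inv_inv])
  obtain ⟨act, a1, a2⟩ := exists_cj B₀.s fun σ => lift_nrm (B₀.lift σ)
  choose f hf using fun σ => lift_diff (B₀.lift σ) (B₁.lift σ)
  choose μ m1 m2 m3 m4 using exists_mu hz B₀ B₁
  have k0 : ∀ σ ∈ HH z, ∀ e, IsKum (zM l z) (B₀.s σ) (fM l e) (0 : ℤ_[l]) := fun σ hσ e =>
    B₀.kum_s hσ e (Or.inl (by fin_cases e <;> simp [lc_ww, fpi_one.2]))
  have xy : ∀ e c, kkM l z e (![B₀.mon, B₁.mon] c) = if e = c then 1 else 0 := fun e c => by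
    fin_cases e <;> fin_cases c
    · simpa using B₀.kk_mon 0 order_ww
    · simpa using B₁.kk_mon 0 fpi_one.1
    · simpa using B₀.kk_mon 1 fpi_one.1
    · simpa using B₁.kk_mon 1 (a := 1) (by simpa using order_ww)
  have mul : ∀ g g' : PiL l, (g * g').toRingEquiv = g.toRingEquiv * g'.toRingEquiv :=
    fun _ _ => rfl
  have inv : ∀ g : PiL l, (g⁻¹).toRingEquiv = g.toRingEquiv⁻¹ := fun _ => rfl
  refine ⟨{ gal := gal
            xy := ![B₀.mon, B₁.mon]
            free := freeM hz _ xy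
            kk := kkM l z
            kk_char := isChar_kkM hz
            kk_xy := xy
            zz := B₂.mon
            kk_zz := fun e => ?_
            act := act
            act_cont := a1
            lift := fun σ => ⟨B₀.s σ, B₀.lift σ, fun h x => ?_⟩
            mem_II := fun m σ => mem_II_iff (B₀.lift σ) (act σ) (a2 σ) m
            fix := fun σ h n => ?_
            wt := fun σ b hb e h => ?_
            gam := ?_
            f := f
            f_cont := (continuous_gal f).2 fun x => ?_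
            f_mul := fun σ τ => fpi_ext ?_
            act_x := fun σ hσ => fpi_ext ?_
            act_y := fun σ hσ => fpi_ext ?_
            kk_f := fun σ hσ e => fpi_diff hz hσ (B₀.lift σ) (B₁.lift σ) (k0 σ hσ e)
              (B₁.kum_s hσ e (Or.inl ?_)) (hf σ)
            act_z := fun σ hσ => ?_
            μ := μ
            μ_lc := m1
            μ_mul := m2
            μ_sum := m3
            μ_f := fun n σ hσ => m4 n σ hσ (f σ) (hf σ) }, rfl⟩
  · fin_cases e
    · simpa using B₂.kk_mon 0 fpi_inv.1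
    · simpa using B₂.kk_mon 1 fpi_inv'.1
  · exact (DFunLike.congr_fun (a2 σ h) _).trans (by simp)
  · have h1 := isKum_kkM hz 0 B₀.mon
    have h2 := isKum_kkM hz 0 (act σ B₀.mon)
    have h3 : kkM l z 0 B₀.mon = 1 := by simpa using xy 0 0
    rw [h B₀.mon, a2] at h2
    rw [h3] at h1 h2
    have := IsKum.fix_of_conj (isRoots_zM hz) (allRoots_fM 0) (fpi_f (B₀.lift σ) 0) h1 h2 n
    rw [fpi_z (B₀.lift σ)] at this
    exact RatFunc.C.injective ((algebraMap (RatFunc Qb) (MX l)).injective this)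
  · have := (isKum_kkM hz e h).conj (isRoots_zM hz) (fpi_f (B₀.lift σ) e) (b := b) fun n => by
      rw [fpi_z (B₀.lift σ), hb n, map_pow, map_pow]; rfl
    rw [← a2] at this
    exact this.kum_eq (isRoots_zM hz) (allRoots_fM e)
  · obtain ⟨γ, b, h1, -, h2⟩ := exists_gam hz 0
    exact ⟨γ, b, h1, h2⟩
  · have := lc_comp (fun σ => B₁.s σ) (fun σ => B₀.s σ⁻¹) B₁.lc
      (fun x => (B₀.lc x).comp_continuous continuous_inv) x
    have e : (fun σ => f σ x) = fun σ => B₁.s σ (B₀.s σ⁻¹ x) := funext fun σ => by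
      rw [map_inv]
      exact DFunLike.congr_fun (hf σ) x
    rw [e]
    exact this
  · rw [mul, a2, hf, hf, hf, map_mul, map_mul]; group
  · rw [a2]
    change _ * B₀.mon.toRingEquiv * _ = B₀.mon.toRingEquiv
    rw [B₀.comm hσ]; group
  · rw [a2, mul, mul, inv, hf]
    change _ * B₁.mon.toRingEquiv * _ = _ * B₁.mon.toRingEquiv * _
    rw [mul_inv_rev, inv_inv, mul_assoc _ _ (B₁.s σ * _), ← mul_assoc _ (B₁.s σ), ← B₁.comm hσ]
    group
  · fin_cases e <;> simp [lc_ww, fpi_one.2]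
  · obtain ⟨t, ht⟩ := lift_diff (B₀.lift σ) (B₂.lift σ)
    refine ⟨t, fun e => fpi_diff hz hσ (B₀.lift σ) (B₂.lift σ) (k0 σ hσ e)
      (B₂.kum_s hσ e ?_) ht, fpi_ext ?_⟩
    · fin_cases e
      · exact Or.inl fpi_inv.2
      · exact Or.inr fpi_inv'.2
    · rw [a2, mul, mul, inv, ht, mul_inv_rev, inv_inv, mul_assoc _ _ (B₂.s σ * _),
        ← mul_assoc _ (B₂.s σ), ← B₂.comm hσ]
      group

end Pool.Agent.Lib.MP_446a91_nt.Gal
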