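import Pool.Agent.Lib.MP_446a91_nt.Gal.FSec

/-! Base points of the three punctured line (MP_446a91_nt). -/

namespace Pool.Agent.Lib.MP_446a91_nt.Gal

noncomputable section

variable {l : ℕ} [Fact l.Prime] {z : ℕ → Qb}

/-- The roots of unity in `MX`. -/
def zM (l : ℕ) (z : ℕ → Qb) (n : ℕ) : MX l := algebraMap (RatFunc Qb) (MX l) (RatFunc.C (z n))

/-- The functions `t` and `1 - t`. -/
def fM (l : ℕ) (e : Fin 2) : MX l := algebraMap (RatFunc Qb) (MX l) (![RatFunc.X, 1 - RatFunc.X] e)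

/-- Their Kummer characters. -/
def kkM (l : ℕ) [Fact l.Prime] (z : ℕ → Qb) (e : Fin 2) (h : PiL l) : ℤ_[l] :=
  kum l (zM l z) (fM l e) h.toRingEquiv

/-- A tangential base point. -/
structure BPt (hz : IsRoots l z) (T : HS l Qb) where
  j : MX l →+* HS l Qb
  ov : Over (RingHom.id Qb) T j
  mon : PiL l
  mon_spec : ∀ x, j (mon x) = tau hz (j x)
  s : GQ →* (MX l ≃+* MX l)
  s_spec : ∀ σ x, j (s σ x) = cact l Qb σ.toRingEquiv (j x)
  lift : ∀ σ, IsLift σ (s σ)
  lc : ∀ x, IsLocallyConstant fun σ => s σ x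

theorem alg_const (c : Qb) :
    algebraMap Qb (MX l) c = algebraMap (RatFunc Qb) (MX l) (RatFunc.C c) := by
  rw [IsScalarTower.algebraMap_apply Qb (RatFunc Qb) (MX l), RatFunc.algebraMap_eq_C]

theorem isRoots_zM (hz : IsRoots l z) : IsRoots l (zM l z) :=
  hz.map ((algebraMap (RatFunc Qb) (MX l)).comp RatFunc.C)

theorem allRoots_fM (e : Fin 2) : AllRoots l (fM l e) := by
  fin_cases e
  · have h := allRoots_lin (l := l) (S := ({0, 1} : Set Qb)) (a := 0) (by simp)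
    rw [map_zero, sub_zero] at h
    exact h
  · have h := (allRoots_const (l := l) ((algebraMap (RatFunc Qb) (MX l)).comp RatFunc.C)
      (c := -1) (by simp)).mul (allRoots_lin (l := l) (S := ({0, 1} : Set Qb)) (a := 1) (by simp))
    rw [RingHom.comp_apply, ← map_mul, map_neg, map_one, neg_one_mul, neg_sub] at h
    exact h

theorem isChar_kkM (hz : IsRoots l z) (e : Fin 2) : IsChar (kkM l z e) :=
  haveI := (maxExt_gal l ({0, 1} : Set Qb)).1
  isChar_kum (isRoots_zM hz) (fun _ => ⟨_, rfl⟩) ⟨_, rfl⟩ (allRoots_fM e)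

theorem isKum_kkM (hz : IsRoots l z) (e : Fin 2) (h : PiL l) :
    IsKum (zM l z) h.toRingEquiv (fM l e) (kkM l z e h) :=
  isKum_kum (isRoots_zM hz) (allRoots_fM e) (h.commutes _) fun _ => h.commutes _

/-- `pi1_free` is stated with `t - 0`, `t - 1` and `Set.range ![0, 1]`; this is the form for `PiL`.
Proved in `FPi`. -/
def FreeM (l : ℕ) [Fact l.Prime] (z : ℕ → Qb) : Prop :=
  ∀ x : Fin 2 → PiL l, (∀ e c, kkM l z e (x c) = if e = c then 1 else 0) → IsFreePro l x

theorem exists_bpt (hz : IsRoots l z) {T : HS l Qb} (h1 : tau hz T = T)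
    (h2 : ∀ g, cact l Qb g T = T) (h3 : ∀ c, T ≠ HahnSeries.C c) : Nonempty (BPt hz T) := by
  obtain ⟨j, hj⟩ := exists_over (l := l) ({0, 1} : Set Qb) (RingHom.id Qb) h3
  have := (maxExt_gal l ({0, 1} : Set Qb)).1
  have : Algebra.IsAlgebraic ℚ Qb := AlgebraicClosure.isAlgebraic ℚ
  obtain ⟨g, hg⟩ := exists_bp (F := RatFunc Qb) j ((tau hz : HS l Qb →+* HS l Qb).comp j)
    fun c => DFunLike.congr_fun (ratFunc_ext
      (j := ((tau hz : HS l Qb →+* HS l Qb).comp j).comp (algebraMap (RatFunc Qb) (MX l)))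
      (j' := j.comp (algebraMap (RatFunc Qb) (MX l)))
      (fun c => by
        change tau hz (j (algebraMap _ _ _)) = j (algebraMap _ _ _)
        rw [hj.1, tau_C])
      (by
        change tau hz (j (algebraMap _ _ _)) = j (algebraMap _ _ _)
        rw [hj.2, h1])) c
  obtain ⟨s, s1, s2, s3, s4⟩ := exists_sec (l := l) (k₀ := ℚ) (S := ({0, 1} : Set Qb))
    (fun σ a => by simp) (fun σ => h2 _) j hj
  exact ⟨⟨j, hj, g, hg, s, s1, fun σ => ⟨fun c => by rw [alg_const, alg_const, s2], s3 σ⟩, s4⟩⟩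

theorem BPt.comm {hz : IsRoots l z} {T : HS l Qb} (B : BPt hz T) {σ : GQ} (hσ : σ ∈ HH z) :
    B.s σ * B.mon.toRingEquiv = B.mon.toRingEquiv * B.s σ := by
  refine RingEquiv.ext fun x => B.j.injective ?_
  have h := cact_tau hz σ.toRingEquiv (b := 1) fun n => by rw [pow_one]; exact hσ n
  rw [pow_one] at h
  change B.j (B.s σ (B.mon x)) = B.j (B.mon (B.s σ x))
  rw [B.s_spec, B.mon_spec, B.mon_spec, B.s_spec]
  exact DFunLike.congr_fun h (B.j x)

theorem fpia_j {hz : IsRoots l z} {T : HS l Qb} (B : BPt hz T) (e : Fin 2) :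
    B.j (fM l e) = ![T, 1 - T] e := by
  fin_cases e
  · exact B.ov.2
  · change B.j (algebraMap _ _ (1 - RatFunc.X)) = 1 - T
    rw [map_sub, map_sub, map_one, map_one, B.ov.2]

theorem fpia_z {hz : IsRoots l z} {T : HS l Qb} (B : BPt hz T) (n : ℕ) :
    B.j (zM l z n) = HahnSeries.C (z n) := B.ov.1 _

theorem fpia_fix (hz : IsRoots l z) {σ : GQ} (hσ : σ ∈ HH z) {n : ℕ} {r : Qb}
    (h : r ^ l ^ n = 1) : σ r = r := by
  have : NeZero (l ^ n) := ⟨pow_ne_zero _ (Fact.out : l.Prime).ne_zero⟩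
  obtain ⟨i, -, rfl⟩ := (hz.prim n).eq_pow_of_pow_eq_one h
  rw [map_pow, hσ n]

theorem fpia_fix' (hz : IsRoots l z) {σ : GQ} (hσ : σ ∈ HH z) {n : ℕ} {r : Qb}
    (h : r ^ l ^ n = -1) : σ r = r := by
  rcases (Fact.out : l.Prime).eq_two_or_odd' with h2 | h2
  · refine fpia_fix hz hσ (n := n + 1) ?_
    rw [pow_succ, pow_mul, h, h2, neg_one_sq]
  · have := fpia_fix hz hσ (n := n) (r := -r) (by rw [(h2.pow).neg_pow, h, neg_neg])
    rwa [map_neg, neg_inj] at this

theorem BPt.kk_mon {hz : IsRoots l z} {T : HS l Qb} (B : BPt hz T) (e : Fin 2) {a : ℤ}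
    (h : (![T, 1 - T] e).order = iZ l a) : kkM l z e B.mon = a := by
  refine IsKum.kum_eq (isRoots_zM hz) (allRoots_fM e) (IsKum.of_map B.j B.mon_spec ?_)
  have h1 : tau hz (B.j (fM l e)) = B.j (fM l e) := by
    rw [← B.mon_spec]; exact congrArg B.j (B.mon.commutes _)
  have h2 := kum_tau hz ((allRoots_fM e).map B.j).1 h1 (a := a) (by rw [fpia_j, h])
  simpa only [fpia_z] using h2

/-- All `l`-power roots of `± 1` are fixed by `σ ∈ HH z`. -/
theorem BPt.kum_s {hz : IsRoots l z} {T : HS l Qb} (B : BPt hz T) {σ : GQ} (hσ : σ ∈ HH z)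
    (e : Fin 2) (h : (![T, 1 - T] e).leadingCoeff = 1 ∨ (![T, 1 - T] e).leadingCoeff = -1) :
    IsKum (zM l z) (B.s σ) (fM l e) (0 : ℤ_[l]) := by
  refine IsKum.of_map B.j (B.s_spec σ) ?_
  have h0 : B.s σ (fM l e) = fM l e := by
    fin_cases e
    · exact (B.lift σ).2
    · change B.s σ (algebraMap _ _ (1 - RatFunc.X)) = algebraMap _ _ (1 - RatFunc.X)
      rw [map_sub, map_sub, map_one, map_one, (B.lift σ).2]
  have h1 : cact l Qb σ.toRingEquiv (B.j (fM l e)) = B.j (fM l e) := by rw [← B.s_spec, h0]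
  have h2 := kum_cact hz σ.toRingEquiv ((allRoots_fM e).map B.j).1 h1 (a := 0)
    (IsKum.of_fix hz fun n r hr => by
      rw [fpia_j] at hr
      rcases h with h | h
      · exact fpia_fix hz hσ (hr.trans h)
      · exact fpia_fix' hz hσ (hr.trans h))
  simpa only [fpia_z] using h2

theorem lift_nrm {σ : GQ} {s : MX l ≃+* MX l} (h : IsLift σ s) : Nrm (RatFunc Qb) s :=
  nrm_of_lift σ.toRingEquiv s (fun c => by rw [← alg_const, ← alg_const, h.1]; rfl) h.2

theorem lift_diff {σ : GQ} {s s' : MX l ≃+* MX l} (h : IsLift σ s) (h' : IsLift σ s') :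
    ∃ g : PiL l, g.toRingEquiv = s' * s⁻¹ := by
  refine exists_gal_of_fix (s' * s⁻¹) (fun c => ?_) ?_
  · have e : s⁻¹ (algebraMap Qb (MX l) c) = algebraMap Qb (MX l) (σ.symm c) :=
      s.symm_apply_eq.2 (by rw [h.1, AlgEquiv.apply_symm_apply])
    rw [← alg_const, RingAut.mul_apply, e, h'.1, AlgEquiv.apply_symm_apply]
  · have e : s⁻¹ (algebraMap (RatFunc Qb) (MX l) RatFunc.X) =
        algebraMap (RatFunc Qb) (MX l) RatFunc.X := s.symm_apply_eq.2 h.2.symm
    rw [RingAut.mul_apply, e, h'.2]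

theorem fpia_lcs_normal (G : Type) [Group G] [TopologicalSpace G] [IsTopologicalGroup G] (m : ℕ) :
    (lcs G m).Normal := by
  induction m with
  | zero => exact Subgroup.normal_of_characteristic ⊤
  | succ m ih =>
    cases m with
    | zero => exact Subgroup.normal_of_characteristic ⊤
    | succ m =>
      have := ih
      exact Subgroup.is_normal_topologicalClosure _

theorem mem_II_iff {σ : GQ} {s : MX l ≃+* MX l} (h : IsLift σ s) (c : PiL l → PiL l)
    (hc : ∀ g, (c g).toRingEquiv = s * g.toRingEquiv * s⁻¹) (m : ℕ) : σ ∈ II l m ↔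
    ∃ g : PiL l, ∀ h, c h * (g * h * g⁻¹)⁻¹ ∈ lcs (PiL l) (m + 1) := by
  have key : ∀ g x, c g (s x) = s (g x) := fun g x => by
    have := DFunLike.congr_fun (hc g) (s x)
    exact this.trans (congrArg (fun y => s (g y)) (s.symm_apply_apply x))
  refine ⟨fun ⟨s₁, h₁, g, hg⟩ => ?_, fun ⟨g, hg⟩ => ⟨s, h, g, fun a a' ha => ?_⟩⟩
  · obtain ⟨g₀, h₀⟩ := lift_diff h h₁
    have e : ∀ x, g₀ (s x) = s₁ x := fun x =>
      (DFunLike.congr_fun h₀ (s x)).trans (congrArg s₁ (s.symm_apply_apply x))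
    refine ⟨g₀⁻¹ * g, fun a => ?_⟩
    have h2 := hg a (g₀ * c a * g₀⁻¹) fun x => by
      rw [← e, ← e, ← key, AlgEquiv.mul_apply, AlgEquiv.mul_apply]
      exact congrArg (fun y => g₀ (c a y)) (g₀.symm_apply_apply _)
    have h3 := (fpia_lcs_normal (PiL l) (m + 1)).conj_mem _ h2 g₀⁻¹
    convert h3 using 1
    group
  · have : a' = c a := AlgEquiv.ext fun x => by
      obtain ⟨y, rfl⟩ := s.surjective x
      rw [ha y, key]
    rw [this]
    exact hg a

end

end Pool.Agent.Lib.MP_446a91_nt.Gal
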