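import Pool.Agent.Lib.MP_446a91_nt.Gal.FPiA

/-! The Kummer measure (MP_446a91_nt, paper A12). -/

namespace Pool.Agent.Lib.MP_446a91_nt.Gal

variable {l : ℕ} [Fact l.Prime] {z : ℕ → Qb}

omit [Fact l.Prime] in
theorem fpib_one_sub {k : Type} [Field k] {y : HS l k} (h0 : 0 ≤ y.order) (h1 : y.coeff 0 ≠ 1) :
    (1 - y).order = 0 ∧ (1 - y).leadingCoeff = 1 - y.coeff 0 := by
  have e : (1 - y).coeff 0 = 1 - y.coeff 0 := by simp
  have ne : (1 - y).coeff 0 ≠ 0 := e ▸ sub_ne_zero.2 h1.symm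
  have h : (1 - y).order = 0 := by
    refine le_antisymm (HahnSeries.order_le_of_coeff_ne_zero ne) (not_lt.1 fun hlt => ?_)
    refine HahnSeries.coeff_order_eq_zero.not.2 (HahnSeries.ne_zero_of_coeff_ne_zero ne) ?_
    simp [HahnSeries.coeff_one, hlt.ne, HahnSeries.coeff_eq_zero_of_lt_order (hlt.trans_le h0)]
  exact ⟨h, by rw [HahnSeries.leadingCoeff_eq, h, e]⟩

omit [Fact l.Prime] in
theorem fpib_pow {k : Type} [Field k] {y : HS l k} (n : ℕ) :
    (y ^ l ^ n).order = l ^ n • y.order ∧ (y ^ l ^ n).leadingCoeff = y.leadingCoeff ^ l ^ n := by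
  refine ⟨HahnSeries.order_pow y _, ?_⟩
  induction l ^ n with
  | zero => simp
  | succ m ih => rw [pow_succ, pow_succ, HahnSeries.leadingCoeff_mul, ih]

theorem fpib_fix (hz : IsRoots l z) {σ : GQ} (hσ : σ ∈ HH z) {n : ℕ} {c : Qb} (h : c ^ l ^ n = 1) :
    σ c = c := by
  have : NeZero (l ^ n) := ⟨pow_ne_zero n (Fact.out : l.Prime).ne_zero⟩
  obtain ⟨i, -, rfl⟩ := (hz.prim n).eq_pow_of_pow_eq_one h
  rw [map_pow, hσ n]

theorem fpib_root {hz : IsRoots l z} {T : HS l Qb} (B : BPt hz T) (σ : GQ) {x : MX l} {n : ℕ}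
    (hx : x ≠ 0) (h : B.s σ (x ^ l ^ n) = x ^ l ^ n) : B.s σ x = algebraMap (RatFunc Qb) (MX l)
      (RatFunc.C (σ (B.j x).leadingCoeff / (B.j x).leadingCoeff)) * x := by
  refine B.j.injective ?_
  rw [map_mul, B.ov.1, B.s_spec]
  exact cact_root hz _ (n := n) ((map_ne_zero B.j).2 hx) (by rw [← map_pow, ← B.s_spec, h])

/-- Choose `θ` with `θ ^ l ^ n = t` and `B₁.j θ` of leading coefficient `1` (multiply a root by a
power of `z n`). By `exists_root` each `1 - z n ^ a θ` has all roots (at `t = c ∉ {0, 1}` the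
constant term `θ₀` has `θ₀ ^ l ^ n = c ≠ 1`); choose `r a` with `r a ^ l ^ n = 1 - z n ^ a θ` and
define `μ g a` by `g (r a) = z n ^ μ g a * r (a + κ g)`. The product of the `r a` is a root of
`1 - t`. `B₀.s σ` fixes `θ` and `r a` (`cact_root`, leading coefficients are roots of unity),
`B₁.s σ` multiplies `r a` by `σ ρ / ρ` with `ρ ^ l ^ n = 1 - z n ^ a`. -/
theorem exists_mu (hz : IsRoots l z) (B₀ : BPt hz (ww l Qb)) (B₁ : BPt hz (1 - ww l Qb)) (n : ℕ) :
    ∃ μ : PiL l → ZMod (l ^ n) → ZMod (l ^ n), (∀ a, IsLocallyConstant fun g => μ g a) ∧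
      (∀ g h a, μ (g * h) a = μ h a + μ g (a + PadicInt.toZModPow n (kkM l z 0 h))) ∧
      (∀ g, ∑ᶠ a, μ g a = PadicInt.toZModPow n (kkM l z 1 g)) ∧
      ∀ σ ∈ HH z, ∀ f : PiL l, f.toRingEquiv = B₁.s σ * (B₀.s σ)⁻¹ →
        ∀ a : ZMod (l ^ n), a ≠ 0 → ∀ r : Qb, r ^ l ^ n = 1 - z n ^ a.val →
          σ r = z n ^ (μ f a).val * r := by
  have hl : l ^ n ≠ 0 := pow_ne_zero n (Fact.out : l.Prime).ne_zero
  have : NeZero (l ^ n) := ⟨hl⟩
  have gal := (maxExt_gal l ({0, 1} : Set Qb)).1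
  have hζ := (isRoots_zM hz).prim n
  let pw : ZMod (l ^ n) → MX l := fun a => zM l z n ^ a.val
  have pw_add : ∀ a b, pw (a + b) = pw a * pw b := fun a b => by
    simp only [pw, ← pow_add, ZMod.val_add]
    exact (pow_eq_pow_mod _ hζ.pow_eq_one).symm
  have pw_inj : ∀ {a b}, pw a = pw b → a = b := fun h =>
    ZMod.val_injective _ (hζ.pow_inj (ZMod.val_lt _) (ZMod.val_lt _) h)
  have pw_pow : ∀ a, pw a ^ l ^ n = 1 := fun a => by
    rw [← pow_mul, mul_comm, pow_mul, hζ.pow_eq_one, one_pow]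
  have pw_zero : pw 0 = 1 := by simp [pw]
  have pw_j : ∀ {T} {j : MX l →+* HS l Qb}, Over (RingHom.id Qb) T j → ∀ a,
      j (pw a) = HahnSeries.C (z n ^ a.val) := fun h a => by
    rw [map_pow, zM, h.1, map_pow]; rfl
  have pw_s : ∀ {T} (B : BPt hz T), ∀ σ ∈ HH z, ∀ a, B.s σ (pw a) = pw a := fun B σ hσ a => by
    rw [map_pow, zM, ← alg_const, (B.lift σ).1, hσ n, alg_const]; rfl
  have pw_g : ∀ (g : PiL l) a, g (pw a) = pw a := fun g a => by
    rw [map_pow, zM, g.commutes]; rfl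
  have j0 : ∀ {T} {j : MX l →+* HS l Qb}, Over (RingHom.id Qb) T j → j (fM l 0) = T :=
    fun h => h.2
  have o1 : (1 - ww l Qb).order = 0 ∧ (1 - ww l Qb).leadingCoeff = 1 := by
    have h := order_C_add (l := l) (k := Qb) (c := 1) one_ne_zero (-1)
    rw [map_neg, map_one, neg_one_mul, ← sub_eq_add_neg] at h
    exact h
  obtain ⟨θ, hθ, hθ1⟩ : ∃ θ : MX l, θ ^ l ^ n = fM l 0 ∧ (B₁.j θ).leadingCoeff = 1 := by
    obtain ⟨θ, hθ⟩ := (allRoots_fM (l := l) 0).2 n
    have h := (fpib_pow (y := B₁.j θ) n).2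
    rw [← map_pow, hθ, j0 B₁.ov, o1.2] at h
    obtain ⟨i, hi, e⟩ := (hz.prim n).eq_pow_of_pow_eq_one h.symm
    refine ⟨pw (-i) * θ, by rw [mul_pow, pw_pow, one_mul, hθ], ?_⟩
    have h2 := congrArg (fun x => (B₁.j x).leadingCoeff) (pw_add (-i) i)
    simp only [neg_add_cancel, pw_zero, map_one, map_mul, HahnSeries.leadingCoeff_mul,
      HahnSeries.leadingCoeff_one] at h2
    rw [pw_j B₁.ov i, ZMod.val_cast_of_lt hi, HahnSeries.C_apply,
      HahnSeries.leadingCoeff_of_single, e] at h2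
    rw [map_mul, HahnSeries.leadingCoeff_mul, ← h2]
  have θ0 : θ ≠ 0 := fun h => (allRoots_fM (l := l) 0).1 (by rw [← hθ, h, zero_pow hl])
  have yp : ∀ a, (pw a * θ) ^ l ^ n = fM l 0 := fun a => by rw [mul_pow, pw_pow, one_mul, hθ]
  have f1 : fM l 1 = 1 - fM l 0 := by simp [fM]
  have F0 : ∀ a, 1 - pw a * θ ≠ 0 := fun a h => (allRoots_fM (l := l) 1).1 (by
    rw [f1, ← yp a, ← sub_eq_zero.1 h, one_pow, sub_self])
  have hr : ∀ a, ∃ r : MX l, r ^ l ^ n = 1 - pw a * θ := fun a => by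
    refine (exists_root hz _ (F0 a) fun c hc j hj => ?_).2 n
    have hc' : c ≠ 0 ∧ c ≠ 1 := by simpa using hc
    have h := fpib_pow (y := j (pw a * θ)) n
    have h2 := order_C_add (l := l) hc'.1 1
    rw [map_one, one_mul] at h2
    rw [← map_pow, yp, j0 hj, h2.1, h2.2] at h
    have h3 : (j (pw a * θ)).order = 0 := (smul_eq_zero.1 h.1.symm).resolve_left hl
    rw [map_sub, map_one]
    refine (fpib_one_sub h3.ge fun h4 => hc'.2 ?_).1
    rw [h.2, HahnSeries.leadingCoeff_eq, h3, h4, one_pow]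
  choose r hr using hr
  have r0 : ∀ a, r a ≠ 0 := fun a h => F0 a (by rw [← hr, h, zero_pow hl])
  let κ : PiL l → ZMod (l ^ n) := fun g => PadicInt.toZModPow n (kkM l z 0 g)
  have gθ : ∀ g : PiL l, g θ = pw (κ g) * θ := fun g => isKum_kkM hz 0 g n θ hθ
  have hμ : ∀ (g : PiL l) a, ∃ m, g (r a) = pw m * r (a + κ g) := fun g a => by
    have h : (g (r a) / r (a + κ g)) ^ l ^ n = 1 := by
      rw [div_pow, ← map_pow, hr, hr, map_sub, map_one, map_mul, pw_g, gθ, pw_add, mul_assoc,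
        ← mul_assoc, ← pw_add, div_self (F0 _)]
    obtain ⟨i, hi, e⟩ := hζ.eq_pow_of_pow_eq_one h
    exact ⟨i, by rw [← div_eq_iff (r0 _), ← e]; simp only [pw, ZMod.val_cast_of_lt hi]⟩
  choose μ hμ using hμ
  have lc := (continuous_gal (id : PiL l → PiL l)).1 continuous_id
  refine ⟨μ, fun a => (IsLocallyConstant.iff_eventually_eq _).2 fun g => ?_, fun g h a => ?_,
    fun g => ?_, fun σ hσ f hf a ha ρ hρ => ?_⟩
  · filter_upwards [(lc (r a)).eventually_eq g, (lc θ).eventually_eq g] with g' e1 e2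
    change g' _ = g _ at e1 e2
    rw [gθ, gθ] at e2
    rw [hμ, hμ, pw_inj (mul_right_cancel₀ θ0 e2)] at e1
    exact pw_inj (mul_right_cancel₀ (r0 _) e1)
  · have e : κ (g * h) = κ h + κ g := by
      simp only [κ, (isChar_kkM hz 0).add, map_add, add_comm]
    have := hμ (g * h) a
    rw [AlgEquiv.mul_apply, hμ h, map_mul, pw_g, hμ g, e, ← add_assoc, ← mul_assoc,
      ← pw_add] at this
    exact (pw_inj (mul_right_cancel₀ (r0 _) this)).symm
  · have e : (∏ a, r a) ^ l ^ n = fM l 1 := by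
      have h := congrArg (Polynomial.eval 1) (X_pow_sub_C_eq_prod hζ (Nat.pos_of_ne_zero hl) hθ)
      simp only [Polynomial.eval_sub, Polynomial.eval_pow, Polynomial.eval_X, Polynomial.eval_C,
        Polynomial.eval_prod, one_pow] at h
      rw [← Finset.prod_pow, f1, h]
      refine Finset.prod_nbij (fun a => a.val) (fun a _ => Finset.mem_range.2 (ZMod.val_lt a))
        (fun a _ b _ h => ZMod.val_injective _ h) (fun i hi => ⟨i, by simp,
          ZMod.val_cast_of_lt (by simpa using hi)⟩) fun a _ => hr a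
    have h1 : g (∏ a, r a) = _ := isKum_kkM hz 1 g n _ e
    have h2 : ∀ s : Finset (ZMod (l ^ n)), ∏ a ∈ s, pw (μ g a) = pw (∑ a ∈ s, μ g a) := fun s => by
      induction s using Finset.induction_on with
      | empty => simp [pw_zero]
      | insert a s h ih => rw [Finset.prod_insert h, Finset.sum_insert h, pw_add, ih]
    rw [map_prod, Finset.prod_congr rfl fun a _ => hμ g a, Finset.prod_mul_distrib, h2,
      show ∏ a, r (a + κ g) = ∏ a, r a from Equiv.prod_comp (Equiv.addRight (κ g)) r] at h1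
    rw [finsum_eq_sum_of_fintype]
    exact pw_inj (mul_right_cancel₀ (Finset.prod_ne_zero_iff.2 fun a _ => r0 a) h1)
  · have sθ : ∀ {T} (B : BPt hz T), T.leadingCoeff = 1 → B.s σ θ = θ := fun B h1 => by
      have h := (fpib_pow (y := B.j θ) n).2
      rw [← map_pow, hθ, j0 B.ov, h1] at h
      rw [fpib_root B σ θ0 (n := n) (by rw [hθ]; exact (B.lift σ).2), fpib_fix hz hσ h.symm,
        div_self fun h0 => by rw [h0, zero_pow hl] at h; exact one_ne_zero h, map_one, map_one,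
        one_mul]
    have sr : ∀ {T} (B : BPt hz T), T.leadingCoeff = 1 → B.s σ (r a ^ l ^ n) = r a ^ l ^ n :=
      fun B h1 => by rw [hr, map_sub, map_one, map_mul, pw_s B σ hσ, sθ B h1]
    have lr : ∀ {T} (B : BPt hz T), (B.j (r a)).leadingCoeff ^ l ^ n =
        (1 - B.j (pw a * θ)).leadingCoeff := fun B => by
      rw [← (fpib_pow n).2, ← map_pow, hr, map_sub, map_one]
    have s0 : B₀.s σ (r a) = r a := by
      have h := (fpib_pow (y := B₀.j (pw a * θ)) n).1
      rw [← map_pow, yp, j0 B₀.ov, order_ww] at h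
      have h1 : 0 < (B₀.j (pw a * θ)).order := by
        refine not_le.1 fun h0 => (h ▸ nsmul_nonpos h0 (l ^ n)).not_gt ?_
        exact Subtype.mk_lt_mk.2 (by simp)
      have h2 := HahnSeries.coeff_eq_zero_of_lt_order h1
      have h3 := lr B₀
      rw [(fpib_one_sub h1.le (h2.trans_ne zero_ne_one)).2, h2, sub_zero] at h3
      rw [fpib_root B₀ σ (r0 a) (sr B₀ lc_ww), fpib_fix hz hσ h3,
        div_self fun h0 => by rw [h0, zero_pow hl] at h3; exact zero_ne_one h3, map_one, map_one,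
        one_mul]
    have fx : ∀ x, B₀.s σ x = x → f x = B₁.s σ x := fun x hx => by
      have : f (B₀.s σ x) = B₁.s σ x := (DFunLike.congr_fun hf _).trans (by simp)
      rwa [hx] at this
    have k0 : κ f = 0 := pw_inj (mul_right_cancel₀ θ0 (by
      rw [← gθ, fx θ (sθ B₀ lc_ww), sθ B₁ o1.2, pw_zero, one_mul]))
    have h := (fpib_pow (y := B₁.j (pw a * θ)) n).1
    rw [← map_pow, yp, j0 B₁.ov, o1.1] at h
    have h1 : (B₁.j (pw a * θ)).order = 0 := (smul_eq_zero.1 h.symm).resolve_left hl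
    have h2 : (B₁.j (pw a * θ)).coeff 0 = z n ^ a.val := by
      rw [← h1, ← HahnSeries.leadingCoeff_eq, map_mul, HahnSeries.leadingCoeff_mul, hθ1, mul_one,
        pw_j B₁.ov, HahnSeries.C_apply, HahnSeries.leadingCoeff_of_single]
    have h3 : z n ^ a.val ≠ 1 := (hz.prim n).pow_ne_one_of_pos_of_lt
      (by rwa [Ne, ZMod.val_eq_zero]) (ZMod.val_lt a)
    have h4 := lr B₁
    rw [(fpib_one_sub h1.ge (h2 ▸ h3)).2, h2] at h4
    have h5 := hμ f a
    rw [k0, add_zero, fx _ s0, fpib_root B₁ σ (r0 a) (sr B₁ o1.2)] at h5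
    have h6 := congrArg B₁.j (mul_right_cancel₀ (r0 a) h5)
    rw [B₁.ov.1, pw_j B₁.ov] at h6
    have h7 : σ _ / _ = _ := HahnSeries.C_injective h6
    generalize (B₁.j (r a)).leadingCoeff = c at h4 h7
    have c0 : c ≠ 0 := fun h0 => h3 (by rw [h0, zero_pow hl] at h4; linear_combination h4)
    have h8 := fpib_fix hz hσ (c := ρ / c) (n := n) (by
      rw [div_pow, hρ, h4, div_self (sub_ne_zero.2 h3.symm)])
    rw [map_div₀, div_eq_iff ((map_ne_zero σ).2 c0)] at h8
    rw [h8, ← h7]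
    field_simp

end Pool.Agent.Lib.MP_446a91_nt.Gal
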