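import Pool.Agent.Lib.MP_446a91_nt.Gal.FDefs

/-! Pro-`l` extensions, embeddings, base points (MP_446a91_nt). -/

namespace Pool.Agent.Lib.MP_446a91_nt.Gal

variable {l : ℕ} [Fact l.Prime] {F E : Type} [Field F] [Field E] [Algebra F E]

theorem Nrm.mul {s s' : E ≃+* E} (h : Nrm F s) (h' : Nrm F s') : Nrm F (s * s') :=
  fun x => (h (s' x)).trans (h' x)

theorem Nrm.inv {s : E ≃+* E} (h : Nrm F s) : Nrm F s⁻¹ := fun x => by
  have h1 := h (s⁻¹ x)
  rw [show s (s⁻¹ x) = x from s.apply_symm_apply x] at h1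
  exact h1.symm

theorem fprola_cont [Algebra.IsAlgebraic F E] {T : Type} [TopologicalSpace T]
    (f : T → (E ≃ₐ[F] E)) : Continuous f ↔ ∀ x, IsLocallyConstant fun a => f a x := by
  constructor
  · intro hf x
    refine (IsLocallyConstant.iff_eventually_eq _).2 fun b => ?_
    have h1 := (stabilizer_isOpen_of_isIntegral (K := F) x).preimage
      (continuous_const.mul hf : Continuous fun a => (f b)⁻¹ * f a)
    filter_upwards [h1.mem_nhds (x := b) (by simp)] with a ha
    exact (f b).symm_apply_eq.1 ha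
  · intro h
    refine continuous_iff_continuousAt.2 fun b => ?_
    have h1 : Filter.Tendsto (fun a => (f b)⁻¹ * f a) (nhds b) (nhds 1) := by
      intro t ht
      obtain ⟨L, hL, h2⟩ := (krullTopology_mem_nhds_one_iff F E t).1 ht
      have h3 : ∀ᶠ a in nhds b, ∀ i, f a (Module.finBasis F L i) = f b (Module.finBasis F L i) :=
        Filter.eventually_all.2 fun i => (h _).eventually_eq b
      refine Filter.mem_map.2 (h3.mono fun a ha => ?_)
      refine h2 ((IntermediateField.mem_fixingSubgroup_iff _ _).2 fun x hx => ?_)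
      have h4 : (f a).toLinearMap ∘ₗ L.val.toLinearMap = (f b).toLinearMap ∘ₗ L.val.toLinearMap :=
        (Module.finBasis F L).ext ha
      exact (f b).symm_apply_eq.2 (LinearMap.congr_fun h4 ⟨x, hx⟩)
    have h5 := h1.const_mul (f b)
    simp only [mul_inv_cancel_left, mul_one] at h5
    exact h5

/-- The conjugate of an element of the Galois group. -/
def fprolaCj (s : E ≃+* E) (hs : Nrm F s) (g : E ≃ₐ[F] E) : E ≃ₐ[F] E :=
  AlgEquiv.ofRingEquiv (f := s * g.toRingEquiv * s⁻¹) fun c => by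
    obtain ⟨d, hd⟩ := (hs.inv (algebraMap F E c)).2 ⟨c, rfl⟩
    change s (g (s⁻¹ (algebraMap F E c))) = algebraMap F E c
    rw [← hd, g.commutes, hd]
    exact s.apply_symm_apply _

/-- Conjugation as an automorphism of the Galois group. -/
def fprolaAut (s : E ≃+* E) (hs : Nrm F s) : MulAut (E ≃ₐ[F] E) where
  toFun := fprolaCj s hs
  invFun := fprolaCj s⁻¹ hs.inv
  left_inv g := by
    ext x
    change s.symm (s (g (s.symm (s x)))) = g x
    rw [s.symm_apply_apply, s.symm_apply_apply]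
  right_inv g := by
    ext x
    change s (s.symm (g (s (s.symm x)))) = g x
    rw [s.apply_symm_apply, s.apply_symm_apply]
  map_mul' g h := by
    ext x
    change s (g (h (s.symm x))) = s (g (s.symm (s (h (s.symm x)))))
    rw [s.symm_apply_apply]

theorem fprola_aut_cont [Algebra.IsAlgebraic F E] (s : E ≃+* E) (hs : Nrm F s) :
    Continuous (fprolaAut s hs) :=
  (fprola_cont _).2 fun x => ((fprola_cont _).1 continuous_id (s⁻¹ x)).comp s

/-- Conjugation action on the Galois group. -/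
theorem exists_cj [Algebra.IsAlgebraic F E] {Γ : Type} [Group Γ] (s : Γ →* (E ≃+* E))
    (hs : ∀ a, Nrm F (s a)) : ∃ c : Γ →* MulAut (E ≃ₐ[F] E), (∀ a, Continuous (c a)) ∧
      ∀ a g, (c a g).toRingEquiv = s a * g.toRingEquiv * (s a)⁻¹ := by
  refine ⟨⟨⟨fun a => fprolaAut (s a) (hs a), ?_⟩, fun a b => ?_⟩,
    fun a => fprola_aut_cont (s a) (hs a), fun a g => rfl⟩
  · ext g x
    change s 1 (g ((s 1)⁻¹ x)) = g x
    rw [map_one, inv_one]
    rfl
  · ext g x
    change s (a * b) (g ((s (a * b))⁻¹ x)) = s a (s b (g ((s b)⁻¹ ((s a)⁻¹ x))))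
    rw [map_mul, mul_inv_rev]
    rfl

theorem exists_cj_one [Algebra.IsAlgebraic F E] (s : E ≃+* E) (hs : Nrm F s) :
    ∃ c : MulAut (E ≃ₐ[F] E), Continuous c ∧
      ∀ g, (c g).toRingEquiv = s * g.toRingEquiv * s⁻¹ :=
  ⟨fprolaAut s hs, fprola_aut_cont s hs, fun _ => rfl⟩

/-- The Krull topology is the topology of pointwise convergence. -/
theorem continuous_gal [Algebra.IsAlgebraic F E] {T : Type} [TopologicalSpace T]
    (f : T → (E ≃ₐ[F] E)) : Continuous f ↔ ∀ x, IsLocallyConstant fun a => f a x :=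
  fprola_cont f

/-- Elements with finite orbit form a subfield that is algebraically closed in `E`. -/
theorem finite_orbit [Algebra.IsAlgebraic F E] {Γ : Type} [Group Γ] (s : Γ →* (E ≃+* E))
    (h : ∀ c : F, (Set.range fun a => s a (algebraMap F E c)).Finite) (x : E) :
    (Set.range fun a => s a x).Finite := by
  classical
  have hx : IsIntegral F x := (Algebra.IsAlgebraic.isAlgebraic x).isIntegral
  have hU := (minpoly F x).finite_range_coeff.biUnion fun c _ => h c
  refine (Polynomial.bUnion_roots_finite (RingHom.id E) (minpoly F x).natDegree hU).subset ?_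
  rintro _ ⟨a, rfl⟩
  have hm := ((minpoly.monic hx).map (algebraMap F E)).map (s a : E →+* E)
  refine Set.mem_iUnion₂.2 ⟨((minpoly F x).map (algebraMap F E)).map (s a : E →+* E),
    ⟨Polynomial.natDegree_map_le.trans Polynomial.natDegree_map_le, fun i => ?_⟩, ?_⟩
  · rw [Polynomial.coeff_map, Polynomial.coeff_map]
    exact Set.mem_iUnion₂.2 ⟨_, ⟨i, rfl⟩, a, rfl⟩
  · rw [Polynomial.map_id, Finset.mem_coe, Multiset.mem_toFinset, Polynomial.mem_roots hm.ne_zero]
    refine Polynomial.IsRoot.map (f := (s a : E →+* E)) ?_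
    rw [Polynomial.IsRoot.def, Polynomial.eval_map_algebraMap, minpoly.aeval]

/-- Closed stabilisers and finite orbits give locally constant orbit maps, also for
`a ↦ s a (s' a⁻¹ x)`. -/
theorem lc_of_finite {Γ : Type} [Group Γ] [TopologicalSpace Γ] [IsTopologicalGroup Γ]
    (s : Γ →* (E ≃+* E)) (h1 : ∀ x, IsClosed {a | s a x = x})
    (h2 : ∀ x, (Set.range fun a => s a x).Finite) (x : E) : IsLocallyConstant fun a => s a x := by
  have h3 : ∀ y ∈ Set.range fun a => s a x, IsClosed ((fun a => s a x) ⁻¹' {y}) := by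
    rintro _ ⟨b, rfl⟩
    have e : (fun a => s a x) ⁻¹' {s b x} = (fun a => b⁻¹ * a) ⁻¹' {a | s a x = x} := by
      ext a
      simp only [Set.mem_preimage, Set.mem_singleton_iff, Set.mem_ofPred_eq, map_mul, map_inv]
      exact (s b).symm_apply_eq.symm
    rw [e]
    exact (h1 x).preimage (continuous_const.mul continuous_id)
  intro t
  have e : ((fun a => s a x) ⁻¹' t)ᶜ =
      ⋃ y ∈ (Set.range fun a => s a x) \ t, (fun a => s a x) ⁻¹' {y} := by
    ext a
    simp only [Set.mem_compl_iff, Set.mem_preimage, Set.mem_iUnion, Set.mem_singleton_iff]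
    exact ⟨fun ha => ⟨_, ⟨⟨a, rfl⟩, ha⟩, rfl⟩, fun ⟨y, hy, e⟩ => e ▸ hy.2⟩
  rw [← isClosed_compl_iff, e]
  exact ((h2 x).subset Set.sdiff_subset).isClosed_biUnion fun y hy => h3 y hy.1

theorem lc_comp {T : Type} [TopologicalSpace T] (s s' : T → E → E)
    (h : ∀ x, IsLocallyConstant fun a => s a x) (h' : ∀ x, IsLocallyConstant fun a => s' a x)
    (x : E) : IsLocallyConstant fun a => s a (s' a x) := by
  refine (IsLocallyConstant.iff_eventually_eq _).2 fun b => ?_
  filter_upwards [(h' x).eventually_eq b, (h (s' b x)).eventually_eq b] with a h1 h2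
  rw [h1, h2]

/-- The product of `X - y` over the finite orbit has coefficients in `F`. -/
theorem isGalois_of_fixed [Algebra.IsAlgebraic F E]
    (h : ∀ x : E, (∀ g : E ≃ₐ[F] E, g x = x) → x ∈ (algebraMap F E).range) : IsGalois F E := by
  classical
  have key : ∀ x : E, ∃ P : Polynomial E, P ≠ 0 ∧ P.Splits ∧ P.Separable ∧
      (minpoly F x).map (algebraMap F E) ∣ P := by
    intro x
    have hx : IsIntegral F x := (Algebra.IsAlgebraic.isAlgebraic x).isIntegral
    have hf : (Set.range fun g : E ≃ₐ[F] E => g x).Finite := by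
      refine ((minpoly F x).rootSet_finite E).subset ?_
      rintro _ ⟨g, rfl⟩
      rw [Polynomial.mem_rootSet_of_ne (minpoly.ne_zero hx), Polynomial.aeval_algHom_apply,
        minpoly.aeval, map_zero]
    have hm : ∀ y, y ∈ hf.toFinset ↔ ∃ g : E ≃ₐ[F] E, g x = y := fun y => hf.mem_toFinset
    have hl : ∏ y ∈ hf.toFinset, (Polynomial.X - Polynomial.C y) ∈
        Polynomial.lifts (algebraMap F E) := by
      refine (Polynomial.lifts_iff_coeff_lifts _).2 fun n => h _ fun g => ?_
      have e : (∏ y ∈ hf.toFinset, (Polynomial.X - Polynomial.C y)).map (g : E →+* E) =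
          ∏ y ∈ hf.toFinset, (Polynomial.X - Polynomial.C y) := by
        rw [Polynomial.map_prod]
        refine Finset.prod_equiv g.toEquiv (fun y => ?_) fun y _ => by simp
        rw [hm, hm]
        constructor
        · rintro ⟨g', rfl⟩
          exact ⟨g * g', rfl⟩
        · rintro ⟨g', e⟩
          exact ⟨g⁻¹ * g', g.symm_apply_eq.2 e⟩
      conv_rhs => rw [← e, Polynomial.coeff_map]
      rfl
    obtain ⟨q, hq⟩ := (Polynomial.mem_lifts _).1 hl
    refine ⟨_, (Polynomial.monic_prod_of_monic hf.toFinset (fun y => Polynomial.X - Polynomial.C y)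
      fun y _ => Polynomial.monic_X_sub_C y).ne_zero,
      Polynomial.Splits.prod fun y _ => Polynomial.Splits.X_sub_C y,
      Polynomial.separable_prod_X_sub_C_iff'.2 fun _ _ _ _ e => e, ?_⟩
    rw [← hq]
    refine Polynomial.map_dvd _ (minpoly.dvd F x ?_)
    rw [← Polynomial.eval_map_algebraMap, hq, Polynomial.eval_prod]
    exact Finset.prod_eq_zero ((hm x).2 ⟨1, rfl⟩) (by simp)
  refine isGalois_iff.2 ⟨⟨fun x => ?_⟩, normal_iff.2 fun x => ?_⟩
  · obtain ⟨P, -, -, h1, h2⟩ := key x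
    exact (Polynomial.separable_map (algebraMap F E)).1 (h1.of_dvd h2)
  · obtain ⟨P, h0, h1, -, h2⟩ := key x
    exact ⟨(Algebra.IsAlgebraic.isAlgebraic x).isIntegral, h1.of_dvd h0 h2⟩

section grp
variable {A B C : Type} [Group A] [TopologicalSpace A] [IsTopologicalGroup A] [Group B]
  [TopologicalSpace B] [IsTopologicalGroup B] [Group C] [TopologicalSpace C]

theorem exists_desc [CompactSpace A] [T2Space B] (q : A →* B) (hq : Continuous q)
    (hs : Function.Surjective q) (f : A →* C) (hf : Continuous f) (h : q.ker ≤ f.ker) :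
    ∃ f' : B →* C, Continuous f' ∧ ∀ a, f' (q a) = f a := by
  have h1 : ∀ a, q.liftOfSurjective hs ⟨f, h⟩ (q a) = f a := fun a =>
    q.liftOfRightInverse_comp_apply _ _ ⟨f, h⟩ a
  refine ⟨q.liftOfSurjective hs ⟨f, h⟩, ?_, h1⟩
  refine (hq.isClosedMap.isQuotientMap hq hs).continuous_iff.2 ?_
  exact hf.congr fun a => (h1 a).symm

/-- An extension of pro-`l` groups is pro-`l`: for `U` open normal in `B` the image `p U` is open
normal in `C` (closed of finite index). -/
theorem isProL_ext [CompactSpace B] [T2Space C] [IsTopologicalGroup C] (i : A →* B)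
    (hi : Continuous i) (p : B →* C) (hp : Continuous p) (hs : Function.Surjective p)
    (hk : ∀ g, p g = 1 → g ∈ i.range) (hA : IsProL l A) (hC : IsProL l C) : IsProL l B := by
  intro U hn ho g
  have h1 : IsClosed (U.map p : Set C) :=
    ((U.isClosed_of_isOpen ho).isCompact.image hp).isClosed
  have h2 : Finite (B ⧸ U) := U.quotient_finite_of_isOpen ho
  have h3 : (U.map p).FiniteIndex :=
    ⟨fun e => U.index_ne_zero_of_finite (eq_zero_of_zero_dvd (e ▸ U.index_map_dvd hs))⟩
  obtain ⟨k, u, hu, e⟩ := hC (U.map p) (hn.map p hs)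
    ((U.map p).isOpen_of_isClosed_of_finiteIndex h1) (p g)
  obtain ⟨a, ha⟩ := hk (g ^ l ^ k * u⁻¹) (by rw [map_mul, map_inv, e, map_pow, mul_inv_cancel])
  obtain ⟨m, hm⟩ := hA (U.comap i) (hn.comap i) (ho.preimage hi) a
  refine ⟨k + m, ?_⟩
  rw [Subgroup.mem_comap, map_pow, ha, ← QuotientGroup.eq_one_iff, QuotientGroup.mk_pow,
    QuotientGroup.mk_mul, (QuotientGroup.eq_one_iff _).2 (inv_mem hu), mul_one,
    ← QuotientGroup.mk_pow, ← pow_mul, ← pow_add, QuotientGroup.eq_one_iff] at hm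
  exact hm

theorem fprola_char {Q : Type} [Group Q] [Finite Q] (hp : IsPGroup l Q) (N : Subgroup Q)
    (hN : N ≠ ⊤) : ∃ χ : Q →* Multiplicative (ZMod l), χ ≠ 1 ∧ N ≤ χ.ker := by
  have hl : l.Prime := Fact.out
  obtain ⟨m, hm⟩ := IsPGroup.iff_card.1 hp
  obtain ⟨n, hn⟩ := IsPGroup.iff_card.1 (hp.to_subgroup N)
  have h1 : n < m := by
    by_contra h
    refine hN (Subgroup.eq_top_of_le_card N ?_)
    rw [hm, hn]
    exact Nat.pow_le_pow_right hl.pos (not_lt.1 h)
  obtain ⟨m, rfl⟩ : ∃ k, m = k + 1 := ⟨m - 1, by omega⟩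
  obtain ⟨K, hK, hNK⟩ := Sylow.exists_subgroup_card_pow_prime_le l (m := m)
    (by rw [hm]; exact pow_dvd_pow l m.le_succ) N hn (by omega)
  have h2 : K.index = l := by
    have h3 := K.card_mul_index
    rw [hK, hm, pow_succ] at h3
    exact Nat.eq_of_mul_eq_mul_left (pow_pos hl.pos m) h3
  have h3 : K.Normal := Subgroup.normal_of_index_eq_minFac_card (by
    rw [hm, h2, hl.pow_minFac m.succ_ne_zero])
  have e : Q ⧸ K ≃* Multiplicative (ZMod l) := mulEquivOfPrimeCardEq (p := l) h2 (by simp)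
  have h4 : (e.toMonoidHom.comp (QuotientGroup.mk' K)).ker = K := by
    ext g
    simp
  refine ⟨e.toMonoidHom.comp (QuotientGroup.mk' K), fun h5 => ?_, h4.symm ▸ hNK⟩
  rw [h5, MonoidHom.ker_one] at h4
  rw [← h4, Subgroup.index_top] at h2
  exact hl.one_lt.ne h2

/-- A closed proper subgroup of a pro-`l` group lies in the kernel of a character. -/
theorem exists_char_of_ne_top [CompactSpace A] [TotallyDisconnectedSpace A] (hA : IsProL l A)
    (H : Subgroup A) (h1 : IsClosed (H : Set A)) (h2 : H ≠ ⊤) :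
    ∃ χ : A →* Multiplicative (ZMod l), IsOpen (χ.ker : Set A) ∧ χ ≠ 1 ∧ H ≤ χ.ker := by
  have hl : l.Prime := Fact.out
  obtain ⟨N, hN, hHN, hN'⟩ : ∃ N : Subgroup A, IsOpen (N : Set A) ∧ H ≤ N ∧ N ≠ ⊤ := by
    by_contra hc
    refine h2 ((ProfiniteGrp.closedSubgroup_eq_sInf_open ⟨H, h1⟩).trans ?_)
    exact sInf_eq_top.2 fun N hN => by_contra fun e => hc ⟨N, hN.1, hN.2, e⟩
  have h3 : Finite (A ⧸ N) := N.quotient_finite_of_isOpen hN
  have h4 : N.FiniteIndex := N.finiteIndex_of_finite_quotient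
  have hU : IsOpen (N.normalCore : Set A) :=
    Subgroup.isOpen_of_isClosed_of_finiteIndex _ (N.normalCore_isClosed (N.isClosed_of_isOpen hN))
  have h5 : Finite (A ⧸ N.normalCore) := N.normalCore.quotient_finite_of_isOpen hU
  have hp : IsPGroup l (A ⧸ N.normalCore) := by
    intro q
    obtain ⟨g, rfl⟩ := QuotientGroup.mk_surjective q
    obtain ⟨k, hk⟩ := hA _ inferInstance hU g
    exact ⟨k, by rw [← QuotientGroup.mk_pow, QuotientGroup.eq_one_iff]; exact hk⟩
  have h6 : N.map (QuotientGroup.mk' N.normalCore) ≠ ⊤ := by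
    intro e
    have h7 := congrArg (Subgroup.comap (QuotientGroup.mk' N.normalCore)) e
    rw [Subgroup.comap_map_eq, QuotientGroup.ker_mk', sup_eq_left.2 N.normalCore_le,
      Subgroup.comap_top] at h7
    exact hN' h7
  obtain ⟨χ, h7, h8⟩ := fprola_char hp _ h6
  refine ⟨χ.comp (QuotientGroup.mk' N.normalCore), Subgroup.isOpen_mono (fun g hg => ?_) hU,
    fun e => h7 ?_, fun g hg => h8 ⟨g, hHN hg, rfl⟩⟩
  · rw [MonoidHom.mem_ker, MonoidHom.comp_apply, QuotientGroup.mk'_apply,
      (QuotientGroup.eq_one_iff g).2 hg, map_one]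
  · ext q
    exact DFunLike.congr_fun e q

end grp

end Pool.Agent.Lib.MP_446a91_nt.Gal
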