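import Pool.Agent.Lib.MP_446a91_nt.Gal.FGood
import Pool.Agent.Lib.MP_446a91_nt.Gal.FPi

/-! The four projections (MP_446a91_nt, paper A9). -/

namespace Pool.Agent.Lib.MP_446a91_nt.Gal

variable {l : ℕ} [Fact l.Prime] {z : ℕ → Qb}

theorem fproj_s : toKb sX = RatFunc.C sK := toKb_C _

theorem fproj_t : toKb tX = RatFunc.X := toKb_X

theorem fproj_map (q : Fin 4) (p r : Polynomial Kb)
    (h2 : toKb (uX q) = algebraMap _ _ p / algebraMap _ _ r)
    (h3 : ∀ a, a ≠ 0 → a ≠ sK → a ≠ 1 → r.eval a ≠ 0 ∧ p.eval a ≠ 0 ∧ p.eval a ≠ r.eval a) :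
    ∃ e : MX l →+* NN l,
      ∀ c, e (algebraMap (RatFunc Qb) (MX l) c) = algebraMap FX (NN l) (psi q c) :=
  exists_map_maxExt cK (toKb.comp (psi q)) (fun c => (congrArg toKb (psi_C q c)).trans (toKb_C _))
    p r ((congrArg toKb (psi_X q)).trans h2) fun a ha => by
      obtain ⟨h4, h5, h6⟩ := h3 a (fun h => ha ⟨0, h.symm⟩) (fun h => ha ⟨1, h.symm⟩)
        fun h => ha ⟨2, h.symm⟩
      refine ⟨h4, ?_⟩
      rintro _ (rfl | rfl)
      · rwa [map_zero, zero_mul]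
      · rwa [map_one, one_mul]

/-- `exists_map_maxExt` with `ψ = toKb ∘ psi q`, `(p, q) = (X, 1), (X, C s), (C s - X, 1 - X)`. -/
theorem exists_eN (q : Fin 4) : ∃ e : MX l →+* NN l,
    (∀ c, e (algebraMap (RatFunc Qb) (MX l) c) = algebraMap FX (NN l) (psi q c)) ∧
    (q = 0 → ∀ x : MX l, e x = cN l x) := by
  have s0 : sK ≠ 0 := fun h => absurd (ptN_injective (a₁ := 1) (a₂ := 0) h) (by decide)
  have s1 : sK ≠ 1 := fun h => absurd (ptN_injective (a₁ := 1) (a₂ := 2) h) (by decide)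
  by_cases hq : q = 0
  · refine ⟨(cN l).comp (maxExt l Qb {0, 1}).val.toRingHom, fun c => ?_, fun _ _ => rfl⟩
    rw [hq, psi_zero, algFX_apply, toKb_C]
    rfl
  suffices h : ∃ e : MX l →+* NN l,
      ∀ c, e (algebraMap (RatFunc Qb) (MX l) c) = algebraMap FX (NN l) (psi q c) from
    h.imp fun e he => ⟨he, fun h => absurd h hq⟩
  fin_cases q
  · exact absurd rfl hq
  · exact fproj_map _ Polynomial.X 1 (fproj_t.trans (by simp)) fun a h0 _ h1 => by simp [h0, h1]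
  · refine fproj_map _ Polynomial.X (Polynomial.C sK) ?_ fun a h0 h1 _ => by simp [h0, h1, s0]
    rw [RatFunc.algebraMap_X, RatFunc.algebraMap_C, ← fproj_s, ← fproj_t]
    exact map_div₀ toKb tX sX
  · refine fproj_map _ (Polynomial.C sK - Polynomial.X) (1 - Polynomial.X) ?_ fun a _ h1 h2 => by
      simp [sub_eq_zero, h1.symm, h2.symm, s1]
    rw [map_sub, map_sub, map_one, RatFunc.algebraMap_X, RatFunc.algebraMap_C, ← fproj_s, ← fproj_t,
      ← map_one toKb, ← map_sub, ← map_sub]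
    exact map_div₀ toKb (sX - tX) (1 - tX)

/-- For `q ≠ 0`: `p (D.sec h)` (`exists_proj`) commutes with `p (D.i φ)` by `good`; take
`φ = x₀, x₂` (`q = 1`), `x₀, x₁` (`q = 2`), `x₁, (x₁ x₂)⁻¹` (`q = 3`), `gr_central`, `freeM`. -/
theorem sec_fix_e (hz : IsRoots l z) (D : NData l) (q : Fin 4) (e : MX l →+* NN l)
    (he : ∀ c, e (algebraMap (RatFunc Qb) (MX l) c) = algebraMap FX (NN l) (psi q c))
    (h0 : q = 0 → ∀ x : MX l, e x = cN l x) (h : GK)
    (hh : ∀ c ∈ maxExt l Qb {0, 1}, h c = c) (x : MX l) : D.sec h (e x) = e x := by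
  by_cases hq : q = 0
  · rw [h0 hq, D.res_spec, D.res_sec, hh _ x.2]
  have := isAlgebraic_NN (l := l)
  have := (maxExt_gal l ({0, 1} : Set Qb)).1
  obtain ⟨p, -, hp, hk⟩ := exists_proj hz allRoots_NN q e he
  obtain ⟨xs, -, -, hx⟩ := exists_xs (l := l) hz
  obtain ⟨φ, hφ⟩ : ∃ φ : Fin 2 → PhiN l,
      ∀ a c, kkM l z a (p (D.i (φ c))) = if a = c then 1 else 0 := by
    have hc := fun c => isChar_kl (l := l) (isRoots_zK hz) (Set.mem_range_self (f := ptN) c)
    simp only [hk, kE_i hz]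
    fin_cases q
    · exact absurd rfl hq
    · refine ⟨![xs 0, xs 2], fun a c => ?_⟩
      fin_cases a <;> fin_cases c <;>
        simp [hx, tabP, tabA, fib, Fin.sum_univ_five]
    · refine ⟨![xs 0, xs 1], fun a c => ?_⟩
      fin_cases a <;> fin_cases c <;>
        simp [hx, tabP, tabA, fib, Fin.sum_univ_five]
    · refine ⟨![xs 1, (xs 1 * xs 2)⁻¹], fun a c => ?_⟩
      fin_cases a <;> fin_cases c <;>
        simp [hx, tabP, tabA, fib, Fin.sum_univ_five, Fin.sum_univ_three, (hc _).add,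
          (hc _).inv]
  have h1 : p (D.sec h) = 1 := gr_central (freeM hz _ hφ) (isChar_kkM hz) hφ zero_ne_one
    (hφ · 0) (hφ · 1) ((good hz D h hh _).map p) ((good hz D h hh _).map p)
  rw [← hp, h1, AlgEquiv.one_apply]

end Pool.Agent.Lib.MP_446a91_nt.Gal
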