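import Pool.Agent.Lib.MP_446a91_nt.Gal.FFreeA

/-! Sections attached to tangential base points (MP_446a91_nt). -/

namespace Pool.Agent.Lib.MP_446a91_nt.Gal

variable {l : ℕ} [Fact l.Prime] {k : Type} [Field k] [IsAlgClosed k] [CharZero k] {S : Set k}

/-- `exists_lift_max`, `nrm_of_lift`, `exists_bp'`, `ratFunc_ext`. -/
theorem exists_sec_one (σ : k ≃+* k) (hσ : ∀ a, σ a ∈ S ↔ a ∈ S) {T : HS l k}
    (hT : cact l k σ T = T) (j : maxExt l k S →+* HS l k) (hj : Over (RingHom.id k) T j) :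
    ∃ s : maxExt l k S ≃+* maxExt l k S, (∀ x, j (s x) = cact l k σ (j x)) ∧
    (∀ c, s (algebraMap (RatFunc k) _ (RatFunc.C c)) = algebraMap (RatFunc k) _ (RatFunc.C (σ c))) ∧
    s (algebraMap (RatFunc k) _ RatFunc.X) = algebraMap (RatFunc k) _ RatFunc.X := by
  obtain ⟨s, h1, h2⟩ := exists_lift_max (l := l) σ hσ
  have := (maxExt_gal l S).1
  have e : ((cact l k σ).toRingHom.comp (j.comp (algebraMap (RatFunc k) _))) =
      j.comp (s.toRingHom.comp (algebraMap (RatFunc k) _)) := by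
    refine ratFunc_ext (fun c => ?_) ?_
    · change cact l k σ (j (algebraMap (RatFunc k) _ (RatFunc.C c))) =
        j (s (algebraMap (RatFunc k) _ (RatFunc.C c)))
      rw [h1, hj.1, hj.1]
      exact cact_C σ c
    · change cact l k σ (j (algebraMap (RatFunc k) _ RatFunc.X)) =
        j (s (algebraMap (RatFunc k) _ RatFunc.X))
      rw [h2, hj.2, hT]
  obtain ⟨g, g1, g2⟩ := exists_bp' (F := RatFunc k) j (cact l k σ) s (nrm_of_lift σ s h1 h2)
    fun c => DFunLike.congr_fun e c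
  exact ⟨g, g1, fun c => (g2 _).trans (h1 c), (g2 _).trans h2⟩

theorem fsec_fin_op {Γ E : Type} {f g : Γ → E} (op : E → E → E) (hf : (Set.range f).Finite)
    (hg : (Set.range g).Finite) : (Set.range fun a => op (f a) (g a)).Finite := by
  refine (hf.image2 op hg).subset ?_
  rintro _ ⟨a, rfl⟩
  exact ⟨_, ⟨a, rfl⟩, _, ⟨a, rfl⟩, rfl⟩

theorem fsec_fin_const {k₀ K : Type} [Field k₀] [Field K] [Algebra k₀ K]
    [Algebra.IsAlgebraic k₀ K] (c : K) : (Set.range fun σ : K ≃ₐ[k₀] K => σ c).Finite := by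
  obtain ⟨p, hp, hc⟩ := Algebra.IsAlgebraic.isAlgebraic (R := k₀) c
  refine (p.rootSet_finite K).subset ?_
  rintro _ ⟨σ, rfl⟩
  rw [Polynomial.mem_rootSet]
  exact ⟨hp, by rw [Polynomial.aeval_algHom_apply, hc, map_zero]⟩

theorem fsec_fin {Γ K E : Type} [Field K] [Field E] [Algebra (RatFunc K) E] (s : Γ → E ≃+* E)
    (h1 : ∀ c, (Set.range fun a => s a (algebraMap (RatFunc K) E (RatFunc.C c))).Finite)
    (h2 : ∀ a, s a (algebraMap (RatFunc K) E RatFunc.X) = algebraMap (RatFunc K) E RatFunc.X)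
    (y : RatFunc K) : (Set.range fun a => s a (algebraMap (RatFunc K) E y)).Finite := by
  have hX : (Set.range fun a => s a (algebraMap (RatFunc K) E RatFunc.X)).Finite :=
    (Set.finite_singleton _).subset (by rintro _ ⟨a, rfl⟩; exact h2 a)
  have hp : ∀ p : Polynomial K, (Set.range fun a =>
      s a (algebraMap (RatFunc K) E (algebraMap (Polynomial K) (RatFunc K) p))).Finite := by
    intro p
    induction p using Polynomial.induction_on with
    | C c => exact h1 c
    | add p q hp hq => simpa only [map_add] using fsec_fin_op (· + ·) hp hq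
    | monomial n c ih =>
      have := fsec_fin_op (· * ·) ih hX
      simpa only [pow_succ, ← mul_assoc, map_mul, RatFunc.algebraMap_X] using this
  rw [← RatFunc.num_div_denom y]
  simpa only [map_div₀] using fsec_fin_op (· / ·) (hp y.num) (hp y.denom)

/-- `exists_bp_hom`; stabilisers are closed (intersection over the coefficients), orbits are finite
(`finite_orbit`: a rational function has finitely many coefficients), `lc_of_finite`. -/
theorem exists_sec {k₀ : Type} [Field k₀] [Algebra k₀ k] [Algebra.IsAlgebraic k₀ k]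
    (hσ : ∀ (σ : k ≃ₐ[k₀] k) a, σ a ∈ S ↔ a ∈ S) {T : HS l k}
    (hT : ∀ σ : k ≃ₐ[k₀] k, cact l k σ.toRingEquiv T = T) (j : maxExt l k S →+* HS l k)
    (hj : Over (RingHom.id k) T j) :
    ∃ s : (k ≃ₐ[k₀] k) →* (maxExt l k S ≃+* maxExt l k S),
    (∀ σ x, j (s σ x) = cact l k σ.toRingEquiv (j x)) ∧
    (∀ σ c, s σ (algebraMap (RatFunc k) _ (RatFunc.C c)) =
      algebraMap (RatFunc k) _ (RatFunc.C (σ c))) ∧
    (∀ σ, s σ (algebraMap (RatFunc k) _ RatFunc.X) = algebraMap (RatFunc k) _ RatFunc.X) ∧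
    ∀ x, IsLocallyConstant fun σ => s σ x := by
  let ρ : (k ≃ₐ[k₀] k) →* (k ≃+* k) :=
    { toFun := AlgEquiv.toRingEquiv, map_one' := rfl, map_mul' := fun _ _ => rfl }
  have h := fun σ : k ≃ₐ[k₀] k => exists_sec_one σ.toRingEquiv (hσ σ) (hT σ) j hj
  obtain ⟨s, hs⟩ := exists_bp_hom j ((cact l k).comp ρ) fun σ =>
    (h σ).imp fun _ hg => hg.1
  have hs' : ∀ σ x, j (s σ x) = cact l k σ.toRingEquiv (j x) := hs
  have h1 : ∀ σ c, s σ (algebraMap (RatFunc k) _ (RatFunc.C c)) =
      algebraMap (RatFunc k) _ (RatFunc.C (σ c)) := fun σ c => by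
    obtain ⟨g, g1, g2, -⟩ := h σ
    exact (j.injective ((hs' σ _).trans (g1 _).symm)).trans (g2 c)
  have h2 : ∀ σ, s σ (algebraMap (RatFunc k) _ RatFunc.X) = algebraMap (RatFunc k) _ RatFunc.X :=
    fun σ => by
      obtain ⟨g, g1, -, g3⟩ := h σ
      exact (j.injective ((hs' σ _).trans (g1 _).symm)).trans g3
  have := (maxExt_gal l S).1
  refine ⟨s, hs', h1, h2, lc_of_finite s (fun x => ?_) (finite_orbit (F := RatFunc k) s
    (fsec_fin (fun σ => s σ) (fun c => ?_) h2))⟩
  · have e : {σ | s σ x = x} = ⋂ r, {σ : k ≃ₐ[k₀] k | σ ((j x).coeff r) = (j x).coeff r} := by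
      ext σ
      simp only [Set.mem_ofPred_eq, Set.mem_iInter]
      rw [← j.injective.eq_iff, hs', HahnSeries.ext_iff, funext_iff]
      rfl
    rw [e]
    exact isClosed_iInter fun r =>
      ((continuous_gal (fun σ : k ≃ₐ[k₀] k => σ)).1 continuous_id _).isClosed_fiber _
  · simp only [h1]
    refine ((fsec_fin_const (k₀ := k₀) c).image
      fun d => algebraMap (RatFunc k) (maxExt l k S) (RatFunc.C d)).subset ?_
    rintro _ ⟨σ, rfl⟩
    exact ⟨_, ⟨σ, rfl⟩, rfl⟩

omit [IsAlgClosed k] [CharZero k] in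
/-- An automorphism fixing the constants and `t` is in the Galois group. -/
theorem exists_gal_of_fix {E : Type} [Field E] [Algebra (RatFunc k) E] (s : E ≃+* E)
    (h1 : ∀ c, s (algebraMap (RatFunc k) E (RatFunc.C c)) = algebraMap _ _ (RatFunc.C c))
    (h2 : s (algebraMap (RatFunc k) E RatFunc.X) = algebraMap (RatFunc k) E RatFunc.X) :
    ∃ g : E ≃ₐ[RatFunc k] E, g.toRingEquiv = s := by
  have e : s.toRingHom.comp (algebraMap (RatFunc k) E) = algebraMap (RatFunc k) E :=
    ratFunc_ext h1 h2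
  exact ⟨AlgEquiv.ofRingEquiv (f := s) fun c => DFunLike.congr_fun e c, rfl⟩

omit [IsAlgClosed k] [CharZero k] in
theorem exists_ratFunc_hom {P : Type} [Field P] (φ : k →+* P) {T : P}
    (hT : ∀ p : Polynomial k, p ≠ 0 → p.eval₂ φ T ≠ 0) :
    ∃ j : RatFunc k →+* P, (∀ c, j (RatFunc.C c) = φ c) ∧ j RatFunc.X = T := by
  refine ⟨RatFunc.liftRingHom (Polynomial.eval₂RingHom φ T) fun p hp =>
    mem_nonZeroDivisors_of_ne_zero (hT p (nonZeroDivisors.ne_zero hp)), fun c => ?_, ?_⟩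
  · rw [← RatFunc.algebraMap_C, RatFunc.liftRingHom_algebraMap]
    simp
  · rw [← RatFunc.algebraMap_X, RatFunc.liftRingHom_algebraMap]
    simp

theorem fsec_poly {K K' : Type} [Field K] [Field K'] (φ : K →+* K') (ψ : RatFunc K →+* RatFunc K')
    (h1 : ∀ c, ψ (RatFunc.C c) = RatFunc.C (φ c)) (h2 : ψ RatFunc.X = RatFunc.X)
    (p : Polynomial K) : ψ (algebraMap _ _ p) = algebraMap _ _ (p.map φ) := by
  have e : ψ.comp (algebraMap (Polynomial K) (RatFunc K)) =
      (algebraMap (Polynomial K') (RatFunc K')).comp (Polynomial.mapRingHom φ) :=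
    Polynomial.ringHom_ext (fun c => by simpa using h1 c) (by simpa using h2)
  exact DFunLike.congr_fun e p

/-- A rational function fixed by the coefficientwise action of the Galois group has its
coefficients in the base (monic denominator, `RatFunc.num`, `RatFunc.denom`). -/
theorem ratFunc_fixed {k₀ : Type} [Field k₀] [Algebra k₀ k] [IsGalois k₀ k]
    (ι : RatFunc k₀ →+* RatFunc k) (h1 : ∀ c, ι (RatFunc.C c) = RatFunc.C (algebraMap k₀ k c))
    (h2 : ι RatFunc.X = RatFunc.X) (y : RatFunc k)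
    (h : ∀ (σ : k ≃ₐ[k₀] k) (ψ : RatFunc k →+* RatFunc k),
      (∀ c, ψ (RatFunc.C c) = RatFunc.C (σ c)) → ψ RatFunc.X = RatFunc.X → ψ y = y) :
    y ∈ ι.range := by
  have key : ∀ σ : k ≃ₐ[k₀] k, y.num.map (σ : k →+* k) = y.num ∧
      y.denom.map (σ : k →+* k) = y.denom := by
    intro σ
    obtain ⟨ψ, g1, g2⟩ := exists_ratFunc_equiv σ.toRingEquiv
    have e := h σ ψ.toRingHom g1 g2
    have hp := fsec_poly (σ : k →+* k) ψ.toRingHom g1 g2
    have hm := (RatFunc.monic_denom y).map (σ : k →+* k)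
    have hd : algebraMap (Polynomial k) (RatFunc k) y.denom ≠ 0 :=
      RatFunc.algebraMap_ne_zero (RatFunc.denom_ne_zero y)
    have hd' : algebraMap (Polynomial k) (RatFunc k) (y.denom.map (σ : k →+* k)) ≠ 0 :=
      RatFunc.algebraMap_ne_zero hm.ne_zero
    rw [← RatFunc.num_div_denom y, map_div₀, hp, hp, div_eq_div_iff hd' hd, ← map_mul,
      ← map_mul] at e
    have e1 := RatFunc.algebraMap_injective k e
    have e2 : y.denom ∣ y.denom.map (σ : k →+* k) :=
      (RatFunc.isCoprime_num_denom y).symm.dvd_of_dvd_mul_left ⟨_, e1.symm.trans (mul_comm _ _)⟩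
    have e3 := Polynomial.eq_of_monic_of_dvd_of_natDegree_le (RatFunc.monic_denom y) hm e2
      (Polynomial.natDegree_map_le)
    rw [e3] at e1
    exact ⟨mul_right_cancel₀ (RatFunc.denom_ne_zero y) e1, e3⟩
  have lift : ∀ p : Polynomial k, (∀ σ : k ≃ₐ[k₀] k, p.map (σ : k →+* k) = p) →
      algebraMap _ (RatFunc k) p ∈ ι.range := by
    intro p hp
    obtain ⟨q, hq⟩ := (Polynomial.lifts_iff_coeff_lifts (f := algebraMap k₀ k) p).2 fun n =>
      (InfiniteGalois.mem_range_algebraMap_iff_fixed _).2 fun σ => by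
        conv_rhs => rw [← hp σ, Polynomial.coeff_map]
        rfl
    exact ⟨algebraMap _ _ q, (fsec_poly _ ι h1 h2 q).trans (congrArg _ hq)⟩
  obtain ⟨a, ha⟩ := lift _ fun σ => (key σ).1
  obtain ⟨b, hb⟩ := lift _ fun σ => (key σ).2
  exact ⟨a / b, by rw [map_div₀, ha, hb, RatFunc.num_div_denom]⟩

end Pool.Agent.Lib.MP_446a91_nt.Gal
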