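import Pool.Agent.Lib.MP_446a91_nt.Gal.FPiA

/-! The function field of the moduli space of five points (MP_446a91_nt, paper A8, A9). -/

namespace Pool.Agent.Lib.MP_446a91_nt.Gal

noncomputable section

/-- The field `ℚ̄(s)(t)`. -/
abbrev FX : Type := RatFunc (RatFunc Qb)

/-- Constants. -/
def cX : Qb →+* FX := (RatFunc.C : RatFunc Qb →+* FX).comp RatFunc.C

def sX : FX := RatFunc.C RatFunc.X

def tX : FX := RatFunc.X

/-- The five functions. -/
def fX : Fin 5 → FX := ![sX, 1 - sX, tX, 1 - tX, sX - tX]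

/-- The four coordinates. -/
def uX : Fin 4 → FX := ![sX, tX, tX / sX, (sX - tX) / (1 - tX)]

theorem fxdefs_X_ne {K : Type} [Field K] (a : K) : (RatFunc.X : RatFunc K) ≠ RatFunc.C a := by
  intro h
  have h1 := congrArg RatFunc.intDegree h
  rw [RatFunc.intDegree_X, RatFunc.intDegree_C] at h1
  exact one_ne_zero h1

theorem fxdefs_root {P : Type} [Field P] (φ : Qb →+* P) {p : Polynomial Qb} (hp : p ≠ 0) {u : P}
    (h : p.eval₂ φ u = 0) : ∃ c, φ c = u :=
  (IsAlgClosed.splits p).mem_range_of_isRoot hp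
    (by rwa [Polynomial.IsRoot.def, Polynomial.eval_map])

theorem fxdefs_prod {K P : Type} [Field K] [Field P] (φ : K →+* P) (f : Fin 5 → K)
    (a : Fin 5 → ℤ) : φ (∏ j, f j ^ a j) = ∏ j, φ (f j) ^ a j := by
  rw [map_prod]
  exact Finset.prod_congr rfl fun j _ => map_zpow₀ _ _ _

theorem fxdefs_s_ne (c : Qb) : sX ≠ cX c := fun h =>
  fxdefs_X_ne c ((RatFunc.C : RatFunc Qb →+* FX).injective h)

theorem fxdefs_s0 : sX ≠ 0 := by simpa using fxdefs_s_ne 0

theorem fxdefs_s1 : 1 - sX ≠ 0 := sub_ne_zero.2 (by simpa using (fxdefs_s_ne 1).symm)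

theorem fxdefs_t0 : tX ≠ 0 := RatFunc.X_ne_zero

theorem fxdefs_t1 : 1 - tX ≠ 0 :=
  sub_ne_zero.2 (by simpa [tX] using (fxdefs_X_ne (1 : RatFunc Qb)).symm)

theorem fxdefs_st : sX - tX ≠ 0 := sub_ne_zero.2 (fxdefs_X_ne _).symm

theorem fxdefs_u_ne (q : Fin 4) (c : Qb) : uX q ≠ cX c := by
  fin_cases q
  · exact fxdefs_s_ne c
  · exact fxdefs_X_ne _
  · intro h
    refine fxdefs_X_ne (RatFunc.C c * RatFunc.X : RatFunc Qb) ?_
    rw [map_mul]
    exact (div_eq_iff fxdefs_s0).1 h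
  · intro h
    have h0 : (sX - tX) / (1 - tX) = cX c := h
    have h1 : sX - tX = cX c * (1 - tX) := (div_eq_iff (G₀ := FX) fxdefs_t1).1 h0
    by_cases hc : c = 1
    · rw [hc, map_one, one_mul, sub_left_inj] at h1
      exact fxdefs_s1 (by rw [h1, sub_self])
    · have h2 : 1 - cX c ≠ 0 := fun h3 =>
        hc (cX.injective (by rw [map_one]; exact (sub_eq_zero.1 h3).symm))
      refine fxdefs_X_ne ((RatFunc.X - RatFunc.C c) / (1 - RatFunc.C c) : RatFunc Qb) ?_
      rw [map_div₀, map_sub, map_sub, map_one]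
      change tX = (sX - cX c) / (1 - cX c)
      refine (eq_div_iff (G₀ := FX) h2).2 ?_
      linear_combination -h1

theorem uX_trans (q : Fin 4) (p : Polynomial Qb) (hp : p ≠ 0) : p.eval₂ cX (uX q) ≠ 0 := by
  intro h
  obtain ⟨c, hc⟩ := fxdefs_root cX hp h
  exact fxdefs_u_ne q c hc.symm

/-- The substitutions `t ↦ u`. -/
def psi (q : Fin 4) : RatFunc Qb →+* FX := (exists_ratFunc_hom cX (uX_trans q)).choose

theorem psi_C (q : Fin 4) (c : Qb) : psi q (RatFunc.C c) = cX c :=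
  (exists_ratFunc_hom cX (uX_trans q)).choose_spec.1 c

theorem psi_X (q : Fin 4) : psi q RatFunc.X = uX q :=
  (exists_ratFunc_hom cX (uX_trans q)).choose_spec.2

theorem psi_zero : psi 0 = RatFunc.C :=
  ratFunc_ext (fun c => psi_C 0 c) (psi_X 0)

theorem fX_ne_zero (j : Fin 5) : fX j ≠ 0 := by
  fin_cases j
  exacts [fxdefs_s0, fxdefs_s1, fxdefs_t0, fxdefs_t1, fxdefs_st]

theorem psi_prod (q : Fin 4) (e : Fin 2) :
    psi q (![RatFunc.X, 1 - RatFunc.X] e) = ∏ j, fX j ^ tabP q e j := by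
  have h0 := fxdefs_s0
  have h3 := fxdefs_t1
  fin_cases q <;> fin_cases e <;>
    simp [psi_X, uX, tabP, Fin.prod_univ_five, fX] <;> field_simp
  ring

theorem fx_ext {P : Type} [Field P] {j j' : FX →+* P} (h0 : ∀ c, j (cX c) = j' (cX c))
    (h1 : j sX = j' sX) (h2 : j tX = j' tX) : j = j' :=
  ratFunc_ext (fun c => RingHom.congr_fun
    (ratFunc_ext (j := j.comp RatFunc.C) (j' := j'.comp RatFunc.C) h0 h1) c) h2

section E
variable (l : ℕ) [Fact l.Prime] (z : ℕ → Qb) (E : Type) [Field E] [Algebra FX E]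

/-- The roots of unity in `E`. -/
def zE (n : ℕ) : E := algebraMap FX E (cX (z n))

/-- The five Kummer characters. -/
def kE (j : Fin 5) (g : E ≃ₐ[FX] E) : ℤ_[l] := kum l (zE z E) (algebraMap FX E (fX j)) g.toRingEquiv

/-- `s` is `σ` on the constants and fixes both variables. -/
def LiftX {E : Type} [Field E] [Algebra FX E] (σ : GQ) (s : E ≃+* E) : Prop :=
  (∀ c, s (algebraMap FX E (cX c)) = algebraMap FX E (cX (σ c))) ∧
    s (algebraMap FX E sX) = algebraMap FX E sX ∧ s (algebraMap FX E tX) = algebraMap FX E tX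

/-- The field of the five point space. -/
structure XF (Φ : Type) [Group Φ] [TopologicalSpace Φ] [IsTopologicalGroup Φ] where
  gal : IsGalois FX E
  e : Fin 4 → MX l →+* E
  e_spec : ∀ q c, e q (algebraMap (RatFunc Qb) (MX l) c) = algebraMap FX E (psi q c)
  xs : Fin 3 → Φ
  free3 : IsFreePro l xs
  i : Φ →* (E ≃ₐ[FX] E)
  i_cont : Continuous i
  i_inj : Function.Injective i
  sec : PiL l →* (E ≃ₐ[FX] E)
  sec_cont : Continuous sec
  e_sec : ∀ h x, sec h (e 0 x) = e 0 (h x)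
  ker : ∀ g : E ≃ₐ[FX] E, (∀ x, g (e 0 x) = e 0 x) ↔ g ∈ i.range
  κ_xs : ∀ c j, kE l z E j (i (xs c)) = tabA (fib c) j
  κ_sec : ∀ h, kE l z E 2 (sec h) = 0 ∧ kE l z E 3 (sec h) = 0 ∧
    kE l z E 4 (sec h) = kE l z E 0 (sec h)
  lift : ∀ σ : GQ, ∃ s : E ≃+* E, LiftX σ s

variable {l z E}

theorem liftX_nrm {σ : GQ} {s : E ≃+* E} (h : LiftX σ s) : Nrm FX s := by
  obtain ⟨ψ, h1, h2⟩ := exists_ratFunc_equiv σ.toRingEquiv
  refine nrm_of_lift ψ s (fun c => RingHom.congr_fun (ratFunc_ext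
    (j := (s : E →+* E).comp ((algebraMap FX E).comp RatFunc.C))
    (j' := ((algebraMap FX E).comp RatFunc.C).comp (ψ : RatFunc Qb →+* RatFunc Qb))
    (fun c => ?_) ?_) c) h.2.2
  · refine (h.1 c).trans ?_
    change _ = algebraMap FX E (RatFunc.C (ψ (RatFunc.C c)))
    rw [h1]
    rfl
  · refine h.2.1.trans ?_
    change _ = algebraMap FX E (RatFunc.C (ψ RatFunc.X))
    rw [h2]
    rfl

theorem liftX_diff {σ : GQ} {s s' : E ≃+* E} (h : LiftX σ s) (h' : LiftX σ s') :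
    ∃ g : E ≃ₐ[FX] E, g.toRingEquiv = s' * s⁻¹ := by
  have h1 : (s' : E →+* E).comp (algebraMap FX E) = (s : E →+* E).comp (algebraMap FX E) :=
    fx_ext (fun c => (h'.1 c).trans (h.1 c).symm) (h'.2.1.trans h.2.1.symm)
      (h'.2.2.trans h.2.2.symm)
  refine ⟨AlgEquiv.ofRingEquiv (f := s' * s⁻¹) fun c => ?_, rfl⟩
  obtain ⟨d, hd⟩ := ((liftX_nrm h).inv (algebraMap FX E c)).2 ⟨c, rfl⟩
  change s' (s⁻¹ (algebraMap FX E c)) = algebraMap FX E c
  rw [← hd]
  refine (RingHom.congr_fun h1 d).trans ?_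
  change s (algebraMap FX E d) = _
  rw [hd]
  exact s.apply_symm_apply _

theorem isRoots_zE (hz : IsRoots l z) : IsRoots l (zE z E) :=
  hz.map ((algebraMap FX E).comp cX)

/-- `s, 1 - s, t, 1 - t` and `1 - t / s` have their roots in the images of `MX`. -/
theorem allRoots_fX (e : Fin 4 → MX l →+* E)
    (he : ∀ q c, e q (algebraMap (RatFunc Qb) (MX l) c) = algebraMap FX E (psi q c)) (j : Fin 5) :
    AllRoots l (algebraMap FX E (fX j)) := by
  have h : ∀ q a, AllRoots l (∏ j, algebraMap FX E (fX j) ^ tabP q a j) := fun q a => by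
    have h1 := (allRoots_fM (l := l) a).map (e q)
    rwa [fM, he, psi_prod, fxdefs_prod] at h1
  have h0 : AllRoots l (algebraMap FX E (fX 0)) := by
    simpa [tabP, Fin.prod_univ_five] using h 0 0
  fin_cases j
  · exact h0
  · simpa [tabP, Fin.prod_univ_five] using h 0 1
  · simpa [tabP, Fin.prod_univ_five] using h 1 0
  · simpa [tabP, Fin.prod_univ_five] using h 1 1
  · simpa [tabP, Fin.prod_univ_five, h0.1] using h0.mul (h 2 1)

/-- Restriction to the image of `MX` (`exists_bp`, `continuous_gal`), with its Kummer characters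
(`IsKum.of_map`, `IsKum.prod`, `psi_prod`). -/
theorem exists_proj (hz : IsRoots l z) [Algebra.IsAlgebraic FX E]
    (hr : ∀ j, AllRoots l (algebraMap FX E (fX j))) (q : Fin 4) (e : MX l →+* E)
    (he : ∀ c, e (algebraMap (RatFunc Qb) (MX l) c) = algebraMap FX E (psi q c)) :
    ∃ p : (E ≃ₐ[FX] E) →* PiL l, Continuous p ∧ (∀ g x, e (p g x) = g (e x)) ∧
      ∀ a g, kkM l z a (p g) = ∑ j, (tabP q a j : ℤ_[l]) * kE l z E j g := by
  have hg : IsGalois (RatFunc Qb) (MX l) := (maxExt_gal l _).1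
  have h1 : ∀ g : E ≃ₐ[FX] E, ∃ p : PiL l, ∀ x, e (p x) = g (e x) := fun g =>
    exists_bp e ((g : E →+* E).comp e) fun c => by
      change g (e _) = _
      rw [he, g.commutes]
  choose p hp using h1
  refine ⟨MonoidHom.mk' p fun a b => AlgEquiv.ext fun x => e.injective ?_,
    (continuous_gal _).2 fun x => IsLocallyConstant.desc _ e ?_ e.injective, hp, fun a g => ?_⟩
  · rw [AlgEquiv.mul_apply, hp, hp, hp, AlgEquiv.mul_apply]
  · have h2 := (continuous_gal fun g : E ≃ₐ[FX] E => g).1 continuous_id (e x)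
    rwa [← funext fun g => hp g x] at h2
  · refine IsKum.kum_eq (isRoots_zM hz) (allRoots_fM a)
      (IsKum.of_map e (g' := g.toRingEquiv) (hp g) ?_)
    have h2 : ∀ n, g.toRingEquiv (zE z E n) = zE z E n := fun n => g.commutes _
    have h3 : (fun n => e (zM l z n)) = zE z E := funext fun n => by rw [zM, he, psi_C, zE]
    have h4 : e (fM l a) = ∏ j, algebraMap FX E (fX j) ^ tabP q a j := by
      rw [fM, he, psi_prod, fxdefs_prod]
    rw [h3, h4]
    exact IsKum.prod (isRoots_zE hz) h2 hr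
      (fun j => isKum_kum (isRoots_zE hz) (hr j) (g.commutes _) h2) (tabP q a)

end E

/-- The algebraic closure of `ℚ̄(s)`. -/
abbrev Kb : Type := Om Qb

def cK : Qb →+* Kb := (algebraMap (RatFunc Qb) Kb).comp RatFunc.C

def sK : Kb := algebraMap (RatFunc Qb) Kb RatFunc.X

def zK (z : ℕ → Qb) (n : ℕ) : Kb := cK (z n)

theorem isRoots_zK {l : ℕ} [Fact l.Prime] {z : ℕ → Qb} (hz : IsRoots l z) : IsRoots l (zK z) :=
  hz.map cK

end

end Pool.Agent.Lib.MP_446a91_nt.Gal
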