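import Pool.Agent.Lib.MP_446a91_nt.Gal.SDefs

/-! Interface between the field side and the group side (MP_446a91_nt). -/

namespace Pool.Agent.Lib.MP_446a91_nt.Gal

noncomputable section

/-- Every finite continuous quotient is an `l`-group. -/
def IsProL (l : ℕ) (G : Type) [Group G] [TopologicalSpace G] : Prop :=
  ∀ U : Subgroup G, U.Normal → IsOpen (U : Set G) → ∀ g : G, ∃ k, g ^ l ^ k ∈ U

/-- `G` is the free pro-`l` group on the family `x`. -/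
structure IsFreePro (l : ℕ) {G ι : Type} [Group G] [TopologicalSpace G] [IsTopologicalGroup G]
    (x : ι → G) : Prop where
  pro : IsProL l G
  gen : (Subgroup.closure (Set.range x)).topologicalClosure = ⊤
  free : ∀ (H : Type) [Group H] [Finite H], IsPGroup l H → ∀ g : ι → H,
    ∃ φ : G →* H, IsOpen (φ.ker : Set G) ∧ ∀ i, φ (x i) = g i

/-- A continuous additive character with values in `ℤ_l`. -/
structure IsChar {l : ℕ} [Fact l.Prime] {G : Type} [Group G] [TopologicalSpace G]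
    (κ : G → ℤ_[l]) : Prop where
  cont : Continuous κ
  add : ∀ g h, κ (g * h) = κ g + κ h

/-- A compatible system of primitive `l`-power roots of unity. -/
structure IsRoots (l : ℕ) {k : Type} [Field k] (z : ℕ → k) : Prop where
  prim : ∀ n, IsPrimitiveRoot (z n) (l ^ n)
  step : ∀ n, z (n + 1) ^ l = z n

/-- Orders of `s, 1 - s, t, 1 - t, s - t` along the six divisors. -/
def tabA : Fin 6 → Fin 5 → ℤ :=
  ![![0, 0, 1, 0, 0], ![0, 0, 0, 0, 1], ![0, 1, 0, 0, 0], ![1, 0, 1, 0, 1], ![0, 1, 0, 1, 1],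
    ![0, 0, 0, 1, 0]]

/-- Exponents of `u` and of `1 - u` in the leading coefficients along the six divisors. -/
def tabB : Fin 6 → Fin 2 → Fin 5 → ℤ :=
  ![![![1, 0, 0, 0, 1], ![0, 1, 0, 0, 0]], ![![1, 0, 1, 0, 0], ![0, 1, 0, 1, 0]],
    ![![0, 0, 1, 0, 0], ![0, 0, 0, 1, 1]], ![![0, 0, 1, 0, 0], ![0, 0, 0, 0, 1]],
    ![![0, 1, 0, 0, 0], ![0, 0, 0, 0, 1]], ![![1, 0, 0, 0, 0], ![0, 1, 0, 0, 1]]]

/-- Exponents of the five functions in `u` and `1 - u` for `u = s, t, t / s, (s - t) / (1 - t)`. -/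
def tabP : Fin 4 → Fin 2 → Fin 5 → ℤ :=
  ![![![1, 0, 0, 0, 0], ![0, 1, 0, 0, 0]], ![![0, 0, 1, 0, 0], ![0, 0, 0, 1, 0]],
    ![![-1, 0, 1, 0, 0], ![-1, 0, 0, 0, 1]], ![![0, 0, 0, -1, 1], ![0, 1, 0, -1, 0]]]

/-- The three punctures `t = 0, s, 1` of the fibre are the divisors `0, 1, 5`. -/
def fib : Fin 3 → Fin 6 := ![0, 1, 5]

section X
variable (l : ℕ) [Fact l.Prime] (Q G Φ : Type) [Group Q] [TopologicalSpace Q] [Group G]
  [TopologicalSpace G] [Group Φ] [TopologicalSpace Φ] [IsTopologicalGroup Φ]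

/-- The group `G` of the moduli space of five points, fibred over `Q` with fibre `Φ`. -/
structure XGeo (kk : Fin 2 → Q → ℤ_[l]) where
  xs : Fin 3 → Φ
  free3 : IsFreePro l xs
  i : Φ →* G
  i_cont : Continuous i
  i_inj : Function.Injective i
  sec : Q →* G
  sec_cont : Continuous sec
  p : Fin 4 → G →* Q
  p_cont : ∀ q, Continuous (p q)
  p_sec : ∀ h, p 0 (sec h) = h
  ker : ∀ g, p 0 g = 1 ↔ g ∈ i.range
  κ : Fin 5 → G → ℤ_[l]
  κ_char : ∀ j, IsChar (κ j)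
  κ_xs : ∀ c j, κ j (i (xs c)) = tabA (fib c) j
  κ_sec : ∀ h j, κ j (sec h) = ∑ e, tabB 0 e j * kk e h
  κ_p : ∀ q e g, kk e (p q g) = ∑ j, tabP q e j * κ j g
  a : Fin 6 → G
  κ_a : ∀ d j, κ j (a d) = tabA d j
  b : Fin 6 → Fin 2 → G
  comm : ∀ d e, Commute (a d) (b d e)
  κ_b : ∀ d e j, κ j (b d e) = tabB d e j

variable {l Q G Φ}

/-- An endomorphism of `G` that lies over `α` (up to inner automorphisms) and is special. -/
structure XAut {kk : Fin 2 → Q → ℤ_[l]} (X : XGeo l Q G Φ kk) (α : MulAut Q) where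
  β : G →* G
  β_cont : Continuous β
  κ_β : ∀ j g, X.κ j (β g) = X.κ j g
  t : Fin 6 → G
  conj : ∀ d, β (X.a d) = (t d)⁻¹ * X.a d * t d
  pβ : ∀ q, ∃ g, ∀ h, X.p q (β h) = g * α (X.p q h) * g⁻¹

end X

/-- The automorphisms of `ℚ̄` that fix the roots `z n`. -/
def HH (z : ℕ → Qb) : Subgroup GQ where
  carrier := {σ | ∀ n, σ (z n) = z n}
  one_mem' := fun _ => rfl
  mul_mem' := fun {a b} ha hb n => by rw [AlgEquiv.mul_apply, hb n, ha n]
  inv_mem' := fun {a} ha n => by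
    conv_lhs => rw [← ha n]
    exact a.symm_apply_apply _

/-- What the field side provides for `π`. -/
structure PiData (l : ℕ) [Fact l.Prime] (z : ℕ → Qb) where
  gal : IsGalois (RatFunc Qb) (MX l)
  xy : Fin 2 → PiL l
  free : IsFreePro l xy
  kk : Fin 2 → PiL l → ℤ_[l]
  kk_char : ∀ e, IsChar (kk e)
  kk_xy : ∀ e c, kk e (xy c) = if e = c then 1 else 0
  zz : PiL l
  kk_zz : ∀ e, kk e zz = -1
  act : GQ →* MulAut (PiL l)
  act_cont : ∀ σ, Continuous (act σ)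
  lift : ∀ σ : GQ, ∃ s : MX l ≃+* MX l, IsLift σ s ∧ ∀ h, IsConjBy s h (act σ h)
  mem_II : ∀ m σ, σ ∈ II l m ↔
    ∃ g : PiL l, ∀ h, act σ h * (g * h * g⁻¹)⁻¹ ∈ lcs (PiL l) (m + 1)
  fix : ∀ σ, (∀ h, kk 0 (act σ h) = kk 0 h) → σ ∈ HH z
  wt : ∀ (σ : GQ) (b : ℕ), (∀ n, σ (z n) = z n ^ b) → ∀ e h, kk e (act σ h) = b * kk e h
  gam : ∃ (γ : GQ) (b : ℕ), 2 ≤ b ∧ ∀ n, γ (z n) = z n ^ b
  f : GQ → PiL l
  f_cont : Continuous f
  f_mul : ∀ σ τ, f (σ * τ) = f σ * act σ (f τ)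
  act_x : ∀ σ ∈ HH z, act σ (xy 0) = xy 0
  act_y : ∀ σ ∈ HH z, act σ (xy 1) = (f σ)⁻¹ * xy 1 * f σ
  kk_f : ∀ σ ∈ HH z, ∀ e, kk e (f σ) = 0
  act_z : ∀ σ ∈ HH z, ∃ t, (∀ e, kk e t = 0) ∧ act σ zz = t⁻¹ * zz * t
  μ : (n : ℕ) → PiL l → ZMod (l ^ n) → ZMod (l ^ n)
  μ_lc : ∀ n a, IsLocallyConstant fun g => μ n g a
  μ_mul : ∀ n g h a, μ n (g * h) a = μ n h a + μ n g (a + PadicInt.toZModPow n (kk 0 h))
  μ_sum : ∀ n g, ∑ᶠ a, μ n g a = PadicInt.toZModPow n (kk 1 g)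
  μ_f : ∀ n, ∀ σ ∈ HH z, ∀ a : ZMod (l ^ n), a ≠ 0 → ∀ r : Qb, r ^ l ^ n = 1 - z n ^ a.val →
    σ r = z n ^ (μ n (f σ) a).val * r

/-- The five point data exist over every `σ` that fixes the roots of unity. -/
def HasX {l : ℕ} [Fact l.Prime] {z : ℕ → Qb} (D : PiData l z) : Prop :=
  ∃ (G Φ : Type) (_ : Group G) (_ : TopologicalSpace G) (_ : IsTopologicalGroup G)
    (_ : CompactSpace G) (_ : T2Space G) (_ : TotallyDisconnectedSpace G) (_ : Group Φ)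
    (_ : TopologicalSpace Φ) (_ : IsTopologicalGroup Φ) (_ : CompactSpace Φ) (_ : T2Space Φ)
    (_ : TotallyDisconnectedSpace Φ) (X : XGeo l (PiL l) G Φ D.kk),
    ∀ σ ∈ HH z, Nonempty (XAut X (D.act σ))

/-- Nonvanishing of the Soule characters. -/
def Sou (l : ℕ) (z : ℕ → Qb) : Prop :=
  ∀ m, Odd m → 3 ≤ m → ∃ n, ¬ ∃ r : Qb, r ^ l ^ n =
    ∏ a ∈ (Finset.range (l ^ n)).filter (fun a => ¬ l ∣ a), (1 - z n ^ a) ^ a ^ (m - 1) ∧
      ∀ σ ∈ HH z, σ r = r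

end

end Pool.Agent.Lib.MP_446a91_nt.Gal
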