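import Pool.Agent.Lib.MP_446a91_nt.Gal.MgDefs

/-! Lie spans and centralisers of letters (MP_446a91_nt). -/

namespace Pool.Agent.Lib.MP_446a91_nt.Gal

open Module

section LS
variable {K ι A A' : Type} [CommRing K] [Ring A] [Algebra K A] [Ring A'] [Algebra K A']
  {a : ι → A} {d i j : ℕ} {u v : A}

theorem mgalg_inv (h : Br a (fun _ => 1) d u) : u ∈ Set.range a ∨ ∃ m n v w, m + n = d ∧
    Br a (fun _ => 1) m v ∧ Br a (fun _ => 1) n w ∧ u = cm v w := by
  induction h with
  | of i => exact Or.inl ⟨i, rfl⟩
  | lie h1 h2 _ _ => exact Or.inr ⟨_, _, _, _, rfl, h1, h2, rfl⟩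

theorem LS_eq_span (a : ι → A) (d : ℕ) :
    LS K a d = Submodule.span K {u | Br a (fun _ => 1) d u} := by
  refine le_antisymm (Submodule.span_le.2 fun u hu => ?_)
    (Submodule.span_mono AddSubgroup.subset_closure)
  exact Sp_induction (P := fun u => u ∈ Submodule.span K {u | Br a (fun _ => 1) d u}) hu
    (fun _ h => Submodule.subset_span h) (zero_mem _) (fun _ _ => add_mem) fun _ => neg_mem

theorem LS_one (a : ι → A) : LS K a 1 = Submodule.span K (Set.range a) := by
  rw [LS_eq_span]
  congr 1
  ext u
  refine ⟨fun h => ?_, ?_⟩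
  · rcases mgalg_inv h with h | ⟨m, n, v, w, h1, h2, h3, -⟩
    · exact h
    · have := Br.pos (fun _ => le_rfl) h2
      have := Br.pos (fun _ => le_rfl) h3
      omega
  · rintro ⟨i, rfl⟩
    exact Br.of i

theorem gen_mem_LS (a : ι → A) (i : ι) : a i ∈ LS K a 1 :=
  Submodule.subset_span (gen_mem a (fun _ => 1) i)

theorem cm_mem_LS (hu : u ∈ LS K a i) (hv : v ∈ LS K a j) : cm u v ∈ LS K a (i + j) := by
  induction hu using Submodule.span_induction with
  | mem u hu =>
    induction hv using Submodule.span_induction with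
    | mem v hv => exact Submodule.subset_span (cm_mem hu hv)
    | zero => simp [cm]
    | add v w _ _ h1 h2 =>
      have : cm u (v + w) = cm u v + cm u w := by simp only [cm]; noncomm_ring
      rw [this]; exact add_mem h1 h2
    | smul r v _ h =>
      have : cm u (r • v) = r • cm u v := by simp [cm, smul_sub]
      rw [this]; exact Submodule.smul_mem _ r h
  | zero => simp [cm]
  | add u w _ _ h1 h2 =>
    have : cm (u + w) v = cm u v + cm w v := by simp only [cm]; noncomm_ring
    rw [this]; exact add_mem h1 h2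
  | smul r u _ h =>
    have : cm (r • u) v = r • cm u v := by simp [cm, smul_sub]
    rw [this]; exact Submodule.smul_mem _ r h

theorem map_LS (f : A →ₐ[K] A') (hu : u ∈ LS K a d) : f u ∈ LS K (fun i => f (a i)) d := by
  induction hu using Submodule.span_induction with
  | mem u hu => exact Submodule.subset_span (Sp_map f.toRingHom hu)
  | zero => rw [map_zero]; exact zero_mem _
  | add u w _ _ h1 h2 => rw [map_add]; exact add_mem h1 h2
  | smul r u _ h => rw [map_smul]; exact Submodule.smul_mem _ r h

theorem exists_poly (hu : u ∈ LS K a d) :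
    ∃ q ∈ LS K (lt : ι → W K ι) d, evW a q = u := by
  induction hu using Submodule.span_induction with
  | mem u hu =>
    have h : a = fun i => (evW a : W K ι →ₐ[K] A).toRingHom (lt i) :=
      funext fun i => (evW_lt a i).symm
    rw [h] at hu
    obtain ⟨q, hq, e⟩ := Sp_lift _ hu
    exact ⟨q, Submodule.subset_span hq, e⟩
  | zero => exact ⟨0, zero_mem _, map_zero _⟩
  | add u w _ _ h1 h2 =>
    obtain ⟨q, hq, rfl⟩ := h1
    obtain ⟨q', hq', rfl⟩ := h2
    exact ⟨q + q', add_mem hq hq', map_add _ _ _⟩
  | smul r u _ h =>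
    obtain ⟨q, hq, rfl⟩ := h
    exact ⟨r • q, Submodule.smul_mem _ r hq, map_smul _ _ _⟩

/-- If the `b j` lie in the span of the `a i`, their brackets lie in the Lie span of the `a i`. -/
theorem LS_le {ι' : Type} {b : ι' → A} (h : ∀ j, b j ∈ LS K a 1) (d : ℕ) :
    LS K b d ≤ LS K a d := by
  rw [LS_eq_span b]
  refine Submodule.span_le.2 fun u (hu : Br b (fun _ => 1) d u) => ?_
  induction hu with
  | of j => exact h j
  | lie _ _ h1 h2 => exact cm_mem_LS h1 h2

theorem finite_Br [Finite ι] (a : ι → A) (d : ℕ) : {u | Br a (fun _ => 1) d u}.Finite := by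
  induction d using Nat.strong_induction_on with
  | _ d ih =>
    refine ((Set.finite_range a).union (((Set.finite_lt_nat d).prod (Set.finite_lt_nat d)).biUnion
      (t := fun z : ℕ × ℕ => Set.image2 cm {u | Br a (fun _ => 1) z.1 u}
        {u | Br a (fun _ => 1) z.2 u}) fun z hz => (ih _ hz.1).image2 _ (ih _ hz.2))).subset
      fun u hu => ?_
    rcases mgalg_inv hu with h | ⟨m, n, v, w, h1, h2, h3, rfl⟩
    · exact Or.inl h
    · have := Br.pos (fun _ => le_rfl) h2
      have := Br.pos (fun _ => le_rfl) h3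
      exact Or.inr (Set.mem_biUnion (x := (m, n)) ⟨show m < d by omega, show n < d by omega⟩
        (Set.mem_image2_of_mem h2 h3))

end LS

end Pool.Agent.Lib.MP_446a91_nt.Gal
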