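import Pool.Agent.Lib.MP_446a91_nt.Gal.MgAlg
import Pool.Agent.Lib.MP_446a91_nt.DD.Plus

/-! Extension of scalars for Lie polynomials (MP_446a91_nt). -/

namespace Pool.Agent.Lib.MP_446a91_nt.Gal

open scoped TensorProduct

attribute [local instance 100] LieRing.ofAssociativeRing

noncomputable section

variable (K : Type) [Field K] [CharZero K]

/-- `K ⊗ FL` inside noncommutative polynomials over `K`. -/
def iotaK : K ⊗[ℚ] FL →ₗ[K] W K (Fin 2) :=
  ((evW (lt : Fin 2 → W K (Fin 2)) : W ℚ (Fin 2) →ₐ[ℚ] W K (Fin 2)).toLinearMap ∘ₗ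
    iota.toLinearMap).liftBaseChange K

/-- Rational polynomials seen as polynomials over `K`. -/
def mgbaseE : W ℚ (Fin 2) →ₐ[ℚ] W K (Fin 2) := evW (lt : Fin 2 → W K (Fin 2))

variable {K}

theorem mgbase_tmul (c : K) (u : FL) : iotaK K (c ⊗ₜ u) = c • mgbaseE K (iota u) := rfl

theorem mgbase_lt (i : Fin 2) : mgbaseE K (lt i) = lt i := evW_lt _ i

theorem mgbase_evZ (q : W ℤ (Fin 2)) : mgbaseE K (evZ lt q) = evZ lt q := evW_evZ _ q

theorem mgbase_cf (w : List (Fin 2)) (p : W ℚ (Fin 2)) :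
    cf w (mgbaseE K p) = cf w p • (1 : K) := by
  have h : ∀ v : List (Fin 2), mgbaseE K (wrd v) = wrd v := by
    intro v
    induction v with
    | nil => rw [wrd_nil, wrd_nil, map_one]
    | cons i v ih => rw [wrd_cons, wrd_cons, map_mul, ih, mgbase_lt]
  refine linW_eq (((cf w : W K (Fin 2) →ₗ[K] K).restrictScalars ℚ) ∘ₗ (mgbaseE K).toLinearMap)
    (LinearMap.toSpanSingleton ℚ K 1 ∘ₗ cf w) p fun v _ => ?_
  simp only [LinearMap.comp_apply, AlgHom.toLinearMap_apply, h, LinearMap.restrictScalars_apply,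
    cf_wrd, LinearMap.toSpanSingleton_apply]
  split_ifs <;> simp

theorem mgbase_toPoly : toPoly = iota := FreeLieAlgebra.hom_ext fun i => by
  rw [iota_of, toPoly, FreeLieAlgebra.lift_of_apply]; rfl

theorem mgbase_cfw (w : List (Fin 2)) (u : FL) :
    cfw (FreeMonoid.ofList w) u = cf (R := ℚ) w (iota u) := by
  rw [cfw, mgbase_toPoly]; rfl

theorem cf_iotaK (w : List (Fin 2)) (ψ : K ⊗[ℚ] FL) :
    cf w (iotaK K ψ) = cfwK K (FreeMonoid.ofList w) ψ := by
  induction ψ with
  | zero => simp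
  | add x y h1 h2 => simp only [map_add, h1, h2]
  | tmul c u =>
    rw [mgbase_tmul, map_smul, mgbase_cf, ← mgbase_cfw, smul_eq_mul, mul_smul_comm, mul_one]
    simp [cfwK]

/-- Contraction with a rational linear form on `K`. -/
def mgbaseC {M : Type} [AddCommGroup M] [Module ℚ M] (l : K →ₗ[ℚ] ℚ) : K ⊗[ℚ] M →ₗ[ℚ] M :=
  (TensorProduct.lid ℚ M).toLinearMap ∘ₗ l.rTensor M

theorem mgbase_con {M : Type} [AddCommGroup M] [Module ℚ M] (l : K →ₗ[ℚ] ℚ) (c : K) (u : M) :
    mgbaseC l (c ⊗ₜ u) = l c • u := by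
  simp [mgbaseC]

theorem mgbase_mem {M : Type} [AddCommGroup M] [Module ℚ M] {N : Submodule ℚ M} {x : K ⊗[ℚ] M} :
    x ∈ N.baseChange K ↔ ∀ l : K →ₗ[ℚ] ℚ, mgbaseC l x ∈ N := by
  classical
  refine ⟨fun h => ?_, fun h => ?_⟩
  · rw [Submodule.baseChange_eq_span] at h
    induction h using Submodule.span_induction with
    | mem y hy =>
      obtain ⟨u, hu, rfl⟩ := hy
      intro l
      rw [TensorProduct.mk_apply, mgbase_con]
      exact N.smul_mem _ hu
    | zero => simp
    | add y z _ _ h1 h2 => exact fun l => by rw [map_add]; exact add_mem (h1 l) (h2 l)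
    | smul c y _ h1 =>
      intro l
      have e : ∀ y : K ⊗[ℚ] M, mgbaseC l (c • y) = mgbaseC (l ∘ₗ LinearMap.mulLeft ℚ c) y := by
        intro y
        induction y with
        | zero => simp
        | add s t h1 h2 => simp only [smul_add, map_add, h1, h2]
        | tmul s t => simp [TensorProduct.smul_tmul', mgbase_con]
      rw [e]
      exact h1 _
  · let b := Module.Basis.ofVectorSpace ℚ K
    obtain ⟨c, rfl⟩ := TensorProduct.eq_repr_basis_left b x
    refine Submodule.sum_mem _ fun i hi => Submodule.tmul_mem_baseChange_of_mem _ ?_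
    have := h (b.coord i)
    rw [Finsupp.sum, map_sum, Finset.sum_eq_single i] at this
    · simpa [mgbase_con] using this
    · intro j _ hj
      simp [mgbase_con, hj]
    · exact fun h => absurd hi h

theorem mgbase_cf_con (l : K →ₗ[ℚ] ℚ) (w : List (Fin 2)) (ψ : K ⊗[ℚ] FL) :
    cf (R := ℚ) w (iota (mgbaseC l ψ)) = l (cf w (iotaK K ψ)) := by
  induction ψ with
  | zero => simp
  | add x y h1 h2 => simp only [map_add, h1, h2]
  | tmul c u =>
    rw [mgbase_tmul, mgbase_con, map_smul, map_smul, map_smul, mgbase_cf, smul_eq_mul, smul_eq_mul,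
      mul_smul_comm, mul_one, map_smul, smul_eq_mul, mul_comm]

theorem iotaK_injective : Function.Injective (iotaK K) := by
  rw [injective_iff_map_eq_zero]
  intro ψ h
  have : ψ ∈ (⊥ : Submodule ℚ FL).baseChange K := mgbase_mem.2 fun l => by
    rw [Submodule.mem_bot]
    refine iota_injective ?_
    rw [map_zero]
    exact cf_ext (R := ℚ) fun w => by rw [mgbase_cf_con, h, map_zero, map_zero]
  simpa using this

theorem map_iotaK_deg (n : ℕ) : ((deg n).baseChange K).map (iotaK K) = LK K n := by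
  refine le_antisymm ?_ fun p hp => ?_
  · rw [Submodule.map_le_iff_le_comap, Submodule.baseChange_eq_span]
    refine Submodule.span_le.2 ?_
    rintro _ ⟨u, hu, rfl⟩
    change iotaK K (1 ⊗ₜ u) ∈ LK K n
    rw [mgbase_tmul, one_smul]
    exact LK_induction (P := fun p => mgbaseE K p ∈ LK K n) (iota_mem_LK hu)
      (fun q hq => by rw [mgbase_evZ]; exact evZ_mem_LK hq)
      (fun a b h1 h2 => by rw [map_add]; exact add_mem h1 h2)
      fun c a h => by rw [map_smul]; exact Submodule.smul_of_tower_mem _ c h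
  · refine LK_induction (P := fun p => p ∈ ((deg n).baseChange K).map (iotaK K)) hp
      (fun q hq => ?_) (fun a b h1 h2 => add_mem h1 h2) fun c a h => Submodule.smul_mem _ c h
    obtain ⟨u, hu, e⟩ := exists_deg (evZ_mem_LK (K := ℚ) hq)
    exact ⟨1 ⊗ₜ u, Submodule.tmul_mem_baseChange_of_mem _ hu, by
      rw [mgbase_tmul, one_smul, e, mgbase_evZ]⟩

theorem mgbase_dK (p q : W ℚ (Fin 2)) :
    mgbaseE K (dK p q) = dK (mgbaseE K p) (mgbaseE K q) := by
  induction q using W_ind with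
  | one =>
    rw [map_one (mgbaseE K), (Desc.dK_der p).one, (Desc.dK_der (mgbaseE K p)).one, map_zero]
  | mul i u ih =>
    rw [map_mul (mgbaseE K), Desc.dK_der p, Desc.dK_der (mgbaseE K p), map_add,
      map_mul (mgbaseE K), map_mul (mgbaseE K), ih, mgbase_lt]
    congr 2
    fin_cases i
    · simp [Desc.dK_zero]
    · simp only [Fin.mk_one, Desc.dK_one, map_cm, mgbase_lt]
  | add u v h1 h2 => simp only [map_add, h1, h2]
  | smul r u ih => rw [map_smul, map_smul, map_smul, ih, LinearMap.map_smul_of_tower]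

theorem mgbase_ihara {B : FL →ₗ[ℚ] FL →ₗ[ℚ] FL} (hB : IsIhara B) (u v : FL) :
    iota (B u v) = ihK (K := ℚ) (iota u) (iota v) := by
  obtain ⟨D, hD, hB⟩ := hB
  have hD' : ∀ ψ φ, iota (D ψ φ) = dK (K := ℚ) (iota ψ) (iota φ) := fun ψ φ => by
    obtain ⟨E, hE, hE'⟩ := exists_iharaD
    rw [← hE']
    congr 1
    refine Desc.free_induction (P := fun φ => D ψ φ = E ψ φ) φ (fun i => ?_) (by simp)
      (fun u v h1 h2 => by simp [h1, h2]) (fun c u h => by simp [h])
      fun u v h1 h2 => by simp [h1, h2]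
    fin_cases i
    exacts [(hD ψ).1.trans (hE ψ).1.symm, (hD ψ).2.trans (hE ψ).2.symm]
  rw [hB, map_sub, map_add, hD', hD', LieHom.map_lie, LieRing.of_associative_ring_bracket]
  simp only [ihK, sK, LinearMap.add_apply, LM_apply]
  abel

theorem iotaK_ihara {B : FL →ₗ[ℚ] FL →ₗ[ℚ] FL} (hB : IsIhara B) (ψ φ : K ⊗[ℚ] FL) :
    iotaK K (LinearMap.BilinMap.baseChange K B ψ φ) = ihK (iotaK K ψ) (iotaK K φ) := by
  simp only [ihK, ← Desc.sL_apply]
  induction ψ with
  | zero => simp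
  | add x y h1 h2 => simp only [map_add, LinearMap.add_apply, h1, h2]; abel
  | tmul c u =>
    induction φ with
    | zero => simp
    | add x y h1 h2 => simp only [map_add, LinearMap.add_apply, h1, h2]; abel
    | tmul d v =>
      rw [LinearMap.BilinMap.baseChange_tmul, mgbase_tmul, mgbase_tmul, mgbase_tmul,
        mgbase_ihara hB]
      simp only [map_smul, LinearMap.smul_apply, smul_smul, mul_comm d c, ← smul_sub]
      simp only [ihK, Desc.sL_apply, sK, LinearMap.add_apply, LM_apply, map_sub, map_add, map_mul,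
        mgbase_dK]

theorem dep1_ne_zero {n : ℕ} {ψ : K ⊗[ℚ] FL} (h : dep n (iotaK K ψ) ≠ 0) :
    (dep1 n).baseChange K ψ ≠ 0 := fun h0 => h <| by
  rw [dep, cf_iotaK]
  exact (congrArg (TensorProduct.AlgebraTensorModule.rid ℚ K K) h0).trans (map_zero _)

theorem mgbase_ev (l : K →ₗ[ℚ] ℚ) {R : Type} [Ring R] [Algebra ℚ R] (a b : R) (ψ : K ⊗[ℚ] FL) :
    mgbaseC l (evK (1 ⊗ₜ a : K ⊗[ℚ] R) (1 ⊗ₜ b) (iotaK K ψ)) =
      evK (K := ℚ) a b (iota (mgbaseC l ψ)) := by
  induction ψ with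
  | zero => simp
  | add x y h1 h2 => simp only [map_add, h1, h2]
  | tmul c u =>
    have e : evK (1 ⊗ₜ a : K ⊗[ℚ] R) (1 ⊗ₜ b) (mgbaseE K (iota u)) =
        1 ⊗ₜ evK (K := ℚ) a b (iota u) :=
      algHom_eq (φ := ((evK (K := K) (1 ⊗ₜ a : K ⊗[ℚ] R) (1 ⊗ₜ b)).restrictScalars ℚ).comp
          (mgbaseE K))
        (φ' := (Algebra.TensorProduct.includeRight : R →ₐ[ℚ] K ⊗[ℚ] R).comp (evK a b))
        (fun i => by fin_cases i <;> simp [mgbase_lt]) _
    rw [mgbase_tmul, map_smul, e, TensorProduct.smul_tmul', smul_eq_mul, mul_one, mgbase_con,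
      mgbase_con, map_smul, map_smul]

theorem mem_grt_of_upk {n : ℕ} (hn : 3 ≤ n) {ψ : K ⊗[ℚ] FL} (hψ : ψ ∈ (deg n).baseChange K)
    (h : UPK (iotaK K ψ)) : ψ ∈ (grt n).baseChange K := by
  refine mgbase_mem.2 fun l => ?_
  have h1 := mgbase_mem.1 hψ l
  refine (mem_grt_iff hn h1).2 ((upk_iff_upc (by omega) (iota_mem_LK h1)).1
    fun R _ _ a b c d e r => ?_)
  have := h (K ⊗[ℚ] R) _ _ _ _ _
    (r.map (Algebra.TensorProduct.includeRight : R →ₐ[ℚ] K ⊗[ℚ] R).toRingHom)
  simp only [AlgHom.toRingHom_eq_coe, RingHom.coe_coe,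
    Algebra.TensorProduct.includeRight_apply] at this
  simp only [← mgbase_ev, ← map_add, this]

end

end Pool.Agent.Lib.MP_446a91_nt.Gal
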