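import Pool.Agent.Lib.MP_446a91_nt.Gal.MgU

/-! The filtration `I^m` and the leading term of Ihara's cocycle (MP_446a91_nt). -/

namespace Pool.Agent.Lib.MP_446a91_nt.Gal

variable {l : ℕ} [Fact l.Prime] {G Γ : Type} [Group G] [TopologicalSpace G] [IsTopologicalGroup G]
  [Group Γ] [TopologicalSpace Γ] {M : Mag l G (Fin 2)}

namespace Coc

variable (C : Coc M Γ) {m n k : ℕ} {s t : Γ}

theorem f_one : C.f 1 = 1 := by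
  have h := C.f_mul 1 1
  rw [mul_one, map_one, MulAut.one_apply] at h
  exact left_eq_mul.1 h

theorem lev (hs : s ∈ C.I m) : Lev (C.ρ s) m :=
  M.lev_special (C.ρ s) (C.cont s) hs.2 (C.hx s hs.1) (C.hy s hs.1)

theorem mgcoc_inv (s : Γ) : C.f s⁻¹ = C.ρ s⁻¹ (C.f s)⁻¹ := by
  have h := C.f_mul s⁻¹ s
  rw [inv_mul_cancel, C.f_one] at h
  rw [map_inv (C.ρ s⁻¹)]
  exact eq_inv_of_mul_eq_one_left h.symm

theorem mgcoc_one (m : ℕ) : (1 : Γ) ∈ C.I m := ⟨C.H.one_mem, C.f_one ▸ (lcs G m).one_mem⟩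

theorem mgcoc_mul (hs : s ∈ C.I m) (ht : t ∈ C.I m) : s * t ∈ C.I m :=
  ⟨C.H.mul_mem hs.1 ht.1,
    C.f_mul s t ▸ (lcs G m).mul_mem hs.2 (map_lcs (C.ρ s) (C.cont s) ht.2)⟩

theorem mgcoc_inv_mem (hs : s ∈ C.I m) : s⁻¹ ∈ C.I m :=
  ⟨C.H.inv_mem hs.1, C.mgcoc_inv s ▸ map_lcs (C.ρ s⁻¹) (C.cont _) ((lcs G m).inv_mem hs.2)⟩

/-- `I^m` is a closed subgroup. -/
theorem exists_subgroup (m : ℕ) :
    ∃ J : Subgroup Γ, (J : Set Γ) = C.I m ∧ IsClosed (J : Set Γ) :=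
  ⟨⟨⟨⟨C.I m, C.mgcoc_mul⟩, C.mgcoc_one m⟩, C.mgcoc_inv_mem⟩, rfl,
    C.closed.inter ((lcs_closed m).preimage C.fcont)⟩

theorem φ_mul (hm : 1 ≤ m) (hs : s ∈ C.I m) (ht : t ∈ C.I m) :
    C.φ m (s * t) = C.φ m s + C.φ m t := by
  rw [φ, φ, φ, C.f_mul, M.mul hm hs.2 (map_lcs (C.ρ s) (C.cont s) ht.2),
    M.L_lev_one (C.ρ s) (C.cont s) ((C.lev hs).mono hm) hm ht.2]

theorem φ_div (hm : 1 ≤ m) (hs : s ∈ C.I m) (ht : t ∈ C.I m) :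
    s * t⁻¹ ∈ C.I m ∧ C.φ m (s * t⁻¹) = C.φ m s - C.φ m t := by
  have h := C.mgcoc_mul hs (C.mgcoc_inv_mem ht)
  have h' := C.φ_mul hm h ht
  rw [inv_mul_cancel_right] at h'
  exact ⟨h, eq_sub_of_add_eq h'.symm⟩

theorem mem_succ (hm : 1 ≤ m) : s ∈ C.I (m + 1) ↔ s ∈ C.I m ∧ C.φ m s = 0 :=
  ⟨fun h => ⟨⟨h.1, lcs_anti (Nat.le_succ m) h.2⟩, M.zero hm h.2⟩,
    fun h => ⟨h.1.1, M.faith.ker hm h.1.2 h.2⟩⟩

theorem φ_mem (hm : 1 ≤ m) (hs : s ∈ C.I m) : C.φ m s ∈ LK ℤ_[l] m := M.L_memLS hm hs.2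

theorem φ_one (hs : s ∈ C.H) : C.φ 1 s = 0 := M.zero le_rfl (C.two s hs)

theorem φ_cont (m : ℕ) : WCont l (C.φ m) := (M.cont m).comp C.fcont

/-- Commutators go to Ihara's bracket. -/
theorem φ_comm (hm : 1 ≤ m) (hn : 1 ≤ n) (hs : s ∈ C.I m) (ht : t ∈ C.I n) :
    s * t * s⁻¹ * t⁻¹ ∈ C.I (m + n) ∧
      C.φ (m + n) (s * t * s⁻¹ * t⁻¹) = ihK (C.φ m s) (C.φ n t) := by
  have hmn : 1 ≤ m + n := hm.trans (Nat.le_add_right m n)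
  have hr : Lev (C.ρ (s * t * s⁻¹ * t⁻¹)) (m + n) := by
    simp only [map_mul, map_inv]
    exact Lev.comm (C.cont s) (C.cont t) (C.lev hs) (C.lev ht)
  have a1 := Lev.mem (C.ρ s) (C.cont s) (C.lev hs) hn ht.2
  have a2 := M.L_lev (C.ρ s) (C.cont s) hm (C.lev hs) hn ht.2
  have b1 := Lev.mem (C.ρ t) (C.cont t) (C.lev ht) hm hs.2
  have b2 := M.L_lev (C.ρ t) (C.cont t) hn (C.lev ht) hm hs.2
  rw [M.D_special (C.ρ s) hm hs.2 (C.hx s hs.1) (C.hy s hs.1)] at a2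
  rw [M.D_special (C.ρ t) hn ht.2 (C.hx t ht.1) (C.hy t ht.1), add_comm n m] at b2
  rw [add_comm n m] at b1
  have c1 := comm_mem hs.2 ht.2
  have c2 := M.comm hm hn hs.2 ht.2
  have d1 := (lcs G (m + n + 1)).inv_mem (hr (C.f (t * s)))
  have d2 := lcs_anti (Nat.le_succ (m + n)) d1
  have e0 := C.f_mul (s * t * s⁻¹ * t⁻¹) (t * s)
  rw [show s * t * s⁻¹ * t⁻¹ * (t * s) = s * t by group] at e0
  have e : C.f (s * t * s⁻¹ * t⁻¹) =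
      C.f s * (C.ρ s (C.f t) * (C.f t)⁻¹) * (C.f s)⁻¹ * (C.f s * C.f t * (C.f s)⁻¹ * (C.f t)⁻¹) *
        (C.f t * (C.ρ t (C.f s) * (C.f s)⁻¹)⁻¹ * (C.f t)⁻¹) *
        (C.ρ (s * t * s⁻¹ * t⁻¹) (C.f (t * s)) * (C.f (t * s))⁻¹)⁻¹ := by
    rw [eq_mul_inv_of_mul_eq e0.symm]
    generalize C.ρ (s * t * s⁻¹ * t⁻¹) (C.f (t * s)) = z
    rw [C.f_mul, C.f_mul]
    group
  have a3 := (lcs_normal (m + n)).conj_mem _ a1 (C.f s)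
  have b0 := (lcs G (m + n)).inv_mem b1
  have b3 := (lcs_normal (m + n)).conj_mem _ b0 (C.f t)
  have m1 := (lcs G (m + n)).mul_mem a3 c1
  have m2 := (lcs G (m + n)).mul_mem m1 b3
  refine ⟨⟨C.H.mul_mem (C.H.mul_mem (C.H.mul_mem hs.1 ht.1) (C.H.inv_mem hs.1)) (C.H.inv_mem ht.1),
    e ▸ (lcs G (m + n)).mul_mem m2 d2⟩, ?_⟩
  rw [φ, e, M.mul hmn m2 d2, M.zero hmn d1, M.mul hmn m1 b3, M.mul hmn a3 c1, M.L_conj hmn a1,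
    M.L_conj hmn b0, M.L_inv hmn b1, a2, b2, c2]
  simp only [φ, ihK, sK, cm, LinearMap.add_apply, LM_apply]
  abel

/-- `I^k / I^(k + 1)` has weight `k`. -/
theorem φ_wt {γ : Γ} {b : ℤ_[l]} (hγ : ∀ g, M.L 1 (C.ρ γ g) = b • M.L 1 g) (hk : 1 ≤ k)
    (hs : s ∈ C.I k) : γ * s * γ⁻¹ ∈ C.I k ∧ C.φ k (γ * s * γ⁻¹) = b ^ k • C.φ k s := by
  have hr : Lev (C.ρ (γ * s * γ⁻¹)) k := fun g => by
    have h := map_lcs (C.ρ γ) (C.cont γ) (C.lev hs (C.ρ γ⁻¹ g))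
    simpa only [map_mul, map_inv, MulAut.mul_apply, MulAut.apply_inv_self] using h
  have d1 := (lcs G (k + 1)).inv_mem (hr (C.f γ))
  have d2 := lcs_anti (Nat.le_succ k) d1
  have e0 := C.f_mul (γ * s * γ⁻¹) γ
  rw [inv_mul_cancel_right] at e0
  have e : C.f (γ * s * γ⁻¹) = C.f γ * C.ρ γ (C.f s) * (C.f γ)⁻¹ *
      (C.ρ (γ * s * γ⁻¹) (C.f γ) * (C.f γ)⁻¹)⁻¹ := by
    rw [eq_mul_inv_of_mul_eq e0.symm]
    generalize C.ρ (γ * s * γ⁻¹) (C.f γ) = z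
    rw [C.f_mul]
    group
  have a1 := map_lcs (C.ρ γ) (C.cont γ) hs.2
  have a3 := (lcs_normal k).conj_mem _ a1 (C.f γ)
  refine ⟨⟨C.normal.conj_mem _ hs.1 γ, e ▸ (lcs G k).mul_mem a3 d2⟩, ?_⟩
  rw [φ, e, M.mul hk a3 d2, M.zero hk d1, M.L_conj hk a1, add_zero,
    M.scale (C.ρ γ) (C.cont γ) hγ hk hs.2, φ]

theorem mgcoc_pow (hk : 1 ≤ k) (hs : s ∈ C.I k) (n : ℕ) :
    s ^ n ∈ C.I k ∧ C.φ k (s ^ n) = n • C.φ k s := by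
  induction n with
  | zero => exact ⟨pow_zero s ▸ C.mgcoc_one k, by rw [pow_zero, φ, C.f_one, M.L_one hk, zero_smul]⟩
  | succ n ih =>
    rw [pow_succ, C.φ_mul hk ih.1 hs, ih.2, succ_nsmul]
    exact ⟨C.mgcoc_mul ih.1 hs, rfl⟩

/-- The weight trick: a character of weight `m` of `H` is seen on `I^m`. -/
theorem weight_trick {γ : Γ} {b : ℕ} (hb : 2 ≤ b)
    (hγ : ∀ g, M.L 1 (C.ρ γ g) = (b : ℤ_[l]) • M.L 1 g) {B : Type} [AddCommGroup B] (c : Γ → B)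
    (hc : ∀ s ∈ C.H, ∀ t ∈ C.H, c (s * t) = c s + c t)
    (hw : ∀ s ∈ C.H, c (γ * s * γ⁻¹) = b ^ m • c s) :
    ∃ N : ℕ, N ≠ 0 ∧ ∀ s ∈ C.H, ∃ s' ∈ C.I m, c s' = N • c s := by
  have c1 : c 1 = 0 := by
    have h := hc 1 C.H.one_mem 1 C.H.one_mem
    rw [mul_one] at h
    exact left_eq_add.1 h
  have cp : ∀ s ∈ C.H, ∀ n : ℕ, c (s ^ n) = n • c s := fun s hs n => by
    induction n with
    | zero => rw [pow_zero, c1, zero_smul]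
    | succ n ih => rw [pow_succ, hc _ (C.H.pow_mem hs n) s hs, ih, succ_nsmul]
  have key : ∀ k, k + 1 ≤ m → ∃ N : ℕ, N ≠ 0 ∧ ∀ s ∈ C.H, ∃ s' ∈ C.I (k + 1), c s' = N • c s := by
    intro k
    induction k with
    | zero => exact fun _ => ⟨1, one_ne_zero, fun s hs => ⟨s, ⟨hs, mem_lcs_one _⟩, (one_smul _ _).symm⟩⟩
    | succ k ih =>
      intro hk
      obtain ⟨N, hN, h⟩ := ih (Nat.le_of_succ_le hk)
      have hlt : b ^ (k + 1) < b ^ m := Nat.pow_lt_pow_right hb hk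
      refine ⟨(b ^ m - b ^ (k + 1)) * N, mul_ne_zero (Nat.sub_ne_zero_of_lt hlt) hN, fun s hs => ?_⟩
      obtain ⟨u, hu, e⟩ := h s hs
      have k1 : 1 ≤ k + 1 := Nat.le_add_left 1 k
      obtain ⟨w1, w2⟩ := C.φ_wt hγ k1 hu
      obtain ⟨p1, p2⟩ := C.mgcoc_pow k1 hu (b ^ (k + 1))
      obtain ⟨q1, q2⟩ := C.φ_div k1 w1 p1
      refine ⟨_, (C.mem_succ k1).2 ⟨q1, ?_⟩, ?_⟩
      · rw [q2, w2, p2, ← Nat.cast_pow, Nat.cast_smul_eq_nsmul, sub_self]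
      · have h2 := hc _ q1.1 _ p1.1
        rw [inv_mul_cancel_right, hw u hu.1, cp u hu.1, ← Nat.sub_add_cancel hlt.le,
          add_smul] at h2
        rw [mul_smul, ← e]
        exact (add_right_cancel h2).symm
  cases m with
  | zero => exact ⟨1, one_ne_zero, fun s hs => ⟨s, ⟨hs, Subgroup.mem_top _⟩, (one_smul _ _).symm⟩⟩
  | succ m => exact key m le_rfl

end Coc

end Pool.Agent.Lib.MP_446a91_nt.Gal
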