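import Pool.Agent.Lib.MP_446a91_nt.Gal.IDefs
import Pool.Agent.Lib.MP_446a91_nt.DD.KDefs

/-! Systems of leading terms on compact groups, Magnus systems, Ihara cocycles (MP_446a91_nt). -/

namespace Pool.Agent.Lib.MP_446a91_nt.Gal

open Module

noncomputable section

/-- The `K`-span of the `d`-fold commutators of the elements `a i` (`LK K d = LS K lt d`). -/
def LS (K : Type) [CommRing K] {ι A : Type} [Ring A] [Algebra K A] (a : ι → A) (d : ℕ) :
    Submodule K A :=
  Submodule.span K (Sp a (fun _ => 1) d : Set A)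

theorem LK_eq_LS (K : Type) [CommRing K] (d : ℕ) :
    LK K d = LS K (lt : Fin 2 → W K (Fin 2)) d := rfl

/-- The elements `x i` generate a dense subgroup. -/
def DenseGen {G ι : Type} [Group G] [TopologicalSpace G] [IsTopologicalGroup G] (x : ι → G) :
    Prop :=
  (Subgroup.closure (Set.range x)).topologicalClosure = ⊤

/-- `α` moves every element by an element of `G(d + 1)`. -/
def Lev {G : Type} [Group G] [TopologicalSpace G] [IsTopologicalGroup G] (α : G → G) (d : ℕ) :
    Prop :=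
  ∀ g, α g * g⁻¹ ∈ lcs G (d + 1)

variable (l : ℕ) [Fact l.Prime]

/-- Linear forms separate the points of `A`. -/
def SepF (A : Type) [AddCommGroup A] [Module ℤ_[l] A] : Prop :=
  ∀ a : A, (∀ f : A →ₗ[ℤ_[l]] ℤ_[l], f a = 0) → a = 0

/-- Weak continuity: continuity after every linear form. -/
def WCont {G A : Type} [TopologicalSpace G] [AddCommGroup A] [Module ℤ_[l] A] (F : G → A) : Prop :=
  ∀ f : A →ₗ[ℤ_[l]] ℤ_[l], Continuous fun g => f (F g)

/-- A system of leading terms: `L d` is additive on `G(d)`, kills `G(d + 1)`, and turns group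
commutators into ring commutators. -/
structure LTSys (G : Type) [Group G] [TopologicalSpace G] [IsTopologicalGroup G]
    (A : Type) [Ring A] [Algebra ℤ_[l] A] where
  L : ℕ → G → A
  sep : SepF l A
  cont : ∀ d, WCont l (L d)
  mul : ∀ {d g h}, 1 ≤ d → g ∈ lcs G d → h ∈ lcs G d → L d (g * h) = L d g + L d h
  zero : ∀ {d g}, 1 ≤ d → g ∈ lcs G (d + 1) → L d g = 0
  comm : ∀ {i j g h}, 1 ≤ i → 1 ≤ j → g ∈ lcs G i → h ∈ lcs G j →
    L (i + j) (g * h * g⁻¹ * h⁻¹) = cm (L i g) (L j h)

variable {l}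

section
variable {G : Type} [Group G] [TopologicalSpace G] [IsTopologicalGroup G]
  {A : Type} [Ring A] [Algebra ℤ_[l] A]

/-- The kernel of `L d` on `G(d)` is `G(d + 1)`, and the `G(d)` intersect in `1`. -/
structure LTSys.Faith (S : LTSys l G A) : Prop where
  ker : ∀ {d g}, 1 ≤ d → g ∈ lcs G d → S.L d g = 0 → g ∈ lcs G (d + 1)
  inter : ∀ g : G, (∀ d, g ∈ lcs G d) → g = 1

/-- The classes of the `x i` span the values of `L 1`. -/
def LTSys.Gens (S : LTSys l G A) {ι : Type} (x : ι → G) : Prop :=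
  ∀ g, S.L 1 g ∈ Submodule.span ℤ_[l] (Set.range fun i => S.L 1 (x i))

end

variable (l) in
/-- A Magnus system: a faithful system with values in noncommutative polynomials, which sends the
topological generators `x i` to the letters. -/
structure Mag (G : Type) [Group G] [TopologicalSpace G] [IsTopologicalGroup G] (ι : Type)
    extends LTSys l G (W ℤ_[l] ι) where
  x : ι → G
  L_x : ∀ i, L 1 (x i) = lt i
  dense : DenseGen x
  faith : toLTSys.Faith

section
variable {G : Type} [Group G] [TopologicalSpace G] [IsTopologicalGroup G]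

variable (l) in
/-- Magnus coefficients: `g ↦ ∑ c w g • w` is multiplicative and sends `x i` to `1 + X i`. -/
structure Coef {ι : Type} (x : ι → G) where
  c : List ι → G → ℤ_[l]
  cont : ∀ w, Continuous (c w)
  nil : ∀ g, c [] g = 1
  mul : ∀ w g h,
    c w (g * h) = ∑ k ∈ Finset.range (w.length + 1), c (w.take k) g * c (w.drop k) h
  gen_self : ∀ i, c [i] (x i) = 1
  gen_ne : ∀ w i, w ≠ [] → w ≠ [i] → c w (x i) = 0

/-- The derivation attached to an endomorphism of level `d`. -/
def Mag.D {ι : Type} (M : Mag l G ι) (α : G → G) (d : ℕ) : End ℤ_[l] (W ℤ_[l] ι) :=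
  der fun i => M.L (d + 1) (α (M.x i) * (M.x i)⁻¹)

/-- An action `ρ` of `Γ` on a free group on `x, y`, with Ihara's cocycle `f`. -/
structure Coc (M : Mag l G (Fin 2)) (Γ : Type) [Group Γ] [TopologicalSpace Γ] where
  ρ : Γ →* MulAut G
  cont : ∀ s, Continuous (ρ s)
  f : Γ → G
  fcont : Continuous f
  f_mul : ∀ s t, f (s * t) = f s * ρ s (f t)
  H : Subgroup Γ
  normal : H.Normal
  closed : IsClosed (H : Set Γ)
  hx : ∀ s ∈ H, ρ s (M.x 0) = M.x 0
  hy : ∀ s ∈ H, ρ s (M.x 1) = (f s)⁻¹ * M.x 1 * f s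
  two : ∀ s ∈ H, f s ∈ lcs G 2

variable {M : Mag l G (Fin 2)} {Γ : Type} [Group Γ] [TopologicalSpace Γ]

/-- The filtration `I^m`. -/
def Coc.I (C : Coc M Γ) (m : ℕ) : Set Γ := {s | s ∈ C.H ∧ C.f s ∈ lcs G m}

/-- The leading term of the cocycle. -/
def Coc.φ (C : Coc M Γ) (m : ℕ) (s : Γ) : W ℤ_[l] (Fin 2) := M.L m (C.f s)

end

end

end Pool.Agent.Lib.MP_446a91_nt.Gal
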