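import Pool.Agent.Lib.MP_446a91_nt.Gal.MgGen

/-! Magnus systems and derivations (MP_446a91_nt). -/

namespace Pool.Agent.Lib.MP_446a91_nt.Gal

open Module

variable {l : ℕ} [Fact l.Prime] {G Γ ι : Type} [Group G] [TopologicalSpace G]
  [IsTopologicalGroup G] [Group Γ] [TopologicalSpace Γ] [IsTopologicalGroup Γ]
  {A : Type} [Ring A] [Algebra ℤ_[l] A]

theorem mgder_cm {R S : Type} [CommRing R] [Ring S] [Algebra R S] {D : End R S} (h : IsDer D)
    (a b : S) : D (cm a b) = cm (D a) b + cm a (D b) := by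
  simp only [cm, map_sub, h a b, h b a]
  abel

namespace Mag

variable (M : Mag l G ι) {d e j : ℕ} {g : G}

theorem L_memLS [Finite ι] (hd : 1 ≤ d) (hg : g ∈ lcs G d) :
    M.L d g ∈ LS ℤ_[l] (lt : ι → W ℤ_[l] ι) d := by
  have h := M.toLTSys.L_mem (M.toLTSys.gens_of_dense M.dense) hd hg
  rwa [funext M.L_x] at h

/-- The Magnus system is universal. -/
theorem univ (S : LTSys l G A) (hd : 1 ≤ d) (hg : g ∈ lcs G d) :
    S.L d g = evW (fun i => S.L 1 (M.x i)) (M.L d g) := by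
  refine (M.toLTSys.mor S (evW fun i => S.L 1 (M.x i)) (fun g => ?_) hd hg).symm
  refine eq_on_top (E := fun g => evW (fun i => S.L 1 (M.x i)) (M.L 1 g)) S.sep
    ((M.cont 1).map (evW fun i => S.L 1 (M.x i)).toLinearMap) (S.cont 1) (fun a b => ?_)
    (fun a b => S.mul le_rfl (mem_lcs_one a) (mem_lcs_one b)) M.dense (fun i => ?_) g
  · rw [M.mul le_rfl (mem_lcs_one a) (mem_lcs_one b), map_add]
  · rw [M.L_x, evW_lt]

section Char
variable [Fintype ι] [DecidableEq ι] {κ : ι → G → ℤ_[l]}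

theorem L_one_char (hκ : ∀ c, IsChar (κ c)) (hv : ∀ c d, κ c (M.x d) = if c = d then 1 else 0)
    (g : G) : M.L 1 g = ∑ c, κ c g • lt c := by
  refine eq_on_top (E' := fun g => ∑ c, κ c g • lt c) (sepF_W ι) (M.cont 1)
    (wcont_sum _ fun c _ => wcont_smul (hκ c).cont (lt c))
    (fun a b => M.mul le_rfl (mem_lcs_one a) (mem_lcs_one b)) (fun a b => ?_) M.dense
    (fun i => ?_) g
  · rw [← Finset.sum_add_distrib]
    exact Finset.sum_congr rfl fun c _ => by rw [(hκ c).add, add_smul]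
  · rw [M.L_x]
    simp [hv]

theorem mem_two_of_char (hκ : ∀ c, IsChar (κ c))
    (hv : ∀ c d, κ c (M.x d) = if c = d then 1 else 0) (h0 : ∀ c, κ c g = 0) :
    g ∈ lcs G 2 := by
  refine M.faith.mem_two ?_
  rw [M.L_one_char hκ hv]
  simp [h0]

theorem lev_one_of_char (hκ : ∀ c, IsChar (κ c))
    (hv : ∀ c d, κ c (M.x d) = if c = d then 1 else 0) {α : G → G}
    (h0 : ∀ c g, κ c (α g) = κ c g) : Lev α 1 := by
  refine M.faith.lev_one fun g => ?_
  rw [M.L_one_char hκ hv, M.L_one_char hκ hv]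
  simp [h0]

end Char

theorem D_isDer (α : G → G) (d : ℕ) : IsDer (M.D α d) := der_isDer _

theorem D_lt (α : G → G) (d : ℕ) (i : ι) :
    M.D α d (lt i) = M.L (d + 1) (α (M.x i) * (M.x i)⁻¹) := der_lt _ i

section Lev
variable {F : Type} [FunLike F G G] [MonoidHomClass F G G] (α : F)

/-- (Der). -/
theorem L_lev (hα : Continuous α) (hd : 1 ≤ d) (h1 : Lev α d) (hj : 1 ≤ j) (hg : g ∈ lcs G j) :
    M.L (d + j) (α g * g⁻¹) = M.D α d (M.L j g) := by
  have hc : Continuous fun g : G => α g * g⁻¹ := hα.mul continuous_inv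
  have base : ∀ g, M.L (d + 1) (α g * g⁻¹) = M.D α d (M.L 1 g) := by
    intro g
    refine eq_on_top (E := fun g => M.L (d + 1) (α g * g⁻¹)) (E' := fun g => M.D α d (M.L 1 g))
      (sepF_W ι) ((M.cont (d + 1)).comp hc) ((M.cont 1).map (M.D α d))
      (fun a b => M.toLTSys.lev_add α hα h1 le_rfl (mem_lcs_one a) (mem_lcs_one b))
      (fun a b => ?_) M.dense (fun i => ?_) g
    · rw [M.mul le_rfl (mem_lcs_one a) (mem_lcs_one b), map_add]
    · rw [M.L_x, D_lt]
  induction j, hj using Nat.le_induction generalizing g with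
  | base => exact base g
  | succ j hj ih =>
    refine eq_on_lcs (E := fun g => M.L (d + (j + 1)) (α g * g⁻¹))
      (E' := fun g => M.D α d (M.L (j + 1) g)) (sepF_W ι) ((M.cont _).comp hc)
      ((M.cont _).map (M.D α d)) hj
      (fun a ha b hb => M.toLTSys.lev_add α hα h1 (by omega) ha hb) (fun a ha b hb => ?_)
      (fun a u hu => ?_) g hg
    · rw [M.mul (by omega) ha hb, map_add]
    · have e1 := M.toLTSys.lev_comm α hα hd h1 le_rfl hj (mem_lcs_one a) hu
      have e2 := M.comm le_rfl hj (mem_lcs_one a) hu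
      rw [add_comm 1 j] at e1 e2
      rw [e1, e2, base, ih hu, mgder_cm (M.D_isDer α d)]

theorem lev_succ (hα : Continuous α) (h1 : Lev α d) (h0 : ∀ i, M.D α d (lt i) = 0) :
    Lev α (d + 1) :=
  lev_of_gens M.dense α hα fun i =>
    M.faith.ker (Nat.le_add_left 1 d) (h1 _) (by rw [← M.D_lt]; exact h0 i)

end Lev

theorem D_zero {α : G → G} (h1 : Lev α (d + 1)) : M.D α d = 0 := by
  refine der_ext (M.D_isDer α d) (fun a b => by simp) fun i => ?_
  rw [D_lt, M.zero (Nat.le_add_left 1 d) (h1 _), LinearMap.zero_apply]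

theorem D_mul {α β : MulAut G} (hα : Continuous α) (hd : 1 ≤ d) (h1 : Lev α d) (h2 : Lev β d) :
    M.D (α * β : MulAut G) d = M.D α d + M.D β d := by
  refine der_ext (M.D_isDer _ d) (fun a b => ?_) fun i => ?_
  · simp only [LinearMap.add_apply, M.D_isDer α d a b, M.D_isDer β d a b]
    noncomm_ring
  · have e : (α * β : MulAut G) (M.x i) * (M.x i)⁻¹ =
        α (β (M.x i) * (M.x i)⁻¹) * (α (M.x i) * (M.x i)⁻¹) := by
      simp only [MulAut.mul_apply, map_mul, map_inv]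
      group
    rw [LinearMap.add_apply, D_lt, D_lt, D_lt, e,
      M.mul (Nat.le_add_left 1 d) (map_lcs α hα (h2 _)) (h1 _),
      M.toLTSys.L_lev_one α hα (h1.mono hd) (Nat.le_add_left 1 d) (h2 _), add_comm]

theorem D_comm {α β : MulAut G} (hα : Continuous α) (hβ : Continuous β) (hα' : Continuous α.symm)
    (hβ' : Continuous β.symm) (hd : 1 ≤ d) (he : 1 ≤ e) (h1 : Lev α d) (h2 : Lev β e) :
    M.D (α * β * α⁻¹ * β⁻¹ : MulAut G) (d + e) = cm (M.D α d) (M.D β e) := by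
  refine der_ext (M.D_isDer _ _) ((M.D_isDer α d).comm (M.D_isDer β e)) fun i => ?_
  have hγ : Continuous (α * β * α⁻¹ * β⁻¹ : MulAut G) := hα.comp (hβ.comp (hα'.comp hβ'))
  have hv : β (M.x i) * (M.x i)⁻¹ ∈ lcs G (e + 1) := h2 _
  have hu : α (M.x i) * (M.x i)⁻¹ ∈ lcs G (d + 1) := h1 _
  set v := β (M.x i) * (M.x i)⁻¹ with hv'
  set u := α (M.x i) * (M.x i)⁻¹ with hu'
  have e0 : (α * β * α⁻¹ * β⁻¹ : MulAut G) (β (α (M.x i))) * (β (α (M.x i)))⁻¹ =
      (α v * v⁻¹) * (v * u * v⁻¹ * u⁻¹) * (β u * u⁻¹)⁻¹ := by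
    rw [hv', hu']
    simp only [MulAut.mul_apply, MulAut.inv_apply_self, map_mul, map_inv]
    group
  have e1 := M.L_lev (α * β * α⁻¹ * β⁻¹ : MulAut G) hγ (by omega) (Lev.comm hα hβ h1 h2) le_rfl
    (mem_lcs_one (β (α (M.x i))))
  rw [M.toLTSys.L_lev_one β hβ (h2.mono he) le_rfl (mem_lcs_one _),
    M.toLTSys.L_lev_one α hα (h1.mono hd) le_rfl (mem_lcs_one _), M.L_x] at e1
  have m1 : α v * v⁻¹ ∈ lcs G (d + e + 1) := Lev.mem α hα h1 (Nat.le_add_left 1 e) hv
  have m2 : β u * u⁻¹ ∈ lcs G (d + e + 1) := by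
    have := Lev.mem β hβ h2 (Nat.le_add_left 1 d) hu
    rwa [show e + (d + 1) = d + e + 1 by omega] at this
  have m3 : v * u * v⁻¹ * u⁻¹ ∈ lcs G (d + e + 1 + 1) := by
    have := comm_mem hv hu
    rwa [show e + 1 + (d + 1) = d + e + 1 + 1 by omega] at this
  have m4 : v * u * v⁻¹ * u⁻¹ ∈ lcs G (d + e + 1) := lcs_anti (Nat.le_succ _) m3
  have k1 : 1 ≤ d + e + 1 := by omega
  have f1 := M.L_lev α hα hd h1 (Nat.le_add_left 1 e) hv
  have f2 := M.L_lev β hβ he h2 (Nat.le_add_left 1 d) hu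
  rw [show e + (d + 1) = d + e + 1 by omega] at f2
  rw [← e1, e0, M.toLTSys.L_div k1 (mul_mem m1 m4) m2, M.mul k1 m1 m4, M.zero k1 m3, add_zero, f2,
    ← add_assoc d e 1] at *
  rw [f1]
  simp only [cm, LinearMap.sub_apply, End.mul_apply, D_lt]
  rfl

/-- The derivations of an action of level one form a system of leading terms. -/
theorem exists_derSys [Finite ι] (ρ : Γ →* MulAut G) (h1 : ∀ s, Continuous (ρ s))
    (h2 : ∀ g, Continuous fun s => ρ s g) (h3 : ∀ s, Lev (ρ s) 1) :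
    ∃ S : LTSys l Γ (End ℤ_[l] (W ℤ_[l] ι)), ∀ d s, S.L d s = M.D (ρ s) d := by
  have hs : ∀ s, Continuous (ρ s).symm := fun s => by
    have := h1 s⁻¹
    rwa [map_inv] at this
  refine ⟨{ L := fun d s => M.D (ρ s) d
            sep := (sepF_W ι).end
            cont := fun d => wcont_der fun i =>
              (M.cont (d + 1)).comp ((h2 (M.x i)).mul continuous_const)
            mul := fun hd hg hh => ?_
            zero := fun _ hg => M.D_zero (lev_of_mem_lcs ρ h1 h2 h3 hg)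
            comm := fun hi hj hg hh => ?_ }, fun _ _ => rfl⟩
  · rw [map_mul]
    exact M.D_mul (h1 _) hd (lev_of_mem_lcs ρ h1 h2 h3 hg) (lev_of_mem_lcs ρ h1 h2 h3 hh)
  · rw [map_mul, map_mul, map_mul, map_inv, map_inv]
    exact M.D_comm (h1 _) (h1 _) (hs _) (hs _) hi hj (lev_of_mem_lcs ρ h1 h2 h3 hg)
      (lev_of_mem_lcs ρ h1 h2 h3 hh)

end Mag

end Pool.Agent.Lib.MP_446a91_nt.Gal
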