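import Pool.Agent.Lib.MP_446a91_nt.Gal.MgSou

/-! The distribution relation and nonvanishing (MP_446a91_nt). -/

namespace Pool.Agent.Lib.MP_446a91_nt.Gal

variable {l : ℕ} [Fact l.Prime] {z : ℕ → Qb} {k : (n : ℕ) → GQ → ZMod (l ^ n) → ZMod (l ^ n)}

open Finset

theorem mgdist_pow (hz : IsRoots l z) (n x y : ℕ) :
    z n ^ x = z n ^ y ↔ (x : ZMod (l ^ n)) = y := by
  rw [((hz.prim n).isOfFinOrder (NeZero.ne _)).pow_eq_pow_iff_modEq, ← (hz.prim n).eq_orderOf,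
    ZMod.natCast_eq_natCast_iff]

theorem mgdist_kum (hz : IsRoots l z) (hk : IsKumS l z k) {σ : GQ} (hσ : σ ∈ HH z) {n x : ℕ}
    {r : Qb} (hr : r ^ l ^ n = 1 - z n ^ x) : σ r = z n ^ (k n σ x).val * r := by
  by_cases h : (x : ZMod (l ^ n)) = 0
  · rw [(mgdist_pow hz n x 0).2 (by simpa using h), pow_zero, sub_self] at hr
    simp [pow_eq_zero_iff (NeZero.ne _) |>.1 hr]
  · exact hk n σ hσ x h r (by rw [hr, (mgdist_pow hz n _ x).2 (ZMod.natCast_zmod_val _)])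

theorem mgdist_prod (hz : IsRoots l z) (hk : IsKumS l z k) {σ : GQ} (hσ : σ ∈ HH z) {n : ℕ}
    (s : Finset ℕ) (b e : ℕ → ℕ) {r : ℕ → Qb} (hr : ∀ i, r i ^ l ^ n = 1 - z n ^ b i) :
    σ (∏ i ∈ s, r i ^ e i) = z n ^ (∑ i ∈ s, e i * (k n σ (b i)).val) * ∏ i ∈ s, r i ^ e i := by
  rw [map_prod, ← prod_pow_eq_pow_sum, ← prod_mul_distrib]
  exact prod_congr rfl fun i _ => by rw [map_pow, mgdist_kum hz hk hσ (hr i), mul_pow, pow_mul']

theorem mgdist_red (hz : IsRoots l z) (hk : IsKumS l z k) {j : ℕ} (hj : 1 ≤ j) {σ : GQ}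
    (hσ : σ ∈ HH z) {n a : ℕ} (s : Finset ℕ) (b : ℕ → ℕ)
    (h : ∏ i ∈ s, (1 - z (n + 1) ^ b i) = 1 - z n ^ a) :
    (a : ZMod (l ^ n)) ^ j * ∑ i ∈ s, ZMod.castHom (pow_dvd_pow l n.le_succ) (ZMod (l ^ n))
      (k (n + 1) σ (b i)) = a ^ j * k n σ a := by
  by_cases ha : (a : ZMod (l ^ n)) = 0
  · rw [ha, zero_pow (by omega), zero_mul, zero_mul]
  choose r hr using fun i =>
    IsAlgClosed.exists_pow_nat_eq (1 - z (n + 1) ^ b i) (NeZero.pos (l ^ (n + 1)))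
  have h1 : ((∏ i ∈ s, r i) ^ l) ^ l ^ n = 1 - z n ^ a := by
    rw [← pow_mul, ← pow_succ', ← prod_pow, ← h]
    exact prod_congr rfl fun i _ => hr i
  have h2 := mgdist_prod hz hk hσ s b (fun _ => 1) hr
  have h3 := mgdist_kum hz hk hσ h1
  simp only [pow_one, one_mul] at h2
  rw [map_pow, h2, mul_pow, pow_right_comm, hz.step, mul_left_inj' fun h4 => ha ?_, mgdist_pow hz,
    ZMod.natCast_zmod_val, Nat.cast_sum] at h3
  · simp only [← h3, ZMod.castHom_apply, ZMod.natCast_val]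
  · rw [h4, zero_pow (NeZero.ne _), eq_comm, sub_eq_zero, ← pow_zero (z n), mgdist_pow hz] at h1
    simpa using h1.symm

theorem mgdist_sum {M : Type} [AddCommMonoid M] (N : ℕ) [NeZero N] (f : ZMod N → M) :
    ∑ a, f a = ∑ i ∈ range N, f i :=
  sum_nbij' ZMod.val Nat.cast (fun a _ => mem_range.2 (ZMod.val_lt a)) (fun _ _ => mem_univ _)
    (fun a _ => ZMod.natCast_zmod_val a) (fun _ h => ZMod.val_cast_of_lt (mem_range.1 h))
    fun a _ => by rw [ZMod.natCast_zmod_val]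

theorem mgdist_mul {M : Type} [AddCommMonoid M] (f : ℕ → M) (N m : ℕ) :
    ∑ i ∈ range (N * m), f i = ∑ i ∈ range m, ∑ a ∈ range N, f (N * i + a) := by
  induction m with
  | zero => simp
  | succ m ih => rw [Nat.mul_succ, sum_range_add, ih, sum_range_succ]

/-- The distribution relation. -/
theorem souC_compat (hz : IsRoots l z) (hk : IsKumS l z k) {j : ℕ} (hj : 1 ≤ j) {σ : GQ}
    (hσ : σ ∈ HH z) (n : ℕ) :
    ZMod.castHom (pow_dvd_pow l n.le_succ) (ZMod (l ^ n)) (souC k j σ (n + 1)) =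
      souC k j σ n := by
  have hl : 0 < l := (Fact.out : l.Prime).pos
  rw [souC, souC, mgdist_sum, mgdist_sum, map_sum, show range (l ^ (n + 1)) = range (l ^ n * l) from
    rfl, mgdist_mul, sum_comm]
  refine sum_congr rfl fun a _ => ?_
  rw [← mgdist_red hz hk hj hσ (range l) (fun i => l ^ n * i + a), mul_sum]
  · refine sum_congr rfl fun i _ => ?_
    rw [map_mul, map_pow, map_natCast, Nat.cast_add, Nat.cast_mul, ZMod.natCast_self, zero_mul,
      zero_add]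
  · have h := congrArg (Polynomial.eval 1) (X_pow_sub_C_eq_prod
      ((hz.prim (n + 1)).pow (NeZero.pos _) (pow_succ l n)) hl
      (show (z (n + 1) ^ a) ^ l = z n ^ a by rw [pow_right_comm, hz.step]))
    simpa [Polynomial.eval_prod, pow_add, pow_mul] using h.symm

theorem mgdist_zero (hz : IsRoots l z) (hk : IsKumS l z k) {j : ℕ} (hj : 1 ≤ j) {σ : GQ}
    (hσ : σ ∈ HH z) (h : souC k j σ = 0) (n : ℕ) :
    ∑ a ∈ (range (l ^ n)).filter (fun a => ¬ l ∣ a), (a : ZMod (l ^ n)) ^ j * k n σ a = 0 := by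
  have hl : 0 < l := (Fact.out : l.Prime).pos
  obtain _ | n := n
  · simp [filter_singleton]
  have h1 := congrFun h (n + 1)
  have h2 := congrFun h n
  have h3 : (range (l ^ (n + 1))).filter (fun a => l ∣ a) = (range (l ^ n)).image (l * ·) := by
    ext a
    simp only [mem_filter, mem_image, mem_range, pow_succ']
    exact ⟨fun ⟨h, b, e⟩ => ⟨b, lt_of_mul_lt_mul_left (e ▸ h) l.zero_le, e.symm⟩,
      fun ⟨b, h, e⟩ => e ▸ ⟨Nat.mul_lt_mul_of_pos_left h hl, dvd_mul_right _ _⟩⟩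
  rw [souC, mgdist_sum, Pi.zero_apply] at h1 h2
  rw [← sum_filter_add_sum_filter_not _ (fun a => l ∣ a), h3,
    sum_image fun _ _ _ _ e => Nat.eq_of_mul_eq_mul_left hl e] at h1
  have h4 : ZMod.castHom (pow_dvd_pow l n.le_succ) (ZMod (l ^ n)) (∑ a ∈ range (l ^ n),
      (a : ZMod (l ^ (n + 1))) ^ j * k (n + 1) σ (l * a : ℕ)) = 0 := by
    rw [map_sum, ← h2]
    refine sum_congr rfl fun a _ => ?_
    rw [← mgdist_red hz hk hj hσ {0} (fun _ => l * a) (by rw [prod_singleton, pow_mul, hz.step]),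
      sum_singleton, map_mul, map_pow, map_natCast]
  rw [ZMod.castHom_apply, ← ZMod.natCast_val, ZMod.natCast_eq_zero_iff] at h4
  have h5 := (ZMod.natCast_eq_zero_iff _ _).2
    ((pow_succ' l n).dvd.trans (Nat.mul_dvd_mul_left l h4))
  rw [Nat.cast_mul, ZMod.natCast_zmod_val] at h5
  obtain ⟨j, rfl⟩ := Nat.exists_eq_add_of_le' hj
  rw [← h1, eq_comm, add_eq_right, ← mul_zero ((l : ZMod (l ^ (n + 1))) ^ j), ← h5, ← mul_assoc,
    mul_sum]
  refine sum_congr rfl fun a _ => ?_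
  rw [← pow_succ, ← mul_assoc, ← mul_pow, Nat.cast_mul]

theorem souC_ne (hz : IsRoots l z) (hk : IsKumS l z k) (hS : Sou l z) {j : ℕ} (hj : Odd (j + 1))
    (hj2 : 2 ≤ j) : ∃ σ ∈ HH z, souC k j σ ≠ 0 := by
  by_contra! h
  obtain ⟨n, hn⟩ := hS (j + 1) hj (by omega)
  choose r hr using fun i => IsAlgClosed.exists_pow_nat_eq (1 - z n ^ i) (NeZero.pos (l ^ n))
  refine hn ⟨∏ a ∈ (range (l ^ n)).filter (fun a => ¬ l ∣ a), r a ^ a ^ j, ?_, fun σ hσ => ?_⟩
  · rw [← prod_pow]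
    exact prod_congr rfl fun a _ => by rw [pow_right_comm, hr, Nat.add_sub_cancel]
  · rw [mgdist_prod hz hk hσ _ id _ hr, (mgdist_pow hz n _ 0).2, pow_zero, one_mul]
    simpa using mgdist_zero hz hk (by omega) hσ (h σ hσ) n

end Pool.Agent.Lib.MP_446a91_nt.Gal
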