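import Pool.Agent.Lib.MP_446a91_nt.Gal.MgBase

/-! From `ℤ_l` to `ℚ_l ⊗ FL` (MP_446a91_nt). -/

namespace Pool.Agent.Lib.MP_446a91_nt.Gal

open scoped TensorProduct

attribute [local instance 100] LieRing.ofAssociativeRing

section
variable {R K : Type} [CommRing R] [CommRing K] [Algebra R K]

variable (R K) in
/-- Extension of scalars. -/
noncomputable def mgliftE : W R (Fin 2) →ₐ[R] W K (Fin 2) := evW lt

theorem mglift_lt (i : Fin 2) : mgliftE R K (lt i) = lt i := evW_lt _ i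

theorem mglift_cf (w : List (Fin 2)) (p : W R (Fin 2)) :
    cf w (mgliftE R K p) = algebraMap R K (cf w p) := by
  have h : ∀ v, mgliftE R K (wrd v) = wrd v := fun v => by
    induction v with
    | nil => exact map_one _
    | cons i v ih => rw [wrd_cons, wrd_cons, map_mul, mglift_lt, ih]
  exact linW_eq ((cf w : W K (Fin 2) →ₗ[K] K).restrictScalars R ∘ₗ (mgliftE R K).toLinearMap)
    (Algebra.linearMap R K ∘ₗ cf w) p fun v _ => by simp [h, cf_wrd]

theorem mglift_mem {m : ℕ} {p : W R (Fin 2)} (hp : p ∈ LK R m) : mgliftE R K p ∈ LK K m :=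
  LK_induction (P := fun p => mgliftE R K p ∈ LK K m) hp
    (fun q hq => by rw [mgliftE, evW_evZ]; exact evZ_mem_LK hq)
    (fun _ _ h1 h2 => by rw [map_add]; exact add_mem h1 h2)
    (fun c _ h => by rw [map_smul]; exact Submodule.smul_of_tower_mem _ c h)

theorem mglift_upk {p : W R (Fin 2)} (h : UPK p) : UPK (mgliftE R K p) := by
  intro S _ _ a1 a2 a3 a4 a5 hr
  let _ : Algebra R S := Algebra.compHom S (algebraMap R K)
  have : IsScalarTower R K S := IsScalarTower.of_algebraMap_eq fun _ => rfl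
  have e : ∀ u v : S, evK u v (mgliftE R K p) = evK u v p := fun u v =>
    algHom_eq (φ := ((evK u v : W K (Fin 2) →ₐ[K] S).restrictScalars R).comp (mgliftE R K))
      (fun i => by fin_cases i <;> simp [mglift_lt]) p
  simpa only [e] using h S a1 a2 a3 a4 a5 hr

theorem mglift_ih (p q : W R (Fin 2)) :
    mgliftE R K (ihK p q) = ihK (mgliftE R K p) (mgliftE R K q) := by
  have e : ∀ p u : W R (Fin 2), mgliftE R K (dK p u) = dK (mgliftE R K p) (mgliftE R K u) :=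
    fun p u => der_inter (mgliftE R K).toRingHom (der_isDer _)
      (E := (dK (mgliftE R K p)).toAddMonoidHom) (der_isDer _) (fun r => by
        simp [Algebra.algebraMap_eq_smul_one, dK, der_one])
      (fun i => by fin_cases i <;> simp [dK, mglift_lt, map_cm]) u
  simp only [ihK, sK, LinearMap.add_apply, LM_apply, map_sub, map_add, map_mul, e]

end

/-- From `l`-adic integral Lie polynomials to `ℚ_l ⊗ FL`. -/
theorem exists_lift (l : ℕ) [Fact l.Prime] :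
    ∃ Λ : W ℤ_[l] (Fin 2) →ₗ[ℤ_[l]] ℚ_[l] ⊗[ℚ] FL,
      (∀ m, ∀ p ∈ LK ℤ_[l] m, (∀ w, cfwK ℚ_[l] w (Λ p) = (cf w.toList p : ℤ_[l])) ∧
        (Λ p = 0 → p = 0) ∧ (dep m p ≠ 0 → (dep1 m).baseChange ℚ_[l] (Λ p) ≠ 0) ∧
        (3 ≤ m → UPK p → Λ p ∈ (grt m).baseChange ℚ_[l])) ∧
      ∀ B, IsIhara B → ∀ m n, ∀ p ∈ LK ℤ_[l] m, ∀ q ∈ LK ℤ_[l] n, ihK p q ∈ LK ℤ_[l] (m + n) →
        Λ (ihK p q) = LinearMap.BilinMap.baseChange ℚ_[l] B (Λ p) (Λ q) := by
  obtain ⟨g, hg⟩ := (iotaK ℚ_[l]).exists_leftInverse_of_injective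
    (LinearMap.ker_eq_bot.2 iotaK_injective)
  have h1 : ∀ m, ∀ p ∈ LK ℤ_[l] m, g (mgliftE ℤ_[l] ℚ_[l] p) ∈ (deg m).baseChange ℚ_[l] ∧
      iotaK ℚ_[l] (g (mgliftE ℤ_[l] ℚ_[l] p)) = mgliftE ℤ_[l] ℚ_[l] p := fun m p hp => by
    obtain ⟨ψ, h1, h2⟩ := (map_iotaK_deg (K := ℚ_[l]) m).ge (mglift_mem hp)
    rw [← h2, show g (iotaK ℚ_[l] ψ) = ψ from LinearMap.congr_fun hg ψ]
    exact ⟨h1, rfl⟩
  have h2 : ∀ x : ℤ_[l], algebraMap ℤ_[l] ℚ_[l] x = 0 → x = 0 := fun x hx => Subtype.ext hx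
  refine ⟨g.restrictScalars ℤ_[l] ∘ₗ (mgliftE ℤ_[l] ℚ_[l]).toLinearMap, fun m p hp => ?_,
    fun B hB m n p hp q hq h => iotaK_injective ?_⟩
  · obtain ⟨h3, h4⟩ := h1 m p hp
    refine ⟨fun w => (cf_iotaK w.toList _).symm.trans ((congrArg _ h4).trans (mglift_cf _ p)),
      fun h => cf_ext fun w => h2 _ ?_, fun h => dep1_ne_zero fun h' => h (h2 _ ?_),
      fun hm h => mem_grt_of_upk hm h3 (h4.symm ▸ mglift_upk h)⟩
    · rw [← mglift_cf, ← h4, show g (mgliftE ℤ_[l] ℚ_[l] p) = 0 from h, map_zero, map_zero]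
    · exact (mglift_cf _ p).symm.trans ((congrArg _ h4.symm).trans h')
  · rw [iotaK_ihara hB]
    exact (h1 _ _ h).2.trans ((mglift_ih p q).trans (congrArg₂ ihK (h1 m p hp).2 (h1 n q hq).2).symm)

end Pool.Agent.Lib.MP_446a91_nt.Gal
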