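import Pool.Agent.Lib.MP_446a91_nt.Gal.MgCoc
import Pool.Agent.Lib.MP_446a91_nt.Gal.MgLift

/-! From the cocycle to the graded isomorphism (MP_446a91_nt). -/

namespace Pool.Agent.Lib.MP_446a91_nt.Gal

open scoped TensorProduct

theorem Coc.final {l : ℕ} [Fact l.Prime] {G Γ : Type} [Group G] [TopologicalSpace G]
    [IsTopologicalGroup G] [Group Γ] [TopologicalSpace Γ] [CompactSpace Γ] {M : Mag l G (Fin 2)}
    (C : Coc M Γ) (h2 : ∀ s ∈ C.H, C.φ 2 s = 0)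
    (hP : ∀ m, 3 ≤ m → ∀ s ∈ C.I m, UPK (C.φ m s))
    (hS : ∀ k, ∃ s ∈ C.I (2 * k + 3), dep (2 * k + 3) (C.φ (2 * k + 3) s) ≠ 0) :
    ∃ B : FL →ₗ[ℚ] FL →ₗ[ℚ] FL, IsIhara B ∧
    ∃ (φ : ℕ → Γ → ℚ_[l] ⊗[ℚ] FL) (A : ℕ → Submodule ℤ_[l] (ℚ_[l] ⊗[ℚ] FL)),
      (∀ m, 1 ≤ m →
        (∀ σ ∈ C.I m, ∀ τ ∈ C.I m, σ * τ⁻¹ ∈ C.I m ∧ φ m (σ * τ⁻¹) = φ m σ - φ m τ) ∧
        (∀ σ, σ ∈ C.I (m + 1) ↔ σ ∈ C.I m ∧ φ m σ = 0) ∧
        (∀ w, ContinuousOn (fun σ => cfwK ℚ_[l] w (φ m σ)) (C.I m)) ∧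
        φ m '' C.I m = A m ∧
        Submodule.span ℚ_[l] (A m : Set (ℚ_[l] ⊗[ℚ] FL)) = (grt m).baseChange ℚ_[l]) ∧
      ∀ m n, 1 ≤ m → 1 ≤ n → ∀ σ ∈ C.I m, ∀ τ ∈ C.I n,
        σ * τ * σ⁻¹ * τ⁻¹ ∈ C.I (m + n) ∧
        φ (m + n) (σ * τ * σ⁻¹ * τ⁻¹) = LinearMap.BilinMap.baseChange ℚ_[l] B (φ m σ) (φ n τ) := by
  obtain ⟨Λ, hΛ, hΛB⟩ := exists_lift l
  obtain ⟨B, hB, -, hF⟩ := free_generators ℚ_[l]
  choose s hs hs' using hS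
  obtain ⟨F, F1, -, F3, F4⟩ := hF (fun k => Λ (C.φ (2 * k + 3) (s k))) fun k => by
    obtain ⟨-, -, h3, h4⟩ := hΛ _ _ (C.φ_mem (by omega) (hs k))
    exact ⟨h4 (by omega) (hP _ (by omega) _ (hs k)), h3 (hs' k)⟩
  have hN : ∀ m, ∃ N : Submodule ℤ_[l] (W ℤ_[l] (Fin 2)),
      1 ≤ m → (N : Set (W ℤ_[l] (Fin 2))) = C.φ m '' C.I m := fun m => by
    rcases Nat.eq_zero_or_pos m with rfl | hm
    · exact ⟨⊥, fun h => absurd h (by omega)⟩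
    · obtain ⟨J, hJ, hc⟩ := C.exists_subgroup m
      obtain ⟨N, hN⟩ := (sepF_W (Fin 2)).exists_submodule hc (C.φ_cont m) fun a ha b hb =>
        C.φ_mul hm (hJ.le ha) (hJ.le hb)
      exact ⟨N, fun _ => hJ ▸ hN⟩
  choose N hN using hN
  have comm : ∀ m n, 1 ≤ m → 1 ≤ n → ∀ σ ∈ C.I m, ∀ τ ∈ C.I n,
      σ * τ * σ⁻¹ * τ⁻¹ ∈ C.I (m + n) ∧ Λ (C.φ (m + n) (σ * τ * σ⁻¹ * τ⁻¹)) =
        LinearMap.BilinMap.baseChange ℚ_[l] B (Λ (C.φ m σ)) (Λ (C.φ n τ)) := by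
    intro m n hm hn σ hσ τ hτ
    obtain ⟨h3, h4⟩ := C.φ_comm hm hn hσ hτ
    refine ⟨h3, ?_⟩
    rw [h4]
    exact hΛB B hB m n _ (C.φ_mem hm hσ) _ (C.φ_mem hn hτ) (h4 ▸ C.φ_mem (by omega) h3)
  have br : ∀ n u, IsBrMot n u → ∃ t ∈ C.I n, F (1 ⊗ₜ u) = Λ (C.φ n t) := by
    intro n u hu
    induction hu with
    | of k => exact ⟨s k, hs k, F1 k⟩
    | lie hu hv h3 h4 =>
      obtain ⟨a, ha, ea⟩ := h3
      obtain ⟨b, hb, eb⟩ := h4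
      have h5 := Desc.IsBrMot.three hu
      have h6 := Desc.IsBrMot.three hv
      obtain ⟨h7, h8⟩ := comm _ _ (by omega) (by omega) a ha b hb
      refine ⟨_, h7, ?_⟩
      rw [h8, ← ea, ← eb, ← F4]
      simp
  have img : ∀ m, 1 ≤ m → (fun σ => Λ (C.φ m σ)) '' C.I m = (N m).map Λ := fun m hm => by
    rw [Submodule.map_coe, hN m hm, Set.image_image]
  refine ⟨B, hB, fun m σ => Λ (C.φ m σ), fun m => (N m).map Λ, fun m hm =>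
    ⟨fun σ hσ τ hτ => ?_, fun σ => ?_, fun w => ?_, img m hm, ?_⟩, comm⟩
  · obtain ⟨h3, h4⟩ := C.φ_div hm hσ hτ
    exact ⟨h3, by simp only [h4, map_sub]⟩
  · rw [C.mem_succ hm]
    exact and_congr_right fun hσ => ⟨fun h => by simp only [h, map_zero],
      (hΛ m _ (C.φ_mem hm hσ)).2.1⟩
  · exact (continuous_subtype_val.comp (C.φ_cont m (cf w.toList))).continuousOn.congr
      fun σ hσ => (hΛ m _ (C.φ_mem hm hσ)).1 w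
  · rw [← img m hm]
    refine le_antisymm (Submodule.span_le.2 ?_) ?_
    · rintro _ ⟨σ, hσ, rfl⟩
      rcases le_or_gt 3 m with h3 | h3
      · exact (hΛ m _ (C.φ_mem hm hσ)).2.2.2 h3 (hP m h3 σ hσ)
      · have h4 : C.φ m σ = 0 := by
          obtain rfl | rfl : m = 1 ∨ m = 2 := by omega
          exacts [C.φ_one hσ.1, h2 σ hσ.1]
        simp only [h4, map_zero]
        exact zero_mem _
    · rw [← F3 m, Submodule.map_le_iff_le_comap]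
      refine (Desc.AK_eq m).le.trans (Submodule.span_le.2 ?_)
      rintro _ ⟨u, hu, rfl⟩
      obtain ⟨t, ht, e⟩ := br m u hu
      exact Submodule.subset_span ⟨t, ht, e.symm⟩

end Pool.Agent.Lib.MP_446a91_nt.Gal
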