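import Pool.Agent.Lib.MP_446a91_nt.Gal.MgSys

/-! The image of a system of leading terms (MP_446a91_nt). -/

namespace Pool.Agent.Lib.MP_446a91_nt.Gal

noncomputable section

variable {l : ℕ} [Fact l.Prime] {G G' ι : Type} [Group G] [TopologicalSpace G]
  [IsTopologicalGroup G] [Group G'] [TopologicalSpace G'] [IsTopologicalGroup G']
  {A A' : Type} [Ring A] [Algebra ℤ_[l] A] [Ring A'] [Algebra ℤ_[l] A']

namespace LTSys

variable (S : LTSys l G A) {d : ℕ} {g : G}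

theorem gens_of_dense [Finite ι] {x : ι → G} (hx : DenseGen x) : S.Gens x := by
  refine hx.ind (P := fun g => S.L 1 g ∈ Submodule.span ℤ_[l] (Set.range fun i => S.L 1 (x i)))
    (S.sep.isClosed_span (S.cont 1) (Set.finite_range _)) ?_ (fun a b ha hb => ?_)
    (fun a ha => ?_) fun i => Submodule.subset_span ⟨i, rfl⟩
  · rw [S.L_one le_rfl]
    exact zero_mem _
  · rw [S.mul le_rfl (mem_lcs_one a) (mem_lcs_one b)]
    exact add_mem ha hb
  · rw [S.L_inv le_rfl (mem_lcs_one a)]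
    exact neg_mem ha

/-- (M1), first half. -/
theorem L_mem [Finite ι] {x : ι → G} (hx : S.Gens x) (hd : 1 ≤ d) (hg : g ∈ lcs G d) :
    S.L d g ∈ LS ℤ_[l] (fun i => S.L 1 (x i)) d := by
  have h1 : ∀ g, S.L 1 g ∈ LS ℤ_[l] (fun i => S.L 1 (x i)) 1 := fun g => by
    rw [LS_one]
    exact hx g
  induction d, hd using Nat.le_induction generalizing g with
  | base => exact h1 g
  | succ d hd ih =>
    have hd' : 1 ≤ d + 1 := Nat.le_add_left 1 d
    refine lcs_ind hd (P := fun g => S.L (d + 1) g ∈ LS ℤ_[l] (fun i => S.L 1 (x i)) (d + 1))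
      ?_ ?_ (fun a ha b hb h h' => ?_) (fun a ha h => ?_) (fun a u hu => ?_) g hg
    · rw [LS_eq_span]
      exact S.sep.isClosed_span (S.cont _) (finite_Br _ _)
    · rw [S.L_one hd']
      exact zero_mem _
    · rw [S.mul hd' ha hb]
      exact add_mem h h'
    · rw [S.L_inv hd' ha]
      exact neg_mem h
    · rw [add_comm d 1, S.comm le_rfl hd (mem_lcs_one a) hu]
      exact cm_mem_LS (h1 a) (ih hu)

/-- (M1), second half, inside a closed subgroup. -/
theorem exists_L_eq [CompactSpace G] {C : Subgroup G} (hC : IsClosed (C : Set G)) {x : ι → G}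
    (hx : ∀ i, x i ∈ C) (hd : 1 ≤ d) {a : A} (ha : a ∈ LS ℤ_[l] (fun i => S.L 1 (x i)) d) :
    ∃ g ∈ C, g ∈ lcs G d ∧ S.L d g = a := by
  obtain ⟨N, hN⟩ := S.sep.exists_submodule (C := C ⊓ lcs G d) (hC.inter (lcs_closed d)) (S.cont d)
    fun a ha b hb => S.mul hd ha.2 hb.2
  have key : ∀ (e : ℕ) (u : A), Br (fun i => S.L 1 (x i)) (fun _ => 1) e u →
      ∃ g ∈ C, g ∈ lcs G e ∧ S.L e g = u := fun e u hu => by
    induction hu with
    | of i => exact ⟨x i, hx i, mem_lcs_one _, rfl⟩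
    | lie h1 h2 ih1 ih2 =>
      obtain ⟨g, hg, hg', rfl⟩ := ih1
      obtain ⟨k, hk, hk', rfl⟩ := ih2
      exact ⟨_, mul_mem (mul_mem (mul_mem hg hk) (inv_mem hg)) (inv_mem hk), comm_mem hg' hk',
        S.comm (h1.pos fun _ => le_rfl) (h2.pos fun _ => le_rfl) hg' hk'⟩
  have h3 : LS ℤ_[l] (fun i => S.L 1 (x i)) d ≤ N := by
    rw [LS_eq_span, Submodule.span_le, hN]
    intro u hu
    obtain ⟨g, hg, hg', he⟩ := key d u hu
    exact ⟨g, ⟨hg, hg'⟩, he⟩
  have h4 : a ∈ (N : Set A) := h3 ha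
  rw [hN] at h4
  obtain ⟨g, hg, he⟩ := h4
  exact ⟨g, hg.1, hg.2, he⟩

/-- (Gen'). -/
theorem Faith.dense [CompactSpace G] [T2Space G] [Finite ι] {S : LTSys l G A} (hS : S.Faith)
    {x : ι → G} (hx : S.Gens x) : DenseGen x := by
  obtain ⟨H, hH⟩ : ∃ H : Subgroup G, H = (Subgroup.closure (Set.range x)).topologicalClosure :=
    ⟨_, rfl⟩
  have hc : IsClosed (H : Set G) := hH ▸ Subgroup.isClosed_topologicalClosure _
  have hxH : ∀ i, x i ∈ H := fun i =>
    hH ▸ Subgroup.le_topologicalClosure _ (Subgroup.subset_closure ⟨i, rfl⟩)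
  rw [DenseGen, ← hH, eq_top_iff]
  intro g _
  have h1 : ∀ n, ∃ k ∈ H, k⁻¹ * g ∈ lcs G (n + 1) := fun n => by
    induction n with
    | zero => exact ⟨1, one_mem _, mem_lcs_one _⟩
    | succ n ih =>
      obtain ⟨k, hk, hk'⟩ := ih
      have hn : 1 ≤ n + 1 := Nat.le_add_left 1 n
      obtain ⟨u, hu, hu', he⟩ := S.exists_L_eq hc hxH hn (S.L_mem hx hn hk')
      refine ⟨k * u, mul_mem hk hu, ?_⟩
      rw [mul_inv_rev, mul_assoc]
      refine hS.ker hn (mul_mem (inv_mem hu') hk') ?_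
      rw [S.mul hn (inv_mem hu') hk', S.L_inv hn hu', he, neg_add_cancel]
  have h2 : ∀ n, IsClosed {k | k ∈ H ∧ k⁻¹ * g ∈ lcs G (n + 1)} := fun n =>
    hc.inter ((lcs_closed (n + 1)).preimage (continuous_inv.mul continuous_const))
  obtain ⟨k, hk⟩ := IsCompact.nonempty_iInter_of_sequence_nonempty_isCompact_isClosed
    (fun n => {k | k ∈ H ∧ k⁻¹ * g ∈ lcs G (n + 1)})
    (fun n k hk => ⟨hk.1, lcs_anti (Nat.le_succ _) hk.2⟩) h1 (h2 0).isCompact h2
  rw [Set.mem_iInter] at hk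
  have h3 := hS.inter _ fun n => lcs_anti (Nat.le_succ n) (hk n).2
  rw [← inv_mul_eq_one.1 h3]
  exact (hk 0).1

/-- One Lie polynomial represents the leading terms in two systems. -/
theorem exists_poly₂ [Finite ι] (S' : LTSys l G A') {x : ι → G} (hx : DenseGen x) (hd : 1 ≤ d)
    (hg : g ∈ lcs G d) : ∃ q ∈ LS ℤ_[l] (lt : ι → W ℤ_[l] ι) d,
      evW (fun i => S.L 1 (x i)) q = S.L d g ∧ evW (fun i => S'.L 1 (x i)) q = S'.L d g := by
  obtain ⟨q, hq, he⟩ := exists_poly ((S.prod S').L_mem ((S.prod S').gens_of_dense hx) hd hg)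
  refine ⟨q, hq, ?_, ?_⟩
  · refine Eq.trans ?_ (congrArg Prod.fst he)
    exact algHom_eq (φ' := (AlgHom.fst ℤ_[l] A A').comp (evW fun i => (S.prod S').L 1 (x i)))
      (fun i => by simp [prod]) q
  · refine Eq.trans ?_ (congrArg Prod.snd he)
    exact algHom_eq (φ' := (AlgHom.snd ℤ_[l] A A').comp (evW fun i => (S.prod S').L 1 (x i)))
      (fun i => by simp [prod]) q

end LTSys

end

end Pool.Agent.Lib.MP_446a91_nt.Gal
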