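import Pool.Agent.Lib.MP_446a91_nt.Gal.MgDer
import Pool.Agent.Lib.MP_446a91_nt.Gal.MgPad

/-! Moments of the Kummer measure and Magnus coefficients (MP_446a91_nt). -/

namespace Pool.Agent.Lib.MP_446a91_nt.Gal

variable {l : ℕ} [Fact l.Prime] {G : Type} [Group G] [TopologicalSpace G] [IsTopologicalGroup G]

theorem mgmom_ind {B : Type} [AddCommGroup B] [TopologicalSpace B] [T1Space B] {T : G → B} {d : ℕ}
    (hd : 1 ≤ d) (hT : Continuous T)
    (ha : ∀ a ∈ lcs G (d + 1), ∀ b ∈ lcs G (d + 1), T (a * b) = T a + T b)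
    (h : ∀ g, ∀ u ∈ lcs G d, T (g * u * g⁻¹ * u⁻¹) = 0) : ∀ g ∈ lcs G (d + 1), T g = 0 := by
  have h1 : T 1 = 0 := by
    have h2 := ha 1 (one_mem _) 1 (one_mem _)
    rw [mul_one] at h2
    exact left_eq_add.1 h2
  refine lcs_ind hd (isClosed_singleton.preimage hT) h1 (fun a h2 b h3 h4 h5 => ?_)
    (fun a h2 h3 => ?_) h
  · rw [ha a h2 b h3, h4, h5, add_zero]
  · have h4 := ha _ (inv_mem h2) a h2
    rwa [inv_mul_cancel, h1, h3, add_zero, eq_comm] at h4

section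
variable {R : Type} [CommRing R]

theorem mgmom_cons (r i : Fin 2) (w : List (Fin 2)) (q : W R (Fin 2)) :
    cf (i :: w) (lt r * q) = if r = i then cf w q else 0 :=
  linW_eq (cf (i :: w) ∘ₗ LinearMap.mulLeft R (lt r)) (if r = i then cf w else 0) q
    (fun v _ => by by_cases h : r = i <;> simp [← wrd_cons, cf_wrd, h]) |>.trans
    (by split_ifs <;> rfl)

theorem mgmom_concat (r i : Fin 2) (w : List (Fin 2)) (q : W R (Fin 2)) :
    cf (w ++ [i]) (q * lt r) = if r = i then cf w q else 0 :=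
  linW_eq (cf (w ++ [i]) ∘ₗ LinearMap.mulRight R (lt r)) (if r = i then cf w else 0) q
    (fun v _ => by by_cases h : r = i <;> simp [lt, wrd_mul, cf_wrd, h]) |>.trans
    (by split_ifs <;> rfl)

theorem mgmom_dep (c : Fin 2 → R) (q : W R (Fin 2)) (j : ℕ) :
    dep (j + 1 + 1) (cm (∑ e, c e • lt e) q) =
      c 0 * dep (j + 1) q - c 1 * cf (List.replicate (j + 1) 0) q := by
  have h : ∀ r, cf (List.replicate (j + 1) 0 ++ [1]) (lt r * q) =
      if r = 0 then dep (j + 1) q else 0 := fun r => mgmom_cons r 0 _ q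
  change cf (List.replicate (j + 1) 0 ++ [1]) _ = _
  simp only [cm, Fin.sum_univ_two, add_mul, mul_add, smul_mul_assoc, mul_smul_comm, map_sub,
    map_add, map_smul, h, mgmom_concat, smul_eq_mul]
  simp

theorem mgmom_cf (c : Fin 2 → R) (i : Fin 2) : cf [i] (∑ e, c e • lt e : W R (Fin 2)) = c i := by
  fin_cases i <;> simp [lt, cf_wrd]

variable [Fintype R]

theorem mgmom_exp (f : R → R) (x : R) (i : ℕ) : ∑ a, (a + x) ^ i * f a =
    ∑ t ∈ Finset.range i, (∑ a, a ^ t * f a) * (x ^ (i - t) * i.choose t) + ∑ a, a ^ i * f a := by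
  simp only [add_pow, Finset.sum_range_succ, Nat.sub_self, pow_zero, Nat.choose_self, Nat.cast_one,
    mul_one, add_mul, Finset.sum_add_distrib, Finset.sum_mul]
  rw [Finset.sum_comm]
  congr 1
  exact Finset.sum_congr rfl fun t _ => Finset.sum_congr rfl fun a _ => by ring

variable {Γ : Type} [Group Γ] {μ : Γ → R → R} {κ : Γ → R}

theorem mgmom_mul (h2 : ∀ g h a, μ (g * h) a = μ h a + μ g (a + κ h)) (g h : Γ) (x : R) (i : ℕ) :
    ∑ a, (a + x) ^ i * μ (g * h) a =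
      ∑ a, (a + x) ^ i * μ h a + ∑ a, (a + (x - κ h)) ^ i * μ g a := by
  rw [← Equiv.sum_comp (Equiv.addRight (κ h)) fun a => (a + (x - κ h)) ^ i * μ g a]
  simp only [h2, mul_add, Finset.sum_add_distrib, Equiv.coe_addRight, add_add_sub_cancel]

theorem mgmom_comm (h2 : ∀ g h a, μ (g * h) a = μ h a + μ g (a + κ h))
    (hκ : ∀ g h, κ (g * h) = κ g + κ h) (g u : Γ) (i : ℕ) :
    ∑ a, a ^ i * μ (g * u * g⁻¹ * u⁻¹) a =
      ∑ a, (a + (κ u + κ g)) ^ i * μ u a + ∑ a, (a + κ g) ^ i * μ g a -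
        ∑ a, (a + (κ u + κ g)) ^ i * μ g a - ∑ a, (a + κ u) ^ i * μ u a := by
  have e1 := mgmom_mul h2 (g * u * g⁻¹ * u⁻¹) (u * g) (κ u + κ g) i
  have e2 := mgmom_mul h2 g u (κ u + κ g) i
  have e3 := mgmom_mul h2 u g (κ u + κ g) i
  rw [show g * u * g⁻¹ * u⁻¹ * (u * g) = g * u by group, hκ, sub_self] at e1
  rw [add_sub_cancel_left] at e2
  rw [add_sub_cancel_right] at e3
  simp only [add_zero] at e1
  linear_combination e2 - e1 - e3

end

theorem moments (M : Mag l G (Fin 2)) {kk : Fin 2 → G → ℤ_[l]} (hk : ∀ e, IsChar (kk e))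
    (hL : ∀ g, M.L 1 g = ∑ e, kk e g • lt e) {n : ℕ} [NeZero (l ^ n)]
    {μ : G → ZMod (l ^ n) → ZMod (l ^ n)} (h1 : ∀ a, IsLocallyConstant fun g => μ g a)
    (h2 : ∀ g h a, μ (g * h) a = μ h a + μ g (a + PadicInt.toZModPow n (kk 0 h)))
    (h3 : ∀ g, ∑ a, μ g a = PadicInt.toZModPow n (kk 1 g)) {j : ℕ} (hj : 1 ≤ j) {g : G}
    (hg : g ∈ lcs G (j + 1)) : (∀ i < j, ∑ a, a ^ i * μ g a = 0) ∧
      ∑ a, a ^ j * μ g a =
        PadicInt.toZModPow n ((j.factorial : ℤ_[l]) * dep (j + 1) (M.L (j + 1) g)) := by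
  have hκ : ∀ g h, PadicInt.toZModPow n (kk 0 (g * h)) =
      PadicInt.toZModPow n (kk 0 g) + PadicInt.toZModPow n (kk 0 h) := fun g h => by
    rw [(hk 0).add, map_add]
  have hc := mgmom_comm h2 hκ
  have h0 : ∀ {d}, 1 ≤ d → ∀ u ∈ lcs G (d + 1), PadicInt.toZModPow n (kk 0 u) = 0 :=
    fun hd u hu => by
      rw [← mgmom_cf (fun e => kk e u) 0, ← hL, M.zero le_rfl (lcs_anti (by omega) hu), map_zero,
        map_zero]
  have hm : ∀ i, Continuous fun g => ∑ a, a ^ i * μ g a := fun i =>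
    continuous_finsetSum _ fun a _ => continuous_const.mul (h1 a).continuous
  have ha : ∀ {d}, 1 ≤ d → ∀ i, ∀ g ∈ lcs G (d + 1), ∀ h ∈ lcs G (d + 1),
      ∑ a, a ^ i * μ (g * h) a = ∑ a, a ^ i * μ g a + ∑ a, a ^ i * μ h a := fun hd i g _ h hh => by
    simp only [h2, h0 hd h hh, add_zero, mul_add, Finset.sum_add_distrib]
    exact add_comm _ _
  have key : ∀ {j}, 1 ≤ j → (∀ g, ∀ u ∈ lcs G j,
      (∀ i < j, ∑ a, a ^ i * μ (g * u * g⁻¹ * u⁻¹) a = 0) ∧ ∑ a, a ^ j * μ (g * u * g⁻¹ * u⁻¹) a =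
        PadicInt.toZModPow n ((j.factorial : ℤ_[l]) * dep (j + 1) (cm (M.L 1 g) (M.L j u)))) →
      ∀ g ∈ lcs G (j + 1), (∀ i < j, ∑ a, a ^ i * μ g a = 0) ∧ ∑ a, a ^ j * μ g a =
        PadicInt.toZModPow n ((j.factorial : ℤ_[l]) * dep (j + 1) (M.L (j + 1) g)) := by
    intro j hj H g hg
    refine ⟨fun i hi => mgmom_ind hj (hm i) (ha hj i) (fun g u hu => (H g u hu).1 i hi) g hg,
      sub_eq_zero.1 (mgmom_ind (T := fun g => ∑ a, a ^ j * μ g a -
        PadicInt.toZModPow n ((j.factorial : ℤ_[l]) * dep (j + 1) (M.L (j + 1) g))) hj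
        ((hm j).sub (isLocallyConstant_toZModPow
          (continuous_const.mul (M.cont (j + 1) (dep (j + 1)))) n).continuous)
        (fun a h4 b h5 => ?_) (fun g u hu => ?_) g hg)⟩
    · rw [ha hj j a h4 b h5, M.mul (by omega) h4 h5, map_add, mul_add, map_add]
      ring
    · have h4 := M.comm le_rfl hj (mem_lcs_one g) hu
      rw [add_comm 1 j] at h4
      rw [(H g u hu).2, h4, sub_self]
  induction j, hj using Nat.le_induction generalizing g with
  | base =>
    refine key le_rfl (fun g u _ => ⟨fun i hi => ?_, ?_⟩) g hg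
    · obtain rfl : i = 0 := by omega
      rw [hc]
      simp only [pow_zero]
      ring
    · have h4 : dep (0 + 1) (M.L 1 u) = kk 1 u := (congrArg (cf [1]) (hL u)).trans (mgmom_cf _ 1)
      have h5 : cf (List.replicate (0 + 1) 0) (M.L 1 u) = kk 0 u :=
        (congrArg (cf [0]) (hL u)).trans (mgmom_cf _ 0)
      rw [hc, hL g, mgmom_dep _ _ 0, h4, h5]
      simp only [pow_one, add_mul, Finset.sum_add_distrib, ← Finset.mul_sum, h3, Nat.factorial_one,
        Nat.cast_one, one_mul, map_sub, map_mul]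
      ring
  | succ j hj ih =>
    refine key (by omega) (fun g u hu => ?_) g hg
    obtain ⟨h4, h5⟩ := ih hu
    have h6 : ∀ i, ∑ a, a ^ i * μ (g * u * g⁻¹ * u⁻¹) a = ∑ t ∈ Finset.range i,
        (∑ a, a ^ t * μ u a) * (PadicInt.toZModPow n (kk 0 g) ^ (i - t) * i.choose t) := fun i => by
      rw [hc, h0 hj u hu, zero_add, mgmom_exp (μ u)]
      simp only [add_zero]
      ring
    refine ⟨fun i hi => ?_, ?_⟩
    · rw [h6]
      exact Finset.sum_eq_zero fun t ht => by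
        rw [h4 t (by have := Finset.mem_range.1 ht; omega), zero_mul]
    · rw [h6, Finset.sum_range_succ, Finset.sum_eq_zero fun t ht => by
        rw [h4 t (Finset.mem_range.1 ht), zero_mul], h5, hL g, mgmom_dep,
        cf_replicate (by omega) (M.L_memLS (by omega) hu), Nat.add_sub_cancel_left,
        Nat.choose_succ_self_right, Nat.factorial_succ]
      simp only [mul_zero, sub_zero, map_mul, map_natCast, Nat.cast_mul]
      ring

end Pool.Agent.Lib.MP_446a91_nt.Gal
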