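import Pool.Agent.Lib.MP_446a91_nt.Gal.XTab

/-! The pentagon for the leading term of Ihara's element (MP_446a91_nt). -/

namespace Pool.Agent.Lib.MP_446a91_nt.Gal

/-- The projection used along the divisor `n`. -/
def px : Fin 5 → Fin 4 := ![0, 0, 1, 2, 3]

section
variable {l : ℕ} [Fact l.Prime] {Q G Φ : Type} [Group Q] [TopologicalSpace Q]
  [IsTopologicalGroup Q] [Group G] [TopologicalSpace G] [IsTopologicalGroup G] [T2Space G] [Group Φ]
  [TopologicalSpace Φ] [IsTopologicalGroup Φ] [CompactSpace Φ] [T2Space Φ]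
  [TotallyDisconnectedSpace Φ] {kk : Fin 2 → Q → ℤ_[l]}

theorem xmain_tab (n : Fin 5) (e c : Fin 2) :
    ∑ j, tabP (px n) c j * tabA (ix n e).castSucc j = if c = e then 1 else 0 := by
  revert n e c
  decide

theorem xmain_zero (n : Fin 5) (hn : n = 0 ∨ n = 1) (c : Fin 2) :
    ∑ j, tabP 0 c j * tabA n.castSucc j = 0 := by
  revert n c
  decide

omit [T2Space G] [CompactSpace Φ] [T2Space Φ] [TotallyDisconnectedSpace Φ] in
theorem xmain_a (X : XGeo l Q G Φ kk) (M : Mag l Q (Fin 2))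
    (hL : ∀ g, M.L 1 g = ∑ e, kk e g • lt e) (n : Fin 5) (e : Fin 2) :
    M.L 1 (X.p (px n) (X.a5 (ix n e))) = lt e := by
  rw [X.L_p M hL]
  simp [xmain_tab]

omit [T2Space G] [CompactSpace Φ] [T2Space Φ] [TotallyDisconnectedSpace Φ] in
theorem xmain_z (X : XGeo l Q G Φ kk) (M : Mag l Q (Fin 2))
    (hL : ∀ g, M.L 1 g = ∑ e, kk e g • lt e) (n : Fin 5) (hn : n = 0 ∨ n = 1) :
    M.L 1 (X.p 0 (X.a5 n)) = 0 := by
  rw [X.L_p M hL]
  simp only [xmain_zero n hn, zero_smul, Finset.sum_const_zero]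

omit [T2Space Φ] [TotallyDisconnectedSpace Φ] in
/-- The product system with its five projections. -/
theorem xmain_sys (X : XGeo l Q G Φ kk) (M : Mag l Q (Fin 2)) (N : Mag l Φ (Fin 3))
    (hN : N.x = X.xs) : ∃ (A : Type) (_ : Ring A) (_ : Algebra ℤ_[l] A) (S : LTSys l G A)
      (θ : A →ₐ[ℤ_[l]] Module.End ℤ_[l] (W ℤ_[l] (Fin 3)))
      (π : Fin 4 → A →ₐ[ℤ_[l]] W ℤ_[l] (Fin 2)),
      (∀ d φ, 1 ≤ d → φ ∈ lcs Φ d → θ (S.L d (X.i φ)) = adW (N.L d φ)) ∧
        ∀ q d g, π q (S.L d g) = M.L d (X.p q g) := by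
  obtain ⟨S, hS⟩ := X.exists_ad N hN
  refine ⟨_, _, _, S.prod ((M.comap (X.p 0) (X.p_cont 0)).prod
    ((M.comap (X.p 1) (X.p_cont 1)).prod ((M.comap (X.p 2) (X.p_cont 2)).prod
      (M.comap (X.p 3) (X.p_cont 3))))), AlgHom.fst _ _ _,
    ![(AlgHom.fst _ _ _).comp (AlgHom.snd _ _ _),
      (AlgHom.fst _ _ _).comp ((AlgHom.snd _ _ _).comp (AlgHom.snd _ _ _)),
      (AlgHom.fst _ _ _).comp
        ((AlgHom.snd _ _ _).comp ((AlgHom.snd _ _ _).comp (AlgHom.snd _ _ _))),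
      (AlgHom.snd _ _ _).comp
        ((AlgHom.snd _ _ _).comp ((AlgHom.snd _ _ _).comp (AlgHom.snd _ _ _)))],
    hS, fun q d g => ?_⟩
  fin_cases q <;> rfl

/-- A family sent to the inner derivations of the letters is free. -/
theorem xmain_free {K A : Type} [CommRing K] [Ring A] [Algebra K A] {a : Fin 5 → A}
    (θ : A →ₐ[K] Module.End K (W K (Fin 3))) (h : ∀ c, θ (k3 a c) = adW (lt c)) : FreeK K a := by
  intro d q hq h0
  have h1 : θ (evW (k3 a) q) = evW (fun c => adW (lt c : W K (Fin 3))) q :=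
    algHom_eq (φ := θ.comp (evW (k3 a))) (fun c => by simp [h]) q
  rw [h0, map_zero, evW_adW hq] at h1
  have h2 : ∀ c, cm (lt c) q = 0 := fun c => by
    have h3 : cm q (lt c) = 0 := by rw [← adW_apply, ← h1, LinearMap.zero_apply]
    rw [cm, sub_eq_zero] at h3 ⊢
    exact h3.symm
  exact cen_both hq (i := 0) (j := 1) (by decide) (h2 0) (h2 1)

/-- The system is the product of the adjoint system and the four systems `M.comap (p q)`;
`good_of_model` with the projection `p 0`, `FreeK` by `k3_eq`, `evW_adW`, `cen_both`. -/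
theorem XGeo.exists_pent (X : XGeo l Q G Φ kk) (M : Mag l Q (Fin 2))
    (hL : ∀ g, M.L 1 g = ∑ e, kk e g • lt e) :
    ∃ (A : Type) (_ : Ring A) (_ : Algebra ℤ_[l] A) (P : Pent M G A),
      P.a = X.a5 ∧ ∀ n, P.p n = X.p (px n) := by
  obtain ⟨N, hN⟩ := exists_mag X.free3
  obtain ⟨A, _, _, S, θ, π, h1, hπ⟩ := xmain_sys X M N hN
  have h2 : ∀ g, (∀ j, X.κ j g = 0) → g ∈ lcs G 2 := fun g h => X.mem_two M N hL hN h
  have hf : FreeK ℤ_[l] fun n => S.L 1 (X.a5 n) := xmain_free θ fun c => by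
    rw [X.k3_eq S h2, h1 1 _ le_rfl (mem_lcs_one _), ← hN, N.L_x]
  have hg : Good ℤ_[l] fun n => S.L 1 (X.a5 n) :=
    good_of_model (X.r5 S h2) hf (π 0) ((hπ 0 1 _).trans (xmain_z X M hL 0 (.inl rfl)))
      ((hπ 0 1 _).trans (xmain_z X M hL 1 (.inr rfl))) ((hπ 0 1 _).trans (xmain_a X M hL 0 1))
      ((hπ 0 1 _).trans (xmain_a X M hL 0 0)) ((hπ 0 1 _).trans (xmain_a X M hL 1 1))
  exact ⟨A, _, _,
    { S := S
      faith := X.faith M N S θ (π 0) h1 (hπ 0)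
      a := X.a5
      gens := X.gens S M hL N hN h2
      good := hg
      cen := X.cen S h2
      p := fun n => X.p (px n)
      p_cont := fun n => X.p_cont _
      π := fun n => π (px n)
      π_L := fun n => hπ (px n)
      π_a := xmain_a X M hL }, rfl, fun _ => rfl⟩

end

theorem upk_of_X {l : ℕ} [Fact l.Prime] {Q G Φ : Type} [Group Q] [TopologicalSpace Q]
    [IsTopologicalGroup Q] [CompactSpace Q] [T2Space Q] [Group G] [TopologicalSpace G]
    [IsTopologicalGroup G] [CompactSpace G] [T2Space G] [TotallyDisconnectedSpace G] [Group Φ]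
    [TopologicalSpace Φ] [IsTopologicalGroup Φ] [CompactSpace Φ] [T2Space Φ]
    [TotallyDisconnectedSpace Φ] (M : Mag l Q (Fin 2)) {kk : Fin 2 → Q → ℤ_[l]}
    (_hk : ∀ e, IsChar (kk e)) (hL : ∀ g, M.L 1 g = ∑ e, kk e g • lt e) (X : XGeo l Q G Φ kk)
    {α : MulAut Q} (hα : Continuous α) (XA : XAut X α) {f : Q} {m : ℕ} (hm : 2 ≤ m)
    (hf : f ∈ lcs Q m) (hx : α (M.x 0) = M.x 0) (hy : α (M.x 1) = f⁻¹ * M.x 1 * f) :
    UPK (M.L m f) := by
  obtain ⟨A, _, _, P, h1, h2⟩ := X.exists_pent M hL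
  refine P.upk hα hm hf hx hy (β := XA.β) (t := fun n => XA.t n.castSucc)
    ⟨XA.β_cont, fun n => mem_lcs_one _, fun n => ?_, fun n => ?_⟩
  · rw [h1]; exact XA.conj _
  · rw [h2]; exact XA.pβ _

end Pool.Agent.Lib.MP_446a91_nt.Gal
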