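import Pool.Agent.Lib.MP_446a91_nt.Gal.MgFin
import Pool.Agent.Lib.MP_446a91_nt.Gal.MgMom
import Pool.Agent.Lib.MP_446a91_nt.Gal.MgDist
import Pool.Agent.Lib.MP_446a91_nt.Gal.XMain

/-! The group side of the Deligne-Ihara statement (MP_446a91_nt). -/

namespace Pool.Agent.Lib.MP_446a91_nt.Gal

open scoped TensorProduct

/-- The statement of the hand-in. -/
def Goal (l : ℕ) [Fact l.Prime] : Prop :=
    (∀ m, 1 ≤ m → IsClosed (II l m)) ∧
    (∀ σ : GQ, ∃ s : MX l ≃+* MX l, IsLift σ s ∧ ∀ h, ∃ h', IsConjBy s h h') ∧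
    ∃ B : FL →ₗ[ℚ] FL →ₗ[ℚ] FL, IsIhara B ∧
    ∃ (φ : ℕ → GQ → ℚ_[l] ⊗[ℚ] FL) (A : ℕ → Submodule ℤ_[l] (ℚ_[l] ⊗[ℚ] FL)),
      (∀ m, 1 ≤ m →
        (∀ σ ∈ II l m, ∀ τ ∈ II l m, σ * τ⁻¹ ∈ II l m ∧ φ m (σ * τ⁻¹) = φ m σ - φ m τ) ∧
        (∀ σ, σ ∈ II l (m + 1) ↔ σ ∈ II l m ∧ φ m σ = 0) ∧
        (∀ w, ContinuousOn (fun σ => cfwK ℚ_[l] w (φ m σ)) (II l m)) ∧
        φ m '' II l m = A m ∧
        Submodule.span ℚ_[l] (A m : Set (ℚ_[l] ⊗[ℚ] FL)) = (grt m).baseChange ℚ_[l]) ∧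
      ∀ m n, 1 ≤ m → 1 ≤ n → ∀ σ ∈ II l m, ∀ τ ∈ II l n,
        σ * τ * σ⁻¹ * τ⁻¹ ∈ II l (m + n) ∧
        φ (m + n) (σ * τ * σ⁻¹ * τ⁻¹) = LinearMap.BilinMap.baseChange ℚ_[l] B (φ m σ) (φ n τ)

/-- G and X blocks (helper33, helper36). -/
theorem goal_of_data {l : ℕ} [Fact l.Prime] {z : ℕ → Qb} (hz : IsRoots l z) (D : PiData l z)
    (hX : HasX D) (hS : Sou l z) : Goal l := by
  have := D.gal
  have : Algebra.IsAlgebraic ℚ Qb := AlgebraicClosure.isAlgebraic ℚ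
  have : IsAlgClosure ℚ Qb := ⟨inferInstance, inferInstance⟩
  obtain ⟨M, hM⟩ := exists_mag D.free
  have hv : ∀ c d, D.kk c (M.x d) = if c = d then 1 else 0 := fun c d => by rw [hM, D.kk_xy]
  have hL := M.L_one_char D.kk_char hv
  let C : Coc M GQ :=
    { ρ := D.act
      cont := D.act_cont
      f := D.f
      fcont := D.f_cont
      f_mul := D.f_mul
      H := HH z
      normal := HH_normal hz
      closed := HH_closed z
      hx := fun s hs => by rw [hM]; exact D.act_x s hs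
      hy := fun s hs => by rw [hM]; exact D.act_y s hs
      two := fun s hs => M.mem_two_of_char D.kk_char hv (D.kk_f s hs) }
  have hI : ∀ m, 1 ≤ m → II l m = C.I m := fun m hm => by
    ext σ
    rw [D.mem_II]
    refine ⟨fun h => ?_, fun h => ?_⟩
    · have hσ : σ ∈ HH z := D.fix σ fun u => by
        obtain ⟨g, hg⟩ := h
        have h1 := (D.kk_char 0).two (lcs_anti (by omega) (hg u))
        have k := D.kk_char 0
        rw [k.add, k.inv, k.add, k.add, k.inv] at h1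
        linear_combination h1
      exact ⟨hσ, (M.inner_iff (D.act σ) (D.act_cont σ) (C.two σ hσ) (C.hx σ hσ) (C.hy σ hσ) m).1 h⟩
    · exact (M.inner_iff (D.act σ) (D.act_cont σ) (C.two σ h.1) (C.hx σ h.1) (C.hy σ h.1) m).2 h.2
  have h2 : ∀ s ∈ C.H, C.φ 2 s = 0 := fun s hs => by
    obtain ⟨t, t1, t2⟩ := D.act_z s hs
    refine M.L_two (D.act s) (D.act_cont s) (C.two s hs) (C.hx s hs) (C.hy s hs) ?_
      (M.mem_two_of_char D.kk_char hv t1) t2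
    simp [hL, D.kk_zz, add_comm]
  have hP : ∀ m, 3 ≤ m → ∀ s ∈ C.I m, UPK (C.φ m s) := fun m hm s hs => by
    obtain ⟨G, Φ, _, _, _, _, _, _, _, _, _, _, _, _, X, hX⟩ := hX
    obtain ⟨XA⟩ := hX s hs.1
    exact upk_of_X M D.kk_char hL X (D.act_cont s) XA (by omega) hs.2 (C.hx s hs.1) (C.hy s hs.1)
  have hK : IsKumS l z fun n σ => D.μ n (D.f σ) := D.μ_f
  have h3 : ∀ k, ∃ s ∈ C.I (2 * k + 3), dep (2 * k + 3) (C.φ (2 * k + 3) s) ≠ 0 := fun k => by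
    obtain ⟨γ, b, hb, hγ⟩ := D.gam
    have j1 : 1 ≤ 2 * k + 2 := by omega
    obtain ⟨N, hN, h⟩ := C.weight_trick (m := 2 * k + 3) (γ := γ) hb
      (fun g => by
        rw [hL, hL, Finset.smul_sum]
        exact Finset.sum_congr rfl fun e _ => by
          rw [smul_smul]; exact congrArg (· • _) (D.wt γ b hγ e g))
      (souC (fun n σ => D.μ n (D.f σ)) (2 * k + 2)) (fun s hs t ht => souC_mul hz hK j1 hs ht)
      fun s hs => souC_wt hz hK j1 hγ hs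
    obtain ⟨σ, hσ, h0⟩ := souC_ne hz hK hS (j := 2 * k + 2) ⟨k + 1, by ring⟩ (by omega)
    obtain ⟨s, hs, e⟩ := h σ hσ
    refine ⟨s, hs, fun h1 => h0 (compat_eq_zero (souC_compat hz hK j1 hσ) hN ?_)⟩
    rw [← e]
    funext n
    have := (moments M D.kk_char hL (D.μ_lc n) (D.μ_mul n)
      (fun g => by rw [← D.μ_sum n g, finsum_eq_sum_of_fintype]) j1 hs.2).2
    rw [show dep (2 * k + 2 + 1) (M.L (2 * k + 2 + 1) (C.f s)) = 0 from h1, mul_zero,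
      map_zero] at this
    exact this
  obtain ⟨B, hB, φ, A, e1, e2⟩ := C.final h2 hP h3
  refine ⟨fun m hm => ?_, fun σ => ?_, B, hB, φ, A, fun m hm => ?_, fun m n hm hn => ?_⟩
  · obtain ⟨J, j1, j2⟩ := C.exists_subgroup m
    rw [hI m hm, ← j1]
    exact j2
  · obtain ⟨s, s1, s2⟩ := D.lift σ
    exact ⟨s, s1, fun h => ⟨_, s2 h⟩⟩
  · rw [hI m hm, hI (m + 1) (by omega)]
    exact e1 m hm
  · rw [hI m hm, hI n hn, hI (m + n) (by omega)]
    exact e2 m n hm hn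

end Pool.Agent.Lib.MP_446a91_nt.Gal
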