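import Pool.Agent.Lib.MP_446a91_nt.Gal.MgLcs

/-! The graded Lie algebra `⨁ G(d) / G(d) ^ l G(d + 1)` (MP_446a91_nt). -/

namespace Pool.Agent.Lib.MP_446a91_nt.Gal

open scoped DirectSum commutatorElement

variable (l : ℕ) [Fact l.Prime] (G : Type) [Group G] [TopologicalSpace G] [IsTopologicalGroup G]

/-- The subgroup `G(e + 1) ^ l G(e + 2)`. -/
def grN (e : ℕ) : Subgroup G where
  carrier := {g | ∃ u ∈ lcs G (e + 1), ∃ v ∈ lcs G (e + 2), g = u ^ l * v}
  one_mem' := ⟨1, one_mem _, 1, one_mem _, by simp⟩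
  mul_mem' := by
    rintro _ _ ⟨u, hu, v, hv, rfl⟩ ⟨u', hu', v', hv', rfl⟩
    refine ⟨u * u', mul_mem hu hu', ((u * u') ^ l)⁻¹ * (u ^ l * v * (u' ^ l * v')), ?_, by group⟩
    have c : Commute (u : G ⧸ lcs G (e + 2)) u' := by
      have h := lcs_anti (show e + 2 ≤ e + 1 + (e + 1) by omega) (comm_mem hu hu')
      rw [← QuotientGroup.eq_one_iff] at h
      exact commutatorElement_eq_one_iff_commute.1 (by simpa [commutatorElement_def] using h)
    rw [← QuotientGroup.eq_one_iff] at hv hv' ⊢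
    simp [hv, hv', c.mul_pow]
  inv_mem' := by
    rintro _ ⟨u, hu, v, hv, rfl⟩
    exact ⟨u⁻¹, inv_mem hu, u ^ l * v⁻¹ * (u ^ l)⁻¹,
      (lcs_normal _).conj_mem _ (inv_mem hv) _, by rw [inv_pow]; group⟩

variable {l G}

omit [Fact l.Prime] in
theorem grN_of_mem {e : ℕ} {g : G} (h : g ∈ lcs G (e + 2)) : g ∈ grN l G e :=
  ⟨1, one_mem _, g, h, by simp⟩

instance grN_normal (e : ℕ) : ((grN l G e).subgroupOf (lcs G (e + 1))).Normal :=
  ⟨fun a ha b => by
    rw [Subgroup.mem_subgroupOf] at ha ⊢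
    have h := grN_of_mem (l := l) (lcs_anti (show e + 2 ≤ e + 1 + (e + 1) by omega)
      (comm_mem b.2 a.2))
    simpa using mul_mem h ha⟩

variable (l G) in
/-- The quotient `G(e + 1) / G(e + 1) ^ l G(e + 2)`. -/
def grH (e : ℕ) : Type := lcs G (e + 1) ⧸ (grN l G e).subgroupOf (lcs G (e + 1))

instance (e : ℕ) : CommGroup (grH l G e) :=
  { (inferInstance : Group (lcs G (e + 1) ⧸ (grN l G e).subgroupOf (lcs G (e + 1)))) with
    mul_comm := by
      rintro ⟨a⟩ ⟨b⟩
      refine QuotientGroup.eq.2 (Subgroup.mem_subgroupOf.2 (grN_of_mem ?_))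
      simpa [mul_assoc] using lcs_anti (show e + 2 ≤ e + 1 + (e + 1) by omega)
        (comm_mem (inv_mem b.2) (inv_mem a.2)) }

open Classical in
/-- The class of an element in the graded group. -/
noncomputable def grCls (l : ℕ) : ℕ → G → ⨁ e, Additive (grH l G e)
  | 0, _ => 0
  | e + 1, g => if h : g ∈ lcs G (e + 1) then
      DirectSum.of (fun e => Additive (grH l G e)) e
        (Additive.ofMul (QuotientGroup.mk (⟨g, h⟩ : lcs G (e + 1)))) else 0

omit [Fact l.Prime] in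
theorem grCls_eq {e : ℕ} {g : G} (h : g ∈ lcs G (e + 1)) : grCls l (e + 1) g =
    DirectSum.of (fun e => Additive (grH l G e)) e
      (Additive.ofMul (QuotientGroup.mk (⟨g, h⟩ : lcs G (e + 1)))) := dif_pos h

variable (l G) in
omit [Fact l.Prime] in
theorem exists_gr_add : ∃ (V : Type) (_ : AddCommGroup V) (cls : ℕ → G → V),
    (∀ d, 1 ≤ d → ∀ g ∈ lcs G d, ∀ h ∈ lcs G d, cls d (g * h) = cls d g + cls d h) ∧
    (∀ d, 1 ≤ d → ∀ g ∈ lcs G d,
      cls d g = 0 ↔ ∃ u ∈ lcs G d, ∃ v ∈ lcs G (d + 1), g = u ^ l * v) ∧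
    (∀ P : AddSubgroup V, (∀ d, 1 ≤ d → ∀ g ∈ lcs G d, cls d g ∈ P) → P = ⊤) ∧
    ∀ (B : Type) [AddCommGroup B] (Λ : ℕ → G → B), (∀ b : B, l • b = 0) →
      (∀ d, 1 ≤ d → ∀ g ∈ lcs G d, ∀ h ∈ lcs G d, Λ d (g * h) = Λ d g + Λ d h) →
      (∀ d, 1 ≤ d → ∀ g ∈ lcs G (d + 1), Λ d g = 0) →
      ∃ Θ : V →+ B, ∀ d, 1 ≤ d → ∀ g ∈ lcs G d, Θ (cls d g) = Λ d g := by
  refine ⟨⨁ e, Additive (grH l G e), inferInstance, grCls l, ?_, ?_, ?_, ?_⟩
  · rintro (_ | e) hd g hg h hh
    · omega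
    · rw [grCls_eq hg, grCls_eq hh, grCls_eq (mul_mem hg hh), ← map_add]
      rfl
  · rintro (_ | e) hd g hg
    · omega
    · rw [grCls_eq hg, map_eq_zero_iff _ (DirectSum.of_injective e)]
      exact (QuotientGroup.eq_one_iff (⟨g, hg⟩ : lcs G (e + 1))).trans Subgroup.mem_subgroupOf
  · intro P hP
    refine eq_top_iff.2 fun v _ => ?_
    induction v using DirectSum.induction_on with
    | zero => exact zero_mem _
    | of e a =>
      obtain ⟨g, hg⟩ := a
      exact grCls_eq (l := l) hg ▸ hP (e + 1) (by omega) g hg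
    | add a b h1 h2 => exact add_mem (h1 trivial) (h2 trivial)
  · intro B _ Λ hB h1 h2
    have key : ∀ e, ∃ θ : Additive (grH l G e) →+ B, ∀ g (h : g ∈ lcs G (e + 1)),
        θ (Additive.ofMul (QuotientGroup.mk (⟨g, h⟩ : lcs G (e + 1)))) = Λ (e + 1) g := fun e => by
      let f : lcs G (e + 1) →* Multiplicative B := MonoidHom.mk'
        (fun g => Multiplicative.ofAdd (Λ (e + 1) g)) fun a b => h1 _ (by omega) _ a.2 _ b.2
      refine ⟨MonoidHom.toAdditiveLeft (QuotientGroup.lift _ f ?_), fun g h => rfl⟩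
      rintro ⟨_, h⟩ ⟨u, hu, v, hv, rfl⟩
      have e1 : (⟨_, h⟩ : lcs G (e + 1)) = ⟨u, hu⟩ ^ l * ⟨v, lcs_anti (by omega) hv⟩ := rfl
      have e2 : f ⟨u, hu⟩ ^ l = 1 := hB (Λ (e + 1) u)
      have e3 : f ⟨v, lcs_anti (by omega) hv⟩ = 1 := h2 (e + 1) (by omega) v hv
      rw [MonoidHom.mem_ker, e1, map_mul, map_pow, e2, e3, mul_one]
    choose θ hθ using key
    refine ⟨DirectSum.toAddMonoid θ, ?_⟩
    rintro (_ | e) hd g hg
    · omega
    · rw [grCls_eq hg, DirectSum.toAddMonoid_of, hθ]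

variable (l G)

theorem exists_gr : ∃ (V : Type) (_ : LieRing V) (_ : LieAlgebra (ZMod l) V) (cls : ℕ → G → V),
    (∀ d, 1 ≤ d → ∀ g ∈ lcs G d, ∀ h ∈ lcs G d, cls d (g * h) = cls d g + cls d h) ∧
    (∀ d, 1 ≤ d → ∀ g ∈ lcs G d,
      cls d g = 0 ↔ ∃ u ∈ lcs G d, ∃ v ∈ lcs G (d + 1), g = u ^ l * v) ∧
    (∀ i j, 1 ≤ i → 1 ≤ j → ∀ g ∈ lcs G i, ∀ h ∈ lcs G j,
      cls (i + j) (g * h * g⁻¹ * h⁻¹) = ⁅cls i g, cls j h⁆) ∧
    (∀ P : AddSubgroup V, (∀ d, 1 ≤ d → ∀ g ∈ lcs G d, cls d g ∈ P) → P = ⊤) ∧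
    ∀ (B : Type) [AddCommGroup B] (Λ : ℕ → G → B), (∀ b : B, l • b = 0) →
      (∀ d, 1 ≤ d → ∀ g ∈ lcs G d, ∀ h ∈ lcs G d, Λ d (g * h) = Λ d g + Λ d h) →
      (∀ d, 1 ≤ d → ∀ g ∈ lcs G (d + 1), Λ d g = 0) →
      ∃ Θ : V →+ B, ∀ d, 1 ≤ d → ∀ g ∈ lcs G d, Θ (cls d g) = Λ d g := by
  obtain ⟨V, _, cls, h1, h2, h3, h4⟩ := exists_gr_add l G
  have cmem : ∀ {i j : ℕ} {g h : G}, g ∈ lcs G i → h ∈ lcs G j → ⁅g, h⁆ ∈ lcs G (i + j) :=
    comm_mem
  have z : ∀ d, 1 ≤ d → ∀ g ∈ lcs G (d + 1), cls d g = 0 := fun d hd g hg =>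
    (h2 d hd g (lcs_anti d.le_succ hg)).2 ⟨1, one_mem _, g, hg, by simp⟩
  have one : ∀ d, 1 ≤ d → cls d 1 = 0 := fun d hd => z d hd 1 (one_mem _)
  have inv : ∀ d, 1 ≤ d → ∀ g ∈ lcs G d, cls d g⁻¹ = -cls d g := fun d hd g hg => by
    rw [eq_neg_iff_add_eq_zero, ← h1 d hd _ (inv_mem hg) _ hg, inv_mul_cancel, one d hd]
  have conj : ∀ d, 1 ≤ d → ∀ u ∈ lcs G d, ∀ a, cls d (a * u * a⁻¹) = cls d u := fun d hd u hu a => by
    have h := comm_mem (mem_lcs_one a) hu
    rw [add_comm] at h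
    rw [show a * u * a⁻¹ = a * u * a⁻¹ * u⁻¹ * u by group,
      h1 d hd _ (lcs_anti d.le_succ h) _ hu, z d hd _ h, zero_add]
  have ext : ∀ {B : Type} [AddCommGroup B] {f f' : V →+ B},
      (∀ d, 1 ≤ d → ∀ g ∈ lcs G d, f (cls d g) = f' (cls d g)) → f = f' := fun {B} _ f f' h =>
    AddMonoidHom.ext fun v => (h3 (f.eqLocus f') h).ge trivial
  have tor : ∀ v : V, l • v = 0 := fun v => by
    refine DFunLike.congr_fun (ext (f := nsmulAddMonoidHom l) (f' := 0) fun d hd g hg => ?_) v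
    have p : ∀ n, cls d (g ^ n) = n • cls d g := fun n => by
      induction n with
      | zero => simp [one d hd]
      | succ n ih => rw [pow_succ, h1 d hd _ (pow_mem hg n) _ hg, ih, succ_nsmul]
    exact (p l).symm.trans ((h2 d hd _ (pow_mem hg l)).2 ⟨g, hg, 1, one_mem _, by simp⟩)
  have ad : ∀ i g, ∃ Θ : V →+ V, g ∈ lcs G i → ∀ j, 1 ≤ j → ∀ h ∈ lcs G j,
      Θ (cls j h) = cls (i + j) ⁅g, h⁆ := fun i g => by
    by_cases hg : g ∈ lcs G i
    · obtain ⟨Θ, hΘ⟩ := h4 V (fun j h => cls (i + j) ⁅g, h⁆) tor (fun j hj a ha b hb => by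
          rw [show ⁅g, a * b⁆ = ⁅g, a⁆ * (a * ⁅g, b⁆ * a⁻¹) by
            simp only [commutatorElement_def]; group,
            h1 _ (by omega) _ (cmem hg ha) _ ((lcs_normal _).conj_mem _ (cmem hg hb) a),
            conj _ (by omega) _ (cmem hg hb)]) fun j hj a ha =>
          z _ (by omega) _ (cmem (j := j + 1) hg ha)
      exact ⟨Θ, fun _ => hΘ⟩
    · exact ⟨0, fun h => absurd h hg⟩
  choose ad had using ad
  obtain ⟨Br, hBr⟩ := h4 (V →+ V) ad (fun b => AddMonoidHom.ext fun v => tor (b v))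
    (fun i hi a ha b hb => ext fun j hj h hh => by
      rw [AddMonoidHom.add_apply, had _ _ (mul_mem ha hb) j hj h hh, had _ _ ha j hj h hh,
        had _ _ hb j hj h hh, show ⁅a * b, h⁆ = (a * ⁅b, h⁆ * a⁻¹) * ⁅a, h⁆ by
          simp only [commutatorElement_def]; group,
        h1 _ (by omega) _ ((lcs_normal _).conj_mem _ (cmem hb hh) a) _ (cmem ha hh),
        conj _ (by omega) _ (cmem hb hh), add_comm])
    fun i hi a ha => ext fun j hj h hh => by
      rw [had _ _ (lcs_anti i.le_succ ha) j hj h hh]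
      exact z _ (by omega) _ (by simpa only [add_right_comm i 1 j] using cmem ha hh)
  have br : ∀ {i j g h}, 1 ≤ i → 1 ≤ j → g ∈ lcs G i → h ∈ lcs G j →
      Br (cls i g) (cls j h) = cls (i + j) ⁅g, h⁆ := fun hi hj hg hh => by
    rw [hBr _ hi _ hg, had _ _ hg _ hj _ hh]
  have skew : ∀ x y, Br x y = -Br y x := fun x y => by
    refine DFunLike.congr_fun (DFunLike.congr_fun (ext (f := Br) (f' := -Br.flip)
      fun i hi g hg => ext fun j hj h hh => ?_) x) y
    change _ = -Br (cls j h) (cls i g)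
    rw [br hi hj hg hh, br hj hi hh hg, add_comm j i, ← commutatorElement_inv h g]
    exact inv _ (by omega) _ (add_comm j i ▸ cmem hh hg)
  have self : ∀ x, Br x x = 0 := fun x => by
    refine (h3 { carrier := {x | Br x x = 0}
                 zero_mem' := by simp
                 add_mem' := fun {a b} ha hb => ?_
                 neg_mem' := fun {a} ha => by simpa using ha } fun d hd g hg => ?_).ge trivial
    · change Br _ _ = 0 at ha hb ⊢
      simp only [map_add, AddMonoidHom.add_apply, ha, hb, skew a b]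
      abel
    · change Br _ _ = 0
      rw [br hd hd hg hg, commutatorElement_self, one _ (by omega)]
  have jac : ∀ x y w, Br x (Br y w) + Br y (Br w x) + Br w (Br x y) = 0 := fun x y w => by
    induction (h3 (AddSubgroup.closure {v | ∃ d, 1 ≤ d ∧ ∃ g ∈ lcs G d, cls d g = v})
      fun d hd g hg => AddSubgroup.subset_closure ⟨d, hd, g, hg, rfl⟩).ge (AddSubgroup.mem_top x)
      using AddSubgroup.closure_induction with
    | zero => simp
    | add a b _ _ e1 e2 =>
      simp only [map_add, AddMonoidHom.add_apply]; linear_combination (norm := abel) e1 + e2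
    | neg a _ e1 =>
      simp only [map_neg, AddMonoidHom.neg_apply]; linear_combination (norm := abel) -e1
    | mem x hx =>
      obtain ⟨i, hi, a, ha, rfl⟩ := hx
      refine DFunLike.congr_fun (DFunLike.congr_fun (ext
        (f := (Br.compr₂ (Br (cls i a))) + (Br.flip.comp (Br.flip (cls i a))).flip +
          (Br.flip.comp (Br (cls i a)))) (f' := 0) fun j hj b hb => ext fun k hk c hc => ?_) y) w
      change Br _ (Br _ _) + Br _ (Br _ _) + Br _ (Br _ _) = 0
      have m1 := cmem ha (cmem hb hc)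
      have m2 := cmem hb (cmem hc ha)
      have m3 := cmem hc (cmem ha hb)
      rw [br hj hk hb hc, br hk hi hc ha, br hi hj ha hb, br hi (by omega) ha (cmem hb hc),
        br hj (by omega) hb (cmem hc ha), br hk (by omega) hc (cmem ha hb)]
      rw [show i + (j + k) = i + j + k by omega] at m1 ⊢
      rw [show j + (k + i) = i + j + k by omega] at m2 ⊢
      rw [show k + (i + j) = i + j + k by omega] at m3 ⊢
      rw [← h1 _ (by omega) _ m1 _ m2, ← h1 _ (by omega) _ (mul_mem m1 m2) _ m3]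
      exact z _ (by omega) _ (jacobi_mem hi hj hk ha hb hc)
  let : LieRing V :=
    { (inferInstance : AddCommGroup V) with
      bracket := fun x y => Br x y
      add_lie := fun x y w => by simp only [map_add, AddMonoidHom.add_apply]
      lie_add := fun x y w => map_add _ _ _
      lie_self := self
      leibniz_lie := fun x y w => by
        have := jac x y w
        rw [skew w x, skew w (Br x y), map_neg] at this
        change Br x (Br y w) = Br (Br x y) w + Br y (Br x w)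
        linear_combination (norm := abel) this }
  let : Module (ZMod l) V := AddCommGroup.zmodModule tor
  exact ⟨V, inferInstance, ⟨fun t x y => ZMod.map_smul (Br x) t y⟩, cls, h1, h2,
    fun i j hi hj g hg h hh => (br hi hj hg hh).symm, h3, h4⟩

end Pool.Agent.Lib.MP_446a91_nt.Gal
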