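import Pool.Agent.Lib.MP_446a91_nt.Gal.MgLcs

/-! Levels of endomorphisms; characters (MP_446a91_nt). -/

namespace Pool.Agent.Lib.MP_446a91_nt.Gal

open scoped commutatorElement

variable {G G' ι : Type} [Group G] [TopologicalSpace G] [IsTopologicalGroup G] [Group G']
  [TopologicalSpace G'] [IsTopologicalGroup G']

section Lev
variable {F : Type} [FunLike F G G] [MonoidHomClass F G G] {d e : ℕ}

theorem Lev.mono {α : G → G} (h : Lev α d) (he : e ≤ d) : Lev α e :=
  fun g => lcs_anti (Nat.succ_le_succ he) (h g)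

theorem mglev_closed {X : Type} [TopologicalSpace X] {a b : X → G} (ha : Continuous a)
    (hb : Continuous b) (n : ℕ) : IsClosed {x | a x * (b x)⁻¹ ∈ lcs G n} :=
  (lcs_closed n).preimage (ha.mul hb.inv)

theorem mglev_mul (α : F) {n : ℕ} {a b : G} (ha : α a * a⁻¹ ∈ lcs G n)
    (hb : α b * b⁻¹ ∈ lcs G n) : α (a * b) * (a * b)⁻¹ ∈ lcs G n := by
  have h := mul_mem ha ((lcs_normal n).conj_mem _ hb a)
  rwa [show α a * a⁻¹ * (a * (α b * b⁻¹) * a⁻¹) = α (a * b) * (a * b)⁻¹ by
    rw [map_mul]; group] at h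

theorem mglev_inv (α : F) {n : ℕ} {a : G} (ha : α a * a⁻¹ ∈ lcs G n) :
    α a⁻¹ * a⁻¹⁻¹ ∈ lcs G n := by
  have h := (lcs_normal n).conj_mem _ (inv_mem ha) a⁻¹
  rwa [show a⁻¹ * (α a * a⁻¹)⁻¹ * a⁻¹⁻¹ = α a⁻¹ * a⁻¹⁻¹ by rw [map_inv]; group] at h

theorem lev_of_gens {x : ι → G} (hx : DenseGen x) (α : F) (hα : Continuous α)
    (h : ∀ i, α (x i) * (x i)⁻¹ ∈ lcs G (d + 1)) : Lev α d :=
  hx.ind (mglev_closed hα continuous_id _) (by simp) (fun _ _ => mglev_mul α)
    (fun _ => mglev_inv α) h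

theorem Lev.mem (α : F) (hα : Continuous α) (h : Lev α d) {j : ℕ} (hj : 1 ≤ j) {g : G}
    (hg : g ∈ lcs G j) : α g * g⁻¹ ∈ lcs G (d + j) := by
  induction j, hj using Nat.le_induction generalizing g with
  | base => exact h g
  | succ j hj ih =>
    refine lcs_ind hj (P := fun g => α g * g⁻¹ ∈ lcs G (d + (j + 1)))
      (mglev_closed hα continuous_id _) (by simp) (fun _ _ _ _ => mglev_mul α)
      (fun _ _ => mglev_inv α) (fun g u hu => ?_) g hg
    have h1 := comm_mem (h g) ((lcs_normal j).conj_mem _ (map_lcs α hα hu) g)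
    have h2 := comm_mem (mem_lcs_one g) (ih hu)
    have h3 := comm_mem (ih hu) (mem_lcs_one (g * u * g⁻¹ * u⁻¹))
    rw [add_right_comm] at h1
    rw [add_comm] at h2
    have h4 := mul_mem (mul_mem h1 h2) h3
    simp only [map_mul, map_inv]
    refine (congrArg (· ∈ lcs G (d + j + 1)) ?_).mp h4
    group

theorem lev_one (d : ℕ) : Lev (1 : MulAut G) d := fun g => by simp

theorem Lev.mul {α β : MulAut G} (h : Lev α d) (h' : Lev β d) : Lev (α * β : MulAut G) d :=
  fun g => by
    have h1 := mul_mem (h (β g)) (h' g)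
    rwa [mul_assoc, inv_mul_cancel_left] at h1

theorem Lev.inv {α : MulAut G} (h : Lev α d) : Lev (α⁻¹ : MulAut G) d := fun g => by
  have h1 := inv_mem (h (α⁻¹ g))
  rwa [MulAut.apply_inv_self, mul_inv_rev, inv_inv] at h1

theorem Lev.pow {α : MulAut G} (h : Lev α d) (n : ℕ) : Lev (α ^ n : MulAut G) d := by
  induction n with
  | zero => exact lev_one d
  | succ n ih =>
    rw [pow_succ]
    exact ih.mul h

theorem Lev.comm {α β : MulAut G} (hα : Continuous α) (hβ : Continuous β) (h : Lev α d)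
    (h' : Lev β e) : Lev (α * β * α⁻¹ * β⁻¹ : MulAut G) (d + e) := fun g => by
  obtain ⟨x, rfl⟩ := (β * α).surjective g
  have h1 := Lev.mem α hα h (Nat.le_add_left 1 e) (h' x)
  have h2 := lcs_anti (by omega : d + e + 1 ≤ e + 1 + (d + 1)) (comm_mem (h' x) (h x))
  have h3 := Lev.mem β hβ h' (Nat.le_add_left 1 d) (h x)
  rw [← add_assoc, add_comm e] at h3
  have h4 := mul_mem (mul_mem h1 h2) (inv_mem h3)
  simp only [map_mul, map_inv, MulAut.mul_apply, MulAut.inv_apply_self] at h4 ⊢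
  refine (congrArg (· ∈ lcs G (d + e + 1)) ?_).mp h4
  group

/-- An action of level one has level `d` on the `d`-th term. -/
theorem lev_of_mem_lcs (ρ : G' →* MulAut G) (h1 : ∀ s, Continuous (ρ s))
    (h2 : ∀ g, Continuous fun s => ρ s g) (h3 : ∀ s, Lev (ρ s) 1) {s : G'} (hs : s ∈ lcs G' d) :
    Lev (ρ s) d := by
  rcases Nat.eq_zero_or_pos d with rfl | hd
  · exact (h3 s).mono zero_le_one
  induction d, hd using Nat.le_induction generalizing s with
  | base => exact h3 s
  | succ d hd ih =>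
    refine lcs_ind hd (P := fun s => Lev (ρ s) (d + 1)) ?_ ?_ (fun a _ b _ ha hb => ?_)
      (fun a _ ha => ?_) (fun g u hu => ?_) s hs
    · simp only [Lev, Set.ofPred_forall]
      exact isClosed_iInter fun g => mglev_closed (h2 g) continuous_const _
    · rw [map_one]
      exact lev_one _
    · rw [map_mul]
      exact ha.mul hb
    · rw [map_inv]
      exact ha.inv
    · simp only [map_mul, map_inv]
      rw [add_comm]
      exact Lev.comm (h1 g) (h1 u) (h3 g) (ih hu)

end Lev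

section Char
variable {l : ℕ} [Fact l.Prime] {κ : G → ℤ_[l]}

theorem IsChar.one (h : IsChar κ) : κ 1 = 0 := by
  have h1 := h.2 1 1
  rwa [mul_one, left_eq_add] at h1

theorem IsChar.inv (h : IsChar κ) (g : G) : κ g⁻¹ = -κ g := by
  rw [eq_neg_iff_add_eq_zero, ← h.2, inv_mul_cancel, h.one]

theorem IsChar.two (h : IsChar κ) {g : G} (hg : g ∈ lcs G 2) : κ g = 0 :=
  lcs_ind le_rfl (P := fun g => κ g = 0) (isClosed_eq h.1 continuous_const) h.one
    (fun a _ b _ ha hb => by rw [h.2, ha, hb, add_zero]) (fun a _ ha => by rw [h.inv, ha, neg_zero])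
    (fun a u _ => by simp only [h.2, h.inv]; ring) g hg

end Char

end Pool.Agent.Lib.MP_446a91_nt.Gal
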