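import Pool.Agent.Lib.MP_446a91_nt.Gal.MgLev
import Pool.Agent.Lib.MP_446a91_nt.Gal.MgCen
import Pool.Agent.Lib.MP_446a91_nt.Gal.MgTop

/-! Generic facts on systems of leading terms (MP_446a91_nt). -/

namespace Pool.Agent.Lib.MP_446a91_nt.Gal

noncomputable section

variable {l : ℕ} [Fact l.Prime] {G G' ι : Type} [Group G] [TopologicalSpace G]
  [IsTopologicalGroup G] [Group G'] [TopologicalSpace G'] [IsTopologicalGroup G']
  {A A' : Type} [Ring A] [Algebra ℤ_[l] A] [Ring A'] [Algebra ℤ_[l] A']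

section ext
variable {B : Type} [AddCommGroup B] [Module ℤ_[l] B] {E E' : G → B}

omit [TopologicalSpace G] [IsTopologicalGroup G] [Module ℤ_[l] B] in
theorem mgsys_one {C : Subgroup G} (hm : ∀ a ∈ C, ∀ b ∈ C, E (a * b) = E a + E b) : E 1 = 0 := by
  have h := hm 1 C.one_mem 1 C.one_mem
  rwa [mul_one, left_eq_add] at h

omit [TopologicalSpace G] [IsTopologicalGroup G] [Module ℤ_[l] B] in
theorem mgsys_inv {C : Subgroup G} (hm : ∀ a ∈ C, ∀ b ∈ C, E (a * b) = E a + E b) {a : G}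
    (ha : a ∈ C) : E a⁻¹ = -E a := by
  rw [eq_neg_iff_add_eq_zero, ← hm _ (C.inv_mem ha) _ ha, inv_mul_cancel, mgsys_one hm]

/-- Two continuous additive maps that agree on topological generators agree. -/
theorem eq_on_top (hB : SepF l B) (h : WCont l E) (h' : WCont l E')
    (hm : ∀ a b, E (a * b) = E a + E b) (hm' : ∀ a b, E' (a * b) = E' a + E' b) {x : ι → G}
    (hx : DenseGen x) (he : ∀ i, E (x i) = E' (x i)) (g : G) : E g = E' g := by
  have k : ∀ a ∈ (⊤ : Subgroup G), ∀ b ∈ (⊤ : Subgroup G), E (a * b) = E a + E b :=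
    fun a _ b _ => hm a b
  have k' : ∀ a ∈ (⊤ : Subgroup G), ∀ b ∈ (⊤ : Subgroup G), E' (a * b) = E' a + E' b :=
    fun a _ b _ => hm' a b
  refine hx.ind (P := fun g => E g = E' g) (hB.isClosed_eq h h') ?_ (fun a b ha hb => ?_)
    (fun a ha => ?_) he g
  · rw [mgsys_one k, mgsys_one k']
  · rw [hm, hm', ha, hb]
  · rw [mgsys_inv k trivial, mgsys_inv k' trivial, ha]

/-- Two continuous maps, additive on `G(d + 1)`, that agree on commutators agree. -/
theorem eq_on_lcs (hB : SepF l B) (h : WCont l E) (h' : WCont l E') {d : ℕ} (hd : 1 ≤ d)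
    (hm : ∀ a ∈ lcs G (d + 1), ∀ b ∈ lcs G (d + 1), E (a * b) = E a + E b)
    (hm' : ∀ a ∈ lcs G (d + 1), ∀ b ∈ lcs G (d + 1), E' (a * b) = E' a + E' b)
    (he : ∀ g, ∀ u ∈ lcs G d, E (g * u * g⁻¹ * u⁻¹) = E' (g * u * g⁻¹ * u⁻¹)) :
    ∀ g ∈ lcs G (d + 1), E g = E' g := by
  refine lcs_ind hd (P := fun g => E g = E' g) (hB.isClosed_eq h h') ?_
    (fun a ha b hb ea eb => ?_) (fun a ha ea => ?_) he
  · rw [mgsys_one hm, mgsys_one hm']
  · rw [hm a ha b hb, hm' a ha b hb, ea, eb]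
  · rw [mgsys_inv hm ha, mgsys_inv hm' ha, ea]

end ext

namespace LTSys

variable (S : LTSys l G A) {d e i j : ℕ} {g g' h u : G}

theorem L_one (hd : 1 ≤ d) : S.L d 1 = 0 := by
  exact S.zero hd (one_mem _)

theorem L_inv (hd : 1 ≤ d) (hg : g ∈ lcs G d) : S.L d g⁻¹ = -S.L d g := by
  exact mgsys_inv (C := lcs G d) (fun _ ha _ hb => S.mul hd ha hb) hg

theorem L_div (hd : 1 ≤ d) (hg : g ∈ lcs G d) (hh : h ∈ lcs G d) :
    S.L d (g * h⁻¹) = S.L d g - S.L d h := by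
  rw [S.mul hd hg (inv_mem hh), S.L_inv hd hh, sub_eq_add_neg]

theorem L_pow (hd : 1 ≤ d) (hg : g ∈ lcs G d) (n : ℕ) : S.L d (g ^ n) = n • S.L d g := by
  induction n with
  | zero => rw [pow_zero, zero_smul, S.L_one hd]
  | succ n ih => rw [pow_succ, S.mul hd (pow_mem hg n) hg, ih, succ_nsmul]

theorem L_of_lt (hd : 1 ≤ d) (he : d < e) (hg : g ∈ lcs G e) : S.L d g = 0 := by
  exact S.zero hd (lcs_anti he hg)

theorem L_congr (hd : 1 ≤ d) (hg : g ∈ lcs G d) (h' : g' * g⁻¹ ∈ lcs G (d + 1)) :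
    S.L d g' = S.L d g := by
  have h := S.mul hd (lcs_anti d.le_succ h') hg
  rwa [inv_mul_cancel_right, S.zero hd h', zero_add] at h

theorem L_conj (hd : 1 ≤ d) (hu : u ∈ lcs G d) (g : G) : S.L d (g * u * g⁻¹) = S.L d u := by
  refine S.L_congr hd hu ?_
  rw [add_comm]
  exact comm_mem (mem_lcs_one g) hu

/-- Conjugation by an element of `G(d)`. -/
theorem L_conj_div (hd : 1 ≤ d) (hj : 1 ≤ j) (hu : u ∈ lcs G d) (hg : g ∈ lcs G j) :
    S.L (d + j) (u⁻¹ * g * u * g⁻¹) = cm (S.L j g) (S.L d u) := by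
  have h := S.comm hd hj (inv_mem hu) hg
  rw [inv_inv, S.L_inv hd hu] at h
  rw [h]
  simp only [cm]
  noncomm_ring

theorem cm_eq_zero (hi : 1 ≤ i) (hj : 1 ≤ j) (hg : g ∈ lcs G i) (hh : h ∈ lcs G j)
    (hc : Commute g h) : cm (S.L i g) (S.L j h) = 0 := by
  rw [← S.comm hi hj hg hh, hc.eq, mul_inv_cancel_right, mul_inv_cancel, S.L_one (by omega)]

/-- Pull back along a continuous homomorphism. -/
def comap {F : Type} [FunLike F G' G] [MonoidHomClass F G' G] (p : F) (hp : Continuous p) :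
    LTSys l G' A where
  L d g := S.L d (p g)
  sep := S.sep
  cont d := (S.cont d).comp hp
  mul hd hg hh := by rw [map_mul, S.mul hd (map_lcs p hp hg) (map_lcs p hp hh)]
  zero hd hg := S.zero hd (map_lcs p hp hg)
  comm hi hj hg hh := by
    simp only [map_mul, map_inv]
    exact S.comm hi hj (map_lcs p hp hg) (map_lcs p hp hh)

/-- The product of two systems. -/
def prod (S' : LTSys l G A') : LTSys l G (A × A') where
  L d g := (S.L d g, S'.L d g)
  sep := S.sep.prod S'.sep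
  cont d := (S.cont d).prod (S'.cont d)
  mul hd hg hh := Prod.ext (S.mul hd hg hh) (S'.mul hd hg hh)
  zero hd hg := Prod.ext (S.zero hd hg) (S'.zero hd hg)
  comm hi hj hg hh := Prod.ext (S.comm hi hj hg hh) (S'.comm hi hj hg hh)

/-- Push forward along an algebra map. -/
def map (θ : A →ₐ[ℤ_[l]] A') (hA : SepF l A') : LTSys l G A' where
  L d g := θ (S.L d g)
  sep := hA
  cont d := (S.cont d).map θ.toLinearMap
  mul hd hg hh := by rw [S.mul hd hg hh, map_add]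
  zero hd hg := by rw [S.zero hd hg, map_zero]
  comm hi hj hg hh := by rw [S.comm hi hj hg hh, map_cm]

/-- (Mor). -/
theorem mor (S' : LTSys l G A') (θ : A →ₐ[ℤ_[l]] A') (h1 : ∀ g, θ (S.L 1 g) = S'.L 1 g)
    (hd : 1 ≤ d) (hg : g ∈ lcs G d) : θ (S.L d g) = S'.L d g := by
  induction d, hd using Nat.le_induction generalizing g with
  | base => exact h1 g
  | succ d hd ih =>
    have hd' : 1 ≤ d + 1 := by omega
    refine eq_on_lcs (E := fun g => θ (S.L (d + 1) g)) S'.sep ((S.cont _).map θ.toLinearMap)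
      (S'.cont _) hd (fun a ha b hb => by rw [S.mul hd' ha hb, map_add])
      (fun a ha b hb => S'.mul hd' ha hb) (fun a u hu => ?_) g hg
    rw [add_comm d 1, S.comm le_rfl hd (mem_lcs_one a) hu, S'.comm le_rfl hd (mem_lcs_one a) hu,
      map_cm, h1, ih hu]

section Lev
variable {F : Type} [FunLike F G G] [MonoidHomClass F G G] (α : F)

/-- (Sc). -/
theorem scale (hα : Continuous α) {b : ℤ_[l]} (h1 : ∀ g, S.L 1 (α g) = b • S.L 1 g) (hd : 1 ≤ d)
    (hg : g ∈ lcs G d) : S.L d (α g) = b ^ d • S.L d g := by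
  induction d, hd using Nat.le_induction generalizing g with
  | base => rw [pow_one, h1]
  | succ d hd ih =>
    have hd' : 1 ≤ d + 1 := by omega
    refine eq_on_lcs (E := fun g => S.L (d + 1) (α g)) (E' := fun g => b ^ (d + 1) • S.L (d + 1) g)
      S.sep ((S.cont _).comp hα) ((S.cont _).map (b ^ (d + 1) • LinearMap.id)) hd
      (fun a ha c hc => by rw [map_mul, S.mul hd' (map_lcs α hα ha) (map_lcs α hα hc)])
      (fun a ha c hc => by rw [S.mul hd' ha hc, smul_add]) (fun a u hu => ?_) g hg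
    simp only [map_mul, map_inv]
    rw [add_comm d 1, S.comm le_rfl hd (mem_lcs_one a) hu,
      S.comm le_rfl hd (mem_lcs_one _) (map_lcs α hα hu), h1, ih hu]
    simp only [cm, smul_mul_smul_comm, smul_sub, pow_add, pow_one, mul_comm (b ^ d) b]

theorem L_lev_one (hα : Continuous α) (h1 : Lev α 1) (hd : 1 ≤ d) (hg : g ∈ lcs G d) :
    S.L d (α g) = S.L d g := by
  refine S.L_congr hd hg ?_
  rw [add_comm]
  exact Lev.mem α hα h1 hd hg

theorem lev_add (hα : Continuous α) (h1 : Lev α d) (hj : 1 ≤ j) (hg : g ∈ lcs G j)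
    (hh : h ∈ lcs G j) : S.L (d + j) (α (g * h) * (g * h)⁻¹) =
      S.L (d + j) (α g * g⁻¹) + S.L (d + j) (α h * h⁻¹) := by
  have hu := Lev.mem α hα h1 hj hg
  have hv := Lev.mem α hα h1 hj hh
  have hd : 1 ≤ d + j := by omega
  rw [← S.L_conj hd hv g, ← S.mul hd hu ((lcs_normal _).conj_mem _ hv g), map_mul]
  congr 1
  group

/-- Leibniz rule. -/
theorem lev_comm (hα : Continuous α) (hd : 1 ≤ d) (h1 : Lev α d) (hi : 1 ≤ i) (hj : 1 ≤ j)
    (hg : g ∈ lcs G i) (hh : h ∈ lcs G j) :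
    S.L (d + (i + j)) (α (g * h * g⁻¹ * h⁻¹) * (g * h * g⁻¹ * h⁻¹)⁻¹) =
      cm (S.L (d + i) (α g * g⁻¹)) (S.L j h) + cm (S.L i g) (S.L (d + j) (α h * h⁻¹)) := by
  have hu := Lev.mem α hα h1 hi hg
  have hv := Lev.mem α hα h1 hj hh
  have hN : 1 ≤ d + (i + j) := by omega
  have hc := comm_mem hg hh
  have e1 := S.comm hi (by omega : 1 ≤ d + j) hg hv
  have m1 := comm_mem hg hv
  have e3 := S.comm (by omega : 1 ≤ d + i) hj hu (map_lcs α hα hh)
  have m3 := comm_mem hu (map_lcs α hα hh)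
  have m2 := comm_mem (mul_mem (h1 g) (h1 h)) hc
  rw [S.L_lev_one α hα (h1.mono hd) hj hh] at e3
  rw [show i + (d + j) = d + (i + j) by omega] at e1 m1
  rw [add_assoc] at e3 m3
  rw [add_right_comm] at m2
  have n1 := (lcs_normal _).conj_mem _ m1 (α g * g⁻¹)
  have n2 := lcs_anti (d + (i + j)).le_succ m2
  have n3 := (lcs_normal _).conj_mem _ m3 (g * h * g⁻¹ * h⁻¹)
  rw [← e1, ← e3, ← S.L_conj hN m1 (α g * g⁻¹), ← S.L_conj hN m3 (g * h * g⁻¹ * h⁻¹), add_comm (S.L _ _),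
    ← add_zero (S.L _ (α g * g⁻¹ * _ * _)), ← S.zero hN m2, ← S.mul hN n1 n2,
    ← S.mul hN (mul_mem n1 n2) n3]
  simp only [map_mul, map_inv]
  congr 1
  group

end Lev

theorem Faith.mem_two {S : LTSys l G A} (hS : S.Faith) (h0 : S.L 1 g = 0) : g ∈ lcs G 2 :=
  hS.ker le_rfl (mem_lcs_one g) h0

theorem Faith.lev_one {S : LTSys l G A} (hS : S.Faith) {α : G → G}
    (h1 : ∀ g, S.L 1 (α g) = S.L 1 g) : Lev α 1 := by
  intro g
  refine hS.mem_two ?_
  rw [S.L_div le_rfl (mem_lcs_one _) (mem_lcs_one _), h1, sub_self]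

theorem Faith.eq_of_lev {S : LTSys l G A} (hS : S.Faith) {α : G → G} (h1 : ∀ d, Lev α d)
    (g : G) : α g = g := by
  exact mul_inv_eq_one.1 (hS.inter _ fun d => lcs_anti d.le_succ (h1 d g))

end LTSys

end

end Pool.Agent.Lib.MP_446a91_nt.Gal
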