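import Pool.Agent.Lib.MP_446a91_nt.Gal.MgGr
import Pool.Agent.Lib.MP_446a91_nt.Gal.MgSys
import Pool.Agent.Lib.MP_446a91_nt.DD.S1

/-! The Magnus-Witt theorem modulo `l` (MP_446a91_nt). -/

namespace Pool.Agent.Lib.MP_446a91_nt.Gal

attribute [local instance 100] LieRing.ofAssociativeRing

variable {l : ℕ} [Fact l.Prime] {G ι : Type} [Group G] [TopologicalSpace G]
  [IsTopologicalGroup G] [CompactSpace G] [T2Space G]

omit [Fact l.Prime] in
theorem mgpow_N_closed (d : ℕ) :
    IsClosed {g : G | ∃ u ∈ lcs G d, ∃ v ∈ lcs G (d + 1), g = u ^ l * v} := by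
  have h1 : IsCompact ((lcs G d : Set G) ×ˢ (lcs G (d + 1) : Set G)) :=
    (lcs_closed d).isCompact.prod (lcs_closed (d + 1)).isCompact
  have h2 : Continuous fun p : G × G => p.1 ^ l * p.2 := by fun_prop
  have h3 := (h1.image h2).isClosed
  have e : {g : G | ∃ u ∈ lcs G d, ∃ v ∈ lcs G (d + 1), g = u ^ l * v} =
      (fun p : G × G => p.1 ^ l * p.2) '' ((lcs G d : Set G) ×ˢ (lcs G (d + 1) : Set G)) := by
    ext g
    constructor
    · rintro ⟨u, hu, v, hv, rfl⟩
      exact ⟨(u, v), ⟨hu, hv⟩, rfl⟩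
    · rintro ⟨p, ⟨hu, hv⟩, rfl⟩
      exact ⟨p.1, hu, p.2, hv, rfl⟩
  rw [e]
  exact h3

omit [CompactSpace G] [T2Space G] in
theorem mgpow_one {V : Type} [AddCommGroup V] {c : G → V} {d : ℕ}
    (hm : ∀ g ∈ lcs G d, ∀ h ∈ lcs G d, c (g * h) = c g + c h) : c 1 = 0 := by
  have := hm 1 (one_mem _) 1 (one_mem _)
  rw [one_mul] at this
  exact left_eq_add.1 this

omit [CompactSpace G] [T2Space G] in
theorem mgpow_inv {V : Type} [AddCommGroup V] {c : G → V} {d : ℕ}
    (hm : ∀ g ∈ lcs G d, ∀ h ∈ lcs G d, c (g * h) = c g + c h) {g : G} (hg : g ∈ lcs G d) :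
    c g⁻¹ = -c g := by
  have := hm g⁻¹ (inv_mem hg) g hg
  rw [inv_mul_cancel, mgpow_one hm] at this
  exact eq_neg_of_add_eq_zero_left this.symm

omit [Fact l.Prime] in
theorem mgpow_closed {V : Type} [AddCommGroup V] {c : G → V} {d : ℕ}
    (hm : ∀ g ∈ lcs G d, ∀ h ∈ lcs G d, c (g * h) = c g + c h)
    (h0 : ∀ g ∈ lcs G d, c g = 0 ↔ ∃ u ∈ lcs G d, ∃ v ∈ lcs G (d + 1), g = u ^ l * v)
    {Y : Set V} (hY : Y.Finite) : IsClosed {g | g ∈ lcs G d ∧ c g ∈ Y} := by
  have e : {g | g ∈ lcs G d ∧ c g ∈ Y} = ⋃ y ∈ Y, {g | g ∈ lcs G d ∧ c g = y} := by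
    ext g
    simp only [Set.mem_ofPred_eq, Set.mem_iUnion]
    constructor
    · rintro ⟨h1, h2⟩
      exact ⟨c g, h2, h1, rfl⟩
    · rintro ⟨y, hy, h1, rfl⟩
      exact ⟨h1, hy⟩
  rw [e]
  refine hY.isClosed_biUnion fun y _ => ?_
  by_cases hne : ∃ g0, g0 ∈ lcs G d ∧ c g0 = y
  · obtain ⟨g0, hg0, rfl⟩ := hne
    have e2 : {g | g ∈ lcs G d ∧ c g = c g0} = (fun g => g0⁻¹ * g) ⁻¹'
        {g : G | ∃ u ∈ lcs G d, ∃ v ∈ lcs G (d + 1), g = u ^ l * v} := by
      ext g
      simp only [Set.mem_ofPred_eq, Set.mem_preimage]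
      constructor
      · rintro ⟨h1, h2⟩
        refine (h0 _ (mul_mem (inv_mem hg0) h1)).1 ?_
        rw [hm _ (inv_mem hg0) _ h1, mgpow_inv hm hg0, h2, neg_add_cancel]
      · intro h
        have h1 : g0⁻¹ * g ∈ lcs G d := by
          obtain ⟨u, hu, v, hv, e3⟩ := h
          rw [e3]
          exact mul_mem (pow_mem hu l) (lcs_anti (Nat.le_succ d) hv)
        have h2 := (h0 _ h1).2 h
        have h3 : g = g0 * (g0⁻¹ * g) := by group
        refine ⟨h3 ▸ mul_mem hg0 h1, ?_⟩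
        rw [h3, hm _ hg0 _ h1, h2, add_zero]
    rw [e2]
    exact (mgpow_N_closed d).preimage (by fun_prop)
  · have e2 : {g | g ∈ lcs G d ∧ c g = y} = ∅ :=
      Set.eq_empty_of_forall_notMem fun g hg => hne ⟨g, hg⟩
    rw [e2]
    exact isClosed_empty

theorem mgpow_span_finite {V : Type} [AddCommGroup V] [Module (ZMod l) V] {s : Set V}
    (hs : s.Finite) : (Submodule.span (ZMod l) s : Set V).Finite := by
  have := Module.Finite.span_of_finite (ZMod l) hs
  have : Finite (Submodule.span (ZMod l) s) := Module.finite_of_finite (ZMod l)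
  exact Set.toFinite _

/-- An element of `G(d)` with leading term zero is an `l`-th power modulo `G(d + 1)`. -/
theorem pow_of_L_eq_zero [Finite ι] {x : ι → G} (hx : DenseGen x) (S : LTSys l G (W ℤ_[l] ι))
    (hS : ∀ i, S.L 1 (x i) = lt i) {d : ℕ} (hd : 1 ≤ d) {g : G} (hg : g ∈ lcs G d)
    (h0 : S.L d g = 0) : ∃ u ∈ lcs G d, ∃ v ∈ lcs G (d + 1), g = u ^ l * v := by
  obtain ⟨V, _, _, cls, hm, hz, hc, hgen, hΘ⟩ := exists_gr l G
  let E : FreeLieAlgebra (ZMod l) ι →ₗ⁅ZMod l⁆ V := FreeLieAlgebra.lift (ZMod l) fun i => cls 1 (x i)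
  have key : ∀ d, 1 ≤ d → ∃ Y : Submodule (ZMod l) V, (Y : Set V).Finite ∧
      (∀ y ∈ Y, y ∈ E.range) ∧ ∀ g ∈ lcs G d, cls d g ∈ Y := by
    have base : ∃ Y : Submodule (ZMod l) V, (Y : Set V).Finite ∧
        (∀ y ∈ Y, y ∈ E.range) ∧ ∀ g ∈ lcs G 1, cls 1 g ∈ Y := by
      refine ⟨Submodule.span (ZMod l) (Set.range fun i => cls 1 (x i)),
        mgpow_span_finite (Set.finite_range _), ?_, fun g _ => ?_⟩
      · have : Submodule.span (ZMod l) (Set.range fun i => cls 1 (x i)) ≤ E.range.toSubmodule := by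
          refine Submodule.span_le.2 ?_
          rintro _ ⟨i, rfl⟩
          exact ⟨FreeLieAlgebra.of (ZMod l) i, FreeLieAlgebra.lift_of_apply _ i⟩
        exact fun y hy => this hy
      · refine (hx.ind (P := fun g => g ∈ lcs G 1 ∧
          cls 1 g ∈ (Submodule.span (ZMod l) (Set.range fun i => cls 1 (x i)) : Set V))
          (mgpow_closed (hm 1 le_rfl) (hz 1 le_rfl) (mgpow_span_finite (Set.finite_range _)))
          ⟨mem_lcs_one _, ?_⟩ (fun a b ha hb => ⟨mem_lcs_one _, ?_⟩)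
          (fun a ha => ⟨mem_lcs_one _, ?_⟩) (fun i => ⟨mem_lcs_one _, ?_⟩) g).2
        · rw [mgpow_one (hm 1 le_rfl)]
          exact zero_mem _
        · rw [hm 1 le_rfl a ha.1 b hb.1]
          exact add_mem ha.2 hb.2
        · rw [mgpow_inv (hm 1 le_rfl) ha.1]
          exact neg_mem ha.2
        · exact Submodule.subset_span ⟨i, rfl⟩
    intro d hd
    induction d, hd using Nat.le_induction with
    | base => exact base
    | succ d hd ih =>
      obtain ⟨Y1, f1, r1, m1⟩ := base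
      obtain ⟨Y, f2, r2, m2⟩ := ih
      have hd' : 1 ≤ d + 1 := Nat.le_succ_of_le hd
      have fin : (Set.image2 (fun a b : V => ⁅a, b⁆) Y1 Y).Finite := f1.image2 _ f2
      refine ⟨Submodule.span (ZMod l) (Set.image2 (fun a b : V => ⁅a, b⁆) Y1 Y),
        mgpow_span_finite fin, ?_, fun g hg => ?_⟩
      · have : Submodule.span (ZMod l) (Set.image2 (fun a b : V => ⁅a, b⁆) Y1 Y) ≤
            E.range.toSubmodule := by
          refine Submodule.span_le.2 ?_
          rintro _ ⟨a, ha, b, hb, rfl⟩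
          exact E.range.lie_mem (r1 a ha) (r2 b hb)
        exact fun y hy => this hy
      · refine (lcs_ind hd (P := fun g => g ∈ lcs G (d + 1) ∧ cls (d + 1) g ∈
          (Submodule.span (ZMod l) (Set.image2 (fun a b : V => ⁅a, b⁆) Y1 Y) : Set V))
          (mgpow_closed (hm _ hd') (hz _ hd') (mgpow_span_finite fin))
          ⟨one_mem _, ?_⟩ (fun a ha b hb h1 h2 => ⟨mul_mem ha hb, ?_⟩)
          (fun a ha h1 => ⟨inv_mem ha, ?_⟩) (fun a u hu => ⟨?_, ?_⟩) g hg).2
        · rw [mgpow_one (hm _ hd')]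
          exact zero_mem _
        · rw [hm _ hd' a ha b hb]
          exact add_mem h1.2 h2.2
        · rw [mgpow_inv (hm _ hd') ha]
          exact neg_mem h1.2
        · rw [Nat.add_comm d 1]
          exact comm_mem (mem_lcs_one a) hu
        · rw [Nat.add_comm d 1, hc 1 d le_rfl hd a (mem_lcs_one a) u hu]
          exact Submodule.subset_span ⟨_, m1 a (mem_lcs_one a), _, m2 u hu, rfl⟩
  let red : W ℤ_[l] ι →+* W (ZMod l) ι :=
    MonoidAlgebra.mapRingHom (FreeMonoid ι) (PadicInt.toZMod (p := l))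
  have hred : ∀ i, red (lt i) = lt i := fun i => by
    simp only [red, lt, wrd, MonoidAlgebra.mapRingHom_single, map_one]
  obtain ⟨Θ, hΘ⟩ := hΘ (W (ZMod l) ι) (fun d g => red (S.L d g))
    (fun b => by rw [← Nat.cast_smul_eq_nsmul (ZMod l), ZMod.natCast_self, zero_smul])
    (fun d hd g hg h hh => by rw [S.mul hd hg hh, map_add])
    (fun d hd g hg => by rw [S.zero hd hg, map_zero])
  have hlie : ∀ a b : V, Θ ⁅a, b⁆ = cm (Θ a) (Θ b) := by
    have h1 : ∀ j, 1 ≤ j → ∀ h ∈ lcs G j, ∀ a : V,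
        Θ ⁅a, cls j h⁆ = cm (Θ a) (Θ (cls j h)) := by
      intro j hj h hh a
      let P : AddSubgroup V :=
        { carrier := {a | Θ ⁅a, cls j h⁆ = cm (Θ a) (Θ (cls j h))}
          zero_mem' := by simp [cm]
          add_mem' := fun {a b} ha hb => by
            simp only [Set.mem_ofPred_eq] at ha hb ⊢
            rw [add_lie, map_add, map_add, ha, hb]
            simp only [cm]
            noncomm_ring
          neg_mem' := fun {a} ha => by
            simp only [Set.mem_ofPred_eq] at ha ⊢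
            rw [neg_lie, map_neg, map_neg, ha]
            simp only [cm]
            noncomm_ring }
      have hP : P = ⊤ := hgen P fun i hi g hg => by
        change Θ ⁅cls i g, cls j h⁆ = cm (Θ (cls i g)) (Θ (cls j h))
        rw [← hc i j hi hj g hg h hh, hΘ _ (by omega) _ (comm_mem hg hh), hΘ i hi g hg,
          hΘ j hj h hh, S.comm hi hj hg hh, map_cm]
      have : a ∈ P := hP ▸ AddSubgroup.mem_top a
      exact this
    intro a b
    let P : AddSubgroup V :=
      { carrier := {b | Θ ⁅a, b⁆ = cm (Θ a) (Θ b)}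
        zero_mem' := by simp [cm]
        add_mem' := fun {b c} hb hc => by
          simp only [Set.mem_ofPred_eq] at hb hc ⊢
          rw [lie_add, map_add, map_add, hb, hc]
          simp only [cm]
          noncomm_ring
        neg_mem' := fun {b} hb => by
          simp only [Set.mem_ofPred_eq] at hb ⊢
          rw [lie_neg, map_neg, map_neg, hb]
          simp only [cm]
          noncomm_ring }
    have hP : P = ⊤ := hgen P fun j hj h hh => h1 j hj h hh a
    have : b ∈ P := hP ▸ AddSubgroup.mem_top b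
    exact this
  let T : V →ₗ⁅ZMod l⁆ W (ZMod l) ι :=
    { toFun := Θ
      map_add' := map_add Θ
      map_smul' := fun c v => ZMod.map_smul Θ c v
      map_lie' := fun {a b} => hlie a b }
  have hTE : T.comp E = FreeLieAlgebra.lift (ZMod l) (lt : ι → W (ZMod l) ι) :=
    FreeLieAlgebra.hom_ext fun i => by
      rw [LieHom.comp_apply, FreeLieAlgebra.lift_of_apply, FreeLieAlgebra.lift_of_apply]
      change Θ (cls 1 (x i)) = lt i
      rw [hΘ 1 le_rfl _ (mem_lcs_one _), hS, hred]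
  obtain ⟨Y, -, r, m⟩ := key d hd
  obtain ⟨w, hw⟩ := r _ (m g hg)
  have hw' : E w = cls d g := hw
  have h1 : FreeLieAlgebra.lift (ZMod l) (lt : ι → W (ZMod l) ι) w = 0 := by
    rw [← hTE, LieHom.comp_apply, hw']
    change Θ (cls d g) = 0
    rw [hΘ d hd g hg, h0, map_zero]
  rw [Desc.free_inj h1, map_zero] at hw'
  exact (hz d hd g hg).1 hw'.symm

end Pool.Agent.Lib.MP_446a91_nt.Gal
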