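import Pool.Agent.Lib.MP_446a91_nt.Gal.IDefs

/-! The Soule characters at finite level (MP_446a91_nt). -/

namespace Pool.Agent.Lib.MP_446a91_nt.Gal

variable {l : ℕ} [Fact l.Prime] {z : ℕ → Qb}

instance neZero_pow (n : ℕ) : NeZero (l ^ n) := ⟨pow_ne_zero n (Fact.out : l.Prime).ne_zero⟩

theorem mgsou_pow (hz : IsRoots l z) (n i j : ℕ) :
    z n ^ i = z n ^ j ↔ (i : ZMod (l ^ n)) = j := by
  rw [((hz.prim n).isOfFinOrder (NeZero.ne _)).pow_eq_pow_iff_modEq, ← (hz.prim n).eq_orderOf,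
    ZMod.natCast_eq_natCast_iff]

theorem mgsou_root (hz : IsRoots l z) (n : ℕ) {a : ZMod (l ^ n)} (ha : a ≠ 0) :
    ∃ r : Qb, r ≠ 0 ∧ r ^ l ^ n = 1 - z n ^ a.val := by
  obtain ⟨r, hr⟩ := IsAlgClosed.exists_pow_nat_eq (1 - z n ^ a.val) (NeZero.pos (l ^ n))
  refine ⟨r, fun h0 => ha ?_, hr⟩
  rw [h0, zero_pow (NeZero.ne _), eq_comm, sub_eq_zero, ← pow_zero (z n), mgsou_pow hz,
    ZMod.natCast_zmod_val, Nat.cast_zero] at hr
  exact hr.symm

theorem HH_normal (hz : IsRoots l z) : (HH z).Normal := by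
  refine ⟨fun σ hσ γ n => ?_⟩
  obtain ⟨i, -, hi⟩ := (hz.prim n).eq_pow_of_pow_eq_one (ξ := γ⁻¹ (z n))
    (by rw [← map_pow, (hz.prim n).pow_eq_one, map_one])
  rw [AlgEquiv.mul_apply, AlgEquiv.mul_apply, ← hi, map_pow, hσ n, hi]
  exact γ.apply_symm_apply _

theorem HH_closed (z : ℕ → Qb) : IsClosed (HH z : Set GQ) := by
  have h : (HH z : Set GQ) = ⋂ n, (MulAction.stabilizer GQ (z n) : Set GQ) :=
    Set.ext fun σ => by rw [Set.mem_iInter]; rfl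
  have : Algebra.IsIntegral ℚ Qb := (AlgebraicClosure.isAlgebraic ℚ).isIntegral
  rw [h]
  exact isClosed_iInter fun n =>
    Subgroup.isClosed_of_isOpen _ (stabilizer_isOpen_of_isIntegral (z n))

/-- `k n σ a` is the Kummer character of `1 - z n ^ a`. -/
def IsKumS (l : ℕ) (z : ℕ → Qb) (k : (n : ℕ) → GQ → ZMod (l ^ n) → ZMod (l ^ n)) : Prop :=
  ∀ n, ∀ σ ∈ HH z, ∀ a : ZMod (l ^ n), a ≠ 0 → ∀ r : Qb, r ^ l ^ n = 1 - z n ^ a.val →
    σ r = z n ^ (k n σ a).val * r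

variable {k : (n : ℕ) → GQ → ZMod (l ^ n) → ZMod (l ^ n)}

/-- The Soule character of weight `j + 1` modulo `l ^ n`. -/
def souC (k : (n : ℕ) → GQ → ZMod (l ^ n) → ZMod (l ^ n)) (j : ℕ) (σ : GQ) (n : ℕ) :
    ZMod (l ^ n) :=
  ∑ a, a ^ j * k n σ a

theorem souC_mul (hz : IsRoots l z) (hk : IsKumS l z k) {j : ℕ} (hj : 1 ≤ j) {σ τ : GQ}
    (hσ : σ ∈ HH z) (hτ : τ ∈ HH z) : souC k j (σ * τ) = souC k j σ + souC k j τ := by
  funext n
  simp only [souC, Pi.add_apply, ← Finset.sum_add_distrib, ← mul_add]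
  refine Finset.sum_congr rfl fun a _ => ?_
  by_cases ha : a = 0
  · rw [ha, zero_pow (by omega), zero_mul, zero_mul]
  obtain ⟨r, h0, hr⟩ := mgsou_root hz n ha
  have h1 := hk n _ (mul_mem hσ hτ) a ha r hr
  rw [AlgEquiv.mul_apply, hk n τ hτ a ha r hr, map_mul, map_pow, hσ n, hk n σ hσ a ha r hr,
    ← mul_assoc, ← pow_add, mul_left_inj' h0, mgsou_pow hz, Nat.cast_add, ZMod.natCast_zmod_val,
    ZMod.natCast_zmod_val, ZMod.natCast_zmod_val] at h1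
  rw [← h1, add_comm]

theorem souC_wt (hz : IsRoots l z) (hk : IsKumS l z k) {j : ℕ} (hj : 1 ≤ j) {γ σ : GQ} {b : ℕ}
    (hγ : ∀ n, γ (z n) = z n ^ b) (hσ : σ ∈ HH z) :
    souC k j (γ * σ * γ⁻¹) = b ^ (j + 1) • souC k j σ := by
  funext n
  have hb : IsUnit (b : ZMod (l ^ n)) := by
    have h1 := (hz.prim n).map_of_injective γ.injective
    rw [hγ n, (hz.prim n).pow_iff_coprime (NeZero.pos _)] at h1
    exact (ZMod.isUnit_iff_coprime _ _).2 h1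
  rw [Pi.smul_apply, souC, souC, ← Equiv.sum_comp hb.unit.mulLeft, Finset.smul_sum]
  refine Finset.sum_congr rfl fun a _ => ?_
  rw [Units.mulLeft_apply, hb.unit_spec, nsmul_eq_mul, Nat.cast_pow, mul_pow]
  by_cases ha : a = 0
  · rw [ha, zero_pow (by omega), mul_zero, zero_mul, zero_mul, mul_zero]
  obtain ⟨r, h0, hr⟩ := mgsou_root hz n ha
  have h1 := hk n _ ((HH_normal hz).conj_mem σ hσ γ) (b * a) (hb.mul_right_eq_zero.not.2 ha) (γ r)
    (by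
      rw [← map_pow, hr, map_sub, map_one, map_pow, hγ n, ← pow_mul, sub_right_inj, mgsou_pow hz,
        Nat.cast_mul, ZMod.natCast_zmod_val, ZMod.natCast_zmod_val])
  have h2 : γ⁻¹ (γ r) = r := γ.symm_apply_apply r
  rw [AlgEquiv.mul_apply, AlgEquiv.mul_apply, h2, hk n σ hσ a ha r hr, map_mul, map_pow, hγ n,
    ← pow_mul, mul_left_inj' ((map_ne_zero γ).2 h0), mgsou_pow hz, Nat.cast_mul,
    ZMod.natCast_zmod_val, ZMod.natCast_zmod_val] at h1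
  rw [← h1]
  ring

end Pool.Agent.Lib.MP_446a91_nt.Gal
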