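import Pool.Agent.Lib.MP_446a91_nt.Gal.MgCen

/-! Truncated Magnus coefficients (MP_446a91_nt). -/

namespace Pool.Agent.Lib.MP_446a91_nt.Gal

theorem mgtrunc_ideal {S : Type} [CommRing S] (I : Ideal S) {l : ℕ} (hl : (l : S) ∈ I) {a : S}
    (ha : a - 1 ∈ I) (k : ℕ) : a ^ l ^ k - 1 ∈ I ^ (k + 1) := by
  induction k with
  | zero => simpa using ha
  | succ k ih =>
    have h1 : a ^ l ^ k - 1 ∈ I := Ideal.pow_le_self k.succ_ne_zero ih
    have h2 : ∑ i ∈ Finset.range l, (a ^ l ^ k) ^ i ∈ I := by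
      have h3 : ∑ i ∈ Finset.range l, ((a ^ l ^ k) ^ i - 1) ∈ I :=
        I.sum_mem fun i _ => I.mem_of_dvd (sub_one_dvd_pow_sub_one _ i) h1
      simpa using I.add_mem h3 hl
    rw [pow_succ l, pow_mul, ← mul_geom_sum, pow_succ I]
    exact Ideal.mul_mem_mul ih h2

theorem mgtrunc_pow {B : Type} [Ring B] {l n M : ℕ} (hl : ((l ^ n : ℕ) : B) = 0) {j : B}
    (hj : j ^ M = 0) : (1 + j) ^ l ^ (n + M) = 1 := by
  have h1 := mgtrunc_ideal (S := Polynomial ℤ) (Ideal.span {(l : Polynomial ℤ)} ⊔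
    Ideal.span {Polynomial.X}) (Ideal.mem_sup_left (Ideal.mem_span_singleton_self _))
    (a := 1 + Polynomial.X) (Ideal.mem_sup_right (by simp)) (n + M)
  have h2 := Ideal.sup_pow_add_le_pow_sup_pow (Ideal.pow_le_pow_right (Nat.le_succ _) h1)
  have h3 : Ideal.span {(l : Polynomial ℤ)} ^ n ⊔ Ideal.span {Polynomial.X} ^ M ≤
      RingHom.ker (Polynomial.aeval j : Polynomial ℤ →ₐ[ℤ] B) := by
    rw [Ideal.span_singleton_pow, Ideal.span_singleton_pow, sup_le_iff,
      Ideal.span_singleton_le_iff_mem, Ideal.span_singleton_le_iff_mem, RingHom.mem_ker,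
      RingHom.mem_ker, map_pow, map_pow, map_natCast, Polynomial.aeval_X, ← Nat.cast_pow]
    exact ⟨hl, hj⟩
  have h4 := RingHom.mem_ker.1 (h3 h2)
  rwa [map_sub, map_pow, map_add, map_one, Polynomial.aeval_X, sub_eq_zero] at h4

theorem mgtrunc_nil {R ι : Type} [CommRing R] {j : W R ι} (hj : cf [] j = 0) (k : ℕ) :
    ∀ w : List ι, w.length < k → cf w (j ^ k) = 0 := by
  induction k with
  | zero => exact fun w hw => absurd hw (Nat.not_lt_zero _)
  | succ k ih =>
    intro w hw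
    rw [pow_succ', cf_mul]
    refine Finset.sum_eq_zero fun t ht => ?_
    rcases Nat.eq_zero_or_pos t with rfl | h0
    · rw [List.take_zero, hj, zero_mul]
    · rw [ih _ (by rw [List.length_drop]; have := Finset.mem_range.1 ht; omega), mul_zero]

/-- Equality of the coefficients of the words of length at most `N`. -/
def mgtruncCon (R ι : Type) [CommRing R] (N : ℕ) : RingCon (W R ι) where
  r p q := ∀ w : List ι, w.length ≤ N → cf w p = cf w q
  iseqv := ⟨fun _ _ _ => rfl, fun h w hw => (h w hw).symm,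
    fun h h' w hw => (h w hw).trans (h' w hw)⟩
  mul' h h' w hw := by
    rw [cf_mul, cf_mul]
    refine Finset.sum_congr rfl fun t _ => ?_
    rw [h _ ((List.length_take_le' _ _).trans hw), h' _ (by rw [List.length_drop]; omega)]
  add' h h' w hw := by rw [map_add, map_add, h w hw, h' w hw]

theorem mgtrunc_lc {G H : Type} [Group G] [TopologicalSpace G] [IsTopologicalGroup G] [Group H]
    {φ : G →* H} (h : IsOpen (φ.ker : Set G)) : IsLocallyConstant φ := by
  refine (IsLocallyConstant.iff_eventually_eq φ).2 fun g => ?_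
  filter_upwards [(h.preimage (continuous_const_mul g⁻¹)).mem_nhds (x := g) (by simp)] with y hy
  have h1 : φ (g⁻¹ * y) = 1 := hy
  rw [map_mul, map_inv, inv_mul_eq_one] at h1
  exact h1.symm

variable {l : ℕ} [Fact l.Prime] {G ι : Type} [Group G] [TopologicalSpace G]
  [IsTopologicalGroup G]

/-- Truncated coefficients modulo `l ^ n`. -/
theorem exists_trunc [Finite ι] {x : ι → G} (hx : IsFreePro l x) (n N : ℕ) :
    ∃ c : List ι → G → ZMod (l ^ n), (∀ w, IsLocallyConstant (c w)) ∧ (∀ g, c [] g = 1) ∧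
      (∀ w : List ι, w.length ≤ N → ∀ g h, c w (g * h) =
        ∑ k ∈ Finset.range (w.length + 1), c (w.take k) g * c (w.drop k) h) ∧
      (1 ≤ N → ∀ i, c [i] (x i) = 1) ∧
      ∀ w i, w.length ≤ N → w ≠ [] → w ≠ [i] → c w (x i) = 0 := by
  classical
  have hl : l ≠ 0 := (Fact.out : l.Prime).ne_zero
  have : NeZero (l ^ n) := ⟨pow_ne_zero n hl⟩
  obtain ⟨σ, hσ⟩ := (mgtruncCon (ZMod (l ^ n)) ι N).mk'_surjective.hasRightInverse
  set π := (mgtruncCon (ZMod (l ^ n)) ι N).mk' with hπ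
  have heq : ∀ p q, π p = π q ↔ ∀ w : List ι, w.length ≤ N → cf w p = cf w q := fun p q =>
    (mgtruncCon (ZMod (l ^ n)) ι N).eq
  have hout : ∀ p (w : List ι), w.length ≤ N → cf w (σ (π p)) = cf w p := fun p =>
    (heq _ _).1 (hσ _)
  have hmul : ∀ b b' (w : List ι), w.length ≤ N → cf w (σ (b * b')) =
      ∑ k ∈ Finset.range (w.length + 1), cf (w.take k) (σ b) * cf (w.drop k) (σ b') := by
    intro b b' w hw
    rw [← cf_mul, ← hout (σ b * σ b') w hw, map_mul, hσ, hσ]
  have h1 : cf ([] : List ι) (1 : W (ZMod (l ^ n)) ι) = 1 := by rw [← wrd_nil, cf_wrd, if_pos rfl]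
  have : Finite {w : List ι | w.length ≤ N} := List.finite_length_le ι N
  have : Finite (mgtruncCon (ZMod (l ^ n)) ι N).Quotient :=
    Finite.of_injective (fun b (w : {w : List ι | w.length ≤ N}) => cf w.1 (σ b)) fun b b' h =>
      (hσ b).symm.trans (((heq _ _).2 fun w hw => congrFun h ⟨w, hw⟩).trans (hσ b'))
  have hp : ∀ p, cf [] p = 1 → π p ^ l ^ (n + (N + 1)) = 1 := by
    intro p h
    have h2 : π (p - 1) ^ (N + 1) = 0 := by
      rw [← map_pow, ← map_zero π, heq]
      intro w hw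
      rw [mgtrunc_nil (by rw [map_sub, h, h1, sub_self]) _ w (Nat.lt_succ_of_le hw), map_zero]
    have h3 := mgtrunc_pow (l := l) (n := n) (by
      rw [← map_natCast π, ← map_natCast (algebraMap (ZMod (l ^ n)) (W (ZMod (l ^ n)) ι)),
        ZMod.natCast_self, map_zero, map_zero]) h2
    rwa [map_sub, map_one, add_sub_cancel] at h3
  let ε : (mgtruncCon (ZMod (l ^ n)) ι N).Quotientˣ →* ZMod (l ^ n) :=
    { toFun := fun u => cf [] (σ u)
      map_one' := by rw [Units.val_one, ← map_one π, hout _ _ (Nat.zero_le _), h1]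
      map_mul' := fun u v => by simpa using hmul u v [] (Nat.zero_le _) }
  have hQ : IsPGroup l ε.toHomUnits.ker := fun u => ⟨n + (N + 1), by
    have h2 := hp (σ u.1) (congrArg Units.val u.2)
    rw [hσ] at h2
    exact Subtype.ext (Units.ext h2)⟩
  have hi : ∀ i : ι, cf [] (1 + lt i : W (ZMod (l ^ n)) ι) = 1 := fun i => by
    rw [map_add, h1, lt, cf_wrd, if_neg (List.cons_ne_nil _ _), add_zero]
  obtain ⟨φ, hφ, hφx⟩ := hx.free _ hQ fun i =>
    ⟨Units.ofPowEqOne _ _ (hp _ (hi i)) (pow_ne_zero _ hl),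
      Units.ext ((hout _ _ (Nat.zero_le _)).trans (hi i))⟩
  have hc : ∀ (w : List ι) i, w.length ≤ N → w ≠ [] →
      cf w (σ (φ (x i)).1) = if [i] = w then 1 else 0 := by
    intro w i hw h0
    rw [hφx]
    refine (hout _ w hw).trans ?_
    rw [map_add, ← wrd_nil, cf_wrd, if_neg h0.symm, zero_add, lt, cf_wrd]
  refine ⟨fun w g => cf w (σ (φ g).1), fun w => (mgtrunc_lc hφ).comp fun u => cf w (σ u.1),
    fun g => congrArg Units.val (φ g).2, fun w hw g h => ?_, fun hN i => ?_,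
    fun w i hw h0 h2 => ?_⟩
  · simp only [map_mul]
    exact hmul _ _ w hw
  · exact (hc [i] i hN (List.cons_ne_nil _ _)).trans (if_pos rfl)
  · exact (hc w i hw h0).trans (if_neg h2.symm)

end Pool.Agent.Lib.MP_446a91_nt.Gal
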