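import Pool.Agent.Lib.MP_446a91_nt.Gal.MgDer

/-! Uniqueness of Ihara's element (MP_446a91_nt). -/

namespace Pool.Agent.Lib.MP_446a91_nt.Gal

variable {l : ℕ} [Fact l.Prime] {G : Type} [Group G] [TopologicalSpace G] [IsTopologicalGroup G]

namespace Mag

variable (M : Mag l G (Fin 2)) {F : Type} [FunLike F G G] [MonoidHomClass F G G] (α : F)
  {f : G} {m d : ℕ}

/-- One step: the leading term of `v` commutes with the class of `b`. -/
theorem mgU_step {b v : G} {i : Fin 2} {k : ℕ} (hb : M.L 1 b = lt i)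
    (e : v⁻¹ * b * v * b⁻¹ ∈ lcs G (m + 1)) (hk : 1 ≤ k) (hkm : k < m) (hv : v ∈ lcs G k) :
    cm (lt i) (M.L k v) = 0 := by
  rw [← hb, ← M.L_conj_div hk le_rfl hv (mem_lcs_one b)]
  exact M.L_of_lt (by omega) (by omega) e

theorem mgU_deep {b v : G} {i : Fin 2} (hb : M.L 1 b = lt i)
    (e : v⁻¹ * b * v * b⁻¹ ∈ lcs G (m + 1)) (hv : v ∈ lcs G 2) : v ∈ lcs G m := by
  have key : ∀ k, k + 2 ≤ m → v ∈ lcs G (k + 2) := by
    intro k
    induction k with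
    | zero => exact fun _ => hv
    | succ k ih =>
      intro hk
      have h1 := ih (by omega)
      exact M.faith.ker (by omega) h1 (cen_two (by omega) (M.L_memLS (by omega) h1)
        (M.mgU_step hb e (by omega) (by omega) h1))
  rcases le_or_gt m 2 with h | h
  · exact lcs_anti h hv
  · obtain ⟨k, rfl⟩ : ∃ k, m = k + 2 := ⟨m - 2, by omega⟩
    exact key k le_rfl

theorem mgU_one {t : G} (ht : t ∈ lcs G 2) (g : G) : M.L 1 (t * g) = M.L 1 g := by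
  rw [M.mul le_rfl (mem_lcs_one t) (mem_lcs_one g), M.zero le_rfl ht, zero_add]

/-- Elements that nearly centralise two independent classes are deep. -/
theorem mem_of_conj {b1 b2 v1 v2 : G} (h1 : M.L 1 b1 = lt 0) (h2 : M.L 1 b2 = lt 1)
    (h : M.L 1 v1 = M.L 1 v2) (e1 : v1⁻¹ * b1 * v1 * b1⁻¹ ∈ lcs G (m + 1))
    (e2 : v2⁻¹ * b2 * v2 * b2⁻¹ ∈ lcs G (m + 1)) : v1 ∈ lcs G m ∧ v2 ∈ lcs G m := by
  rcases le_or_gt m 1 with hm | hm
  · exact ⟨lcs_anti hm (mem_lcs_one _), lcs_anti hm (mem_lcs_one _)⟩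
  have c1 := M.mgU_step h1 e1 le_rfl hm (mem_lcs_one v1)
  have c2 := M.mgU_step h2 e2 le_rfl hm (mem_lcs_one v2)
  rw [← h] at c2
  have h0 : M.L 1 v1 = 0 :=
    cen_both (M.L_memLS le_rfl (mem_lcs_one v1)) (i := 0) (j := 1) (by decide) c1 c2
  exact ⟨M.mgU_deep h1 e1 (M.faith.mem_two h0), M.mgU_deep h2 e2 (M.faith.mem_two (h ▸ h0))⟩

theorem lev_special (hα : Continuous α) (hf : f ∈ lcs G m) (hx : α (M.x 0) = M.x 0)
    (hy : α (M.x 1) = f⁻¹ * M.x 1 * f) : Lev α m := by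
  refine lev_of_gens M.dense α hα fun i => ?_
  fin_cases i
  · have : α (M.x 0) * (M.x 0)⁻¹ = 1 := by rw [hx, mul_inv_cancel]
    exact this ▸ one_mem _
  · have := comm_mem (inv_mem hf) (mem_lcs_one (M.x 1))
    rw [inv_inv, ← hy] at this
    exact this

theorem D_special (hm : 1 ≤ m) (hf : f ∈ lcs G m) (hx : α (M.x 0) = M.x 0)
    (hy : α (M.x 1) = f⁻¹ * M.x 1 * f) : M.D α m = dK (M.L m f) := by
  refine der_ext (M.D_isDer α m) (der_isDer _) fun i => ?_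
  rw [M.D_lt, dK, der_lt]
  fin_cases i
  · show M.L (m + 1) (α (M.x 0) * (M.x 0)⁻¹) = 0
    rw [hx, mul_inv_cancel]
    exact M.L_one (by omega)
  · show M.L (m + 1) (α (M.x 1) * (M.x 1)⁻¹) = cm (lt 1) (M.L m f)
    rw [hy, M.L_conj_div hm le_rfl hf (mem_lcs_one _), M.L_x]

/-- (U). -/
theorem lemU (hα : Continuous α) (hm : 2 ≤ m) (hf : f ∈ lcs G m) (hx : α (M.x 0) = M.x 0)
    (hy : α (M.x 1) = f⁻¹ * M.x 1 * f) {g b1 b2 t1 t2 : G} (h1 : M.L 1 b1 = lt 0)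
    (h2 : M.L 1 b2 = lt 1) (ht1 : t1 ∈ lcs G 2) (ht2 : t2 ∈ lcs G 2)
    (e1 : g * α b1 * g⁻¹ = t1⁻¹ * b1 * t1) (e2 : g * α b2 * g⁻¹ = t2⁻¹ * b2 * t2) :
    t2 * t1⁻¹ ∈ lcs G m ∧ M.L m (t2 * t1⁻¹) = M.L m f := by
  have hl := M.lev_special α hα hf hx hy
  have hD := M.D_special α (by omega) hf hx hy
  have a1 : α b1 * b1⁻¹ = (t1 * g)⁻¹ * b1 * (t1 * g) * b1⁻¹ := by
    have : α b1 = g⁻¹ * (g * α b1 * g⁻¹) * g := by group
    rw [this, e1]; group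
  have a2 : α b2 * b2⁻¹ = (t2 * g)⁻¹ * b2 * (t2 * g) * b2⁻¹ := by
    have : α b2 = g⁻¹ * (g * α b2 * g⁻¹) * g := by group
    rw [this, e2]; group
  obtain ⟨m1, m2⟩ := M.mem_of_conj h1 h2 ((M.mgU_one ht1 g).trans (M.mgU_one ht2 g).symm)
    (a1 ▸ hl b1) (a2 ▸ hl b2)
  have d1 := M.L_lev α hα (by omega) hl le_rfl (mem_lcs_one b1)
  have d2 := M.L_lev α hα (by omega) hl le_rfl (mem_lcs_one b2)
  rw [a1, M.L_conj_div (by omega) le_rfl m1 (mem_lcs_one _), h1, hD, dK, der_lt] at d1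
  rw [a2, M.L_conj_div (by omega) le_rfl m2 (mem_lcs_one _), h2, hD, dK, der_lt] at d2
  have z1 : M.L m (t1 * g) = 0 := cen_two hm (M.L_memLS (by omega) m1) d1
  have z2 : M.L m (t2 * g) - M.L m f = 0 := by
    refine cen_two hm (sub_mem (M.L_memLS (by omega) m2) (M.L_memLS (by omega) hf)) (i := 1) ?_
    have d3 : cm (lt 1) (M.L m (t2 * g)) = cm (lt 1) (M.L m f) := d2
    simp only [cm] at d3 ⊢
    linear_combination (norm := noncomm_ring) d3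
  have e : t2 * t1⁻¹ = t2 * g * (t1 * g)⁻¹ := by group
  rw [e]
  refine ⟨mul_mem m2 (inv_mem m1), ?_⟩
  rw [M.L_div (by omega) m2 m1, z1, sub_zero, ← sub_eq_zero, z2]

/-- (U) in every degree `d ≤ m` (for `d < m` the right side is zero). -/
theorem lemU' (hα : Continuous α) (hd : 2 ≤ d) (hm : d ≤ m) (hf : f ∈ lcs G m)
    (hx : α (M.x 0) = M.x 0) (hy : α (M.x 1) = f⁻¹ * M.x 1 * f) {g b1 b2 t1 t2 : G}
    (h1 : M.L 1 b1 = lt 0) (h2 : M.L 1 b2 = lt 1) (ht1 : t1 ∈ lcs G d) (ht2 : t2 ∈ lcs G d)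
    (e1 : g * α b1 * g⁻¹ = t1⁻¹ * b1 * t1) (e2 : g * α b2 * g⁻¹ = t2⁻¹ * b2 * t2) :
    M.L d t2 - M.L d t1 = M.L d f := by
  rw [← M.L_div (by omega) ht2 ht1]
  exact (M.lemU α hα hd (lcs_anti hm hf) hx hy h1 h2 (lcs_anti hd ht1) (lcs_anti hd ht2) e1 e2).2

/-- Trivial outer action on `G / G(m + 1)`. -/
theorem inner_iff (hα : Continuous α) (hf : f ∈ lcs G 2) (hx : α (M.x 0) = M.x 0)
    (hy : α (M.x 1) = f⁻¹ * M.x 1 * f) (m : ℕ) :
    (∃ g : G, ∀ h, α h * (g * h * g⁻¹)⁻¹ ∈ lcs G (m + 1)) ↔ f ∈ lcs G m := by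
  constructor
  · rintro ⟨g, hg⟩
    have a1 := (lcs_normal (m + 1)).conj_mem _ (hg (M.x 0)) g⁻¹
    have a2 := (lcs_normal (m + 1)).conj_mem _ (hg (M.x 1)) g⁻¹
    rw [hx] at a1
    rw [hy] at a2
    have b1 : g⁻¹ * (M.x 0 * (g * M.x 0 * g⁻¹)⁻¹) * g⁻¹⁻¹ = g⁻¹ * M.x 0 * g * (M.x 0)⁻¹ := by
      group
    have b2 : g⁻¹ * (f⁻¹ * M.x 1 * f * (g * M.x 1 * g⁻¹)⁻¹) * g⁻¹⁻¹ =
        (f * g)⁻¹ * M.x 1 * (f * g) * (M.x 1)⁻¹ := by group
    rw [b1] at a1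
    rw [b2] at a2
    obtain ⟨m1, m2⟩ := M.mem_of_conj (M.L_x 0) (M.L_x 1) (M.mgU_one hf g).symm a1 a2
    simpa using mul_mem m2 (inv_mem m1)
  · intro h
    exact ⟨1, fun g => by simpa using M.lev_special α hα h hx hy g⟩

/-- The third puncture kills the degree two term. -/
theorem L_two (hα : Continuous α) (hf : f ∈ lcs G 2) (hx : α (M.x 0) = M.x 0)
    (hy : α (M.x 1) = f⁻¹ * M.x 1 * f) {z t : G} (hz : M.L 1 z = -(lt 0 + lt 1))
    (ht : t ∈ lcs G 2) (e : α z = t⁻¹ * z * t) : M.L 2 f = 0 := by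
  have hl := M.lev_special α hα hf hx hy
  have d1 := M.L_lev α hα (by omega) hl le_rfl (mem_lcs_one z)
  have hp : M.L 2 f ∈ LK ℤ_[l] 2 := M.L_memLS (by omega) hf
  have hq : M.L 2 t ∈ LK ℤ_[l] 2 := M.L_memLS (by omega) ht
  rw [e, M.L_conj_div (by omega) le_rfl ht (mem_lcs_one _), hz, M.D_special α (by omega) hf hx hy,
    dK, map_neg, map_add, der_lt, der_lt] at d1
  have d2 : cm (-(lt 0 + lt 1)) (M.L 2 t) = -(0 + cm (lt 1) (M.L 2 f)) := d1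
  have c0 : cf [0, 1] (M.L 2 t) = 0 := by
    have d3 := congrArg (cf [0, 0, 1]) d2
    rw [LK_two hp, LK_two hq] at d3
    simpa [cm, lt, mul_sub, sub_mul, add_mul, mul_add, wrd_mul, cf_wrd] using d3
  have t0 : M.L 2 t = 0 := by rw [LK_two hq, c0, zero_smul]
  rw [t0, zero_add] at d2
  refine cen_two le_rfl hp (i := 1) ?_
  rw [← neg_eq_zero, ← d2]
  simp [cm]

end Mag

end Pool.Agent.Lib.MP_446a91_nt.Gal
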