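import Pool.Agent.Lib.MP_446a91_nt.Gal.SDefs

/-! The graded pieces `I^m / I^(m + 1)` (MP_446a91_nt). -/

namespace Pool.Agent.Lib.MP_446a91_nt

/-- `I^m` as a subgroup of `G_ℚ` (the hand-in proves that the set `II l m` is already a
subgroup). -/
noncomputable def IS (l m : ℕ) : Subgroup GQ := Subgroup.closure (II l m)

/-- The quotient `I^m / I^(m + 1)`, `m ≥ 1`, with the quotient topology. -/
abbrev DIm (l : ℕ) (m : ℕ+) : Type := IS l m ⧸ (IS l (m + 1)).subgroupOf (IS l m)

/-- The class of an element of `I^m`. -/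
noncomputable def clI {l : ℕ} {m : ℕ+} (σ : IS l m) : DIm l m := QuotientGroup.mk σ

end Pool.Agent.Lib.MP_446a91_nt
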