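import Pool.Agent.Lib.MP_446a91_nt.Gal.MgGoal
import Pool.Agent.Lib.MP_446a91_nt.Gal.WDefs

/-! The graded isomorphism on the quotients `I^m / I^(m + 1)` (MP_446a91_nt). -/

namespace Pool.Agent.Lib.MP_446a91_nt.Gal

open scoped TensorProduct

theorem isIhara_unique {B B' : FL →ₗ[ℚ] FL →ₗ[ℚ] FL} (h : IsIhara B) (h' : IsIhara B') :
    B = B' := by
  obtain ⟨D, h1, h2⟩ := h
  obtain ⟨E, e1, e2⟩ := h'
  have : ∀ ψ φ, D ψ φ = E ψ φ := fun ψ φ => by
    refine Desc.free_induction (P := fun φ => D ψ φ = E ψ φ) φ (fun i => ?_) (by simp)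
      (fun u v h1 h2 => by simp [h1, h2]) (fun c u h => by simp [h])
      fun u v h1 h2 => by simp [h1, h2]
    fin_cases i
    exacts [(h1 ψ).1.trans (e1 ψ).1.symm, (h1 ψ).2.trans (e1 ψ).2.symm]
  exact LinearMap.ext₂ fun ψ φ => by rw [h2, e2, this, this]

theorem wrap_inj {l : ℕ} [Fact l.Prime] {M V : Type} [AddCommGroup M] [Module ℤ_[l] M]
    [AddCommGroup V] [Module ℚ_[l] V] [Module ℤ_[l] V] [IsScalarTower ℤ_[l] ℚ_[l] V]
    (f : M →ₗ[ℤ_[l]] V) (hf : Function.Injective f) :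
    Function.Injective (f.liftBaseChange ℚ_[l]) := by
  refine (injective_iff_map_eq_zero _).2 fun x hx => ?_
  obtain ⟨⟨m, c⟩, h⟩ := IsLocalizedModule.surj (nonZeroDivisors ℤ_[l])
    (TensorProduct.mk ℤ_[l] ℚ_[l] M 1) x
  have h1 : (c : ℤ_[l]) • x = (1 : ℚ_[l]) ⊗ₜ m := h
  have h2 := congrArg (f.liftBaseChange ℚ_[l]) h1
  rw [LinearMap.map_smul_of_tower, hx, smul_zero, LinearMap.liftBaseChange_one_tmul] at h2
  rw [hf (h2.symm.trans (map_zero f).symm), TensorProduct.tmul_zero,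
    ← algebraMap_smul ℚ_[l]] at h1
  exact (smul_eq_zero.1 h1).resolve_left fun h0 => nonZeroDivisors.coe_ne_zero c
    (FaithfulSMul.algebraMap_injective ℤ_[l] ℚ_[l] (h0.trans (map_zero _).symm))

/-- The statement for one prime. -/
def Literal (B : FL →ₗ[ℚ] FL →ₗ[ℚ] FL) (l : ℕ) [Fact l.Prime] : Prop :=
    (∀ σ : GQ, ∃ s : MX l ≃+* MX l, IsLift σ s ∧ ∀ h, ∃ h', IsConjBy s h h') ∧
    (∀ m : ℕ+, (IS l m : Set GQ) = II l m) ∧
    ∃ (_ : ∀ m, AddCommGroup (DIm l m)) (_ : ∀ m, Module ℤ_[l] (DIm l m)),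
      (∀ (m : ℕ+) (σ τ : IS l m), clI (σ * τ) = clI σ + clI τ) ∧
      (∀ m, T2Space (DIm l m) ∧ ContinuousSMul ℤ_[l] (DIm l m)) ∧
      ∃ (br : ∀ m n : ℕ+, ℚ_[l] ⊗[ℤ_[l]] DIm l m →ₗ[ℚ_[l]] ℚ_[l] ⊗[ℤ_[l]] DIm l n →ₗ[ℚ_[l]]
          ℚ_[l] ⊗[ℤ_[l]] DIm l (m + n))
        (e : ∀ m : ℕ+, ℚ_[l] ⊗[ℤ_[l]] DIm l m ≃ₗ[ℚ_[l]] (grt m).baseChange ℚ_[l]),
        (∀ (m n : ℕ+) (σ : IS l m) (τ : IS l n),
          ∃ h : σ.1 * τ.1 * σ.1⁻¹ * τ.1⁻¹ ∈ IS l (m + n : ℕ+),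
            br m n (1 ⊗ₜ clI σ) (1 ⊗ₜ clI τ) = 1 ⊗ₜ clI ⟨_, h⟩) ∧
        ∀ m n x y, (e (m + n) (br m n x y) : ℚ_[l] ⊗[ℚ] FL) =
          LinearMap.BilinMap.baseChange ℚ_[l] B (e m x) (e n y)

theorem literal_of_goal {l : ℕ} [Fact l.Prime] (hG : Goal l) {B : FL →ₗ[ℚ] FL →ₗ[ℚ] FL}
    (hB : IsIhara B) : Literal B l := by
  obtain ⟨hc, hl, B', hB', φ, A, h1, h2⟩ := hG
  obtain rfl := isIhara_unique hB hB'
  have : Algebra.IsAlgebraic ℚ Qb := AlgebraicClosure.isAlgebraic ℚ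
  have : IsAlgClosure ℚ Qb := ⟨inferInstance, inferInstance⟩
  have hI : ∀ m, 1 ≤ m → (IS l m : Set GQ) = II l m := fun m hm => by
    obtain ⟨σ, hσ, -⟩ := (h1 m hm).2.2.2.1.ge (A m).zero_mem
    exact congrArg SetLike.coe (Subgroup.closure_eq
      (Subgroup.ofDiv (II l m) ⟨σ, hσ⟩ fun a ha b hb => ((h1 m hm).1 a ha b hb).1))
  have mem : ∀ {m : ℕ+} (σ : IS l m), σ.1 ∈ II l m := fun σ => (hI _ (PNat.pos _)).le σ.2
  have sub : ∀ {m : ℕ+} (σ τ : IS l m), φ m (σ * τ⁻¹).1 = φ m σ - φ m τ := fun σ τ =>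
    ((h1 _ (PNat.pos _)).1 _ (mem σ) _ (mem τ)).2
  have add : ∀ {m : ℕ+} (σ τ : IS l m), φ m (σ * τ).1 = φ m σ + φ m τ := fun σ τ => by
    have := sub (σ * τ) τ
    rw [mul_inv_cancel_right] at this
    rw [this, sub_add_cancel]
  have eqv : ∀ {m : ℕ+} (σ τ : IS l m), clI σ = clI τ ↔ φ m σ = φ m τ := fun {m} σ τ => by
    have e := add σ (σ⁻¹ * τ)
    rw [mul_inv_cancel_left] at e
    rw [clI, clI, QuotientGroup.eq, Subgroup.mem_subgroupOf, ← SetLike.mem_coe,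
      hI _ (by omega), (h1 m m.pos).2.1, e, left_eq_add]
    exact and_iff_right (mem _)
  let ψ : ∀ m : ℕ+, DIm l m → A m := fun m => Quotient.lift
    (fun σ : IS l m => (⟨φ m σ, (h1 m m.pos).2.2.2.1.le ⟨σ, mem σ, rfl⟩⟩ : A m))
    fun σ τ h => Subtype.ext ((eqv σ τ).1 (Quotient.sound h))
  have bij : ∀ m, Function.Bijective (ψ m) := fun m => ⟨by
      rintro ⟨σ⟩ ⟨τ⟩ h
      exact (eqv σ τ).2 (congrArg Subtype.val h), fun a => by
      obtain ⟨σ, hσ, e⟩ := (h1 m m.pos).2.2.2.1.ge a.2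
      exact ⟨clI ⟨σ, (hI m m.pos).ge hσ⟩, Subtype.ext e⟩⟩
  let E : ∀ m : ℕ+, DIm l m ≃ A m := fun m => Equiv.ofBijective _ (bij m)
  let _ : ∀ m, AddCommGroup (DIm l m) := fun m => (E m).addCommGroup
  let _ : ∀ m, Module ℤ_[l] (DIm l m) := fun m => (E m).module ℤ_[l]
  let f : ∀ m : ℕ+, DIm l m →ₗ[ℤ_[l]] ℚ_[l] ⊗[ℚ] FL := fun m =>
    (A m).subtype ∘ₗ ((E m).linearEquiv ℤ_[l]).toLinearMap
  have fc : ∀ (m : ℕ+) (σ : IS l m), f m (clI σ) = φ m σ := fun _ _ => rfl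
  have fi : ∀ m, Function.Injective (f m) := fun m =>
    (A m).subtype_injective.comp ((E m).linearEquiv ℤ_[l]).injective
  have rg : ∀ m : ℕ+, LinearMap.range ((f m).liftBaseChange ℚ_[l]) = (grt m).baseChange ℚ_[l] :=
    fun m => by
      rw [LinearMap.range_liftBaseChange, LinearMap.range_comp, LinearEquiv.range, Submodule.map_top,
        Submodule.range_subtype, (h1 m m.pos).2.2.2.2]
  let e : ∀ m : ℕ+, ℚ_[l] ⊗[ℤ_[l]] DIm l m ≃ₗ[ℚ_[l]] (grt m).baseChange ℚ_[l] := fun m =>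
    (LinearEquiv.ofInjective _ (wrap_inj (f m) (fi m))).trans (LinearEquiv.ofEq _ _ (rg m))
  have ec : ∀ m x, (e m x : ℚ_[l] ⊗[ℚ] FL) = (f m).liftBaseChange ℚ_[l] x := fun _ _ => rfl
  have bm : ∀ m n x y, LinearMap.BilinMap.baseChange ℚ_[l] B (e m x) (e n y) ∈
      (grt (m + n : ℕ+)).baseChange ℚ_[l] := fun m n x y => by
    rw [ec, ec]
    induction x with
    | zero => simp
    | add a b k1 k2 => rw [map_add, map_add, LinearMap.add_apply]; exact add_mem k1 k2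
    | tmul c a =>
      induction y with
      | zero => simp
      | add a b k1 k2 => rw [map_add, map_add]; exact add_mem k1 k2
      | tmul d b =>
        obtain ⟨σ⟩ := a
        obtain ⟨τ⟩ := b
        obtain ⟨k1, k2⟩ := h2 m n m.pos n.pos _ (mem σ) _ (mem τ)
        rw [LinearMap.liftBaseChange_tmul, LinearMap.liftBaseChange_tmul, map_smul, map_smul,
          LinearMap.smul_apply]
        refine Submodule.smul_mem _ _ (Submodule.smul_mem _ _ ?_)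
        rw [← (h1 _ (m + n).pos).2.2.2.2]
        exact Submodule.subset_span ((h1 _ (m + n).pos).2.2.2.1.le ⟨_, k1, k2⟩)
  refine ⟨hl, fun m => hI m m.pos, inferInstance, inferInstance,
    fun m σ τ => fi m (by rw [map_add, fc, fc, fc, add]), fun m => ?_,
    fun m n => LinearMap.mk₂ ℚ_[l] (fun x y => (e (m + n)).symm ⟨_, bm m n x y⟩)
      (fun a b c => by rw [← map_add]; congr 1; ext1; simp; rfl)
      (fun a b c => by rw [← map_smul]; congr 1; ext1; simp; rfl)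
      (fun a b c => by rw [← map_add]; congr 1; ext1; simp; rfl)
      (fun a b c => by rw [← map_smul]; congr 1; ext1; simp; rfl), e, fun m n σ τ => ?_,
    fun m n x y => congrArg Subtype.val ((e (m + n)).apply_symm_apply ⟨_, bm m n x y⟩)⟩
  · have : CompactSpace (IS l m) :=
      isCompact_iff_compactSpace.1 ((hI m m.pos).symm ▸ hc m m.pos).isCompact
    let c : DIm l m → FreeMonoid (Fin 2) → ℚ_[l] := fun x w => cfwK ℚ_[l] w (f m x)
    have c1 : Continuous c := continuous_pi fun w =>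
      (QuotientGroup.isQuotientMap_mk _).continuous_iff.2
        (((h1 m m.pos).2.2.1 w).comp_continuous continuous_subtype_val mem)
    have : ContinuousSMul ℤ_[l] ℚ_[l] :=
      ⟨(continuous_subtype_val.comp continuous_fst).mul continuous_snd⟩
    have c2 : Function.Injective c := fun x y h => fi m (iotaK_injective (sub_eq_zero.1
      (cf_ext fun w => by rw [map_sub, cf_iotaK, cf_iotaK]; exact sub_eq_zero.2 (congrFun h _))))
    refine ⟨.of_injective_continuous c2 c1,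
      (c1.isClosedEmbedding c2).isInducing.continuousSMul continuous_id fun {r x} => ?_⟩
    funext w
    simp only [c, map_smul, Pi.smul_apply, id]
    exact LinearMap.map_smul_of_tower _ r _
  · obtain ⟨k1, k2⟩ := h2 m n m.pos n.pos _ (mem σ) _ (mem τ)
    refine ⟨(hI _ (m + n).pos).ge k1, (e (m + n)).injective (Subtype.ext ?_)⟩
    rw [LinearMap.mk₂_apply, LinearEquiv.apply_symm_apply]
    simp only [ec, LinearMap.liftBaseChange_one_tmul, fc]
    exact k2.symm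

end Pool.Agent.Lib.MP_446a91_nt.Gal
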