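import Pool.Agent.Lib.MP_446a91_nt.Gal.PDefs
import Pool.Agent.Lib.MP_446a91_nt.Gal.Wrap
import Pool.Agent.Lib.MP_446a91_nt.Gal.FNX
import Pool.Agent.Lib.MP_446a91_nt.Sou.Top

/-! Assembly, and comparison of the two sets of definitions (MP_446a91_nt). -/

namespace Pool.Agent.Lib.MP_446a91_nt.Gal

open Polynomial
open scoped TensorProduct

theorem goal (l : ℕ) [Fact l.Prime] : Goal l := by
  obtain ⟨z, hz, D, hX⟩ := exists_data l
  exact goal_of_data hz D hX (sou l z hz)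

theorem di_lcs (G : Type) [Group G] [TopologicalSpace G] [IsTopologicalGroup G] (m : ℕ) :
    DI.lcs G m = lcs G (m + 1) := by
  induction m with
  | zero => rfl
  | succ m ih =>
    rw [lcs_succ (by omega), ← ih, DI.lcs, Function.iterate_succ_apply']
    rfl

theorem di_poly (l : ℕ) (p : Qb[X]) : algebraMap Qb[X] (MX l) p =
    algebraMap (RatFunc Qb) (MX l) (algebraMap Qb[X] (RatFunc Qb) p) :=
  IsScalarTower.algebraMap_apply _ _ _ p

theorem di_lift {l : ℕ} (σ : GQ) (s : MX l ≃+* MX l) : DI.IsLift σ s ↔ IsLift σ s := by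
  have h : ∀ c : Qb, algebraMap Qb (MX l) c = algebraMap (RatFunc Qb) (MX l) (RatFunc.C c) :=
    fun c => rfl
  simp only [DI.IsLift, IsLift, di_poly, RatFunc.algebraMap_C, RatFunc.algebraMap_X, h]

theorem di_II (l m : ℕ) : DI.II Qb (RatFunc Qb) (MX l) m = II l m := by
  ext σ
  simp only [DI.II, II, Set.mem_ofPred_eq, di_lift, di_lcs]
  rfl

theorem di_main (l : ℕ) [Fact l.Prime] {B : FL →ₗ[ℚ] FL →ₗ[ℚ] FL} (hB : IsIhara B) :
    DI.HasLifts Qb (RatFunc Qb) (MX l) ∧ ∃ I : ℕ+ → Subgroup GQ,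
      (∀ m : ℕ+, (I m : Set GQ) = DI.II Qb (RatFunc Qb) (MX l) m) ∧
      DI.GrIso ℤ_[l] (fun m => (grt m).baseChange ℚ_[l])
        (LinearMap.BilinMap.baseChange ℚ_[l] B) I := by
  obtain ⟨h1, h2, i1, i2, h3, h4, br, e, h5, h6⟩ := literal_of_goal (goal l) hB
  refine ⟨fun σ => ?_, fun m => IS l m, fun m => by rw [di_II, h2], i1, i2, h3, h4, br, e, h5, h6⟩
  obtain ⟨s, s1, s2⟩ := h1 σ
  exact ⟨s, (di_lift σ s).2 s1, s2⟩

end Pool.Agent.Lib.MP_446a91_nt.Gal
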