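import Pool.Agent.Lib.MP_446a91_nt.DD.FinDefs

/-! The pro-`l` fundamental group of the projective line minus three points, the filtration `I^m`
of the absolute Galois group of `ℚ` and its graded Lie algebra (MP_446a91_nt). -/

namespace Pool.Agent.Lib.MP_446a91_nt.DI

open Polynomial
open scoped TensorProduct

noncomputable section

/-- Every prime of the integral closure of `A` in `L` over `p` has ramification index one. -/
def Unram (A L : Type) [CommRing A] [CommRing L] [Algebra A L] (p : Ideal A) : Prop :=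
  ∀ P : Ideal (integralClosure A L), P.IsPrime → P.LiesOver p → P.ramificationIdx A = 1

/-- For `K = k(t)` and an algebraic closure `Ω` of `K`: the maximal pro-`l` extension unramified
outside `0, 1, ∞`, the compositum of the finite Galois extensions of `l`-power degree that are
unramified at `t = a` for all `a ∉ {0, 1}`. -/
def maxExt (l : ℕ) (k K Ω : Type) [Field k] [Field K] [Field Ω] [Algebra k[X] K] [Algebra K Ω]
    [Algebra k[X] Ω] [IsScalarTower k[X] K Ω] : IntermediateField K Ω :=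
  sSup {L | FiniteDimensional K L ∧ IsGalois K L ∧ (∃ n, Module.finrank K L = l ^ n) ∧
    ∀ a, a ∉ ({0, 1} : Set k) → Unram k[X] L (Ideal.span {X - C a})}

/-- `lcs G m` is the term `G(m + 1)` of the closed lower central series `G(1) = G`,
`G(m + 1) = closure [G, G(m)]`. -/
def lcs (G : Type) [Group G] [TopologicalSpace G] [IsTopologicalGroup G] (m : ℕ) : Subgroup G :=
  (fun H : Subgroup G => ⁅(⊤ : Subgroup G), H⁆.topologicalClosure)^[m] ⊤

section
variable {k K E : Type} [Field k] [Algebra ℚ k] [Field K] [Field E] [Algebra k[X] E] [Algebra K E]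

/-- `s` induces `σ` on the constants and fixes `t`. -/
def IsLift (σ : k ≃ₐ[ℚ] k) (s : E ≃+* E) : Prop :=
  (∀ c : k, s (algebraMap k[X] E (C c)) = algebraMap k[X] E (C (σ c))) ∧
    s (algebraMap k[X] E X) = algebraMap k[X] E X

/-- `h' = s h s⁻¹`. -/
def IsConjBy (s : E ≃+* E) (h h' : E ≃ₐ[K] E) : Prop := ∀ x, h' (s x) = s (h x)

variable (k K E)

/-- Every `σ` has a lift that normalises `π = Gal(E / K)`. -/
def HasLifts : Prop :=
  ∀ σ : k ≃ₐ[ℚ] k, ∃ s : E ≃+* E, IsLift σ s ∧ ∀ h : E ≃ₐ[K] E, ∃ h', IsConjBy s h h'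

/-- `I^m`: the `σ` whose outer action on `π / π(m + 1)` is trivial, `π = Gal(E / K)`; that is,
conjugation by a lift of `σ` agrees modulo `π(m + 1)` with an inner automorphism of `π`. -/
def II (m : ℕ) : Set (k ≃ₐ[ℚ] k) :=
  {σ | ∃ s : E ≃+* E, IsLift σ s ∧ ∃ g : E ≃ₐ[K] E, ∀ h h', IsConjBy s h h' →
    h' * (g * h * g⁻¹)⁻¹ ∈ lcs (E ≃ₐ[K] E) m}

end

/-- The quotient `I m / I (m + 1)`, with the quotient topology. -/
abbrev Gr {G : Type} [Group G] (I : ℕ+ → Subgroup G) (m : ℕ+) : Type :=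
  I m ⧸ (I (m + 1)).subgroupOf (I m)

/-- The class of an element of `I m`. -/
def cl {G : Type} [Group G] {I : ℕ+ → Subgroup G} {m : ℕ+} (σ : I m) : Gr I m :=
  QuotientGroup.mk σ

/-- There are a bilinear bracket `br` on the spaces `V m` that is induced by the group commutator
along the maps `c m : I m → V m`, and linear isomorphisms `V m ≃ g m` that take `br` to `B`. -/
def BrIso {K W : Type} [Field K] [AddCommGroup W] [Module K W] (g : ℕ+ → Submodule K W)
    (B : W →ₗ[K] W →ₗ[K] W) {G : Type} [Group G] (I : ℕ+ → Subgroup G) (V : ℕ+ → Type)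
    [∀ m, AddCommGroup (V m)] [∀ m, Module K (V m)] (c : ∀ m, I m → V m) : Prop :=
  ∃ (br : ∀ m n, V m →ₗ[K] V n →ₗ[K] V (m + n)) (e : ∀ m, V m ≃ₗ[K] g m),
    (∀ m n (σ : I m) (τ : I n), ∃ h : σ.1 * τ.1 * σ.1⁻¹ * τ.1⁻¹ ∈ I (m + n),
      br m n (c m σ) (c n τ) = c (m + n) ⟨_, h⟩) ∧
    ∀ m n x y, (e (m + n) (br m n x y) : W) = B (e m x) (e n y)

/-- The groups `I m / I (m + 1)` are Hausdorff topological `R`-modules, and the spaces
`K ⊗[R] (I m / I (m + 1))` with the bracket induced by the group commutator are isomorphic to the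
`g m` with the bracket `B`. -/
def GrIso (R : Type) [CommRing R] [TopologicalSpace R] {K W : Type} [Field K] [Algebra R K]
    [AddCommGroup W] [Module K W] (g : ℕ+ → Submodule K W) (B : W →ₗ[K] W →ₗ[K] W) {G : Type}
    [Group G] [TopologicalSpace G] (I : ℕ+ → Subgroup G) : Prop :=
  ∃ (_ : ∀ m, AddCommGroup (Gr I m)) (_ : ∀ m, Module R (Gr I m)),
    (∀ m (σ τ : I m), cl (σ * τ) = cl σ + cl τ) ∧
    (∀ m, T2Space (Gr I m) ∧ ContinuousSMul R (Gr I m)) ∧
    BrIso g B I (fun m => K ⊗[R] Gr I m) fun _ σ => 1 ⊗ₜ cl σ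

end

end Pool.Agent.Lib.MP_446a91_nt.DI
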