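import Pool.Agent.Lib.MP_446a91_nt.DD.FinDefs

/-! The pro-`l` fundamental group of the projective line minus points, the outer Galois action and
the filtration `I^m` (MP_446a91_nt). -/

namespace Pool.Agent.Lib.MP_446a91_nt

open Polynomial
open scoped TensorProduct

attribute [local instance 100] LieRing.ofAssociativeRing

noncomputable section

/-- An algebraic closure of `k(t)`. -/
abbrev Om (k : Type) [Field k] : Type := AlgebraicClosure (RatFunc k)

/-- `L / k(t)` is unramified at `t = a`: every prime of the integral closure of `k[t]` in `L` over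
`(t - a)` has ramification index one. -/
def UnramAt {k : Type} [Field k] (L : IntermediateField (RatFunc k) (Om k)) (a : k) : Prop :=
  ∀ P : Ideal (integralClosure k[X] L), P.IsPrime → P.LiesOver (Ideal.span {X - C a}) →
    P.ramificationIdx k[X] = 1

/-- The maximal pro-`l` extension of `k(t)` unramified outside `S` and `∞`: the compositum of the
finite Galois extensions of `l`-power degree that are unramified at all `a ∉ S`. -/
def maxExt (l : ℕ) (k : Type) [Field k] (S : Set k) : IntermediateField (RatFunc k) (Om k) :=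
  sSup {L | FiniteDimensional (RatFunc k) L ∧ IsGalois (RatFunc k) L ∧
    (∃ n, Module.finrank (RatFunc k) L = l ^ n) ∧ ∀ a, a ∉ S → UnramAt L a}

/-- The algebraic numbers. -/
abbrev Qb : Type := AlgebraicClosure ℚ

/-- The absolute Galois group of `ℚ`, with the Krull topology. -/
abbrev GQ : Type := Qb ≃ₐ[ℚ] Qb

/-- The maximal pro-`l` extension of `ℚ̄(t)` unramified outside `0, 1, ∞`. -/
abbrev MX (l : ℕ) : Type := maxExt l Qb {0, 1}

/-- The pro-`l` geometric fundamental group of `ℙ¹ ∖ {0, 1, ∞}`, with the Krull topology. -/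
abbrev PiL (l : ℕ) : Type := MX l ≃ₐ[RatFunc Qb] MX l

/-- The closed lower central series `G(1) = G`, `G(m + 1) = closure [G, G(m)]` (`G(0) = G`). -/
def lcs (G : Type) [Group G] [TopologicalSpace G] [IsTopologicalGroup G] : ℕ → Subgroup G
  | 0 => ⊤
  | 1 => ⊤
  | m + 2 => ⁅(⊤ : Subgroup G), lcs G (m + 1)⁆.topologicalClosure

/-- `s` is an automorphism of `MX l` over `ℚ(t)` that induces `σ` on the constants. -/
def IsLift {l : ℕ} (σ : GQ) (s : MX l ≃+* MX l) : Prop :=
  (∀ c : Qb, s (algebraMap Qb (MX l) c) = algebraMap Qb (MX l) (σ c)) ∧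
    s (algebraMap (RatFunc Qb) (MX l) RatFunc.X) = algebraMap (RatFunc Qb) (MX l) RatFunc.X

/-- `h' = s h s⁻¹`. -/
def IsConjBy {l : ℕ} (s : MX l ≃+* MX l) (h h' : PiL l) : Prop := ∀ x, h' (s x) = s (h x)

/-- `I^m`: the `σ` whose outer action on `π / π(m + 1)` is trivial, that is, conjugation by a lift
of `σ` agrees modulo `π(m + 1)` with an inner automorphism of `π`. -/
def II (l m : ℕ) : Set GQ :=
  {σ | ∃ s, IsLift σ s ∧ ∃ g : PiL l, ∀ h h', IsConjBy s h h' →
    h' * (g * h * g⁻¹)⁻¹ ∈ lcs (PiL l) (m + 1)}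

/-- The coefficient of the word `w` in a Lie polynomial. -/
def cfw (w : FreeMonoid (Fin 2)) : FL →ₗ[ℚ] ℚ :=
  Finsupp.lapply w ∘ₗ (MonoidAlgebra.coeffLinearEquiv ℚ).toLinearMap ∘ₗ toPoly.toLinearMap

/-- The same coefficient after extension of scalars to `K`. -/
def cfwK (K : Type) [Field K] [CharZero K] (w : FreeMonoid (Fin 2)) : K ⊗[ℚ] FL →ₗ[K] K :=
  (TensorProduct.AlgebraTensorModule.rid ℚ K K).toLinearMap ∘ₗ (cfw w).baseChange K

end

end Pool.Agent.Lib.MP_446a91_nt
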