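import Pool.Agent.Lib.MP_446a91_nt.Gal.XAlgA

/-! Centralisers in the Lie algebra of five points (MP_446a91_nt, paper A10). -/

namespace Pool.Agent.Lib.MP_446a91_nt.Gal

section
variable (K : Type) [CommRing K] {A : Type} [Ring A] [Algebra K A] (a : Fin 5 → A)

/-- The fibre is free. -/
def FreeK : Prop :=
  ∀ d, ∀ q ∈ LS K (lt : Fin 3 → W K (Fin 3)) d, evW (k3 a) q = 0 → q = 0

/-- Every Lie relation between the `a n` follows from the relations `R5`. -/
def Tight : Prop :=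
  ∀ (B : Type) [Ring B] [Algebra K B] (b : Fin 5 → B), R5 b →
    ∀ d, ∀ x ∈ LS K (fun n => (a n, b n)) d, x.1 = 0 → x.2 = 0

/-- A faithful model. -/
structure Good : Prop where
  rel : R5 a
  free : FreeK K a
  tight : Tight K a

end

variable {K A : Type} [CommRing K] [Ring A] [Algebra K A] {a : Fin 5 → A} {d : ℕ}

theorem xalg_map {ι B : Type} [Ring B] [Algebra K B] (f : A →ₐ[K] B) {g : ι → A} {g' : ι → B}
    (h : ∀ i, f (g i) = g' i) (q : W K ι) : f (evW g q) = evW g' q :=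
  algHom_eq (φ := f.comp (evW g)) (fun i => by simp [h]) q

theorem xalg_mem {ι : Type} (g : ι → A) {q : W K ι} (hq : q ∈ LS K (lt : ι → W K ι) d) :
    evW g q ∈ LS K g d := by
  simpa using map_LS (evW g) hq

theorem xalg_k3 (a : Fin 5 → A) (c : Fin 3) : k3 a c ∈ LS K a 1 := by
  fin_cases c
  exacts [gen_mem_LS a 0, gen_mem_LS a 1,
    sub_mem (sub_mem (gen_mem_LS a 4) (gen_mem_LS a 1)) (gen_mem_LS a 2)]

theorem xalg_rot (a : Fin 5 → A) (n : Fin 5) : LS K a d ≤ LS K (fun m => a (m + n)) d :=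
  LS_le (fun j => by simpa using gen_mem_LS (K := K) (fun m => a (m + n)) (j - n)) d

theorem xalg_s2 (a : Fin 5 → A) : LS K (s2 a) d ≤ LS K ![a 2, a 3] d :=
  LS_le (fun j => by
    fin_cases j
    exacts [gen_mem_LS ![a 2, a 3] 1, gen_mem_LS ![a 2, a 3] 0]) d

/-- `a 0` commutes with the base. -/
theorem xalg_base (h : R5 a) {s : A} (hs : s ∈ LS K (s2 a) d) : cm (a 0) s = 0 :=
  cm_LS_zero (fun j => by
    fin_cases j
    exacts [(h.comm 0).2, (h.comm 0).1]) hs

/-- The centraliser of `a 0` in the fibre vanishes in degree at least two. -/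
theorem xalg_fib (h : FreeK K a) (hd : 2 ≤ d) {k : A} (hk : k ∈ LS K (k3 a) d)
    (h0 : cm (a 0) k = 0) : k = 0 := by
  obtain ⟨q, hq, rfl⟩ := exists_poly hk
  rw [cen_two hd hq (h _ _ (cm_mem_LS (gen_mem_LS lt 0) hq) (by rw [map_cm, evW_lt]; exact h0)),
    map_zero]

theorem xalg_add (z u v : A) : cm z (u + v) = cm z u + cm z v := by
  simp only [cm]; noncomm_ring

/-- In `A × B` write `x = k + s` (`R5.span`, `exists_poly`); `π` kills `k.1` and recovers the
polynomial of `s`. -/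
theorem good_of_model (h : R5 a) (hf : FreeK K a) (π : A →ₐ[K] W K (Fin 2)) (h0 : π (a 0) = 0)
    (h1 : π (a 1) = 0) (h2 : π (a 2) = lt 1) (h3 : π (a 3) = lt 0) (h4 : π (a 4) = lt 1) :
    Good K a := by
  refine ⟨h, hf, fun B _ _ b hb d x hx hx1 => ?_⟩
  obtain ⟨k, hk, s, hs, rfl⟩ := (h.prod hb).span hx
  obtain ⟨q, hq, rfl⟩ := exists_poly hk
  obtain ⟨r, -, rfl⟩ := exists_poly hs
  have e1 := xalg_map (AlgHom.fst K A B) (g := k3 fun n => (a n, b n)) (g' := k3 a)
    (fun i => by fin_cases i <;> rfl) q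
  have e2 := xalg_map (AlgHom.fst K A B) (g := s2 fun n => (a n, b n)) (g' := s2 a)
    (fun i => by fin_cases i <;> rfl) r
  have e3 : π (evW (k3 a) q) = 0 := by
    rw [xalg_map π (g' := fun _ => 0) (fun i => by fin_cases i <;> simp [k3, h0, h1, h2, h4])]
    exact LS_zero (xalg_mem _ hq)
  have e4 : π (evW (s2 a) r) = r :=
    algHom_eq (φ := π.comp (evW (s2 a))) (φ' := AlgHom.id K _)
      (fun i => by fin_cases i <;> simp [s2, h2, h3]) r
  have e5 : evW (k3 a) q + evW (s2 a) r = 0 := by rw [← e1, ← e2]; exact hx1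
  have e6 : r = 0 := by simpa [e3, e4] using congrArg π e5
  rw [e6, map_zero, add_zero] at e5
  rw [e6, hf d q hq e5, map_zero, map_zero, add_zero]
  rfl

/-- `Tight` for the rotated family: rotate `b` back (`LS_le`). `FreeK`: apply `Tight` of the
rotated family to `b = a`. -/
theorem Good.rot (h : Good K a) (n : Fin 5) : Good K fun m => a (m + n) := by
  have ht : Tight K fun m => a (m + n) := fun B _ _ b hb d x hx hx1 =>
    h.tight B _ (hb.rot (-n)) d x (LS_le (fun j => by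
      simpa using gen_mem_LS (K := K) (fun m => (a m, b (m + -n))) (j + n)) d hx) hx1
  refine ⟨h.rel.rot n, fun d q hq h0 => h.free d q hq ?_, ht⟩
  have e := ht A a h.rel d _ (LS_le (xalg_k3 _) d (xalg_mem (k3 fun m => (a (m + n), a m)) hq))
    ((xalg_map (AlgHom.fst K A A) (fun i => by fin_cases i <;> rfl) q).trans h0)
  exact (xalg_map (AlgHom.snd K A A) (fun i => by fin_cases i <;> rfl) q).symm.trans e

theorem xalg_c1 (h : Good K a) (hd : 2 ≤ d) {u : A} (hu : u ∈ LS K a d) (h0 : cm (a 0) u = 0) :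
    u ∈ LS K ![a 2, a 3] d := by
  obtain ⟨k, hk, s, hs, e⟩ := h.rel.span hu
  rw [e, xalg_add, xalg_base h.rel hs, add_zero] at h0
  rw [e, xalg_fib h.free hd hk h0, zero_add]
  exact xalg_s2 a hs

theorem xalg_c2 (h : Good K a) (hd : 1 ≤ d) {u : A} (hu : u ∈ LS K a d)
    (h0 : cm (a 0) (cm (a 2) u) = 0) : ∃ s ∈ LS K ![a 2, a 3] d, cm (a 2) (u - s) = 0 := by
  obtain ⟨k, hk, s, hs, e⟩ := h.rel.span hu
  have m : a 2 ∈ LS K (s2 a) 1 := gen_mem_LS (s2 a) 1
  rw [e, xalg_add, xalg_add, xalg_base h.rel (cm_mem_LS m hs), add_zero] at h0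
  refine ⟨s, xalg_s2 a hs, ?_⟩
  rw [e, add_sub_cancel_right]
  exact xalg_fib h.free (Nat.add_le_add_left hd 1) (h.rel.cm_SK m hk) h0

/-- (C1). First for `n = 0` (`u = k + s`, `cen_two` for the polynomial of `k`), then rotate. -/
theorem Good.c1 (h : Good K a) (n : Fin 5) (hd : 2 ≤ d) {u : A} (hu : u ∈ LS K a d)
    (h0 : cm (a n) u = 0) : u ∈ LS K ![a (n + 2), a (n + 3)] d := by
  rw [add_comm n 2, add_comm n 3]
  rw [← zero_add n] at h0
  exact xalg_c1 (h.rot n) hd (xalg_rot a n hu) h0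

/-- (C2). `[a 2, k]` lies in the fibre, has degree `≥ 2` and commutes with `a 0`. -/
theorem Good.c2 (h : Good K a) (n : Fin 5) (hd : 1 ≤ d) {u : A} (hu : u ∈ LS K a d)
    (h0 : cm (a n) (cm (a (n + 2)) u) = 0) :
    ∃ s ∈ LS K ![a (n + 2), a (n + 3)] d, cm (a (n + 2)) (u - s) = 0 := by
  rw [add_comm n 2] at h0
  rw [add_comm n 2, add_comm n 3]
  exact xalg_c2 (h.rot n) hd (xalg_rot a n hu) (by rw [zero_add]; exact h0)

/-- Degree one: the expression is `-c 1 • [k 0, [k 2, k 1]]`; take the coefficient of a word. -/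
theorem Good.d1 (h : Good K a) (n : Fin 5) (c : Fin 5 → K)
    (h0 : cm (a n) (cm (a (n + 2)) (∑ m, c m • a m)) = 0) : c (n + 1) = 0 := by
  have key : ∀ {a : Fin 5 → A} (c : Fin 5 → K), Good K a →
      cm (a 0) (cm (a 2) (∑ m, c m • a m)) = 0 → c 1 = 0 := by
    intro a c h h0
    have m : ∀ i, (lt i : W K (Fin 3)) ∈ LS K lt 1 := gen_mem_LS lt
    have e := h.free _ _ (Submodule.smul_mem _ (c 1) (cm_mem_LS (m 0) (cm_mem_LS (m 2) (m 1)))) ?_
    · simpa [cm, lt, mul_sub, sub_mul, wrd_mul, cf_wrd] using congrArg (cf [0, 2, 1]) e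
    have s : ∀ (z u : A) (r : K), cm z (r • u) = r • cm z u := fun z u r => by simp [cm, smul_sub]
    have e0 : cm (a 2) (a 0) = 0 := (h.rel.comm 2).2
    have e2 : cm (a 2) (a 2) = 0 := sub_self _
    have e4 : cm (a 2) (a 4) = 0 := (h.rel.comm 2).1
    have e3 : cm (a 0) (cm (a 2) (a 3)) = 0 :=
      xalg_base (K := K) h.rel (cm_mem_LS (gen_mem_LS (s2 a) 1) (gen_mem_LS (s2 a) 0))
    have e1 : cm (a 4 - a 1 - a 2) (a 1) = -cm (a 2) (a 1) := by
      have := (h.rel.comm 4).1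
      simp only [cm] at this ⊢
      linear_combination (norm := noncomm_ring) this
    have e5 : ∀ z u : A, cm z (-u) = -cm z u := fun z u => by simp only [cm]; noncomm_ring
    simp only [Fin.sum_univ_five, xalg_add, s, e0, e2, e3, e4, smul_zero, add_zero,
      zero_add] at h0
    rw [map_smul, map_cm, map_cm, evW_lt, evW_lt, evW_lt]
    change c 1 • cm (a 0) (cm (a 4 - a 1 - a 2) (a 1)) = 0
    rw [e1, e5, smul_neg, h0, neg_zero]
  rw [add_comm]
  refine key (fun m => c (m + n)) (h.rot n) ?_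
  rw [← Equiv.sum_comp (Equiv.addRight n) fun m => c m • a m] at h0
  rw [zero_add, add_comm 2]
  exact h0

theorem Good.upk (h : Good K a) {p : W K (Fin 2)} (hp : p ∈ LK K d)
    (h0 : evK (a 0) (a 4) p + evK (a 3) (a 2) p =
      evK (a 1) (a 2) p + evK (a 3) (a 4) p + evK (a 0) (a 1) p) : UPK p := by
  intro R _ _ a1 a2 a3 a4 a5 r
  let c : Fin 5 → A × R := fun n => (a n, ![a1, a2, a3, a4, a5] n)
  have m : ∀ i j, evK (c i) (c j) p ∈ LS K c d := fun i j =>
    LS_le (fun e => by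
      fin_cases e
      exacts [gen_mem_LS c i, gen_mem_LS c j]) d (xalg_mem ![c i, c j] hp)
  have e1 : ∀ i j, (evK (c i) (c j) p).1 = evK (a i) (a j) p := fun i j =>
    map_evK (AlgHom.fst K A R) _ _ p
  have e2 : ∀ i j, (evK (c i) (c j) p).2 = evK (c i).2 (c j).2 p := fun i j =>
    map_evK (AlgHom.snd K A R) _ _ p
  have e := h.tight R ![a1, a2, a3, a4, a5] r d _
    (sub_mem (add_mem (m 0 4) (m 3 2)) (add_mem (add_mem (m 1 2) (m 3 4)) (m 0 1)))
    (by simp only [Prod.fst_sub, Prod.fst_add, e1, h0, sub_self])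
  simp only [Prod.snd_sub, Prod.snd_add, e2] at e
  exact sub_eq_zero.1 e

end Pool.Agent.Lib.MP_446a91_nt.Gal
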