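import Pool.Agent.Lib.MP_446a91_nt.Gal.MgCen
import Pool.Agent.Lib.MP_446a91_nt.DD.B1

/-! The Lie algebra of five points is a semidirect product (MP_446a91_nt, paper A10). -/

namespace Pool.Agent.Lib.MP_446a91_nt.Gal

/-- The relations for a family of five elements. -/
def R5 {A : Type} [Ring A] (a : Fin 5 → A) : Prop := Rel5 (a 0) (a 1) (a 2) (a 3) (a 4)

/-- Generators of the fibre. -/
def k3 {A : Type} [Ring A] (a : Fin 5 → A) : Fin 3 → A := ![a 0, a 1, a 4 - a 1 - a 2]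

/-- Generators of the base. -/
def s2 {A : Type} (a : Fin 5 → A) : Fin 2 → A := ![a 3, a 2]

variable {K A B : Type} [CommRing K] [Ring A] [Algebra K A] [Ring B] [Algebra K B]
  {a : Fin 5 → A} {d i j : ℕ}

theorem xalga_ind {ι : Type} {g : ι → A} {P : ℕ → A → Prop} (hg : ∀ n, P 1 (g n))
    (hc : ∀ m n u v, P m u → P n v → P (m + n) (cm u v)) (h0 : ∀ m, P m 0)
    (ha : ∀ m u v, P m u → P m v → P m (u + v)) (hs : ∀ m (c : K) u, P m u → P m (c • u))
    {u : A} (hu : u ∈ LS K g d) : P d u := by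
  rw [LS_eq_span] at hu
  induction hu using Submodule.span_induction with
  | mem u hu =>
    have hu' : Br g (fun _ => 1) d u := hu
    clear hu
    induction hu' with
    | of n => exact hg n
    | lie _ _ h1 h2 => exact hc _ _ _ _ h1 h2
  | zero => exact h0 d
  | add u v _ _ h1 h2 => exact ha d u v h1 h2
  | smul c u _ h1 => exact hs d c u h1

theorem xalga_smul_right (c : K) (u v : A) : cm u (c • v) = c • cm u v := by
  simp [cm, smul_sub]

theorem xalga_smul_left (c : K) (u v : A) : cm (c • u) v = c • cm u v := by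
  simp [cm, smul_sub]

theorem R5.rot (h : R5 a) (n : Fin 5) : R5 fun m => a (m + n) := by
  have h' : Rel5 (a 0) (a 1) (a 2) (a 3) (a 4) := h
  fin_cases n
  · exact h'
  · exact h'.rot
  · exact h'.rot.rot
  · exact h'.rot.rot.rot
  · exact h'.rot.rot.rot.rot

theorem R5.prod (h : R5 a) {b : Fin 5 → B} (h' : R5 b) : R5 fun m => (a m, b m) := by
  have r : Rel5 (a 0) (a 1) (a 2) (a 3) (a 4) := h
  have r' : Rel5 (b 0) (b 1) (b 2) (b 3) (b 4) := h'
  exact ⟨Prod.ext r.h13 r'.h13, Prod.ext r.h24 r'.h24, Prod.ext r.h35 r'.h35,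
    Prod.ext r.h41 r'.h41, Prod.ext r.h52 r'.h52, Prod.ext r.hs r'.hs⟩

theorem R5.chord (h : R5 a) : cm (a 3 - a 0 - a 1) (a 4 - a 1 - a 2) = 0 := by
  have r : Rel5 (a 0) (a 1) (a 2) (a 3) (a 4) := h
  exact sub_eq_zero.2 r.x5.cB

theorem R5.comm (h : R5 a) (n : Fin 5) : cm (a n) (a (n + 2)) = 0 ∧ cm (a n) (a (n + 3)) = 0 := by
  have r : Rel5 (a (0 + n)) (a (1 + n)) (a (2 + n)) (a (3 + n)) (a (4 + n)) := h.rot n
  have e1 := r.h13
  have e2 := r.h41
  rw [zero_add, add_comm 2 n] at e1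
  rw [zero_add, add_comm 3 n] at e2
  exact ⟨sub_eq_zero.2 e1, sub_eq_zero.2 e2.symm⟩

/-- An element that commutes with the generators commutes with the Lie polynomials. -/
theorem cm_LS_zero {ι : Type} {g : ι → A} {z u : A} (h : ∀ n, cm z (g n) = 0)
    (hu : u ∈ LS K g d) : cm z u = 0 := by
  refine xalga_ind (K := K) (P := fun _ u => cm z u = 0) h ?_ ?_ ?_ ?_ hu
  · intro m n u v h1 h2
    rw [cm_leibniz, h1, h2, cm_zero_left, cm_zero_right, add_zero]
  · intro _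
    exact cm_zero_right z
  · intro m u v h1 h2
    rw [cm_add_right, h1, h2, add_zero]
  · intro m c u h1
    rw [xalga_smul_right, h1, smul_zero]

theorem LS_zero {ι : Type} {u : A} (hu : u ∈ LS K (fun _ : ι => (0 : A)) d) : u = 0 := by
  refine xalga_ind (K := K) (P := fun _ (u : A) => u = (0 : A)) (fun _ => rfl) ?_ (fun _ => rfl) ?_ ?_ hu
  · intro m n u v h1 _
    rw [h1, cm_zero_left]
  · intro m u v h1 h2
    rw [h1, h2, add_zero]
  · intro m c u h1
    rw [h1, smul_zero]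

theorem xalga_gen (h : R5 a) (m : Fin 2) (n : Fin 3) :
    cm (s2 a m) (k3 a n) ∈ LS K (k3 a) (1 + 1) := by
  have r : Rel5 (a 0) (a 1) (a 2) (a 3) (a 4) := h
  have g0 : a 0 ∈ LS K (k3 a) 1 := gen_mem_LS (k3 a) 0
  have g1 : a 1 ∈ LS K (k3 a) 1 := gen_mem_LS (k3 a) 1
  have g2 : a 4 - a 1 - a 2 ∈ LS K (k3 a) 1 := gen_mem_LS (k3 a) 2
  have hc := h.chord
  have h13 := r.h13
  have h24 := r.h24
  have h35 := r.h35
  have h41 := r.h41
  have h52 := r.h52
  have c30 : cm (a 3) (a 0) = 0 := sub_eq_zero.2 h41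
  have c31 : cm (a 3) (a 1) = 0 := sub_eq_zero.2 h24.symm
  have c20 : cm (a 2) (a 0) = 0 := sub_eq_zero.2 h13.symm
  have c32 : cm (a 3) (a 4 - a 1 - a 2) =
      cm (a 0) (a 4 - a 1 - a 2) + cm (a 1) (a 4 - a 1 - a 2) := by
    simp only [cm] at hc ⊢
    linear_combination (norm := noncomm_ring) hc
  have c21 : cm (a 2) (a 1) = cm (a 1) (a 4 - a 1 - a 2) := by
    simp only [cm]
    linear_combination (norm := noncomm_ring) h52
  have c22 : cm (a 2) (a 4 - a 1 - a 2) = cm (a 4 - a 1 - a 2) (a 1) := by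
    simp only [cm]
    linear_combination (norm := noncomm_ring) h35 - h52
  fin_cases m <;> fin_cases n
  · change cm (a 3) (a 0) ∈ _
    rw [c30]; exact zero_mem _
  · change cm (a 3) (a 1) ∈ _
    rw [c31]; exact zero_mem _
  · change cm (a 3) (a 4 - a 1 - a 2) ∈ _
    rw [c32]; exact add_mem (cm_mem_LS g0 g2) (cm_mem_LS g1 g2)
  · change cm (a 2) (a 0) ∈ _
    rw [c20]; exact zero_mem _
  · change cm (a 2) (a 1) ∈ _
    rw [c21]; exact cm_mem_LS g1 g2
  · change cm (a 2) (a 4 - a 1 - a 2) ∈ _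
    rw [c22]; exact cm_mem_LS g2 g1

theorem xalga_one (h : R5 a) (m : Fin 2) {k : A} (hk : k ∈ LS K (k3 a) j) :
    cm (s2 a m) k ∈ LS K (k3 a) (1 + j) := by
  refine (xalga_ind (K := K)
    (P := fun j k => k ∈ LS K (k3 a) j ∧ cm (s2 a m) k ∈ LS K (k3 a) (1 + j))
    (fun n => ⟨gen_mem_LS _ n, xalga_gen h m n⟩) ?_ ?_ ?_ ?_ hk).2
  · intro p q u v h1 h2
    refine ⟨cm_mem_LS h1.1 h2.1, ?_⟩
    rw [cm_leibniz]
    have e1 := cm_mem_LS h1.2 h2.1
    have e2 := cm_mem_LS h1.1 h2.2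
    rw [add_assoc] at e1
    rw [show p + (1 + q) = 1 + (p + q) by omega] at e2
    exact add_mem e1 e2
  · intro p
    rw [cm_zero_right]
    exact ⟨zero_mem _, zero_mem _⟩
  · intro p u v h1 h2
    rw [cm_add_right]
    exact ⟨add_mem h1.1 h2.1, add_mem h1.2 h2.2⟩
  · intro p c u h1
    rw [xalga_smul_right]
    exact ⟨Submodule.smul_mem _ c h1.1, Submodule.smul_mem _ c h1.2⟩

/-- On generators: `[a 3, a 0] = [a 3, a 1] = [a 2, a 0] = 0`, `[a 3, k] = [a 0 + a 1, k]` for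
`k = k3 a 2` (`chord`), `[a 2, a 1] = -[k, a 1]`, `[a 2, k] = -[a 2, a 1]`. Then induction on the
brackets of the fibre (Leibniz) and on the brackets of the base (Jacobi). -/
theorem R5.cm_SK (h : R5 a) {s k : A} (hs : s ∈ LS K (s2 a) i) (hk : k ∈ LS K (k3 a) j) :
    cm s k ∈ LS K (k3 a) (i + j) := by
  refine xalga_ind (K := K)
    (P := fun i s => ∀ j k, k ∈ LS K (k3 a) j → cm s k ∈ LS K (k3 a) (i + j))
    (fun n j k hk => xalga_one h n hk) ?_ ?_ ?_ ?_ hs j k hk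
  · intro p q u v h1 h2 j k hk
    have e : cm (cm u v) k = cm u (cm v k) - cm v (cm u k) := by
      simp only [cm]; noncomm_ring
    have e1 := h1 _ _ (h2 j k hk)
    have e2 := h2 _ _ (h1 j k hk)
    rw [← add_assoc] at e1
    rw [show q + (p + j) = p + q + j by omega] at e2
    rw [e]
    exact sub_mem e1 e2
  · intro p j k _
    rw [cm_zero_left]
    exact zero_mem _
  · intro p u v h1 h2 j k hk
    rw [cm_add_left]
    exact add_mem (h1 j k hk) (h2 j k hk)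
  · intro p c u h1 j k hk
    rw [xalga_smul_left]
    exact Submodule.smul_mem _ c (h1 j k hk)

theorem R5.span (h : R5 a) {u : A} (hu : u ∈ LS K a d) :
    ∃ k ∈ LS K (k3 a) d, ∃ s ∈ LS K (s2 a) d, u = k + s := by
  refine xalga_ind (K := K)
    (P := fun d u => ∃ k ∈ LS K (k3 a) d, ∃ s ∈ LS K (s2 a) d, u = k + s) ?_ ?_ ?_ ?_ ?_ hu
  · have g0 : a 0 ∈ LS K (k3 a) 1 := gen_mem_LS (k3 a) 0
    have g1 : a 1 ∈ LS K (k3 a) 1 := gen_mem_LS (k3 a) 1
    have g2 : a 4 - a 1 - a 2 ∈ LS K (k3 a) 1 := gen_mem_LS (k3 a) 2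
    have t0 : a 3 ∈ LS K (s2 a) 1 := gen_mem_LS (s2 a) 0
    have t1 : a 2 ∈ LS K (s2 a) 1 := gen_mem_LS (s2 a) 1
    intro n
    fin_cases n
    · exact ⟨_, g0, 0, zero_mem _, (add_zero _).symm⟩
    · exact ⟨_, g1, 0, zero_mem _, (add_zero _).symm⟩
    · exact ⟨0, zero_mem _, _, t1, (zero_add _).symm⟩
    · exact ⟨0, zero_mem _, _, t0, (zero_add _).symm⟩
    · refine ⟨_, add_mem g2 g1, _, t1, ?_⟩
      change a 4 = _
      abel
  · rintro p q u v ⟨k, hk, s, hs, rfl⟩ ⟨k', hk', s', hs', rfl⟩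
    have e1 := h.cm_SK hs hk'
    have e2 := h.cm_SK hs' hk
    rw [add_comm q p] at e2
    refine ⟨_, sub_mem (add_mem (cm_mem_LS hk hk') e1) e2, _, cm_mem_LS hs hs', ?_⟩
    simp only [cm]; noncomm_ring
  · intro p
    exact ⟨0, zero_mem _, 0, zero_mem _, (add_zero _).symm⟩
  · rintro p u v ⟨k, hk, s, hs, rfl⟩ ⟨k', hk', s', hs', rfl⟩
    exact ⟨_, add_mem hk hk', _, add_mem hs hs', by abel⟩
  · rintro p c u ⟨k, hk, s, hs, rfl⟩
    exact ⟨_, Submodule.smul_mem _ c hk, _, Submodule.smul_mem _ c hs, smul_add _ _ _⟩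

end Pool.Agent.Lib.MP_446a91_nt.Gal
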