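import Pool.Agent.Lib.MP_446a91_nt.Gal.XAlg

/-! Corner elements (MP_446a91_nt, paper A11). -/

namespace Pool.Agent.Lib.MP_446a91_nt.Gal

/-- The projection number `n` sends `a (ix n e)` to the letter `e`; `{ix n 0, ix n 1}` is
`{n + 2, n + 3}`. -/
def ix : Fin 5 → Fin 2 → Fin 5 := ![![3, 2], ![3, 4], ![0, 4], ![0, 1], ![1, 2]]

theorem xcor_cases : ∀ n m : Fin 5, m = n ∨ m = n + 1 ∨ m = n + 2 ∨ m = n + 3 ∨ m = n + 4 := by
  decide

theorem xcor_add : ∀ n : Fin 5, n + 3 + 2 = n ∧ n + 3 + 1 = n + 4 ∧ n + 4 - 1 = n + 3 := by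
  decide

theorem xcor_ix : ∀ n : Fin 5, (∃ e, n + 2 = ix n e) ∧ ∃ e, n + 3 = ix n e := by
  decide

variable {K A : Type} [CommRing K] [Ring A] [Algebra K A] {a τ : Fin 5 → A} {d : ℕ}

/-- Write `τ n = ∑ c n m • a m` (`LS_one`), `T = ∑ c (m - 1) m • a m`; `Good.d1` gives
`c (n + 2) (n + 1) = c n (n + 1)`. -/
theorem Good.corner_one (h : Good K a) (hτ : ∀ n, τ n ∈ LS K a 1)
    (h0 : ∀ n, cm (a n) (cm (a (n + 2)) (τ (n + 2) - τ n)) = 0) :
    ∃ T ∈ LS K a 1, ∀ n, T - τ n ∈ LS K ![a n, a (n + 2), a (n + 3)] 1 := by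
  have hc : ∀ n, ∃ c : Fin 5 → K, ∑ m, c m • a m = τ n := fun n =>
    (Submodule.mem_span_range_iff_exists_fun K).1 (LS_one (K := K) a ▸ hτ n)
  choose c hc using hc
  have hd : ∀ n, c (n + 2) (n + 1) = c n (n + 1) := fun n => by
    refine sub_eq_zero.1 (h.d1 n (fun m => c (n + 2) m - c n m) ?_)
    simp only [sub_smul, Finset.sum_sub_distrib, hc]
    exact h0 n
  refine ⟨∑ m, c (m - 1) m • a m, Submodule.sum_mem _ fun m _ =>
    Submodule.smul_mem _ _ (gen_mem_LS a m), fun n => ?_⟩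
  rw [← hc n, ← Finset.sum_sub_distrib]
  refine Submodule.sum_mem _ fun m _ => ?_
  rw [← sub_smul]
  rcases xcor_cases n m with e | e | e | e | e <;> rw [e]
  · exact Submodule.smul_mem _ _ (gen_mem_LS ![a n, a (n + 2), a (n + 3)] 0)
  · rw [add_sub_cancel_right, sub_self, zero_smul]
    exact zero_mem _
  · exact Submodule.smul_mem _ _ (gen_mem_LS ![a n, a (n + 2), a (n + 3)] 1)
  · exact Submodule.smul_mem _ _ (gen_mem_LS ![a n, a (n + 2), a (n + 3)] 2)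
  · have e' := hd (n + 3)
    rw [(xcor_add n).1, (xcor_add n).2.1] at e'
    rw [(xcor_add n).2.2, e', sub_self, zero_smul]
    exact zero_mem _

theorem eq_evK {u v x : A} (π : A →ₐ[K] W K (Fin 2)) (hu : π u = lt 0) (hv : π v = lt 1)
    (hx : x ∈ LS K ![u, v] d) : x = evK u v (π x) := by
  obtain ⟨q, -, rfl⟩ := exists_poly hx
  change evK u v q = evK u v (π (evK u v q))
  rw [map_evK, hu, hv, evK_id]

/-- `T n = τ n + s` with `s` from `Good.c2`. `T n - T (n + 3)` commutes with `a n`, so `Good.c1` and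
`eq_evK` apply; `π n (T n) = π n (τ (n + 2))` and `π n (T (n + 3)) = π n (τ (n + 3))` by `cen_two`
(`map_LS`, `LS_le`). -/
theorem Good.corner (h : Good K a) (hd : 2 ≤ d) (hτ : ∀ n, τ n ∈ LS K a d)
    (h0 : ∀ n, cm (a n) (cm (a (n + 2)) (τ (n + 2) - τ n)) = 0)
    (π : Fin 5 → A →ₐ[K] W K (Fin 2)) (h1 : ∀ n m, π n (a m) ∈ LK K 1)
    (h2 : ∀ n e, π n (a (ix n e)) = lt e) {ψ : W K (Fin 2)}
    (h3 : ∀ n, π n (τ (ix n 1)) - π n (τ (ix n 0)) = ψ) :
    ∃ T : Fin 5 → A, (∀ n, T n ∈ LS K a d ∧ T n - τ n ∈ LS K ![a (n + 2), a (n + 3)] d) ∧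
      T 0 - T 3 = evK (a 3) (a 2) ψ ∧ T 1 - T 4 = -evK (a 3) (a 4) ψ ∧
      T 2 - T 0 = evK (a 0) (a 4) ψ ∧ T 3 - T 1 = -evK (a 0) (a 1) ψ ∧
      T 4 - T 2 = -evK (a 1) (a 2) ψ := by
  choose s hs hs0 using fun n => h.c2 n (by omega : 1 ≤ d) (sub_mem (hτ (n + 2)) (hτ n)) (h0 n)
  have hsa : ∀ n, s n ∈ LS K a d := fun n =>
    LS_le (fun j => by fin_cases j <;> exact gen_mem_LS a _) d (hs n)
  have hsc : ∀ n, cm (a n) (s n) = 0 := fun n =>
    cm_LS_zero (fun j => by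
      fin_cases j
      exacts [(h.rel.comm n).1, (h.rel.comm n).2]) (hs n)
  have hz : ∀ n m e u, m = ix n e → u ∈ LS K a d → cm (a m) u = 0 → π n u = 0 := by
    rintro n _ e u rfl hu hc
    refine cen_two (i := e) hd (LS_le (fun j => h1 n j) d (map_LS (π n) hu)) ?_
    rw [← h2 n e, ← map_cm, hc, map_zero]
  have key : ∀ n, τ n + s n - (τ (n + 3) + s (n + 3)) =
      evK (a (ix n 0)) (a (ix n 1)) (π n (τ (n + 2)) - π n (τ (n + 3))) := by
    intro n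
    have hm : τ n + s n - (τ (n + 3) + s (n + 3)) ∈ LS K a d :=
      sub_mem (add_mem (hτ _) (hsa _)) (add_mem (hτ _) (hsa _))
    have hc : cm (a n) (τ n + s n - (τ (n + 3) + s (n + 3))) = 0 := by
      have e1 := hs0 (n + 3)
      have e2 := hsc n
      rw [(xcor_add n).1] at e1
      simp only [cm] at e1 e2 ⊢
      linear_combination (norm := noncomm_ring) e1 + e2
    obtain ⟨⟨e2, he2⟩, ⟨e3, he3⟩⟩ := xcor_ix n
    have hm2 : τ n + s n - (τ (n + 3) + s (n + 3)) ∈ LS K ![a (ix n 0), a (ix n 1)] d := by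
      have hg : ∀ e, a (ix n e) ∈ LS K ![a (ix n 0), a (ix n 1)] 1 := fun e => by
        fin_cases e
        exacts [gen_mem_LS ![a (ix n 0), a (ix n 1)] 0, gen_mem_LS ![a (ix n 0), a (ix n 1)] 1]
      refine LS_le (fun j => ?_) d (h.c1 n hd hm hc)
      fin_cases j
      exacts [he2 ▸ hg e2, he3 ▸ hg e3]
    have z1 := hz n _ e2 _ he2 (sub_mem (sub_mem (hτ (n + 2)) (hτ n)) (hsa n)) (hs0 n)
    have z2 := hz n _ e3 _ he3 (hsa (n + 3)) (hsc (n + 3))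
    rw [eq_evK (π n) (h2 n 0) (h2 n 1) hm2]
    congr 1
    simp only [map_sub, map_add] at z1 ⊢
    linear_combination (norm := abel) -z1 - z2
  refine ⟨fun n => τ n + s n, fun n => ⟨add_mem (hτ n) (hsa n), by simpa using hs n⟩,
    ?_, ?_, ?_, ?_, ?_⟩
  · exact (key 0).trans (congrArg _ (h3 0))
  · refine (key 1).trans ?_
    rw [← h3 1, ← map_neg, neg_sub]
    rfl
  · exact (key 2).trans (congrArg _ (h3 2))
  · refine (key 3).trans ?_
    rw [← h3 3, ← map_neg, neg_sub]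
    rfl
  · refine (key 4).trans ?_
    rw [← h3 4, ← map_neg, neg_sub]
    rfl

end Pool.Agent.Lib.MP_446a91_nt.Gal
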