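import Pool.Agent.Lib.MP_446a91_nt.Gal.XCor
import Pool.Agent.Lib.MP_446a91_nt.Gal.MgU

/-! The pentagon by successive approximation (MP_446a91_nt, paper A11). -/

namespace Pool.Agent.Lib.MP_446a91_nt.Gal

variable {l : ℕ} [Fact l.Prime] {Q : Type} [Group Q] [TopologicalSpace Q] [IsTopologicalGroup Q]

/-- A faithful system on the group of five points, with its projections. -/
structure Pent (M : Mag l Q (Fin 2)) (G A : Type) [Group G] [TopologicalSpace G]
    [IsTopologicalGroup G] [Ring A] [Algebra ℤ_[l] A] where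
  S : LTSys l G A
  faith : S.Faith
  a : Fin 5 → G
  gens : S.Gens a
  good : Good ℤ_[l] fun n => S.L 1 (a n)
  cen : ∀ n m, m = n + 2 ∨ m = n + 3 → ∃ b, Commute (a n) b ∧ S.L 1 b = S.L 1 (a m)
  p : Fin 5 → G →* Q
  p_cont : ∀ n, Continuous (p n)
  π : Fin 5 → A →ₐ[ℤ_[l]] W ℤ_[l] (Fin 2)
  π_L : ∀ n d g, π n (S.L d g) = M.L d (p n g)
  π_a : ∀ n e, M.L 1 (p n (a (ix n e))) = lt e

variable {M : Mag l Q (Fin 2)} {G A : Type} [Group G] [TopologicalSpace G] [IsTopologicalGroup G]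
  [CompactSpace G] [T2Space G] [Ring A] [Algebra ℤ_[l] A] (P : Pent M G A) {α : MulAut Q}
  {d m : ℕ} {β : G →* G} {t : Fin 5 → G} {f : Q}

/-- A special endomorphism over `α` with conjugating elements in `G(d)`. -/
structure Pent.Spec (α : MulAut Q) (d : ℕ) (β : G →* G) (t : Fin 5 → G) : Prop where
  cont : Continuous β
  mem : ∀ n, t n ∈ lcs G d
  conj : ∀ n, β (P.a n) = (t n)⁻¹ * P.a n * t n
  ov : ∀ n, ∃ g, ∀ h, P.p n (β h) = g * α (P.p n h) * g⁻¹

/-- `β` has level `d` (`Faith.dense`, `lev_of_gens`); the commutator of `a n` and `a (n + 2)` lies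
in `G(3)` (`faith.ker`); `Lev.mem`, `lev_comm`, `L_conj_div`, Jacobi. -/
theorem Pent.key (hd : 1 ≤ d) (h : P.Spec α d β t) (n : Fin 5) :
    cm (P.S.L 1 (P.a n)) (cm (P.S.L 1 (P.a (n + 2)))
      (P.S.L d (t (n + 2)) - P.S.L d (t n))) = 0 := by
  have h1 : Lev β d := lev_of_gens (P.faith.dense P.gens) β h.cont fun i => by
    simpa [h.conj] using comm_mem (inv_mem (h.mem i)) (mem_lcs_one (P.a i))
  have h2 := (P.good.rel.comm n).1
  have ha := mem_lcs_one (P.a n)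
  have hb := mem_lcs_one (P.a (n + 2))
  have h3 := P.faith.ker (Nat.le_add_left 1 1) (comm_mem ha hb)
    ((P.S.comm le_rfl le_rfl ha hb).trans h2)
  have h4 := (P.S.lev_comm β h.cont hd h1 le_rfl le_rfl ha hb).symm.trans
    (P.S.zero (by omega) (h1.mem β h.cont (by omega) h3))
  rw [h.conj, h.conj, P.S.L_conj_div hd le_rfl (h.mem _) ha,
    P.S.L_conj_div hd le_rfl (h.mem _) hb] at h4
  generalize P.S.L 1 (P.a n) = x, P.S.L 1 (P.a (n + 2)) = y, P.S.L d (t n) = u,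
    P.S.L d (t (n + 2)) = v at h2 h4 ⊢
  have h5 : cm x (cm y (v - u)) = cm (cm x u) y + cm x (cm y v) - cm (cm x y) u := by
    simp only [cm]
    noncomm_ring
  rw [h5, h4, h2]
  simp [cm]

/-- `exists_L_eq` gives `g ∈ G(d)` of class `T` and `c n ∈ G(d)` in the centraliser of `a n`
(closed) of class `T - τ n`; take `β' = g β g⁻¹`, `t' n = c n * t n * g⁻¹`. -/
theorem Pent.update (hd : 1 ≤ d) (h : P.Spec α d β t) {T : A}
    (h1 : T ∈ LS ℤ_[l] (fun n => P.S.L 1 (P.a n)) d)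
    (h2 : ∀ n, T - P.S.L d (t n) ∈
      LS ℤ_[l] ![P.S.L 1 (P.a n), P.S.L 1 (P.a (n + 2)), P.S.L 1 (P.a (n + 3))] d) :
    ∃ β' t', P.Spec α (d + 1) β' t' := by
  obtain ⟨g, -, hg, rfl⟩ := P.S.exists_L_eq (C := ⊤) isClosed_univ (fun _ => trivial) hd h1
  have h3 : ∀ n, ∃ c, c * P.a n = P.a n * c ∧ c ∈ lcs G d ∧
      P.S.L d c = P.S.L d g - P.S.L d (t n) := fun n => by
    obtain ⟨b, hb, eb⟩ := P.cen n _ (.inl rfl)
    obtain ⟨b', hb', eb'⟩ := P.cen n _ (.inr rfl)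
    obtain ⟨c, hc, hc'⟩ := P.S.exists_L_eq (C := Subgroup.centralizer {P.a n})
      (Set.isClosed_centralizer _) (x := ![P.a n, b, b']) (fun i => by
        rw [Subgroup.mem_centralizer_singleton_iff]
        fin_cases i
        exacts [rfl, hb.symm, hb'.symm]) hd (LS_le (fun j => by
        fin_cases j
        exacts [gen_mem_LS _ 0, eb ▸ gen_mem_LS _ 1, eb' ▸ gen_mem_LS _ 2]) d (h2 n))
    exact ⟨c, Subgroup.mem_centralizer_singleton_iff.1 hc, hc'⟩
  choose c hc hcd hcL using h3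
  refine ⟨(MulAut.conj g).toMonoidHom.comp β, fun n => c n * t n * g⁻¹,
    (continuous_const.mul h.cont).mul continuous_const, fun n => ?_, fun n => ?_, fun n => ?_⟩
  · have h4 := mul_mem (hcd n) (h.mem n)
    refine P.faith.ker hd (mul_mem h4 (inv_mem hg)) ?_
    rw [P.S.L_div hd h4 hg, P.S.mul hd (hcd n) (h.mem n), hcL, sub_add_cancel, sub_self]
  · change g * β (P.a n) * g⁻¹ = _
    have h4 : (c n)⁻¹ * P.a n * c n = P.a n := by rw [mul_assoc, ← hc, inv_mul_cancel_left]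
    rw [h.conj]
    conv_lhs => rw [← h4]
    group
  · obtain ⟨g₀, h₀⟩ := h.ov n
    refine ⟨P.p n g * g₀, fun x => ?_⟩
    change P.p n (g * β x * g⁻¹) = _
    rw [map_mul, map_mul, map_inv, h₀]
    group

/-- `lemU'`. -/
theorem Pent.proj (hα : Continuous α) (hd : 2 ≤ d) (hm : d ≤ m) (hf : f ∈ lcs Q m)
    (hx : α (M.x 0) = M.x 0) (hy : α (M.x 1) = f⁻¹ * M.x 1 * f) (h : P.Spec α d β t)
    (n : Fin 5) : P.π n (P.S.L d (t (ix n 1))) - P.π n (P.S.L d (t (ix n 0))) = M.L d f := by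
  obtain ⟨g, hg⟩ := h.ov n
  have h1 : ∀ k, g * α (P.p n (P.a k)) * g⁻¹ = (P.p n (t k))⁻¹ * P.p n (P.a k) * P.p n (t k) :=
    fun k => by rw [← hg, h.conj, map_mul, map_mul, map_inv]
  rw [P.π_L, P.π_L]
  exact M.lemU' α hα hd hm hf hx hy (P.π_a n 0) (P.π_a n 1) (map_lcs _ (P.p_cont n) (h.mem _))
    (map_lcs _ (P.p_cont n) (h.mem _)) (h1 _) (h1 _)

/-- Induction on `d ≤ m`: `corner_one` for `d = 1`; `corner` with `M.L d f = 0` for `2 ≤ d < m` (all
`T n` are equal); in degree `m` add the five differences and use `Good.upk`. -/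
theorem Pent.upk (hα : Continuous α) (hm : 2 ≤ m) (hf : f ∈ lcs Q m) (hx : α (M.x 0) = M.x 0)
    (hy : α (M.x 1) = f⁻¹ * M.x 1 * f) (h : P.Spec α 1 β t) : UPK (M.L m f) := by
  have key := fun d (hd : 2 ≤ d) (hdm : d ≤ m) β t (h : P.Spec α d β t) =>
    P.good.corner hd (fun n => P.S.L_mem P.gens (by omega) (h.mem n)) (P.key (by omega) h) P.π
      (fun n k => by
        rw [P.π_L]
        exact M.L_memLS le_rfl (mem_lcs_one _))
      (fun n e => (P.π_L _ _ _).trans (P.π_a n e)) (P.proj hα hd hdm hf hx hy h)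
  have h1 : ∀ d, 2 ≤ d → d ≤ m → ∃ β t, P.Spec α d β t := fun d hd => by
    induction d, hd using Nat.le_induction with
    | base =>
      obtain ⟨T, h2, h3⟩ := P.good.corner_one (fun n => P.S.L_mem P.gens le_rfl (h.mem n))
        (P.key le_rfl h)
      exact fun _ => P.update le_rfl h h2 h3
    | succ d hd ih =>
      intro hdm
      obtain ⟨β, t, h⟩ := ih (by omega)
      obtain ⟨T, h2, e0, e1, e2, e3, e4⟩ := key d hd (by omega) β t h
      simp only [M.L_of_lt (by omega) hdm hf, map_zero, neg_zero, sub_eq_zero] at e0 e1 e2 e3 e4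
      refine P.update (by omega) h (h2 0).1 fun n => LS_le (fun j => ?_) d
        ((?_ : T n = T 0) ▸ (h2 n).2)
      · fin_cases j
        exacts [gen_mem_LS _ 1, gen_mem_LS _ 2]
      · fin_cases n
        exacts [rfl, e3.symm.trans e0.symm, e2, e0.symm, e4.trans e2]
  obtain ⟨β, t, h⟩ := h1 m hm le_rfl
  obtain ⟨T, -, e0, e1, e2, e3, e4⟩ := key m hm le_rfl β t h
  refine P.good.upk (M.L_memLS (by omega) hf) ?_
  rw [← e0, ← e2, ← neg_eq_iff_eq_neg.2 e1, ← neg_eq_iff_eq_neg.2 e3, ← neg_eq_iff_eq_neg.2 e4]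
  abel

end Pool.Agent.Lib.MP_446a91_nt.Gal
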