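import Pool.Agent.Lib.MP_446a91_nt.Gal.MgU
import Pool.Agent.Lib.MP_446a91_nt.Gal.MgWitt

/-! The adjoint model of the group of five points (MP_446a91_nt, paper A8). -/

namespace Pool.Agent.Lib.MP_446a91_nt.Gal

open Module

/-- The inner derivation `v ↦ [u, v]`. -/
noncomputable def adW {K ι : Type} [CommRing K] (u : W K ι) : End K (W K ι) :=
  LinearMap.mulLeft K u - LinearMap.mulRight K u

theorem adW_apply {K ι : Type} [CommRing K] (u v : W K ι) : adW u v = cm u v := rfl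

theorem xmod_cm {K ι : Type} [CommRing K] (u v : W K ι) : adW (cm u v) = cm (adW u) (adW v) :=
  LinearMap.ext fun w => by
    show cm (cm u v) w = cm u (cm v w) - cm v (cm u w)
    simp only [cm]
    noncomm_ring

theorem xmod_der {K ι : Type} [CommRing K] (u : W K ι) : IsDer (adW u) := fun a b => by
  simp only [adW_apply, cm]
  noncomm_ring

/-- On Lie polynomials the substitution `X ↦ ad X` is `ad`. -/
theorem evW_adW {K ι : Type} [CommRing K] {d : ℕ} {q : W K ι}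
    (hq : q ∈ LS K (lt : ι → W K ι) d) : evW (fun c => adW (lt c : W K ι)) q = adW q := by
  rw [LS_eq_span] at hq
  induction hq using Submodule.span_induction with
  | mem u hu =>
    replace hu : Br (lt : ι → W K ι) (fun _ => 1) d u := hu
    induction hu with
    | of i => exact evW_lt _ i
    | lie _ _ h1 h2 => rw [map_cm, h1, h2, xmod_cm]
  | zero => simp [adW]
  | add u v _ _ h1 h2 =>
    rw [map_add, h1, h2]
    exact LinearMap.ext fun w => by
      simp only [LinearMap.add_apply, adW_apply, cm]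
      noncomm_ring
  | smul r u _ h =>
    rw [map_smul, h]
    exact LinearMap.ext fun w => by simp [adW_apply, cm, smul_sub]

variable {l : ℕ} [Fact l.Prime] {Q G Φ : Type} [Group Q] [TopologicalSpace Q]
  [IsTopologicalGroup Q] [Group G] [TopologicalSpace G] [IsTopologicalGroup G] [T2Space G] [Group Φ]
  [TopologicalSpace Φ] [IsTopologicalGroup Φ] [CompactSpace Φ] {kk : Fin 2 → Q → ℤ_[l]}
  (X : XGeo l Q G Φ kk)

/-- The characters `κ 2, κ 4, κ 3` are dual to the generators of the fibre. -/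
theorem XGeo.dual : (∀ c : Fin 3, IsChar fun φ => X.κ (![2, 4, 3] c) (X.i φ)) ∧
    ∀ c d : Fin 3, X.κ (![2, 4, 3] c) (X.i (X.xs d)) = if c = d then 1 else 0 := by
  refine ⟨fun c => ⟨(X.κ_char _).cont.comp X.i_cont, fun a b => ?_⟩, fun c d => ?_⟩
  · rw [map_mul, (X.κ_char _).add]
  · rw [X.κ_xs]
    fin_cases c <;> fin_cases d <;> simp [tabA, fib]

theorem XGeo.split (g : G) : ∃ φ, g = X.i φ * X.sec (X.p 0 g) := by
  obtain ⟨φ, h⟩ := (X.ker (g * (X.sec (X.p 0 g))⁻¹)).1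
    (by rw [map_mul, map_inv, X.p_sec, mul_inv_cancel])
  exact ⟨φ, by rw [h, inv_mul_cancel_right]⟩

/-- Conjugation on the normal subgroup `range i = ker (p 0)`; `i` is a closed embedding. -/
theorem XGeo.exists_rho : ∃ ρ : G →* MulAut Φ, (∀ g φ, X.i (ρ g φ) = g * X.i φ * g⁻¹) ∧
    (∀ g, Continuous (ρ g)) ∧ ∀ φ, Continuous fun g => ρ g φ := by
  have hk : X.i.range = (X.p 0).ker := Subgroup.ext fun g => (X.ker g).symm
  haveI : X.i.range.Normal := hk ▸ inferInstance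
  let e : Φ ≃* X.i.range := MonoidHom.ofInjective X.i_inj
  have he : ∀ u : X.i.range, X.i (e.symm u) = u := fun u =>
    congrArg Subtype.val (e.apply_symm_apply u)
  have hi := (X.i_cont.isClosedEmbedding X.i_inj).isInducing
  let ρ : G →* MulAut Φ := (MulAut.congr e.symm).toMonoidHom.comp MulAut.conjNormal
  have h : ∀ g φ, X.i (ρ g φ) = g * X.i φ * g⁻¹ := fun g φ => he _
  have hc := X.i_cont
  refine ⟨ρ, h, fun g => hi.continuous_iff.2 ?_, fun φ => hi.continuous_iff.2 ?_⟩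
  · rw [show X.i ∘ ρ g = fun φ => g * X.i φ * g⁻¹ from funext (h g)]
    fun_prop
  · rw [show (X.i ∘ fun g => ρ g φ) = fun g => g * X.i φ * g⁻¹ from funext fun g => h g φ]
    fun_prop

/-- `exists_derSys` for `ρ` (`lev_one_of_char`); `der_ext`, `D_lt`, `comm`. -/
theorem XGeo.exists_ad (N : Mag l Φ (Fin 3)) (hN : N.x = X.xs) :
    ∃ S : LTSys l G (End ℤ_[l] (W ℤ_[l] (Fin 3))),
      ∀ d φ, 1 ≤ d → φ ∈ lcs Φ d → S.L d (X.i φ) = adW (N.L d φ) := by
  obtain ⟨ρ, h, h1, h2⟩ := X.exists_rho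
  obtain ⟨S, hS⟩ := N.exists_derSys ρ h1 h2 fun g =>
    N.lev_one_of_char X.dual.1 (hN ▸ X.dual.2) fun c φ => by
      simp only [h, (X.κ_char _).add, (X.κ_char _).inv]
      ring
  refine ⟨S, fun d φ hd hφ => ?_⟩
  rw [hS]
  refine der_ext (N.D_isDer _ d) (xmod_der _) fun c => ?_
  have e : ρ (X.i φ) (N.x c) = φ * N.x c * φ⁻¹ := X.i_inj (by simp [h])
  rw [N.D_lt, e, N.comm hd le_rfl hφ (mem_lcs_one _), N.L_x, adW_apply]

variable (M : Mag l Q (Fin 2)) (N : Mag l Φ (Fin 3))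

/-- `p 0 g ∈ Q(2)` since `kk e (p 0 g) = κ e g`; `split`, `mem_two_of_char`. -/
theorem XGeo.mem_two (hL : ∀ g, M.L 1 g = ∑ e, kk e g • lt e) (hN : N.x = X.xs) {g : G}
    (h : ∀ j, X.κ j g = 0) : g ∈ lcs G 2 := by
  obtain ⟨φ, e⟩ := X.split g
  have h1 : X.sec (X.p 0 g) ∈ lcs G 2 :=
    map_lcs X.sec X.sec_cont (M.faith.mem_two (by simp [hL, X.κ_p, h]))
  have h2 : φ ∈ lcs Φ 2 := N.mem_two_of_char X.dual.1 (hN ▸ X.dual.2) fun c => by
    have := h (![2, 4, 3] c)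
    rwa [e, (X.κ_char _).add, (X.κ_char _).two h1, add_zero] at this
  rw [e]
  exact mul_mem (map_lcs X.i X.i_cont h2) h1

/-- If `i φ ∈ G(d)` then `φ ∈ Φ(e)` for `e ≤ d` by induction (`cen_both`); `split`. -/
theorem XGeo.faith {A : Type} [Ring A] [Algebra ℤ_[l] A] (S : LTSys l G A)
    (θ : A →ₐ[ℤ_[l]] End ℤ_[l] (W ℤ_[l] (Fin 3))) (π : A →ₐ[ℤ_[l]] W ℤ_[l] (Fin 2))
    (h1 : ∀ d φ, 1 ≤ d → φ ∈ lcs Φ d → θ (S.L d (X.i φ)) = adW (N.L d φ))
    (h2 : ∀ d g, π (S.L d g) = M.L d (X.p 0 g)) : S.Faith := by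
  have step : ∀ d φ, 1 ≤ d → φ ∈ lcs Φ d → S.L d (X.i φ) = 0 → φ ∈ lcs Φ (d + 1) := by
    intro d φ hd hφ h0
    have h := h1 d φ hd hφ
    rw [h0, map_zero] at h
    have k : ∀ c, cm (lt c) (N.L d φ) = 0 := fun c => by
      have := LinearMap.congr_fun h (lt c)
      rw [LinearMap.zero_apply, adW_apply, cm, eq_comm, sub_eq_zero] at this
      rw [cm, this, sub_self]
    exact N.faith.ker hd hφ (cen_both (N.L_memLS hd hφ) (i := 0) (j := 1) (by decide) (k 0) (k 1))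
  have deep : ∀ d φ, X.i φ ∈ lcs G d → ∀ e, e + 1 ≤ d → φ ∈ lcs Φ (e + 1) := by
    intro d φ hφ e
    induction e with
    | zero => exact fun _ => mem_lcs_one φ
    | succ e ih =>
      exact fun he => step _ φ (by omega) (ih (by omega)) (S.L_of_lt (by omega) (by omega) hφ)
  refine ⟨fun {d g} hd hg h0 => ?_, fun g hg => ?_⟩
  · obtain ⟨φ, e⟩ := X.split g
    have k1 : X.sec (X.p 0 g) ∈ lcs G (d + 1) := map_lcs X.sec X.sec_cont
      (M.faith.ker hd (map_lcs (X.p 0) (X.p_cont 0) hg) (by rw [← h2, h0, map_zero]))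
    have k2 := lcs_anti d.le_succ k1
    have e' : X.i φ = g * (X.sec (X.p 0 g))⁻¹ := eq_mul_inv_of_mul_eq e.symm
    have k3 : X.i φ ∈ lcs G d := e' ▸ mul_mem hg (inv_mem k2)
    obtain ⟨n, rfl⟩ := Nat.exists_eq_add_of_le' hd
    have k4 := step _ φ hd (deep _ φ k3 n le_rfl)
      (by rw [e', S.L_div hd hg k2, h0, S.zero hd k1, sub_zero])
    rw [e]
    exact mul_mem (map_lcs X.i X.i_cont k4) k1
  · obtain ⟨φ, rfl⟩ := (X.ker g).1
      (M.faith.inter _ fun d => map_lcs (X.p 0) (X.p_cont 0) (hg d))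
    rw [N.faith.inter φ fun d => lcs_anti d.le_succ (deep _ φ (hg (d + 1)) d le_rfl), map_one]

end Pool.Agent.Lib.MP_446a91_nt.Gal
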