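import Pool.Agent.Lib.MP_446a91_nt.Gal.XMod
import Pool.Agent.Lib.MP_446a91_nt.Gal.XInd

/-! Classes of the divisors (MP_446a91_nt, paper A9). -/

namespace Pool.Agent.Lib.MP_446a91_nt.Gal

variable {l : ℕ} [Fact l.Prime] {Q G Φ A : Type} [Group Q] [TopologicalSpace Q]
  [IsTopologicalGroup Q] [Group G] [TopologicalSpace G] [IsTopologicalGroup G] [Group Φ]
  [TopologicalSpace Φ] [IsTopologicalGroup Φ] [Ring A] [Algebra ℤ_[l] A]
  {kk : Fin 2 → Q → ℤ_[l]} (X : XGeo l Q G Φ kk) (S : LTSys l G A)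

/-- The first five divisors. -/
def XGeo.a5 (n : Fin 5) : G := X.a n.castSucc

theorem xtab_zpow {H B : Type} [Group H] [AddCommGroup B] {F : H → B}
    (h : ∀ a b, F (a * b) = F a + F b) (g : H) (n : ℤ) : F (g ^ n) = n • F g := by
  let f : H →* Multiplicative B := MonoidHom.mk' (fun a => Multiplicative.ofAdd (F a))
    (fun a b => by rw [h, ofAdd_add])
  have h1 := congrArg Multiplicative.toAdd (map_zpow f g n)
  rwa [toAdd_zpow] at h1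

theorem xtab_eq (h2 : ∀ g, (∀ j, X.κ j g = 0) → g ∈ lcs G 2) {g g' : G}
    (h : ∀ j, X.κ j g = X.κ j g') : S.L 1 g = S.L 1 g' :=
  S.L_congr le_rfl (mem_lcs_one g') (h2 _ fun j => by
    rw [(X.κ_char j).add, (X.κ_char j).inv, h, add_neg_cancel])

/-- The class depends only on the five characters (compare `g` with a product of powers). -/
theorem XGeo.L_comb (h2 : ∀ g, (∀ j, X.κ j g = 0) → g ∈ lcs G 2) {g : G} (c : Fin 5 → ℤ)
    (h : ∀ j, X.κ j g = ∑ n : Fin 5, (c n * tabA n.castSucc j : ℤ)) :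
    S.L 1 g = ∑ n, c n • S.L 1 (X.a5 n) := by
  have key : ∀ {B : Type} [AddCommGroup B] {F : G → B}, (∀ a b, F (a * b) = F a + F b) →
      F (X.a5 0 ^ c 0 * X.a5 1 ^ c 1 * X.a5 2 ^ c 2 * X.a5 3 ^ c 3 * X.a5 4 ^ c 4) =
        ∑ n, c n • F (X.a5 n) := fun hF => by
    simp only [hF, xtab_zpow hF, Fin.sum_univ_five]
  rw [← key fun a b => S.mul le_rfl (mem_lcs_one a) (mem_lcs_one b)]
  refine xtab_eq X S h2 fun j => ?_
  rw [key (X.κ_char j).add, h]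
  simp only [XGeo.a5, X.κ_a, zsmul_eq_mul]
  push_cast
  rfl

theorem xtab_vec (h2 : ∀ g, (∀ j, X.κ j g = 0) → g ∈ lcs G 2) {g : G} (v : Fin 5 → ℤ)
    (h : ∀ j, X.κ j g = v j) :
    S.L 1 g = ∑ n, ![v 2 - v 0, v 4 - v 0 - v 3, v 1 - v 3, v 0, v 3] n • S.L 1 (X.a5 n) := by
  refine X.L_comb S h2 _ fun j => ?_
  rw [h]
  norm_cast
  fin_cases j <;> simp [Fin.sum_univ_five, tabA]
  ring

theorem xtab_tab : ∀ n m : Fin 5, (m = n + 2 ∨ m = n + 3) → ∃ e : Fin 2,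
    (∀ j, tabB n.castSucc e j = tabA m.castSucc j) ∨
      ∀ j, tabB n.castSucc e j + tabA n.castSucc j = tabA m.castSucc j := by decide

/-- `b n e`, possibly multiplied by `a n`. -/
theorem XGeo.cen (h2 : ∀ g, (∀ j, X.κ j g = 0) → g ∈ lcs G 2) (n m : Fin 5)
    (h : m = n + 2 ∨ m = n + 3) : ∃ b, Commute (X.a5 n) b ∧ S.L 1 b = S.L 1 (X.a5 m) := by
  obtain ⟨e, he | he⟩ := xtab_tab n m h
  · refine ⟨X.b n.castSucc e, X.comm _ e, xtab_eq X S h2 fun j => ?_⟩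
    rw [X.κ_b, XGeo.a5, X.κ_a, he]
  · refine ⟨X.b n.castSucc e * X.a5 n, (X.comm _ e).mul_right (Commute.refl _),
      xtab_eq X S h2 fun j => ?_⟩
    rw [(X.κ_char j).add, X.κ_b, XGeo.a5, XGeo.a5, X.κ_a, X.κ_a, ← he, Int.cast_add]

theorem xtab_comm (h2 : ∀ g, (∀ j, X.κ j g = 0) → g ∈ lcs G 2) (n m : Fin 5)
    (h : m = n + 2 ∨ m = n + 3) :
    S.L 1 (X.a5 n) * S.L 1 (X.a5 m) = S.L 1 (X.a5 m) * S.L 1 (X.a5 n) := by
  obtain ⟨b, hb, e⟩ := X.cen S h2 n m h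
  rw [← e]
  exact sub_eq_zero.1 (S.cm_eq_zero le_rfl le_rfl (mem_lcs_one _) (mem_lcs_one _) hb)

theorem xtab_five (h2 : ∀ g, (∀ j, X.κ j g = 0) → g ∈ lcs G 2) {g : G}
    (h : ∀ j, X.κ j g = tabA 5 j) :
    S.L 1 g = S.L 1 (X.a5 4) - S.L 1 (X.a5 1) - S.L 1 (X.a5 2) := by
  rw [xtab_vec X S h2 _ h]
  simp [Fin.sum_univ_five, tabA]
  abel

/-- `Rel5.of_chord` with `a 5` and `b 5 0`, `cm_eq_zero`. -/
theorem XGeo.r5 (h2 : ∀ g, (∀ j, X.κ j g = 0) → g ∈ lcs G 2) :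
    R5 fun n => S.L 1 (X.a5 n) := by
  refine Rel5.of_chord (xtab_comm X S h2 0 2 (by decide)) (xtab_comm X S h2 1 3 (by decide))
    (xtab_comm X S h2 2 4 (by decide)) (xtab_comm X S h2 3 0 (by decide))
    (xtab_comm X S h2 4 1 (by decide)) ?_
  have e : S.L 1 (X.b 5 0) = S.L 1 (X.a5 3) - S.L 1 (X.a5 0) - S.L 1 (X.a5 1) := by
    rw [xtab_vec X S h2 _ (X.κ_b 5 0)]
    simp [Fin.sum_univ_five, tabB]
    abel
  rw [← e, ← xtab_five X S h2 (X.κ_a 5)]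
  exact S.cm_eq_zero le_rfl le_rfl (mem_lcs_one _) (mem_lcs_one _) (X.comm 5 0).symm

theorem XGeo.k3_eq (h2 : ∀ g, (∀ j, X.κ j g = 0) → g ∈ lcs G 2) (c : Fin 3) :
    k3 (fun n => S.L 1 (X.a5 n)) c = S.L 1 (X.i (X.xs c)) := by
  fin_cases c
  · exact xtab_eq X S h2 fun j => (X.κ_a 0 j).trans (X.κ_xs 0 j).symm
  · exact xtab_eq X S h2 fun j => (X.κ_a 1 j).trans (X.κ_xs 1 j).symm
  · exact (xtab_five X S h2 (X.κ_xs 2)).symm

variable (M : Mag l Q (Fin 2))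

theorem XGeo.L_p (hL : ∀ g, M.L 1 g = ∑ e, kk e g • lt e) (q : Fin 4) (n : Fin 5) :
    M.L 1 (X.p q (X.a5 n)) = ∑ e, (∑ j, tabP q e j * tabA n.castSucc j : ℤ) • lt e := by
  rw [hL]
  refine Finset.sum_congr rfl fun e _ => ?_
  rw [X.κ_p, ← Int.cast_smul_eq_zsmul ℤ_[l]]
  simp only [XGeo.a5, X.κ_a]
  push_cast
  rfl

theorem xtab_span (h2 : ∀ g, (∀ j, X.κ j g = 0) → g ∈ lcs G 2) {g : G} (v : Fin 5 → ℤ)
    (h : ∀ j, X.κ j g = v j) :
    S.L 1 g ∈ Submodule.span ℤ_[l] (Set.range fun n => S.L 1 (X.a5 n)) := by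
  rw [xtab_vec X S h2 v h]
  exact Submodule.sum_mem _ fun n _ => zsmul_mem (Submodule.subset_span (Set.mem_range_self n)) _

theorem xtab_mag {H ι : Type} [Group H] [TopologicalSpace H] [IsTopologicalGroup H] [Fintype ι]
    (N : Mag l H ι) (T : LTSys l H A) {V : Submodule ℤ_[l] A} (h : ∀ c, T.L 1 (N.x c) ∈ V)
    (g : H) : T.L 1 g ∈ V := by
  rw [N.univ T le_rfl (mem_lcs_one g), eq_sum_of_one (N.L_memLS le_rfl (mem_lcs_one g)), map_sum]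
  refine V.sum_mem fun c _ => ?_
  rw [map_smul, evW_lt]
  exact V.smul_mem _ (h c)

/-- `g = i φ * sec h`; `Mag.univ` for the systems `S.comap i` and `S.comap sec`, `eq_sum_of_one`;
`kk e (M.x c)` is `δ` by `hL` and `L_x`; `L_comb` for `i (xs c)` and `sec (M.x e)`. -/
theorem XGeo.gens (hL : ∀ g, M.L 1 g = ∑ e, kk e g • lt e) (N : Mag l Φ (Fin 3))
    (hN : N.x = X.xs) (h2 : ∀ g, (∀ j, X.κ j g = 0) → g ∈ lcs G 2) : S.Gens X.a5 := by
  intro g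
  obtain ⟨φ, hφ⟩ : g * (X.sec (X.p 0 g))⁻¹ ∈ X.i.range :=
    (X.ker _).1 (by rw [map_mul, map_inv, X.p_sec, mul_inv_cancel])
  have e : g = X.i φ * X.sec (X.p 0 g) := by rw [hφ, inv_mul_cancel_right]
  rw [e, S.mul le_rfl (mem_lcs_one _) (mem_lcs_one _)]
  refine add_mem (xtab_mag N (S.comap X.i X.i_cont) (fun c => ?_) φ)
    (xtab_mag M (S.comap X.sec X.sec_cont) (fun c => ?_) _)
  · rw [hN]
    exact xtab_span X S h2 _ (X.κ_xs c)
  · have hk : ∀ e, kk e (M.x c) = if c = e then 1 else 0 := fun e => by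
      have h1 := congrArg (cf [e]) (hL (M.x c))
      rw [M.L_x] at h1
      have h3 : cf [e] (∑ e, kk e (M.x c) • lt e : W ℤ_[l] (Fin 2)) = kk e (M.x c) := by
        fin_cases e <;> simp [lt, cf_wrd]
      rw [h3] at h1
      rw [← h1]
      simp [lt, cf_wrd]
    refine xtab_span X S h2 (tabB 0 c) fun j => ?_
    rw [X.κ_sec]
    simp [hk]

end Pool.Agent.Lib.MP_446a91_nt.Gal
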